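import Pool.Agent.Lib.MP_776403_ag.SD.K.Defs
import Pool.Agent.Lib.MP_776403_ag.SD.SpecE

/-!
# THEOREM SD, part K: the self-intersection formula in numerical K-theory (note 4445)

All statements `S_K…` are to be proved in their own modules `SD/K/K….lean`; the docstrings contain
complete proofs.  Part 1: graded families in modules over polynomial rings.  Part 2: the Koszul
complex of the diagonal.  Part 3: tensor products.  Part 4: Hilbert series.
-/

set_option autoImplicit false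

open MvPolynomial

noncomputable section

namespace Pool.Agent.Lib.MP_776403_ag.SD

/-! ## Part 1: graded families -/

/-- KNoe.  Noether's theorem for graded families.

PROOF (same as `NNoe.lean`).  `P = MvPolynomial s ℂ` (noetherian) acts on `W` through
`rename Subtype.val`.  Let `m0` be the bound of `FGP s V U`, `ω_1, …, ω_b` a basis of `U m0`;
`φ : (Fin b → P) → W`, `φ f = ∑ f_i • ω_i`.  By induction on `e`:
`U (m0 + e) = V (m0 + e) + φ (vectors of forms of degree e)`.  Let `W' ⊆ P^b` be the `P`-submodule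
generated by the vectors `f` of forms of some degree `e` with `φ f ∈ V1 (m0 + e)`; finitely many of
these vectors, `f_1, …, f_l` of degrees `e_1, …, e_l`, generate it.  Let `e ≥ max e_j` and
`w ∈ V1 (m0 + e + 1)`.  `w = v + φ f`, `v ∈ V (m0 + e + 1) ≤ V1`, `f` a vector of forms of degree
`e + 1`, so `φ f = w - v ∈ V1`, `f ∈ W'`, `f = ∑ a_j f_j`; taking components of degree `e + 1` we may
take `a_j` a form of degree `e + 1 - e_j ≥ 1`, `a_j = ∑_(i ∈ s) x_i a_ji` with forms of degree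
`e - e_j`; `w = v + ∑_i x_i (∑_j a_ji φ f_j)` and `∑_j a_ji φ f_j ∈ V1 (m0 + e)`, as `V1` is stable
under forms (`GFm s V1`). -/
def S_KNoe : Prop :=
  ∀ (σ : Type) [Finite σ] (W : Type) [AddCommGroup W] [Module (MvPolynomial σ ℂ) W] [Module ℂ W]
    [IsScalarTower ℂ (MvPolynomial σ ℂ) W] (s : Finset σ) (V V1 U : ℕ → Submodule ℂ W),
    GFm s V → GFm s V1 → GFm s U → (∀ m, V m ≤ V1 m) → (∀ m, V1 m ≤ U m) →
    (∀ m, FiniteDimensional ℂ (U m)) → FGP s V U → FGP s V V1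

/-- KHS.  Hilbert-Serre: `(1 - T)^(card s) ∑ dim (U m / V m) T^m` is a polynomial.

PROOF.  Induction over `s` (`Finset.induction_on`, for all `V ≤ U`).  `s = ∅`: `U m = V m` for
large `m`, the series is a polynomial.  `insert i s`: put
`K m = {w ∈ U m : x_i w ∈ V (m + 1)}` (`≥ V m`), `V' 0 = V 0`,
`V' (m + 1) = V (m + 1) + x_i U m` (`≤ U (m + 1)`).  The map `U m → (V (m+1) + x_i U m) / V (m+1)`,
`w ↦ x_i w`, is surjective with kernel `K m`, so with `h m = dim U m - dim V m`,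
`q m = dim U m - dim V' m`, `k m = dim K m - dim V m` : `h (m + 1) - h m = q (m + 1) - k m`, and
`q 0 = h 0`; in power series `(1 - T) HS_h = HS_q - T HS_k`.  The pair `(V', U)` is stable under `s`
(`x_j x_i = x_i x_j`) and `FGP s V' U`.  The pair `(V, K)` is stable under `s`; KNoe for
`insert i s` gives `FGP (insert i s) V K`, and `x_i K m ≤ V (m + 1)`, so `FGP s V K`.  By induction
`(1 - T)^(card s) HS_q`, `(1 - T)^(card s) HS_k` are polynomials. -/
def S_KHS : Prop :=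
  ∀ (σ : Type) [Finite σ] (W : Type) [AddCommGroup W] [Module (MvPolynomial σ ℂ) W] [Module ℂ W]
    [IsScalarTower ℂ (MvPolynomial σ ℂ) W] (s : Finset σ) (V U : ℕ → Submodule ℂ W),
    GFm s V → GFm s U → (∀ m, V m ≤ U m) → (∀ m, FiniteDimensional ℂ (U m)) → FGP s V U →
    ∃ p : Polynomial ℤ, (1 - PowerSeries.X) ^ s.card * PowerSeries.mk (fun m =>
      (Module.finrank ℂ (U m) : ℤ) - Module.finrank ℂ (V m)) = (p : PowerSeries ℤ)

/-! ## Part 2: the Koszul complex of the diagonal -/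

/-- KDD.  `d ∘ d = 0`.

PROOF.  `(d d ω)(T) = ∑_(k ∉ T) ∑_(l ∉ T ∪ {k}) sg k T sg l (T ∪ {k}) z_k z_l ω(T ∪ {k, l})`; the terms
`(k, l)` and `(l, k)`, `k < l`, cancel: `sg l (T ∪ {k}) = - sg l T`, `sg k (T ∪ {l}) = sg k T`
(`Finset.sum_involution` or an antisymmetry argument over ordered pairs). -/
def S_KDD : Prop :=
  ∀ (N : ℕ) (M : Type) [AddCommGroup M] [Module (Rx N) M] (ω : Cn N M), dK (dK ω) = 0

/-- KHot.  The homotopy `d (e_k ω) + e_k (d ω) = z_k ω`.

PROOF.  At `T` with `k ∉ T`: the second term is `0`, in the first only `l = k` contributes,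
`sg k T z_k sg k T ω(T)`.  At `T` with `k ∈ T`, `T' = T \ {k}`: first term
`∑_(l ∉ T) sg l T sg k (T' ∪ {l}) z_l ω(T' ∪ {l})`, second term `sg k T' (sg k T' z_k ω(T) +
∑_(l ∉ T) sg l T' z_l ω(T' ∪ {l}))`; `sg l T = sg l T' (-1)^[k < l]`,
`sg k (T' ∪ {l}) = sg k T' (-1)^[l < k]`, exactly one of `k < l`, `l < k` holds, so the sums cancel and
`z_k ω(T)` remains. -/
def S_KHot : Prop :=
  ∀ (N : ℕ) (M : Type) [AddCommGroup M] [Module (Rx N) M] (k : Fin (N + 1)) (ω : Cn N M),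
    dK (eK k ω) + eK k (dK ω) = (zz k : Rx N) • ω

/-- KFam.  Chains, cycles and boundaries of a finitely generated graded family.

PROOF.  (1) `X_j` maps `A (m - i)` to `A (m + 1 - i)`; `dK`, `eK` are linear over `Rx N`.
(2) `dK` maps `Kc N A (i + 1) m` to `Kc N A i m`: `z_k A (m - i - 1) ≤ A (m - i)` (if `m < i + 1` the chain is
zero), and `insert k T` has cardinality `card T + 1` for `k ∉ T`; KDD.  (3) `Kc N A i m` is isomorphic to
`A (m - i)^(sets of cardinality i)`; finite-dimensional; finitely generated: for `m ≥ m0 + i`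
every `w ∈ A (m + 1 - i)` is `∑ x_j w_j`, so a chain `ω` is a sum over `T` and `j` of `x_j` times a chain
supported at `T`.  (4) KNoe with `V = ⊥` for `Zc ≤ Kc` and `Bc ≤ Kc`.  (5) KHot: for a cycle
`z_k ω = d (e_k ω)`, `e_k` maps `Kc N A i m` to `Kc N A (i + 1) (m + 1)` (also if `m < i`: zero). -/
def S_KFam : Prop :=
  ∀ (N : ℕ) (M : Type) [AddCommGroup M] [Module (Rx N) M] [Module ℂ M] [IsScalarTower ℂ (Rx N) M]
    (A : ℕ → Submodule ℂ M), GF N A → (∀ m, FiniteDimensional ℂ (A m)) →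
    FG N (fun _ => ⊥) A → ∀ i : ℕ,
    (GF N (Kc N A i) ∧ GF N (Zc N A i) ∧ GF N (Bc N A i)) ∧
    (∀ m, Bc N A i m ≤ Zc N A i m ∧ Zc N A i m ≤ Kc N A i m ∧ FiniteDimensional ℂ (Kc N A i m)) ∧
    (FG N (fun _ => ⊥) (Kc N A i) ∧ FG N (fun _ => ⊥) (Zc N A i) ∧
      FG N (fun _ => ⊥) (Bc N A i)) ∧
    ∀ (k : Fin (N + 1)) (m : ℕ), ∀ ω ∈ Zc N A i m, (zz k : Rx N) • ω ∈ Bc N A i (m + 1)

/-- KEul.  Euler characteristic.

PROOF.  `dim Kc N A i m = binom (N + 1) i * dim A (m - i)` for `i ≤ m`, `0` for `m < i`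
(`Finset.card_powersetCard`).  Rank-nullity for `dK` on `Kc N A i m`:
`dim Kc N A i m = dim Zc N A i m + dim (dK (Kc N A i m))`; `dK (Kc N A (i + 1) m) = Bc N A i m`,
`dK (Kc N A 0 m) = 0` (a chain of degree `0` vanishes at `insert k T`), `Kc N A (N + 2) m = 0` (no set of
cardinality `N + 2`), so `Bc N A (N + 1) m = 0`.  Telescope. -/
def S_KEul : Prop :=
  ∀ (N : ℕ) (M : Type) [AddCommGroup M] [Module (Rx N) M] [Module ℂ M] [IsScalarTower ℂ (Rx N) M]
    (A : ℕ → Submodule ℂ M), GF N A → (∀ m, FiniteDimensional ℂ (A m)) → ∀ m : ℕ,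
    ∑ i ∈ Finset.range (N + 2), (-1 : ℤ) ^ i * ((Module.finrank ℂ (Zc N A i m) : ℤ) -
        Module.finrank ℂ (Bc N A i m)) =
      ∑ i ∈ Finset.range (N + 2), (-1 : ℤ) ^ i * (Nat.choose (N + 1) i : ℤ) *
        (if i ≤ m then (Module.finrank ℂ (A (m - i)) : ℤ) else 0)

/-- KLoc.  Local inclusion implies inclusion in large degrees.

PROOF.  Let `m1` be a common bound for the first two conditions.  Let `𝔟` be the set of `g ∈ S` such
that there is `m2` with `iy g_e • U m ≤ V (m + e)` for all `m ≥ m2` and all `e` (`g_e` the components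
of `g`).  It is a homogeneous ideal (`V` is stable under forms in `y`), contains `J` and the `g` of the
third condition, so `zer 𝔟 ⊆ {0}` (a common zero `p ≠ 0` would be in `zer J`).  `S_D6'` or `S_Irr` gives
`ρ` such that the monomials `y^γ`, `|γ| = ρ`, satisfy `y^γ • U m ≤ V (m + ρ)` for `m ≥ m2`.  Let `m0` be
at least `m1`, `m2` and the bound of `FG`, so that `U (m0 + e)` is spanned by the `x^α y^β • w`,
`|α| + |β| = e`, `w ∈ U m0` (induction over `e`).  Modulo `V (m0 + e)` we have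
`x^α y^β • w = y^(α+β) • w` (replace the `x_k` one by one: `z_k • U ≤ V`, and `V` is stable), and for
`e ≥ ρ` this is in `V (m0 + e)`. -/
def S_KLoc : Prop :=
  ∀ (N : ℕ) (J : Ideal (Sx N)), IsHom J → ∀ (M : Type) [AddCommGroup M] [Module (Rx N) M]
    [Module ℂ M] [IsScalarTower ℂ (Rx N) M] (V U : ℕ → Submodule ℂ M),
    GF N V → GF N U → FG N (fun _ => ⊥) U →
    (∃ m1 : ℕ, ∀ (k : Fin (N + 1)) (m : ℕ), m1 ≤ m → ∀ w ∈ U m,
      (zz k : Rx N) • w ∈ V (m + 1)) →
    (∃ m1 : ℕ, ∀ F ∈ J, ∀ e : ℕ, F.IsHomogeneous e → ∀ m, m1 ≤ m → ∀ w ∈ U m,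
      (iy F : Rx N) • w ∈ V (m + e)) →
    (∀ p ∈ zer J, p ≠ 0 → ∃ (g : Sx N) (e m1 : ℕ), g.IsHomogeneous e ∧ eval p g ≠ 0 ∧
      ∀ m, m1 ≤ m → ∀ w ∈ U m, (iy g : Rx N) • w ∈ V (m + e)) →
    ∃ m0 : ℕ, ∀ m, m0 ≤ m → U m ≤ V m

section Involution

variable {N : ℕ} {W : Type} [AddCommGroup W] [Module ℂ W]

/-- The trace of the involution `s` on the stable subspace `U`. -/
def tri (s : W →ₗ[ℂ] W) (U : Submodule ℂ W) : ℤ :=
  (Module.finrank ℂ ↥(U ⊓ LinearMap.ker (s - LinearMap.id)) : ℤ) -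
    Module.finrank ℂ ↥(U ⊓ LinearMap.ker (s + LinearMap.id))

/-- The involution of the chains: `(tw s ω)(T) = (-1)^(card T) s (ω(T))`. -/
def tw (s : W →ₗ[ℂ] W) : Cn N W →ₗ[ℂ] Cn N W where
  toFun ω := fun T => (-1 : ℂ) ^ T.card • s (ω T)
  map_add' ω η := by funext T; simp
  map_smul' r ω := by
    funext T
    simp only [Pi.smul_apply, map_smul, RingHom.id_apply]
    rw [smul_comm]

end Involution

/-- KTri.  Additivity of the trace.

PROOF.  `U = U^+ ⊕ U^-` (`w = (w + s w)/2 + (w - s w)/2`).  `f` maps `U^+` onto `(f U)^+`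
(if `f w = s' f w` then `f w = f ((w + s w)/2)`), with kernel `(U ⊓ ker f)^+`; the same for `-`. -/
def S_KTri : Prop :=
  ∀ (W W' : Type) [AddCommGroup W] [Module ℂ W] [AddCommGroup W'] [Module ℂ W']
    (s : W →ₗ[ℂ] W) (s' : W' →ₗ[ℂ] W') (f : W →ₗ[ℂ] W') (U : Submodule ℂ W),
    FiniteDimensional ℂ U → (∀ w, s (s w) = w) → (∀ w, s' (s' w) = w) →
    (∀ w, f (s w) = s' (f w)) → (∀ w ∈ U, s w ∈ U) →
    tri s U = tri s (U ⊓ LinearMap.ker f) + tri s' (U.map f)

/-- KEuT.  Euler characteristic with an involution.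

PROOF.  `tw s` commutes with `dK`: at `T`,
`∑_(k ∉ T) sg k T z_k (-1)^(card T + 1) s (ω(T ∪ {k})) = (-1)^(card T) s (∑ sg k T z_k ω(T ∪ {k}))`,
and `tw s` is an involution of `Kc N A i m`.  `KTri` for `dK` on `Kc N A i m`:
`tri (Kc i) = tri (Zc i) + tri (dK (Kc i))`, `dK (Kc (i + 1) m) = Bc i m`, `dK (Kc 0 m) = 0`,
`Bc (N + 1) m = 0`.  So the left side is `∑ (-1)^i tri (tw s) (Kc N A i m)`, and
`tri (tw s) (Kc N A i m) = (-1)^i binom (N + 1) i tri s (A (m - i))` for `i ≤ m`, `0` for `m < i`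
(`Kc N A i m` is isomorphic to `A (m - i)^(sets of cardinality i)` and `tw s` acts by `(-1)^i s`;
for `(-1)^i = -1` the eigenspaces are exchanged). -/
def S_KEuT : Prop :=
  ∀ (N : ℕ) (M : Type) [AddCommGroup M] [Module (Rx N) M] [Module ℂ M] [IsScalarTower ℂ (Rx N) M]
    (A : ℕ → Submodule ℂ M) (s : M →ₗ[ℂ] M), GF N A → (∀ m, FiniteDimensional ℂ (A m)) →
    (∀ w, s (s w) = w) → (∀ m, ∀ w ∈ A m, s w ∈ A m) →
    (∀ (k : Fin (N + 1)) (w : M), s ((zz k : Rx N) • w) = -((zz k : Rx N) • s w)) → ∀ m : ℕ,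
    ∑ i ∈ Finset.range (N + 2), (-1 : ℤ) ^ i * (tri (tw s) (Zc N A i m) -
        tri (tw s) (Bc N A i m)) =
      ∑ i ∈ Finset.range (N + 2), (Nat.choose (N + 1) i : ℤ) *
        (if i ≤ m then tri s (A (m - i)) else 0)

/-! ## Part 3: tensor products -/

/-- KGV.  Graded submodules of `S^α`.

PROOF.  `AF`: clear.  `PV`: generators: `X_i (v w) = (X_i v) w`.  `VT`, `VL`: if some `f i = 0` then
`F i` is a constant and the determinant is `0`; otherwise the determinant is homogeneous of degree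
`∑ (f i - 1) = ∑ f i - j` (Leibniz), so the entries have degree `e + ∑ f i - j = k`;
`X i * a` is homogeneous of degree `e + 1`.  `GV` modules are stable under multiplication by forms
(monomials, induction) and their degree `k` parts are finite-dimensional (`α` finite). -/
def S_KGV : Prop :=
  (∀ N : ℕ, GV (AF N)) ∧
  (∀ (N : ℕ) (α β : Type) (V : ℕ → Submodule ℂ (α → Sx N)) (W : ℕ → Submodule ℂ (β → Sx N)),
    GV V → GV W → GV (PV V W)) ∧
  (∀ (N : ℕ) (I : Ideal (Sx N)) (j : ℕ), GV (VL I j) ∧ GV (VT I j)) ∧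
  ∀ (N : ℕ) (α : Type) (V : ℕ → Submodule ℂ (α → Sx N)), GV V →
    (∀ (k e : ℕ) (g : Sx N) (v : α → Sx N), g.IsHomogeneous e → v ∈ V k →
      (fun a => g * v a) ∈ V (k + e)) ∧ (Finite α → ∀ k, FiniteDimensional ℂ (V k))

/-- KGF.  The family `TPf` is a finitely generated graded family over `ℂ[x, y]`.

PROOF.  Stability: `x_i` raises `V`, `y_i` raises `W`.  Finite-dimensional: `TPf I J V W m` is the sum
over `k1 + k2 = m` of the images of the bilinear maps `V k1 × W k2 → ..`.  Finite generation: KNoe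
(over `S`, `σ = Fin (N + 1)`, `V = ⊥`, `V1 = V`, `U k` = all vectors of forms of degree `k`, in the
module `α → S`) gives `k1` with `V (k + 1) = ∑ X_i V k` for `k ≥ k1`, the same for `W` with `k2`; if
`m ≥ k1 + k2` a generator `v(x) w(y)` of degree `m + 1` has `v` of degree `> k1` or `w` of degree
`> k2`, so it is `∑ x_i (..)` or `∑ y_i (..)`. -/
def S_KGF : Prop :=
  ∀ (N : ℕ) (α β : Type) [Finite α] [Finite β] (I J : Ideal (Sx N))
    (V : ℕ → Submodule ℂ (α → Sx N)) (W : ℕ → Submodule ℂ (β → Sx N)), GV V → GV W →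
    GF N (TPf I J V W) ∧ (∀ m, FiniteDimensional ℂ (TPf I J V W m)) ∧
      FG N (fun _ => ⊥) (TPf I J V W)

/-- KMap.  Degrees of the maps.

PROOF.  Chains: a linear map which maps `A k` to `A' (k + s)` for all `k` induces
`Kc N A i m → Kc N A' i (m + s)` (for `m < i` all is zero); with `mapC_dK` the same for cycles and
boundaries.  Generators: `phiE v (g(x) w(y)) = (g v)(x) w(y)` and `g v ∈ V (κ + k0)` for a form `g`
(KGV); `rX ρ (v(x) w(y)) = (ρ · v)(x) w(y)`. -/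
def S_KMap : Prop :=
  (∀ (N : ℕ) (M M' : Type) [AddCommGroup M] [Module (Rx N) M] [Module ℂ M]
    [IsScalarTower ℂ (Rx N) M] [AddCommGroup M'] [Module (Rx N) M'] [Module ℂ M']
    [IsScalarTower ℂ (Rx N) M'] (A : ℕ → Submodule ℂ M) (A' : ℕ → Submodule ℂ M')
    (f : M →ₗ[Rx N] M') (s : ℕ), (∀ k, ∀ w ∈ A k, f w ∈ A' (k + s)) → ∀ i m,
    (∀ ω ∈ Kc N A i m, mapC f ω ∈ Kc N A' i (m + s)) ∧
    (∀ ω ∈ Zc N A i m, mapC f ω ∈ Zc N A' i (m + s)) ∧
    ∀ ω ∈ Bc N A i m, mapC f ω ∈ Bc N A' i (m + s)) ∧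
  ∀ (N : ℕ) (α β : Type) [Fintype α] [Finite β] (I J : Ideal (Sx N))
    (V : ℕ → Submodule ℂ (α → Sx N)) (W : ℕ → Submodule ℂ (β → Sx N)), GV V → GV W →
    (∀ κ, ∀ v ∈ V κ, ∀ k, ∀ c ∈ TPf I J (AF N) W k, phiE I J v c ∈ TPf I J V W (k + κ)) ∧
    ∀ (ρ : α → Sx N) (s : ℕ), (∀ a, (ρ a).IsHomogeneous s) → ∀ k,
      ∀ c ∈ TPf I J V W k, rX I J ρ c ∈ TPf I J (AF N) W (k + s)

/-! ## Part 4: Hilbert series -/

/-- KTP.  The Hilbert function of a tensor product.

PROOF.  Choose for every `k` vectors `v_(k,i) ∈ V k` whose reductions modulo `I` are a basis of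
`(V k).map (redL α I)`, and `w_(l,j) ∈ W l` for `J`.  The vectors
`u = (p ↦ mk (ix (v_(k,i) p.1) * iy (w_(l,j) p.2)))`, `k + l = m`, span `TPf I J V W m` (`ix (I)` and
`iy (J)` are in `cc I J`).  They are independent: the algebra homomorphism
`Rx N → (S/I) ⊗ (S/J)`, `x_i ↦ x_i ⊗ 1`, `y_i ↦ 1 ⊗ x_i`, kills `cc I J` and sends `u p` to
`v_(k,i) p.1 ⊗ w_(l,j) p.2`.  The family `(v_(k,i))` (all `k`) is linearly independent in `α → S/I`
(homogeneity of `I`: a relation splits into degrees), so is `(w_(l,j))` in `β → S/J`; so the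
`v_(k,i) ⊗ w_(l,j)` are independent in `(α → S/I) ⊗ (β → S/J)`, which embeds into
`α × β → (S/I) ⊗ (S/J)` (`α`, `β` finite).  Or: apply functionals of a dual family. -/
def S_KTP : Prop :=
  ∀ (N : ℕ) (α β : Type) [Finite α] [Finite β] (I J : Ideal (Sx N)), IsHom I → IsHom J →
    ∀ (V : ℕ → Submodule ℂ (α → Sx N)) (W : ℕ → Submodule ℂ (β → Sx N)), GV V → GV W → ∀ m : ℕ,
    Module.finrank ℂ (TPf I J V W m) = ∑ k ∈ Finset.range (m + 1), hV I V k * hV J W (m - k)

/-- KHV.  Hilbert-Serre for vectors of forms.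

PROOF.  KHS over `MvPolynomial (Fin (N + 1)) ℂ`, `s = univ`, `V = ⊥`, in the module
`α → Sx N ⧸ J`, family `U k = (V k).map (redL α J)`; finite generation from KNoe as in KGF. -/
def S_KHV : Prop :=
  ∀ (N : ℕ) (α : Type) [Finite α] (J : Ideal (Sx N)) (V : ℕ → Submodule ℂ (α → Sx N)), GV V →
    ∃ p : Polynomial ℤ, (1 - PowerSeries.X) ^ (N + 1) * ps (hV J V) = (p : PowerSeries ℤ)

/-- KVL.  `Lam I J j m` is the reduction of `VL I j (m - j)`.

PROOF.  For `m ≥ j` the generators of `Lam I J j m` are the reductions of those of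
`VL I j (m - j)`; for `m < j` some `f i = 0`, so the determinant is `0` and `Lam I J j m = 0`. -/
def S_KVL : Prop :=
  ∀ (N : ℕ) (I J : Ideal (Sx N)) (j : ℕ),
    (∀ k, Lam I J j (k + j) = (VL I j k).map (redL (Fin j → Fin (N + 1)) J)) ∧
    ∀ m, m < j → Lam I J j m = ⊥

/-- KPV.  Reindexing.

PROOF.  (1), (2) `PV (AF N) Y` is the image of `Y` under `(Unit × γ) ≃ γ` (`g y ∈ Y`, KGV); (3) the
same on the right; (4) `AF` is the module of all forms.  (5), (6): the vector `v : (Fin j → ..) → S` of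
all minors and the vector of the minors indexed by sets determine each other linearly:
`(Θ v)(T) = v(orderEmbOfFin T)` and `v(α) = 0` if `α` is not injective, else
`sign (..) (Θ v)(image of α)`; these maps are defined on all vectors by the same formulas
(entries `0, ±1`), commute with reduction modulo `J`, and map the generators to each other. -/
def S_KPV : Prop :=
  (∀ (N : ℕ) (γ δ : Type) [Finite γ] [Finite δ] (J : Ideal (Sx N))
    (Y : ℕ → Submodule ℂ (γ → Sx N)) (Z : ℕ → Submodule ℂ (δ → Sx N)), GV Y → ∀ k : ℕ,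
    hV J (PV (PV (AF N) Y) Z) k = hV J (PV Y Z) k ∧ hV J (PV (AF N) Y) k = hV J Y k ∧
    hV J (PV Y (AF N)) k = hV J Y k ∧ hV J (AF N) k = Module.finrank ℂ (gr J k)) ∧
  ∀ (N : ℕ) (γ : Type) [Finite γ] (I J : Ideal (Sx N)) (Y : ℕ → Submodule ℂ (γ → Sx N))
    (j k : ℕ), hV J (PV Y (VT I j)) k = hV J (PV Y (VL I j)) k ∧
    hV J (VT I j) k = hV J (VL I j) k

/-- The dimensions of the Koszul homology (part R, helper7). -/
def S_KRI : Prop :=
  ∀ (N c : ℕ) (α β : Type) [Fintype α] [Fintype β] (I J : Ideal (Sx N)), I.IsPrime → IsHom I →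
    Smooth I c → J.IsPrime → IsHom J → I ≤ J →
    ∀ (V : ℕ → Submodule ℂ (α → Sx N)) (W : ℕ → Submodule ℂ (β → Sx N)), GV V → GV W →
    LFr I J V → ∀ i : ℕ, ∃ m0 : ℕ, ∀ m, m0 ≤ m →
      (Module.finrank ℂ (Zc N (TPf I J V W) i m) : ℤ) -
        Module.finrank ℂ (Bc N (TPf I J V W) i m) = hV J (PV (PV V W) (VT I i)) (m - i)

/-- (KI) THE SELF-INTERSECTION FORMULA.

PROOF (KRI, KEul, KTP, KGF, KGV, KPV).  Apply KRI and KEul to `V`, `W` and to `AF`, `PV V W`
(`LFr I J (AF N)`: `r = 1`, `e = ρ = 1`, `D = 1`); the left sides of KEul agree for large `m`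
(finitely many `i`; KPV (1)), so `∑_i (-1)^i binom (N + 1) i (dim A (m - i) - dim A' (m - i)) = 0` for
large `m`, `A = TPf I J V W`, `A' = TPf I J AF (PV V W)`, i.e.
`(1 - T)^(N + 1) (∑ dim A m T^m - ∑ dim A' m T^m)` is a polynomial.  By KTP
`∑ dim A m T^m = ps (hV I V) * ps (hV J W)` and
`∑ dim A' m T^m = ps (hV I (AF N)) * ps (hV J (PV V W))`. -/
def S_KI : Prop :=
  ∀ (N c : ℕ) (α β : Type) [Fintype α] [Fintype β] (I J : Ideal (Sx N)), I.IsPrime → IsHom I →
    Smooth I c → J.IsPrime → IsHom J → I ≤ J →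
    ∀ (V : ℕ → Submodule ℂ (α → Sx N)) (W : ℕ → Submodule ℂ (β → Sx N)), GV V → GV W →
    LFr I J V → ∃ p : Polynomial ℤ, (1 - PowerSeries.X) ^ (N + 1) *
      (ps (hV I V) * ps (hV J W) -
        ps (fun k => Module.finrank ℂ (gr I k)) * ps (hV J (PV V W))) = (p : PowerSeries ℤ)

/-- (ii) THE SELF-INTERSECTION FORMULA for the diagonal itself.

PROOF (KRI, KEul, KTP, KPV for `V = W = AF N`, `J = I`).
`∑_i (-1)^i T^i ps (hV I (VL I i))` and `(1 - T)^(N + 1) ps (gr I)^2` differ by a polynomial. -/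
def S_KII : Prop :=
  ∀ (N c : ℕ) (I : Ideal (Sx N)), I.IsPrime → IsHom I → Smooth I c →
    ∃ p : Polynomial ℤ, (1 - PowerSeries.X) ^ (N + 1) *
      ps (fun k => Module.finrank ℂ (gr I k)) ^ 2 -
      ∑ i ∈ Finset.range (N + 2), (-1) ^ i * (PowerSeries.X ^ i * ps (hV I (VL I i))) =
        (p : PowerSeries ℤ)

/-- KTop.  The minors of size `> c` vanish on `X`.

PROOF.  `D = a * det (∂_(α k) F_i)`, `i, k < j`, `j > c`.  At a point `y ∈ zer I`, `y ≠ 0`, take `F0`,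
`h` from `Smooth`: differentiating `h F_i = ∑ b_il F0_l` at `y` gives `grad F_i (y) ∈ span (grad F0_l (y))`,
a space of dimension `c < j` (also `S_Perp` or the lemmas of `Bas.lean`), so the determinant vanishes
at `y`.  So the form `D` vanishes on the punctured cone and is in `I` (`S_Null`, second part; if
`zer I ⊆ {0}` then `S / I` is finite-dimensional and a domain, `X_i ∈ I` for all `i`; then the
statement is claimed only for large `k`, where `VL I j k` reduces to `0` as well). -/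
def S_KTop : Prop :=
  ∀ (N c : ℕ) (I : Ideal (Sx N)), I.IsPrime → IsHom I → Smooth I c → ∀ j : ℕ, c < j →
    ∃ k0 : ℕ, ∀ k, k0 ≤ k → hV I (VL I j) k = 0 ∧ hV I (VT I j) k = 0

/-- KLF.  Local frames for `Λ^j N^*`.

PROOF.  `p ∈ zer J ⊆ zer I`, `p ≠ 0`.  `Smooth`: forms `F_i ∈ I` of degrees `f_i`, `i < c`, gradients
independent at `p`, `h I ⊆ (F)`; `S_Minor` (SpecB; or `Loc`, SpecE): columns `B : Fin c → Fin (N + 1)`
with `Δ = det M`, `M i b = pderiv (B b) (F i)`, `Δ (p) ≠ 0`; all `f_i ≥ 1` if `c > 0`; `Δ` has degree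
`g = ∑ (f_i - 1)`.  For `G ∈ I`: `h G = ∑ a_i F_i` gives `h ∂_k G = ∑ a_i ∂_k F_i` modulo `I`, and with
`P = adj M`: `Δ ∂_k G = ∑_i (∑_b ∂_(B b) G P_(b i)) ∂_k F_i` modulo `I` (multiply by `h`, which is not in
the prime ideal `I`: both sides of the claim become `Δ ∑ a_i ∂_k F_i`, as `M P = Δ`).
So, for `G_1, …, G_j ∈ I` and `α : Fin j → Fin (N + 1)`, modulo `I`,
`Δ^j det (∂_(α k) G_l) = ∑_(A : Fin j → Fin c) (∏_l τ_(l, A l)) det (∂_(α k) F_(A l))`,
`τ_(l,i) = ∑_b ∂_(B b) G_l P_(b i)` (multilinearity in the rows), and since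
`det (∂_(α k) F_(A l))` is alternating in `A` this is
`∑_(A strictly increasing) det (τ_(l, A l')) det (∂_(α k) F_(A l))`, with
`det (τ_(l, A l')) = ∑_(β : Fin j → Fin c) (∏_(l') P_(β l', A l')) det (∂_(B (β l')) G_l)`: a linear
functional `ρ_A` of the vector of the minors of `G`: `ρ_A (α) = ∑_(β, B ∘ β = α) ∏_(l') P_(β l', A l')`.
Index type: the strictly increasing `A` (or `j`-subsets, enumerated by `Fin r`), `e_A = ` the vector of
minors of `F_(A l)`, of degree `κ_A = ∑_l (f_(A l) - 1) ≤ g`; for `j ≥ 1`: `D = Δ^j`, `δ = j g`,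
`P_(b i)` has degree `g - (f_i - 1)`, `ρ_A` has degree `j g - κ_A`.  For `j = 0`: `r = 1`, `e = 1`,
`ρ = 1`, `D = 1`. -/
def S_KLF : Prop :=
  ∀ (N c : ℕ) (I J : Ideal (Sx N)), I.IsPrime → IsHom I → Smooth I c → I ≤ J → ∀ j : ℕ,
    LFr I J (VL I j)

end Pool.Agent.Lib.MP_776403_ag.SD
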