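import Pool.Agent.Lib.MP_776403_ag.SD.K.SpecR
import Pool.Agent.Lib.MP_776403_ag.SD.K.SpecK
import Pool.Agent.Lib.MP_776403_ag.SD.V.Spec

/-!
# THEOREM SD, part K: definitions for (iii), (iv) of note 4445
-/

set_option autoImplicit false

open MvPolynomial TensorProduct

noncomputable section

namespace Pool.Agent.Lib.MP_776403_ag.SD

variable {N : ℕ}

/-! ## The swap of `x` and `y` -/

/-- `x ↔ y`. -/
def sw0 : Rx N →ₐ[ℂ] Rx N := rename Sum.swap

theorem sw0_ix (F : Sx N) : sw0 (ix F) = iy F := by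
  unfold sw0 ix iy
  rw [rename_rename]
  rfl

theorem sw0_iy (F : Sx N) : sw0 (iy F) = ix F := by
  unfold sw0 ix iy
  rw [rename_rename]
  rfl

theorem sw0_cc {I : Ideal (Sx N)} (a : Rx N) (ha : a ∈ cc I I) :
    ((Ideal.Quotient.mkₐ ℂ (cc I I)).comp sw0) a = 0 := by
  have h1 : cc I I ≤
      RingHom.ker ((Ideal.Quotient.mkₐ ℂ (cc I I)).comp sw0 : Rx N →ₐ[ℂ] CR I I) := by
    refine sup_le (Ideal.map_le_iff_le_comap.2 fun F hF => ?_)
      (Ideal.map_le_iff_le_comap.2 fun F hF => ?_)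
    · change ((Ideal.Quotient.mkₐ ℂ (cc I I)).comp sw0) (ix F) = 0
      rw [AlgHom.comp_apply, sw0_ix]
      exact Ideal.Quotient.eq_zero_iff_mem.2
        (Ideal.mem_sup_right (Ideal.mem_map_of_mem (iy : Sx N →ₐ[ℂ] Rx N).toRingHom hF))
    · change ((Ideal.Quotient.mkₐ ℂ (cc I I)).comp sw0) (iy F) = 0
      rw [AlgHom.comp_apply, sw0_iy]
      exact Ideal.Quotient.eq_zero_iff_mem.2
        (Ideal.mem_sup_left (Ideal.mem_map_of_mem (ix : Sx N →ₐ[ℂ] Rx N).toRingHom hF))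
  exact h1 ha

/-- `x ↔ y` on `ℂ[x, y] / (I(x) + I(y))`. -/
def swC (I : Ideal (Sx N)) : CR I I →ₐ[ℂ] CR I I :=
  Ideal.Quotient.liftₐ (cc I I) ((Ideal.Quotient.mkₐ ℂ (cc I I)).comp sw0) sw0_cc

theorem swC_mk (I : Ideal (Sx N)) (F : Rx N) :
    swC I (Ideal.Quotient.mk (cc I I) F) = Ideal.Quotient.mk (cc I I) (sw0 F) := rfl

/-- The swap on `(V / I) ⊗ (V / I)`. -/
def swT (α : Type) (I : Ideal (Sx N)) : (α × α → CR I I) →ₗ[ℂ] (α × α → CR I I) where
  toFun c := fun p => swC I (c (p.2, p.1))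
  map_add' c d := by funext p; simp
  map_smul' r c := by funext p; simp

/-- The swap of the two factors, on vectors over `S / I`. -/
def tau2 (α γ : Type) (I : Ideal (Sx N)) :
    ((α × α) × γ → Sx N ⧸ I) →ₗ[ℂ] ((α × α) × γ → Sx N ⧸ I) where
  toFun u := fun p => u ((p.1.2, p.1.1), p.2)
  map_add' u v := by funext p; rfl
  map_smul' r u := by funext p; rfl

/-- The same with the sign `(-1)^|T|`. -/
def tauK (α : Type) (I : Ideal (Sx N)) :
    ((α × α) × Finset (Fin (N + 1)) → Sx N ⧸ I) →ₗ[ℂ]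
      ((α × α) × Finset (Fin (N + 1)) → Sx N ⧸ I) where
  toFun u := fun p => (-1 : ℂ) ^ p.2.card • u ((p.1.2, p.1.1), p.2)
  map_add' u v := by funext p; simp
  map_smul' r u := by
    funext p
    simp only [Pi.smul_apply, RingHom.id_apply]
    rw [smul_comm]

/-- The swap on vectors over `S / I` indexed by `α × α`. -/
def tau1 (α : Type) (I : Ideal (Sx N)) : (α × α → Sx N ⧸ I) →ₗ[ℂ] (α × α → Sx N ⧸ I) where
  toFun u := fun p => u (p.2, p.1)
  map_add' u v := by funext p; rfl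
  map_smul' r u := by funext p; rfl

/-- The symmetric (`ε = 1`) and the alternating (`ε = -1`) square of `V`. -/
def SV {α : Type} (ε : ℤ) (V : ℕ → Submodule ℂ (α → Sx N)) (k : ℕ) :
    Submodule ℂ (α × α → Sx N) :=
  Submodule.span ℂ {z | ∃ (k1 k2 : ℕ) (v w : α → Sx N), k1 + k2 = k ∧ v ∈ V k1 ∧
    w ∈ V k2 ∧ z = fun p => v p.1 * w p.2 + ε • (w p.1 * v p.2)}

/-! ## `Λ^n (N^* ⊗ ℂ^2)` -/

/-- The degree `k` part of `Λ^n (N^* ⊗ ℂ^2)`: vectors of `n × n` minors of the vectors `dF_i ⊗ v_i`. -/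
def LN (I : Ideal (Sx N)) (n k : ℕ) :
    Submodule ℂ ((Fin n → Fin (N + 1) × Fin 2) → Sx N ⧸ I) :=
  Submodule.span ℂ {z | ∃ (a : Sx N) (e : ℕ) (F : Fin n → Sx N) (f : Fin n → ℕ)
    (v : Fin n → Fin 2 → ℂ), a.IsHomogeneous e ∧ (∀ i, F i ∈ I ∧ (F i).IsHomogeneous (f i)) ∧
    e + ∑ i, f i = k + n ∧ z = fun α => Ideal.Quotient.mk I (a * Matrix.det (Matrix.of fun i m =>
      C (v i (α m).2) * pderiv (α m).1 (F i)))}

/-- The subspace of the `u` in `LN I n k` which are supported at the `α` with exactly `b` second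
components `1`: `(Λ^(n-b) N^*) . (Λ^b N^*)`. -/
def LB (I : Ideal (Sx N)) (n b k : ℕ) :
    Submodule ℂ ((Fin n → Fin (N + 1) × Fin 2) → Sx N ⧸ I) :=
  LN I n k ⊓
  { carrier := {u | ∀ α : Fin n → Fin (N + 1) × Fin 2,
      (Finset.univ.filter fun m => (α m).2 = 1).card ≠ b → u α = 0}
    zero_mem' := fun _ _ => rfl
    add_mem' := fun {u w} h1 h2 α hα => by rw [Pi.add_apply, h1 α hα, h2 α hα, add_zero]
    smul_mem' := fun r u h α hα => by rw [Pi.smul_apply, h α hα, smul_zero] }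

/-- The action of a matrix on the factor `ℂ^2`. -/
def aH (I : Ideal (Sx N)) (n : ℕ) (h : Matrix (Fin 2) (Fin 2) ℂ) :
    ((Fin n → Fin (N + 1) × Fin 2) → Sx N ⧸ I) →ₗ[ℂ]
      ((Fin n → Fin (N + 1) × Fin 2) → Sx N ⧸ I) where
  toFun u := fun α => ∑ η : Fin n → Fin 2, (∏ m, h (α m).2 (η m)) • u (fun m => ((α m).1, η m))
  map_add' u v := by
    funext α
    simp only [Pi.add_apply, smul_add, Finset.sum_add_distrib]
  map_smul' r u := by
    funext α
    simp only [Pi.smul_apply, RingHom.id_apply, Finset.smul_sum]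
    exact Finset.sum_congr rfl fun η _ => smul_comm _ _ _

/-- `diag (1, -1)`. -/
def mQ : Matrix (Fin 2) (Fin 2) ℂ := !![1, 0; 0, -1]

/-- `(1 - T)^(N+1) ∑ f(k) T^k = (1 - T)^c q`. -/
def QP (N c : ℕ) (f : ℕ → ℕ) (q : Polynomial ℤ) : Prop :=
  (1 - PowerSeries.X) ^ (N + 1) * ps f =
    (((1 - Polynomial.X) ^ c * q : Polynomial ℤ) : PowerSeries ℤ)

/-- The exchange of the coordinates. -/
def mP : Matrix (Fin 2) (Fin 2) ℂ := !![0, 1; 1, 0]

end Pool.Agent.Lib.MP_776403_ag.SD
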