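import Pool.Agent.Lib.MP_776403_ag.SD.K.SpecK

/-!
# THEOREM SD, part K: the differential squares to zero
-/

set_option autoImplicit false

open MvPolynomial

noncomputable section

namespace Pool.Agent.Lib.MP_776403_ag.SD

private theorem kdd_sg_insert {N : ℕ} {k : Fin (N + 1)} (l : Fin (N + 1))
    {T : Finset (Fin (N + 1))} (hk : k ∉ T) :
    sg l (insert k T) = if k < l then -sg l T else sg l T := by
  unfold sg
  rw [Finset.filter_insert]
  split_ifs with h
  · rw [Finset.card_insert_of_notMem (fun hc => hk (Finset.mem_filter.1 hc).1), pow_succ]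
    ring
  · rfl

private theorem kdd_sign {N : ℕ} {k l : Fin (N + 1)} {T : Finset (Fin (N + 1))}
    (hk : k ∉ T) (hl : l ∉ T) (hkl : k ≠ l) :
    sg k T * sg l (insert k T) + sg l T * sg k (insert l T) = 0 := by
  rw [kdd_sg_insert l hk, kdd_sg_insert k hl]
  rcases lt_or_gt_of_ne hkl with h | h
  · rw [if_pos h, if_neg (not_lt.2 h.le)]
    ring
  · rw [if_neg (not_lt.2 h.le), if_pos h]
    ring

theorem tKDD : S_KDD := by
  intro N M _ _ ω
  classical
  funext T
  let g : Fin (N + 1) × Fin (N + 1) → M := fun p =>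
    if p.1 ∉ T ∧ p.2 ∉ T ∧ p.1 ≠ p.2 then
      (sg p.1 T * sg p.2 (insert p.1 T)) •
        (((zz p.1 : Rx N) * zz p.2) • ω (insert p.2 (insert p.1 T)))
    else 0
  have h1 : dK (dK ω) T = ∑ k : Fin (N + 1), ∑ l : Fin (N + 1), g (k, l) := by
    change ∑ k ∈ Tᶜ, sg k T • ((zz k : Rx N) •
      ∑ l ∈ (insert k T)ᶜ, sg l (insert k T) • ((zz l : Rx N) • ω (insert l (insert k T)))) = _
    rw [← Finset.sum_subset (Finset.subset_univ Tᶜ) (f := fun k => ∑ l : Fin (N + 1), g (k, l))]
    · refine Finset.sum_congr rfl fun k hk => ?_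
      have hk' : k ∉ T := Finset.mem_compl.1 hk
      rw [Finset.smul_sum, Finset.smul_sum,
        ← Finset.sum_subset (Finset.subset_univ (insert k T)ᶜ) (f := fun l => g (k, l))]
      · refine Finset.sum_congr rfl fun l hl => ?_
        have hl' : l ∉ insert k T := Finset.mem_compl.1 hl
        rw [Finset.mem_insert, not_or] at hl'
        change _ = if k ∉ T ∧ l ∉ T ∧ k ≠ l then _ else _
        rw [if_pos ⟨hk', hl'.2, fun h => hl'.1 h.symm⟩, mul_smul, mul_smul,
          smul_comm (zz k : Rx N) (sg l (insert k T))]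
      · intro l _ hl
        have hl' : l ∈ insert k T := by
          by_contra h
          exact hl (Finset.mem_compl.2 h)
        change (if k ∉ T ∧ l ∉ T ∧ k ≠ l then _ else _) = _
        rw [if_neg]
        rintro ⟨_, h2, h3⟩
        rcases Finset.mem_insert.1 hl' with h | h
        · exact h3 h.symm
        · exact h2 h
    · intro k _ hk
      refine Finset.sum_eq_zero fun l _ => ?_
      change (if k ∉ T ∧ l ∉ T ∧ k ≠ l then _ else _) = _
      rw [if_neg]
      rintro ⟨h2, _⟩
      exact hk (Finset.mem_compl.2 h2)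
  rw [h1, ← Fintype.sum_prod_type' (f := fun k l => g (k, l))]
  refine Finset.sum_involution (fun p _ => p.swap) ?_ ?_ (fun _ _ => Finset.mem_univ _) ?_
  · rintro ⟨k, l⟩ _
    change (if k ∉ T ∧ l ∉ T ∧ k ≠ l then _ else _) + (if l ∉ T ∧ k ∉ T ∧ l ≠ k then _ else _) = _
    by_cases h : k ∉ T ∧ l ∉ T ∧ k ≠ l
    · rw [if_pos h, if_pos ⟨h.2.1, h.1, h.2.2.symm⟩]
      change (sg k T * sg l (insert k T)) •
          (((zz k : Rx N) * zz l) • ω (insert l (insert k T))) +
        (sg l T * sg k (insert l T)) •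
          (((zz l : Rx N) * zz k) • ω (insert k (insert l T))) = 0
      rw [Finset.insert_comm k l, mul_comm (zz l : Rx N) (zz k), ← add_smul,
        kdd_sign h.1 h.2.1 h.2.2, zero_smul]
    · rw [if_neg h, if_neg (fun h' => h ⟨h'.2.1, h'.1, h'.2.2.symm⟩), add_zero]
  · rintro ⟨k, l⟩ _ h0 h2
    apply h0
    change (if k ∉ T ∧ l ∉ T ∧ k ≠ l then _ else _) = _
    rw [if_neg]
    rintro ⟨_, _, h3⟩
    exact h3 (congrArg Prod.snd h2)
  · rintro ⟨k, l⟩ _
    rfl

end Pool.Agent.Lib.MP_776403_ag.SD
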