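import Pool.Agent.Lib.MP_776403_ag.SD.K.SpecK

/-!
# THEOREM SD, KEuT: the Euler characteristic with an involution
-/

set_option autoImplicit false

open MvPolynomial

noncomputable section

namespace Pool.Agent.Lib.MP_776403_ag.SD

/-- The chains of degree `i ≤ m` are functions on the sets of cardinality `i`. -/
private def kctEquiv {N : ℕ} {M : Type} [AddCommGroup M] [Module (Rx N) M] [Module ℂ M]
    (A : ℕ → Submodule ℂ M) (i m : ℕ) (h : i ≤ m) :
    Kc N A i m ≃ₗ[ℂ] ({T : Finset (Fin (N + 1)) // T.card = i} → A (m - i)) where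
  toFun ω := fun T => ⟨ω.1 T.1, (ω.2 T.1).1 T.2 h⟩
  map_add' ω η := by
    funext T
    rfl
  map_smul' r ω := by
    funext T
    rfl
  invFun g := ⟨fun T => if hT : T.card = i then (g ⟨T, hT⟩ : M) else 0, by
    intro T
    refine ⟨fun h1 _ => ?_, fun h1 => ?_⟩
    · change (if hT : T.card = i then (g ⟨T, hT⟩ : M) else 0) ∈ A (m - i)
      rw [dif_pos h1]
      exact (g ⟨T, h1⟩).2
    · rcases h1 with h1 | h1
      · change (if hT : T.card = i then (g ⟨T, hT⟩ : M) else 0) = 0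
        rw [dif_neg h1]
      · exact absurd h1 (not_lt.2 h)⟩
  left_inv ω := by
    apply Subtype.ext
    funext T
    by_cases hT : T.card = i
    · simp only [hT, dif_pos]
    · simp only [hT, dif_neg, not_false_iff]
      exact ((ω.2 T).2 (Or.inl hT)).symm
  right_inv g := by
    funext T
    apply Subtype.ext
    simp only [T.2, dif_pos]

private theorem kct_bot {N : ℕ} {M : Type} [AddCommGroup M] [Module (Rx N) M] [Module ℂ M]
    (A : ℕ → Submodule ℂ M) (i m : ℕ) (h : m < i ∨ N + 1 < i) : Kc N A i m = ⊥ := by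
  rw [Submodule.eq_bot_iff]
  intro ω hω
  funext T
  rcases h with h | h
  · exact (hω T).2 (Or.inr h)
  · refine (hω T).2 (Or.inl fun h1 => ?_)
    have h2 : T.card ≤ N + 1 := by
      have := Finset.card_le_univ T
      rwa [Fintype.card_fin] at this
    omega

private theorem kct_fin {N : ℕ} {M : Type} [AddCommGroup M] [Module (Rx N) M] [Module ℂ M]
    (A : ℕ → Submodule ℂ M) (hA : ∀ m, FiniteDimensional ℂ (A m)) (i m : ℕ) :
    FiniteDimensional ℂ (Kc N A i m) := by
  by_cases h : i ≤ m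
  · have := hA (m - i)
    exact Module.Finite.equiv (kctEquiv A i m h).symm
  · rw [kct_bot A i m (Or.inl (not_le.1 h))]
    infer_instance

private theorem kct_finrank {N : ℕ} {M : Type} [AddCommGroup M] [Module (Rx N) M] [Module ℂ M]
    (A : ℕ → Submodule ℂ M) (hA : ∀ m, FiniteDimensional ℂ (A m)) (i m : ℕ) :
    (Module.finrank ℂ (Kc N A i m) : ℤ) =
      (Nat.choose (N + 1) i : ℤ) * (if i ≤ m then (Module.finrank ℂ (A (m - i)) : ℤ) else 0) := by
  by_cases h : i ≤ m
  · have := hA (m - i)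
    rw [if_pos h, (kctEquiv A i m h).finrank_eq, Module.finrank_pi_fintype, Finset.sum_const,
      Finset.card_univ, Fintype.card_finset_len, Fintype.card_fin]
    simp
  · rw [if_neg h, kct_bot A i m (Or.inl (not_le.1 h)), finrank_bot]
    simp

private theorem kct_tel (r : ℕ → ℤ) (n : ℕ) :
    ∑ i ∈ Finset.range n, (-1 : ℤ) ^ i * (r i + r (i + 1)) = r 0 - (-1) ^ n * r n := by
  induction n with
  | zero => simp
  | succ n ih =>
    rw [Finset.sum_range_succ, ih, pow_succ]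
    ring

private theorem kct_pow (n : ℕ) : ((-1 : ℂ) ^ n) * ((-1 : ℂ) ^ n) = 1 := by
  rw [← mul_pow]
  norm_num

/-- The eigenspaces of `tw s` on the chains. -/
private theorem kct_eig {N : ℕ} {M : Type} [AddCommGroup M] [Module (Rx N) M] [Module ℂ M]
    (A : ℕ → Submodule ℂ M) (s : M →ₗ[ℂ] M) (i m : ℕ) (η : ℂ) :
    Kc N A i m ⊓ LinearMap.ker (tw (N := N) s - η • (LinearMap.id : Cn N M →ₗ[ℂ] Cn N M)) =
      Kc N (fun k => A k ⊓ LinearMap.ker
        (s - ((-1 : ℂ) ^ i * η) • (LinearMap.id : M →ₗ[ℂ] M))) i m := by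
  have key : ∀ (ω : Cn N M) (T : Finset (Fin (N + 1))), T.card = i →
      ((tw s ω) T = η • ω T ↔ s (ω T) = ((-1 : ℂ) ^ i * η) • ω T) := by
    intro ω T hT
    change (-1 : ℂ) ^ T.card • s (ω T) = η • ω T ↔ _
    rw [hT]
    constructor
    · intro h
      rw [mul_smul, ← h, smul_smul, kct_pow, one_smul]
    · intro h
      rw [h, smul_smul, ← mul_assoc, kct_pow, one_mul]
  have hk : ∀ ω : Cn N M, ω ∈ LinearMap.ker (tw (N := N) s -
      η • (LinearMap.id : Cn N M →ₗ[ℂ] Cn N M)) ↔ ∀ T, (tw s ω) T = η • ω T := by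
    intro ω
    rw [LinearMap.mem_ker, LinearMap.sub_apply, LinearMap.smul_apply, LinearMap.id_apply,
      sub_eq_zero]
    exact ⟨fun h T => by rw [h]; rfl, fun h => funext h⟩
  have hk2 : ∀ w : M, w ∈ LinearMap.ker (s - ((-1 : ℂ) ^ i * η) •
      (LinearMap.id : M →ₗ[ℂ] M)) ↔ s w = ((-1 : ℂ) ^ i * η) • w := by
    intro w
    rw [LinearMap.mem_ker, LinearMap.sub_apply, LinearMap.smul_apply, LinearMap.id_apply,
      sub_eq_zero]
  ext ω
  constructor
  · rintro ⟨h1, h2⟩
    intro T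
    refine ⟨fun hT hm => ⟨(h1 T).1 hT hm, ?_⟩, (h1 T).2⟩
    exact (hk2 _).2 ((key ω T hT).1 ((hk ω).1 h2 T))
  · intro h
    refine ⟨fun T => ⟨fun hT hm => ((h T).1 hT hm).1, (h T).2⟩, (hk ω).2 fun T => ?_⟩
    by_cases hT : T.card = i
    · by_cases hm : i ≤ m
      · exact (key ω T hT).2 ((hk2 _).1 ((h T).1 hT hm).2)
      · have h0 : ω T = 0 := (h T).2 (Or.inr (not_le.1 hm))
        change (-1 : ℂ) ^ T.card • s (ω T) = η • ω T
        rw [h0, map_zero, smul_zero, smul_zero]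
    · have h0 : ω T = 0 := (h T).2 (Or.inl hT)
      change (-1 : ℂ) ^ T.card • s (ω T) = η • ω T
      rw [h0, map_zero, smul_zero, smul_zero]

private theorem kct_trB {V : Type} [AddCommGroup V] [Module ℂ V] (s : V →ₗ[ℂ] V) :
    tri s ⊥ = 0 := by
  unfold tri
  rw [bot_inf_eq, bot_inf_eq]
  ring

private theorem kct_tri {N : ℕ} {M : Type} [AddCommGroup M] [Module (Rx N) M] [Module ℂ M]
    (A : ℕ → Submodule ℂ M) (s : M →ₗ[ℂ] M) (hA : ∀ m, FiniteDimensional ℂ (A m)) (i m : ℕ) :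
    tri (tw (N := N) s) (Kc N A i m) =
      (-1 : ℤ) ^ i * ((Nat.choose (N + 1) i : ℤ) * (if i ≤ m then tri s (A (m - i)) else 0)) := by
  have hF : ∀ (η : ℂ) (k : ℕ), FiniteDimensional ℂ
      ((fun k => A k ⊓ LinearMap.ker (s - η • (LinearMap.id : M →ₗ[ℂ] M))) k) := by
    intro η k
    have := hA k
    exact Submodule.finiteDimensional_of_le (inf_le_left : A k ⊓ _ ≤ A k)
  have e1 : ∀ (V : Type) [AddCommGroup V] [Module ℂ V] (t : V →ₗ[ℂ] V),
      t - (1 : ℂ) • (LinearMap.id : V →ₗ[ℂ] V) = t - LinearMap.id := by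
    intro V _ _ t
    rw [one_smul]
  have e2 : ∀ (V : Type) [AddCommGroup V] [Module ℂ V] (t : V →ₗ[ℂ] V),
      t - (-1 : ℂ) • (LinearMap.id : V →ₗ[ℂ] V) = t + LinearMap.id := by
    intro V _ _ t
    rw [neg_smul, one_smul, sub_neg_eq_add]
  have hp := kct_finrank (N := N) _ (hF ((-1 : ℂ) ^ i * 1)) i m
  have hn := kct_finrank (N := N) _ (hF ((-1 : ℂ) ^ i * (-1))) i m
  rw [← kct_eig] at hp hn
  rw [e1] at hp
  rw [e2] at hn
  unfold tri
  rw [hp, hn]
  by_cases h : i ≤ m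
  · rw [if_pos h, if_pos h, if_pos h]
    rcases neg_one_pow_eq_or ℂ i with hi | hi
    · have hi' : (-1 : ℤ) ^ i = 1 := by
        rcases neg_one_pow_eq_or ℤ i with h' | h'
        · exact h'
        · exfalso
          have h3 : ((-1 : ℤ) : ℂ) ^ i = -1 := by
            rw [← Int.cast_pow, h']
            norm_num
          rw [Int.cast_neg, Int.cast_one, hi] at h3
          norm_num at h3
      rw [hi, hi', one_mul, one_mul, e1, e2]
      ring
    · have hi' : (-1 : ℤ) ^ i = -1 := by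
        rcases neg_one_pow_eq_or ℤ i with h' | h'
        · exfalso
          have h3 : ((-1 : ℤ) : ℂ) ^ i = 1 := by
            rw [← Int.cast_pow, h']
            norm_num
          rw [Int.cast_neg, Int.cast_one, hi] at h3
          norm_num at h3
        · exact h'
      rw [hi, hi', mul_one, neg_mul_neg, one_mul, e1, e2]
      ring
  · rw [if_neg h, if_neg h, if_neg h]
    ring

private theorem kct_comm {N : ℕ} {M : Type} [AddCommGroup M] [Module (Rx N) M] [Module ℂ M]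
    (s : M →ₗ[ℂ] M)
    (hz : ∀ (k : Fin (N + 1)) (w : M), s ((zz k : Rx N) • w) = -((zz k : Rx N) • s w))
    [IsScalarTower ℂ (Rx N) M]
    (ω : Cn N M) : dK (tw s ω) = tw s (dK ω) := by
  funext T
  change ∑ k ∈ Tᶜ, sg k T • ((zz k : Rx N) • ((-1 : ℂ) ^ (insert k T).card • s (ω (insert k T)))) =
    (-1 : ℂ) ^ T.card • s (∑ k ∈ Tᶜ, sg k T • ((zz k : Rx N) • ω (insert k T)))
  rw [map_sum, Finset.smul_sum]
  refine Finset.sum_congr rfl fun k hk => ?_
  have hk' : k ∉ T := Finset.mem_compl.1 hk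
  have hC : ∀ (a : ℂ) (w : M), (zz k : Rx N) • (a • w) = a • ((zz k : Rx N) • w) := by
    intro a w
    rw [← algebraMap_smul (Rx N) a w, ← algebraMap_smul (Rx N) a ((zz k : Rx N) • w),
      smul_smul, smul_smul, mul_comm]
  rw [map_zsmul, hz, Finset.card_insert_of_notMem hk', hC, pow_succ, mul_neg_one, neg_smul,
    smul_neg, smul_neg, smul_neg, smul_comm ((-1 : ℂ) ^ T.card) (sg k T)]

theorem tKEuT : S_KDD → S_KTri → S_KEuT := by
  intro _ hTri N M _ _ _ _ A s _ hA hs hsA hz m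
  set f : Cn N M →ₗ[ℂ] Cn N M := (dK : Cn N M →ₗ[Rx N] Cn N M).restrictScalars ℂ with hf
  set t : ℕ → ℤ := fun i => tri (tw (N := N) s) ((Kc N A i m).map f) with ht
  have h0 : t 0 = 0 := by
    have h : (Kc N A 0 m).map f = ⊥ := by
      rw [Submodule.eq_bot_iff]
      rintro _ ⟨ω, hω, rfl⟩
      funext T
      change ∑ k ∈ Tᶜ, sg k T • ((zz k : Rx N) • ω (insert k T)) = 0
      refine Finset.sum_eq_zero fun k _ => ?_
      rw [(hω (insert k T)).2 (Or.inl ?_), smul_zero, smul_zero]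
      exact Finset.card_ne_zero_of_mem (Finset.mem_insert_self k T)
    rw [ht]
    dsimp only
    rw [h, kct_trB]
  have hN : t (N + 2) = 0 := by
    rw [ht]
    dsimp only
    rw [kct_bot A (N + 2) m (Or.inr (by omega)), Submodule.map_bot, kct_trB]
  have hb : ∀ i, tri (tw (N := N) s) (Bc N A i m) = t (i + 1) := fun i => rfl
  have hinv : ∀ ω : Cn N M, tw s (tw s ω) = ω := by
    intro ω
    funext T
    change (-1 : ℂ) ^ T.card • s ((-1 : ℂ) ^ T.card • s (ω T)) = ω T
    rw [map_smul, hs, smul_smul, kct_pow, one_smul]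
  have hstab : ∀ i, ∀ ω ∈ Kc N A i m, tw s ω ∈ Kc N A i m := by
    intro i ω hω T
    refine ⟨fun h1 h2 => ?_, fun h1 => ?_⟩
    · exact Submodule.smul_mem _ _ (hsA _ _ ((hω T).1 h1 h2))
    · change (-1 : ℂ) ^ T.card • s (ω T) = 0
      rw [(hω T).2 h1, map_zero, smul_zero]
  have hk : ∀ i, tri (tw (N := N) s) (Kc N A i m) = tri (tw (N := N) s) (Zc N A i m) + t i := by
    intro i
    exact hTri (Cn N M) (Cn N M) (tw s) (tw s) f (Kc N A i m) (kct_fin A hA i m) hinv hinv
      (fun ω => kct_comm s hz ω) (hstab i)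
  have htel := kct_tel t (N + 2)
  rw [h0, hN, mul_zero, sub_zero] at htel
  have h5 : ∀ i ∈ Finset.range (N + 2), (-1 : ℤ) ^ i * (tri (tw (N := N) s) (Zc N A i m) -
      tri (tw (N := N) s) (Bc N A i m)) =
      (Nat.choose (N + 1) i : ℤ) * (if i ≤ m then tri s (A (m - i)) else 0) -
      (-1 : ℤ) ^ i * (t i + t (i + 1)) := by
    intro i _
    have h6 := hk i
    rw [kct_tri A s hA i m] at h6
    have h7 : (-1 : ℤ) ^ i * (-1 : ℤ) ^ i = 1 := by
      rw [← mul_pow]
      norm_num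
    have h8 : tri (tw (N := N) s) (Zc N A i m) = (-1 : ℤ) ^ i * ((Nat.choose (N + 1) i : ℤ) *
        (if i ≤ m then tri s (A (m - i)) else 0)) - t i := by
      rw [h6]
      ring
    rw [hb i, h8]
    calc (-1 : ℤ) ^ i * ((-1 : ℤ) ^ i * ((Nat.choose (N + 1) i : ℤ) *
          (if i ≤ m then tri s (A (m - i)) else 0)) - t i - t (i + 1))
        = ((-1 : ℤ) ^ i * (-1 : ℤ) ^ i) * ((Nat.choose (N + 1) i : ℤ) *
          (if i ≤ m then tri s (A (m - i)) else 0)) - (-1 : ℤ) ^ i * (t i + t (i + 1)) := by ring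
      _ = _ := by rw [h7, one_mul]
  rw [Finset.sum_congr rfl h5, Finset.sum_sub_distrib, htel, sub_zero]

end Pool.Agent.Lib.MP_776403_ag.SD
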