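import Pool.Agent.Lib.MP_776403_ag.SD.K.SpecK

/-!
# THEOREM SD, KEul: the Euler characteristic of the Koszul complex
-/

set_option autoImplicit false

open MvPolynomial

noncomputable section

namespace Pool.Agent.Lib.MP_776403_ag.SD

/-- The chains of degree `i ≤ m` are functions on the sets of cardinality `i`. -/
private def kcEquiv {N : ℕ} {M : Type} [AddCommGroup M] [Module (Rx N) M] [Module ℂ M]
    (A : ℕ → Submodule ℂ M) (i m : ℕ) (h : i ≤ m) :
    Kc N A i m ≃ₗ[ℂ] ({T : Finset (Fin (N + 1)) // T.card = i} → A (m - i)) where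
  toFun ω := fun T => ⟨ω.1 T.1, (ω.2 T.1).1 T.2 h⟩
  map_add' ω η := by
    funext T
    rfl
  map_smul' r ω := by
    funext T
    rfl
  invFun g := ⟨fun T => if hT : T.card = i then (g ⟨T, hT⟩ : M) else 0, by
    intro T
    refine ⟨fun h1 _ => ?_, fun h1 => ?_⟩
    · change (if hT : T.card = i then (g ⟨T, hT⟩ : M) else 0) ∈ A (m - i)
      rw [dif_pos h1]
      exact (g ⟨T, h1⟩).2
    · rcases h1 with h1 | h1
      · change (if hT : T.card = i then (g ⟨T, hT⟩ : M) else 0) = 0
        rw [dif_neg h1]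
      · exact absurd h1 (not_lt.2 h)⟩
  left_inv ω := by
    apply Subtype.ext
    funext T
    by_cases hT : T.card = i
    · simp only [hT, dif_pos]
    · simp only [hT, dif_neg, not_false_iff]
      exact ((ω.2 T).2 (Or.inl hT)).symm
  right_inv g := by
    funext T
    apply Subtype.ext
    simp only [T.2, dif_pos]

private theorem kc_bot {N : ℕ} {M : Type} [AddCommGroup M] [Module (Rx N) M] [Module ℂ M]
    (A : ℕ → Submodule ℂ M) (i m : ℕ) (h : m < i ∨ N + 1 < i) : Kc N A i m = ⊥ := by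
  rw [Submodule.eq_bot_iff]
  intro ω hω
  funext T
  rcases h with h | h
  · exact (hω T).2 (Or.inr h)
  · refine (hω T).2 (Or.inl fun h1 => ?_)
    have h2 : T.card ≤ N + 1 := by
      have := Finset.card_le_univ T
      rwa [Fintype.card_fin] at this
    omega

private theorem kc_fin {N : ℕ} {M : Type} [AddCommGroup M] [Module (Rx N) M] [Module ℂ M]
    (A : ℕ → Submodule ℂ M) (hA : ∀ m, FiniteDimensional ℂ (A m)) (i m : ℕ) :
    FiniteDimensional ℂ (Kc N A i m) := by
  by_cases h : i ≤ m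
  · have := hA (m - i)
    exact Module.Finite.equiv (kcEquiv A i m h).symm
  · rw [kc_bot A i m (Or.inl (not_le.1 h))]
    infer_instance

private theorem kc_finrank {N : ℕ} {M : Type} [AddCommGroup M] [Module (Rx N) M] [Module ℂ M]
    (A : ℕ → Submodule ℂ M) (hA : ∀ m, FiniteDimensional ℂ (A m)) (i m : ℕ) :
    (Module.finrank ℂ (Kc N A i m) : ℤ) =
      (Nat.choose (N + 1) i : ℤ) * (if i ≤ m then (Module.finrank ℂ (A (m - i)) : ℤ) else 0) := by
  by_cases h : i ≤ m
  · have := hA (m - i)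
    rw [if_pos h, (kcEquiv A i m h).finrank_eq, Module.finrank_pi_fintype, Finset.sum_const,
      Finset.card_univ, Fintype.card_finset_len, Fintype.card_fin]
    simp
  · rw [if_neg h, kc_bot A i m (Or.inl (not_le.1 h)), finrank_bot]
    simp

private theorem kc_rank {N : ℕ} {M : Type} [AddCommGroup M] [Module (Rx N) M] [Module ℂ M]
    [IsScalarTower ℂ (Rx N) M]
    (A : ℕ → Submodule ℂ M) (hA : ∀ m, FiniteDimensional ℂ (A m)) (i m : ℕ) :
    Module.finrank ℂ ((Kc N A i m).map ((dK : Cn N M →ₗ[Rx N] Cn N M).restrictScalars ℂ)) +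
      Module.finrank ℂ (Zc N A i m) = Module.finrank ℂ (Kc N A i m) := by
  have := kc_fin (N := N) A hA i m
  set f : Cn N M →ₗ[ℂ] Cn N M := (dK : Cn N M →ₗ[Rx N] Cn N M).restrictScalars ℂ with hf
  have h1 := LinearMap.finrank_range_add_finrank_ker (f.domRestrict (Kc N A i m))
  have h2 : LinearMap.range (f.domRestrict (Kc N A i m)) = (Kc N A i m).map f := by
    ext x
    constructor
    · rintro ⟨y, rfl⟩
      exact ⟨y.1, y.2, rfl⟩
    · rintro ⟨y, hy, rfl⟩
      exact ⟨⟨y, hy⟩, rfl⟩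
  have h3 : Zc N A i m ≤ Kc N A i m := inf_le_left
  have h4 : LinearMap.ker (f.domRestrict (Kc N A i m)) =
      (Zc N A i m).comap (Kc N A i m).subtype := by
    ext x
    constructor
    · intro hx
      exact ⟨x.2, hx⟩
    · intro hx
      exact hx.2
  rw [h2, h4, (Submodule.comapSubtypeEquivOfLe h3).finrank_eq] at h1
  exact h1

private theorem telescope (r : ℕ → ℤ) (n : ℕ) :
    ∑ i ∈ Finset.range n, (-1 : ℤ) ^ i * (r i + r (i + 1)) = r 0 - (-1) ^ n * r n := by
  induction n with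
  | zero => simp
  | succ n ih =>
    rw [Finset.sum_range_succ, ih, pow_succ]
    ring

theorem tKEul : S_KDD → S_KEul := by
  intro _ N M _ _ _ _ A _ hA m
  set r : ℕ → ℤ := fun i =>
    (Module.finrank ℂ ((Kc N A i m).map ((dK : Cn N M →ₗ[Rx N] Cn N M).restrictScalars ℂ)) : ℤ)
    with hr
  have h0 : r 0 = 0 := by
    have h : (Kc N A 0 m).map ((dK : Cn N M →ₗ[Rx N] Cn N M).restrictScalars ℂ) = ⊥ := by
      rw [Submodule.eq_bot_iff]
      rintro _ ⟨ω, hω, rfl⟩
      funext T
      change ∑ k ∈ Tᶜ, sg k T • ((zz k : Rx N) • ω (insert k T)) = 0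
      refine Finset.sum_eq_zero fun k _ => ?_
      rw [(hω (insert k T)).2 (Or.inl ?_), smul_zero, smul_zero]
      exact Finset.card_ne_zero_of_mem (Finset.mem_insert_self k T)
    rw [hr]
    dsimp only
    rw [h, finrank_bot]
    rfl
  have hN : r (N + 2) = 0 := by
    rw [hr]
    dsimp only
    rw [kc_bot A (N + 2) m (Or.inr (by omega)), Submodule.map_bot, finrank_bot]
    rfl
  have hb : ∀ i, (Module.finrank ℂ (Bc N A i m) : ℤ) = r (i + 1) := fun i => rfl
  have hz : ∀ i, (Module.finrank ℂ (Zc N A i m) : ℤ) =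
      (Nat.choose (N + 1) i : ℤ) * (if i ≤ m then (Module.finrank ℂ (A (m - i)) : ℤ) else 0) -
        r i := by
    intro i
    rw [← kc_finrank A hA i m, ← kc_rank A hA i m]
    push_cast
    rw [hr]
    ring
  have ht := telescope r (N + 2)
  rw [h0, hN, mul_zero, sub_zero] at ht
  have h5 : ∀ i ∈ Finset.range (N + 2), (-1 : ℤ) ^ i * ((Module.finrank ℂ (Zc N A i m) : ℤ) -
      Module.finrank ℂ (Bc N A i m)) =
      (-1 : ℤ) ^ i * (Nat.choose (N + 1) i : ℤ) *
        (if i ≤ m then (Module.finrank ℂ (A (m - i)) : ℤ) else 0) -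
      (-1 : ℤ) ^ i * (r i + r (i + 1)) := by
    intro i _
    rw [hb i, hz i]
    ring
  rw [Finset.sum_congr rfl h5, Finset.sum_sub_distrib, ht, sub_zero]

end Pool.Agent.Lib.MP_776403_ag.SD
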