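import Pool.Agent.Lib.MP_776403_ag.SD.K.SpecK

/-!
# THEOREM SD, part K: module KFam

Chains, cycles and boundaries of a finitely generated graded family.
-/

set_option autoImplicit false

open MvPolynomial

noncomputable section

namespace Pool.Agent.Lib.MP_776403_ag.SD

section

variable {N : ℕ} {M : Type} [AddCommGroup M] [Module (Rx N) M] [Module ℂ M]

private theorem kfam_mem (A : ℕ → Submodule ℂ M) (i m : ℕ) (ω : Cn N M) :
    ω ∈ Kc N A i m ↔ ∀ T : Finset (Fin (N + 1)), (T.card = i → i ≤ m → ω T ∈ A (m - i)) ∧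
      (T.card ≠ i ∨ m < i → ω T = 0) := Iff.rfl

private theorem kfam_zz (A : ℕ → Submodule ℂ M) (hA : GF N A) (k : Fin (N + 1)) (m : ℕ) (w : M)
    (hw : w ∈ A m) : (zz k : Rx N) • w ∈ A (m + 1) := by
  unfold zz
  rw [sub_smul]
  exact Submodule.sub_mem _ (hA m _ (Finset.mem_univ _) w hw) (hA m _ (Finset.mem_univ _) w hw)

private theorem kfam_gfK (A : ℕ → Submodule ℂ M) (hA : GF N A) (i : ℕ) : GF N (Kc N A i) := by
  intro m j hj ω hω T
  have h := hω T
  constructor
  · intro h1 h2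
    rw [Pi.smul_apply]
    by_cases hm : i ≤ m
    · have h3 := hA (m - i) j hj (ω T) (h.1 h1 hm)
      rwa [show m - i + 1 = m + 1 - i by omega] at h3
    · rw [h.2 (Or.inr (by omega)), smul_zero]
      exact Submodule.zero_mem _
  · intro h1
    rw [Pi.smul_apply, h.2 (by omega), smul_zero]

private theorem kfam_single (A : ℕ → Submodule ℂ M) (i m : ℕ) (him : i ≤ m)
    (T : Finset (Fin (N + 1))) (hT : T.card = i) (w : M) (hw : w ∈ A (m - i)) :
    (Pi.single T w : Cn N M) ∈ Kc N A i m := by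
  intro T'
  by_cases h : T' = T
  · subst h
    rw [Pi.single_eq_same]
    refine ⟨fun _ _ => hw, fun h1 => ?_⟩
    omega
  · rw [Pi.single_eq_of_ne h]
    exact ⟨fun _ _ => Submodule.zero_mem _, fun _ => rfl⟩

private theorem kfam_fin (A : ℕ → Submodule ℂ M) (hf : ∀ m, FiniteDimensional ℂ (A m))
    (i m : ℕ) : FiniteDimensional ℂ (Kc N A i m) := by
  have h : Kc N A i m ≤ ⨆ T : Finset (Fin (N + 1)), (A (m - i)).map
      (LinearMap.single ℂ (fun _ : Finset (Fin (N + 1)) => M) T) := by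
    intro ω hω
    rw [show ω = ∑ T, (Pi.single T (ω T) : Cn N M) from (Finset.univ_sum_single ω).symm]
    refine Submodule.sum_mem _ fun T _ => ?_
    refine Submodule.mem_iSup_of_mem T ?_
    by_cases h1 : T.card = i ∧ i ≤ m
    · exact ⟨ω T, (hω T).1 h1.1 h1.2, rfl⟩
    · refine ⟨0, Submodule.zero_mem _, ?_⟩
      rw [(hω T).2 (by omega)]
      simp
  have h2 : FiniteDimensional ℂ ↥(⨆ T : Finset (Fin (N + 1)), (A (m - i)).map
      (LinearMap.single ℂ (fun _ : Finset (Fin (N + 1)) => M) T)) := by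
    haveI := hf (m - i)
    infer_instance
  exact Submodule.finiteDimensional_of_le h

private theorem kfam_fgK (A : ℕ → Submodule ℂ M) (hg : FG N (fun _ => ⊥) A) (i : ℕ) :
    FG N (fun _ => ⊥) (Kc N A i) := by
  obtain ⟨m0, hm0⟩ := hg
  refine ⟨m0 + i, fun m hm ω hω => ?_⟩
  refine Submodule.mem_sup_right ?_
  rw [show ω = ∑ T, (Pi.single T (ω T) : Cn N M) from (Finset.univ_sum_single ω).symm]
  refine Submodule.sum_mem _ fun T _ => ?_
  by_cases hT : T.card = i
  · have h1 := (hω T).1 hT (by omega)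
    rw [show m + 1 - i = (m - i) + 1 by omega] at h1
    have h2 := hm0 (m - i) (by omega) h1
    rw [bot_sup_eq] at h2
    generalize ω T = w at h2
    unfold XU at h2
    induction h2 using Submodule.span_induction with
    | mem x hx =>
      obtain ⟨j, hj, v, hv, rfl⟩ := hx
      refine Submodule.subset_span ⟨j, hj, Pi.single T v,
        kfam_single A i m (by omega) T hT v hv, ?_⟩
      rw [Pi.single_smul]
    | zero =>
      rw [Pi.single_zero]
      exact Submodule.zero_mem _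
    | add x y _ _ hx hy =>
      rw [Pi.single_add]
      exact Submodule.add_mem _ hx hy
    | smul r x _ hx =>
      rw [Pi.single_smul]
      exact Submodule.smul_mem _ r hx
  · rw [(hω T).2 (Or.inl hT), Pi.single_zero]
    exact Submodule.zero_mem _

private theorem kfam_dK (A : ℕ → Submodule ℂ M) (hA : GF N A) (i m : ℕ) (ω : Cn N M)
    (hω : ω ∈ Kc N A (i + 1) m) : dK ω ∈ Kc N A i m := by
  intro T
  have hd : dK ω T = ∑ k ∈ Tᶜ, sg k T • ((zz k : Rx N) • ω (insert k T)) := rfl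
  rw [hd]
  constructor
  · intro h1 h2
    refine Submodule.sum_mem _ fun k hk => ?_
    rw [Finset.mem_compl] at hk
    have hc : (insert k T).card = i + 1 := by rw [Finset.card_insert_of_notMem hk, h1]
    have h3 := hω (insert k T)
    refine zsmul_mem ?_ _
    by_cases hm : i + 1 ≤ m
    · have h4 := kfam_zz A hA k _ _ (h3.1 hc hm)
      rwa [show m - (i + 1) + 1 = m - i by omega] at h4
    · rw [h3.2 (Or.inr (by omega)), smul_zero]
      exact Submodule.zero_mem _
  · intro h1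
    refine Finset.sum_eq_zero fun k hk => ?_
    rw [Finset.mem_compl] at hk
    have hc : (insert k T).card = T.card + 1 := Finset.card_insert_of_notMem hk
    rw [(hω (insert k T)).2 (by omega), smul_zero, smul_zero]

private theorem kfam_eK (A : ℕ → Submodule ℂ M) (i m : ℕ) (k : Fin (N + 1)) (ω : Cn N M)
    (hω : ω ∈ Kc N A i m) : eK k ω ∈ Kc N A (i + 1) (m + 1) := by
  intro T
  have hd : eK k ω T = if k ∈ T then sg k (T.erase k) • ω (T.erase k) else 0 := rfl
  rw [hd]
  by_cases hk : k ∈ T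
  · rw [if_pos hk]
    have hc : (T.erase k).card + 1 = T.card := Finset.card_erase_add_one hk
    have h3 := hω (T.erase k)
    constructor
    · intro h1 h2
      refine zsmul_mem ?_ _
      have h4 := h3.1 (by omega) (by omega)
      rwa [show m - i = m + 1 - (i + 1) by omega] at h4
    · intro h1
      rw [h3.2 (by omega), smul_zero]
  · rw [if_neg hk]
    exact ⟨fun _ _ => Submodule.zero_mem _, fun _ => rfl⟩

variable [IsScalarTower ℂ (Rx N) M]

private theorem kfam_memZ (A : ℕ → Submodule ℂ M) (i m : ℕ) (ω : Cn N M) :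
    ω ∈ Zc N A i m ↔ ω ∈ Kc N A i m ∧ dK ω = 0 := Iff.rfl

private theorem kfam_memB (A : ℕ → Submodule ℂ M) (i m : ℕ) (ω : Cn N M) :
    ω ∈ Bc N A i m ↔ ∃ η ∈ Kc N A (i + 1) m, dK η = ω := Iff.rfl

private theorem kfam_gfZ (A : ℕ → Submodule ℂ M) (hA : GF N A) (i : ℕ) : GF N (Zc N A i) := by
  intro m j hj ω hω
  rw [kfam_memZ] at hω ⊢
  refine ⟨kfam_gfK A hA i m j hj ω hω.1, ?_⟩
  rw [map_smul, hω.2, smul_zero]

private theorem kfam_gfB (A : ℕ → Submodule ℂ M) (hA : GF N A) (i : ℕ) : GF N (Bc N A i) := by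
  intro m j hj ω hω
  rw [kfam_memB] at hω ⊢
  obtain ⟨η, h1, rfl⟩ := hω
  exact ⟨(X j : Rx N) • η, kfam_gfK A hA (i + 1) m j hj η h1, by rw [map_smul]⟩

end

theorem tKFam : S_KNoe → S_KDD → S_KHot → S_KFam := by
  intro hNoe hDD hHot N M _ _ _ _ A hA hf hg i
  have hBZ : ∀ m, Bc N A i m ≤ Zc N A i m := by
    intro m ω hω
    rw [kfam_memB] at hω
    obtain ⟨η, h1, rfl⟩ := hω
    rw [kfam_memZ]
    exact ⟨kfam_dK A hA i m η h1, hDD N M η⟩
  have hZK : ∀ m, Zc N A i m ≤ Kc N A i m := fun m ω hω => ((kfam_memZ A i m ω).1 hω).1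
  have hK : FG N (fun _ => ⊥) (Kc N A i) := kfam_fgK A hg i
  have hbot : GFm (Finset.univ : Finset (Fin (N + 1) ⊕ Fin (N + 1)))
      (fun _ => (⊥ : Submodule ℂ (Cn N M))) := by
    intro m j _ w hw
    rw [Submodule.mem_bot] at hw ⊢
    rw [hw, smul_zero]
  have hgK := kfam_gfK A hA i
  have hgZ := kfam_gfZ A hA i
  have hgB := kfam_gfB A hA i
  refine ⟨⟨hgK, hgZ, hgB⟩, fun m => ⟨hBZ m, hZK m, kfam_fin A hf i m⟩, ⟨hK, ?_, ?_⟩, ?_⟩
  · exact hNoe _ (Cn N M) Finset.univ (fun _ => ⊥) (Zc N A i) (Kc N A i) hbot hgZ hgK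
      (fun _ => bot_le) hZK (kfam_fin A hf i) hK
  · exact hNoe _ (Cn N M) Finset.univ (fun _ => ⊥) (Bc N A i) (Kc N A i) hbot hgB hgK
      (fun _ => bot_le) (fun m => (hBZ m).trans (hZK m)) (kfam_fin A hf i) hK
  · intro k m ω hω
    rw [kfam_memZ] at hω
    rw [kfam_memB]
    refine ⟨eK k ω, kfam_eK A i m k ω hω.1, ?_⟩
    have h := hHot N M k ω
    rw [hω.2, map_zero, add_zero] at h
    exact h

end Pool.Agent.Lib.MP_776403_ag.SD
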