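import Pool.Agent.Lib.MP_776403_ag.SD.K.SpecK

/-!
# THEOREM SD, part K, module KGF: tensor products are finitely generated graded families
-/

set_option autoImplicit false

open MvPolynomial

noncomputable section

namespace Pool.Agent.Lib.MP_776403_ag.SD

section KGFaux

variable {N : ℕ} {α β : Type}

/-- `v(x)_a w(y)_b`. -/
private def kgfT (I J : Ideal (Sx N)) (v : α → Sx N) (w : β → Sx N) : α × β → CR I J :=
  fun p => Ideal.Quotient.mk (cc I J) (ix (v p.1) * iy (w p.2))

private theorem kgf_mk_smul (I J : Ideal (Sx N)) (r : ℂ) (f : Rx N) :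
    Ideal.Quotient.mk (cc I J) (r • f) = r • Ideal.Quotient.mk (cc I J) f :=
  map_smul (Ideal.Quotient.mkₐ ℂ (cc I J)) r f

/-- The bilinear map. -/
private def kgfB (I J : Ideal (Sx N)) (α β : Type) :
    (α → Sx N) →ₗ[ℂ] (β → Sx N) →ₗ[ℂ] (α × β → CR I J) :=
  LinearMap.mk₂ ℂ (fun v w => kgfT I J v w)
    (fun v v' w => by
      funext p
      simp only [kgfT, Pi.add_apply, map_add, add_mul])
    (fun r v w => by
      funext p
      simp only [kgfT, Pi.smul_apply, map_smul, smul_mul_assoc]
      exact kgf_mk_smul I J r _)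
    (fun v w w' => by
      funext p
      simp only [kgfT, Pi.add_apply, map_add, mul_add])
    (fun r v w => by
      funext p
      simp only [kgfT, Pi.smul_apply, map_smul, mul_smul_comm]
      exact kgf_mk_smul I J r _)

private theorem kgfB_apply (I J : Ideal (Sx N)) (v : α → Sx N) (w : β → Sx N) :
    kgfB I J α β v w = kgfT I J v w := rfl

private theorem kgfT_mem {I J : Ideal (Sx N)} {V : ℕ → Submodule ℂ (α → Sx N)}
    {W : ℕ → Submodule ℂ (β → Sx N)} {m k1 k2 : ℕ} (h : k1 + k2 = m) {v : α → Sx N}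
    {w : β → Sx N} (hv : v ∈ V k1) (hw : w ∈ W k2) : kgfT I J v w ∈ TPf I J V W m :=
  Submodule.subset_span ⟨k1, k2, v, w, h, hv, hw, rfl⟩

private theorem kgfT_inl (I J : Ideal (Sx N)) (i : Fin (N + 1)) (v : α → Sx N) (w : β → Sx N) :
    (X (Sum.inl i) : Rx N) • kgfT I J v w = kgfT I J (fun a => (X i : Sx N) * v a) w := by
  funext p
  simp only [Pi.smul_apply, kgfT]
  have h1 : (ix (X i * v p.1) : Rx N) = X (Sum.inl i) * ix (v p.1) := by
    rw [map_mul]
    congr 1
    simp [ix]
  rw [h1, mul_assoc]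
  exact (Submodule.Quotient.mk_smul (cc I J) (X (Sum.inl i) : Rx N) (ix (v p.1) * iy (w p.2))).symm

private theorem kgfT_inr (I J : Ideal (Sx N)) (i : Fin (N + 1)) (v : α → Sx N) (w : β → Sx N) :
    (X (Sum.inr i) : Rx N) • kgfT I J v w = kgfT I J v (fun b => (X i : Sx N) * w b) := by
  funext p
  simp only [Pi.smul_apply, kgfT]
  have h1 : (iy (X i * w p.2) : Rx N) = X (Sum.inr i) * iy (w p.2) := by
    rw [map_mul]
    congr 1
    simp [iy]
  rw [h1, mul_left_comm]
  exact (Submodule.Quotient.mk_smul (cc I J) (X (Sum.inr i) : Rx N) (ix (v p.1) * iy (w p.2))).symm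

/-- Vectors of forms of degree `k`. -/
private def kgfU (N : ℕ) (α : Type) (k : ℕ) : Submodule ℂ (α → Sx N) where
  carrier := {v | ∀ a, (v a).IsHomogeneous k}
  zero_mem' := fun _ => isHomogeneous_zero _ _ _
  add_mem' := fun h h' a => (h a).add (h' a)
  smul_mem' := fun r v h a => by
    rw [Pi.smul_apply, MvPolynomial.smul_eq_C_mul]
    simpa using (isHomogeneous_C _ r).mul (h a)

private theorem kgfU_GV (N : ℕ) (α : Type) : GV (kgfU N α) where
  hom := fun _ _ h a => h a
  mul := fun k v h i a => by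
    have h1 := (isHomogeneous_X ℂ i).mul (h a)
    rwa [add_comm 1 k] at h1

private theorem kgfU_XU (N : ℕ) (α : Type) (m : ℕ) :
    kgfU N α (m + 1) ≤ XU (Finset.univ : Finset (Fin (N + 1))) (kgfU N α) m := by
  intro v hv
  have h1 : v = ∑ i : Fin (N + 1), (X i : Sx N) •
      (((m + 1 : ℕ) : ℂ)⁻¹ • fun a => pderiv i (v a)) := by
    funext a
    have h2 := (hv a).sum_X_mul_pderiv
    rw [Finset.sum_apply]
    simp only [Pi.smul_apply, smul_eq_mul, mul_smul_comm]
    rw [← Finset.smul_sum, h2, ← Nat.cast_smul_eq_nsmul ℂ, smul_smul,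
      inv_mul_cancel₀ (by exact_mod_cast Nat.succ_ne_zero m), one_smul]
  rw [h1]
  refine Submodule.sum_mem _ fun i _ => Submodule.subset_span ⟨i, Finset.mem_univ _, _, ?_, rfl⟩
  refine Submodule.smul_mem _ _ fun a => ?_
  have h3 := (hv a).pderiv (i := i)
  simpa using h3

private theorem kgf_gen (hN : S_KNoe) (hG : S_KGV) [Finite α] (V : ℕ → Submodule ℂ (α → Sx N))
    (hV : GV V) : FGP (Finset.univ : Finset (Fin (N + 1))) (fun _ => ⊥) V := by
  refine hN (Fin (N + 1)) (α → Sx N) Finset.univ (fun _ => ⊥) V (kgfU N α) ?_ ?_ ?_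
    (fun m => bot_le) (fun m v hv a => hV.hom m v hv a) ?_ ?_
  · intro m i _ w hw
    rw [Submodule.mem_bot] at hw ⊢
    rw [hw, smul_zero]
  · intro m i _ w hw
    exact hV.mul m w hw i
  · intro m i _ w hw
    exact (kgfU_GV N α).mul m w hw i
  · exact ((hG.2.2.2 N α (kgfU N α) (kgfU_GV N α)).2 inferInstance)
  · exact ⟨0, fun m _ => le_trans (kgfU_XU N α m) le_sup_right⟩

end KGFaux

/-- KGF. -/
theorem tKGF : S_KNoe → S_KGV → S_KGF := by
  intro hN hG N α β _ _ I J V W hV hW
  refine ⟨?_, ?_, ?_⟩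
  · intro m i _ z hz
    unfold TPf at hz
    induction hz using Submodule.span_induction with
    | mem z hz =>
      obtain ⟨k1, k2, v, w, h, hv, hw, rfl⟩ := hz
      rcases i with i | i
      · have h1 := kgfT_inl I J i v w
        change (X (Sum.inl i) : Rx N) • kgfT I J v w ∈ _
        rw [h1]
        exact kgfT_mem (by omega) (hV.mul k1 v hv i) hw
      · have h1 := kgfT_inr I J i v w
        change (X (Sum.inr i) : Rx N) • kgfT I J v w ∈ _
        rw [h1]
        exact kgfT_mem (by omega) hv (hW.mul k2 w hw i)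
    | zero => rw [smul_zero]; exact Submodule.zero_mem _
    | add x y _ _ hx hy => rw [smul_add]; exact Submodule.add_mem _ hx hy
    | smul r x _ hx => rw [smul_comm]; exact Submodule.smul_mem _ r hx
  · intro m
    have fV := (hG.2.2.2 N α V hV).2 inferInstance
    have fW := (hG.2.2.2 N β W hW).2 inferInstance
    have h1 : TPf I J V W m ≤ ⨆ k : Fin (m + 1),
        Submodule.map₂ (kgfB I J α β) (V k) (W (m - k)) := by
      refine Submodule.span_le.2 ?_
      rintro z ⟨k1, k2, v, w, h, hv, hw, rfl⟩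
      have h2 : kgfB I J α β v w ∈ Submodule.map₂ (kgfB I J α β) (V k1) (W (m - k1)) :=
        Submodule.apply_mem_map₂ _ hv (by rwa [show m - k1 = k2 by omega])
      exact (le_iSup (fun k : Fin (m + 1) =>
        Submodule.map₂ (kgfB I J α β) (V k) (W (m - k))) ⟨k1, by omega⟩) h2
    have h3 : ∀ k : Fin (m + 1), FiniteDimensional ℂ
        (Submodule.map₂ (kgfB I J α β) (V k) (W (m - k)) : Submodule ℂ (α × β → CR I J)) := by
      intro k
      rw [← Submodule.fg_iff_finiteDimensional]
      exact Submodule.FG.map₂ _ ((Submodule.fg_iff_finiteDimensional _).2 (fV k))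
        ((Submodule.fg_iff_finiteDimensional _).2 (fW _))
    exact Submodule.finiteDimensional_of_le h1
  · obtain ⟨k1, h1⟩ := kgf_gen hN hG V hV
    obtain ⟨k2, h2⟩ := kgf_gen hN hG W hW
    refine ⟨k1 + k2, fun m hm => le_trans ?_ le_sup_right⟩
    refine Submodule.span_le.2 ?_
    rintro z ⟨e1, e2, v, w, h, hv, hw, rfl⟩
    change kgfB I J α β v w ∈ _
    by_cases h3 : k1 < e1
    · obtain ⟨e, rfl⟩ : ∃ e, e1 = e + 1 := ⟨e1 - 1, by omega⟩
      have h4 := h1 e (by omega) hv
      rw [bot_sup_eq] at h4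
      unfold XU at h4
      clear hv
      induction h4 using Submodule.span_induction with
      | mem x hx =>
        obtain ⟨i, _, u, hu, rfl⟩ := hx
        refine Submodule.subset_span ⟨Sum.inl i, Finset.mem_univ _, kgfT I J u w,
          kgfT_mem (by omega) hu hw, ?_⟩
        rw [kgfT_inl]
        rfl
      | zero => rw [map_zero, LinearMap.zero_apply]; exact Submodule.zero_mem _
      | add x y _ _ hx hy =>
        rw [map_add, LinearMap.add_apply]
        exact Submodule.add_mem _ hx hy
      | smul r x _ hx =>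
        rw [map_smul, LinearMap.smul_apply]
        exact Submodule.smul_mem _ r hx
    · obtain ⟨e, rfl⟩ : ∃ e, e2 = e + 1 := ⟨e2 - 1, by omega⟩
      have h4 := h2 e (by omega) hw
      rw [bot_sup_eq] at h4
      unfold XU at h4
      clear hw
      induction h4 using Submodule.span_induction with
      | mem x hx =>
        obtain ⟨i, _, u, hu, rfl⟩ := hx
        refine Submodule.subset_span ⟨Sum.inr i, Finset.mem_univ _, kgfT I J v u,
          kgfT_mem (by omega) hv hu, ?_⟩
        rw [kgfT_inr]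
        rfl
      | zero => rw [map_zero]; exact Submodule.zero_mem _
      | add x y _ _ hx hy =>
        rw [map_add]
        exact Submodule.add_mem _ hx hy
      | smul r x _ hx =>
        rw [map_smul]
        exact Submodule.smul_mem _ r hx

end Pool.Agent.Lib.MP_776403_ag.SD
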