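import Pool.Agent.Lib.MP_776403_ag.SD.K.SpecK

/-!
# Part K: graded submodules of `S^α`
-/

set_option autoImplicit false

open MvPolynomial

noncomputable section

namespace Pool.Agent.Lib.MP_776403_ag.SD

namespace KGVAux

variable {N : ℕ} {α : Type}

/-- Vectors of forms of degree `k`. -/
def HH (N : ℕ) (α : Type) (k : ℕ) : Submodule ℂ (α → Sx N) where
  carrier := {v | ∀ a, (v a).IsHomogeneous k}
  zero_mem' := fun _ => isHomogeneous_zero _ _ _
  add_mem' := fun h h' a => (h a).add (h' a)
  smul_mem' := fun r _ h a => (homogeneousSubmodule (Fin (N + 1)) ℂ k).smul_mem r (h a)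

theorem mem_HH {k : ℕ} {v : α → Sx N} : v ∈ HH N α k ↔ ∀ a, (v a).IsHomogeneous k := Iff.rfl

/-- Multiplication by `g`. -/
def mu (α : Type) (g : Sx N) : (α → Sx N) →ₗ[ℂ] (α → Sx N) where
  toFun v := fun a => g * v a
  map_add' v w := by
    funext a
    change g * (v a + w a) = g * v a + g * w a
    rw [mul_add]
  map_smul' r v := by
    funext a
    change g * (r • v a) = r • (g * v a)
    rw [mul_smul_comm]

theorem mu_apply (g : Sx N) (v : α → Sx N) : mu α g v = fun a => g * v a := rfl

theorem det_hom {j : ℕ} (F : Fin j → Sx N) (f : Fin j → ℕ) (h : ∀ i, (F i).IsHomogeneous (f i))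
    (hf : ∀ i, 1 ≤ f i) (β : Fin j → Fin (N + 1)) :
    (Matrix.det (Matrix.of fun i k => pderiv (β k) (F i))).IsHomogeneous (∑ i, (f i - 1)) := by
  rw [Matrix.det_apply]
  refine IsHomogeneous.sum _ _ _ fun σ _ => ?_
  rw [Units.smul_def]
  have h1 : (∏ i, Matrix.of (fun i k => pderiv (β k) (F i)) (σ i) i).IsHomogeneous
      (∑ i, (f i - 1)) := by
    rw [← Equiv.sum_comp σ]
    refine IsHomogeneous.prod _ _ _ fun i _ => ?_
    rw [Matrix.of_apply]
    exact (h (σ i)).pderiv
  exact (homogeneousSubmodule (Fin (N + 1)) ℂ (∑ i, (f i - 1))).toAddSubgroup.zsmul_mem h1 _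

theorem pd_zero {F : Sx N} (h : F.IsHomogeneous 0) (k : Fin (N + 1)) : pderiv k F = 0 := by
  rw [totalDegree_eq_zero_iff_eq_C.1 ((totalDegree_zero_iff_isHomogeneous (Fin (N + 1))).2 h), pderiv_C]

theorem entry_hom {j k e : ℕ} {a : Sx N} (ha : a.IsHomogeneous e) (F : Fin j → Sx N) (f : Fin j → ℕ)
    (h : ∀ i, (F i).IsHomogeneous (f i)) (he : e + ∑ i, f i = k + j) (β : Fin j → Fin (N + 1)) :
    (a * Matrix.det (Matrix.of fun i k => pderiv (β k) (F i))).IsHomogeneous k := by
  by_cases hf : ∀ i, 1 ≤ f i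
  · have h1 := ha.mul (det_hom F f h hf β)
    have h2 : ∑ i, f i = ∑ i, (f i - 1) + j := by
      have h3 : ∑ i, f i = ∑ i, ((f i - 1) + 1) :=
        Finset.sum_congr rfl fun i _ => (Nat.sub_add_cancel (hf i)).symm
      rw [h3, Finset.sum_add_distrib]
      simp
    have h4 : e + ∑ i, (f i - 1) = k := by omega
    rw [h4] at h1
    exact h1
  · push Not at hf
    obtain ⟨i, hi⟩ := hf
    have h0 : f i = 0 := by omega
    have h1 : Matrix.det (Matrix.of fun i k => pderiv (β k) (F i)) = 0 := by
      refine Matrix.det_eq_zero_of_row_eq_zero i fun k => ?_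
      rw [Matrix.of_apply]
      exact pd_zero (h0 ▸ h i) _
    rw [h1, mul_zero]
    exact isHomogeneous_zero _ _ _

theorem X_hom {a : Sx N} {e : ℕ} (h : a.IsHomogeneous e) (i : Fin (N + 1)) :
    (X i * a : Sx N).IsHomogeneous (e + 1) := by
  have h1 := (isHomogeneous_X ℂ i).mul h
  rw [Nat.add_comm 1 e] at h1
  exact h1

theorem AF_gv : GV (AF N) where
  hom _ _ hv := hv
  mul _ _ hv i := fun a => X_hom (hv a) i

theorem PV_gv {α β : Type} {V : ℕ → Submodule ℂ (α → Sx N)} {W : ℕ → Submodule ℂ (β → Sx N)}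
    (hV : GV V) (hW : GV W) : GV (PV V W) := by
  constructor
  · intro k v hv
    have h : PV V W k ≤ HH N (α × β) k := by
      refine Submodule.span_le.2 ?_
      rintro z ⟨k1, k2, v, w, hk, hv, hw, rfl⟩ p
      rw [← hk]
      exact (hV.hom k1 v hv p.1).mul (hW.hom k2 w hw p.2)
    exact h hv
  · intro k v hv i
    have h : PV V W k ≤ (PV V W (k + 1)).comap (mu (α × β) (X i)) := by
      refine Submodule.span_le.2 ?_
      rintro z ⟨k1, k2, v, w, hk, hv, hw, rfl⟩
      refine Submodule.subset_span ⟨k1 + 1, k2, fun a => X i * v a, w, by omega, hV.mul k1 v hv i, hw, ?_⟩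
      funext p
      rw [mu_apply]
      exact (mul_assoc _ _ _).symm
    exact h hv

theorem VL_gv (I : Ideal (Sx N)) (j : ℕ) : GV (VL I j) := by
  constructor
  · intro k v hv
    have h : VL I j k ≤ HH N (Fin j → Fin (N + 1)) k := by
      refine Submodule.span_le.2 ?_
      rintro z ⟨a, e, F, f, ha, hF, he, rfl⟩ p
      exact entry_hom ha F f (fun i => (hF i).2) he p
    exact h hv
  · intro k v hv i
    have h : VL I j k ≤ (VL I j (k + 1)).comap (mu (Fin j → Fin (N + 1)) (X i)) := by
      refine Submodule.span_le.2 ?_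
      rintro z ⟨a, e, F, f, ha, hF, he, rfl⟩
      refine Submodule.subset_span ⟨X i * a, e + 1, F, f, X_hom ha i, hF, by omega, ?_⟩
      funext p
      rw [mu_apply]
      exact (mul_assoc _ _ _).symm
    exact h hv

theorem VT_gv (I : Ideal (Sx N)) (j : ℕ) : GV (VT I j) := by
  constructor
  · intro k v hv
    have h : VT I j k ≤ HH N (Finset (Fin (N + 1))) k := by
      refine Submodule.span_le.2 ?_
      rintro z ⟨a, e, F, f, ha, hF, he, rfl⟩ T
      by_cases hT : T.card = j
      · simp only [dif_pos hT]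
        exact entry_hom ha F f (fun i => (hF i).2) he _
      · simp only [dif_neg hT]
        exact isHomogeneous_zero _ _ _
    exact h hv
  · intro k v hv i
    have h : VT I j k ≤ (VT I j (k + 1)).comap (mu (Finset (Fin (N + 1))) (X i)) := by
      refine Submodule.span_le.2 ?_
      rintro z ⟨a, e, F, f, ha, hF, he, rfl⟩
      refine Submodule.subset_span ⟨X i * a, e + 1, F, f, X_hom ha i, hF, by omega, ?_⟩
      funext T
      rw [mu_apply]
      by_cases hT : T.card = j
      · simp only [dif_pos hT]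
        exact (mul_assoc _ _ _).symm
      · simp only [dif_neg hT]
        exact mul_zero _
    exact h hv

theorem mono_mem {V : ℕ → Submodule ℂ (α → Sx N)} (hV : GV V) (e : ℕ) :
    ∀ (m : Fin (N + 1) →₀ ℕ), m.degree = e → ∀ (k : ℕ) (v : α → Sx N), v ∈ V k →
      (fun a => (monomial m 1 : Sx N) * v a) ∈ V (k + e) := by
  induction e with
  | zero =>
    intro m hm k v hv
    rw [Finsupp.degree_eq_zero_iff] at hm
    subst hm
    have h1 : (fun a => (monomial 0 1 : Sx N) * v a) = v := by
      funext a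
      exact one_mul _
    rw [h1]
    exact hv
  | succ e ih =>
    intro m hm k v hv
    have hne : m ≠ 0 := by
      rintro rfl
      simp at hm
    obtain ⟨i, hi⟩ := Finsupp.ne_iff.1 hne
    have hi' : 1 ≤ m i := Nat.one_le_iff_ne_zero.2 hi
    have hle : Finsupp.single i 1 ≤ m := by
      rw [Finsupp.single_le_iff]
      exact hi'
    have hm2 : Finsupp.single i 1 + (m - Finsupp.single i 1) = m := add_tsub_cancel_of_le hle
    have hd : (m - Finsupp.single i 1).degree = e := by
      have h3 := congrArg Finsupp.degree hm2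
      rw [map_add, Finsupp.degree_single, hm] at h3
      omega
    have h1 := hV.mul _ _ (ih _ hd k v hv) i
    have h2 : (fun a => (X i : Sx N) * ((monomial (m - Finsupp.single i 1) 1 : Sx N) * v a)) =
        fun a => (monomial m 1 : Sx N) * v a := by
      funext a
      rw [← mul_assoc]
      congr 1
      rw [X, monomial_mul, one_mul, hm2]
    rw [h2] at h1
    exact h1

theorem form_mem {V : ℕ → Submodule ℂ (α → Sx N)} (hV : GV V) (k e : ℕ) (g : Sx N) (v : α → Sx N)
    (hg : g.IsHomogeneous e) (hv : v ∈ V k) : (fun a => g * v a) ∈ V (k + e) := by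
  have h1 : (fun a => g * v a) =
      ∑ m ∈ g.support, coeff m g • fun a => (monomial m 1 : Sx N) * v a := by
    funext a
    rw [Finset.sum_apply]
    conv_lhs => rw [g.as_sum, Finset.sum_mul]
    refine Finset.sum_congr rfl fun m _ => ?_
    rw [Pi.smul_apply, ← smul_mul_assoc, smul_monomial, smul_eq_mul, mul_one]
  rw [h1]
  refine Submodule.sum_mem _ fun m hm => Submodule.smul_mem _ _ ?_
  refine mono_mem hV e m ?_ k v hv
  have h2 := hg (mem_support_iff.1 hm)
  rw [Finsupp.degree_eq_weight_one]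
  exact h2

theorem fin_dim {V : ℕ → Submodule ℂ (α → Sx N)} (hV : GV V) [Finite α] (k : ℕ) :
    FiniteDimensional ℂ (V k) := by
  haveI : FiniteDimensional ℂ (homogeneousSubmodule (Fin (N + 1)) ℂ k) :=
    Module.Finite.iff_fg.2 (homogeneousSubmodule_fg (Fin (N + 1)) ℂ k)
  let φ : V k →ₗ[ℂ] (α → homogeneousSubmodule (Fin (N + 1)) ℂ k) :=
    { toFun := fun v a => ⟨v.1 a, hV.hom k v.1 v.2 a⟩
      map_add' := fun _ _ => rfl
      map_smul' := fun _ _ => rfl }
  refine FiniteDimensional.of_injective φ ?_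
  intro v w h
  refine Subtype.ext (funext fun a => ?_)
  exact congrArg Subtype.val (congrFun h a)

end KGVAux

open KGVAux in
theorem tKGV : S_KGV :=
  ⟨fun _ => AF_gv, fun _ _ _ _ _ hV hW => PV_gv hV hW, fun _ I j => ⟨VL_gv I j, VT_gv I j⟩,
    fun _ _ _ hV => ⟨fun k e g v hg hv => form_mem hV k e g v hg hv, fun _ k => fin_dim hV k⟩⟩

end Pool.Agent.Lib.MP_776403_ag.SD
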