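import Pool.Agent.Lib.MP_776403_ag.SD.K.SpecK

/-!
# THEOREM SD, part K: KHS, Hilbert-Serre for graded families
-/

set_option autoImplicit false

open MvPolynomial

noncomputable section

namespace Pool.Agent.Lib.MP_776403_ag.SD

section

variable {σ : Type} {W : Type} [AddCommGroup W] [Module (MvPolynomial σ ℂ) W] [Module ℂ W]
  [IsScalarTower ℂ (MvPolynomial σ ℂ) W]

/-- Multiplication by a variable. -/
private def mx (i : σ) : W →ₗ[ℂ] W where
  toFun w := (X i : MvPolynomial σ ℂ) • w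
  map_add' := smul_add _
  map_smul' r w := by
    rw [RingHom.id_apply, ← smul_one_smul (MvPolynomial σ ℂ) r w, smul_smul, mul_comm, ← smul_smul,
      smul_one_smul]

omit [IsScalarTower ℂ (MvPolynomial σ ℂ) W] [Module ℂ W] in
private theorem mx_comm (i j : σ) (w : W) :
    (X i : MvPolynomial σ ℂ) • (X j : MvPolynomial σ ℂ) • w = (X j : MvPolynomial σ ℂ) •
      (X i : MvPolynomial σ ℂ) • w := by
  rw [smul_smul, smul_smul, mul_comm]

/-- Rank-nullity for a subspace. -/
private theorem rn {W : Type} [AddCommGroup W] [Module ℂ W] (f : W →ₗ[ℂ] W) (A : Submodule ℂ W)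
    [FiniteDimensional ℂ A] :
    Module.finrank ℂ (A.map f) + Module.finrank ℂ (A ⊓ LinearMap.ker f : Submodule ℂ W) =
      Module.finrank ℂ A := by
  have h1 := LinearMap.finrank_range_add_finrank_ker (f.domRestrict A)
  rw [LinearMap.range_domRestrict] at h1
  rw [← h1]
  have h2 : (A ⊓ LinearMap.ker f : Submodule ℂ W) =
      (LinearMap.ker (f.domRestrict A)).map A.subtype := by
    ext w
    simp only [Submodule.mem_inf, LinearMap.mem_ker, Submodule.mem_map]
    constructor
    · rintro ⟨h3, h4⟩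
      exact ⟨⟨w, h3⟩, h4, rfl⟩
    · rintro ⟨⟨w', h3⟩, h4, rfl⟩
      exact ⟨h3, h4⟩
  rw [h2, Submodule.finrank_map_subtype_eq]

/-- `K m`. -/
private def KK (i : σ) (V U : ℕ → Submodule ℂ W) (m : ℕ) : Submodule ℂ W :=
  U m ⊓ (V (m + 1)).comap (mx i)

/-- `V'`. -/
private def VV (i : σ) (V U : ℕ → Submodule ℂ W) : ℕ → Submodule ℂ W
  | 0 => V 0
  | m + 1 => V (m + 1) ⊔ (U m).map (mx i)

/-- The dimension formula. -/
private theorem dimf (i : σ) (V U : ℕ → Submodule ℂ W) (hVU : ∀ m, V m ≤ U m)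
    (hF : ∀ m, FiniteDimensional ℂ (U m)) (m : ℕ) :
    Module.finrank ℂ (VV i V U (m + 1)) + Module.finrank ℂ (KK i V U m) =
      Module.finrank ℂ (V (m + 1)) + Module.finrank ℂ (U m) := by
  haveI := hF m
  haveI := hF (m + 1)
  haveI : FiniteDimensional ℂ (V (m + 1)) := Submodule.finiteDimensional_of_le (hVU (m + 1))
  haveI : FiniteDimensional ℂ ((U m).map (mx i)) := inferInstance
  haveI : FiniteDimensional ℂ (KK i V U m) := Submodule.finiteDimensional_of_le inf_le_left
  have h1 := Submodule.finrank_sup_add_finrank_inf_eq (V (m + 1)) ((U m).map (mx i))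
  have h2 := rn (mx i) (U m)
  have h3 := rn (mx i) (KK i V U m)
  have h4 : (KK i V U m).map (mx i) = V (m + 1) ⊓ (U m).map (mx i) := by
    ext w
    simp only [Submodule.mem_inf, Submodule.mem_map, KK, Submodule.mem_comap]
    constructor
    · rintro ⟨y, ⟨hy1, hy2⟩, rfl⟩
      exact ⟨hy2, y, hy1, rfl⟩
    · rintro ⟨h5, y, hy1, rfl⟩
      exact ⟨y, ⟨hy1, h5⟩, rfl⟩
  have h6 : (KK i V U m ⊓ LinearMap.ker (mx i) : Submodule ℂ W) = U m ⊓ LinearMap.ker (mx i) := by
    ext w
    simp only [Submodule.mem_inf, KK, Submodule.mem_comap, LinearMap.mem_ker]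
    constructor
    · rintro ⟨⟨h7, _⟩, h8⟩
      exact ⟨h7, h8⟩
    · rintro ⟨h7, h8⟩
      exact ⟨⟨h7, by rw [h8]; exact Submodule.zero_mem _⟩, h8⟩
  rw [h4, h6] at h3
  change Module.finrank ℂ (V (m + 1) ⊔ (U m).map (mx i) : Submodule ℂ W) + _ = _
  omega

private theorem base (V U : ℕ → Submodule ℂ W) (hVU : ∀ m, V m ≤ U m) (h : FGP (∅ : Finset σ) V U) :
    ∃ p : Polynomial ℤ, (1 - PowerSeries.X) ^ (∅ : Finset σ).card * PowerSeries.mk (fun m =>
      (Module.finrank ℂ (U m) : ℤ) - Module.finrank ℂ (V m)) = (p : PowerSeries ℤ) := by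
  obtain ⟨m0, hm⟩ := h
  refine ⟨PowerSeries.trunc (m0 + 1) (PowerSeries.mk (fun m =>
      (Module.finrank ℂ (U m) : ℤ) - Module.finrank ℂ (V m))), ?_⟩
  rw [Finset.card_empty, pow_zero, one_mul]
  ext m
  rw [Polynomial.coeff_coe, PowerSeries.coeff_trunc, PowerSeries.coeff_mk]
  split_ifs with h1
  · rfl
  · obtain ⟨m', rfl⟩ : ∃ m', m = m' + 1 := ⟨m - 1, by omega⟩
    have h2 : U (m' + 1) = V (m' + 1) := by
      refine le_antisymm ?_ (hVU _)
      have h3 := hm m' (by omega)
      have h4 : XU (∅ : Finset σ) U m' = ⊥ := by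
        unfold XU
        rw [Submodule.span_eq_bot]
        rintro x ⟨i, hi, _⟩
        exact absurd hi (Finset.notMem_empty i)
      rw [h4, sup_bot_eq] at h3
      exact h3
    rw [h2, sub_self]

private theorem step (hK : S_KNoe) [Finite σ] [DecidableEq σ] (i : σ) (s : Finset σ) (hi : i ∉ s)
    (ih : ∀ V U : ℕ → Submodule ℂ W, GFm s V → GFm s U → (∀ m, V m ≤ U m) →
      (∀ m, FiniteDimensional ℂ (U m)) → FGP s V U →
      ∃ p : Polynomial ℤ, (1 - PowerSeries.X) ^ s.card * PowerSeries.mk (fun m =>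
        (Module.finrank ℂ (U m) : ℤ) - Module.finrank ℂ (V m)) = (p : PowerSeries ℤ))
    (V U : ℕ → Submodule ℂ W) (hV : GFm (insert i s) V) (hU : GFm (insert i s) U)
    (hVU : ∀ m, V m ≤ U m) (hF : ∀ m, FiniteDimensional ℂ (U m)) (hfg : FGP (insert i s) V U) :
    ∃ p : Polynomial ℤ, (1 - PowerSeries.X) ^ (insert i s).card * PowerSeries.mk (fun m =>
      (Module.finrank ℂ (U m) : ℤ) - Module.finrank ℂ (V m)) = (p : PowerSeries ℤ) := by
  have hV' : ∀ m, V m ≤ VV i V U m := by
    rintro (_ | m)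
    · exact le_rfl
    · exact le_sup_left
  have hVVU : ∀ m, VV i V U m ≤ U m := by
    rintro (_ | m)
    · exact hVU 0
    · refine sup_le (hVU _) ?_
      rintro _ ⟨w, hw, rfl⟩
      exact hU m i (Finset.mem_insert_self i s) w hw
  have hVK : ∀ m, V m ≤ KK i V U m := fun m w hw =>
    ⟨hVU m hw, hV m i (Finset.mem_insert_self i s) w hw⟩
  have hKU : ∀ m, KK i V U m ≤ U m := fun m => inf_le_left
  have hKins : GFm (insert i s) (KK i V U) := by
    intro m j hj w hw
    refine ⟨hU m j hj w hw.1, ?_⟩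
    change (X i : MvPolynomial σ ℂ) • (X j : MvPolynomial σ ℂ) • w ∈ V (m + 1 + 1)
    rw [mx_comm]
    exact hV (m + 1) j hj _ hw.2
  have hKs : GFm s (KK i V U) := fun m j hj w hw => hKins m j (Finset.mem_insert_of_mem hj) w hw
  have hVs : GFm s V := fun m j hj w hw => hV m j (Finset.mem_insert_of_mem hj) w hw
  have hUs : GFm s U := fun m j hj w hw => hU m j (Finset.mem_insert_of_mem hj) w hw
  have hVVs : GFm s (VV i V U) := by
    rintro (_ | m) j hj w hw
    · exact hV' 1 (hVs 0 j hj w hw)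
    · obtain ⟨v, hv, y, ⟨u, hu, rfl⟩, rfl⟩ := Submodule.mem_sup.1 hw
      rw [smul_add]
      refine Submodule.add_mem _ (Submodule.mem_sup_left (hVs (m + 1) j hj v hv)) ?_
      refine Submodule.mem_sup_right ⟨(X j : MvPolynomial σ ℂ) • u, hUs m j hj u hu, ?_⟩
      exact mx_comm i j u
  have hXU : ∀ (A : ℕ → Submodule ℂ W) (m : ℕ),
      XU (insert i s) A m ≤ (A m).map (mx i) ⊔ XU s A m := by
    intro A m
    unfold XU
    rw [Submodule.span_le]
    rintro z ⟨j, hj, w, hw, rfl⟩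
    rcases Finset.mem_insert.1 hj with rfl | hj
    · exact Submodule.mem_sup_left ⟨w, hw, rfl⟩
    · exact Submodule.mem_sup_right (Submodule.subset_span ⟨j, hj, w, hw, rfl⟩)
  have hfgq : FGP s (VV i V U) U := by
    obtain ⟨m0, hm⟩ := hfg
    refine ⟨m0, fun m h0 => (hm m h0).trans ?_⟩
    refine sup_le ((hV' _).trans le_sup_left) ((hXU U m).trans ?_)
    exact sup_le (le_sup_right.trans le_sup_left) le_sup_right
  have hfgk : FGP s V (KK i V U) := by
    obtain ⟨m0, hm⟩ := hK σ W (insert i s) V (KK i V U) U hV hKins hU hVK hKU hF hfg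
    refine ⟨m0, fun m h0 => (hm m h0).trans ?_⟩
    refine sup_le le_sup_left ((hXU (KK i V U) m).trans ?_)
    refine sup_le ?_ le_sup_right
    rintro _ ⟨w, hw, rfl⟩
    exact Submodule.mem_sup_left hw.2
  obtain ⟨p1, hp1⟩ := ih (VV i V U) U hVVs hUs hVVU hF hfgq
  obtain ⟨p2, hp2⟩ := ih V (KK i V U) hVs hKs hVK
    (fun m => haveI := hF m; Submodule.finiteDimensional_of_le (hKU m)) hfgk
  refine ⟨p1 - Polynomial.X * p2, ?_⟩
  rw [Finset.card_insert_of_notMem hi, pow_succ, mul_assoc]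
  have hkey : (1 - PowerSeries.X) * PowerSeries.mk (fun m =>
      (Module.finrank ℂ (U m) : ℤ) - Module.finrank ℂ (V m)) = PowerSeries.mk (fun m =>
      (Module.finrank ℂ (U m) : ℤ) - Module.finrank ℂ (VV i V U m)) - PowerSeries.X *
      PowerSeries.mk (fun m => (Module.finrank ℂ (KK i V U m) : ℤ) - Module.finrank ℂ (V m)) := by
    rw [sub_mul, one_mul]
    ext m
    rw [map_sub, map_sub]
    rcases m with _ | m
    · rw [PowerSeries.coeff_zero_X_mul, PowerSeries.coeff_zero_X_mul, PowerSeries.coeff_mk,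
        PowerSeries.coeff_mk, sub_zero, sub_zero]
      rfl
    · rw [PowerSeries.coeff_succ_X_mul, PowerSeries.coeff_succ_X_mul, PowerSeries.coeff_mk,
        PowerSeries.coeff_mk, PowerSeries.coeff_mk, PowerSeries.coeff_mk]
      have h1 := dimf i V U hVU hF m
      have h2 : (Module.finrank ℂ (VV i V U (m + 1)) : ℤ) + Module.finrank ℂ (KK i V U m) =
        Module.finrank ℂ (V (m + 1)) + Module.finrank ℂ (U m) := by exact_mod_cast h1
      linarith
  rw [hkey, mul_sub, hp1, ← mul_assoc, mul_comm _ PowerSeries.X, mul_assoc, hp2]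
  rw [Polynomial.coe_sub, Polynomial.coe_mul, Polynomial.coe_X]

end

theorem tKHS : S_KNoe → S_KHS := by
  intro hK σ _ W _ _ _ _ s
  classical
  induction s using Finset.induction_on with
  | empty =>
    intro V U _ _ hVU _ h
    exact base V U hVU h
  | insert i s hi ih =>
    intro V U hV hU hVU hF h
    exact step hK i s hi ih V U hV hU hVU hF h

end Pool.Agent.Lib.MP_776403_ag.SD
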