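import Pool.Agent.Lib.MP_776403_ag.SD.K.SpecK

set_option autoImplicit false

open MvPolynomial

noncomputable section

namespace Pool.Agent.Lib.MP_776403_ag.SD

section KHVaux

variable {N : ℕ} {α : Type}

/-- Vectors of forms of degree `k`. -/
private def khvU (N : ℕ) (α : Type) (k : ℕ) : Submodule ℂ (α → Sx N) where
  carrier := {v | ∀ a, (v a).IsHomogeneous k}
  zero_mem' := fun _ => isHomogeneous_zero _ _ _
  add_mem' := fun h h' a => (h a).add (h' a)
  smul_mem' := fun r v h a => by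
    rw [Pi.smul_apply, MvPolynomial.smul_eq_C_mul]
    simpa using (isHomogeneous_C _ r).mul (h a)

private theorem khvU_mul (N : ℕ) (α : Type) : ∀ k, ∀ v ∈ khvU N α k, ∀ i : Fin (N + 1),
    (fun a => (X i : Sx N) * v a) ∈ khvU N α (k + 1) := by
  intro k v h i a
  have h1 := (isHomogeneous_X ℂ i).mul (h a)
  rwa [add_comm 1 k] at h1

private theorem khvU_fd (N : ℕ) (α : Type) [Finite α] (k : ℕ) :
    FiniteDimensional ℂ (khvU N α k) := by
  have : FiniteDimensional ℂ (homogeneousSubmodule (Fin (N + 1)) ℂ k) :=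
    Module.Finite.iff_fg.2 (homogeneousSubmodule_fg (Fin (N + 1)) ℂ k)
  let φ : khvU N α k →ₗ[ℂ] (α → homogeneousSubmodule (Fin (N + 1)) ℂ k) :=
    { toFun := fun v a => ⟨v.1 a, v.2 a⟩
      map_add' := fun _ _ => rfl
      map_smul' := fun _ _ => rfl }
  refine FiniteDimensional.of_injective φ ?_
  intro v w h
  refine Subtype.ext (funext fun a => ?_)
  exact congrArg Subtype.val (congrFun h a)

private theorem khv_X (J : Ideal (Sx N)) (i : Fin (N + 1)) (v : α → Sx N) :
    (X i : MvPolynomial (Fin (N + 1)) ℂ) • redL α J v = redL α J (fun a => (X i : Sx N) * v a) := by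
  funext a
  exact (map_mul (Ideal.Quotient.mk J) (X i : Sx N) (v a)).symm

private theorem khv_stable (J : Ideal (Sx N)) (V : ℕ → Submodule ℂ (α → Sx N))
    (h : ∀ k, ∀ v ∈ V k, ∀ i : Fin (N + 1), (fun a => (X i : Sx N) * v a) ∈ V (k + 1)) :
    GFm (Finset.univ : Finset (Fin (N + 1))) (fun k => (V k).map (redL α J)) := by
  rintro m i _ w ⟨v, hv, rfl⟩
  rw [khv_X]
  exact Submodule.mem_map_of_mem (h m v hv i)

private theorem khvU_gen (J : Ideal (Sx N)) (m : ℕ) :
    (khvU N α (m + 1)).map (redL α J) ≤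
      XU (Finset.univ : Finset (Fin (N + 1))) (fun k => (khvU N α k).map (redL α J)) m := by
  rintro _ ⟨v, hv, rfl⟩
  have h1 : v = ∑ i : Fin (N + 1), fun a => (X i : Sx N) *
      (((m + 1 : ℕ) : ℂ)⁻¹ • pderiv i (v a)) := by
    funext a
    have h2 := (hv a).sum_X_mul_pderiv
    rw [Finset.sum_apply]
    simp only [mul_smul_comm]
    rw [← Finset.smul_sum, h2, ← Nat.cast_smul_eq_nsmul ℂ, smul_smul,
      inv_mul_cancel₀ (by exact_mod_cast Nat.succ_ne_zero m), one_smul]
  rw [h1, map_sum]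
  refine Submodule.sum_mem _ fun i _ => Submodule.subset_span ⟨i, Finset.mem_univ _,
    redL α J (fun a => ((m + 1 : ℕ) : ℂ)⁻¹ • pderiv i (v a)), ?_, ?_⟩
  · refine Submodule.mem_map_of_mem ?_
    have h4 : (fun a => pderiv i (v a)) ∈ khvU N α m := fun a => by
      have h3 := (hv a).pderiv (i := i)
      simpa using h3
    exact (khvU N α m).smul_mem (((m + 1 : ℕ) : ℂ)⁻¹) h4
  · exact (khv_X J i _).symm

end KHVaux

/-- KHV. -/
theorem tKHV : S_KNoe → S_KHS → S_KHV := by
  intro hN hS N α _ J V hG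
  have hle : ∀ m, V m ≤ khvU N α m := fun m v hv a => hG.hom m v hv a
  have hfU : ∀ m, FiniteDimensional ℂ ((khvU N α m).map (redL α J)) := fun m => by
    have := khvU_fd N α m
    infer_instance
  have hfV : ∀ m, FiniteDimensional ℂ ((V m).map (redL α J)) := fun m =>
    haveI := hfU m
    Submodule.finiteDimensional_of_le (Submodule.map_mono (hle m))
  have h0 : GFm (Finset.univ : Finset (Fin (N + 1)))
      (fun _ => (⊥ : Submodule ℂ (α → Sx N ⧸ J))) := by
    intro m i _ w hw
    rw [Submodule.mem_bot] at hw ⊢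
    rw [hw, smul_zero]
  have hg : FGP (Finset.univ : Finset (Fin (N + 1))) (fun _ => ⊥)
      (fun k => (V k).map (redL α J)) :=
    hN (Fin (N + 1)) (α → Sx N ⧸ J) Finset.univ (fun _ => ⊥) (fun k => (V k).map (redL α J))
      (fun k => (khvU N α k).map (redL α J)) h0 (khv_stable J V hG.mul)
      (khv_stable J _ (khvU_mul N α)) (fun m => bot_le) (fun m => Submodule.map_mono (hle m)) hfU
      ⟨0, fun m _ => le_trans (khvU_gen J m) le_sup_right⟩
  obtain ⟨p, hp⟩ := hS (Fin (N + 1)) (α → Sx N ⧸ J) Finset.univ (fun _ => ⊥)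
    (fun k => (V k).map (redL α J)) h0 (khv_stable J V hG.mul) (fun m => bot_le) hfV hg
  refine ⟨p, ?_⟩
  rw [← hp, Finset.card_univ, Fintype.card_fin]
  congr 1
  unfold ps
  refine congrArg PowerSeries.mk (funext fun m => ?_)
  rw [finrank_bot, Nat.cast_zero, sub_zero]
  rfl

end Pool.Agent.Lib.MP_776403_ag.SD
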