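import Pool.Agent.Lib.MP_776403_ag.SD.K.SpecK

/-!
# THEOREM SD, part K: the homotopy of the Koszul complex
-/

set_option autoImplicit false

open MvPolynomial

noncomputable section

namespace Pool.Agent.Lib.MP_776403_ag.SD

private theorem khot_sg_insert {N : ℕ} {k : Fin (N + 1)} (l : Fin (N + 1))
    {T : Finset (Fin (N + 1))} (hk : k ∉ T) :
    sg l (insert k T) = if k < l then -sg l T else sg l T := by
  unfold sg
  rw [Finset.filter_insert]
  split_ifs with h
  · rw [Finset.card_insert_of_notMem (fun hc => hk (Finset.mem_filter.1 hc).1), pow_succ]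
    ring
  · rfl

private theorem khot_sign {N : ℕ} {k l : Fin (N + 1)} {T : Finset (Fin (N + 1))}
    (hk : k ∉ T) (hl : l ∉ T) (hkl : k ≠ l) :
    sg l (insert k T) * sg k (insert l T) + sg k T * sg l T = 0 := by
  rw [khot_sg_insert l hk, khot_sg_insert k hl]
  rcases lt_or_gt_of_ne hkl with h | h
  · rw [if_pos h, if_neg (not_lt.2 h.le)]
    ring
  · rw [if_neg (not_lt.2 h.le), if_pos h]
    ring

private theorem khot_sq {N : ℕ} (k : Fin (N + 1)) (T : Finset (Fin (N + 1))) :
    sg k T * sg k T = 1 := by
  unfold sg
  rw [← mul_pow]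
  norm_num

theorem tKHot : S_KHot := by
  intro N M _ _ k ω
  classical
  funext T
  change ∑ l ∈ Tᶜ, sg l T • ((zz l : Rx N) •
      (if k ∈ insert l T then sg k ((insert l T).erase k) • ω ((insert l T).erase k) else 0)) +
    (if k ∈ T then sg k (T.erase k) • ∑ l ∈ (T.erase k)ᶜ,
      sg l (T.erase k) • ((zz l : Rx N) • ω (insert l (T.erase k))) else 0) =
    (zz k : Rx N) • ω T
  by_cases hk : k ∈ T
  · rw [if_pos hk]
    set S := T.erase k with hS
    have hkS : k ∉ S := Finset.notMem_erase k T
    have hT : T = insert k S := (Finset.insert_erase hk).symm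
    have hcomp : Sᶜ = insert k Tᶜ := by
      ext l
      simp only [Finset.mem_compl, Finset.mem_insert, hS, Finset.mem_erase]
      tauto
    have hkT : k ∉ Tᶜ := fun h => (Finset.mem_compl.1 h) hk
    rw [hcomp, Finset.sum_insert hkT, ← hT, smul_add, ← mul_smul, khot_sq, one_smul,
      add_left_comm, Finset.smul_sum, ← Finset.sum_add_distrib]
    rw [Finset.sum_eq_zero, add_zero]
    intro l hl
    have hlT : l ∉ T := Finset.mem_compl.1 hl
    have hlS : l ∉ S := fun h => hlT (Finset.mem_of_mem_erase h)
    have hkl : k ≠ l := fun h => hlT (h ▸ hk)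
    have he : (insert l T).erase k = insert l S := by
      rw [Finset.erase_insert_of_ne hkl.symm]
    rw [if_pos (Finset.mem_insert_of_mem hk), he, smul_comm (zz l : Rx N) (sg k (insert l S)),
      ← mul_smul, ← mul_smul, ← add_smul]
    have hz : sg l T * sg k (insert l S) + sg k S * sg l S = 0 := by
      rw [hT]
      exact khot_sign hkS hlS hkl
    rw [hz, zero_smul]
  · rw [if_neg hk, add_zero]
    rw [Finset.sum_eq_single k]
    · rw [if_pos (Finset.mem_insert_self k T), Finset.erase_insert hk,
        smul_comm (zz k : Rx N) (sg k T), ← mul_smul, khot_sq, one_smul]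
    · intro l _ hlk
      rw [if_neg, smul_zero, smul_zero]
      intro h
      rcases Finset.mem_insert.1 h with h | h
      · exact hlk h.symm
      · exact hk h
    · intro h
      exact absurd (Finset.mem_compl.2 hk) h

end Pool.Agent.Lib.MP_776403_ag.SD
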