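import Pool.Agent.Lib.MP_776403_ag.SD.K.SpecK
import Pool.Agent.Lib.MP_776403_ag.SD.DetHom

/-!
# THEOREM SD, part K, module KLF: local frames for the exterior powers of the conormal module
-/

set_option autoImplicit false

open MvPolynomial

noncomputable section

namespace Pool.Agent.Lib.MP_776403_ag.SD

section Det

variable {R : Type} [CommRing R] {j c : ℕ}

/-- Expansion of the rows of a product. -/
private theorem klf_L1 (T : Matrix (Fin j) (Fin c) R) (Φ : Matrix (Fin c) (Fin j) R) :
    (T * Φ).det = ∑ A : Fin j → Fin c, (∏ l, T l (A l)) *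
      Matrix.det (Matrix.of fun l k => Φ (A l) k) := by
  have h1 : (T * Φ).det = Matrix.detRowAlternating (fun l => ∑ i, T l i • Φ i) := by
    rw [Matrix.det]
    congr 1
    funext l k
    rw [Matrix.mul_apply, Finset.sum_apply]
    rfl
  rw [h1]
  change (Matrix.detRowAlternating (R := R) (n := Fin j)).toMultilinearMap
    (fun l => ∑ i, T l i • Φ i) = _
  rw [MultilinearMap.map_sum]
  refine Finset.sum_congr rfl fun A _ => ?_
  rw [MultilinearMap.map_smul_univ]
  rfl

/-- Expansion of the columns of a product. -/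
private theorem klf_L2 (G : Matrix (Fin j) (Fin c) R) (P : Matrix (Fin c) (Fin c) R)
    (A : Fin j → Fin c) :
    Matrix.det (Matrix.of fun l k => (G * P) l (A k)) = ∑ β : Fin j → Fin c,
      (∏ k, P (β k) (A k)) * Matrix.det (Matrix.of fun l k => G l (β k)) := by
  have h1 := klf_L1 (Matrix.of fun k b => P b (A k)) G.transpose
  have h2 : (Matrix.of fun l k => (G * P) l (A k)).transpose =
      (Matrix.of fun k b => P b (A k)) * G.transpose := by
    funext k l
    rw [Matrix.transpose_apply, Matrix.of_apply, Matrix.mul_apply, Matrix.mul_apply]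
    refine Finset.sum_congr rfl fun b _ => ?_
    rw [Matrix.of_apply, Matrix.transpose_apply, mul_comm]
  rw [← Matrix.det_transpose, h2, h1]
  refine Finset.sum_congr rfl fun β _ => ?_
  rw [← Matrix.det_transpose (Matrix.of fun l k => G l (β k))]
  rfl

/-- Antisymmetrization. -/
private theorem klf_L3 (T : Matrix (Fin j) (Fin c) R) (Φ : Matrix (Fin c) (Fin j) R) :
    (j.factorial : R) * (T * Φ).det = ∑ A : Fin j → Fin c,
      Matrix.det (Matrix.of fun l k => T l (A k)) *
      Matrix.det (Matrix.of fun l k => Φ (A l) k) := by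
  have h1 : ∀ A : Fin j → Fin c, Matrix.det (Matrix.of fun l k => T l (A k)) =
      ∑ σ : Equiv.Perm (Fin j), (Equiv.Perm.sign σ : ℤ) • ∏ l, T l (A (σ l)) := by
    intro A
    rw [← Matrix.det_transpose, Matrix.det_apply]
    rfl
  simp_rw [h1, Finset.sum_mul]
  rw [Finset.sum_comm]
  have h2 : ∀ σ : Equiv.Perm (Fin j), ∑ A : Fin j → Fin c,
      ((Equiv.Perm.sign σ : ℤ) • ∏ l, T l (A (σ l))) *
        Matrix.det (Matrix.of fun l k => Φ (A l) k) = (T * Φ).det := by
    intro σ
    rw [klf_L1, ← Equiv.sum_comp (Equiv.arrowCongr σ (Equiv.refl (Fin c)))]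
    refine Finset.sum_congr rfl fun A _ => ?_
    have h3 : Matrix.det (Matrix.of fun l k => Φ ((Equiv.arrowCongr σ (Equiv.refl (Fin c))) A l) k) =
        (Equiv.Perm.sign σ.symm : ℤ) • Matrix.det (Matrix.of fun l k => Φ (A l) k) := by
      have h4 := Matrix.det_permute σ.symm (Matrix.of fun l k => Φ (A l) k)
      rw [zsmul_eq_mul]
      rw [← h4]
      rfl
    rw [h3]
    have h5 : ∀ l, (Equiv.arrowCongr σ (Equiv.refl (Fin c))) A (σ l) = A l := by
      intro l
      simp [Equiv.arrowCongr]
    simp_rw [h5]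
    rw [smul_mul_smul_comm]
    have h6 : ((Equiv.Perm.sign σ : ℤ) * (Equiv.Perm.sign σ.symm : ℤ)) = 1 := by
      rw [Equiv.Perm.sign_symm, ← Units.val_mul, Int.units_mul_self, Units.val_one]
    rw [h6, one_smul]
  rw [Finset.sum_congr rfl fun σ _ => h2 σ, Finset.sum_const, Finset.card_univ,
    Fintype.card_perm, Fintype.card_fin, nsmul_eq_mul]

end Det

private theorem klf_alg {R : Type} [CommRing R] {c : ℕ} (h d x : R) (τ a y : Fin c → R) :
    h * (d * x - ∑ i, τ i * y i) = d * (h * x - ∑ i, a i * y i) -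
      ∑ i, (h * τ i - a i * d) * y i := by
  have e : ∑ i, (h * τ i - a i * d) * y i = h * ∑ i, τ i * y i - d * ∑ i, a i * y i := by
    rw [Finset.mul_sum, Finset.mul_sum, ← Finset.sum_sub_distrib]
    exact Finset.sum_congr rfl fun i _ => by ring
  rw [e]
  ring

variable {N : ℕ}

/-- Cramer's rule modulo `I`. -/
private theorem klf_cramer {c : ℕ} (I : Ideal (Sx N)) (hI : I.IsPrime) (F : Fin c → Sx N)
    (hF : ∀ i, F i ∈ I) (B : Fin c → Fin (N + 1)) (h : Sx N) (hh : h ∉ I) (G : Sx N) (hG : G ∈ I)
    (hs : h * G ∈ Ideal.span (Set.range F)) (k : Fin (N + 1)) :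
    (Matrix.of fun i b => pderiv (B b) (F i)).det * pderiv k G -
      ∑ i, (∑ b, pderiv (B b) G * (Matrix.of fun i b => pderiv (B b) (F i)).adjugate b i) *
        pderiv k (F i) ∈ I := by
  set M : Matrix (Fin c) (Fin c) (Sx N) := Matrix.of fun i b => pderiv (B b) (F i) with hM
  obtain ⟨a, ha⟩ := (Ideal.mem_span_range_iff_exists_fun).1 hs
  have h1 : ∀ l : Fin (N + 1), h * pderiv l G - ∑ i, a i * pderiv l (F i) ∈ I := by
    intro l
    have h2 := congrArg (pderiv l) ha
    rw [map_sum, Derivation.leibniz, smul_eq_mul, smul_eq_mul] at h2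
    have h3 : h * pderiv l G - ∑ i, a i * pderiv l (F i) =
        (∑ i, F i * pderiv l (a i)) - G * pderiv l h := by
      rw [eq_sub_iff_add_eq, sub_add_eq_add_sub, ← h2, ← Finset.sum_sub_distrib]
      refine Finset.sum_congr rfl fun i _ => ?_
      rw [Derivation.leibniz, smul_eq_mul, smul_eq_mul]
      ring
    rw [h3]
    exact I.sub_mem (I.sum_mem fun i _ => I.mul_mem_right _ (hF i)) (I.mul_mem_right _ hG)
  have h4 : ∀ i, h * (∑ b, pderiv (B b) G * M.adjugate b i) - a i * M.det ∈ I := by
    intro i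
    have h5 : a i * M.det = ∑ b, (∑ i', a i' * M i' b) * M.adjugate b i := by
      simp_rw [Finset.sum_mul]
      rw [Finset.sum_comm]
      have h6 : ∀ i', ∑ b, a i' * M i' b * M.adjugate b i = a i' * (M * M.adjugate) i' i := by
        intro i'
        rw [Matrix.mul_apply, Finset.mul_sum]
        exact Finset.sum_congr rfl fun b _ => by ring
      simp_rw [h6, Matrix.mul_adjugate, Matrix.smul_apply, Matrix.one_apply, smul_eq_mul]
      rw [Finset.sum_eq_single i]
      · rw [if_pos rfl, mul_one]
      · intro i' _ hne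
        rw [if_neg hne, mul_zero, mul_zero]
      · intro hi
        exact absurd (Finset.mem_univ i) hi
    rw [h5, Finset.mul_sum, ← Finset.sum_sub_distrib]
    refine I.sum_mem fun b _ => ?_
    have h7 : h * (pderiv (B b) G * M.adjugate b i) - (∑ i', a i' * M i' b) * M.adjugate b i =
        (h * pderiv (B b) G - ∑ i', a i' * pderiv (B b) (F i')) * M.adjugate b i := by
      rw [hM]
      simp only [Matrix.of_apply]
      ring
    rw [h7]
    exact I.mul_mem_right _ (h1 (B b))
  have h8 : h * (M.det * pderiv k G - ∑ i, (∑ b, pderiv (B b) G * M.adjugate b i) *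
      pderiv k (F i)) ∈ I := by
    have h9 := klf_alg h M.det (pderiv k G) (fun i => ∑ b, pderiv (B b) G * M.adjugate b i) a
      (fun i => pderiv k (F i))
    rw [h9]
    exact I.sub_mem (I.mul_mem_left _ (h1 k)) (I.sum_mem fun i _ => I.mul_mem_right _ (h4 i))
  exact (hI.mem_or_mem h8).resolve_left hh

/-- Forms of degree `0` have no derivatives. -/
private theorem klf_zero {F : Sx N} (h : F.IsHomogeneous 0) (l : Fin (N + 1)) :
    pderiv l F = 0 := by
  have h1 : F = C (coeff 0 F) := totalDegree_eq_zero_iff_eq_C.1 (Nat.le_zero.1 h.totalDegree_le)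
  rw [h1, pderiv_C]

/-- The multilinear computation: `∑_A ρ_A(v) e_A = a det (τ Φ)`. -/
private theorem klf_sum {c j : ℕ} (P : Matrix (Fin c) (Fin c) (Sx N)) (B : Fin c → Fin (N + 1))
    (F : Fin c → Sx N) (G : Fin j → Sx N) (a : Sx N) (α : Fin j → Fin (N + 1)) :
    ∑ A : Fin j → Fin c, (∑ α' : Fin j → Fin (N + 1), (C ((j.factorial : ℂ)⁻¹) *
      ∑ β : Fin j → Fin c, if (fun k => B (β k)) = α' then ∏ k, P (β k) (A k) else 0) *
      (a * Matrix.det (Matrix.of fun i k => pderiv (α' k) (G i)))) *
      Matrix.det (Matrix.of fun i k => pderiv (α k) (F (A i))) =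
    a * ((Matrix.of fun l b => pderiv (B b) (G l)) * P *
      (Matrix.of fun i k => pderiv (α k) (F i))).det := by
  set Gd : Matrix (Fin j) (Fin c) (Sx N) := Matrix.of fun l b => pderiv (B b) (G l) with hGd
  set Φ : Matrix (Fin c) (Fin j) (Sx N) := Matrix.of fun i k => pderiv (α k) (F i) with hΦ
  have h1 : ∀ A : Fin j → Fin c, ∑ α' : Fin j → Fin (N + 1), (C ((j.factorial : ℂ)⁻¹) *
      ∑ β : Fin j → Fin c, if (fun k => B (β k)) = α' then ∏ k, P (β k) (A k) else 0) *
      (a * Matrix.det (Matrix.of fun i k => pderiv (α' k) (G i))) =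
      C ((j.factorial : ℂ)⁻¹) * a * Matrix.det (Matrix.of fun l k => (Gd * P) l (A k)) := by
    intro A
    rw [klf_L2]
    have h2 : ∀ α' : Fin j → Fin (N + 1), (C ((j.factorial : ℂ)⁻¹) *
        ∑ β : Fin j → Fin c, if (fun k => B (β k)) = α' then ∏ k, P (β k) (A k) else 0) *
        (a * Matrix.det (Matrix.of fun i k => pderiv (α' k) (G i))) =
        ∑ β : Fin j → Fin c, if (fun k => B (β k)) = α' then C ((j.factorial : ℂ)⁻¹) * a *
          ((∏ k, P (β k) (A k)) * Matrix.det (Matrix.of fun i k => pderiv (α' k) (G i))) else 0 := by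
      intro α'
      rw [Finset.mul_sum, Finset.sum_mul]
      refine Finset.sum_congr rfl fun β _ => ?_
      by_cases h3 : (fun k => B (β k)) = α'
      · rw [if_pos h3, if_pos h3]
        ring
      · rw [if_neg h3, if_neg h3, mul_zero, zero_mul]
    rw [Finset.sum_congr rfl fun α' _ => h2 α', Finset.sum_comm, Finset.mul_sum]
    refine Finset.sum_congr rfl fun β _ => ?_
    rw [Finset.sum_ite_eq, if_pos (Finset.mem_univ _)]
    rfl
  rw [Finset.sum_congr rfl fun A _ => by rw [h1 A]]
  have h4 : (C ((j.factorial : ℂ)⁻¹) : Sx N) * (j.factorial : Sx N) = 1 := by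
    rw [← map_natCast (C : ℂ →+* Sx N), ← map_mul, inv_mul_cancel₀, map_one]
    exact_mod_cast Nat.factorial_ne_zero j
  have h5 : ∑ A : Fin j → Fin c, C ((j.factorial : ℂ)⁻¹) * a *
      Matrix.det (Matrix.of fun l k => (Gd * P) l (A k)) *
      Matrix.det (Matrix.of fun i k => pderiv (α k) (F (A i))) =
      C ((j.factorial : ℂ)⁻¹) * a * ((j.factorial : Sx N) * (Gd * P * Φ).det) := by
    rw [klf_L3, Finset.mul_sum]
    refine Finset.sum_congr rfl fun A _ => ?_
    rw [mul_assoc]
    rfl
  rw [h5]
  calc C ((j.factorial : ℂ)⁻¹) * a * ((j.factorial : Sx N) * (Gd * P * Φ).det)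
      = (C ((j.factorial : ℂ)⁻¹) * (j.factorial : Sx N)) * (a * (Gd * P * Φ).det) := by ring
    _ = a * (Gd * P * Φ).det := by rw [h4, one_mul]

private theorem klf_lin {R ι κ : Type} [CommRing R] [Fintype ι] [Fintype κ] (ρ : ι → κ → R)
    (w : κ → R) (e : ι → R) (x r : R) :
    r * x - ∑ A, (∑ α', ρ A α' * (r * w α')) * e A = r * (x - ∑ A, (∑ α', ρ A α' * w α') * e A) := by
  rw [mul_sub, Finset.mul_sum]
  congr 1
  refine Finset.sum_congr rfl fun A _ => ?_
  rw [← mul_assoc r, Finset.mul_sum]
  congr 1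
  exact Finset.sum_congr rfl fun α' _ => by ring

/-- KLF. -/
theorem tKLF : S_Minor → S_KLF := by
  intro hMin N c I J hI hIh hS hIJ j p hp hp0
  classical
  have hpI : p ∈ zer I := fun F hF => hp F (hIJ hF)
  obtain ⟨F, f, h, e, hF, hh, hph, hlin, hspan⟩ := hS p hpI hp0
  obtain ⟨B, hB⟩ := hMin (Fin c) (N + 1) (fun i => grad (F i) p) hlin
  have hf : ∀ i, 1 ≤ f i := by
    intro i
    by_contra h0
    have h1 : f i = 0 := by lia
    refine hlin.ne_zero i ?_
    funext l
    have h3 : (F i).IsHomogeneous 0 := h1 ▸ (hF i).2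
    simp [grad, klf_zero h3]
  have hhI : h ∉ I := fun hm => hph (hpI h hm)
  set M : Matrix (Fin c) (Fin c) (Sx N) := Matrix.of fun i b => pderiv (B b) (F i) with hM
  let a : Fin c → ℕ := fun i => f i - 1
  let g : ℕ := ∑ i, a i
  have hMh : ∀ i b, (M i b).IsHomogeneous (a i) := fun i b => (hF i).2.pderiv
  have hDet : M.det.IsHomogeneous g := tDetHom N (Fin c) M a hMh
  have hag : ∀ i, a i ≤ g := fun i =>
    Finset.single_le_sum (fun _ _ => Nat.zero_le _) (Finset.mem_univ i)
  have hP : ∀ b i, (M.adjugate b i).IsHomogeneous (g - a i) := by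
    intro b i
    rw [Matrix.adjugate_apply]
    have h1 := tDetHom N (Fin c) (M.updateRow i (Pi.single b 1)) (Function.update a i 0) (by
      intro i' b'
      by_cases h2 : i' = i
      · subst h2
        rw [Matrix.updateRow_self, Function.update_self]
        by_cases h3 : b' = b
        · subst h3
          rw [Pi.single_eq_same]
          exact isHomogeneous_one _ _
        · rw [Pi.single_eq_of_ne h3]
          exact isHomogeneous_zero _ _ _
      · rw [Matrix.updateRow_ne h2, Function.update_of_ne h2]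
        exact hMh i' b')
    have h4 : ∑ l, Function.update a i 0 l = g - a i := by
      rw [Finset.sum_update_of_mem (Finset.mem_univ i), zero_add]
      have h5 := Finset.sum_sdiff (f := a) (Finset.subset_univ {i})
      rw [Finset.sum_singleton] at h5
      change _ = (∑ l, a l) - a i
      lia
    rwa [h4] at h1
  let ε : Fin (Fintype.card (Fin j → Fin c)) ≃ (Fin j → Fin c) := (Fintype.equivFin _).symm
  refine ⟨Fintype.card (Fin j → Fin c),
    fun s α => Matrix.det (Matrix.of fun i k => pderiv (α k) (F (ε s i))),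
    fun s α => C ((j.factorial : ℂ)⁻¹) * ∑ β : Fin j → Fin c,
      if (fun k => B (β k)) = α then ∏ k, M.adjugate (β k) (ε s k) else 0,
    fun s => ∑ l, a (ε s l), M.det ^ j, g * j, hDet.pow j, ?_, ?_, ?_⟩
  · rw [map_pow]
    refine pow_ne_zero _ ?_
    rw [RingHom.map_det]
    exact hB
  · intro s
    have hκ : ∑ l, a (ε s l) ≤ g * j := by
      calc ∑ l, a (ε s l) ≤ ∑ _l : Fin j, g := Finset.sum_le_sum fun l _ => hag _
        _ = g * j := by rw [Finset.sum_const, Finset.card_univ, Fintype.card_fin, smul_eq_mul, mul_comm]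
    refine ⟨Submodule.subset_span ⟨1, 0, fun i => F (ε s i), fun i => f (ε s i),
      isHomogeneous_one _ _, fun i => hF _, ?_, ?_⟩, hκ, fun α => ?_⟩
    · have h1 : ∀ i, f (ε s i) = a (ε s i) + 1 := fun i => by
        have := hf (ε s i)
        change _ = f (ε s i) - 1 + 1
        lia
      simp_rw [h1, Finset.sum_add_distrib]
      simp
    · funext α
      rw [one_mul]
    · have h1 : (∑ β : Fin j → Fin c, if (fun k => B (β k)) = α then
          ∏ k, M.adjugate (β k) (ε s k) else 0).IsHomogeneous (g * j - ∑ l, a (ε s l)) := by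
        refine IsHomogeneous.sum _ _ _ fun β _ => ?_
        split_ifs
        · have h2 := IsHomogeneous.prod Finset.univ (fun k => M.adjugate (β k) (ε s k))
            (fun k => g - a (ε s k)) (fun k _ => hP _ _)
          have h3 : ∑ k, (g - a (ε s k)) = g * j - ∑ l, a (ε s l) := by
            have h4 : ∑ k, (g - a (ε s k)) + ∑ l, a (ε s l) = g * j := by
              rw [← Finset.sum_add_distrib, Finset.sum_congr rfl fun k _ =>
                Nat.sub_add_cancel (hag (ε s k)), Finset.sum_const, Finset.card_univ,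
                Fintype.card_fin, smul_eq_mul, mul_comm]
            lia
          rwa [h3] at h2
        · exact isHomogeneous_zero _ _ _
      have h2 := (isHomogeneous_C (Fin (N + 1)) ((j.factorial : ℂ)⁻¹)).mul h1
      rwa [zero_add] at h2
  · intro m v hv α
    have key : ∀ v : (Fin j → Fin (N + 1)) → Sx N, (∑ s, (∑ α', (C ((j.factorial : ℂ)⁻¹) *
        ∑ β : Fin j → Fin c, if (fun k => B (β k)) = α' then
          ∏ k, M.adjugate (β k) (ε s k) else 0) * v α') *
          Matrix.det (Matrix.of fun i k => pderiv (α k) (F (ε s i)))) =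
        ∑ A : Fin j → Fin c, (∑ α', (C ((j.factorial : ℂ)⁻¹) *
        ∑ β : Fin j → Fin c, if (fun k => B (β k)) = α' then ∏ k, M.adjugate (β k) (A k) else 0) *
        v α') * Matrix.det (Matrix.of fun i k => pderiv (α k) (F (A i))) := fun v =>
      Equiv.sum_comp ε (fun A => (∑ α', (C ((j.factorial : ℂ)⁻¹) *
        ∑ β : Fin j → Fin c, if (fun k => B (β k)) = α' then ∏ k, M.adjugate (β k) (A k) else 0) *
        v α') * Matrix.det (Matrix.of fun i k => pderiv (α k) (F (A i))))
    rw [key]
    induction hv using Submodule.span_induction with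
    | mem v hv =>
      obtain ⟨x, e', G, γ, _, hG, _, rfl⟩ := hv
      rw [klf_sum]
      have h1 : M.det ^ j * Matrix.det (Matrix.of fun i k => pderiv (α k) (G i)) -
          ((Matrix.of fun l b => pderiv (B b) (G l)) * M.adjugate *
            (Matrix.of fun i k => pderiv (α k) (F i))).det ∈ I := by
        have h2 : M.det ^ j * Matrix.det (Matrix.of fun i k => pderiv (α k) (G i)) =
            Matrix.det (M.det • (Matrix.of fun (i : Fin j) k => pderiv (α k) (G i))) := by
          rw [Matrix.det_smul, Fintype.card_fin]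
        rw [h2, ← Ideal.Quotient.mk_eq_mk_iff_sub_mem, RingHom.map_det, RingHom.map_det]
        congr 1
        funext l k
        rw [RingHom.mapMatrix_apply, RingHom.mapMatrix_apply, Matrix.map_apply, Matrix.map_apply,
          Ideal.Quotient.mk_eq_mk_iff_sub_mem]
        have h3 := klf_cramer I hI F (fun i => (hF i).1) B h hhI (G l) (hG l).1
          (hspan _ (hG l).1) (α k)
        rw [Matrix.mul_apply]
        exact h3
      have h4 : M.det ^ j * (x * Matrix.det (Matrix.of fun i k => pderiv (α k) (G i))) -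
          x * ((Matrix.of fun l b => pderiv (B b) (G l)) * M.adjugate *
            (Matrix.of fun i k => pderiv (α k) (F i))).det =
          x * (M.det ^ j * Matrix.det (Matrix.of fun i k => pderiv (α k) (G i)) -
          ((Matrix.of fun l b => pderiv (B b) (G l)) * M.adjugate *
            (Matrix.of fun i k => pderiv (α k) (F i))).det) := by ring
      rw [h4]
      exact I.mul_mem_left _ h1
    | zero => simp
    | add v w _ _ hv hw =>
      have h1 := I.add_mem hv hw
      refine (congrArg (· ∈ I) ?_).mp h1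
      simp_rw [Pi.add_apply, mul_add, Finset.sum_add_distrib, add_mul, Finset.sum_add_distrib]
      ring
    | smul r v _ hv =>
      have h1 := I.mul_mem_left (C r) hv
      have h2 := klf_lin (fun (A : Fin j → Fin c) (α' : Fin j → Fin (N + 1)) =>
        C ((j.factorial : ℂ)⁻¹) * ∑ β : Fin j → Fin c, if (fun k => B (β k)) = α' then
          ∏ k, M.adjugate (β k) (A k) else 0) v
        (fun A => Matrix.det (Matrix.of fun i k => pderiv (α k) (F (A i)))) (M.det ^ j * v α) (C r)
      simp_rw [Pi.smul_apply, MvPolynomial.smul_eq_C_mul]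
      rw [mul_left_comm, h2]
      exact h1

end Pool.Agent.Lib.MP_776403_ag.SD
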