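import Pool.Agent.Lib.MP_776403_ag.SD.K.SpecK

/-!
# THEOREM SD, `S_KLoc`: local inclusion implies inclusion in large degrees
-/

set_option autoImplicit false

open MvPolynomial

noncomputable section

namespace Pool.Agent.Lib.MP_776403_ag.SD

namespace KLocAux

variable {N : ℕ} {M : Type} [AddCommGroup M] [Module (Rx N) M] [Module ℂ M]
  [IsScalarTower ℂ (Rx N) M]

/-- The condition on the polynomial `F` with the bound `m2`. -/
def PC (U V : ℕ → Submodule ℂ M) (m2 : ℕ) (F : Sx N) : Prop :=
  ∀ m, m2 ≤ m → ∀ e : ℕ, ∀ w ∈ U m, (iy (homogeneousComponent e F) : Rx N) • w ∈ V (m + e)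

omit [IsScalarTower ℂ (Rx N) M] in
theorem PC_mono {U V : ℕ → Submodule ℂ M} {m2 m3 : ℕ} {F : Sx N} (h : PC U V m2 F)
    (hm : m2 ≤ m3) : PC U V m3 F := fun m h1 => h m (hm.trans h1)

theorem iy_X (k : Fin (N + 1)) : (iy (X k) : Rx N) = X (Sum.inr k) := rename_X _ _

theorem iy_C_smul (c : ℂ) (w : M) : (iy (C c) : Rx N) • w = c • w := by
  have h1 : (iy (C c : Sx N) : Rx N) = algebraMap ℂ (Rx N) c := (iy (N := N)).commutes c
  rw [h1, algebraMap_smul]

/-- The ideal of the polynomials all of whose components map `U m` into `V`, for large `m`. -/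
def bI (U V : ℕ → Submodule ℂ M) (hV : GF N V) : Ideal (Sx N) where
  carrier := {F | ∃ m2 : ℕ, PC U V m2 F}
  zero_mem' := by
    refine ⟨0, fun m _ e w _ => ?_⟩
    rw [map_zero, map_zero, zero_smul]
    exact Submodule.zero_mem _
  add_mem' := by
    rintro F G ⟨m1, hF⟩ ⟨m2, hG⟩
    refine ⟨max m1 m2, fun m hm e w hw => ?_⟩
    rw [map_add, map_add, add_smul]
    exact Submodule.add_mem _ (hF m (le_trans (le_max_left _ _) hm) e w hw)
      (hG m (le_trans (le_max_right _ _) hm) e w hw)
  smul_mem' := by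
    rintro a F ⟨m2, hF⟩
    refine ⟨m2, ?_⟩
    rw [smul_eq_mul]
    induction a using MvPolynomial.induction_on with
    | C c =>
      intro m hm e w hw
      rw [homogeneousComponent_C_mul, map_mul, mul_smul, iy_C_smul]
      exact Submodule.smul_mem _ c (hF m hm e w hw)
    | add p q hp hq =>
      intro m hm e w hw
      rw [add_mul, map_add, map_add, add_smul]
      exact Submodule.add_mem _ (hp m hm e w hw) (hq m hm e w hw)
    | mul_X p i hp =>
      intro m hm e w hw
      have h1 : p * X i * F = ∑ j ∈ Finset.range ((p * F).totalDegree + 1),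
          X i * homogeneousComponent j (p * F) := by
        rw [← Finset.mul_sum, sum_homogeneousComponent]
        ring
      rw [h1, map_sum, map_sum, Finset.sum_smul]
      refine Submodule.sum_mem _ (fun j _ => ?_)
      have h2 : (X i * homogeneousComponent j (p * F)) ∈
          homogeneousSubmodule (Fin (N + 1)) ℂ (1 + j) :=
        (isHomogeneous_X ℂ i).mul (homogeneousComponent_isHomogeneous j _)
      rw [homogeneousComponent_of_mem h2]
      split_ifs with h3
      · rw [map_mul, mul_smul, iy_X]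
        have h4 := hV (m + j) (Sum.inr i) (Finset.mem_univ _) _ (hp m hm j w hw)
        have h5 : m + e = m + j + 1 := by omega
        rw [h5]
        exact h4
      · rw [map_zero, zero_smul]
        exact Submodule.zero_mem _

theorem mem_bI {U V : ℕ → Submodule ℂ M} {hV : GF N V} {F : Sx N} :
    F ∈ bI U V hV ↔ ∃ m2 : ℕ, PC U V m2 F := Iff.rfl

theorem mem_of_form {U V : ℕ → Submodule ℂ M} {hV : GF N V} {F : Sx N} {n m2 : ℕ}
    (hF : F.IsHomogeneous n) (h : ∀ m, m2 ≤ m → ∀ w ∈ U m, (iy F : Rx N) • w ∈ V (m + n)) :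
    F ∈ bI U V hV := by
  refine ⟨m2, fun m hm e w hw => ?_⟩
  have h2 : F ∈ homogeneousSubmodule (Fin (N + 1)) ℂ n := hF
  rw [homogeneousComponent_of_mem h2]
  split_ifs with h3
  · subst h3
    exact h m hm w hw
  · rw [map_zero, zero_smul]
    exact Submodule.zero_mem _

theorem bI_hom {U V : ℕ → Submodule ℂ M} {hV : GF N V} : IsHom (bI U V hV) := by
  rintro F ⟨m2, hF⟩ k
  refine ⟨m2, fun m hm e w hw => ?_⟩
  have h2 : homogeneousComponent k F ∈ homogeneousSubmodule (Fin (N + 1)) ℂ k :=
    homogeneousComponent_isHomogeneous k F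
  rw [homogeneousComponent_of_mem h2]
  split_ifs with h3
  · subst h3
    exact hF m hm e w hw
  · rw [map_zero, zero_smul]
    exact Submodule.zero_mem _

theorem deg_of_mem {a : Sx N} {k : ℕ} (ha : a.IsHomogeneous k) {d : Fin (N + 1) →₀ ℕ}
    (hd : d ∈ a.support) : d.degree = k := by
  have h := ha (mem_support_iff.1 hd)
  have h2 : (Finsupp.degree d : ℕ) = Finsupp.weight 1 d := by
    rw [Finsupp.degree_eq_weight_one]
    rfl
  rw [h2]
  exact h

/-- A monomial of positive degree is divisible by a variable. -/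
theorem split_mono {d : Fin (N + 1) →₀ ℕ} {k : ℕ} (hd : d.degree = k + 1) (c : ℂ) :
    ∃ (i : Fin (N + 1)) (d' : Fin (N + 1) →₀ ℕ), d'.degree = k ∧
      (monomial d c : Sx N) = X i * monomial d' c := by
  have hne : d ≠ 0 := by
    rintro rfl
    simp at hd
  obtain ⟨i, hi⟩ : ∃ i, d i ≠ 0 := by
    by_contra hcon
    push Not at hcon
    exact hne (Finsupp.ext hcon)
  obtain ⟨d', rfl⟩ : ∃ d', d = Finsupp.single i 1 + d' := by
    refine ⟨d - Finsupp.single i 1, ?_⟩
    rw [add_tsub_cancel_of_le]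
    rw [Finsupp.single_le_iff]
    omega
  refine ⟨i, d', ?_, ?_⟩
  · rw [map_add, Finsupp.degree_single] at hd
    omega
  · rw [X, monomial_mul, one_mul]

/-- Forms in `y` act on the family. -/
theorem mono_smul {V : ℕ → Submodule ℂ M} (hV : GF N V) (k : ℕ) :
    ∀ (d : Fin (N + 1) →₀ ℕ), d.degree = k → ∀ (c : ℂ) (m : ℕ), ∀ w ∈ V m,
      (iy (monomial d c) : Rx N) • w ∈ V (m + k) := by
  induction k with
  | zero =>
    intro d hd c m w hw
    have h0 : d = 0 := by
      rwa [Finsupp.degree_eq_zero_iff] at hd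
    subst h0
    have h1 : (monomial 0 c : Sx N) = C c := rfl
    rw [h1, iy_C_smul, add_zero]
    exact Submodule.smul_mem _ c hw
  | succ k ih =>
    intro d hd c m w hw
    obtain ⟨i, d', hd', h1⟩ := split_mono hd c
    rw [h1, map_mul, mul_smul, iy_X]
    exact hV (m + k) (Sum.inr i) (Finset.mem_univ _) _ (ih d' hd' c m w hw)

theorem form_smul {V : ℕ → Submodule ℂ M} (hV : GF N V) {k : ℕ} {a : Sx N}
    (ha : a.IsHomogeneous k) {m : ℕ} {w : M} (hw : w ∈ V m) :
    (iy a : Rx N) • w ∈ V (m + k) := by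
  rw [a.as_sum, map_sum, Finset.sum_smul]
  exact Submodule.sum_mem _ fun d hd => mono_smul hV k d (deg_of_mem ha hd) _ m w hw

end KLocAux

open KLocAux in
theorem tKLoc : S_Irr → S_KLoc := by
  intro hIrr N J hJ M _ _ _ _ V U hV hU hFG hz hJU hloc
  obtain ⟨mz, hz⟩ := hz
  obtain ⟨mJ, hJU⟩ := hJU
  obtain ⟨mf, hf⟩ := hFG
  have hJb : ∀ F ∈ J, F ∈ bI U V hV := by
    intro F hF
    refine ⟨mJ, fun m hm e w hw => ?_⟩
    exact hJU _ (hJ F hF e) e (homogeneousComponent_isHomogeneous e F) m hm w hw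
  have hzer : ∀ z ∈ zer (bI U V hV), z = 0 := by
    intro z hzz
    by_contra h0
    obtain ⟨g, e, m1, hg, hgz, h1⟩ := hloc z (fun F hF => hzz F (hJb F hF)) h0
    exact hgz (hzz g (mem_of_form hg h1))
  obtain ⟨r, hr⟩ := hIrr N (bI U V hV) bI_hom hzer
  -- a common bound for the monomials of degree `r`
  have hfin : {d : Fin (N + 1) →₀ ℕ | d.degree ≤ r}.Finite := Finsupp.finite_of_degree_le r
  have hb : ∀ d : Fin (N + 1) →₀ ℕ, ∃ m2 : ℕ, d.degree = r → PC U V m2 (monomial d (1 : ℂ)) := by
    intro d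
    by_cases hd : d.degree = r
    · obtain ⟨m2, h2⟩ := hr r le_rfl (monomial d (1 : ℂ)) (isHomogeneous_monomial _ hd)
      exact ⟨m2, fun _ => h2⟩
    · exact ⟨0, fun h => absurd h hd⟩
  choose f hf2 using hb
  set m0 : ℕ := max (max mz mf) (hfin.toFinset.sup f) with hm0
  have hmz : mz ≤ m0 := le_trans (le_max_left _ _) (le_max_left _ _)
  have hmf : mf ≤ m0 := le_trans (le_max_right _ _) (le_max_left _ _)
  have hmd : ∀ d : Fin (N + 1) →₀ ℕ, d.degree = r → f d ≤ m0 := by
    intro d hd
    refine le_trans (Finset.le_sup (f := f) ?_) (le_max_right _ _)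
    rw [Set.Finite.mem_toFinset]
    exact hd.le
  have hmono : ∀ (n : ℕ) (d : Fin (N + 1) →₀ ℕ), d.degree = r + n → ∀ c : ℂ, ∀ w ∈ U m0,
      (iy (monomial d c) : Rx N) • w ∈ V (m0 + (r + n)) := by
    intro n
    induction n with
    | zero =>
      intro d hd c w hw
      have h1 : (monomial d c : Sx N) = C c * monomial d 1 := by
        rw [C_mul_monomial, mul_one]
      have hd' : d.degree = r := hd
      rw [h1, map_mul, mul_smul, iy_C_smul]
      refine Submodule.smul_mem _ c ?_
      have h2 := hf2 d hd' m0 (hmd d hd') r w hw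
      have h3 : (monomial d (1 : ℂ) : Sx N) ∈ homogeneousSubmodule (Fin (N + 1)) ℂ r :=
        isHomogeneous_monomial _ hd'
      rw [homogeneousComponent_of_mem h3, if_pos rfl] at h2
      exact h2
    | succ n ih =>
      intro d hd c w hw
      obtain ⟨i, d', hd', h1⟩ := split_mono (k := r + n) hd c
      rw [h1, map_mul, mul_smul, iy_X]
      exact hV (m0 + (r + n)) (Sum.inr i) (Finset.mem_univ _) _ (ih d' hd' c w hw)
  have hform : ∀ (n : ℕ) (F : Sx N), F.IsHomogeneous (r + n) → ∀ w ∈ U m0,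
      (iy F : Rx N) • w ∈ V (m0 + (r + n)) := by
    intro n F hF w hw
    rw [F.as_sum, map_sum, Finset.sum_smul]
    exact Submodule.sum_mem _ fun d hd => hmono n d (deg_of_mem hF hd) _ w hw
  -- generation
  have hgen : ∀ e : ℕ, ∀ w ∈ U (m0 + e), w ∈ V (m0 + e) ⊔ Submodule.span ℂ
      {z | ∃ (F : Sx N) (w' : M), F.IsHomogeneous e ∧ w' ∈ U m0 ∧ z = (iy F : Rx N) • w'} := by
    intro e
    induction e with
    | zero =>
      intro w hw
      refine Submodule.mem_sup_right (Submodule.subset_span ⟨1, w, isHomogeneous_one _ _, hw, ?_⟩)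
      rw [map_one, one_smul]
    | succ e ih =>
      intro w hw
      have h1 := hf (m0 + e) (by omega) hw
      rw [bot_sup_eq] at h1
      refine Submodule.span_induction (p := fun w _ => w ∈ V (m0 + (e + 1)) ⊔ Submodule.span ℂ
        {z | ∃ (F : Sx N) (w' : M), F.IsHomogeneous (e + 1) ∧ w' ∈ U m0 ∧
          z = (iy F : Rx N) • w'}) ?_ (Submodule.zero_mem _)
        (fun x y _ _ hx hy => Submodule.add_mem _ hx hy)
        (fun a x _ hx => Submodule.smul_mem _ a hx) h1
      rintro z ⟨i, -, w', hw', rfl⟩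
      obtain ⟨v, hv, u, hu, rfl⟩ := Submodule.mem_sup.1 (ih w' hw')
      rw [smul_add]
      refine Submodule.add_mem _ (Submodule.mem_sup_left (hV (m0 + e) i (Finset.mem_univ _) v hv)) ?_
      refine Submodule.span_induction (p := fun u _ => (X i : Rx N) • u ∈
        V (m0 + (e + 1)) ⊔ Submodule.span ℂ
        {z | ∃ (F : Sx N) (w' : M), F.IsHomogeneous (e + 1) ∧ w' ∈ U m0 ∧
          z = (iy F : Rx N) • w'}) ?_ ?_ ?_ ?_ hu
      · rintro u ⟨F, w'', hF, hw'', rfl⟩
        have hy : ∀ k : Fin (N + 1), (X (Sum.inr k) : Rx N) • (iy F : Rx N) • w'' ∈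
            V (m0 + (e + 1)) ⊔ Submodule.span ℂ
              {z | ∃ (F : Sx N) (w' : M), F.IsHomogeneous (e + 1) ∧ w' ∈ U m0 ∧
                z = (iy F : Rx N) • w'} := by
          intro k
          refine Submodule.mem_sup_right (Submodule.subset_span ⟨F * X k, w'',
            hF.mul (isHomogeneous_X ℂ k), hw'', ?_⟩)
          rw [map_mul, mul_comm, mul_smul, iy_X]
        rcases i with k | k
        · have h5 : (X (Sum.inl k) : Rx N) = zz k + X (Sum.inr k) := by
            unfold zz
            ring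
          rw [h5, add_smul]
          refine Submodule.add_mem _ (Submodule.mem_sup_left ?_) (hy k)
          exact hz k (m0 + e) (by omega) _ (form_smul hU hF hw'')
        · exact hy k
      · rw [smul_zero]
        exact Submodule.zero_mem _
      · intro x y _ _ hx hy
        rw [smul_add]
        exact Submodule.add_mem _ hx hy
      · intro a x _ hx
        rw [smul_comm]
        exact Submodule.smul_mem _ a hx
  refine ⟨m0 + r, fun m hm w hw => ?_⟩
  obtain ⟨n, rfl⟩ := Nat.exists_eq_add_of_le hm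
  have h1 := hgen (r + n) w (by rw [← add_assoc]; exact hw)
  rw [add_assoc]
  have h2 : V (m0 + (r + n)) ⊔ Submodule.span ℂ
      {z | ∃ (F : Sx N) (w' : M), F.IsHomogeneous (r + n) ∧ w' ∈ U m0 ∧
        z = (iy F : Rx N) • w'} ≤ V (m0 + (r + n)) := by
    refine sup_le le_rfl (Submodule.span_le.2 ?_)
    rintro z ⟨F, w', hF, hw', rfl⟩
    exact hform n F hF w' hw'
  exact h2 h1

end Pool.Agent.Lib.MP_776403_ag.SD
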