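import Pool.Agent.Lib.MP_776403_ag.SD.K.SpecK

/-!
# THEOREM SD, `S_KNoe`: Noether's theorem for graded families
-/

set_option autoImplicit false

open MvPolynomial

noncomputable section

namespace Pool.Agent.Lib.MP_776403_ag.SD

namespace KNoeAux

variable {σ : Type} {W : Type} [AddCommGroup W] [Module (MvPolynomial σ ℂ) W] [Module ℂ W]
  [IsScalarTower ℂ (MvPolynomial σ ℂ) W] {s : Finset σ}

/-- The inclusion of the polynomial ring in the variables of `s`. -/
def ro (s : Finset σ) : MvPolynomial s ℂ →ₐ[ℂ] MvPolynomial σ ℂ := rename Subtype.val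

omit [IsScalarTower ℂ (MvPolynomial σ ℂ) W] in
theorem XU_le {V : ℕ → Submodule ℂ W} (hV : GFm s V) (m : ℕ) : XU s V m ≤ V (m + 1) := by
  refine Submodule.span_le.2 ?_
  rintro z ⟨i, hi, w', hw', rfl⟩
  exact hV m i hi w' hw'

omit [IsScalarTower ℂ (MvPolynomial σ ℂ) W] in
/-- Monomials of degree `k + 1`. -/
theorem mono_aux {V : ℕ → Submodule ℂ W} {k : ℕ}
    (h : ∀ (d : s →₀ ℕ), d.degree = k → ∀ (c : ℂ) (m : ℕ), ∀ w ∈ V m,
      ro s (monomial d c) • w ∈ V (m + k)) (d : s →₀ ℕ) (hd : d.degree = k + 1) (c : ℂ)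
    (m : ℕ) (w : W) (hw : w ∈ V m) : ro s (monomial d c) • w ∈ XU s V (m + k) := by
  have hne : d ≠ 0 := by
    rintro rfl
    simp at hd
  obtain ⟨i, hi⟩ : ∃ i, d i ≠ 0 := by
    by_contra hcon
    push Not at hcon
    exact hne (Finsupp.ext hcon)
  obtain ⟨d', rfl⟩ : ∃ d', d = Finsupp.single i 1 + d' := by
    refine ⟨d - Finsupp.single i 1, ?_⟩
    rw [add_tsub_cancel_of_le]
    rw [Finsupp.single_le_iff]
    omega
  have hd' : d'.degree = k := by
    rw [map_add, Finsupp.degree_single] at hd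
    omega
  have h1 : monomial (Finsupp.single i 1 + d') c =
      (X i : MvPolynomial s ℂ) * monomial d' c := by
    rw [X, monomial_mul, one_mul]
  refine Submodule.subset_span ⟨i, i.2, ro s (monomial d' c) • w, h d' hd' c m w hw, ?_⟩
  rw [h1, map_mul, mul_smul]
  congr 1
  exact rename_X _ _

theorem mono {V : ℕ → Submodule ℂ W} (hV : GFm s V) (k : ℕ) :
    ∀ (d : s →₀ ℕ), d.degree = k → ∀ (c : ℂ) (m : ℕ), ∀ w ∈ V m,
      ro s (monomial d c) • w ∈ V (m + k) := by
  induction k with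
  | zero =>
    intro d hd c m w hw
    have h0 : d = 0 := by
      rwa [Finsupp.degree_eq_zero_iff] at hd
    subst h0
    have h1 : ro s (monomial 0 c) = algebraMap ℂ (MvPolynomial σ ℂ) c := by
      have h2 : (monomial 0 c : MvPolynomial s ℂ) = algebraMap ℂ (MvPolynomial s ℂ) c := rfl
      rw [h2, AlgHom.commutes]
    rw [h1, algebraMap_smul, add_zero]
    exact Submodule.smul_mem _ c hw
  | succ k ih =>
    intro d hd c m w hw
    exact XU_le hV (m + k) (mono_aux ih d hd c m w hw)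

theorem deg_of_mem {a : MvPolynomial s ℂ} {k : ℕ} (ha : a.IsHomogeneous k) {d : s →₀ ℕ}
    (hd : d ∈ a.support) : d.degree = k := by
  have h := ha (mem_support_iff.1 hd)
  have h2 : (Finsupp.degree d : ℕ) = Finsupp.weight 1 d := by
    rw [Finsupp.degree_eq_weight_one]
    rfl
  rw [h2]
  exact h

/-- Forms of degree `k + 1`. -/
theorem form_smul {V : ℕ → Submodule ℂ W} (hV : GFm s V) {k : ℕ}
    {a : MvPolynomial s ℂ} (ha : a.IsHomogeneous (k + 1)) {m : ℕ} {w : W} (hw : w ∈ V m) :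
    ro s a • w ∈ XU s V (m + k) := by
  rw [a.as_sum, map_sum, Finset.sum_smul]
  exact Submodule.sum_mem _ fun d hd =>
    mono_aux (mono hV k) d (deg_of_mem ha hd) _ m w hw

/-- Vectors of forms of degree `e`. -/
def Hs (s : Finset σ) (b e : ℕ) : Submodule ℂ (Fin b → MvPolynomial s ℂ) where
  carrier := {f | ∀ i, (f i).IsHomogeneous e}
  zero_mem' := fun _ => isHomogeneous_zero _ _ _
  add_mem' := fun h h' i => (h i).add (h' i)
  smul_mem' := by
    intro c f h i
    rw [Pi.smul_apply, MvPolynomial.smul_eq_C_mul]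
    have := (isHomogeneous_C s c).mul (h i)
    rwa [zero_add] at this

/-- The map `f ↦ ∑ f_i ω_i`. -/
def ph (s : Finset σ) {b : ℕ} (ω : Fin b → W) :
    (Fin b → MvPolynomial s ℂ) →ₗ[ℂ] W where
  toFun f := ∑ i, ro s (f i) • ω i
  map_add' f f' := by
    simp only [Pi.add_apply, map_add, add_smul, Finset.sum_add_distrib]
  map_smul' c f := by
    rw [RingHom.id_apply, Finset.smul_sum]
    refine Finset.sum_congr rfl fun i _ => ?_
    rw [Pi.smul_apply, map_smul, smul_assoc]

theorem ph_apply {b : ℕ} (ω : Fin b → W) (f : Fin b → MvPolynomial s ℂ) :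
    ph s ω f = ∑ i, ro s (f i) • ω i := rfl

theorem ph_smul {b : ℕ} (ω : Fin b → W) (a : MvPolynomial s ℂ)
    (f : Fin b → MvPolynomial s ℂ) : ph s ω (a • f) = ro s a • ph s ω f := by
  rw [ph_apply, ph_apply, Finset.smul_sum]
  refine Finset.sum_congr rfl fun i _ => ?_
  rw [Pi.smul_apply, smul_eq_mul, map_mul, mul_smul]

/-- `U (m0 + e)` is the image of the vectors of forms of degree `e`, modulo `V (m0 + e)`. -/
theorem U_le {V U : ℕ → Submodule ℂ W} (hV : GFm s V) {m0 : ℕ}
    (h0 : ∀ m, m0 ≤ m → U (m + 1) ≤ V (m + 1) ⊔ XU s U m) {b : ℕ} {ω : Fin b → W}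
    (hω : Submodule.span ℂ (Set.range ω) = U m0) (e : ℕ) :
    U (m0 + e) ≤ V (m0 + e) ⊔ (Hs s b e).map (ph s ω) := by
  classical
  induction e with
  | zero =>
    rw [add_zero, ← hω]
    refine le_sup_of_le_right (Submodule.span_le.2 ?_)
    rintro _ ⟨i, rfl⟩
    refine ⟨fun j => if j = i then 1 else 0, fun j => ?_, ?_⟩
    · show MvPolynomial.IsHomogeneous (if j = i then (1 : MvPolynomial s ℂ) else 0) 0
      split_ifs
      · exact isHomogeneous_one _ _
      · exact isHomogeneous_zero _ _ _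
    · rw [ph_apply, Finset.sum_eq_single i]
      · rw [if_pos rfl, map_one, one_smul]
      · intro j _ hj
        rw [if_neg hj, map_zero, zero_smul]
      · intro h
        exact absurd (Finset.mem_univ i) h
  | succ e ih =>
    refine (h0 (m0 + e) (Nat.le_add_right _ _)).trans (sup_le le_sup_left ?_)
    refine Submodule.span_le.2 ?_
    rintro z ⟨i, hi, w', hw', rfl⟩
    obtain ⟨v, hv, u, ⟨f, hf, rfl⟩, rfl⟩ := Submodule.mem_sup.1 (ih hw')
    rw [smul_add]
    refine Submodule.add_mem_sup (hV _ i hi v hv) ?_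
    refine ⟨(X ⟨i, hi⟩ : MvPolynomial s ℂ) • f, fun j => ?_, ?_⟩
    · rw [Pi.smul_apply, smul_eq_mul]
      have h2 := (isHomogeneous_X ℂ (⟨i, hi⟩ : s)).mul (hf j)
      rwa [add_comm 1 e] at h2
    · rw [ph_smul]
      congr 1
      exact rename_X _ _

/-- Homogeneous components of a product with a form. -/
theorem comp_mul {a t : MvPolynomial s ℂ} {d n : ℕ} (ht : t.IsHomogeneous d) (hdn : d ≤ n) :
    homogeneousComponent n (a * t) = homogeneousComponent (n - d) a * t := by
  let _ := MvPolynomial.gradedAlgebra (σ := s) (R := ℂ)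
  have h : ∀ (p : MvPolynomial s ℂ) (i : ℕ),
      (DirectSum.decompose (homogeneousSubmodule s ℂ) p i : MvPolynomial s ℂ) =
      homogeneousComponent i p := fun p i => decomposition.decompose'_apply p i
  have h1 := DirectSum.coe_decompose_mul_of_right_mem_of_le
    (𝒜 := homogeneousSubmodule s ℂ) (a := a) (b := t) (i := d) (n := n) ht hdn
  rwa [h, h] at h1

end KNoeAux

open KNoeAux in
/-- **Noether's theorem for graded families.** -/
theorem tKNoe : S_KNoe := by
  classical
  intro σ _ W _ _ _ _ s V V1 U hV hV1 hU hVV1 hV1U hfd hFG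
  obtain ⟨m0, h0⟩ := hFG
  have hfg : (U m0).FG := by
    have := hfd m0
    exact (Submodule.fg_iff_finiteDimensional _).2 this
  obtain ⟨b, ω, hω⟩ := Submodule.fg_iff_exists_fin_generating_family.1 hfg
  have hUle := U_le hV h0 hω
  let A : Set (Fin b → MvPolynomial s ℂ) :=
    {f | ∃ e, f ∈ Hs s b e ∧ ph s ω f ∈ V1 (m0 + e)}
  have hfgA : (Submodule.span (MvPolynomial s ℂ) A).FG := IsNoetherian.noetherian _
  obtain ⟨T, hTA, hT⟩ := (Submodule.fg_span_iff_fg_span_finset_subset A).1 hfgA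
  have hex : ∀ t : Fin b → MvPolynomial s ℂ, ∃ e, t ∈ T → t ∈ Hs s b e ∧
      ph s ω t ∈ V1 (m0 + e) := by
    intro t
    by_cases ht : t ∈ T
    · obtain ⟨e, he⟩ := hTA ht
      exact ⟨e, fun _ => he⟩
    · exact ⟨0, fun h => absurd h ht⟩
  choose dg hdg using hex
  refine ⟨m0 + T.sup dg, fun m hm w hw => ?_⟩
  obtain ⟨e, rfl⟩ : ∃ e, m = m0 + e := ⟨m - m0, by omega⟩
  have hle : ∀ t ∈ T, dg t ≤ e := fun t ht => (Finset.le_sup (f := dg) ht).trans (by omega)
  obtain ⟨v, hv, u, ⟨f, hf, rfl⟩, rfl⟩ := Submodule.mem_sup.1 (hUle (e + 1) (hV1U _ hw))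
  refine Submodule.add_mem_sup hv ?_
  have hfV1 : ph s ω f ∈ V1 (m0 + (e + 1)) := by
    have := Submodule.sub_mem _ hw (hVV1 _ hv)
    rwa [add_sub_cancel_left] at this
  have hsA : f ∈ Submodule.span (MvPolynomial s ℂ) A :=
    Submodule.subset_span ⟨e + 1, hf, hfV1⟩
  rw [hT] at hsA
  obtain ⟨a, -, hsum⟩ := Submodule.mem_span_finset.1 hsA
  have hs2 : f = ∑ t ∈ T, homogeneousComponent (e + 1 - dg t) (a t) • t := by
    funext i
    have h1 : f i = ∑ t ∈ T, a t * t i := by
      rw [← hsum, Finset.sum_apply]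
      rfl
    rw [← homogeneousComponent_eq_self (hf i), h1, map_sum, Finset.sum_apply]
    refine Finset.sum_congr rfl fun t ht => ?_
    rw [comp_mul ((hdg t ht).1 i) ((hle t ht).trans (Nat.le_succ e))]
    rfl
  rw [hs2, map_sum]
  refine Submodule.sum_mem _ fun t ht => ?_
  rw [ph_smul]
  have h3 : e + 1 - dg t = (e - dg t) + 1 := by
    have := hle t ht
    omega
  have h4 : (homogeneousComponent (e + 1 - dg t) (a t)).IsHomogeneous ((e - dg t) + 1) := by
    rw [← h3]
    exact homogeneousComponent_isHomogeneous _ _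
  have h5 := form_smul hV1 h4 (hdg t ht).2
  have h6 : m0 + dg t + (e - dg t) = m0 + e := by
    have := hle t ht
    omega
  rwa [h6] at h5

end Pool.Agent.Lib.MP_776403_ag.SD
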