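import Pool.Agent.Lib.MP_776403_ag.SD.K.SpecK

set_option autoImplicit false

open MvPolynomial

noncomputable section

namespace Pool.Agent.Lib.MP_776403_ag.SD

private theorem kpvFr {E F : Type} [AddCommGroup E] [Module ℂ E] [AddCommGroup F] [Module ℂ F]
    (f : E →ₗ[ℂ] F) (U : Submodule ℂ E) (h : ∀ u ∈ U, f u = 0 → u = 0) :
    Module.finrank ℂ (U.map f) = Module.finrank ℂ U := by
  have hi : Function.Injective (f.domRestrict U) := by
    rw [injective_iff_map_eq_zero]
    intro u hu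
    exact Subtype.ext (h u.1 u.2 hu)
  rw [← LinearMap.range_domRestrict]
  exact LinearMap.finrank_range_of_inj hi

private theorem kpvMap {N : ℕ} {α β : Type} (J : Ideal (Sx N))
    (V : ℕ → Submodule ℂ (α → Sx N)) (W : ℕ → Submodule ℂ (β → Sx N)) (k : ℕ)
    (φ : (α → Sx N) →ₗ[ℂ] (β → Sx N)) (φ' : (α → Sx N ⧸ J) →ₗ[ℂ] (β → Sx N ⧸ J))
    (hc : ∀ v, redL β J (φ v) = φ' (redL α J v)) (hW : W k = (V k).map φ)
    (hi : ∀ u ∈ (V k).map (redL α J), φ' u = 0 → u = 0) : hV J W k = hV J V k := by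
  unfold hV
  have h1 : (W k).map (redL β J) = ((V k).map (redL α J)).map φ' := by
    rw [hW, ← Submodule.map_comp, ← Submodule.map_comp]
    refine congrArg (fun f => Submodule.map f (V k)) ?_
    ext1 v
    exact hc v
  rw [h1]
  exact kpvFr φ' _ hi

/-- Reindexing along a surjection. -/
private theorem kpvRe {N : ℕ} {α β : Type} (J : Ideal (Sx N))
    (V : ℕ → Submodule ℂ (α → Sx N)) (W : ℕ → Submodule ℂ (β → Sx N)) (k : ℕ)
    (f : β → α) (hf : Function.Surjective f)
    (hW : W k = (V k).map (LinearMap.funLeft ℂ (Sx N) f)) : hV J W k = hV J V k := by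
  refine kpvMap J V W k (LinearMap.funLeft ℂ (Sx N) f) (LinearMap.funLeft ℂ (Sx N ⧸ J) f)
    (fun v => rfl) hW ?_
  intro u _ hu
  exact LinearMap.funLeft_injective_of_surjective ℂ (Sx N ⧸ J) f hf (by rw [hu, map_zero])

private theorem kpvL (hG : S_KGV) {N : ℕ} {γ : Type} (Y : ℕ → Submodule ℂ (γ → Sx N))
    (hY : GV Y) (k : ℕ) :
    PV (AF N) Y k = (Y k).map (LinearMap.funLeft ℂ (Sx N) (Prod.snd : Unit × γ → γ)) := by
  apply le_antisymm
  · refine Submodule.span_le.2 ?_
    rintro z ⟨k1, k2, v, w, hk, hv, hw, rfl⟩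
    refine ⟨fun a => v () * w a, ?_, rfl⟩
    have h1 := (hG.2.2.2 N γ Y hY).1 k2 k1 (v ()) w (hv ()) hw
    rw [add_comm k2 k1, hk] at h1
    exact h1
  · rintro z ⟨y, hy, rfl⟩
    refine Submodule.subset_span ⟨0, k, fun _ => 1, y, zero_add k, fun _ => isHomogeneous_one _ _,
      hy, ?_⟩
    funext p
    exact (one_mul _).symm

private theorem kpvR (hG : S_KGV) {N : ℕ} {γ : Type} (Y : ℕ → Submodule ℂ (γ → Sx N))
    (hY : GV Y) (k : ℕ) :
    PV Y (AF N) k = (Y k).map (LinearMap.funLeft ℂ (Sx N) (Prod.fst : γ × Unit → γ)) := by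
  apply le_antisymm
  · refine Submodule.span_le.2 ?_
    rintro z ⟨k1, k2, v, w, hk, hv, hw, rfl⟩
    refine ⟨fun a => w () * v a, ?_, ?_⟩
    · have h1 := (hG.2.2.2 N γ Y hY).1 k1 k2 (w ()) v (hw ()) hv
      rw [hk] at h1
      exact h1
    · funext p
      exact mul_comm _ _
  · rintro z ⟨y, hy, rfl⟩
    refine Submodule.subset_span ⟨k, 0, y, fun _ => 1, add_zero k, hy, fun _ =>
      isHomogeneous_one _ _, ?_⟩
    funext p
    exact (mul_one _).symm

private theorem kpvA (hG : S_KGV) {N : ℕ} {γ δ : Type} (Y : ℕ → Submodule ℂ (γ → Sx N))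
    (Z : ℕ → Submodule ℂ (δ → Sx N)) (hY : GV Y) (k : ℕ) :
    PV (PV (AF N) Y) Z k = (PV Y Z k).map (LinearMap.funLeft ℂ (Sx N)
      (fun p : (Unit × γ) × δ => (p.1.2, p.2))) := by
  apply le_antisymm
  · refine Submodule.span_le.2 ?_
    rintro z ⟨k1, k2, v, w, hk, hv, hw, rfl⟩
    rw [kpvL hG Y hY] at hv
    obtain ⟨y, hy, rfl⟩ := hv
    exact ⟨fun p => y p.1 * w p.2, Submodule.subset_span ⟨k1, k2, y, w, hk, hy, hw, rfl⟩, rfl⟩
  · rw [Submodule.map_le_iff_le_comap]
    refine Submodule.span_le.2 ?_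
    rintro z ⟨k1, k2, v, w, hk, hv, hw, rfl⟩
    refine Submodule.subset_span ⟨k1, k2, fun q => v q.2, w, hk, ?_, hw, rfl⟩
    rw [kpvL hG Y hY]
    exact ⟨v, hv, rfl⟩

/-! ### Minors -/

/-- Alternating vectors. -/
private def kpvAlt (N j : ℕ) (R : Type) [AddCommGroup R] [Module ℂ R] :
    Submodule ℂ ((Fin j → Fin (N + 1)) → R) where
  carrier := {w | (∀ α, ¬ Function.Injective α → w α = 0) ∧
    ∀ (α : Fin j → Fin (N + 1)) (s : Equiv.Perm (Fin j)),
      w (fun i => α (s i)) = ((Equiv.Perm.sign s : ℤˣ) : ℤ) • w α}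
  zero_mem' := ⟨fun _ _ => rfl, fun α s => by simp⟩
  add_mem' := by
    rintro v w ⟨h1, h2⟩ ⟨h1', h2'⟩
    refine ⟨fun α ha => ?_, fun α s => ?_⟩
    · rw [Pi.add_apply, h1 α ha, h1' α ha, add_zero]
    · rw [Pi.add_apply, Pi.add_apply, h2, h2', smul_add]
  smul_mem' := by
    rintro a v ⟨h1, h2⟩
    refine ⟨fun α ha => ?_, fun α s => ?_⟩
    · rw [Pi.smul_apply, h1 α ha, smul_zero]
    · rw [Pi.smul_apply, Pi.smul_apply, h2, smul_comm]

private theorem kpvAltZ {N j : ℕ} {R : Type} [AddCommGroup R] [Module ℂ R]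
    (w : (Fin j → Fin (N + 1)) → R) (hw : w ∈ kpvAlt N j R)
    (h0 : ∀ (T : Finset (Fin (N + 1))) (h : T.card = j), w (fun i => T.orderEmbOfFin h i) = 0) :
    w = 0 := by
  funext α
  by_cases ha : Function.Injective α
  · have hT : (Finset.univ.image α).card = j := by
      rw [Finset.card_image_of_injective _ ha, Finset.card_univ, Fintype.card_fin]
    have h1 : ∀ i : Fin j, ∃ i' : Fin j, (Finset.univ.image α).orderEmbOfFin hT i' = α i := by
      intro i
      have h2 : α i ∈ Set.range ((Finset.univ.image α).orderEmbOfFin hT) := by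
        rw [Finset.range_orderEmbOfFin]
        exact Finset.mem_coe.2 (Finset.mem_image_of_mem α (Finset.mem_univ i))
      exact h2
    choose s hs using h1
    have hsi : Function.Injective s := by
      intro a b hab
      apply ha
      rw [← hs a, ← hs b, hab]
    have hsb : Function.Bijective s := Finite.injective_iff_bijective.1 hsi
    have h3 := hw.2 (fun i => (Finset.univ.image α).orderEmbOfFin hT i) (Equiv.ofBijective s hsb)
    rw [h0 _ hT, smul_zero] at h3
    have h4 : (fun i => (fun i => (Finset.univ.image α).orderEmbOfFin hT i)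
        ((Equiv.ofBijective s hsb) i)) = α := by
      funext i
      exact hs i
    rw [h4] at h3
    exact h3
  · exact hw.1 α ha

private theorem kpvVLalt {N : ℕ} (I : Ideal (Sx N)) (j k : ℕ) : VL I j k ≤ kpvAlt N j (Sx N) := by
  refine Submodule.span_le.2 ?_
  rintro z ⟨a, e, F, f, _, _, _, rfl⟩
  refine ⟨fun α ha => ?_, fun α s => ?_⟩
  · rw [Function.Injective] at ha
    push Not at ha
    obtain ⟨x, y, hxy, hne⟩ := ha
    change a * Matrix.det _ = 0
    rw [Matrix.det_zero_of_column_eq hne, mul_zero]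
    intro i
    simp only [Matrix.of_apply, hxy]
  · have h1 := Matrix.det_permute' s (Matrix.of fun i k => pderiv (α k) (F i))
    change a * Matrix.det (Matrix.of fun i k => pderiv (α (s k)) (F i)) =
      ((Equiv.Perm.sign s : ℤˣ) : ℤ) • (a * Matrix.det (Matrix.of fun i k => pderiv (α k) (F i)))
    have h2 : (Matrix.of fun i k => pderiv (α (s k)) (F i)) =
        (Matrix.of fun i k => pderiv (α k) (F i)).submatrix id s := rfl
    rw [h2, h1, zsmul_eq_mul]
    ring

/-- The vector of the minors indexed by sets. -/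
private def kpvTh (N j : ℕ) (γ R : Type) [AddCommGroup R] [Module ℂ R] :
    (γ × (Fin j → Fin (N + 1)) → R) →ₗ[ℂ] (γ × Finset (Fin (N + 1)) → R) where
  toFun v := fun p => if h : p.2.card = j then v (p.1, fun i => p.2.orderEmbOfFin h i) else 0
  map_add' v w := by
    funext p
    by_cases h : p.2.card = j
    · simp only [Pi.add_apply, dif_pos h]
    · simp only [Pi.add_apply, dif_neg h, add_zero]
  map_smul' r v := by
    funext p
    by_cases h : p.2.card = j
    · simp only [Pi.smul_apply, dif_pos h, RingHom.id_apply]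
    · simp only [Pi.smul_apply, dif_neg h, smul_zero]

/-- The same without parameters. -/
private def kpvTh0 (N j : ℕ) (R : Type) [AddCommGroup R] [Module ℂ R] :
    ((Fin j → Fin (N + 1)) → R) →ₗ[ℂ] (Finset (Fin (N + 1)) → R) where
  toFun v := fun T => if h : T.card = j then v (fun i => T.orderEmbOfFin h i) else 0
  map_add' v w := by
    funext T
    by_cases h : T.card = j
    · simp only [Pi.add_apply, dif_pos h]
    · simp only [Pi.add_apply, dif_neg h, add_zero]
  map_smul' r v := by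
    funext T
    by_cases h : T.card = j
    · simp only [Pi.smul_apply, dif_pos h, RingHom.id_apply]
    · simp only [Pi.smul_apply, dif_neg h, smul_zero]

private theorem kpvVT {N : ℕ} (I : Ideal (Sx N)) (j k : ℕ) :
    VT I j k = (VL I j k).map (kpvTh0 N j (Sx N)) := by
  apply le_antisymm
  · refine Submodule.span_le.2 ?_
    rintro z ⟨a, e, F, f, h1, h2, h3, rfl⟩
    exact ⟨fun α => a * Matrix.det (Matrix.of fun i k => pderiv (α k) (F i)),
      Submodule.subset_span ⟨a, e, F, f, h1, h2, h3, rfl⟩, rfl⟩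
  · rw [Submodule.map_le_iff_le_comap]
    refine Submodule.span_le.2 ?_
    rintro z ⟨a, e, F, f, h1, h2, h3, rfl⟩
    exact Submodule.subset_span ⟨a, e, F, f, h1, h2, h3, rfl⟩

private theorem kpvThMul {N : ℕ} {γ : Type} (j : ℕ) (v : γ → Sx N)
    (w : (Fin j → Fin (N + 1)) → Sx N) :
    (fun p : γ × Finset (Fin (N + 1)) => v p.1 * kpvTh0 N j (Sx N) w p.2) =
      kpvTh N j γ (Sx N) (fun p => v p.1 * w p.2) := by
  funext p
  change v p.1 * (if h : p.2.card = j then w (fun i => p.2.orderEmbOfFin h i) else 0) =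
    if h : p.2.card = j then v p.1 * w (fun i => p.2.orderEmbOfFin h i) else 0
  by_cases h : p.2.card = j
  · simp only [dif_pos h]
  · simp only [dif_neg h, mul_zero]

private theorem kpvPVT {N : ℕ} {γ : Type} (I : Ideal (Sx N)) (Y : ℕ → Submodule ℂ (γ → Sx N))
    (j k : ℕ) : PV Y (VT I j) k = (PV Y (VL I j) k).map (kpvTh N j γ (Sx N)) := by
  apply le_antisymm
  · refine Submodule.span_le.2 ?_
    rintro z ⟨k1, k2, v, w, hk, hv, hw, rfl⟩
    rw [kpvVT] at hw
    obtain ⟨y, hy, rfl⟩ := hw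
    refine ⟨fun p => v p.1 * y p.2, Submodule.subset_span ⟨k1, k2, v, y, hk, hv, hy, rfl⟩, ?_⟩
    exact (kpvThMul j v y).symm
  · rw [Submodule.map_le_iff_le_comap]
    refine Submodule.span_le.2 ?_
    rintro z ⟨k1, k2, v, w, hk, hv, hw, rfl⟩
    refine Submodule.subset_span ⟨k1, k2, v, kpvTh0 N j (Sx N) w, hk, hv, ?_, ?_⟩
    · rw [kpvVT]
      exact ⟨w, hw, rfl⟩
    · exact (kpvThMul j v w).symm

private theorem kpvPalt {N : ℕ} {γ : Type} (I : Ideal (Sx N)) (Y : ℕ → Submodule ℂ (γ → Sx N))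
    (j k : ℕ) (v : γ × (Fin j → Fin (N + 1)) → Sx N) (hv : v ∈ PV Y (VL I j) k) (g : γ) :
    (fun α => v (g, α)) ∈ kpvAlt N j (Sx N) := by
  have h1 : PV Y (VL I j) k ≤ (kpvAlt N j (Sx N)).comap
      (LinearMap.funLeft ℂ (Sx N) (fun α : Fin j → Fin (N + 1) => (g, α))) := by
    refine Submodule.span_le.2 ?_
    rintro z ⟨k1, k2, u, w, hk, hu, hw, rfl⟩
    have h2 := kpvVLalt I j k2 hw
    refine ⟨fun α ha => ?_, fun α s => ?_⟩
    · change u g * w α = 0
      rw [h2.1 α ha, mul_zero]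
    · change u g * w (fun i => α (s i)) = ((Equiv.Perm.sign s : ℤˣ) : ℤ) • (u g * w α)
      rw [h2.2 α s, mul_smul_comm]
  exact h1 hv

private theorem kpvB {N : ℕ} {γ : Type} (I J : Ideal (Sx N)) (Y : ℕ → Submodule ℂ (γ → Sx N))
    (j k : ℕ) : hV J (PV Y (VT I j)) k = hV J (PV Y (VL I j)) k := by
  refine kpvMap J (PV Y (VL I j)) (PV Y (VT I j)) k (kpvTh N j γ (Sx N))
    (kpvTh N j γ (Sx N ⧸ J)) ?_ (kpvPVT I Y j k) ?_
  · intro v
    funext p
    change Ideal.Quotient.mk J (if h : p.2.card = j then v (p.1, fun i => p.2.orderEmbOfFin h i)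
      else 0) = if h : p.2.card = j then
        Ideal.Quotient.mk J (v (p.1, fun i => p.2.orderEmbOfFin h i)) else 0
    by_cases h : p.2.card = j
    · simp only [dif_pos h]
    · simp only [dif_neg h, map_zero]
  · rintro u ⟨v, hv, rfl⟩ hu
    funext p
    obtain ⟨g, α⟩ := p
    have h1 := kpvPalt I Y j k v hv g
    have h2 : (fun α => redL (γ × (Fin j → Fin (N + 1))) J v (g, α)) ∈
        kpvAlt N j (Sx N ⧸ J) := by
      refine ⟨fun α ha => ?_, fun α s => ?_⟩
      · have h3 := h1.1 α ha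
        change Ideal.Quotient.mk J (v (g, α)) = 0
        change v (g, α) = 0 at h3
        rw [h3, map_zero]
      · have h3 := h1.2 α s
        change Ideal.Quotient.mk J (v (g, fun i => α (s i))) =
          ((Equiv.Perm.sign s : ℤˣ) : ℤ) • Ideal.Quotient.mk J (v (g, α))
        change v (g, fun i => α (s i)) = ((Equiv.Perm.sign s : ℤˣ) : ℤ) • v (g, α) at h3
        rw [h3, map_zsmul]
    have h4 := kpvAltZ _ h2 (fun T h => by
      have h5 := congrFun hu (g, T)
      change (if h : T.card = j then redL (γ × (Fin j → Fin (N + 1))) J v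
        (g, fun i => T.orderEmbOfFin h i) else 0) = 0 at h5
      rw [dif_pos h] at h5
      exact h5)
    exact congrFun h4 α

theorem tKPV : S_KGV → S_KPV := by
  intro hG
  refine ⟨?_, ?_⟩
  · intro N γ δ _ _ J Y Z hY k
    refine ⟨?_, ?_, ?_, ?_⟩
    · exact kpvRe J (PV Y Z) (PV (PV (AF N) Y) Z) k _ (fun p => ⟨(((), p.1), p.2), rfl⟩)
        (kpvA hG Y Z hY k)
    · exact kpvRe J Y (PV (AF N) Y) k _ (fun a => ⟨((), a), rfl⟩) (kpvL hG Y hY k)
    · exact kpvRe J Y (PV Y (AF N)) k _ (fun a => ⟨(a, ()), rfl⟩) (kpvR hG Y hY k)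
    · unfold hV
      have h1 : gr J k = ((AF N k).map (redL Unit J)).map
          (LinearMap.proj () : (Unit → Sx N ⧸ J) →ₗ[ℂ] Sx N ⧸ J) := by
        apply le_antisymm
        · rintro z ⟨F, hF, rfl⟩
          exact ⟨fun _ => Ideal.Quotient.mk J F, ⟨fun _ => F, fun _ => hF, rfl⟩, rfl⟩
        · rintro z ⟨_, ⟨v, hv, rfl⟩, rfl⟩
          exact ⟨v (), hv (), rfl⟩
      rw [h1]
      refine (kpvFr _ _ ?_).symm
      intro u _ hu
      funext a
      exact hu
  · intro N γ _ I J Y j k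
    refine ⟨kpvB I J Y j k, ?_⟩
    have h1 := kpvB I J (AF N) j k
    rw [kpvRe J (VT I j) (PV (AF N) (VT I j)) k _ (fun a => ⟨((), a), rfl⟩)
      (kpvL hG _ (hG.2.2.1 N I j).2 k),
      kpvRe J (VL I j) (PV (AF N) (VL I j)) k _ (fun a => ⟨((), a), rfl⟩)
      (kpvL hG _ (hG.2.2.1 N I j).1 k)] at h1
    exact h1

end Pool.Agent.Lib.MP_776403_ag.SD
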