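import Pool.Agent.Lib.MP_776403_ag.SD.K.SpecS

/-!
# THEOREM SD, `S_KRI`: dimensions of the Koszul homology
-/

set_option autoImplicit false

open MvPolynomial TensorProduct

noncomputable section

namespace Pool.Agent.Lib.MP_776403_ag.SD

namespace KRIAux

/-- Rank-nullity on a subspace. -/
theorem rank_nullity {E F : Type} [AddCommGroup E] [Module ℂ E] [AddCommGroup F] [Module ℂ F]
    (f : E →ₗ[ℂ] F) (Z B : Submodule ℂ E) [FiniteDimensional ℂ Z] (h : Z ⊓ LinearMap.ker f = B) :
    (Module.finrank ℂ Z : ℤ) - Module.finrank ℂ B = Module.finrank ℂ (Z.map f) := by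
  have h1 := LinearMap.finrank_range_add_finrank_ker (f.domRestrict Z)
  have h2 : LinearMap.range (f.domRestrict Z) = Z.map f := by
    rw [LinearMap.domRestrict, LinearMap.range_comp, Submodule.range_subtype]
  have h3 : LinearMap.ker (f.domRestrict Z) = (LinearMap.ker f).comap Z.subtype := by
    rw [LinearMap.domRestrict, LinearMap.ker_comp]
  have h4 : Module.finrank ℂ (LinearMap.ker (f.domRestrict Z)) = Module.finrank ℂ B := by
    rw [h3, ← h]
    have h5 : (Z ⊓ LinearMap.ker f).comap Z.subtype = (LinearMap.ker f).comap Z.subtype := by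
      ext x
      simp
    rw [← h5]
    exact LinearEquiv.finrank_eq
      (Submodule.comapSubtypeEquivOfLe (p := Z ⊓ LinearMap.ker f) (q := Z) inf_le_left)
  rw [h2, h4] at h1
  omega

end KRIAux

open KRIAux in
theorem kKRI : S_RIa → S_KFam → S_KGF → S_KRI := by
  intro hRI hFam hGF N c α β _ _ I J _ hI hS _ hJ h V W hV hW hL i
  obtain ⟨m0, hm0⟩ := hRI N c α β I J h V W hI hJ hS hV hW hL i
  obtain ⟨g1, g2, g3⟩ := hGF N α β I J V W hV hW
  obtain ⟨-, f2, -, -⟩ := hFam N (α × β → CR I J) (TPf I J V W) g1 g2 g3 i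
  refine ⟨m0, fun m hm => ?_⟩
  obtain ⟨a1, a2, a3⟩ := hm0 m hm
  obtain ⟨b1, b2, b3⟩ := f2 m
  have : FiniteDimensional ℂ (Zc N (TPf I J V W) i m) :=
    Submodule.finiteDimensional_of_le b2
  rw [rank_nullity (rho h (α × β)) (Zc N (TPf I J V W) i m) (Bc N (TPf I J V W) i m), a2]
  · rfl
  · ext w
    constructor
    · rintro ⟨w1, w2⟩
      exact a1 w w1 w2
    · intro hw
      exact ⟨b1 hw, a3 w hw⟩

end Pool.Agent.Lib.MP_776403_ag.SD
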