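import Pool.Agent.Lib.MP_776403_ag.SD.K.SpecK

/-!
# THEOREM SD, part K, module KTP: the Hilbert function of a tensor product
-/

set_option autoImplicit false

open MvPolynomial
open scoped TensorProduct

noncomputable section

namespace Pool.Agent.Lib.MP_776403_ag.SD

variable {N : ℕ}

/-- Dual functionals of an independent family. -/
private theorem ktp_dual {ι M : Type} [DecidableEq ι] [AddCommGroup M] [Module ℂ M] {b : ι → M}
    (hb : LinearIndependent ℂ b) : ∃ F : ι → (M →ₗ[ℂ] ℂ), ∀ i j, F i (b j) = if j = i then 1 else 0 := by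
  obtain ⟨g, hg⟩ := LinearMap.exists_leftInverse_of_injective
    (Finsupp.linearCombination ℂ b) (LinearMap.ker_eq_bot.2 hb)
  refine ⟨fun i => (Finsupp.lapply i).comp g, fun i j => ?_⟩
  have h1 : g (b j) = Finsupp.single j 1 := by
    have h2 := LinearMap.congr_fun hg (Finsupp.single j 1)
    rw [LinearMap.comp_apply, Finsupp.linearCombination_single, one_smul] at h2
    exact h2
  rw [LinearMap.comp_apply, h1, Finsupp.lapply_apply, Finsupp.single_apply]

/-- A functional on vectors is the sum of its coordinates. -/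
private theorem ktp_coord {α M : Type} [Fintype α] [DecidableEq α] [AddCommGroup M] [Module ℂ M]
    (F : (α → M) →ₗ[ℂ] ℂ) (v : α → M) :
    F v = ∑ a, F (Pi.single a (v a)) := by
  rw [← map_sum, Finset.univ_sum_single]

/-- `ℂ[x, y] → S / I ⊗ S / J`. -/
private def ktpA (I J : Ideal (Sx N)) : Rx N →ₐ[ℂ] (Sx N ⧸ I) ⊗[ℂ] (Sx N ⧸ J) :=
  aeval (Sum.elim
    (fun i => (Ideal.Quotient.mk I (X i) : Sx N ⧸ I) ⊗ₜ[ℂ] (1 : Sx N ⧸ J))
    (fun i => (1 : Sx N ⧸ I) ⊗ₜ[ℂ] (Ideal.Quotient.mk J (X i) : Sx N ⧸ J)))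

private theorem ktpA_ix (I J : Ideal (Sx N)) (f : Sx N) :
    ktpA I J (ix f) = (Ideal.Quotient.mk I f : Sx N ⧸ I) ⊗ₜ[ℂ] (1 : Sx N ⧸ J) := by
  have h : (ktpA I J).comp ix = (Algebra.TensorProduct.includeLeft (R := ℂ) (S := ℂ)
      (A := Sx N ⧸ I) (B := Sx N ⧸ J)).comp (Ideal.Quotient.mkₐ ℂ I) := by
    refine MvPolynomial.algHom_ext fun i => ?_
    rw [AlgHom.comp_apply, AlgHom.comp_apply]
    unfold ktpA ix
    rw [rename_X, aeval_X]
    rfl
  exact AlgHom.congr_fun h f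

private theorem ktpA_iy (I J : Ideal (Sx N)) (f : Sx N) :
    ktpA I J (iy f) = (1 : Sx N ⧸ I) ⊗ₜ[ℂ] (Ideal.Quotient.mk J f : Sx N ⧸ J) := by
  have h : (ktpA I J).comp iy = (Algebra.TensorProduct.includeRight (R := ℂ)
      (A := Sx N ⧸ I) (B := Sx N ⧸ J)).comp (Ideal.Quotient.mkₐ ℂ J) := by
    refine MvPolynomial.algHom_ext fun i => ?_
    rw [AlgHom.comp_apply, AlgHom.comp_apply]
    unfold ktpA iy
    rw [rename_X, aeval_X]
    rfl
  exact AlgHom.congr_fun h f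

private theorem ktpA_cc (I J : Ideal (Sx N)) (a : Rx N) (ha : a ∈ cc I J) : ktpA I J a = 0 := by
  have h1 : cc I J ≤ RingHom.ker (ktpA I J) := by
    refine sup_le (Ideal.map_le_iff_le_comap.2 fun F hF => ?_)
      (Ideal.map_le_iff_le_comap.2 fun F hF => ?_)
    · change ktpA I J (ix F) = 0
      rw [ktpA_ix, Ideal.Quotient.eq_zero_iff_mem.2 hF, TensorProduct.zero_tmul]
    · change ktpA I J (iy F) = 0
      rw [ktpA_iy, Ideal.Quotient.eq_zero_iff_mem.2 hF, TensorProduct.tmul_zero]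
  exact h1 ha

/-- `ℂ[x, y] / (I(x) + J(y)) → S / I ⊗ S / J`. -/
private def ktpT (I J : Ideal (Sx N)) : CR I J →ₐ[ℂ] (Sx N ⧸ I) ⊗[ℂ] (Sx N ⧸ J) :=
  Ideal.Quotient.liftₐ (cc I J) (ktpA I J) (ktpA_cc I J)

/-- The functional `φ ⊗ ψ`. -/
private def ktpE (I J : Ideal (Sx N)) (φ : (Sx N ⧸ I) →ₗ[ℂ] ℂ) (ψ : (Sx N ⧸ J) →ₗ[ℂ] ℂ) :
    CR I J →ₗ[ℂ] ℂ :=
  ((LinearMap.mul' ℂ ℂ).comp (TensorProduct.map φ ψ)).comp (ktpT I J).toLinearMap

private theorem ktpE_mk (I J : Ideal (Sx N)) (φ : (Sx N ⧸ I) →ₗ[ℂ] ℂ) (ψ : (Sx N ⧸ J) →ₗ[ℂ] ℂ)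
    (f g : Sx N) : ktpE I J φ ψ (Ideal.Quotient.mk (cc I J) (ix f * iy g)) =
      φ (Ideal.Quotient.mk I f) * ψ (Ideal.Quotient.mk J g) := by
  have h : ktpT I J (Ideal.Quotient.mk (cc I J) (ix f * iy g)) =
      (Ideal.Quotient.mk I f : Sx N ⧸ I) ⊗ₜ[ℂ] (Ideal.Quotient.mk J g : Sx N ⧸ J) := by
    change ktpA I J (ix f * iy g) = _
    rw [map_mul, ktpA_ix, ktpA_iy, Algebra.TensorProduct.tmul_mul_tmul, mul_one, one_mul]
  unfold ktpE
  rw [LinearMap.comp_apply, LinearMap.comp_apply]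
  rw [show (ktpT I J).toLinearMap (Ideal.Quotient.mk (cc I J) (ix f * iy g)) =
    (Ideal.Quotient.mk I f : Sx N ⧸ I) ⊗ₜ[ℂ] (Ideal.Quotient.mk J g : Sx N ⧸ J) from h]
  rw [TensorProduct.map_tmul, LinearMap.mul'_apply]

/-- The pairing of functionals on vectors. -/
private theorem ktp_pair {α β : Type} [Fintype α] [Fintype β] [DecidableEq α] [DecidableEq β]
    (I J : Ideal (Sx N)) (F : (α → Sx N ⧸ I) →ₗ[ℂ] ℂ) (G : (β → Sx N ⧸ J) →ₗ[ℂ] ℂ) :
    ∃ E : (α × β → CR I J) →ₗ[ℂ] ℂ, ∀ (v : α → Sx N) (w : β → Sx N),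
      E (fun p => Ideal.Quotient.mk (cc I J) (ix (v p.1) * iy (w p.2))) =
        F (redL α I v) * G (redL β J w) := by
  refine ⟨∑ p : α × β, (ktpE I J (F.comp (LinearMap.single ℂ (fun _ : α => Sx N ⧸ I) p.1))
    (G.comp (LinearMap.single ℂ (fun _ : β => Sx N ⧸ J) p.2))).comp (LinearMap.proj p),
    fun v w => ?_⟩
  rw [ktp_coord F, ktp_coord G, Finset.sum_mul_sum, ← Finset.sum_product', LinearMap.sum_apply]
  refine Finset.sum_congr rfl fun p _ => ?_
  rw [LinearMap.comp_apply, LinearMap.proj_apply, ktpE_mk]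
  rfl

/-- Homogeneous relations modulo `I` split. -/
private theorem ktp_split {α : Type} (I : Ideal (Sx N)) (hI : IsHom I) {m : ℕ}
    (v : Fin m → (α → Sx N)) (hv : ∀ k a, (v k a).IsHomogeneous (k : ℕ))
    (h : ∑ k, redL α I (v k) = 0) (k : Fin m) : redL α I (v k) = 0 := by
  funext a
  have h1 : ∑ k, v k a ∈ I := by
    have h2 := congrFun h a
    rw [Finset.sum_apply] at h2
    rw [← Ideal.Quotient.eq_zero_iff_mem, map_sum]
    exact h2
  have h3 : homogeneousComponent (k : ℕ) (∑ k, v k a) = v k a := by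
    rw [map_sum, Finset.sum_eq_single k]
    · exact homogeneousComponent_of_mem (hv k a) |>.trans (if_pos rfl)
    · intro l _ hl
      rw [homogeneousComponent_of_mem (hv l a), if_neg]
      intro h
      exact hl (Fin.ext h.symm)
    · intro hk
      exact absurd (Finset.mem_univ k) hk
  have h4 := hI _ h1 (k : ℕ)
  rw [h3] at h4
  exact Ideal.Quotient.eq_zero_iff_mem.2 h4

/-- Bases of the graded pieces, with lifts, form an independent family. -/
private theorem ktp_basis {α : Type} [Finite α] (I : Ideal (Sx N)) (hI : IsHom I)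
    (V : ℕ → Submodule ℂ (α → Sx N)) (hG : GV V) :
    ∃ v : (k : ℕ) → Fin (hV I V k) → (α → Sx N), (∀ k i, v k i ∈ V k) ∧
      (∀ k, Submodule.span ℂ (Set.range fun i => redL α I (v k i)) = (V k).map (redL α I)) ∧
      ∀ m : ℕ, LinearIndependent ℂ
        (fun s : (Σ k : Fin m, Fin (hV I V k)) => redL α I (v s.1 s.2)) := by
  have hfin : ∀ k, Module.Finite ℂ ((V k).map (redL α I)) := by
    intro k
    have h1 : Module.Finite ℂ (Submodule.pi Set.univ
        fun _ : α => homogeneousSubmodule (Fin (N + 1)) ℂ k) :=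
      Module.Finite.iff_fg.2 (Submodule.fg_pi fun _ => homogeneousSubmodule_fg _ ℂ k)
    have h2 : V k ≤ Submodule.pi Set.univ
        fun _ : α => homogeneousSubmodule (Fin (N + 1)) ℂ k :=
      fun x hx a _ => hG.hom k x hx a
    have h3 : Module.Finite ℂ (V k) := Submodule.finiteDimensional_of_le h2
    exact Module.Finite.map _ _
  have hb : ∀ k, ∃ v : Fin (hV I V k) → (α → Sx N), (∀ i, v i ∈ V k) ∧
      Submodule.span ℂ (Set.range fun i => redL α I (v i)) = (V k).map (redL α I) ∧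
      LinearIndependent ℂ (fun i => redL α I (v i)) := by
    intro k
    have := hfin k
    let b : Module.Basis (Fin (hV I V k)) ℂ ((V k).map (redL α I)) :=
      Module.finBasis ℂ ((V k).map (redL α I))
    have h1 : ∀ i, ∃ v ∈ V k, redL α I v = (b i : α → Sx N ⧸ I) := fun i => (b i).2
    choose v hv1 hv2 using h1
    refine ⟨v, hv1, ?_, ?_⟩
    · have h2 : (Set.range fun i => redL α I (v i)) =
          ((V k).map (redL α I)).subtype '' Set.range b := by
        rw [← Set.range_comp]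
        exact congrArg Set.range (funext hv2)
      rw [h2, Submodule.span_image, b.span_eq, Submodule.map_top, Submodule.range_subtype]
    · rw [funext hv2]
      exact b.linearIndependent.map' (Submodule.subtype _) (Submodule.ker_subtype _)
  choose v hv1 hv2 hv3 using hb
  refine ⟨v, hv1, hv2, fun m => ?_⟩
  rw [Fintype.linearIndependent_iff]
  intro c hc
  have h1 : ∑ k : Fin m, redL α I (∑ i, c ⟨k, i⟩ • v k i) = 0 := by
    rw [← hc, Fintype.sum_sigma]
    refine Finset.sum_congr rfl fun k _ => ?_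
    rw [map_sum]
    exact Finset.sum_congr rfl fun i _ => map_smul _ _ _
  have h2 := ktp_split I hI (fun k : Fin m => ∑ i, c ⟨k, i⟩ • v k i) (fun k a =>
    hG.hom k _ (Submodule.sum_mem _ fun i _ => Submodule.smul_mem _ _ (hv1 k i)) a) h1
  rintro ⟨k, i⟩
  have h3 := h2 k
  rw [map_sum] at h3
  have h4 : ∑ i, c ⟨k, i⟩ • redL α I (v k i) = 0 := by
    rw [← h3]
    exact Finset.sum_congr rfl fun i _ => (map_smul _ _ _).symm
  exact Fintype.linearIndependent_iff.1 (hv3 k) (fun i => c ⟨k, i⟩) h4 i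

/-- `S / I → ℂ[x, y] / (I(x) + J(y))`. -/
private def ktpX (I J : Ideal (Sx N)) : Sx N ⧸ I →ₐ[ℂ] CR I J :=
  Ideal.Quotient.liftₐ I ((Ideal.Quotient.mkₐ ℂ (cc I J)).comp ix) (fun _ ha =>
    Ideal.Quotient.eq_zero_iff_mem.2 (Ideal.mem_sup_left (Ideal.mem_map_of_mem _ ha)))

private def ktpY (I J : Ideal (Sx N)) : Sx N ⧸ J →ₐ[ℂ] CR I J :=
  Ideal.Quotient.liftₐ J ((Ideal.Quotient.mkₐ ℂ (cc I J)).comp iy) (fun _ ha =>
    Ideal.Quotient.eq_zero_iff_mem.2 (Ideal.mem_sup_right (Ideal.mem_map_of_mem _ ha)))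

/-- The tensor product of two vectors. -/
private def ktpB (α β : Type) (I J : Ideal (Sx N)) :
    (α → Sx N ⧸ I) →ₗ[ℂ] (β → Sx N ⧸ J) →ₗ[ℂ] (α × β → CR I J) :=
  LinearMap.mk₂ ℂ (fun x y p => ktpX I J (x p.1) * ktpY I J (y p.2))
    (fun x x' y => by funext p; simp only [Pi.add_apply, map_add, add_mul])
    (fun c x y => by funext p; simp only [Pi.smul_apply, map_smul, smul_mul_assoc])
    (fun x y y' => by funext p; simp only [Pi.add_apply, map_add, mul_add])
    (fun c x y => by funext p; simp only [Pi.smul_apply, map_smul, mul_smul_comm])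

private theorem ktpB_red {α β : Type} (I J : Ideal (Sx N)) (v : α → Sx N) (w : β → Sx N) :
    ktpB α β I J (redL α I v) (redL β J w) =
      fun p => Ideal.Quotient.mk (cc I J) (ix (v p.1) * iy (w p.2)) := by
  funext p
  rw [map_mul]
  rfl

/-- KTP. -/
theorem tKTP : S_KTP := by
  classical
  intro N α β _ _ I J hI hJ V W hV1 hW1 m
  have := Fintype.ofFinite α
  have := Fintype.ofFinite β
  obtain ⟨v, hv1, hv2, hv3⟩ := ktp_basis I hI V hV1
  obtain ⟨w, hw1, hw2, hw3⟩ := ktp_basis J hJ W hW1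
  let l : Fin (m + 1) → Fin (m + 1) := fun k => ⟨m - k, by lia⟩
  let u : (Σ k : Fin (m + 1), Fin (hV I V k) × Fin (hV J W (m - k))) → (α × β → CR I J) :=
    fun s p => Ideal.Quotient.mk (cc I J) (ix (v s.1 s.2.1 p.1) * iy (w (m - s.1) s.2.2 p.2))
  have hu : LinearIndependent ℂ u := by
    rw [Fintype.linearIndependent_iff]
    intro c hc s0
    obtain ⟨F, hF⟩ := ktp_dual (hv3 (m + 1))
    obtain ⟨G, hG⟩ := ktp_dual (hw3 (m + 1))
    obtain ⟨E, hE⟩ := ktp_pair I J (F ⟨s0.1, s0.2.1⟩) (G ⟨l s0.1, s0.2.2⟩)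
    have h1 := congrArg E hc
    rw [map_sum, map_zero, Finset.sum_eq_single s0] at h1
    · rw [map_smul, hE] at h1
      have h2 := hF ⟨s0.1, s0.2.1⟩ ⟨s0.1, s0.2.1⟩
      have h3 := hG ⟨l s0.1, s0.2.2⟩ ⟨l s0.1, s0.2.2⟩
      rw [if_pos rfl] at h2 h3
      have h4 : F ⟨s0.1, s0.2.1⟩ (redL α I (v s0.1 s0.2.1)) = 1 := h2
      have h5 : G ⟨l s0.1, s0.2.2⟩ (redL β J (w (m - s0.1) s0.2.2)) = 1 := h3
      rw [h4, h5, mul_one, smul_eq_mul, mul_one] at h1
      exact h1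
    · intro s _ hs
      rw [map_smul, hE]
      obtain ⟨k, i, j⟩ := s
      obtain ⟨k0, i0, j0⟩ := s0
      have h2 := hF ⟨k0, i0⟩ ⟨k, i⟩
      have h3 := hG ⟨l k0, j0⟩ ⟨l k, j⟩
      have h4 : F ⟨k0, i0⟩ (redL α I (v k i)) =
        if (⟨k, i⟩ : Σ k : Fin (m + 1), Fin (hV I V k)) = ⟨k0, i0⟩ then 1 else 0 := h2
      have h5 : G ⟨l k0, j0⟩ (redL β J (w (m - k) j)) =
        if (⟨l k, j⟩ : Σ k : Fin (m + 1), Fin (hV J W k)) = ⟨l k0, j0⟩ then 1 else 0 := h3
      change c ⟨k, i, j⟩ • (F ⟨k0, i0⟩ (redL α I (v k i)) *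
        G ⟨l k0, j0⟩ (redL β J (w (m - k) j))) = 0
      rw [h4, h5]
      by_cases h6 : (⟨k, i⟩ : Σ k : Fin (m + 1), Fin (hV I V k)) = ⟨k0, i0⟩
      · obtain ⟨h7, h8⟩ := Sigma.mk.inj_iff.1 h6
        subst h7
        have h9 := eq_of_heq h8
        subst h9
        have h10 : ¬ (⟨l k, j⟩ : Σ k : Fin (m + 1), Fin (hV J W k)) = ⟨l k, j0⟩ := by
          intro h10
          refine hs ?_
          rw [eq_of_heq (Sigma.mk.inj_iff.1 h10).2]
        rw [if_neg h10, mul_zero, smul_zero]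
      · rw [if_neg h6, zero_mul, smul_zero]
    · intro h
      exact absurd (Finset.mem_univ s0) h
  have hspan : TPf I J V W m = Submodule.span ℂ (Set.range u) := by
    refine le_antisymm (Submodule.span_le.2 ?_) (Submodule.span_le.2 ?_)
    · rintro z ⟨k1, k2, v', w', hk, hv', hw', rfl⟩
      have h1 : (redL α I v') ∈ Submodule.span ℂ (Set.range fun i => redL α I (v k1 i)) := by
        rw [hv2]
        exact Submodule.mem_map_of_mem hv'
      have h2 : (redL β J w') ∈ Submodule.span ℂ (Set.range fun i => redL β J (w k2 i)) := by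
        rw [hw2]
        exact Submodule.mem_map_of_mem hw'
      have h3 := Submodule.apply_mem_map₂ (ktpB α β I J) h1 h2
      rw [Submodule.map₂_span_span, ktpB_red] at h3
      refine Submodule.span_mono ?_ h3
      rintro _ ⟨_, ⟨i, rfl⟩, _, ⟨j, rfl⟩, rfl⟩
      have hk1 : k1 < m + 1 := by lia
      have hk2 : k2 = m - k1 := by lia
      subst hk2
      exact ⟨⟨⟨k1, hk1⟩, i, j⟩, (ktpB_red I J _ _).symm⟩
    · rintro _ ⟨⟨k, i, j⟩, rfl⟩
      exact Submodule.subset_span ⟨k, m - k, v k i, w (m - k) j, by lia, hv1 _ _, hw1 _ _, rfl⟩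
  rw [hspan, finrank_span_eq_card hu, Fintype.card_sigma]
  rw [← Fin.sum_univ_eq_sum_range (fun k => hV I V k * hV J W (m - k))]
  refine Finset.sum_congr rfl fun k _ => ?_
  rw [Fintype.card_prod, Fintype.card_fin, Fintype.card_fin]

end Pool.Agent.Lib.MP_776403_ag.SD
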