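import Pool.Agent.Lib.MP_776403_ag.SD.K.SpecK

/-!
# THEOREM SD, module KTop: the minors of size `> c` vanish on `X`
-/

set_option autoImplicit false

open MvPolynomial

noncomputable section

namespace Pool.Agent.Lib.MP_776403_ag.SD

private theorem KTop_det_hom {N j : ℕ} (F : Fin j → Sx N) (f : Fin j → ℕ)
    (hF : ∀ i, (F i).IsHomogeneous (f i)) (al : Fin j → Fin (N + 1)) :
    (Matrix.det (Matrix.of fun i k => pderiv (al k) (F i))).IsHomogeneous
      (∑ i, (f i - 1)) := by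
  rw [Matrix.det_apply]
  refine MvPolynomial.IsHomogeneous.sum _ _ _ fun s _ => ?_
  have h1 : (∏ i, (Matrix.of fun i k => pderiv (al k) (F i)) (s i) i).IsHomogeneous
      (∑ i, (f (s i) - 1)) := by
    refine MvPolynomial.IsHomogeneous.prod _ _ _ fun i _ => ?_
    exact (hF (s i)).pderiv
  have h2 : ∑ i, (f (s i) - 1) = ∑ i, (f i - 1) := Equiv.sum_comp s fun i => f i - 1
  rw [h2] at h1
  rw [Units.smul_def]
  have h3 : (∏ i, (Matrix.of fun i k => pderiv (al k) (F i)) (s i) i) ∈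
      homogeneousSubmodule (Fin (N + 1)) ℂ (∑ i, (f i - 1)) := h1
  exact zsmul_mem h3 _

private theorem KTop_eval {N c j : ℕ} (hPerp : S_Perp) (I : Ideal (Sx N)) (hI : I.IsPrime)
    (hIh : IsHom I) (hsm : Smooth I c) (hj : c < j) (F : Fin j → Sx N) (hF : ∀ i, F i ∈ I)
    (al : Fin j → Fin (N + 1)) (y : Vx N) (hy : y ∈ zer I) (hy0 : y ≠ 0) :
    eval y (Matrix.det (Matrix.of fun i k => pderiv (al k) (F i))) = 0 := by
  obtain ⟨h1, h2, -, -⟩ := hPerp N c I hI hIh hsm y hy hy0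
  have h3 : ¬ LinearIndependent ℂ fun i : Fin j => (⟨grad (F i) y, h2 _ (hF i)⟩ : CN I y) := by
    intro hli
    have h4 := hli.fintype_card_le_finrank
    rw [Fintype.card_fin, h1] at h4
    lia
  rw [Fintype.not_linearIndependent_iff] at h3
  obtain ⟨g, hg, i0, hi0⟩ := h3
  rw [RingHom.map_det]
  refine Matrix.exists_vecMul_eq_zero_iff.1 ⟨g, fun h0 => hi0 (by rw [h0]; rfl), ?_⟩
  funext k
  have h5 := congrArg (fun z : CN I y => (z : Vx N) (al k)) hg
  simp only [Submodule.coe_sum, Submodule.coe_smul, Finset.sum_apply, Pi.smul_apply,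
    smul_eq_mul, ZeroMemClass.coe_zero, Pi.zero_apply] at h5
  exact h5

private theorem KTop_mem {N c j : ℕ} (hNull : S_Null) (hPerp : S_Perp) (I : Ideal (Sx N))
    (hI : I.IsPrime) (hIh : IsHom I) (hsm : Smooth I c) (hj : c < j) {r : ℕ}
    (hr : (∃ z ∈ zer I, z ≠ 0) ∨ ∀ m ≥ r, ∀ F : Sx N, F.IsHomogeneous m → F ∈ I)
    {k : ℕ} (hk : r ≤ k) (a : Sx N) (e : ℕ) (F : Fin j → Sx N) (f : Fin j → ℕ)
    (ha : a.IsHomogeneous e) (hF : ∀ i, F i ∈ I ∧ (F i).IsHomogeneous (f i))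
    (hd : e + ∑ i, f i = k + j) (al : Fin j → Fin (N + 1)) :
    a * Matrix.det (Matrix.of fun i k => pderiv (al k) (F i)) ∈ I := by
  have hhom := ha.mul (KTop_det_hom F f (fun i => (hF i).2) al)
  rcases hr with hr | hr
  · refine (hNull N I hI hIh).2 hr _ _ hhom fun z hz hz0 => ?_
    rw [map_mul, KTop_eval hPerp I hI hIh hsm hj F (fun i => (hF i).1) al z hz hz0, mul_zero]
  · refine hr _ ?_ _ hhom
    have h1 : ∑ i, f i ≤ ∑ i, (f i - 1) + j := by
      have h2 : ∑ i : Fin j, f i ≤ ∑ i : Fin j, ((f i - 1) + 1) :=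
        Finset.sum_le_sum fun i _ => by lia
      rw [Finset.sum_add_distrib, Finset.sum_const, Finset.card_univ, Fintype.card_fin,
        smul_eq_mul, mul_one] at h2
      exact h2
    lia

private theorem KTop_hV {N : ℕ} {α : Type} (I : Ideal (Sx N)) (V : ℕ → Submodule ℂ (α → Sx N))
    (k : ℕ) (h : V k ≤ LinearMap.ker (redL α I)) : hV I V k = 0 := by
  unfold hV
  have h1 : (V k).map (redL α I) = ⊥ := LinearMap.le_ker_iff_map.1 h
  rw [h1, finrank_bot]

/-- **KTop.** -/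
theorem tKTop : S_Null → S_Perp → S_Irr → S_KTop := by
  intro hNull hPerp hIrr N c I hI hIh hsm j hj
  obtain ⟨r, hr⟩ : ∃ r : ℕ, (∃ z ∈ zer I, z ≠ 0) ∨
      ∀ m ≥ r, ∀ F : Sx N, F.IsHomogeneous m → F ∈ I := by
    by_cases h : ∃ z ∈ zer I, z ≠ 0
    · exact ⟨0, Or.inl h⟩
    · push Not at h
      obtain ⟨r, hr⟩ := hIrr N I hIh h
      exact ⟨r, Or.inr hr⟩
  refine ⟨r, fun k hk => ⟨?_, ?_⟩⟩
  · refine KTop_hV I _ k ?_
    refine Submodule.span_le.2 ?_
    rintro z ⟨a, e, F, f, ha, hF, hd, rfl⟩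
    change redL _ I _ = 0
    funext al
    exact Ideal.Quotient.eq_zero_iff_mem.2
      (KTop_mem hNull hPerp I hI hIh hsm hj hr hk a e F f ha hF hd al)
  · refine KTop_hV I _ k ?_
    refine Submodule.span_le.2 ?_
    rintro z ⟨a, e, F, f, ha, hF, hd, rfl⟩
    change redL _ I _ = 0
    funext T
    refine Ideal.Quotient.eq_zero_iff_mem.2 ?_
    by_cases h : T.card = j
    · simp only [h, dif_pos]
      exact KTop_mem hNull hPerp I hI hIh hsm hj hr hk a e F f ha hF hd _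
    · simp only [h, dif_neg, not_false_eq_true]
      exact I.zero_mem

end Pool.Agent.Lib.MP_776403_ag.SD
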