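import Pool.Agent.Lib.MP_776403_ag.SD.K.SpecK

/-!
# THEOREM SD, part K: additivity of the trace of an involution
-/

set_option autoImplicit false

open MvPolynomial

noncomputable section

namespace Pool.Agent.Lib.MP_776403_ag.SD

private theorem rn_KTri {W W' : Type} [AddCommGroup W] [Module ℂ W] [AddCommGroup W']
    [Module ℂ W'] (f : W →ₗ[ℂ] W') (A : Submodule ℂ W) (hA : FiniteDimensional ℂ A) :
    Module.finrank ℂ (A.map f) + Module.finrank ℂ ↥(A ⊓ LinearMap.ker f) =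
      Module.finrank ℂ A := by
  have h := LinearMap.finrank_range_add_finrank_ker (f.domRestrict A)
  rw [LinearMap.range_domRestrict] at h
  rw [← h]
  congr 1
  have h2 : (LinearMap.ker (f.domRestrict A)).map A.subtype = A ⊓ LinearMap.ker f := by
    rw [LinearMap.ker_domRestrict, Submodule.map_comap_subtype]
  rw [← h2]
  exact Submodule.finrank_map_subtype_eq A (LinearMap.ker (f.domRestrict A))

private theorem mp_KTri {W W' : Type} [AddCommGroup W] [Module ℂ W] [AddCommGroup W']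
    [Module ℂ W'] (s : W →ₗ[ℂ] W) (s' : W' →ₗ[ℂ] W') (f : W →ₗ[ℂ] W') (U : Submodule ℂ W)
    (hs : ∀ w, s (s w) = w) (hf : ∀ w, f (s w) = s' (f w)) (hU : ∀ w ∈ U, s w ∈ U)
    (ε : ℂ) (hε : ε * ε = 1) :
    U.map f ⊓ LinearMap.ker (s' - ε • (LinearMap.id : W' →ₗ[ℂ] W')) =
      (U ⊓ LinearMap.ker (s - ε • (LinearMap.id : W →ₗ[ℂ] W))).map f := by
  apply le_antisymm
  · rintro y ⟨⟨w, hw, rfl⟩, hy⟩
    have hy' : s' (f w) = ε • f w := by
      have : (s' - ε • (LinearMap.id : W' →ₗ[ℂ] W')) (f w) = 0 := hy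
      rw [LinearMap.sub_apply, LinearMap.smul_apply, LinearMap.id_apply, sub_eq_zero] at this
      exact this
    refine ⟨(1 / 2 : ℂ) • (w + ε • s w), ⟨?_, ?_⟩, ?_⟩
    · exact U.smul_mem _ (U.add_mem hw (U.smul_mem _ (hU w hw)))
    · change (s - ε • (LinearMap.id : W →ₗ[ℂ] W)) ((1 / 2 : ℂ) • (w + ε • s w)) = 0
      rw [LinearMap.sub_apply, LinearMap.smul_apply, LinearMap.id_apply, map_smul, map_add,
        map_smul, hs, sub_eq_zero, smul_comm ε, smul_add ε, smul_smul ε ε, hε, one_smul,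
        add_comm (s w)]
    · rw [map_smul, map_add, map_smul, hf, hy', smul_smul, hε, one_smul, ← two_smul ℂ,
        smul_smul]
      norm_num
  · rintro y ⟨w, ⟨hw, hw2⟩, rfl⟩
    refine ⟨⟨w, hw, rfl⟩, ?_⟩
    have : s w = ε • w := by
      have : (s - ε • (LinearMap.id : W →ₗ[ℂ] W)) w = 0 := hw2
      rw [LinearMap.sub_apply, LinearMap.smul_apply, LinearMap.id_apply, sub_eq_zero] at this
      exact this
    change (s' - ε • (LinearMap.id : W' →ₗ[ℂ] W')) (f w) = 0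
    rw [LinearMap.sub_apply, LinearMap.smul_apply, LinearMap.id_apply, ← hf, this, map_smul,
      sub_self]

private theorem di_KTri {W W' : Type} [AddCommGroup W] [Module ℂ W] [AddCommGroup W']
    [Module ℂ W'] (s : W →ₗ[ℂ] W) (s' : W' →ₗ[ℂ] W') (f : W →ₗ[ℂ] W') (U : Submodule ℂ W)
    (hU0 : FiniteDimensional ℂ U)
    (hs : ∀ w, s (s w) = w) (hf : ∀ w, f (s w) = s' (f w)) (hU : ∀ w ∈ U, s w ∈ U)
    (ε : ℂ) (hε : ε * ε = 1) :
    Module.finrank ℂ ↥(U ⊓ LinearMap.ker (s - ε • (LinearMap.id : W →ₗ[ℂ] W))) =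
      Module.finrank ℂ ↥((U ⊓ LinearMap.ker f) ⊓ LinearMap.ker (s - ε • (LinearMap.id : W →ₗ[ℂ] W))) +
      Module.finrank ℂ ↥(U.map f ⊓ LinearMap.ker (s' - ε • (LinearMap.id : W' →ₗ[ℂ] W'))) := by
  rw [mp_KTri s s' f U hs hf hU ε hε, inf_right_comm, add_comm]
  refine (rn_KTri f _ ?_).symm
  exact Submodule.finiteDimensional_of_le (inf_le_left : U ⊓ _ ≤ U)

theorem tKTri : S_KTri := by
  intro W W' _ _ _ _ s s' f U hU0 hs _ hf hU
  have h1 := di_KTri s s' f U hU0 hs hf hU 1 (by norm_num)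
  have h2 := di_KTri s s' f U hU0 hs hf hU (-1) (by norm_num)
  have e1 : s - (1 : ℂ) • (LinearMap.id : W →ₗ[ℂ] W) = s - LinearMap.id := by rw [one_smul]
  have e2 : s' - (1 : ℂ) • (LinearMap.id : W' →ₗ[ℂ] W') = s' - LinearMap.id := by rw [one_smul]
  have e3 : s - (-1 : ℂ) • (LinearMap.id : W →ₗ[ℂ] W) = s + LinearMap.id := by
    rw [neg_smul, one_smul, sub_neg_eq_add]
  have e4 : s' - (-1 : ℂ) • (LinearMap.id : W' →ₗ[ℂ] W') = s' + LinearMap.id := by
    rw [neg_smul, one_smul, sub_neg_eq_add]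
  rw [e1, e2] at h1
  rw [e3, e4] at h2
  unfold tri
  rw [h1, h2]
  push_cast
  ring

end Pool.Agent.Lib.MP_776403_ag.SD
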