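import Pool.Agent.Lib.MP_776403_ag.SD.K.SpecK

set_option autoImplicit false

open MvPolynomial

noncomputable section

namespace Pool.Agent.Lib.MP_776403_ag.SD

private theorem kvlDet {N j : ℕ} (F : Fin j → Sx N) (f : Fin j → ℕ)
    (hF : ∀ i, (F i).IsHomogeneous (f i)) (hs : ∑ i, f i < j) (α : Fin j → Fin (N + 1)) :
    Matrix.det (Matrix.of fun i k => pderiv (α k) (F i)) = 0 := by
  have h1 : ∃ i, f i = 0 := by
    by_contra h
    push Not at h
    have h2 : ∑ _i : Fin j, 1 ≤ ∑ i, f i := Finset.sum_le_sum fun i _ => Nat.one_le_iff_ne_zero.2 (h i)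
    simp only [Finset.sum_const, Finset.card_univ, Fintype.card_fin, smul_eq_mul, mul_one] at h2
    omega
  obtain ⟨i, hi⟩ := h1
  refine Matrix.det_eq_zero_of_row_eq_zero i fun k => ?_
  rw [Matrix.of_apply]
  have h3 : (F i).IsHomogeneous 0 := hi ▸ hF i
  have h4 : (F i).totalDegree = 0 := by
    by_cases h0 : F i = 0
    · rw [h0, totalDegree_zero]
    · exact h3.totalDegree h0
  rw [totalDegree_eq_zero_iff_eq_C.1 h4, pderiv_C]

theorem tKVL : S_KVL := by
  intro N I J j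
  refine ⟨fun k => ?_, fun m hm => ?_⟩
  · unfold Lam VL
    rw [Submodule.map_span]
    congr 1
    ext z
    constructor
    · rintro ⟨a, e, F, f, ha, hF, hs, rfl⟩
      exact ⟨fun α => a * Matrix.det (Matrix.of fun i k => pderiv (α k) (F i)),
        ⟨a, e, F, f, ha, hF, hs, rfl⟩, rfl⟩
    · rintro ⟨w, ⟨a, e, F, f, ha, hF, hs, rfl⟩, rfl⟩
      exact ⟨a, e, F, f, ha, hF, hs, rfl⟩
  · unfold Lam
    rw [Submodule.span_eq_bot]
    rintro z ⟨a, e, F, f, ha, hF, hs, rfl⟩
    funext α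
    rw [kvlDet F f (fun i => (hF i).2) (by omega) α, mul_zero, map_zero]
    rfl

end Pool.Agent.Lib.MP_776403_ag.SD
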