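import Pool.Agent.Lib.MP_776403_ag.SD.K.SpecR

/-!
# THEOREM SD, part K: (RBase), the base case `(S / 0) ⊗ M`
-/

set_option autoImplicit false

open MvPolynomial TensorProduct

noncomputable section

namespace Pool.Agent.Lib.MP_776403_ag.SD

namespace RBaseAux

variable {N : ℕ}

section Ind

variable {L M : Type} [AddCommGroup L] [Module ℂ L] [AddCommGroup M] [Module ℂ M]

theorem TM_ind {P : TM N L M → Prop} (h0 : P 0) (h1 : ∀ l m, P (tm N l m))
    (h2 : ∀ s t, P s → P t → P (s + t)) (t : TM N L M) : P t :=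
  TensorProduct.induction_on (motive := P) t h0 h1 h2

end Ind

theorem lin {L L' M : Type} [AddCommGroup L] [Module ℂ L] [AddCommGroup L'] [Module ℂ L']
    [AddCommGroup M] [Module ℂ M] [Module (Sx N) L] [IsScalarTower ℂ (Sx N) L]
    [Module (Sx N) L'] [IsScalarTower ℂ (Sx N) L'] [Module (Sx N) M]
    [IsScalarTower ℂ (Sx N) M] (φ : TM N L M →ₗ[ℂ] TM N L' M)
    (h1 : ∀ (F : Sx N) t, φ ((ix F : Rx N) • t) = (ix F : Rx N) • φ t)
    (h2 : ∀ (F : Sx N) t, φ ((iy F : Rx N) • t) = (iy F : Rx N) • φ t) (r : Rx N)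
    (t : TM N L M) : φ (r • t) = r • φ t := by
  have hX : ∀ (i : Fin (N + 1) ⊕ Fin (N + 1)) (s : TM N L M),
      φ ((X i : Rx N) • s) = (X i : Rx N) • φ s := by
    rintro (k | k) s
    · have h3 : (X (Sum.inl k) : Rx N) = ix (X k) := by simp [ix]
      rw [h3, h1]
    · have h3 : (X (Sum.inr k) : Rx N) = iy (X k) := by simp [iy]
      rw [h3, h2]
  induction r using MvPolynomial.induction_on generalizing t with
  | C a =>
    have h3 : ∀ s : TM N L M, (C a : Rx N) • s = a • s := fun s => by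
      rw [← MvPolynomial.algebraMap_eq, algebraMap_smul]
    have h4 : ∀ s : TM N L' M, (C a : Rx N) • s = a • s := fun s => by
      rw [← MvPolynomial.algebraMap_eq, algebraMap_smul]
    rw [h3, h4, map_smul]
  | add p q hp hq => rw [add_smul, add_smul, map_add, hp, hq]
  | mul_X p i hp => rw [mul_smul, mul_smul, hp, hX]

variable (N) in
/-- `S ≅ S / 0`. -/
def e0 : Sx N ≃ₗ[Sx N] (Sx N ⧸ (⊥ : Ideal (Sx N))) :=
  LinearEquiv.ofBijective (Ideal.Quotient.mkₐ (Sx N) (⊥ : Ideal (Sx N))).toLinearMap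
    ⟨fun f g h => by
      have h1 : Ideal.Quotient.mk (⊥ : Ideal (Sx N)) f = Ideal.Quotient.mk ⊥ g := h
      rw [Ideal.Quotient.eq, Ideal.mem_bot, sub_eq_zero] at h1
      exact h1, fun y => Ideal.Quotient.mk_surjective y⟩

theorem e0_apply (f : Sx N) : e0 N f = Ideal.Quotient.mk ⊥ f := rfl

variable (N) in
/-- `S ⊗ M ≅ (S / 0) ⊗ M`. -/
def eM (M : Type) [AddCommGroup M] [Module ℂ M] :
    TM N (Sx N) M ≃ₗ[ℂ] TM N (Sx N ⧸ (⊥ : Ideal (Sx N))) M :=
  (TensorProduct.congr ((e0 N).restrictScalars ℂ) (LinearEquiv.refl ℂ M) :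
    (Sx N ⊗[ℂ] M) ≃ₗ[ℂ] ((Sx N ⧸ (⊥ : Ideal (Sx N))) ⊗[ℂ] M))

theorem eM_tm (M : Type) [AddCommGroup M] [Module ℂ M] (f : Sx N) (m : M) :
    eM N M (tm N f m) = tm N (Ideal.Quotient.mk ⊥ f) m := rfl

section Main

variable {M : Type} [AddCommGroup M] [Module ℂ M] [Module (Sx N) M] [IsScalarTower ℂ (Sx N) M]

theorem eM_smul (r : Rx N) (t : TM N (Sx N) M) : eM N M (r • t) = r • eM N M t := by
  refine lin (eM N M).toLinearMap (fun F t => ?_) (fun F t => ?_) r t
  · refine TM_ind (P := fun t => (eM N M).toLinearMap ((ix F : Rx N) • t) =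
      (ix F : Rx N) • (eM N M).toLinearMap t) ?_ (fun f m => ?_) (fun s t hs ht => ?_) t
    · rw [smul_zero, map_zero, smul_zero]
    · change eM N M ((ix F : Rx N) • tm N f m) = (ix F : Rx N) • eM N M (tm N f m)
      rw [ix_smul_tm, eM_tm, eM_tm, ix_smul_tm]
      rfl
    · rw [smul_add, map_add, map_add, smul_add, hs, ht]
  · refine TM_ind (P := fun t => (eM N M).toLinearMap ((iy F : Rx N) • t) =
      (iy F : Rx N) • (eM N M).toLinearMap t) ?_ (fun f m => ?_) (fun s t hs ht => ?_) t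
    · rw [smul_zero, map_zero, smul_zero]
    · change eM N M ((iy F : Rx N) • tm N f m) = (iy F : Rx N) • eM N M (tm N f m)
      rw [iy_smul_tm, eM_tm, eM_tm, iy_smul_tm]
    · rw [smul_add, map_add, map_add, smul_add, hs, ht]

variable (N M) in
/-- The isomorphism, linear over `ℂ[x, y]`. -/
def eR : TM N (Sx N) M ≃ₗ[Rx N] TM N (Sx N ⧸ (⊥ : Ideal (Sx N))) M :=
  { (eM N M) with map_smul' := eM_smul }

/-- Cycles of positive degree are boundaries. -/
theorem acyc (hB : S_RBas1) (i : ℕ) (w : Cn N (TM N (Sx N ⧸ (⊥ : Ideal (Sx N))) M))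
    (hw : Sup (i + 1) w) (hd : dK w = 0) :
    ∃ v : Cn N (TM N (Sx N ⧸ (⊥ : Ideal (Sx N))) M), Sup (i + 2) v ∧ dK v = w := by
  obtain ⟨v', hv1, hv2⟩ := hB N M i (mapC ((eR N M).symm : _ →ₗ[Rx N] _) w)
    (fun T hT => by
      change (eR N M).symm (w T) = 0
      rw [hw T hT, map_zero])
    (by rw [mapC_dK, hd, map_zero])
  refine ⟨mapC ((eR N M) : _ →ₗ[Rx N] _) v', fun T hT => ?_, ?_⟩
  · change (eR N M) (v' T) = 0
    rw [hv1 T hT, map_zero]
  · rw [mapC_dK, hv2]
    funext T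
    change (eR N M) ((eR N M).symm (w T)) = w T
    rw [LinearEquiv.apply_symm_apply]

theorem quot (hq : S_RDq) (μ : TM N (Sx N ⧸ (⊥ : Ideal (Sx N))) M →ₗ[ℂ] M)
    (hμ : ∀ (f : Sx N) (m : M), μ (tm N (Ideal.Quotient.mk ⊥ f) m) = f • m)
    (t : TM N (Sx N ⧸ (⊥ : Ideal (Sx N))) M) :
    ∃ a : Fin (N + 1) → TM N (Sx N ⧸ (⊥ : Ideal (Sx N))) M,
      t = tm N 1 (μ t) + ∑ k, (zz k : Rx N) • a k := by
  refine TM_ind (P := fun t => ∃ a : Fin (N + 1) → TM N (Sx N ⧸ (⊥ : Ideal (Sx N))) M,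
      t = tm N 1 (μ t) + ∑ k, (zz k : Rx N) • a k) ?_ (fun l m => ?_) (fun s t hs ht => ?_) t
  · refine ⟨fun _ => 0, ?_⟩
    rw [map_zero]
    have h1 : tm N (1 : Sx N ⧸ (⊥ : Ideal (Sx N))) (0 : M) = 0 := TensorProduct.tmul_zero _ _
    rw [h1]
    simp
  · obtain ⟨f, rfl⟩ := Ideal.Quotient.mk_surjective l
    obtain ⟨q, h1, _⟩ := (hq N f).1
    refine ⟨fun k => q k • tm N 1 m, ?_⟩
    have h2 : ∑ k, (zz k : Rx N) • (q k • tm N (1 : Sx N ⧸ (⊥ : Ideal (Sx N))) m) =
        (ix f - iy f) • tm N 1 m := by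
      rw [h1, Finset.sum_smul]
      exact Finset.sum_congr rfl fun k _ => by rw [smul_smul]
    rw [h2, hμ, sub_smul, ix_smul_tm, iy_smul_tm]
    have h3 : f • (1 : Sx N ⧸ (⊥ : Ideal (Sx N))) = Ideal.Quotient.mk ⊥ f := by
      rw [Algebra.smul_def, mul_one]
      rfl
    rw [h3]
    abel
  · obtain ⟨a, ha⟩ := hs
    obtain ⟨b, hb⟩ := ht
    refine ⟨fun k => a k + b k, ?_⟩
    have h1 : tm N (1 : Sx N ⧸ (⊥ : Ideal (Sx N))) (μ s + μ t) = tm N 1 (μ s) + tm N 1 (μ t) :=
      TensorProduct.tmul_add _ _ _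
    rw [map_add, h1]
    simp only [smul_add, Finset.sum_add_distrib]
    calc s + t = (tm N 1 (μ s) + ∑ k, (zz k : Rx N) • a k) +
        (tm N 1 (μ t) + ∑ k, (zz k : Rx N) • b k) := by rw [← ha, ← hb]
      _ = _ := by abel

theorem dgS_zz (k : Fin (N + 1)) : dgS (zz k) = 0 := by
  simp [dgS, zz]

end Main

end RBaseAux

open RBaseAux in
theorem kRBase : S_RBas1 → S_RDq → S_RBase := by
  intro hB hq N M _ _ _ _ μ hμ hdg p G
  constructor
  · intro i w hw hd hr
    rcases i with _ | i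
    · obtain ⟨a, ha⟩ := quot hq μ hμ (w ∅)
      rw [hr ∅] at ha
      have h1 : tm N (1 : Sx N ⧸ (⊥ : Ideal (Sx N))) (0 : M) = 0 := TensorProduct.tmul_zero _ _
      rw [h1, zero_add] at ha
      refine ⟨1, fun T => ∑ k, if T = {k} then a k else 0, by simp, fun T hT => ?_, ?_⟩
      · refine Finset.sum_eq_zero fun k _ => if_neg fun h2 => hT ?_
        rw [h2, Finset.card_singleton]
      · rw [map_one, one_smul]
        funext T
        change ∑ k ∈ Tᶜ, sg k T • ((zz k : Rx N) •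
          (∑ l, if insert k T = {l} then a l else 0)) = w T
        by_cases hT : T = ∅
        · subst hT
          rw [Finset.compl_empty, ha]
          refine Finset.sum_congr rfl fun k _ => ?_
          have h2 : sg k (∅ : Finset (Fin (N + 1))) = 1 := by simp [sg]
          rw [h2, one_smul, Finset.sum_eq_single k]
          · rw [if_pos (by simp)]
          · intro l _ hl
            rw [if_neg]
            intro h3
            have h4 : k ∈ ({l} : Finset (Fin (N + 1))) := by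
              rw [← h3]
              exact Finset.mem_insert_self _ _
            exact hl (Finset.mem_singleton.1 h4).symm
          · intro h
            exact absurd (Finset.mem_univ k) h
        · have h5 : T.card ≠ 0 := fun h6 => hT (Finset.card_eq_zero.1 h6)
          rw [hw T h5]
          refine Finset.sum_eq_zero fun k hk => ?_
          have h6 : (∑ l, if insert k T = {l} then a l else 0) = 0 := by
            refine Finset.sum_eq_zero fun l _ => if_neg fun h7 => h5 ?_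
            have h8 : (insert k T).card = 1 := by rw [h7, Finset.card_singleton]
            rw [Finset.card_insert_of_notMem (Finset.mem_compl.1 hk)] at h8
            omega
          rw [h6, smul_zero, smul_zero]
    · obtain ⟨v, hv1, hv2⟩ := acyc hB i w hw hd
      exact ⟨1, v, by simp, hv1, by rw [hv2, map_one, one_smul]⟩
  · intro i w hw hd
    refine ⟨1, by simp, ?_⟩
    rcases i with _ | i
    · intro T hT
      change (1 : Sx N) • μ (w T) = 0
      rw [hw T hT, map_zero, smul_zero]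
    · obtain ⟨v, hv1, hv2⟩ := acyc hB i w hw hd
      have h1 : (fun T => (1 : Sx N) • μ (w T)) = 0 := by
        funext T
        rw [one_smul, ← hv2]
        change μ (∑ k ∈ Tᶜ, sg k T • ((zz k : Rx N) • v (insert k T))) = 0
        rw [map_sum]
        refine Finset.sum_eq_zero fun k _ => ?_
        rw [map_zsmul, hdg, dgS_zz, zero_smul, smul_zero]
      rw [h1]
      exact Submodule.zero_mem _

end Pool.Agent.Lib.MP_776403_ag.SD
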