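import Pool.Agent.Lib.MP_776403_ag.SD.K.SpecR

/-!
# THEOREM SD, part K: (RCar), the anticommutation relations in the exterior algebra
-/

set_option autoImplicit false

open MvPolynomial TensorProduct

noncomputable section

namespace Pool.Agent.Lib.MP_776403_ag.SD

namespace RCarAux

variable {N : ℕ}

theorem sg_sq (k : Fin (N + 1)) (T : Finset (Fin (N + 1))) : sg k T * sg k T = 1 := by
  unfold sg
  rw [← mul_pow]
  norm_num

/-- The sign of an inversion. -/
def sn (a b : Fin (N + 1)) : ℤ := if a < b then -1 else 1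

theorem sn_add {a b : Fin (N + 1)} (h : a ≠ b) : sn a b + sn b a = 0 := by
  unfold sn
  rcases lt_or_gt_of_ne h with h1 | h1
  · rw [if_pos h1, if_neg (not_lt.2 h1.le)]
    norm_num
  · rw [if_pos h1, if_neg (not_lt.2 h1.le)]
    norm_num

theorem sg_insert (k l : Fin (N + 1)) (T : Finset (Fin (N + 1))) (h : l ∉ T) :
    sg k (insert l T) = sn l k * sg k T := by
  unfold sg sn
  rw [Finset.filter_insert]
  by_cases h1 : l < k
  · rw [if_pos h1, if_pos h1, Finset.card_insert_of_notMem (by simp [h]), pow_succ]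
    ring
  · rw [if_neg h1, if_neg h1, one_mul]

theorem sn_sq (a b : Fin (N + 1)) : sn a b * sn a b = 1 := by
  unfold sn
  by_cases h : a < b <;> simp [h]

theorem sn_self (a : Fin (N + 1)) : sn a a = 1 := if_neg (lt_irrefl a)

theorem sg_erase (k l : Fin (N + 1)) (T : Finset (Fin (N + 1))) (h : l ∈ T) :
    sg k (T.erase l) = sn l k * sg k T := by
  have h1 := sg_insert k l (T.erase l) (Finset.notMem_erase l T)
  rw [Finset.insert_erase h] at h1
  rw [h1, ← mul_assoc, sn_sq, one_mul]

variable {R : Type} [CommRing R] {M : Type} [AddCommGroup M] [Module R M]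

variable (R) in
/-- Contraction with `e_k`. -/
def iK (k : Fin (N + 1)) : Cn N M →ₗ[R] Cn N M where
  toFun u := fun T => if k ∈ T then 0 else sg k T • u (insert k T)
  map_add' u w := by
    funext T
    by_cases h : k ∈ T <;> simp [h]
  map_smul' f u := by
    funext T
    by_cases h : k ∈ T
    · simp [h]
    · simp only [h, if_false, Pi.smul_apply, RingHom.id_apply]
      rw [smul_comm]

variable (R) in
/-- Exterior multiplication by `e_k`. -/
def eL (k : Fin (N + 1)) : Cn N M →ₗ[R] Cn N M where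
  toFun u := fun T => if k ∈ T then sg k (T.erase k) • u (T.erase k) else 0
  map_add' u w := by
    funext T
    by_cases h : k ∈ T <;> simp [h]
  map_smul' f u := by
    funext T
    by_cases h : k ∈ T
    · simp only [h, if_true, Pi.smul_apply, RingHom.id_apply]
      rw [smul_comm]
    · simp [h]

theorem iK_mem {k : Fin (N + 1)} {T : Finset (Fin (N + 1))} (u : Cn N M) (h : k ∈ T) :
    iK R k u T = 0 := if_pos h

theorem iK_not {k : Fin (N + 1)} {T : Finset (Fin (N + 1))} (u : Cn N M) (h : k ∉ T) :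
    iK R k u T = sg k T • u (insert k T) := if_neg h

theorem eL_mem {k : Fin (N + 1)} {T : Finset (Fin (N + 1))} (u : Cn N M) (h : k ∈ T) :
    eL R k u T = sg k (T.erase k) • u (T.erase k) := if_pos h

theorem eL_not {k : Fin (N + 1)} {T : Finset (Fin (N + 1))} (u : Cn N M) (h : k ∉ T) :
    eL R k u T = 0 := if_neg h

theorem cG_eq (v : Fin (N + 1) → R) (u : Cn N M) : cG v u = ∑ k, v k • iK R k u := by
  funext T
  rw [Finset.sum_apply]
  have h1 : ∀ k, (v k • iK R k u) T = if k ∈ T then 0 else sg k T • (v k • u (insert k T)) := by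
    intro k
    rw [Pi.smul_apply]
    by_cases h : k ∈ T
    · rw [if_pos h, iK_mem u h, smul_zero]
    · rw [if_neg h, iK_not u h, smul_comm]
  simp only [h1]
  rw [Finset.sum_ite, Finset.sum_const_zero, zero_add]
  exact Finset.sum_congr (by ext; simp) fun _ _ => rfl

theorem wG_eq (G : Fin (N + 1) → R) (u : Cn N M) : wG G u = ∑ k, G k • eL R k u := by
  funext T
  rw [Finset.sum_apply]
  have h1 : ∀ k, (G k • eL R k u) T =
      if k ∈ T then sg k (T.erase k) • (G k • u (T.erase k)) else 0 := by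
    intro k
    rw [Pi.smul_apply]
    by_cases h : k ∈ T
    · rw [if_pos h, eL_mem u h, smul_comm]
    · rw [if_neg h, eL_not u h, smul_zero]
  simp only [h1]
  rw [Finset.sum_ite, Finset.sum_const_zero, add_zero]
  exact Finset.sum_congr (by ext; simp) fun _ _ => rfl

theorem ie_same (k : Fin (N + 1)) (u : Cn N M) : iK R k (eL R k u) + eL R k (iK R k u) = u := by
  funext T
  rw [Pi.add_apply]
  by_cases h : k ∈ T
  · rw [iK_mem _ h, eL_mem _ h, iK_not _ (Finset.notMem_erase k T), Finset.insert_erase h,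
      smul_smul, sg_sq, one_smul, zero_add]
  · rw [iK_not _ h, eL_not _ h, eL_mem _ (Finset.mem_insert_self k T), Finset.erase_insert h,
      smul_smul, sg_sq, one_smul, add_zero]

theorem ie_ne {k l : Fin (N + 1)} (hkl : k ≠ l) (u : Cn N M) :
    iK R k (eL R l u) + eL R l (iK R k u) = 0 := by
  funext T
  rw [Pi.add_apply, Pi.zero_apply]
  by_cases h : k ∈ T
  · rw [iK_mem _ h, zero_add]
    by_cases h2 : l ∈ T
    · rw [eL_mem _ h2, iK_mem _ (Finset.mem_erase.2 ⟨hkl, h⟩), smul_zero]
    · rw [eL_not _ h2]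
  · rw [iK_not _ h]
    by_cases h2 : l ∈ T
    · have h3 : k ∉ T.erase l := fun h4 => h (Finset.mem_of_mem_erase h4)
      rw [eL_mem _ (Finset.mem_insert_of_mem h2), eL_mem _ h2, iK_not _ h3,
        Finset.erase_insert_of_ne hkl, smul_smul, smul_smul, ← add_smul,
        sg_insert l k _ h3, sg_erase k l T h2]
      have h5 := sn_add hkl
      have h6 : sg k T * (sn k l * sg l (T.erase l)) + sg l (T.erase l) * (sn l k * sg k T) = 0 := by
        linear_combination (sg k T * sg l (T.erase l)) * h5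
      rw [h6, zero_smul]
    · rw [eL_not _ h2, eL_not _ (fun h3 => h2 ((Finset.mem_insert.1 h3).resolve_left (Ne.symm hkl))),
        smul_zero, add_zero]

theorem ii_same (k : Fin (N + 1)) (u : Cn N M) : iK R k (iK R k u) = 0 := by
  funext T
  rw [Pi.zero_apply]
  by_cases h : k ∈ T
  · rw [iK_mem _ h]
  · rw [iK_not _ h, iK_mem _ (Finset.mem_insert_self k T), smul_zero]

theorem ii_ne {k l : Fin (N + 1)} (hkl : k ≠ l) (u : Cn N M) :
    iK R k (iK R l u) + iK R l (iK R k u) = 0 := by
  funext T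
  rw [Pi.add_apply, Pi.zero_apply]
  by_cases h : k ∈ T
  · rw [iK_mem _ h, zero_add]
    by_cases h2 : l ∈ T
    · rw [iK_mem _ h2]
    · rw [iK_not _ h2, iK_mem _ (Finset.mem_insert_of_mem h), smul_zero]
  · rw [iK_not _ h]
    by_cases h2 : l ∈ T
    · rw [iK_mem _ h2, iK_mem _ (Finset.mem_insert_of_mem h2), smul_zero, add_zero]
    · have h3 : l ∉ insert k T := fun h4 => h2 ((Finset.mem_insert.1 h4).resolve_left (Ne.symm hkl))
      have h4 : k ∉ insert l T := fun h5 => h ((Finset.mem_insert.1 h5).resolve_left hkl)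
      rw [iK_not _ h2, iK_not _ h3, iK_not _ h4, smul_smul, smul_smul, Finset.insert_comm,
        ← add_smul, sg_insert l k _ h, sg_insert k l _ h2]
      have h5 := sn_add hkl
      have h6 : sg k T * (sn k l * sg l T) + sg l T * (sn l k * sg k T) = 0 := by
        linear_combination (sg k T * sg l T) * h5
      rw [h6, zero_smul]

theorem ee_same (k : Fin (N + 1)) (u : Cn N M) : eL R k (eL R k u) = 0 := by
  funext T
  rw [Pi.zero_apply]
  by_cases h : k ∈ T
  · rw [eL_mem _ h, eL_not _ (Finset.notMem_erase k T), smul_zero]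
  · rw [eL_not _ h]

theorem ee_ne {k l : Fin (N + 1)} (hkl : k ≠ l) (u : Cn N M) :
    eL R k (eL R l u) + eL R l (eL R k u) = 0 := by
  funext T
  rw [Pi.add_apply, Pi.zero_apply]
  by_cases h : k ∈ T
  · rw [eL_mem _ h]
    by_cases h2 : l ∈ T
    · have h3 : l ∈ T.erase k := Finset.mem_erase.2 ⟨Ne.symm hkl, h2⟩
      have h4 : k ∈ T.erase l := Finset.mem_erase.2 ⟨hkl, h⟩
      have h7 : (T.erase l).erase k = (T.erase k).erase l := Finset.erase_right_comm
      have s1 : sg k (T.erase k) = sg k T := by rw [sg_erase k k T h, sn_self, one_mul]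
      have s2 : sg l (T.erase l) = sg l T := by rw [sg_erase l l T h2, sn_self, one_mul]
      have s3 : sg l ((T.erase k).erase l) = sn k l * sg l T := by
        rw [sg_erase l l _ h3, sn_self, one_mul, sg_erase l k T h]
      have s4 : sg k ((T.erase k).erase l) = sn l k * sg k T := by
        rw [← h7, sg_erase k k _ h4, sn_self, one_mul, sg_erase k l T h2]
      rw [eL_mem _ h2, eL_mem _ h3, eL_mem _ h4, smul_smul, smul_smul, h7, ← add_smul,
        s1, s2, s3, s4]
      have h5 := sn_add hkl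
      have h6 : sg k T * (sn k l * sg l T) + sg l T * (sn l k * sg k T) = 0 := by
        linear_combination (sg k T * sg l T) * h5
      rw [h6, zero_smul]
    · rw [eL_not _ h2, eL_not _ (fun h3 => h2 (Finset.mem_of_mem_erase h3)), smul_zero, add_zero]
  · rw [eL_not _ h, zero_add]
    by_cases h2 : l ∈ T
    · rw [eL_mem _ h2, eL_not _ (fun h3 => h (Finset.mem_of_mem_erase h3)), smul_zero]
    · rw [eL_not _ h2]

/-- An antisymmetric double sum. -/
theorem sum_anti {A : Type} [AddCommGroup A] (a : Fin (N + 1) → Fin (N + 1) → A)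
    (h1 : ∀ k, a k k = 0) (h2 : ∀ k l, k ≠ l → a k l + a l k = 0) : ∑ k, ∑ l, a k l = 0 := by
  rw [← Finset.sum_product']
  refine Finset.sum_involution (fun p _ => (p.2, p.1)) ?_ ?_ ?_ ?_
  · rintro ⟨k, l⟩ _
    by_cases h : k = l
    · subst h
      simp [h1]
    · exact h2 k l h
  · rintro ⟨k, l⟩ _ h3 h4
    have h5 : l = k := congrArg Prod.fst h4
    subst h5
    exact h3 (h1 l)
  · rintro ⟨k, l⟩ _
    simp
  · rintro ⟨k, l⟩ _
    rfl

theorem cc_eq (v v' : Fin (N + 1) → R) (u : Cn N M) :
    cG v (cG v' u) = ∑ k, ∑ l, (v k * v' l) • iK R k (iK R l u) := by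
  rw [cG_eq, cG_eq v' u]
  refine Finset.sum_congr rfl fun k _ => ?_
  rw [map_sum, Finset.smul_sum]
  refine Finset.sum_congr rfl fun l _ => ?_
  rw [map_smul, smul_smul]

theorem ww_eq (v v' : Fin (N + 1) → R) (u : Cn N M) :
    wG v (wG v' u) = ∑ k, ∑ l, (v k * v' l) • eL R k (eL R l u) := by
  rw [wG_eq, wG_eq v' u]
  refine Finset.sum_congr rfl fun k _ => ?_
  rw [map_sum, Finset.smul_sum]
  refine Finset.sum_congr rfl fun l _ => ?_
  rw [map_smul, smul_smul]

theorem cw_eq (v G : Fin (N + 1) → R) (u : Cn N M) :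
    cG v (wG G u) = ∑ k, ∑ l, (v k * G l) • iK R k (eL R l u) := by
  rw [cG_eq, wG_eq G u]
  refine Finset.sum_congr rfl fun k _ => ?_
  rw [map_sum, Finset.smul_sum]
  refine Finset.sum_congr rfl fun l _ => ?_
  rw [map_smul, smul_smul]

theorem wc_eq (v G : Fin (N + 1) → R) (u : Cn N M) :
    wG G (cG v u) = ∑ k, ∑ l, (v k * G l) • eL R l (iK R k u) := by
  rw [wG_eq, cG_eq v u, Finset.sum_comm]
  refine Finset.sum_congr rfl fun l _ => ?_
  rw [map_sum, Finset.smul_sum]
  refine Finset.sum_congr rfl fun k _ => ?_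
  rw [map_smul, smul_smul, mul_comm]

end RCarAux

open RCarAux in
theorem kRCar : S_RCar := by
  intro N R _ M _ _ v v' G G' u
  refine ⟨?_, ?_, ?_, ?_, ?_⟩
  · rw [cw_eq, wc_eq, ← Finset.sum_add_distrib, Finset.sum_smul]
    refine Finset.sum_congr rfl fun k _ => ?_
    rw [← Finset.sum_add_distrib, Finset.sum_eq_single k]
    · rw [← smul_add, ie_same]
    · intro l _ hl
      rw [← smul_add, ie_ne (Ne.symm hl), smul_zero]
    · intro h
      exact absurd (Finset.mem_univ k) h
  · rw [cc_eq, cc_eq, Finset.sum_comm, ← Finset.sum_add_distrib]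
    refine Finset.sum_eq_zero fun k _ => ?_
    rw [← Finset.sum_add_distrib]
    refine Finset.sum_eq_zero fun l _ => ?_
    rw [mul_comm (v' k) (v l), ← smul_add]
    by_cases h : l = k
    · subst h
      rw [ii_same, add_zero, smul_zero]
    · rw [ii_ne h, smul_zero]
  · rw [cc_eq]
    refine sum_anti _ (fun k => by rw [ii_same, smul_zero]) fun k l h => ?_
    rw [mul_comm (v l) (v k), ← smul_add, ii_ne h, smul_zero]
  · rw [ww_eq, ww_eq, Finset.sum_comm, ← Finset.sum_add_distrib]
    refine Finset.sum_eq_zero fun k _ => ?_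
    rw [← Finset.sum_add_distrib]
    refine Finset.sum_eq_zero fun l _ => ?_
    rw [mul_comm (G' k) (G l), ← smul_add]
    by_cases h : l = k
    · subst h
      rw [ee_same, add_zero, smul_zero]
    · rw [ee_ne h, smul_zero]
  · rw [ww_eq]
    refine sum_anti _ (fun k => by rw [ee_same, smul_zero]) fun k l h => ?_
    rw [mul_comm (G l) (G k), ← smul_add, ee_ne h, smul_zero]

end Pool.Agent.Lib.MP_776403_ag.SD
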