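import Pool.Agent.Lib.MP_776403_ag.SD.K.SpecR

/-!
# THEOREM SD, part K: homogeneous components in `ℂ[x, y] / (I(x) + J(y))`
-/

set_option autoImplicit false

open MvPolynomial TensorProduct

noncomputable section

namespace Pool.Agent.Lib.MP_776403_ag.SD

namespace RCmpAux

attribute [local instance] MvPolynomial.gradedAlgebra

/-- The extension of a homogeneous ideal under a renaming of variables is homogeneous. -/
theorem map_hom {N : ℕ} {τ : Type} (f : Fin (N + 1) → τ) (I : Ideal (Sx N)) (hI : IsHom I) :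
    (I.map (rename f : Sx N →ₐ[ℂ] MvPolynomial τ ℂ).toRingHom).IsHomogeneous
      (homogeneousSubmodule τ ℂ) := by
  have h1 : I.map (rename f : Sx N →ₐ[ℂ] MvPolynomial τ ℂ).toRingHom =
      Ideal.span {g : MvPolynomial τ ℂ | ∃ F ∈ I, ∃ m : ℕ,
        g = rename f (homogeneousComponent m F)} := by
    apply le_antisymm
    · refine Ideal.map_le_iff_le_comap.2 fun F hF => ?_
      rw [Ideal.mem_comap]
      change rename f F ∈ _
      rw [← sum_homogeneousComponent F, map_sum]
      exact Ideal.sum_mem _ fun i _ => Ideal.subset_span ⟨F, hF, i, rfl⟩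
    · refine Ideal.span_le.2 ?_
      rintro g ⟨F, hF, m, rfl⟩
      exact Ideal.mem_map_of_mem (rename f : Sx N →ₐ[ℂ] MvPolynomial τ ℂ).toRingHom (hI F hF m)
  rw [h1]
  refine Ideal.homogeneous_span _ _ ?_
  rintro g ⟨F, _, m, rfl⟩
  exact ⟨m, (homogeneousComponent_isHomogeneous m F).rename_isHomogeneous⟩

theorem cc_hom {N : ℕ} (I J : Ideal (Sx N)) (hI : IsHom I) (hJ : IsHom J) :
    (cc I J).IsHomogeneous (homogeneousSubmodule (Fin (N + 1) ⊕ Fin (N + 1)) ℂ) :=
  (map_hom Sum.inl I hI).sup (map_hom Sum.inr J hJ)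

theorem comp_mem {N : ℕ} (I J : Ideal (Sx N)) (hI : IsHom I) (hJ : IsHom J) (F : Rx N)
    (hF : F ∈ cc I J) (e : ℕ) : homogeneousComponent e F ∈ cc I J :=
  homogeneousComponent_mem_of_mem (cc_hom I J hI hJ) hF e

end RCmpAux

theorem kRCmp : S_RCmp := by
  intro N I J hI hJ
  refine ⟨fun e => Submodule.mapQ ((cc I J).restrictScalars ℂ) ((cc I J).restrictScalars ℂ)
    (homogeneousComponent e) (fun F hF => ?_), fun e F => ?_⟩
  · exact RCmpAux.comp_mem I J hI hJ F hF e
  · rfl

end Pool.Agent.Lib.MP_776403_ag.SD
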