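import Pool.Agent.Lib.MP_776403_ag.SD.K.SpecR

/-!
# THEOREM SD, part K, module RDq: difference quotients
-/

set_option autoImplicit false

open MvPolynomial TensorProduct

noncomputable section

namespace Pool.Agent.Lib.MP_776403_ag.SD

namespace RDqAux

variable {N : ℕ}

theorem ix_X (j : Fin (N + 1)) : (ix (X j) : Rx N) = X (Sum.inl j) := by
  unfold ix
  exact rename_X _ _

theorem iy_X (j : Fin (N + 1)) : (iy (X j) : Rx N) = X (Sum.inr j) := by
  unfold iy
  exact rename_X _ _

theorem dgS_inl (j : Fin (N + 1)) : dgS (X (Sum.inl j) : Rx N) = X j := by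
  unfold dgS
  rw [aeval_X]
  rfl

/-- existence -/
theorem ex (F : Sx N) : ∃ q : Fin (N + 1) → Rx N, IsDq F q := by
  induction F using MvPolynomial.induction_on with
  | C a =>
    refine ⟨fun _ => 0, ?_, fun k => ?_⟩
    · have h1 : (ix (C a) : Rx N) = C a := by unfold ix; exact rename_C _ _
      have h2 : (iy (C a) : Rx N) = C a := by unfold iy; exact rename_C _ _
      rw [h1, h2, sub_self]
      simp
    · rw [map_zero, pderiv_C]
  | add F G hF hG =>
    obtain ⟨q, h1, h2⟩ := hF
    obtain ⟨r, h3, h4⟩ := hG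
    refine ⟨fun k => q k + r k, ?_, fun k => ?_⟩
    · rw [map_add, map_add]
      have : ix F + ix G - (iy F + iy G) = (ix F - iy F) + (ix G - iy G) := by ring
      rw [this, h1, h3, ← Finset.sum_add_distrib]
      exact Finset.sum_congr rfl fun k _ => by ring
    · rw [map_add, map_add, h2, h4]
  | mul_X F j hF =>
    obtain ⟨q, h1, h2⟩ := hF
    refine ⟨fun k => X (Sum.inl j) * q k + if j = k then iy F else 0, ?_, fun k => ?_⟩
    · rw [map_mul, map_mul, ix_X, iy_X]
      have e1 : ∑ k, zz k * (X (Sum.inl j) * q k + if j = k then iy F else 0) =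
          X (Sum.inl j) * ∑ k, zz k * q k + zz j * iy F := by
        rw [Finset.mul_sum]
        have : ∀ k, zz k * (X (Sum.inl j) * q k + if j = k then iy F else 0) =
            X (Sum.inl j) * (zz k * q k) + if j = k then zz k * iy F else 0 := by
          intro k
          by_cases hk : j = k
          · rw [if_pos hk, if_pos hk]; ring
          · rw [if_neg hk, if_neg hk]; ring
        rw [Finset.sum_congr rfl fun k _ => this k, Finset.sum_add_distrib]
        rw [Finset.sum_ite_eq Finset.univ j (fun k => zz k * iy F), if_pos (Finset.mem_univ j)]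
      rw [e1, ← h1]
      unfold zz
      ring
    · rw [map_add, map_mul, dgS_inl, h2, Derivation.leibniz, smul_eq_mul, smul_eq_mul]
      by_cases hk : j = k
      · subst hk
        rw [if_pos rfl, dgS_iy, pderiv_X_self]
        ring
      · rw [if_neg hk, map_zero, pderiv_X_of_ne hk]
        ring

/-- homogeneous components and graded maps -/
theorem hc_comm {σ τ : Type} (L : MvPolynomial σ ℂ →ₗ[ℂ] MvPolynomial τ ℂ) (s : ℕ)
    (h : ∀ (i : ℕ) (p : MvPolynomial σ ℂ), p.IsHomogeneous i → (L p).IsHomogeneous (i + s))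
    (n : ℕ) (q : MvPolynomial σ ℂ) :
    homogeneousComponent (n + s) (L q) = L (homogeneousComponent n q) := by
  have key : ∀ i, homogeneousComponent (n + s) (L (homogeneousComponent i q)) =
      if n = i then L (homogeneousComponent i q) else 0 := by
    intro i
    have hi : L (homogeneousComponent i q) ∈ homogeneousSubmodule τ ℂ (i + s) :=
      h i _ (homogeneousComponent_isHomogeneous i q)
    rw [homogeneousComponent_of_mem hi]
    by_cases hn : n = i
    · rw [if_pos hn, if_pos (by rw [hn])]
    · rw [if_neg hn, if_neg (by omega)]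
  have e : L q = ∑ i ∈ Finset.range (q.totalDegree + 1), L (homogeneousComponent i q) := by
    rw [← map_sum, sum_homogeneousComponent]
  rw [e, map_sum, Finset.sum_congr rfl fun i _ => key i, Finset.sum_ite_eq]
  by_cases hn : n ∈ Finset.range (q.totalDegree + 1)
  · rw [if_pos hn]
  · rw [if_neg hn, homogeneousComponent_eq_zero n q (by
      rw [Finset.mem_range] at hn; omega), map_zero]

theorem zz_hom (k : Fin (N + 1)) : (zz k : Rx N).IsHomogeneous 1 :=
  (isHomogeneous_X ℂ _).sub (isHomogeneous_X ℂ _)

theorem dgS_hom (i : ℕ) (p : Rx N) (hp : p.IsHomogeneous i) : (dgS p).IsHomogeneous (i + 0) := by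
  have e : dgS p = rename (Sum.elim id id : Fin (N + 1) ⊕ Fin (N + 1) → Fin (N + 1)) p := by
    have h1 : (dgS : Rx N →ₐ[ℂ] Sx N) =
        rename (Sum.elim id id : Fin (N + 1) ⊕ Fin (N + 1) → Fin (N + 1)) := by
      refine MvPolynomial.algHom_ext fun k => ?_
      rcases k with k | k
      · simp [dgS]
      · simp [dgS]
    rw [h1]
  rw [e, add_zero]
  exact hp.rename_isHomogeneous

theorem hom (F : Sx N) (f : ℕ) (hF : F.IsHomogeneous f) : ∃ q : Fin (N + 1) → Rx N,
    IsDq F q ∧ ∀ k, (q k).IsHomogeneous (f - 1) := by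
  rcases f with _ | f
  · have h1 : F = C (coeff 0 F) :=
      totalDegree_eq_zero_iff_eq_C.1 ((totalDegree_zero_iff_isHomogeneous _).2 hF)
    refine ⟨fun _ => 0, ⟨?_, fun k => ?_⟩, fun k => isHomogeneous_zero _ _ _⟩
    · rw [h1]
      have h2 : (ix (C (coeff 0 F)) : Rx N) = C (coeff 0 F) := by unfold ix; exact rename_C _ _
      have h3 : (iy (C (coeff 0 F)) : Rx N) = C (coeff 0 F) := by unfold iy; exact rename_C _ _
      rw [h2, h3, sub_self]
      simp
    · rw [h1, map_zero, pderiv_C]
  · obtain ⟨q, h1, h2⟩ := ex F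
    refine ⟨fun k => homogeneousComponent f (q k), ⟨?_, fun k => ?_⟩, fun k => ?_⟩
    · have hx : (ix F - iy F : Rx N).IsHomogeneous (f + 1) :=
        IsHomogeneous.sub hF.rename_isHomogeneous hF.rename_isHomogeneous
      have e1 : homogeneousComponent (f + 1) (ix F - iy F : Rx N) = ix F - iy F := by
        rw [homogeneousComponent_of_mem (show _ ∈ homogeneousSubmodule _ ℂ (f + 1) from hx),
          if_pos rfl]
      rw [← e1, h1, map_sum]
      refine Finset.sum_congr rfl fun k _ => ?_
      exact hc_comm (LinearMap.mulLeft ℂ (zz k : Rx N)) 1 (fun i p hp => by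
        rw [LinearMap.mulLeft_apply, Nat.add_comm i 1]
        exact (zz_hom k).mul hp) f (q k)
    · have e2 := hc_comm (dgS : Rx N →ₐ[ℂ] Sx N).toLinearMap 0 (fun i p hp => dgS_hom i p hp) f (q k)
      have e3 : homogeneousComponent (f + 0) (dgS (q k)) = dgS (homogeneousComponent f (q k)) := e2
      rw [← e3, h2 k, add_zero]
      have h4 : (pderiv k F).IsHomogeneous f := by
        have := hF.pderiv (i := k)
        simpa using this
      rw [homogeneousComponent_of_mem (show _ ∈ homogeneousSubmodule _ ℂ f from h4), if_pos rfl]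
    · exact homogeneousComponent_isHomogeneous _ _

end RDqAux

theorem kRDq : S_RDq := fun _ F => ⟨RDqAux.ex F, fun f hF => RDqAux.hom F f hF⟩

end Pool.Agent.Lib.MP_776403_ag.SD
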