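import Pool.Agent.Lib.MP_776403_ag.SD.K.SpecR
import Pool.Agent.Lib.MP_776403_ag.SD.SpecB

set_option autoImplicit false

/-!
# Dual vector fields
-/

open MvPolynomial TensorProduct

noncomputable section

namespace Pool.Agent.Lib.MP_776403_ag.SD

theorem kRDual : S_Minor → S_RDual := by
  intro hM N c F p hli
  obtain ⟨B, hB⟩ := hM (Fin c) (N + 1) (fun i => grad (F i) p) hli
  let A : Matrix (Fin c) (Fin c) (Sx N) := Matrix.of fun i j => pderiv (B j) (F i)
  refine ⟨fun s k => ∑ j, if B j = k then A.adjugate j s else 0, A.det, ?_, ?_⟩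
  · have h : eval p A.det = (Matrix.of fun i j => grad (F i) p (B j)).det := by
      rw [RingHom.map_det]
      rfl
    rw [h]
    exact hB
  · intro s t
    have h1 : ∑ k, (∑ j, if B j = k then A.adjugate j s else 0) * pderiv k (F t) =
        (A * A.adjugate) t s := by
      rw [Matrix.mul_apply]
      simp only [Finset.sum_mul, ite_mul, zero_mul]
      rw [Finset.sum_comm]
      refine Finset.sum_congr rfl fun j _ => ?_
      rw [Finset.sum_ite_eq]
      simp only [Finset.mem_univ, if_true]
      rw [mul_comm]
      rfl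
    rw [h1, Matrix.mul_adjugate, Matrix.smul_apply, Matrix.one_apply, smul_eq_mul, mul_ite, mul_one,
      mul_zero]
    by_cases hst : s = t
    · rw [if_pos hst, if_pos hst.symm]
    · rw [if_neg hst, if_neg (fun h => hst h.symm)]

end Pool.Agent.Lib.MP_776403_ag.SD
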