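import Pool.Agent.Lib.MP_776403_ag.SD.K.SpecR

/-!
# THEOREM SD, part K: passage to a quotient by torsion
-/

set_option autoImplicit false

open MvPolynomial TensorProduct

noncomputable section

namespace Pool.Agent.Lib.MP_776403_ag.SD

namespace RFinAux

theorem lift {N : ℕ} {p : Vx N} {A' A M : Type} [AddCommGroup A'] [Module ℂ A'] [Module (Rx N) A']
    [AddCommGroup A] [Module ℂ A] [Module (Rx N) A] [AddCommGroup M] [Module ℂ M]
    [Module (Sx N) M] {ρ' : A' →ₗ[ℂ] M} {ρ : A →ₗ[ℂ] M} {π : A' →ₗ[Rx N] A}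
    (hsur : Function.Surjective π)
    (htor : ∀ t, π t = 0 → ∃ g, eval p g ≠ 0 ∧ (ix g : Rx N) • t = 0)
    (hcomp : ∀ t, ρ (π t) = ρ' t) (hdg : DgL N ρ') (i : ℕ) (w : Cn N A) (hs : Sup i w)
    (hd : dK w = 0) :
    ∃ (g : Sx N) (w' : Cn N A'), eval p g ≠ 0 ∧ Sup i w' ∧ dK w' = 0 ∧
      mapC π w' = (ix g : Rx N) • w ∧ ∀ T, ρ' (w' T) = g • ρ (w T) := by
  classical
  have h1 : ∀ T, ∃ a, π a = w T ∧ (w T = 0 → a = 0) := by
    intro T
    by_cases h : w T = 0
    · exact ⟨0, by rw [map_zero, h], fun _ => rfl⟩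
    · obtain ⟨a, ha⟩ := hsur (w T)
      exact ⟨a, ha, fun h' => absurd h' h⟩
  choose u hu hu0 using h1
  have h2 : ∀ T, π ((dK u : Cn N A') T) = 0 := by
    intro T
    have h3 : mapC π (dK u) = dK w := by
      rw [← mapC_dK]
      congr 1
      funext S
      exact hu S
    have h4 := congrFun h3 T
    rw [hd] at h4
    exact h4
  choose g hg1 hg2 using fun T => htor _ (h2 T)
  have h5 : ∀ T, (ix (∏ S, g S) : Rx N) • (dK u : Cn N A') T = 0 := by
    intro T
    have h6 : (∏ S, g S) = (∏ S ∈ Finset.univ.erase T, g S) * g T :=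
      (Finset.prod_erase_mul _ _ (Finset.mem_univ T)).symm
    rw [h6, map_mul, mul_smul, hg2, smul_zero]
  refine ⟨∏ S, g S, (ix (∏ S, g S) : Rx N) • u, ?_, ?_, ?_, ?_, ?_⟩
  · rw [map_prod]
    exact Finset.prod_ne_zero_iff.2 fun S _ => hg1 S
  · intro T hT
    rw [Pi.smul_apply, hu0 T (hs T hT), smul_zero]
  · rw [map_smul]
    funext T
    exact h5 T
  · rw [map_smul]
    congr 1
    funext S
    exact hu S
  · intro T
    rw [Pi.smul_apply, hdg, dgS_ix, ← hcomp, hu]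

end RFinAux

theorem kRFin : S_RFin := by
  intro N p A' A M _ _ _ _ _ _ _ _ _ ρ' ρ π hsur htor hcomp hdg
  refine ⟨?_, ?_⟩
  · intro hinj i w hs hd h0
    obtain ⟨g, w', hg, hs', hd', hm, hr⟩ := RFinAux.lift hsur htor hcomp hdg i w hs hd
    obtain ⟨g', v, hg', hv, hdv⟩ := hinj i w' hs' hd' fun T => by rw [hr, h0, smul_zero]
    refine ⟨g' * g, mapC π v, ?_, ?_, ?_⟩
    · rw [map_mul]
      exact mul_ne_zero hg' hg
    · intro T hT
      change π (v T) = 0
      rw [hv T hT, map_zero]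
    · rw [mapC_dK, hdv, map_smul, hm, map_mul, mul_smul]
  · intro κ G himg i w hs hd
    obtain ⟨g, w', hg, hs', hd', hm, hr⟩ := RFinAux.lift hsur htor hcomp hdg i w hs hd
    obtain ⟨g', hg', hw⟩ := himg i w' hs' hd'
    refine ⟨g' * g, ?_, ?_⟩
    · rw [map_mul]
      exact mul_ne_zero hg' hg
    · have h1 : (fun T => (g' * g) • ρ (w T)) = fun T => g' • ρ' (w' T) := by
        funext T
        rw [hr, mul_smul]
      rw [h1]
      exact hw

end Pool.Agent.Lib.MP_776403_ag.SD
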