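import Pool.Agent.Lib.MP_776403_ag.SD.K.SpecS

/-!
# THEOREM SD, part K, module RI: restriction to the diagonal is an isomorphism in large degrees
-/

set_option autoImplicit false

open MvPolynomial TensorProduct

noncomputable section

namespace Pool.Agent.Lib.MP_776403_ag.SD

namespace RIAux

variable {N : ℕ}

section Gen

variable {M : Type} [AddCommGroup M] [Module (Rx N) M] [Module ℂ M] [IsScalarTower ℂ (Rx N) M]

omit [IsScalarTower ℂ (Rx N) M] in
theorem gf_mon {A : ℕ → Submodule ℂ M} (hA : GF N A) (s : (Fin (N + 1) ⊕ Fin (N + 1)) →₀ ℕ) :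
    ∀ (m : ℕ) (w : M), w ∈ A m → (monomial s (1 : ℂ) : Rx N) • w ∈ A (m + s.degree) := by
  induction s using Finsupp.induction_linear with
  | zero =>
    intro m w hw
    rw [monomial_zero', map_one, one_smul]
    simpa using hw
  | add s t hs ht =>
    intro m w hw
    have e : (monomial (s + t) (1 : ℂ) : Rx N) • w =
        (monomial t (1 : ℂ) : Rx N) • (monomial s (1 : ℂ) : Rx N) • w := by
      rw [smul_smul, monomial_mul, one_mul, add_comm t s]
    rw [e, map_add, ← add_assoc]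
    exact ht _ _ (hs _ _ hw)
  | single i n =>
    intro m w hw
    have h0 : ∀ n : ℕ, (X i : Rx N) ^ n • w ∈ A (m + n) := by
      intro n
      induction n with
      | zero => simpa using hw
      | succ n ih =>
        rw [pow_succ', mul_smul]
        exact hA _ i (Finset.mem_univ _) _ ih
    have e : (monomial (Finsupp.single i n) (1 : ℂ) : Rx N) = (X i : Rx N) ^ n := by
      rw [X_pow_eq_monomial]
    rw [e]
    have e2 : (Finsupp.single i n).degree = n := by simp
    rw [e2]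
    exact h0 n

theorem gf_hom {A : ℕ → Submodule ℂ M} (hA : GF N A) {r : Rx N} {e : ℕ}
    (hr : r.IsHomogeneous e) {m : ℕ} {w : M} (hw : w ∈ A m) : r • w ∈ A (m + e) := by
  have h1 : r • w = ∑ s ∈ r.support, (coeff s r) • ((monomial s (1 : ℂ) : Rx N) • w) := by
    conv_lhs => rw [r.as_sum]
    rw [Finset.sum_smul]
    refine Finset.sum_congr rfl fun s _ => ?_
    rw [← smul_assoc, smul_monomial, smul_eq_mul, mul_one]
  rw [h1]
  refine Submodule.sum_mem _ fun s hs => Submodule.smul_mem _ _ ?_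
  have h2 : s.degree = e := by
    have := hr (mem_support_iff.1 hs)
    rw [← this, Finsupp.degree_eq_weight_one]
    rfl
  rw [← h2]
  exact gf_mon hA s m w hw

theorem unif {V U : ℕ → Submodule ℂ M} (hV : GF N V) (hU : FG N (fun _ => ⊥) U)
    (hfd : ∀ m, FiniteDimensional ℂ (U m)) (p : Vx N) (i0 : ℕ)
    (h : ∀ m, i0 ≤ m → ∀ w ∈ U m, ∃ (D : Sx N) (δ : ℕ), D.IsHomogeneous δ ∧ eval p D ≠ 0 ∧
      (ix D : Rx N) • w ∈ V (m + δ)) :
    ∃ (g : Sx N) (e m1 : ℕ), g.IsHomogeneous e ∧ eval p g ≠ 0 ∧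
      ∀ m, m1 ≤ m → ∀ w ∈ U m, (ix g : Rx N) • w ∈ V (m + e) := by
  classical
  obtain ⟨m0, hm0⟩ := hU
  have hix : ∀ {D : Sx N} {δ : ℕ}, D.IsHomogeneous δ → (ix D : Rx N).IsHomogeneous δ :=
    fun hD => hD.rename_isHomogeneous
  have hfin : ∀ S : Finset M, (∀ w ∈ S, w ∈ U (max m0 i0)) →
      ∃ (g : Sx N) (e : ℕ), g.IsHomogeneous e ∧ eval p g ≠ 0 ∧
        ∀ w ∈ S, (ix g : Rx N) • w ∈ V (max m0 i0 + e) := by
    intro S
    induction S using Finset.induction_on with
    | empty =>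
      intro _
      exact ⟨1, 0, isHomogeneous_one _ _, by simp, by simp⟩
    | insert w S hw ih =>
      intro hS
      obtain ⟨g, e, hg, hgp, hgS⟩ := ih fun w' hw' => hS w' (Finset.mem_insert_of_mem hw')
      obtain ⟨D, δ, hD, hDp, hDw⟩ := h _ (le_max_right m0 i0) w (hS w (Finset.mem_insert_self w S))
      refine ⟨g * D, e + δ, hg.mul hD, by rw [map_mul]; exact mul_ne_zero hgp hDp, ?_⟩
      intro w' hw'
      rcases Finset.mem_insert.1 hw' with rfl | hw'
      · have e1 : (ix (g * D) : Rx N) • w' = (ix g : Rx N) • (ix D : Rx N) • w' := by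
          rw [map_mul, mul_smul]
        rw [e1]
        have e2 : max m0 i0 + (e + δ) = max m0 i0 + δ + e := by ring
        rw [e2]
        exact gf_hom hV (hix hg) hDw
      · have e1 : (ix (g * D) : Rx N) • w' = (ix D : Rx N) • (ix g : Rx N) • w' := by
          rw [mul_comm, map_mul, mul_smul]
        rw [e1]
        have e2 : max m0 i0 + (e + δ) = max m0 i0 + e + δ := by ring
        rw [e2]
        exact gf_hom hV (hix hD) (hgS w' hw')
  obtain ⟨S, hS⟩ := (Module.Finite.iff_fg (N := U (max m0 i0))).1 (hfd _)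
  obtain ⟨g, e, hg, hgp, hgS⟩ := hfin S fun w hw => by
    rw [← hS]
    exact Submodule.subset_span hw
  refine ⟨g, e, max m0 i0, hg, hgp, ?_⟩
  intro m hm
  induction m, hm using Nat.le_induction with
  | base =>
    intro w hw
    rw [← hS] at hw
    induction hw using Submodule.span_induction with
    | mem x hx => exact hgS x hx
    | zero => rw [smul_zero]; exact Submodule.zero_mem _
    | add x y _ _ hx hy => rw [smul_add]; exact Submodule.add_mem _ hx hy
    | smul a x _ hx =>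
      rw [smul_comm]
      exact Submodule.smul_mem _ _ hx
  | succ m hm ih =>
    intro w hw
    have h1 : w ∈ XU (Finset.univ : Finset (Fin (N + 1) ⊕ Fin (N + 1))) U m := by
      have := hm0 m (le_trans (le_max_left _ _) hm) hw
      rwa [bot_sup_eq] at this
    unfold XU at h1
    clear hw
    induction h1 using Submodule.span_induction with
    | mem x hx =>
      obtain ⟨j, _, u, hu, rfl⟩ := hx
      rw [smul_comm]
      have e2 : m + 1 + e = m + e + 1 := by ring
      rw [e2]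
      exact hV _ j (Finset.mem_univ _) _ (ih u hu)
    | zero => rw [smul_zero]; exact Submodule.zero_mem _
    | add x y _ _ hx hy => rw [smul_add]; exact Submodule.add_mem _ hx hy
    | smul a x _ hx =>
      rw [smul_comm]
      exact Submodule.smul_mem _ _ hx

end Gen

section Rho

variable {I J : Ideal (Sx N)}

theorem dg_smul (h : I ≤ J) (r : Rx N) (c : CR I J) :
    dg h (r • c) = (dgS r : Sx N) • dg h c := by
  have e1 : r • c = Ideal.Quotient.mk (cc I J) r * c := rfl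
  have e2 : dg h (Ideal.Quotient.mk (cc I J) r) = Ideal.Quotient.mk J (dgS r) := rfl
  rw [e1, map_mul, e2]
  rfl

theorem rho_smul (h : I ≤ J) (γ : Type) (r : Rx N) (w : Cn N (γ → CR I J)) :
    rho h γ (r • w) = (dgS r : Sx N) • rho h γ w := by
  funext p
  exact dg_smul h r (w p.2 p.1)

theorem dgS_zz (k : Fin (N + 1)) : dgS (zz k : Rx N) = 0 := by
  simp [dgS, zz]

theorem rho_dK (h : I ≤ J) (γ : Type) (v : Cn N (γ → CR I J)) : rho h γ (dK v) = 0 := by
  funext p
  change dg h ((∑ k ∈ p.2ᶜ, sg k p.2 • ((zz k : Rx N) • v (insert k p.2))) p.1) = 0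
  rw [Finset.sum_apply, map_sum]
  refine Finset.sum_eq_zero fun k _ => ?_
  rw [Pi.smul_apply, map_zsmul, Pi.smul_apply, dg_smul, dgS_zz, zero_smul, smul_zero]

theorem iy_kill {F : Sx N} (hF : F ∈ J) {γ : Type} (w : Cn N (γ → CR I J)) :
    (iy F : Rx N) • w = 0 := by
  funext T
  funext p
  change (iy F : Rx N) • w T p = 0
  have e1 : (iy F : Rx N) • w T p = Ideal.Quotient.mk (cc I J) (iy F) * w T p := rfl
  have e2 : Ideal.Quotient.mk (cc I J) (iy F) = 0 := Ideal.Quotient.eq_zero_iff_mem.2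
    (Ideal.mem_sup_right (Ideal.mem_map_of_mem (iy : Sx N →ₐ[ℂ] Rx N).toRingHom hF))
  rw [e1, e2, zero_mul]

theorem red_smul {γ : Type} {P : ℕ → Submodule ℂ (γ → Sx N)} (hP : GV P) (i : Fin (N + 1))
    {k : ℕ} {x : γ → Sx N ⧸ J} (hx : x ∈ (P k).map (redL γ J)) :
    (X i : Sx N) • x ∈ (P (k + 1)).map (redL γ J) := by
  obtain ⟨v, hv, rfl⟩ := hx
  refine ⟨fun a => (X i : Sx N) * v a, hP.mul _ _ hv i, ?_⟩
  funext a
  change Ideal.Quotient.mk J ((X i : Sx N) * v a) = (X i : Sx N) • Ideal.Quotient.mk J (v a)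
  rw [map_mul]
  rfl

end Rho

end RIAux

open RIAux in
theorem kRI : S_RLocV → S_RSur → S_RDq → S_KNoe → S_KFam → S_KGV → S_KGF → S_KLoc → S_RIa := by
  intro hLV hSur hDq hNoe hFam hGV hGF hLoc N c α β _ _ I J h V W hI hJ hS hV hW hL i
  obtain ⟨hA, hAfd, hAfg⟩ := hGF N α β I J V W hV hW
  obtain ⟨⟨gK, gZ, gB⟩, hle, ⟨fK, fZ, fB⟩, hz⟩ :=
    hFam N (α × β → CR I J) (TPf I J V W) hA hAfd hAfg i
  have hP : GV (PV (PV V W) (VT I i)) :=
    hGV.2.1 N _ _ _ _ (hGV.2.1 N _ _ _ _ hV hW) (hGV.2.2.1 N I i).2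
  have hB0 : ∀ m, ∀ w ∈ Bc N (TPf I J V W) i m, rho h (α × β) w = 0 := by
    rintro m w ⟨v, _, rfl⟩
    exact rho_dK h (α × β) v
  have hdX : ∀ j : Fin (N + 1) ⊕ Fin (N + 1), ∃ k : Fin (N + 1), dgS (X j : Rx N) = X k := by
    rintro (k | k)
    · exact ⟨k, by simp [dgS]⟩
    · exact ⟨k, by simp [dgS]⟩
  -- the first family
  let U1 : ℕ → Submodule ℂ (Cn N (α × β → CR I J)) := fun m =>
    Zc N (TPf I J V W) i m ⊓ LinearMap.ker (rho h (α × β))
  have gU1 : GF N U1 := by
    intro m j hj w hw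
    refine ⟨gZ m j hj w hw.1, ?_⟩
    have h2 : rho h (α × β) w = 0 := hw.2
    change rho h (α × β) ((X j : Rx N) • w) = 0
    rw [rho_smul, h2, smul_zero]
  have fdZ : ∀ m, FiniteDimensional ℂ (Zc N (TPf I J V W) i m) := fun m => by
    have := (hle m).2.2
    exact Submodule.finiteDimensional_of_le (hle m).2.1
  have fdU1 : ∀ m, FiniteDimensional ℂ (U1 m) := fun m => by
    have := fdZ m
    exact Submodule.finiteDimensional_of_le (inf_le_left)
  have gbot : GF N (fun _ => (⊥ : Submodule ℂ (Cn N (α × β → CR I J)))) := by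
    intro m j _ w hw
    rw [Submodule.mem_bot] at hw ⊢
    rw [hw, smul_zero]
  have fU1 : FG N (fun _ => ⊥) U1 :=
    hNoe _ (Cn N (α × β → CR I J)) Finset.univ (fun _ => ⊥) U1 (Zc N (TPf I J V W) i) gbot gU1 gZ
      (fun _ => bot_le) (fun _ => inf_le_left) fdZ fZ
  -- the second family
  have hlt : ∀ m, m < i → ∀ w ∈ Zc N (TPf I J V W) i m, w = 0 := by
    intro m hm w hw
    funext T
    exact (hw.1 T).2 (Or.inr hm)
  let V2 : ℕ → Submodule ℂ (Cn N (α × β → CR I J)) := fun m =>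
    Zc N (TPf I J V W) i m ⊓ ((PV (PV V W) (VT I i) (m - i)).map
      (redL ((α × β) × Finset (Fin (N + 1))) J)).comap (rho h (α × β))
  have gV2 : GF N V2 := by
    intro m j hj w hw
    refine ⟨gZ m j hj w hw.1, ?_⟩
    change rho h (α × β) ((X j : Rx N) • w) ∈ (PV (PV V W) (VT I i) (m + 1 - i)).map
      (redL ((α × β) × Finset (Fin (N + 1))) J)
    rw [rho_smul]
    obtain ⟨k, hk⟩ := hdX j
    rcases lt_or_ge m i with hm | hm
    · rw [hlt m hm w hw.1, map_zero, smul_zero]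
      exact Submodule.zero_mem _
    · rw [hk]
      have e1 : m + 1 - i = m - i + 1 := by omega
      rw [e1]
      exact red_smul hP k hw.2
  have hBV2 : ∀ m, Bc N (TPf I J V W) i m ≤ V2 m := by
    intro m w hw
    refine ⟨(hle m).1 hw, ?_⟩
    change rho h (α × β) w ∈ (PV (PV V W) (VT I i) (m - i)).map
      (redL ((α × β) × Finset (Fin (N + 1))) J)
    rw [hB0 m w hw]
    exact Submodule.zero_mem _
  -- differences
  have hdiff : ∀ (D : Sx N) (δ : ℕ), D.IsHomogeneous δ → ∀ m, ∀ w ∈ Zc N (TPf I J V W) i m,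
      (ix D - iy D : Rx N) • w ∈ Bc N (TPf I J V W) i (m + δ) := by
    intro D δ hD m w hw
    obtain ⟨q, ⟨hq1, _⟩, hq2⟩ := (hDq N D).2 δ hD
    rcases Nat.eq_zero_or_pos δ with h0 | h0
    · subst h0
      obtain ⟨a, ha⟩ : ∃ a, D = C a := ⟨_, totalDegree_eq_zero_iff_eq_C.1 (Nat.le_zero.1 hD.totalDegree_le)⟩
      have e1 : (ix D - iy D : Rx N) = 0 := by
        rw [ha]
        simp [ix, iy]
      rw [e1, zero_smul]
      exact Submodule.zero_mem _
    · rw [hq1, Finset.sum_smul]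
      refine Submodule.sum_mem _ fun k _ => ?_
      rw [mul_smul]
      have e1 : m + δ = m + (δ - 1) + 1 := by omega
      rw [e1]
      exact hz k _ _ (gf_hom gZ (hq2 k) hw)
  have hconv : ∀ (Y : ℕ → Submodule ℂ (Cn N (α × β → CR I J)))
      (U : ℕ → Submodule ℂ (Cn N (α × β → CR I J))),
      (∀ m, U m ≤ Zc N (TPf I J V W) i m) → (∀ m, Bc N (TPf I J V W) i m ≤ Y m) →
      ∀ p : Vx N, (∃ (g : Sx N) (e m1 : ℕ), g.IsHomogeneous e ∧ eval p g ≠ 0 ∧
        ∀ m, m1 ≤ m → ∀ w ∈ U m, (ix g : Rx N) • w ∈ Y (m + e)) →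
      ∃ (g : Sx N) (e m1 : ℕ), g.IsHomogeneous e ∧ eval p g ≠ 0 ∧
        ∀ m, m1 ≤ m → ∀ w ∈ U m, (iy g : Rx N) • w ∈ Y (m + e) := by
    rintro Y U hU hY p ⟨g, e, m1, hg, hgp, H⟩
    refine ⟨g, e, m1, hg, hgp, fun m hm w hw => ?_⟩
    have e1 : (iy g : Rx N) • w = (ix g : Rx N) • w - (ix g - iy g : Rx N) • w := by
      rw [sub_smul]
      abel
    rw [e1]
    exact Submodule.sub_mem _ (H m hm w hw) (hY _ (hdiff g e hg m w (hU m hw)))
  obtain ⟨m1, hm1⟩ := hLoc N J hJ (Cn N (α × β → CR I J)) (Bc N (TPf I J V W) i) U1 gB gU1 fU1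
    ⟨0, fun k m _ w hw => hz k m w hw.1⟩
    ⟨0, fun F hF e _ m _ w _ => by rw [iy_kill hF]; exact Submodule.zero_mem _⟩
    (fun p hp hp0 => hconv _ _ (fun m => inf_le_left) (fun m => le_rfl) p
      (unif gB fU1 fdU1 p i fun m hm w hw => by
        obtain ⟨D, δ, hD, hDp, h1, _⟩ := hLV N c α β I J h V W hI hJ hS hV hW hL p hp hp0 i m hm w hw.1
        exact ⟨D, δ, hD, hDp, h1 (LinearMap.mem_ker.1 hw.2)⟩))
  obtain ⟨m2, hm2⟩ := hLoc N J hJ (Cn N (α × β → CR I J)) V2 (Zc N (TPf I J V W) i) gV2 gZ fZ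
    ⟨0, fun k m _ w hw => hBV2 _ (hz k m w hw)⟩
    ⟨0, fun F hF e _ m _ w _ => by rw [iy_kill hF]; exact Submodule.zero_mem _⟩
    (fun p hp hp0 => hconv _ _ (fun m => le_rfl) hBV2 p
      (unif gV2 fZ fdZ p i fun m hm w hw => by
        obtain ⟨D, δ, hD, hDp, _, h1⟩ := hLV N c α β I J h V W hI hJ hS hV hW hL p hp hp0 i m hm w hw
        refine ⟨D, δ, hD, hDp, gf_hom gZ (hD.rename_isHomogeneous) hw, ?_⟩
        have e1 : m + δ - i = m - i + δ := by omega
        change rho h (α × β) ((ix D : Rx N) • w) ∈ (PV (PV V W) (VT I i) (m + δ - i)).map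
          (redL ((α × β) × Finset (Fin (N + 1))) J)
        rw [rho_smul, dgS_ix, e1]
        exact h1))
  refine ⟨max (max m1 m2) i, fun m hm => ⟨fun w hw hw0 => ?_, le_antisymm ?_ ?_, hB0 m⟩⟩
  · exact hm1 m (le_trans (le_trans (le_max_left _ _) (le_max_left _ _)) hm)
      ⟨hw, LinearMap.mem_ker.2 hw0⟩
  · rintro _ ⟨w, hw, rfl⟩
    exact (hm2 m (le_trans (le_trans (le_max_right _ _) (le_max_left _ _)) hm) hw).2
  · exact hSur N α β I J h V W hV hW i m (le_trans (le_max_right _ _) hm)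

end Pool.Agent.Lib.MP_776403_ag.SD
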