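import Pool.Agent.Lib.MP_776403_ag.SD.K.SpecR

/-!
# THEOREM SD, part K: (RLap), iterated exterior products are minors (note 4445)
-/

set_option autoImplicit false

open MvPolynomial TensorProduct

noncomputable section

namespace Pool.Agent.Lib.MP_776403_ag.SD

namespace RLapAux

variable {N : ℕ}

private theorem sum_emb {M : Type} [AddCommMonoid M] (T : Finset (Fin (N + 1))) {i : ℕ}
    (h : T.card = i) (f : Fin (N + 1) → M) :
    ∑ k ∈ T, f k = ∑ j : Fin i, f (T.orderEmbOfFin h j) := by
  have h1 := Finset.sum_map Finset.univ (T.orderEmbOfFin h).toEmbedding f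
  rw [Finset.map_orderEmbOfFin_univ] at h1
  exact h1

private theorem sg_emb (T : Finset (Fin (N + 1))) {i : ℕ} (h : T.card = i) (j : Fin i) :
    sg (T.orderEmbOfFin h j) (T.erase (T.orderEmbOfFin h j)) = (-1) ^ (j : ℕ) := by
  unfold sg
  congr 1
  have h1 : (T.erase (T.orderEmbOfFin h j)).filter (· < T.orderEmbOfFin h j) =
      (Finset.Iio j).map (T.orderEmbOfFin h).toEmbedding := by
    ext k
    simp only [Finset.mem_filter, Finset.mem_erase, Finset.mem_map, Finset.mem_Iio]
    constructor
    · rintro ⟨⟨_, hkT⟩, hk⟩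
      have h2 : k ∈ Set.range (T.orderEmbOfFin h) := by
        rw [Finset.range_orderEmbOfFin]
        exact hkT
      obtain ⟨a, rfl⟩ := h2
      exact ⟨a, (T.orderEmbOfFin h).lt_iff_lt.1 hk, rfl⟩
    · rintro ⟨a, ha, rfl⟩
      have h2 : T.orderEmbOfFin h a < T.orderEmbOfFin h j := (T.orderEmbOfFin h).lt_iff_lt.2 ha
      exact ⟨⟨ne_of_lt h2, Finset.orderEmbOfFin_mem T h a⟩, h2⟩
  rw [h1, Finset.card_map, Fin.card_Iio]

private theorem erase_emb (T : Finset (Fin (N + 1))) {i : ℕ} (h : T.card = i + 1)
    (j : Fin (i + 1)) (h' : (T.erase (T.orderEmbOfFin h j)).card = i) (k : Fin i) :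
    (T.erase (T.orderEmbOfFin h j)).orderEmbOfFin h' k = T.orderEmbOfFin h (j.succAbove k) := by
  have h1 : (fun k => T.orderEmbOfFin h (j.succAbove k)) =
      (T.erase (T.orderEmbOfFin h j)).orderEmbOfFin h' := by
    refine Finset.orderEmbOfFin_unique h' (fun x => ?_) ?_
    · refine Finset.mem_erase.2 ⟨fun h2 => ?_, Finset.orderEmbOfFin_mem T h _⟩
      exact Fin.succAbove_ne j x ((T.orderEmbOfFin h).injective h2)
    · intro a b hab
      exact (T.orderEmbOfFin h).lt_iff_lt.2 (Fin.strictMono_succAbove j hab)
  exact (congrFun h1 k).symm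

end RLapAux

open RLapAux

theorem kRLap : S_RLap := by
  intro N R _ M _ _ i
  induction i with
  | zero =>
    intro G m
    funext T
    simp only [List.ofFn_zero, List.foldr_nil, Finset.card_eq_zero]
    by_cases h : T = ∅
    · simp [h]
    · simp [h]
  | succ i ih =>
    intro G m
    rw [List.ofFn_succ, List.foldr_cons, ih (fun l => G l.succ) m]
    funext T
    change ∑ k ∈ T, sg k (T.erase k) • (G 0 k • (if h : (T.erase k).card = i then
        (Matrix.det (Matrix.of fun l k' => G (Fin.succ l) ((T.erase k).orderEmbOfFin h k'))) • m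
          else 0)) = _
    by_cases h : T.card = i + 1
    · rw [dif_pos h, sum_emb T h, Matrix.det_succ_row_zero, Finset.sum_smul]
      refine Finset.sum_congr rfl fun j _ => ?_
      have h' : (T.erase (T.orderEmbOfFin h j)).card = i := by
        rw [Finset.card_erase_of_mem (Finset.orderEmbOfFin_mem T h j), h, Nat.add_sub_cancel]
      rw [dif_pos h', sg_emb T h j]
      have h3 : (Matrix.of fun l k' => G (Fin.succ l)
          ((T.erase (T.orderEmbOfFin h j)).orderEmbOfFin h' k')) =
          (Matrix.of fun l k => G l (T.orderEmbOfFin h k)).submatrix Fin.succ j.succAbove := by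
        ext l k
        simp only [Matrix.of_apply, Matrix.submatrix_apply]
        rw [erase_emb T h j h' k]
      rw [h3, mul_assoc, mul_smul, mul_smul, Matrix.of_apply]
      rw [← Int.cast_smul_eq_zsmul R]
      simp only [Int.cast_pow, Int.cast_neg, Int.cast_one]
    · rw [dif_neg h]
      refine Finset.sum_eq_zero fun k hk => ?_
      have h' : ¬ (T.erase k).card = i := by
        intro h2
        apply h
        rw [← Finset.card_erase_add_one hk, h2]
      rw [dif_neg h', smul_zero, smul_zero]

end Pool.Agent.Lib.MP_776403_ag.SD
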