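import Pool.Agent.Lib.MP_776403_ag.SD.K.SpecR

/-!
# THEOREM SD, part K, (RLead): syzygies of functions with independent differentials, up to high order
-/

set_option autoImplicit false

open MvPolynomial TensorProduct

noncomputable section

namespace Pool.Agent.Lib.MP_776403_ag.SD

namespace RLeadAux

variable {N : ℕ}

/-- The translation `X_k ↦ X_k + p_k`. -/
def tau (p : Vx N) : Sx N →ₐ[ℂ] Sx N := aeval fun k => (X k : Sx N) + C (p k)

/-- The translation `X_k ↦ X_k - p_k`. -/
def sig (p : Vx N) : Sx N →ₐ[ℂ] Sx N := aeval fun k => (X k : Sx N) - C (p k)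

theorem tau_X (p : Vx N) (k : Fin (N + 1)) : tau p (X k) = X k + C (p k) := by
  unfold tau; rw [aeval_X]

theorem sig_X (p : Vx N) (k : Fin (N + 1)) : sig p (X k) = X k - C (p k) := by
  unfold sig; rw [aeval_X]

theorem alg_C (f : Sx N →ₐ[ℂ] Sx N) (c : ℂ) : f (C c) = C c := by
  exact f.commutes c

theorem sig_tau (p : Vx N) (G : Sx N) : sig p (tau p G) = G := by
  have h : (sig p).comp (tau p) = AlgHom.id ℂ (Sx N) := by
    refine MvPolynomial.algHom_ext fun k => ?_
    rw [AlgHom.comp_apply, tau_X, map_add, sig_X, alg_C, AlgHom.id_apply]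
    ring
  exact DFunLike.congr_fun h G

theorem tau_sig (p : Vx N) (G : Sx N) : tau p (sig p G) = G := by
  have h : (tau p).comp (sig p) = AlgHom.id ℂ (Sx N) := by
    refine MvPolynomial.algHom_ext fun k => ?_
    rw [AlgHom.comp_apply, sig_X, map_sub, tau_X, alg_C, AlgHom.id_apply]
    ring
  exact DFunLike.congr_fun h G

theorem cc_tau (p : Vx N) (G : Sx N) : coeff 0 (tau p G) = eval p G := by
  induction G using MvPolynomial.induction_on with
  | C a => rw [alg_C]; simp
  | add f g hf hg => rw [map_add, coeff_add, hf, hg, map_add]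
  | mul_X f k hf =>
    rw [map_mul, map_mul, tau_X]
    have h1 := map_mul (constantCoeff : Sx N →+* ℂ) (tau p f) (X k + C (p k))
    simp only [constantCoeff_eq] at h1
    rw [h1, hf]
    simp

theorem pd_tau (p : Vx N) (k : Fin (N + 1)) (G : Sx N) :
    pderiv k (tau p G) = tau p (pderiv k G) := by
  induction G using MvPolynomial.induction_on with
  | C a => rw [alg_C]; simp
  | add f g hf hg => rw [map_add, map_add, hf, hg, map_add, map_add]
  | mul_X f j hf =>
    rw [map_mul, tau_X, Derivation.leibniz, Derivation.leibniz, hf, map_add, map_add]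
    simp only [smul_eq_mul, pderiv_C, add_zero, pderiv_X]
    rw [map_mul, map_mul, tau_X]
    congr 1
    by_cases hjk : k = j
    · subst hjk; simp
    · simp [Ne.symm hjk]

theorem lin_tau (p : Vx N) (k : Fin (N + 1)) (G : Sx N) :
    coeff (Finsupp.single k 1) (tau p G) = grad G p k := by
  have h1 : coeff 0 (pderiv k (tau p G)) = coeff (Finsupp.single k 1) (tau p G) := by
    rw [coeff_pderiv]; simp
  rw [← h1, pd_tau, cc_tau]
  rfl

/-- The ideal of the variables. -/
abbrev nn (N : ℕ) : Ideal (Sx N) := idealOfVars (Fin (N + 1)) ℂ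

theorem deg_of {H : Sx N} {m : ℕ} (h : H.IsHomogeneous m) {x : Fin (N + 1) →₀ ℕ}
    (hx : coeff x H ≠ 0) : Finsupp.degree x = m := by
  have h1 := h hx
  have h2 : Finsupp.degree x = Finsupp.weight 1 x :=
    DFunLike.congr_fun (Finsupp.degree_eq_weight_one (σ := Fin (N + 1)) (R := ℕ)) x
  rw [h2, h1]

theorem hom_mem {H : Sx N} {m : ℕ} (h : H.IsHomogeneous m) : H ∈ nn N ^ m := by
  rw [mem_pow_idealOfVars_iff]
  intro x hx
  exact (deg_of h (mem_support_iff.1 hx)).ge

theorem sub_hc {G : Sx N} {m : ℕ} (h : G ∈ nn N ^ m) :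
    G - homogeneousComponent m G ∈ nn N ^ (m + 1) := by
  rw [mem_pow_idealOfVars_iff'] at h ⊢
  intro x hx
  rw [coeff_sub, coeff_homogeneousComponent]
  by_cases h1 : Finsupp.degree x = m
  · rw [if_pos h1, sub_self]
  · rw [if_neg h1, sub_zero]
    exact h x (by omega)

theorem hom_zero {H : Sx N} {m : ℕ} (h : H.IsHomogeneous m) (h' : H ∈ nn N ^ (m + 1)) :
    H = 0 := by
  rw [mem_pow_idealOfVars_iff'] at h'
  ext x
  rw [coeff_zero]
  by_cases h1 : Finsupp.degree x = m
  · exact h' x (by omega)
  · by_contra h2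
    exact h1 (deg_of h h2)

theorem mem_one {G : Sx N} (h : coeff 0 G = 0) : G ∈ nn N ^ 1 := by
  rw [mem_pow_idealOfVars_iff']
  intro x hx
  have : x = 0 := by
    have h1 : Finsupp.degree x = 0 := by omega
    exact (Finsupp.degree_eq_zero_iff x).1 h1
  rw [this, h]

theorem sig_mem (p : Vx N) (k : ℕ) {G : Sx N} (h : G ∈ nn N ^ k) :
    sig p G ∈ (RingHom.ker (eval p : Sx N →+* ℂ)) ^ k := by
  have h1 : (nn N).map (sig p).toRingHom ≤ RingHom.ker (eval p : Sx N →+* ℂ) := by
    rw [Ideal.map_le_iff_le_comap]
    refine Ideal.span_le.2 ?_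
    rintro _ ⟨i, rfl⟩
    change sig p (X i) ∈ RingHom.ker (eval p : Sx N →+* ℂ)
    rw [sig_X, RingHom.mem_ker]
    simp
  have h2 : (sig p).toRingHom G ∈ ((nn N) ^ k).map (sig p).toRingHom :=
    Ideal.mem_map_of_mem _ h
  rw [Ideal.map_pow] at h2
  exact Ideal.pow_right_mono h1 k h2

theorem anti_sum {n : ℕ} (e : Fin n → Fin n → Sx N) (F : Fin n → Sx N)
    (he : ∀ i j, e i j = - e j i) : ∑ i, (∑ j, e i j * F j) * F i = 0 := by
  have h1 : ∑ i, (∑ j, e i j * F j) * F i = - ∑ i, (∑ j, e i j * F j) * F i := by
    conv_lhs => simp only [Finset.sum_mul]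
    rw [Finset.sum_comm, ← Finset.sum_neg_distrib]
    refine Finset.sum_congr rfl fun j _ => ?_
    rw [Finset.sum_mul, ← Finset.sum_neg_distrib]
    refine Finset.sum_congr rfl fun i _ => ?_
    rw [he i j]
    ring
  exact self_eq_neg.1 h1

end RLeadAux

open RLeadAux in
theorem kRLead : S_RSyz → S_RLead := by
  intro hSyz N n F p hF hlin a ha
  set B : Fin n → Sx N := fun i => tau p (F i) with hB
  set l : Fin n → Sx N := fun i => homogeneousComponent 1 (B i) with hl
  have hl1 : ∀ i, (l i).IsHomogeneous 1 := fun i => homogeneousComponent_isHomogeneous _ _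
  have hB1 : ∀ i, B i ∈ nn N ^ 1 := fun i => mem_one (by rw [hB]; simp only [cc_tau, hF])
  have hBl : ∀ i, B i - l i ∈ nn N ^ 2 := fun i => sub_hc (hB1 i)
  have hli : LinearIndependent ℂ l := by
    let L : Sx N →ₗ[ℂ] Vx N :=
      { toFun := fun G k => coeff (Finsupp.single k 1) G
        map_add' := fun f g => by funext k; simp
        map_smul' := fun c f => by funext k; simp }
    refine LinearIndependent.of_comp L ?_
    have h1 : (L ∘ l) = fun i => grad (F i) p := by
      funext i k
      change coeff (Finsupp.single k 1) (homogeneousComponent 1 (tau p (F i))) = _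
      rw [coeff_homogeneousComponent, Finsupp.degree_single, if_pos rfl, lin_tau]
    rw [h1]
    exact hlin
  -- the induction
  have key : ∀ k : ℕ, ∃ e : Fin n → Fin n → Sx N, (∀ i j, e i j = - e j i) ∧
      ∀ i, tau p (a i - ∑ j, e i j * F j) ∈ nn N ^ k := by
    intro k
    induction k with
    | zero => exact ⟨fun _ _ => 0, fun _ _ => by simp, fun i => by simp⟩
    | succ k ih =>
      obtain ⟨e, he, hk⟩ := ih
      set A : Fin n → Sx N := fun i => tau p (a i - ∑ j, e i j * F j) with hA
      have hAB : ∑ i, A i * B i = 0 := by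
        have h1 : ∑ i, (a i - ∑ j, e i j * F j) * F i = 0 := by
          simp only [sub_mul, Finset.sum_sub_distrib]
          rw [ha, anti_sum e F he, sub_zero]
        have h2 := congrArg (tau p) h1
        rw [map_sum, map_zero] at h2
        simpa only [map_mul] using h2
      set γ : Fin n → Sx N := fun i => homogeneousComponent k (A i) with hγ
      have hγ1 : ∀ i, (γ i).IsHomogeneous k := fun i => homogeneousComponent_isHomogeneous _ _
      have hAγ : ∀ i, A i - γ i ∈ nn N ^ (k + 1) := fun i => sub_hc (hk i)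
      have hγl : ∑ i, γ i * l i = 0 := by
        refine hom_zero (m := k + 1) (IsHomogeneous.sum _ _ _ fun i _ => (hγ1 i).mul (hl1 i)) ?_
        have h1 : ∑ i, γ i * l i =
            - ∑ i, ((A i - γ i) * l i + A i * (B i - l i)) := by
          have h2 : ∑ i, γ i * l i - ∑ i, A i * B i =
              - ∑ i, ((A i - γ i) * l i + A i * (B i - l i)) := by
            rw [← Finset.sum_sub_distrib, ← Finset.sum_neg_distrib]
            exact Finset.sum_congr rfl fun i _ => by ring
          rw [hAB, sub_zero] at h2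
          exact h2
        rw [h1]
        refine neg_mem (sum_mem fun i _ => add_mem ?_ ?_)
        · rw [pow_succ _ (k + 1)]
          exact Ideal.mul_mem_mul (hAγ i) (by simpa using hom_mem (hl1 i))
        · rw [show k + 1 + 1 = k + 2 from rfl, pow_add]
          exact Ideal.mul_mem_mul (hk i) (hBl i)
      obtain ⟨h0, b, hb1, hb2, hb3⟩ := hSyz N n l hl1 hli k γ hγ1 hγl
      rcases Nat.eq_zero_or_pos k with hk0 | hk0
      · refine ⟨e, he, fun i => ?_⟩
        have h1 := hAγ i
        rw [h0 hk0 i, sub_zero] at h1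
        exact h1
      · refine ⟨fun i j => e i j + sig p (b i j), fun i j => ?_, fun i => ?_⟩
        · change e i j + sig p (b i j) = -(e j i + sig p (b j i))
          rw [he i j, hb1 i j, map_neg]; ring
        · have h1 : tau p (a i - ∑ j, (e i j + sig p (b i j)) * F j) =
              (A i - γ i) - ∑ j, b i j * (B j - l j) := by
            have h2 : a i - ∑ j, (e i j + sig p (b i j)) * F j =
                (a i - ∑ j, e i j * F j) - ∑ j, sig p (b i j) * F j := by
              simp only [add_mul, Finset.sum_add_distrib]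
              ring
            rw [h2, map_sub, map_sum]
            simp only [map_mul, tau_sig]
            have h3 : ∑ j, b i j * (B j - l j) = ∑ j, b i j * B j - γ i := by
              rw [hb3 i, ← Finset.sum_sub_distrib]
              exact Finset.sum_congr rfl fun j _ => by ring
            rw [h3]
            ring
          rw [h1]
          refine sub_mem (hAγ i) (sum_mem fun j _ => ?_)
          have h4 : k + 1 = (k - 1) + 2 := by omega
          rw [h4, pow_add]
          exact Ideal.mul_mem_mul (hom_mem (hb2 i j)) (hBl j)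
  intro k
  obtain ⟨e, he, hk⟩ := key k
  refine ⟨e, he, fun i => ?_⟩
  have h1 := sig_mem p k (hk i)
  rw [sig_tau] at h1
  exact h1

end Pool.Agent.Lib.MP_776403_ag.SD
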