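import Pool.Agent.Lib.MP_776403_ag.SD.K.SpecR

/-!
# THEOREM SD, part K: local exactness, graded version, `V = S` (RLocI)
-/

set_option autoImplicit false

open MvPolynomial TensorProduct

noncomputable section

namespace Pool.Agent.Lib.MP_776403_ag.SD

namespace RLocIAux

variable {N : ℕ}

/-! ### Homogeneous components -/

private theorem comp_mul {σ : Type} {g R : MvPolynomial σ ℂ} {d : ℕ} (hR : R.IsHomogeneous d)
    (δ : ℕ) : homogeneousComponent (d + δ) (g * R) = homogeneousComponent δ g * R := by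
  conv_lhs => rw [← sum_homogeneousComponent g]
  rw [Finset.sum_mul, map_sum]
  have h1 : ∀ k ∈ Finset.range (g.totalDegree + 1),
      homogeneousComponent (d + δ) (homogeneousComponent k g * R) =
        if k = δ then homogeneousComponent δ g * R else 0 := by
    intro k _
    have h2 : (homogeneousComponent k g * R).IsHomogeneous (k + d) :=
      (homogeneousComponent_isHomogeneous k g).mul hR
    rw [homogeneousComponent_of_mem ((mem_homogeneousSubmodule _ _).2 h2)]
    by_cases hk : k = δ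
    · rw [if_pos (by omega), if_pos hk, hk]
    · rw [if_neg (by omega), if_neg hk]
  rw [Finset.sum_congr rfl h1, Finset.sum_ite_eq']
  split_ifs with h3
  · rfl
  · have h4 : g.totalDegree < δ := by
      rw [Finset.mem_range] at h3
      omega
    rw [homogeneousComponent_eq_zero _ _ h4, zero_mul]

private theorem comp_mul_low {σ : Type} {g R : MvPolynomial σ ℂ} {d : ℕ} (hR : R.IsHomogeneous d)
    {e : ℕ} (he : e < d) : homogeneousComponent e (g * R) = 0 := by
  conv_lhs => rw [← sum_homogeneousComponent g]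
  rw [Finset.sum_mul, map_sum]
  refine Finset.sum_eq_zero fun k _ => ?_
  have h2 : (homogeneousComponent k g * R).IsHomogeneous (k + d) :=
    (homogeneousComponent_isHomogeneous k g).mul hR
  rw [homogeneousComponent_of_mem ((mem_homogeneousSubmodule _ _).2 h2), if_neg (by omega)]

private theorem exists_comp {g : Sx N} {p : Vx N} (hg : eval p g ≠ 0) :
    ∃ δ : ℕ, eval p (homogeneousComponent δ g) ≠ 0 := by
  by_contra hc
  push Not at hc
  apply hg
  rw [← sum_homogeneousComponent g, map_sum]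
  exact Finset.sum_eq_zero fun k _ => hc k

private theorem ix_hom {F : Sx N} {n : ℕ} (hF : F.IsHomogeneous n) : (ix F).IsHomogeneous n :=
  hF.rename_isHomogeneous

private theorem iy_hom {F : Sx N} {n : ℕ} (hF : F.IsHomogeneous n) : (iy F).IsHomogeneous n :=
  hF.rename_isHomogeneous

private theorem zz_hom (k : Fin (N + 1)) : (zz k : Rx N).IsHomogeneous 1 :=
  (isHomogeneous_X _ _).sub (isHomogeneous_X _ _)

private theorem comp_ix (g : Sx N) (δ : ℕ) :
    homogeneousComponent δ (ix g) = ix (homogeneousComponent δ g) := by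
  conv_lhs => rw [← sum_homogeneousComponent g]
  rw [map_sum, map_sum]
  have h1 : ∀ k ∈ Finset.range (g.totalDegree + 1),
      homogeneousComponent δ (ix (homogeneousComponent k g) : Rx N) =
        if k = δ then ix (homogeneousComponent δ g) else 0 := by
    intro k _
    have h2 : (ix (homogeneousComponent k g) : Rx N).IsHomogeneous k :=
      ix_hom (homogeneousComponent_isHomogeneous k g)
    rw [homogeneousComponent_of_mem ((mem_homogeneousSubmodule _ _).2 h2)]
    by_cases hk : k = δ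
    · rw [if_pos hk.symm, if_pos hk, hk]
    · rw [if_neg (fun h => hk h.symm), if_neg hk]
  rw [Finset.sum_congr rfl h1, Finset.sum_ite_eq']
  split_ifs with h3
  · rfl
  · have h4 : g.totalDegree < δ := by
      rw [Finset.mem_range] at h3
      omega
    rw [homogeneousComponent_eq_zero _ _ h4, map_zero]

/-! ### Componentwise projections -/

section Proj

variable {β : Type} {I J : Ideal (Sx N)}

/-- Componentwise projection. -/
private def prj (γ : Type) (π : ℕ → (CR I J →ₗ[ℂ] CR I J)) (e : ℕ) :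
    (γ → CR I J) →ₗ[ℂ] (γ → CR I J) where
  toFun z := fun p => π e (z p)
  map_add' z z' := by funext p; simp
  map_smul' c z := by funext p; simp

variable {π : ℕ → (CR I J →ₗ[ℂ] CR I J)} (hπ : ∀ (e : ℕ) (F : Rx N),
      π e (Ideal.Quotient.mk (cc I J) F) = Ideal.Quotient.mk (cc I J) (homogeneousComponent e F))

include hπ

private theorem prj_zz {γ : Type} (e : ℕ) (k : Fin (N + 1)) (z : γ → CR I J) :
    prj γ π (e + 1) ((zz k : Rx N) • z) = (zz k : Rx N) • prj γ π e z := by
  funext p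
  change π (e + 1) ((zz k : Rx N) • z p) = (zz k : Rx N) • π e (z p)
  obtain ⟨F, hF⟩ := Ideal.Quotient.mk_surjective (z p)
  rw [← hF, hπ]
  change π (e + 1) (Ideal.Quotient.mk (cc I J) ((zz k : Rx N) * F)) =
    Ideal.Quotient.mk (cc I J) ((zz k : Rx N) * homogeneousComponent e F)
  rw [hπ, mul_comm (zz k : Rx N) F, add_comm e 1, comp_mul (zz_hom k), mul_comm]

private theorem prj_zz0 {γ : Type} (k : Fin (N + 1)) (z : γ → CR I J) :
    prj γ π 0 ((zz k : Rx N) • z) = 0 := by
  funext p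
  change π 0 ((zz k : Rx N) • z p) = 0
  obtain ⟨F, hF⟩ := Ideal.Quotient.mk_surjective (z p)
  rw [← hF]
  change π 0 (Ideal.Quotient.mk (cc I J) ((zz k : Rx N) * F)) = 0
  rw [hπ, mul_comm (zz k : Rx N) F, comp_mul_low (zz_hom k) (by omega), map_zero]

private theorem prj_smul {W : ℕ → Submodule ℂ (β → Sx N)} (hW : GV W) {k : ℕ} (g : Sx N)
    (δ : ℕ) {z : Unit × β → CR I J} (hz : z ∈ TPf I J (AF N) W k) :
    prj (Unit × β) π (k + δ) ((ix g : Rx N) • z) =
      (ix (homogeneousComponent δ g) : Rx N) • z := by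
  refine Submodule.span_induction
    (p := fun z _ => prj (Unit × β) π (k + δ) ((ix g : Rx N) • z) =
      (ix (homogeneousComponent δ g) : Rx N) • z) ?_ ?_ ?_ ?_ hz
  · rintro _ ⟨k1, k2, v, w, hk, hv, hw, rfl⟩
    funext p
    change π (k + δ) (Ideal.Quotient.mk (cc I J) (ix g * (ix (v p.1) * iy (w p.2)))) =
      Ideal.Quotient.mk (cc I J) (ix (homogeneousComponent δ g) * (ix (v p.1) * iy (w p.2)))
    have h1 : (ix (v p.1) * iy (w p.2) : Rx N).IsHomogeneous k := by
      rw [← hk]
      exact (ix_hom (hv p.1)).mul (iy_hom (hW.hom _ w hw p.2))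
    rw [hπ, comp_mul h1, comp_ix]
  · rw [smul_zero, smul_zero, map_zero]
  · intro x y _ _ hx hy
    rw [smul_add, smul_add, map_add, hx, hy]
  · intro a x _ hx
    rw [smul_comm (ix g : Rx N) a, smul_comm (ix (homogeneousComponent δ g) : Rx N) a, map_smul,
      hx]

private theorem prj_self {W : ℕ → Submodule ℂ (β → Sx N)} (hW : GV W) {k : ℕ} (e : ℕ)
    {z : Unit × β → CR I J} (hz : z ∈ TPf I J (AF N) W k) :
    prj (Unit × β) π e z = if e = k then z else 0 := by
  refine Submodule.span_induction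
    (p := fun z _ => prj (Unit × β) π e z = if e = k then z else 0) ?_ ?_ ?_ ?_ hz
  · rintro _ ⟨k1, k2, v, w, hk, hv, hw, rfl⟩
    funext p
    change π e (Ideal.Quotient.mk (cc I J) (ix (v p.1) * iy (w p.2))) = _
    have h1 : (ix (v p.1) * iy (w p.2) : Rx N).IsHomogeneous k := by
      rw [← hk]
      exact (ix_hom (hv p.1)).mul (iy_hom (hW.hom _ w hw p.2))
    rw [hπ, homogeneousComponent_of_mem ((mem_homogeneousSubmodule _ _).2 h1)]
    by_cases he : e = k
    · rw [if_pos he, if_pos he]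
    · rw [if_neg he, if_neg he, map_zero]
      rfl
  · rw [map_zero]
    split_ifs <;> rfl
  · intro x y _ _ hx hy
    rw [map_add, hx, hy]
    split_ifs
    · rfl
    · rw [add_zero]
  · intro a x _ hx
    rw [map_smul, hx]
    split_ifs
    · rfl
    · rw [smul_zero]

private theorem prj_mem {W : ℕ → Submodule ℂ (β → Sx N)} (hW : GV W) (e : ℕ)
    {z : Unit × β → CR I J} (hz : z ∈ ⨆ k, TPf I J (AF N) W k) :
    prj (Unit × β) π e z ∈ TPf I J (AF N) W e := by
  have h1 : (⨆ k, TPf I J (AF N) W k) ≤ (TPf I J (AF N) W e).comap (prj (Unit × β) π e) := by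
    refine iSup_le fun k z hz => ?_
    rw [Submodule.mem_comap, prj_self hπ hW e hz]
    split_ifs with he
    · rw [he]
      exact hz
    · exact Submodule.zero_mem _
  exact h1 hz

end Proj

/-! ### Values of `θ` -/

section Val

variable {β : Type} {I J : Ideal (Sx N)} {W : ℕ → Submodule ℂ (β → Sx N)}

private theorem X_smul_mem (hW : GV W) (i : Fin (N + 1) ⊕ Fin (N + 1))
    {z : Unit × β → CR I J} (hz : z ∈ ⨆ k, TPf I J (AF N) W k) :
    (X i : Rx N) • z ∈ ⨆ k, TPf I J (AF N) W k := by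
  have h1 : (⨆ k, TPf I J (AF N) W k) ≤ (⨆ k, TPf I J (AF N) W k).comap
      ((LinearMap.lsmul (Rx N) (Unit × β → CR I J) (X i : Rx N)).restrictScalars ℂ) := by
    refine iSup_le fun k => Submodule.span_le.2 ?_
    rintro _ ⟨k1, k2, v, w, hk, hv, hw, rfl⟩
    change (X i : Rx N) • (fun p : Unit × β =>
      Ideal.Quotient.mk (cc I J) (ix (v p.1) * iy (w p.2))) ∈ ⨆ k, TPf I J (AF N) W k
    refine Submodule.mem_iSup_of_mem (k + 1) (Submodule.subset_span ?_)
    rcases i with j | j
    · refine ⟨k1 + 1, k2, fun a => X j * v a, w, by omega, ?_, hw, ?_⟩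
      · intro a
        have h2 := (isHomogeneous_X ℂ j).mul (hv a)
        have h3 : 1 + k1 = k1 + 1 := Nat.add_comm 1 k1
        exact h3 ▸ h2
      · funext p
        change Ideal.Quotient.mk (cc I J) (X (Sum.inl j) * (ix (v p.1) * iy (w p.2))) =
          Ideal.Quotient.mk (cc I J) (ix (X j * v p.1) * iy (w p.2))
        rw [map_mul ix]
        have h3 : (ix (X j) : Rx N) = X (Sum.inl j) := rename_X _ _
        rw [h3, mul_assoc]
    · refine ⟨k1, k2 + 1, v, fun b => X j * w b, by omega, hv, hW.mul _ w hw j, ?_⟩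
      funext p
      change Ideal.Quotient.mk (cc I J) (X (Sum.inr j) * (ix (v p.1) * iy (w p.2))) =
        Ideal.Quotient.mk (cc I J) (ix (v p.1) * iy (X j * w p.2))
      rw [map_mul iy]
      have h3 : (iy (X j) : Rx N) = X (Sum.inr j) := rename_X _ _
      rw [h3]
      congr 1
      ring
  exact h1 hz

private theorem smul_mem (hW : GV W) (r : Rx N)
    {z : Unit × β → CR I J} (hz : z ∈ ⨆ k, TPf I J (AF N) W k) :
    r • z ∈ ⨆ k, TPf I J (AF N) W k := by
  induction r using MvPolynomial.induction_on generalizing z with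
  | C a =>
    have h1 : (C a : Rx N) • z = a • z := by
      rw [← algebraMap_smul (Rx N) a z]
      rfl
    rw [h1]
    exact Submodule.smul_mem _ a hz
  | add p q hp hq =>
    rw [add_smul]
    exact Submodule.add_mem _ (hp hz) (hq hz)
  | mul_X p n hp =>
    rw [mul_smul]
    exact hp (X_smul_mem hW n hz)

private theorem val_mem (hW : GV W)
    (θ : TM N (Sx N ⧸ I) (MW J W) →ₗ[Rx N] (Unit × β → CR I J))
    (hθ : ∀ (f : Sx N) (m : MW J W) (m' : β → Sx N), (∀ b, Ideal.Quotient.mk J (m' b) = m.1 b) →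
        θ (tm N (Ideal.Quotient.mk I f) m) =
          fun p => Ideal.Quotient.mk (cc I J) (ix f * iy (m' p.2)))
    (t : TM N (Sx N ⧸ I) (MW J W)) : θ t ∈ ⨆ k, TPf I J (AF N) W k := by
  refine TensorProduct.induction_on (motive := fun t : (Sx N ⧸ I) ⊗[ℂ] (MW J W) =>
    θ (t : TM N (Sx N ⧸ I) (MW J W)) ∈ ⨆ k, TPf I J (AF N) W k) t ?_ ?_ ?_
  · have h1 : θ (0 : TM N (Sx N ⧸ I) (MW J W)) = 0 := map_zero θ
    exact h1 ▸ Submodule.zero_mem _
  · intro l m
    obtain ⟨f, hf⟩ := Ideal.Quotient.mk_surjective l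
    have h1 : ∀ (y : β → Sx N ⧸ J) (hy : y ∈ MW J W),
        θ (tm N (Ideal.Quotient.mk I 1) (⟨y, hy⟩ : MW J W)) ∈ ⨆ k, TPf I J (AF N) W k := by
      intro y hy
      refine Submodule.span_induction
        (p := fun y hy => θ (tm N (Ideal.Quotient.mk I 1) (⟨y, hy⟩ : MW J W)) ∈
          ⨆ k, TPf I J (AF N) W k) ?_ ?_ ?_ ?_ hy
      · rintro _ ⟨k, w, hw, rfl⟩
        rw [hθ 1 ⟨redL β J w, Submodule.subset_span ⟨k, w, hw, rfl⟩⟩ w (fun b => rfl)]
        refine Submodule.mem_iSup_of_mem (0 + k) (Submodule.subset_span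
          ⟨0, k, fun _ => 1, w, rfl, fun _ => isHomogeneous_one _ _, hw, rfl⟩)
      · have h2 : tm N (Ideal.Quotient.mk I 1) (⟨0, Submodule.zero_mem _⟩ : MW J W) = 0 :=
          TensorProduct.tmul_zero _ _
        rw [h2, map_zero]
        exact Submodule.zero_mem _
      · intro x y hx hy hx' hy'
        have h2 : tm N (Ideal.Quotient.mk I 1) (⟨x + y, Submodule.add_mem _ hx hy⟩ : MW J W) =
            tm N (Ideal.Quotient.mk I 1) (⟨x, hx⟩ : MW J W) +
            tm N (Ideal.Quotient.mk I 1) (⟨y, hy⟩ : MW J W) :=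
          TensorProduct.tmul_add _ (⟨x, hx⟩ : MW J W) (⟨y, hy⟩ : MW J W)
        rw [h2, map_add]
        exact Submodule.add_mem _ hx' hy'
      · intro a x hx hx'
        have h2 : tm N (Ideal.Quotient.mk I 1) (⟨a • x, Submodule.smul_mem _ a hx⟩ : MW J W) =
            (iy a : Rx N) • tm N (Ideal.Quotient.mk I 1) (⟨x, hx⟩ : MW J W) :=
          (iy_smul_tm (N := N) (L := Sx N ⧸ I) (M := MW J W) a (Ideal.Quotient.mk I 1) ⟨x, hx⟩).symm
        rw [h2, map_smul]
        exact smul_mem hW _ hx'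
    have h2 : tm N l m = (ix f : Rx N) • tm N (Ideal.Quotient.mk I 1) m := by
      rw [ix_smul_tm, ← hf]
      congr 1
      change Ideal.Quotient.mk I f = Ideal.Quotient.mk I (f * 1)
      rw [mul_one]
    change θ (tm N l m) ∈ _
    rw [h2, map_smul]
    exact smul_mem hW _ (h1 m.1 m.2)
  · intro x y hx hy
    have h1 : θ ((x : TM N (Sx N ⧸ I) (MW J W)) + (y : TM N (Sx N ⧸ I) (MW J W))) =
      θ (x : TM N (Sx N ⧸ I) (MW J W)) + θ (y : TM N (Sx N ⧸ I) (MW J W)) := map_add θ _ _
    exact h1 ▸ Submodule.add_mem _ hx hy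

/-- The elements of `TPf` are values of `θ`. -/
private theorem TPf_range
    (θ : TM N (Sx N ⧸ I) (MW J W) →ₗ[Rx N] (Unit × β → CR I J))
    (hθ : ∀ (f : Sx N) (m : MW J W) (m' : β → Sx N), (∀ b, Ideal.Quotient.mk J (m' b) = m.1 b) →
        θ (tm N (Ideal.Quotient.mk I f) m) =
          fun p => Ideal.Quotient.mk (cc I J) (ix f * iy (m' p.2))) {k : ℕ}
    {z : Unit × β → CR I J} (hz : z ∈ TPf I J (AF N) W k) : ∃ t, θ t = z := by
  have h1 : TPf I J (AF N) W k ≤ LinearMap.range (θ.restrictScalars ℂ) := by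
    refine Submodule.span_le.2 ?_
    rintro _ ⟨k1, k2, v, w, hk, hv, hw, rfl⟩
    refine ⟨tm N (Ideal.Quotient.mk I (v ()))
      ⟨redL β J w, Submodule.subset_span ⟨k2, w, hw, rfl⟩⟩, ?_⟩
    exact hθ (v ()) ⟨redL β J w, Submodule.subset_span ⟨k2, w, hw, rfl⟩⟩ w (fun b => rfl)
  exact h1 hz

end Val

end RLocIAux

open RLocIAux

theorem kRLocI : S_RLocB → S_RMu → S_RTheta → S_RCmp → S_RLocI := by
  intro hLB hMu hTh hCmp N c β _ I J h W hI hJ hS hW p hp hp0 i m w hw hrho
  have hwK : w ∈ Kc N (TPf I J (AF N) W) i m := (Submodule.mem_inf.1 hw).1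
  have hwd : dK w = 0 := (Submodule.mem_inf.1 hw).2
  by_cases him : i ≤ m
  swap
  · refine ⟨1, 0, isHomogeneous_one _ _, by rw [map_one]; exact one_ne_zero, ?_⟩
    have h1 : w = 0 := by
      funext T
      exact (hwK T).2 (Or.inr (by omega))
    rw [h1, smul_zero]
    exact Submodule.zero_mem _
  have hpI : p ∈ zer I := fun F hF => hp F (h hF)
  obtain ⟨F, f, h0, e, hF, hh0, hh0p, hlin, hspan⟩ := hS p hpI hp0
  have hkill : ∀ f ∈ I, ∀ m : MW J W, f • m = 0 := by
    intro f hf m
    apply Subtype.ext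
    funext b
    change f • (m.1 b) = 0
    obtain ⟨x, hx⟩ := Ideal.Quotient.mk_surjective (m.1 b)
    rw [← hx]
    change Ideal.Quotient.mk J (f * x) = 0
    exact Ideal.Quotient.eq_zero_iff_mem.2 (J.mul_mem_right x (h hf))
  obtain ⟨μ, hμ, hμd⟩ := hMu N I (MW J W) hkill
  obtain ⟨θ, hθi, hθt, hθμ⟩ := hTh N β I J h W
  obtain ⟨hINJ, -⟩ := hLB N c I p F h0 hpI (fun l => (hF l).1) hlin hh0p hspan (MW J W) hkill μ hμ
    hμd
  obtain ⟨π, hπ⟩ := hCmp N I J hI hJ
  -- the lift
  have hlift : ∀ T, ∃ t : TM N (Sx N ⧸ I) (MW J W), θ t = w T ∧ (w T = 0 → t = 0) := by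
    intro T
    by_cases h1 : w T = 0
    · exact ⟨0, by rw [map_zero, h1], fun _ => rfl⟩
    · have h2 : T.card = i := by
        by_contra hc
        exact h1 ((hwK T).2 (Or.inl hc))
      obtain ⟨t, ht⟩ := TPf_range θ hθt ((hwK T).1 h2 him)
      exact ⟨t, ht, fun h3 => absurd h3 h1⟩
  choose w' hw'1 hw'2 using hlift
  have hmap : mapC θ w' = w := by
    funext T
    exact hw'1 T
  have hSup : Sup i w' := fun T hT => hw'2 T ((hwK T).2 (Or.inl hT))
  have hd' : dK w' = 0 := by
    have h1 : mapC θ (dK w') = 0 := by rw [← mapC_dK, hmap, hwd]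
    funext T
    apply hθi
    have h2 := congr_fun h1 T
    rw [Pi.zero_apply, map_zero]
    exact h2
  have hμ0 : ∀ T, μ (w' T) = 0 := by
    intro T
    apply Subtype.ext
    funext b
    rw [← hθμ μ hμ (w' T) ((), b), hw'1 T]
    exact congr_fun hrho (((), b), T)
  obtain ⟨g, v', hgp, hv'S, hv'⟩ := hINJ i w' hSup hd' hμ0
  have hv : dK (mapC θ v') = (ix g : Rx N) • w := by
    rw [mapC_dK, hv', map_smul, hmap]
  have hvP : ∀ T, mapC θ v' T ∈ ⨆ k, TPf I J (AF N) W k := fun T => val_mem hW θ hθt (v' T)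
  have hvS : ∀ T : Finset (Fin (N + 1)), T.card ≠ i + 1 → mapC θ v' T = 0 := by
    intro T hT
    change θ (v' T) = 0
    rw [hv'S T hT, map_zero]
  generalize mapC θ v' = v at hv hvP hvS
  obtain ⟨δ, hδ⟩ := exists_comp hgp
  refine ⟨homogeneousComponent δ g, δ, homogeneousComponent_isHomogeneous δ g, hδ, ?_⟩
  refine ⟨fun T => if i + 1 ≤ m + δ then prj (Unit × β) π (m + δ - (i + 1)) (v T) else 0, ?_, ?_⟩
  · intro T
    refine ⟨fun h1 h2 => ?_, fun h1 => ?_⟩
    · change (if i + 1 ≤ m + δ then prj (Unit × β) π (m + δ - (i + 1)) (v T) else 0) ∈ _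
      rw [if_pos h2]
      exact prj_mem hπ hW _ (hvP T)
    · change (if i + 1 ≤ m + δ then prj (Unit × β) π (m + δ - (i + 1)) (v T) else 0) = 0
      rcases h1 with h1 | h1
      · rw [hvS T h1, map_zero]
        split_ifs <;> rfl
      · rw [if_neg (by omega)]
  · funext T
    change ∑ k ∈ Tᶜ, sg k T • ((zz k : Rx N) • (if i + 1 ≤ m + δ then
      prj (Unit × β) π (m + δ - (i + 1)) (v (insert k T)) else 0)) =
        (ix (homogeneousComponent δ g) : Rx N) • w T
    by_cases hT : T.card = i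
    · have h3 : prj (Unit × β) π (m - i + δ) (dK v T) =
          (ix (homogeneousComponent δ g) : Rx N) • w T := by
        rw [hv]
        exact prj_smul hπ hW g δ ((hwK T).1 hT him)
      rw [← h3]
      have h4 : dK v T = ∑ k ∈ Tᶜ, sg k T • ((zz k : Rx N) • v (insert k T)) := rfl
      rw [h4, map_sum]
      refine Finset.sum_congr rfl fun k _ => ?_
      rw [map_zsmul]
      congr 1
      by_cases h5 : i + 1 ≤ m + δ
      · rw [if_pos h5]
        obtain ⟨a, ha⟩ : ∃ a, m + δ = i + 1 + a := ⟨m + δ - (i + 1), by omega⟩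
        have h6 : m + δ - (i + 1) = a := by omega
        have h7 : m - i + δ = a + 1 := by omega
        rw [h6, h7, prj_zz hπ]
      · rw [if_neg h5]
        have h6 : m - i + δ = 0 := by omega
        rw [h6, prj_zz0 hπ, smul_zero]
    · rw [(hwK T).2 (Or.inl hT), smul_zero]
      refine Finset.sum_eq_zero fun k hk => ?_
      have h5 : (insert k T).card ≠ i + 1 := by
        rw [Finset.card_insert_of_notMem (Finset.mem_compl.1 hk)]
        omega
      rw [hvS _ h5, map_zero]
      split_ifs <;> rw [smul_zero, smul_zero]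

end Pool.Agent.Lib.MP_776403_ag.SD
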