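import Pool.Agent.Lib.MP_776403_ag.SD.K.SpecR

/-!
# THEOREM SD, part K: local description of the image, graded version, `V = S` (RLocJ)
-/

set_option autoImplicit false

open MvPolynomial TensorProduct

noncomputable section

namespace Pool.Agent.Lib.MP_776403_ag.SD

namespace RLocJAux

variable {N : ℕ}

/-! ### Homogeneous components -/

private theorem comp_mul {g R : Sx N} {d : ℕ} (hR : R.IsHomogeneous d) (δ : ℕ) :
    homogeneousComponent (d + δ) (g * R) = homogeneousComponent δ g * R := by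
  conv_lhs => rw [← sum_homogeneousComponent g]
  rw [Finset.sum_mul, map_sum]
  have h1 : ∀ k ∈ Finset.range (g.totalDegree + 1),
      homogeneousComponent (d + δ) (homogeneousComponent k g * R) =
        if k = δ then homogeneousComponent δ g * R else 0 := by
    intro k _
    have h2 : (homogeneousComponent k g * R).IsHomogeneous (k + d) :=
      (homogeneousComponent_isHomogeneous k g).mul hR
    rw [homogeneousComponent_of_mem ((mem_homogeneousSubmodule _ _).2 h2)]
    by_cases hk : k = δ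
    · rw [if_pos (by omega), if_pos hk, hk]
    · rw [if_neg (by omega), if_neg hk]
  rw [Finset.sum_congr rfl h1, Finset.sum_ite_eq']
  split_ifs with h3
  · rfl
  · have h4 : g.totalDegree < δ := by
      rw [Finset.mem_range] at h3
      omega
    rw [homogeneousComponent_eq_zero _ _ h4, zero_mul]

private theorem exists_comp {g : Sx N} {p : Vx N} (hg : eval p g ≠ 0) :
    ∃ δ : ℕ, eval p (homogeneousComponent δ g) ≠ 0 := by
  by_contra hc
  push Not at hc
  apply hg
  rw [← sum_homogeneousComponent g, map_sum]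
  exact Finset.sum_eq_zero fun k _ => hc k

/-- Componentwise homogeneous component. -/
private def cmpL (γ : Type) (e : ℕ) : (γ → Sx N) →ₗ[ℂ] (γ → Sx N) where
  toFun R := fun a => homogeneousComponent e (R a)
  map_add' R R' := by funext a; simp
  map_smul' c R := by funext a; simp

private theorem cmpL_apply {γ : Type} (e : ℕ) (R : γ → Sx N) (a : γ) :
    cmpL γ e R a = homogeneousComponent e (R a) := rfl

private theorem redL_apply {γ : Type} (J : Ideal (Sx N)) (R : γ → Sx N) (a : γ) :
    redL γ J R a = Ideal.Quotient.mk J (R a) := rfl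

private theorem redL_smul {γ : Type} (J : Ideal (Sx N)) (g : Sx N) (R : γ → Sx N) :
    redL γ J (fun a => g * R a) = g • redL γ J R := rfl

/-- Extraction of the component of degree `d + δ`. -/
private theorem extract {γ : Type} {J : Ideal (Sx N)} (hJ : IsHom J)
    (Q : ℕ → Submodule ℂ (γ → Sx N)) (hQ : ∀ k, ∀ r ∈ Q k, ∀ a, (r a).IsHomogeneous k)
    {g : Sx N} {d : ℕ} {R : γ → Sx N} (hR : ∀ a, (R a).IsHomogeneous d)
    (hg : g • redL γ J R ∈ ⨆ k, (Q k).map (redL γ J)) (δ : ℕ) :
    homogeneousComponent δ g • redL γ J R ∈ (Q (d + δ)).map (redL γ J) := by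
  have h1 : (⨆ k, (Q k).map (redL γ J)) ≤
      (((Q (d + δ)).map (redL γ J)).comap ((redL γ J).comp (cmpL γ (d + δ)))).map (redL γ J) := by
    refine iSup_le fun k => Submodule.map_mono fun r hr => ?_
    rw [Submodule.mem_comap]
    by_cases hk : k = d + δ
    · subst hk
      have h2 : cmpL γ (d + δ) r = r := by
        funext a
        rw [cmpL_apply, homogeneousComponent_of_mem
          ((mem_homogeneousSubmodule _ _).2 (hQ _ r hr a)), if_pos rfl]
      rw [LinearMap.comp_apply, h2]
      exact Submodule.mem_map_of_mem hr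
    · have h2 : cmpL γ (d + δ) r = 0 := by
        funext a
        rw [cmpL_apply, homogeneousComponent_of_mem
          ((mem_homogeneousSubmodule _ _).2 (hQ _ r hr a)), if_neg (fun h => hk h.symm)]
        rfl
      rw [LinearMap.comp_apply, h2, map_zero]
      exact Submodule.zero_mem _
  obtain ⟨R', hR', hR''⟩ := Submodule.mem_map.1 (h1 hg)
  rw [Submodule.mem_comap, LinearMap.comp_apply] at hR'
  have h3 : redL γ J (cmpL γ (d + δ) R') = homogeneousComponent δ g • redL γ J R := by
    rw [← redL_smul] at hR'' ⊢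
    funext a
    rw [redL_apply, redL_apply, cmpL_apply, ← comp_mul (hR a) δ]
    have h4 := congr_fun hR'' a
    rw [redL_apply, redL_apply, Ideal.Quotient.mk_eq_mk_iff_sub_mem] at h4
    rw [Ideal.Quotient.mk_eq_mk_iff_sub_mem, ← map_sub]
    exact hJ _ h4 _
  rw [← h3]
  exact hR'

/-! ### Homogeneity of the products -/

private theorem PV_hom {α β : Type} {V : ℕ → Submodule ℂ (α → Sx N)}
    {W : ℕ → Submodule ℂ (β → Sx N)} (hV : ∀ k, ∀ v ∈ V k, ∀ a, (v a).IsHomogeneous k)
    (hW : ∀ k, ∀ v ∈ W k, ∀ a, (v a).IsHomogeneous k) (k : ℕ) :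
    ∀ z ∈ PV V W k, ∀ p, (z p).IsHomogeneous k := by
  intro z hz p
  have h1 : PV V W k ≤ (homogeneousSubmodule (Fin (N + 1)) ℂ k).comap
      (LinearMap.proj p : (α × β → Sx N) →ₗ[ℂ] Sx N) := by
    refine Submodule.span_le.2 ?_
    rintro _ ⟨k1, k2, v, w, hk, hv, hw, rfl⟩
    change (v p.1 * w p.2) ∈ homogeneousSubmodule (Fin (N + 1)) ℂ k
    rw [mem_homogeneousSubmodule, ← hk]
    exact (hV _ v hv _).mul (hW _ w hw _)
  exact (mem_homogeneousSubmodule _ _).1 (h1 hz)

private theorem pderiv_zero_of_hom {F : Sx N} (hF : F.IsHomogeneous 0) (k : Fin (N + 1)) :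
    pderiv k F = 0 := by
  rw [totalDegree_eq_zero_iff_eq_C.1 ((totalDegree_zero_iff_isHomogeneous _).2 hF), pderiv_C]

private theorem VT_hom (I : Ideal (Sx N)) (j k : ℕ) :
    ∀ z ∈ VT I j k, ∀ T, (z T).IsHomogeneous k := by
  intro z hz T
  have h1 : VT I j k ≤ (homogeneousSubmodule (Fin (N + 1)) ℂ k).comap
      (LinearMap.proj T : (Finset (Fin (N + 1)) → Sx N) →ₗ[ℂ] Sx N) := by
    refine Submodule.span_le.2 ?_
    rintro _ ⟨a, e, F, f, ha, hF, he, rfl⟩
    change (if h : T.card = j then
      a * Matrix.det (Matrix.of fun i k => pderiv (T.orderEmbOfFin h k) (F i)) else 0) ∈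
        homogeneousSubmodule (Fin (N + 1)) ℂ k
    rw [mem_homogeneousSubmodule]
    split_ifs with h
    · by_cases h0 : ∃ l, f l = 0
      · obtain ⟨l, hl⟩ := h0
        rw [Matrix.det_eq_zero_of_row_eq_zero l, mul_zero]
        · exact isHomogeneous_zero _ _ _
        · intro t
          have h2 := (hF l).2
          rw [hl] at h2
          exact pderiv_zero_of_hom h2 _
      · push Not at h0
        have h3 : ∑ l, (f l - 1) + j = ∑ l, f l := by
          have h4 : ∑ _l : Fin j, 1 = j := by simp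
          have h4' : ∑ l, (f l - 1) + ∑ _l : Fin j, 1 = ∑ l, f l := by
            rw [← Finset.sum_add_distrib]
            refine Finset.sum_congr rfl fun l _ => ?_
            have := h0 l
            omega
          rw [h4] at h4'
          exact h4'
        have h5 : k = e + ∑ l, (f l - 1) := by omega
        rw [h5]
        refine ha.mul ?_
        rw [Matrix.det_apply]
        refine IsHomogeneous.sum _ _ _ fun σ _ => ?_
        have h6 : (∏ x : Fin j, pderiv (T.orderEmbOfFin h x) (F (σ x))).IsHomogeneous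
            (∑ l, (f l - 1)) := by
          rw [← Equiv.sum_comp σ (fun l => f l - 1)]
          exact IsHomogeneous.prod _ _ _ fun x _ => ((hF (σ x)).2).pderiv
        rcases Int.units_eq_one_or (Equiv.Perm.sign σ) with hs | hs
        · rw [hs, one_smul]
          exact h6
        · rw [hs, Units.neg_smul, one_smul]
          exact h6.neg
    · exact isHomogeneous_zero _ _ _
  exact (mem_homogeneousSubmodule _ _).1 (h1 hz)

/-! ### The modules `WL` -/

section WLs

variable {R : Type} [CommRing R] {M : Type} [AddCommGroup M] [Module R M] {κ : Type}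

/-- The iterated product. -/
private def it (G : κ → Fin (N + 1) → R) {i : ℕ} (t : Fin i → κ) (m : M) : Cn N M :=
  (List.ofFn fun l => G (t l)).foldr (fun g u => wG g u)
    (fun T : Finset (Fin (N + 1)) => if T = ∅ then m else 0)

private theorem WL_le (G : κ → Fin (N + 1) → R) (i : ℕ) :
    WL M G i ≤ Submodule.span R {z | ∃ (t : Fin i → κ) (m : M), z = it G t m} := by
  induction i with
  | zero =>
    intro u hu
    refine Submodule.subset_span ⟨Fin.elim0, u ∅, ?_⟩
    funext T
    unfold it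
    rw [List.ofFn_zero, List.foldr_nil]
    by_cases hT : T = ∅
    · subst hT
      rw [if_pos rfl]
    · rw [if_neg hT]
      exact hu T (fun hc => hT (Finset.card_eq_zero.1 hc))
  | succ i ih =>
    change (⨆ k, (WL M G i).map (wG (G k))) ≤ _
    refine iSup_le fun k => ?_
    refine (Submodule.map_mono ih).trans ?_
    rw [Submodule.map_span, Submodule.span_le]
    rintro _ ⟨_, ⟨t, m, rfl⟩, rfl⟩
    refine Submodule.subset_span ⟨Fin.cons k t, m, ?_⟩
    unfold it
    rw [List.ofFn_succ, List.foldr_cons]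
    rfl

end WLs

/-! ### The elements -/

/-- The vector of minors. -/
private def mn {i : ℕ} (F : Fin i → Sx N) : Finset (Fin (N + 1)) → Sx N := fun T =>
  if h : T.card = i then
    1 * Matrix.det (Matrix.of fun l k => pderiv (T.orderEmbOfFin h k) (F l)) else 0

private theorem mn_mem {I : Ideal (Sx N)} {i k : ℕ} {F : Fin i → Sx N} {f : Fin i → ℕ}
    (hF : ∀ l, F l ∈ I ∧ (F l).IsHomogeneous (f l)) (hk : ∑ l, f l = k + i) :
    mn F ∈ VT I i k :=
  Submodule.subset_span ⟨1, 0, F, f, isHomogeneous_one _ _, hF, by omega, rfl⟩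

private theorem elem_mem {β : Type} {I J : Ideal (Sx N)} {W : ℕ → Submodule ℂ (β → Sx N)}
    {i k k' : ℕ} {w : β → Sx N} (hw : w ∈ W k) {μ : Finset (Fin (N + 1)) → Sx N}
    (hμ : μ ∈ VT I i k') (a : Sx N) :
    redL ((Unit × β) × Finset (Fin (N + 1))) J (fun pp => a * (w pp.1.2 * μ pp.2)) ∈
      ⨆ n, (PV (PV (AF N) W) (VT I i) n).map (redL ((Unit × β) × Finset (Fin (N + 1))) J) := by
  have h1 : (fun pp : (Unit × β) × Finset (Fin (N + 1)) => a * (w pp.1.2 * μ pp.2)) =
      ∑ n ∈ Finset.range (a.totalDegree + 1),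
        fun pp : (Unit × β) × Finset (Fin (N + 1)) =>
          homogeneousComponent n a * w pp.1.2 * μ pp.2 := by
    funext pp
    rw [Finset.sum_apply]
    conv_lhs => rw [← sum_homogeneousComponent a]
    rw [Finset.sum_mul]
    exact Finset.sum_congr rfl fun n _ => by ring
  rw [h1, map_sum]
  refine Submodule.sum_mem _ fun n _ => ?_
  refine Submodule.mem_iSup_of_mem (n + k + k') (Submodule.mem_map_of_mem ?_)
  refine Submodule.subset_span ⟨n + k, k', fun q : Unit × β => homogeneousComponent n a * w q.2, μ,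
    rfl, ?_, hμ, rfl⟩
  exact Submodule.subset_span ⟨n, k, fun _ => homogeneousComponent n a, w, rfl,
    fun _ => homogeneousComponent_isHomogeneous n a, hw, rfl⟩

/-- The entries of a chain. -/
private def ph {β : Type} (J : Ideal (Sx N)) (W : ℕ → Submodule ℂ (β → Sx N)) :
    Cn N (MW J W) →ₗ[Sx N] ((Unit × β) × Finset (Fin (N + 1)) → Sx N ⧸ J) where
  toFun u := fun pp => (u pp.2).1 pp.1.2
  map_add' _ _ := rfl
  map_smul' _ _ := rfl

private theorem ph_mem (hLap : S_RLap) {β : Type} {I J : Ideal (Sx N)}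
    {W : ℕ → Submodule ℂ (β → Sx N)} {c i : ℕ} {F : Fin c → Sx N} {f : Fin c → ℕ}
    (hF : ∀ l, F l ∈ I ∧ (F l).IsHomogeneous (f l)) (hf : ∀ l, 1 ≤ f l) {u : Cn N (MW J W)}
    (hu : u ∈ WL (MW J W) (fun t => dF (F t)) i) :
    ph J W u ∈
      ⨆ n, (PV (PV (AF N) W) (VT I i) n).map (redL ((Unit × β) × Finset (Fin (N + 1))) J) := by
  have h1 := WL_le _ _ hu
  refine Submodule.closure_induction
    (p := fun x _ => ph J W x ∈
      ⨆ n, (PV (PV (AF N) W) (VT I i) n).map (redL ((Unit × β) × Finset (Fin (N + 1))) J))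
    ?_ ?_ ?_ h1
  · rw [map_zero]
    exact Submodule.zero_mem _
  · intro x y _ _ hx hy
    rw [map_add]
    exact Submodule.add_mem _ hx hy
  · rintro a _ ⟨t, m, rfl⟩
    have hk : ∃ k', ∑ l : Fin i, f (t l) = k' + i := by
      have h2 : ∑ _l : Fin i, 1 ≤ ∑ l : Fin i, f (t l) := Finset.sum_le_sum fun l _ => hf (t l)
      have h3 : ∑ _l : Fin i, 1 = i := by simp
      exact ⟨∑ l : Fin i, f (t l) - i, by omega⟩
    obtain ⟨k', hk'⟩ := hk
    have hμ : mn (fun l => F (t l)) ∈ VT I i k' := mn_mem (fun l => hF (t l)) hk'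
    have h4 : ∀ y ∈ (MW J W : Submodule (Sx N) (β → Sx N ⧸ J)),
        (fun pp : (Unit × β) × Finset (Fin (N + 1)) =>
          (a * mn (fun l => F (t l)) pp.2) • y pp.1.2) ∈
        ⨆ n, (PV (PV (AF N) W) (VT I i) n).map (redL ((Unit × β) × Finset (Fin (N + 1))) J) := by
      intro y hy
      refine Submodule.closure_induction
        (p := fun y _ => (fun pp : (Unit × β) × Finset (Fin (N + 1)) =>
          (a * mn (fun l => F (t l)) pp.2) • y pp.1.2) ∈
        ⨆ n, (PV (PV (AF N) W) (VT I i) n).map (redL ((Unit × β) × Finset (Fin (N + 1))) J))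
        ?_ ?_ ?_ hy
      · have h5 : (fun pp : (Unit × β) × Finset (Fin (N + 1)) =>
            (a * mn (fun l => F (t l)) pp.2) • (0 : β → Sx N ⧸ J) pp.1.2) = 0 := by
          funext pp
          exact smul_zero _
        rw [h5]
        exact Submodule.zero_mem _
      · intro x y _ _ hx hy
        have h5 : (fun pp : (Unit × β) × Finset (Fin (N + 1)) =>
            (a * mn (fun l => F (t l)) pp.2) • (x + y) pp.1.2) =
            (fun pp => (a * mn (fun l => F (t l)) pp.2) • x pp.1.2) +
            (fun pp => (a * mn (fun l => F (t l)) pp.2) • y pp.1.2) := by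
          funext pp
          exact smul_add _ _ _
        rw [h5]
        exact Submodule.add_mem _ hx hy
      · rintro b _ ⟨k, w, hw, rfl⟩
        have h5 : (fun pp : (Unit × β) × Finset (Fin (N + 1)) =>
            (a * mn (fun l => F (t l)) pp.2) • (b • redL β J w) pp.1.2) =
            redL ((Unit × β) × Finset (Fin (N + 1))) J
              (fun pp => (a * b) * (w pp.1.2 * mn (fun l => F (t l)) pp.2)) := by
          funext pp
          change Ideal.Quotient.mk J ((a * mn (fun l => F (t l)) pp.2) * (b * w pp.1.2)) =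
            Ideal.Quotient.mk J ((a * b) * (w pp.1.2 * mn (fun l => F (t l)) pp.2))
          rw [show (a * mn (fun l => F (t l)) pp.2) * (b * w pp.1.2) =
            (a * b) * (w pp.1.2 * mn (fun l => F (t l)) pp.2) by ring]
        rw [h5]
        exact elem_mem hw hμ (a * b)
    have h6 : ph J W (a • it (fun t => dF (F t)) t m) =
        fun pp : (Unit × β) × Finset (Fin (N + 1)) =>
          (a * mn (fun l => F (t l)) pp.2) • m.1 pp.1.2 := by
      funext pp
      change a • (it (fun t => dF (F t)) t m pp.2).1 pp.1.2 = _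
      unfold it
      rw [hLap N (Sx N) (MW J W) i (fun l => dF (F (t l))) m, mul_smul]
      congr 1
      unfold mn
      dsimp only
      split_ifs with h7
      · rw [one_mul]
        rfl
      · rw [zero_smul]
        rfl
    rw [h6]
    exact h4 m.1 m.2

/-! ### The entries of the restriction -/

private theorem dg_mk {I J : Ideal (Sx N)} (h : I ≤ J) (x : Rx N) :
    dg h (Ideal.Quotient.mk (cc I J) x) = Ideal.Quotient.mk J (dgS x) := rfl

private theorem entry {β : Type} {I J : Ideal (Sx N)} (h : I ≤ J)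
    {W : ℕ → Submodule ℂ (β → Sx N)} (hW : GV W) {k : ℕ} {z : Unit × β → CR I J}
    (hz : z ∈ TPf I J (AF N) W k) (q : Unit × β) :
    ∃ r : Sx N, r.IsHomogeneous k ∧ Ideal.Quotient.mk J r = dg h (z q) := by
  refine Submodule.span_induction
    (p := fun z _ => ∃ r : Sx N, r.IsHomogeneous k ∧ Ideal.Quotient.mk J r = dg h (z q))
    ?_ ?_ ?_ ?_ hz
  · rintro _ ⟨k1, k2, v, w, hk, hv, hw, rfl⟩
    refine ⟨v q.1 * w q.2, ?_, ?_⟩
    · rw [← hk]
      exact (hv q.1).mul (hW.hom _ w hw q.2)
    · rw [dg_mk, map_mul dgS, dgS_ix, dgS_iy]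
  · exact ⟨0, isHomogeneous_zero _ _ _, by rw [map_zero]; exact (map_zero (dg h)).symm⟩
  · rintro x y _ _ ⟨r, hr, hr'⟩ ⟨s, hs, hs'⟩
    refine ⟨r + s, hr.add hs, ?_⟩
    rw [map_add, hr', hs']
    exact (map_add (dg h) _ _).symm
  · rintro a x _ ⟨r, hr, hr'⟩
    refine ⟨C a * r, ?_, ?_⟩
    · simpa using (isHomogeneous_C _ a).mul hr
    · have h1 : dg h ((a • x) q) = a • dg h (x q) := map_smul (dg h) a (x q)
      rw [h1, ← hr', ← MvPolynomial.smul_eq_C_mul]
      exact map_smul (Ideal.Quotient.mkₐ ℂ J) a r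

/-- The elements of `TPf` are values of `θ`. -/
private theorem TPf_range {β : Type} {I J : Ideal (Sx N)} {W : ℕ → Submodule ℂ (β → Sx N)}
    (θ : TM N (Sx N ⧸ I) (MW J W) →ₗ[Rx N] (Unit × β → CR I J))
    (hθ : ∀ (f : Sx N) (m : MW J W) (m' : β → Sx N), (∀ b, Ideal.Quotient.mk J (m' b) = m.1 b) →
        θ (tm N (Ideal.Quotient.mk I f) m) =
          fun p => Ideal.Quotient.mk (cc I J) (ix f * iy (m' p.2))) {k : ℕ}
    {z : Unit × β → CR I J} (hz : z ∈ TPf I J (AF N) W k) : ∃ t, θ t = z := by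
  have h1 : TPf I J (AF N) W k ≤ LinearMap.range (θ.restrictScalars ℂ) := by
    refine Submodule.span_le.2 ?_
    rintro _ ⟨k1, k2, v, w, hk, hv, hw, rfl⟩
    refine ⟨tm N (Ideal.Quotient.mk I (v ()))
      ⟨redL β J w, Submodule.subset_span ⟨k2, w, hw, rfl⟩⟩, ?_⟩
    exact hθ (v ()) ⟨redL β J w, Submodule.subset_span ⟨k2, w, hw, rfl⟩⟩ w (fun b => rfl)
  exact h1 hz

end RLocJAux

open RLocJAux

theorem kRLocJ : S_RLocB → S_RMu → S_RTheta → S_RLap → S_RLocJ := by
  intro hLB hMu hTh hLap N c β _ I J h W hI hJ hS hW p hp hp0 i m him w hw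
  have hpI : p ∈ zer I := fun F hF => hp F (h hF)
  obtain ⟨F, f, h0, e, hF, hh0, hh0p, hlin, hspan⟩ := hS p hpI hp0
  have hf : ∀ l, 1 ≤ f l := by
    intro l
    by_contra hc
    have h1 : f l = 0 := by omega
    have h2 := (hF l).2
    rw [h1] at h2
    apply hlin.ne_zero l
    funext k
    change eval p (pderiv k (F l)) = 0
    rw [pderiv_zero_of_hom h2, map_zero]
  have hkill : ∀ f ∈ I, ∀ m : MW J W, f • m = 0 := by
    intro f hf m
    apply Subtype.ext
    funext b
    change f • (m.1 b) = 0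
    obtain ⟨x, hx⟩ := Ideal.Quotient.mk_surjective (m.1 b)
    rw [← hx]
    change Ideal.Quotient.mk J (f * x) = 0
    exact Ideal.Quotient.eq_zero_iff_mem.2 (J.mul_mem_right x (h hf))
  obtain ⟨μ, hμ, hμd⟩ := hMu N I (MW J W) hkill
  obtain ⟨θ, hθi, hθt, hθμ⟩ := hTh N β I J h W
  obtain ⟨-, hIMG⟩ := hLB N c I p F h0 hpI (fun l => (hF l).1) hlin hh0p hspan (MW J W) hkill μ hμ
    hμd
  have hwK : w ∈ Kc N (TPf I J (AF N) W) i m := (Submodule.mem_inf.1 hw).1
  have hwd : dK w = 0 := (Submodule.mem_inf.1 hw).2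
  -- the lift
  have hlift : ∀ T, ∃ t : TM N (Sx N ⧸ I) (MW J W), θ t = w T ∧ (w T = 0 → t = 0) := by
    intro T
    by_cases h1 : w T = 0
    · exact ⟨0, by rw [map_zero, h1], fun _ => rfl⟩
    · have h2 : T.card = i := by
        by_contra hc
        exact h1 ((hwK T).2 (Or.inl hc))
      obtain ⟨t, ht⟩ := TPf_range θ hθt ((hwK T).1 h2 him)
      exact ⟨t, ht, fun h3 => absurd h3 h1⟩
  choose w' hw'1 hw'2 using hlift
  have hmap : mapC θ w' = w := by
    funext T
    exact hw'1 T
  have hSup : Sup i w' := fun T hT => hw'2 T ((hwK T).2 (Or.inl hT))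
  have hd' : dK w' = 0 := by
    have h1 : mapC θ (dK w') = 0 := by rw [← mapC_dK, hmap, hwd]
    funext T
    apply hθi
    have h2 := congr_fun h1 T
    rw [Pi.zero_apply, map_zero]
    exact h2
  obtain ⟨g, hgp, hg⟩ := hIMG i w' hSup hd'
  have h1 := ph_mem hLap hF hf hg
  have h2 : ph J W (fun T => g • μ (w' T)) = g • rho h (Unit × β) w := by
    funext pp
    change g • (μ (w' pp.2)).1 pp.1.2 = g • dg h (w pp.2 pp.1)
    rw [← hw'1 pp.2, hθμ μ hμ]
  -- lifts of the entries
  have hR : ∀ pp : (Unit × β) × Finset (Fin (N + 1)), ∃ r : Sx N, r.IsHomogeneous (m - i) ∧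
      Ideal.Quotient.mk J r = dg h (w pp.2 pp.1) := by
    intro pp
    by_cases h3 : pp.2.card = i
    · exact entry h hW ((hwK pp.2).1 h3 him) pp.1
    · refine ⟨0, isHomogeneous_zero _ _ _, ?_⟩
      rw [(hwK pp.2).2 (Or.inl h3), map_zero]
      exact (map_zero (dg h)).symm
  choose R hR1 hR2 using hR
  have h3 : redL ((Unit × β) × Finset (Fin (N + 1))) J R = rho h (Unit × β) w := by
    funext pp
    exact hR2 pp
  obtain ⟨δ, hδ⟩ := exists_comp hgp
  refine ⟨homogeneousComponent δ g, δ, homogeneousComponent_isHomogeneous δ g, hδ, ?_⟩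
  rw [← h3]
  have hAF : ∀ k, ∀ v ∈ AF N k, ∀ a, (v a).IsHomogeneous k := fun _ _ hv a => hv a
  refine extract hJ (PV (PV (AF N) W) (VT I i))
    (PV_hom (PV_hom hAF hW.hom) (VT_hom I i)) hR1 ?_ δ
  rw [h3, ← h2]
  exact h1

end Pool.Agent.Lib.MP_776403_ag.SD
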