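import Pool.Agent.Lib.MP_776403_ag.SD.K.SpecR

/-!
# THEOREM SD, part K, module RLocV: the local statements for a module `V` with local frames (helper24)
-/

set_option autoImplicit false

open MvPolynomial TensorProduct

noncomputable section

namespace Pool.Agent.Lib.MP_776403_ag.SD

namespace RLocVAux

variable {N : ℕ}

/-- Multiplication by a form in a graded module. -/
theorem gv_mul {α : Type} {V : ℕ → Submodule ℂ (α → Sx N)} (hV : GV V) {F : Sx N} {f : ℕ}
    (hF : F.IsHomogeneous f) {k : ℕ} {v : α → Sx N} (hv : v ∈ V k) :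
    (fun a => F * v a) ∈ V (k + f) := by
  have h0 : ∀ (i : Fin (N + 1)) (n : ℕ) (k : ℕ) (v : α → Sx N), v ∈ V k →
      (fun a => (X i : Sx N) ^ n * v a) ∈ V (k + n) := by
    intro i n
    induction n with
    | zero =>
      intro k v hv
      have e : (fun a => (X i : Sx N) ^ 0 * v a) = v := by
        funext a
        rw [pow_zero, one_mul]
      rw [e]
      exact hv
    | succ n ih =>
      intro k v hv
      have e : (fun a => (X i : Sx N) ^ (n + 1) * v a) =
          fun a => (X i : Sx N) * ((X i : Sx N) ^ n * v a) := by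
        funext a
        rw [pow_succ']
        ring
      rw [e]
      exact hV.mul _ _ (ih k v hv) i
  have h1 : ∀ (s : Fin (N + 1) →₀ ℕ) (k : ℕ) (v : α → Sx N), v ∈ V k →
      (fun a => (monomial s (1 : ℂ) : Sx N) * v a) ∈ V (k + Finsupp.weight 1 s) := by
    intro s
    induction s using Finsupp.induction_linear with
    | zero =>
      intro k v hv
      have e : (fun a => (monomial (0 : Fin (N + 1) →₀ ℕ) (1 : ℂ) : Sx N) * v a) = v := by
        funext a
        rw [monomial_zero', map_one, one_mul]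
      rw [e, map_zero]
      exact hv
    | add s t hs ht =>
      intro k v hv
      have e : (fun a => (monomial (s + t) (1 : ℂ) : Sx N) * v a) =
          fun a => (monomial t (1 : ℂ) : Sx N) * ((monomial s (1 : ℂ) : Sx N) * v a) := by
        funext a
        rw [← mul_assoc, monomial_mul, one_mul, add_comm t s]
      rw [e, map_add, ← add_assoc]
      exact ht _ _ (hs _ _ hv)
    | single i n =>
      intro k v hv
      have e : (fun a => (monomial (Finsupp.single i n) (1 : ℂ) : Sx N) * v a) =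
          fun a => (X i : Sx N) ^ n * v a := by
        funext a
        rw [X_pow_eq_monomial]
      have e2 : Finsupp.weight (1 : Fin (N + 1) → ℕ) (Finsupp.single i n) = n := by
        rw [Finsupp.weight_single]
        simp
      rw [e, e2]
      exact h0 i n k v hv
  have e : (fun a => F * v a) = ∑ s ∈ F.support, F.coeff s •
      fun a => (monomial s (1 : ℂ) : Sx N) * v a := by
    funext a
    rw [Finset.sum_apply]
    conv_lhs => rw [F.as_sum, Finset.sum_mul]
    refine Finset.sum_congr rfl fun s _ => ?_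
    rw [Pi.smul_apply, ← smul_mul_assoc, smul_monomial, smul_eq_mul, mul_one]
  rw [e]
  refine Submodule.sum_mem _ fun s hs => Submodule.smul_mem _ _ ?_
  have h2 : Finsupp.weight 1 s = f := hF (mem_support_iff.1 hs)
  rw [← h2]
  exact h1 s k v hv

section Gen

variable {M M' : Type} [AddCommGroup M] [Module (Rx N) M] [Module ℂ M]
  [AddCommGroup M'] [Module (Rx N) M'] [Module ℂ M']

theorem mapC_Kc (f : M →ₗ[Rx N] M') {A : ℕ → Submodule ℂ M} {A' : ℕ → Submodule ℂ M'} {d : ℕ}
    (hf : ∀ k, ∀ x ∈ A k, f x ∈ A' (k + d)) {i m : ℕ} {w : Cn N M} (hw : w ∈ Kc N A i m) :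
    mapC f w ∈ Kc N A' i (m + d) := by
  intro T
  refine ⟨fun h1 h2 => ?_, fun h1 => ?_⟩
  · by_cases h3 : i ≤ m
    · have h4 := hf _ _ ((hw T).1 h1 h3)
      have e : m - i + d = m + d - i := by omega
      rw [e] at h4
      exact h4
    · have h4 : w T = 0 := (hw T).2 (Or.inr (by omega))
      change f (w T) ∈ _
      rw [h4, map_zero]
      exact Submodule.zero_mem _
  · have h4 : w T = 0 := (hw T).2 (h1.imp id fun h => by omega)
    change f (w T) = 0
    rw [h4, map_zero]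

variable [IsScalarTower ℂ (Rx N) M] [IsScalarTower ℂ (Rx N) M']

theorem mapC_Zc (f : M →ₗ[Rx N] M') {A : ℕ → Submodule ℂ M} {A' : ℕ → Submodule ℂ M'} {d : ℕ}
    (hf : ∀ k, ∀ x ∈ A k, f x ∈ A' (k + d)) {i m : ℕ} {w : Cn N M} (hw : w ∈ Zc N A i m) :
    mapC f w ∈ Zc N A' i (m + d) := by
  refine ⟨mapC_Kc f hf hw.1, ?_⟩
  have h1 : dK w = 0 := hw.2
  change dK (mapC f w) = 0
  rw [mapC_dK, h1, map_zero]

theorem mapC_Bc (f : M →ₗ[Rx N] M') {A : ℕ → Submodule ℂ M} {A' : ℕ → Submodule ℂ M'} {d : ℕ}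
    (hf : ∀ k, ∀ x ∈ A k, f x ∈ A' (k + d)) {i m : ℕ} {w : Cn N M} (hw : w ∈ Bc N A i m) :
    mapC f w ∈ Bc N A' i (m + d) := by
  obtain ⟨v, hv, rfl⟩ := hw
  refine ⟨mapC f v, mapC_Kc f hf hv, ?_⟩
  change dK (mapC f v) = mapC f (dK v)
  exact mapC_dK f v

end Gen

section Spec

variable {α β : Type} {I J : Ideal (Sx N)} {V : ℕ → Submodule ℂ (α → Sx N)}
  {W : ℕ → Submodule ℂ (β → Sx N)}

theorem smul_mk (r x : Rx N) : r • (Ideal.Quotient.mk (cc I J) x) = Ideal.Quotient.mk (cc I J) (r * x) :=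
  rfl

theorem rX_mem [Fintype α] (hV : GV V) {ρ : α → Sx N} {d : ℕ} (hρ : ∀ a, (ρ a).IsHomogeneous d)
    (k : ℕ) (c : α × β → CR I J) (hc : c ∈ TPf I J V W k) :
    rX I J ρ c ∈ TPf I J (AF N) W (k + d) := by
  refine Submodule.span_induction (p := fun c _ => rX I J ρ c ∈ TPf I J (AF N) W (k + d))
    ?_ ?_ ?_ ?_ hc
  · rintro _ ⟨k1, k2, v, w, hk, hv, hw, rfl⟩
    refine Submodule.subset_span ⟨d + k1, k2, fun _ => ∑ a, ρ a * v a, w, by omega, ?_, hw, ?_⟩
    · intro _
      exact IsHomogeneous.sum _ _ _ fun a _ => (hρ a).mul (hV.hom k1 v hv a)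
    · funext p
      change ∑ a, (ix (ρ a) : Rx N) • (Ideal.Quotient.mk (cc I J) (ix (v a) * iy (w p.2))) =
        Ideal.Quotient.mk (cc I J) (ix (∑ a, ρ a * v a) * iy (w p.2))
      rw [map_sum, Finset.sum_mul, map_sum]
      refine Finset.sum_congr rfl fun a _ => ?_
      rw [smul_mk, map_mul (ix : Sx N →ₐ[ℂ] Rx N), mul_assoc]
  · rw [map_zero]
    exact Submodule.zero_mem _
  · intro x y _ _ hx hy
    rw [map_add]
    exact Submodule.add_mem _ hx hy
  · intro r x _ hx
    rw [LinearMap.map_smul_of_tower]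
    exact Submodule.smul_mem _ _ hx

theorem phiE_mem (hV : GV V) {e : α → Sx N} {κ : ℕ} (he : e ∈ V κ) {G : Sx N} {g : ℕ}
    (hG : G.IsHomogeneous g) (k : ℕ) (c : Unit × β → CR I J) (hc : c ∈ TPf I J (AF N) W k) :
    ((ix G : Rx N) • phiE (β := β) I J e) c ∈ TPf I J V W (k + (g + κ)) := by
  refine Submodule.span_induction
    (p := fun c _ => ((ix G : Rx N) • phiE (β := β) I J e) c ∈ TPf I J V W (k + (g + κ)))
    ?_ ?_ ?_ ?_ hc
  · rintro _ ⟨k1, k2, v, w, hk, hv, hw, rfl⟩
    refine Submodule.subset_span ⟨κ + (g + k1), k2, fun a => (G * v ()) * e a, w, by omega,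
      gv_mul hV (hG.mul (hv ())) he, hw, ?_⟩
    funext p
    change (ix G : Rx N) • (ix (e p.1) : Rx N) •
      (Ideal.Quotient.mk (cc I J) (ix (v ()) * iy (w p.2))) =
        Ideal.Quotient.mk (cc I J) (ix (G * v () * e p.1) * iy (w p.2))
    rw [smul_mk, smul_mk, map_mul (ix : Sx N →ₐ[ℂ] Rx N), map_mul (ix : Sx N →ₐ[ℂ] Rx N)]
    congr 1
    ring
  · rw [map_zero]
    exact Submodule.zero_mem _
  · intro x y _ _ hx hy
    rw [map_add]
    exact Submodule.add_mem _ hx hy
  · intro r x _ hx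
    rw [LinearMap.map_smul_of_tower]
    exact Submodule.smul_mem _ _ hx

theorem frame_id [Fintype α] {D : Sx N} {r : ℕ} {e ρ : Fin r → (α → Sx N)}
    (hfr : ∀ m, ∀ v ∈ V m, ∀ a, D * v a - ∑ l, (∑ a', ρ l a' * v a') * e l a ∈ I) (k : ℕ)
    (c : α × β → CR I J) (hc : c ∈ TPf I J V W k) :
    (ix D : Rx N) • c = ∑ l, phiE I J (e l) (rX I J (ρ l) c) := by
  refine Submodule.span_induction
    (p := fun c _ => (ix D : Rx N) • c = ∑ l, phiE I J (e l) (rX I J (ρ l) c)) ?_ ?_ ?_ ?_ hc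
  · rintro _ ⟨k1, k2, v, w, hk, hv, hw, rfl⟩
    funext p
    rw [Finset.sum_apply]
    change (ix D : Rx N) • (Ideal.Quotient.mk (cc I J) (ix (v p.1) * iy (w p.2))) =
      ∑ l, (ix (e l p.1) : Rx N) • ∑ a, (ix (ρ l a) : Rx N) •
        (Ideal.Quotient.mk (cc I J) (ix (v a) * iy (w p.2)))
    have e1 : ∀ l, (ix (e l p.1) : Rx N) • ∑ a, (ix (ρ l a) : Rx N) •
        (Ideal.Quotient.mk (cc I J) (ix (v a) * iy (w p.2))) =
        Ideal.Quotient.mk (cc I J) (ix ((∑ a, ρ l a * v a) * e l p.1) * iy (w p.2)) := by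
      intro l
      have e2 : ∑ a, (ix (ρ l a) : Rx N) • (Ideal.Quotient.mk (cc I J) (ix (v a) * iy (w p.2))) =
          Ideal.Quotient.mk (cc I J) (ix (∑ a, ρ l a * v a) * iy (w p.2)) := by
        rw [map_sum, Finset.sum_mul, map_sum]
        refine Finset.sum_congr rfl fun a _ => ?_
        rw [smul_mk, map_mul (ix : Sx N →ₐ[ℂ] Rx N), mul_assoc]
      rw [e2, smul_mk, map_mul (ix : Sx N →ₐ[ℂ] Rx N)]
      congr 1
      ring
    rw [Finset.sum_congr rfl fun l _ => e1 l, smul_mk, ← map_sum, ← Finset.sum_mul, ← map_sum,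
      Ideal.Quotient.eq]
    have e3 : (ix D : Rx N) * (ix (v p.1) * iy (w p.2)) -
        ix (∑ l, (∑ a, ρ l a * v a) * e l p.1) * iy (w p.2) =
        ix (D * v p.1 - ∑ l, (∑ a, ρ l a * v a) * e l p.1) * iy (w p.2) := by
      rw [map_sub, map_mul]
      ring
    rw [e3]
    refine Ideal.mul_mem_right _ _ ((le_sup_left : _ ≤ cc I J) ?_)
    exact Ideal.mem_map_of_mem _ (hfr k1 v hv p.1)
  · rw [smul_zero]
    symm
    refine Finset.sum_eq_zero fun l _ => ?_
    rw [map_zero, map_zero]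
  · intro x y _ _ hx hy
    rw [smul_add, hx, hy, ← Finset.sum_add_distrib]
    refine Finset.sum_congr rfl fun l _ => ?_
    rw [map_add, map_add]
  · intro t x _ hx
    rw [smul_comm, hx, Finset.smul_sum]
    refine Finset.sum_congr rfl fun l _ => ?_
    rw [LinearMap.map_smul_of_tower, LinearMap.map_smul_of_tower]

theorem frame_idC [Fintype α] {D : Sx N} {r : ℕ} {e ρ : Fin r → (α → Sx N)}
    (hfr : ∀ m, ∀ v ∈ V m, ∀ a, D * v a - ∑ l, (∑ a', ρ l a' * v a') * e l a ∈ I) {i m : ℕ}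
    {w : Cn N (α × β → CR I J)} (hw : w ∈ Kc N (TPf I J V W) i m) :
    (ix D : Rx N) • w = ∑ l, mapC (phiE I J (e l)) (mapC (rX I J (ρ l)) w) := by
  funext T
  rw [Finset.sum_apply]
  change (ix D : Rx N) • w T = ∑ l, phiE I J (e l) (rX I J (ρ l) (w T))
  by_cases hT : T.card = i ∧ i ≤ m
  · exact frame_id hfr _ _ ((hw T).1 hT.1 hT.2)
  · have h4 : w T = 0 := (hw T).2 (by
      by_contra h5
      push Not at h5
      exact hT h5)
    rw [h4, smul_zero]
    symm
    refine Finset.sum_eq_zero fun l _ => ?_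
    rw [map_zero, map_zero]

theorem dg_smul (h : I ≤ J) (F : Sx N) (c : CR I J) :
    dg h ((ix F : Rx N) • c) = F • dg h c := by
  obtain ⟨x, rfl⟩ := Ideal.Quotient.mk_surjective c
  change ((Ideal.Quotient.mkₐ ℂ J).comp dgS) (ix F * x) =
    Ideal.Quotient.mk J F * ((Ideal.Quotient.mkₐ ℂ J).comp dgS) x
  rw [map_mul, AlgHom.comp_apply, dgS_ix]
  rfl

theorem rho_rX [Fintype α] (h : I ≤ J) (ρ : α → Sx N) (w : Cn N (α × β → CR I J))
    (q : (Unit × β) × Finset (Fin (N + 1))) :
    rho h (Unit × β) (mapC (rX I J ρ) w) q =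
      ∑ a, ρ a • rho h (α × β) w ((a, q.1.2), q.2) := by
  change dg h (∑ a, (ix (ρ a) : Rx N) • w q.2 (a, q.1.2)) = _
  rw [map_sum]
  exact Finset.sum_congr rfl fun a _ => dg_smul h _ _

theorem rho_phiE (h : I ≤ J) (e : α → Sx N) (u : Cn N (Unit × β → CR I J))
    (q : (α × β) × Finset (Fin (N + 1))) :
    rho h (α × β) (mapC (phiE I J e) u) q =
      e q.1.1 • rho h (Unit × β) u (((), q.1.2), q.2) := by
  change dg h ((ix (e q.1.1) : Rx N) • u q.2 ((), q.1.2)) = _
  exact dg_smul h _ _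

theorem rho_smul (h : I ≤ J) {γ : Type} (F : Sx N) (w : Cn N (γ → CR I J)) :
    rho h γ ((ix F : Rx N) • w) = F • rho h γ w := by
  funext q
  change dg h ((ix F : Rx N) • w q.2 q.1) = _
  exact dg_smul h _ _

/-- `u ↦ (f_q u_(g q))_q`. -/
def mulL {γ γ' : Type} (f : γ → Sx N) (g : γ → γ') : (γ' → Sx N) →ₗ[ℂ] (γ → Sx N) where
  toFun u := fun q => f q * u (g q)
  map_add' u v := by
    funext q
    change f q * (u (g q) + v (g q)) = f q * u (g q) + f q * v (g q)
    ring
  map_smul' r u := by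
    funext q
    change f q * (r • u (g q)) = r • (f q * u (g q))
    rw [MvPolynomial.smul_eq_C_mul, MvPolynomial.smul_eq_C_mul]
    ring

/-- Products with `G e` of the elements of `PV (AF N) W`. -/
theorem pv_mem1 (hV : GV V) {e : α → Sx N} {κ : ℕ} (he : e ∈ V κ) {G : Sx N} {g : ℕ}
    (hG : G.IsHomogeneous g) (k : ℕ) : PV (AF N) W k ≤ (PV V W (k + (g + κ))).comap
      (mulL (fun q : α × β => G * e q.1) fun q => ((), q.2)) := by
  refine Submodule.span_le.2 ?_
  rintro _ ⟨k1, k2, v, w, hk, hv, hw, rfl⟩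
  refine Submodule.subset_span ⟨κ + (g + k1), k2, fun a => (G * v ()) * e a, w, by omega,
    gv_mul hV (hG.mul (hv ())) he, hw, ?_⟩
  funext q
  change G * e q.1 * (v () * w q.2) = G * v () * e q.1 * w q.2
  ring

theorem pv_mem2 (hV : GV V) {e : α → Sx N} {κ : ℕ} (he : e ∈ V κ) {G : Sx N} {g : ℕ}
    (hG : G.IsHomogeneous g) {γ : Type} {U : ℕ → Submodule ℂ (γ → Sx N)} (k : ℕ) :
    PV (PV (AF N) W) U k ≤ (PV (PV V W) U (k + (g + κ))).comap
      (mulL (fun q : (α × β) × γ => G * e q.1.1) fun q => (((), q.1.2), q.2)) := by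
  refine Submodule.span_le.2 ?_
  rintro _ ⟨k1, k2, v, w, hk, hv, hw, rfl⟩
  refine Submodule.subset_span ⟨k1 + (g + κ), k2,
    mulL (fun q : α × β => G * e q.1) (fun q => ((), q.2)) v, w, by omega,
    pv_mem1 hV he hG k1 hv, hw, ?_⟩
  funext q
  change G * e q.1.1 * (v ((), q.1.2) * w q.2) = G * e q.1.1 * v ((), q.1.2) * w q.2
  ring

theorem smulJ (r : Sx N) (x : Sx N ⧸ J) : r • x = Ideal.Quotient.mk J r * x := by
  obtain ⟨y, rfl⟩ := Ideal.Quotient.mk_surjective x
  rfl

theorem prod_hom {r : ℕ} (s : Finset (Fin r)) {D : Fin r → Sx N} {δ : Fin r → ℕ}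
    (hD : ∀ l, (D l).IsHomogeneous (δ l)) : (∏ l ∈ s, D l).IsHomogeneous (∑ l ∈ s, δ l) :=
  IsHomogeneous.prod s D δ fun l _ => hD l

end Spec

end RLocVAux

open RLocVAux in
/-- (RLocV) The local statements for a module `V` with local frames. -/
theorem kRLocV : S_RLocI → S_RLocJ → S_RLocV := by
  intro hRI hRJ N c α β _ _ I J h V W hI hJ hS hV hW hL p hp hp0 i m him w hw
  classical
  obtain ⟨r, e, ρ, κ, D0, δ0, hD0, hD0p, he, hfr⟩ := hL p hp hp0
  have hwl : ∀ l, mapC (rX I J (ρ l)) w ∈ Zc N (TPf I J (AF N) W) i (m + (δ0 - κ l)) := fun l =>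
    mapC_Zc _ (rX_mem hV (he l).2.2) hw
  have hid := frame_idC (W := W) hfr hw.1
  by_cases h0 : rho h (α × β) w = 0
  · -- the cycle is a boundary
    have h1 : ∀ l, rho h (Unit × β) (mapC (rX I J (ρ l)) w) = 0 := by
      intro l
      funext q
      rw [rho_rX]
      refine Finset.sum_eq_zero fun a _ => ?_
      rw [h0, Pi.zero_apply, smul_zero]
    choose D δ hD hDp hB using fun l =>
      hRI N c β I J h W hI hJ hS hW p hp hp0 i (m + (δ0 - κ l)) _ (hwl l) (h1 l)
    refine ⟨(∏ l, D l) * D0, (∑ l, δ l) + δ0, (prod_hom _ hD).mul hD0, ?_, fun _ => ?_, ?_⟩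
    · rw [map_mul, map_prod]
      exact mul_ne_zero (Finset.prod_ne_zero_iff.2 fun l _ => hDp l) hD0p
    · have e1 : (ix ((∏ l, D l) * D0) : Rx N) • w =
          ∑ l, mapC ((ix (∏ l' ∈ Finset.univ.erase l, D l') : Rx N) • phiE I J (e l))
            ((ix (D l) : Rx N) • mapC (rX I J (ρ l)) w) := by
        rw [map_mul, mul_smul, hid, Finset.smul_sum]
        refine Finset.sum_congr rfl fun l _ => ?_
        have e2 : (∏ l, D l) = (∏ l' ∈ Finset.univ.erase l, D l') * D l :=
          (Finset.prod_erase_mul _ _ (Finset.mem_univ l)).symm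
        rw [e2, map_mul, mul_smul, ← map_smul]
        rfl
      rw [e1]
      refine Submodule.sum_mem _ fun l _ => ?_
      have h2 := mapC_Bc ((ix (∏ l' ∈ Finset.univ.erase l, D l') : Rx N) • phiE I J (e l))
        (phiE_mem (W := W) hV (he l).1 (prod_hom (Finset.univ.erase l) hD)) (hB l)
      have e3 : m + (δ0 - κ l) + δ l + (∑ l' ∈ Finset.univ.erase l, δ l' + κ l) =
          m + ((∑ l, δ l) + δ0) := by
        have h3 := Finset.sum_erase_add Finset.univ δ (Finset.mem_univ l)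
        have h4 := (he l).2.1
        omega
      rw [e3] at h2
      exact h2
    · rw [h0, smul_zero]
      exact Submodule.zero_mem _
  · -- the image
    choose D δ hD hDp hB using fun l =>
      hRJ N c β I J h W hI hJ hS hW p hp hp0 i (m + (δ0 - κ l)) (by omega) _ (hwl l)
    refine ⟨(∏ l, D l) * D0, (∑ l, δ l) + δ0, (prod_hom _ hD).mul hD0, ?_, fun h1 => absurd h1 h0, ?_⟩
    · rw [map_mul, map_prod]
      exact mul_ne_zero (Finset.prod_ne_zero_iff.2 fun l _ => hDp l) hD0p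
    · choose z hz hzr using fun l => hB l
      have e1 : ((∏ l, D l) * D0) • rho h (α × β) w =
          ∑ l, redL ((α × β) × Finset (Fin (N + 1))) J
            (mulL (fun q : (α × β) × Finset (Fin (N + 1)) =>
              (∏ l' ∈ Finset.univ.erase l, D l') * e l q.1.1) (fun q => (((), q.1.2), q.2))
              (z l)) := by
        rw [mul_smul, ← rho_smul, hid, map_sum, Finset.smul_sum]
        refine Finset.sum_congr rfl fun l _ => ?_
        funext q
        have e2 : (∏ l, D l) = (∏ l' ∈ Finset.univ.erase l, D l') * D l :=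
          (Finset.prod_erase_mul _ _ (Finset.mem_univ l)).symm
        have e3 : Ideal.Quotient.mk J (z l (((), q.1.2), q.2)) =
            D l • rho h (Unit × β) (mapC (rX I J (ρ l)) w) (((), q.1.2), q.2) :=
          congrFun (hzr l) (((), q.1.2), q.2)
        rw [Pi.smul_apply, rho_phiE]
        change _ = Ideal.Quotient.mk J ((∏ l' ∈ Finset.univ.erase l, D l') * e l q.1.1 *
          z l (((), q.1.2), q.2))
        rw [map_mul (Ideal.Quotient.mk J) (_ * _), e3, e2, smulJ, smulJ, smulJ, map_mul, map_mul]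
        ring
      rw [e1]
      refine Submodule.sum_mem _ fun l _ => Submodule.mem_map_of_mem ?_
      have h2 := pv_mem2 (W := W) hV (he l).1 (prod_hom (Finset.univ.erase l) hD) _ (hz l)
      have e3 : m + (δ0 - κ l) - i + δ l + (∑ l' ∈ Finset.univ.erase l, δ l' + κ l) =
          m - i + ((∑ l, δ l) + δ0) := by
        have h3 := Finset.sum_erase_add Finset.univ δ (Finset.mem_univ l)
        have h4 := (he l).2.1
        omega
      rw [e3] at h2
      exact h2

end Pool.Agent.Lib.MP_776403_ag.SD
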