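import Pool.Agent.Lib.MP_776403_ag.SD.K.SpecR

/-!
# THEOREM SD, part K, `S_RMu`: the multiplication `(S / I) ⊗ M → M`
-/

set_option autoImplicit false

open MvPolynomial TensorProduct

noncomputable section

namespace Pool.Agent.Lib.MP_776403_ag.SD

namespace RMuAux

variable {N : ℕ} {I' : Ideal (Sx N)} {M : Type} [AddCommGroup M] [Module ℂ M]
    [Module (Sx N) M] [IsScalarTower ℂ (Sx N) M]

/-- The action of `S / I'`. -/
def lq (h : ∀ f ∈ I', ∀ m : M, f • m = 0) : (Sx N ⧸ I') →ₗ[Sx N] (M →ₗ[Sx N] M) :=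
  Submodule.liftQ I' (LinearMap.lsmul (Sx N) M) (fun f hf => by
    rw [LinearMap.mem_ker]
    exact LinearMap.ext fun m => h f hf m)

omit [Module ℂ M] [IsScalarTower ℂ (Sx N) M] in
theorem lq_mk (h : ∀ f ∈ I', ∀ m : M, f • m = 0) (f : Sx N) (m : M) :
    lq h (Ideal.Quotient.mk I' f) m = f • m := rfl

/-- The bilinear form. -/
def bt (h : ∀ f ∈ I', ∀ m : M, f • m = 0) : (Sx N ⧸ I') →ₗ[ℂ] (M →ₗ[ℂ] M) :=
  LinearMap.mk₂ ℂ (fun q m => lq h q m)
    (fun q q' m => by rw [map_add, LinearMap.add_apply])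
    (fun c q m => by rw [LinearMap.map_smul_of_tower, LinearMap.smul_apply])
    (fun q m m' => map_add _ _ _)
    (fun c q m => LinearMap.map_smul_of_tower _ _ _)

/-- The map. -/
def mu (h : ∀ f ∈ I', ∀ m : M, f • m = 0) : TM N (Sx N ⧸ I') M →ₗ[ℂ] M :=
  TensorProduct.lift (bt h)

theorem mu_tm (h : ∀ f ∈ I', ∀ m : M, f • m = 0) (l : Sx N ⧸ I') (m : M) :
    mu h (tm N l m) = lq h l m := TensorProduct.lift.tmul _ _

theorem mu_X (h : ∀ f ∈ I', ∀ m : M, f • m = 0) (n : Fin (N + 1) ⊕ Fin (N + 1))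
    (a : TM N (Sx N ⧸ I') M) :
    mu h ((X n : Rx N) • a) = (dgS (X n : Rx N) : Sx N) • mu h a := by
  refine TensorProduct.induction_on
    (motive := fun a : TM N (Sx N ⧸ I') M =>
      mu h ((X n : Rx N) • a) = (dgS (X n : Rx N) : Sx N) • mu h a) a ?_ ?_ ?_
  · exact (congrArg (mu h) (smul_zero (X n : Rx N))).trans
      ((map_zero (mu h)).trans
        ((congrArg (fun t => (dgS (X n : Rx N) : Sx N) • t) (map_zero (mu h))).trans
          (smul_zero _)).symm)
  · intro l m
    change mu h ((X n : Rx N) • tm N l m) = (dgS (X n : Rx N) : Sx N) • mu h (tm N l m)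
    rcases n with k | k
    · have h1 : (X (Sum.inl k) : Rx N) = ix (X k) := by
        unfold ix
        rw [rename_X]
      rw [h1, ix_smul_tm, dgS_ix, mu_tm, mu_tm, map_smul, LinearMap.smul_apply]
    · have h1 : (X (Sum.inr k) : Rx N) = iy (X k) := by
        unfold iy
        rw [rename_X]
      rw [h1, iy_smul_tm, dgS_iy, mu_tm, mu_tm, map_smul]
  · have key : ∀ a b : TM N (Sx N ⧸ I') M,
        mu h ((X n : Rx N) • a) = (dgS (X n : Rx N) : Sx N) • mu h a →
        mu h ((X n : Rx N) • b) = (dgS (X n : Rx N) : Sx N) • mu h b →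
        mu h ((X n : Rx N) • (a + b)) = (dgS (X n : Rx N) : Sx N) • mu h (a + b) := by
      intro a b ha hb
      rw [smul_add, map_add, map_add, ha, hb, smul_add]
    intro a b ha hb
    exact key a b ha hb

end RMuAux

open RMuAux in
/-- **The multiplication.** -/
theorem kRMu : S_RMu := by
  intro N I' M _ _ _ _ h
  refine ⟨mu h, fun f m => by rw [mu_tm, lq_mk], fun r => ?_⟩
  induction r using MvPolynomial.induction_on with
  | C c =>
    intro a
    have h1 : (C c : Rx N) • a = c • a := algebraMap_smul (Rx N) c a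
    have h2 : dgS (C c : Rx N) = (C c : Sx N) := by
      unfold dgS
      rw [aeval_C]
      rfl
    have h3 : (C c : Sx N) • mu h a = c • mu h a := algebraMap_smul (Sx N) c (mu h a)
    rw [h1, map_smul, h2, h3]
  | add p q hp hq =>
    intro a
    rw [add_smul, map_add, hp, hq, map_add, add_smul]
  | mul_X p n hp =>
    intro a
    rw [mul_smul, hp, mu_X, map_mul, mul_smul]

end Pool.Agent.Lib.MP_776403_ag.SD
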