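import Pool.Agent.Lib.MP_776403_ag.SD.K.SpecR

/-!
# THEOREM SD, part K: functions with independent differentials form a regular sequence

`kRReg`: the statement `S_RReg` of `SpecR.lean`.
-/

set_option autoImplicit false

open MvPolynomial TensorProduct

noncomputable section

namespace Pool.Agent.Lib.MP_776403_ag.SD

namespace RRegAux

/-- Krull's intersection theorem for `R / b`. -/
theorem krull {R : Type} [CommRing R] [IsNoetherianRing R] (𝔪 𝔟 : Ideal R) (a : R)
    (h : ∀ k : ℕ, a ∈ 𝔟 ⊔ 𝔪 ^ k) : ∃ r ∈ 𝔪, (1 - r) * a ∈ 𝔟 := by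
  have h1 : (Ideal.Quotient.mk 𝔟 a) ∈ (⨅ i : ℕ, 𝔪 ^ i • ⊤ : Submodule R (R ⧸ 𝔟)) := by
    rw [Submodule.mem_iInf]
    intro k
    obtain ⟨b, hb, m, hm, hbm⟩ := Submodule.mem_sup.1 (h k)
    have h2 : Ideal.Quotient.mk 𝔟 a = m • (Ideal.Quotient.mk 𝔟 1) := by
      rw [← hbm, map_add, Ideal.Quotient.eq_zero_iff_mem.2 hb, zero_add]
      change _ = Ideal.Quotient.mk 𝔟 (m * 1)
      rw [mul_one]
    rw [h2]
    exact Submodule.smul_mem_smul hm Submodule.mem_top
  rw [Ideal.mem_iInf_smul_pow_eq_bot_iff] at h1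
  obtain ⟨r, hr⟩ := h1
  refine ⟨r.1, r.2, ?_⟩
  have h3 : Ideal.Quotient.mk 𝔟 (r.1 * a) = Ideal.Quotient.mk 𝔟 a := hr
  rw [← Ideal.Quotient.eq_zero_iff_mem, sub_mul, one_mul, map_sub, h3, sub_self]

end RRegAux

theorem kRReg : S_RLead → S_RReg := by
  intro hL N n F p hF hlin s a ha
  set m : ℕ := s.val with hm
  have hle : m + 1 ≤ n := s.isLt
  set F' : Fin (m + 1) → Sx N := fun i => F (Fin.castLE hle i) with hF'
  have hlast : F' (Fin.last m) = F s := by
    rw [hF']
    congr 1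
  have himg : F '' {t | t < s} = Set.range (fun i : Fin m => F' i.castSucc) := by
    ext x
    constructor
    · rintro ⟨t, ht, rfl⟩
      exact ⟨⟨t.val, ht⟩, by rw [hF']; congr 1⟩
    · rintro ⟨i, rfl⟩
      refine ⟨Fin.castLE hle i.castSucc, ?_, rfl⟩
      change (Fin.castLE hle i.castSucc).val < s.val
      rw [Fin.val_castLE, Fin.val_castSucc]
      exact i.isLt
  rw [himg] at ha ⊢
  obtain ⟨b, hb⟩ := (Submodule.mem_span_range_iff_exists_fun (Sx N)).1 ha
  have hlin' : LinearIndependent ℂ (fun i => grad (F' i) p) :=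
    hlin.comp (Fin.castLE hle) (Fin.castLE_injective hle)
  have hsum : ∑ i, (Fin.snoc (α := fun _ => Sx N) (fun i => - b i) a : Fin (m + 1) → Sx N) i *
      F' i = 0 := by
    rw [Fin.sum_univ_castSucc]
    simp only [Fin.snoc_castSucc, Fin.snoc_last, hlast]
    have h1 : ∑ i, - b i * F' i.castSucc = - ∑ i, b i • F' i.castSucc := by
      rw [← Finset.sum_neg_distrib]
      exact Finset.sum_congr rfl fun i _ => by rw [smul_eq_mul, neg_mul]
    rw [h1, hb, mul_comm a, neg_add_cancel]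
  have hk : ∀ k : ℕ, a ∈ Ideal.span (Set.range (fun i : Fin m => F' i.castSucc)) ⊔
      (RingHom.ker (eval p : Sx N →+* ℂ)) ^ k := by
    intro k
    obtain ⟨e, he, hek⟩ := hL N (m + 1) F' p (fun i => hF _) hlin' _ hsum k
    have h1 := hek (Fin.last m)
    rw [Fin.snoc_last, Fin.sum_univ_castSucc] at h1
    have h2 : e (Fin.last m) (Fin.last m) = 0 := by
      have h3 := he (Fin.last m) (Fin.last m)
      exact self_eq_neg.1 h3
    rw [h2, zero_mul, add_zero] at h1
    have h4 : a = ∑ i : Fin m, e (Fin.last m) i.castSucc * F' i.castSucc +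
        (a - ∑ i : Fin m, e (Fin.last m) i.castSucc * F' i.castSucc) := by ring
    rw [h4]
    refine Submodule.add_mem_sup (Ideal.sum_mem _ fun i _ => Ideal.mul_mem_left _ _ ?_) h1
    exact Ideal.subset_span ⟨i, rfl⟩
  obtain ⟨r, hr, hra⟩ := RRegAux.krull _ _ a hk
  refine ⟨1 - r, ?_, hra⟩
  rw [RingHom.mem_ker] at hr
  rw [map_sub, map_one, hr, sub_zero]
  exact one_ne_zero

end Pool.Agent.Lib.MP_776403_ag.SD
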