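import Pool.Agent.Lib.MP_776403_ag.SD.K.SpecR

set_option autoImplicit false

open MvPolynomial TensorProduct

noncomputable section

namespace Pool.Agent.Lib.MP_776403_ag.SD

namespace RStepAux

variable {N : ℕ}

theorem ann {M : Type} [AddCommGroup M] [Module (Sx N) M] (hC : S_RCar) {s : ℕ}
    (G : Fin s → Fin (N + 1) → Sx N) (v : Fin (N + 1) → Sx N) (hv : ∀ t, ∑ k, v k * G t k = 0)
    (j : ℕ) : ∀ U ∈ WL M G j, cG v U = 0 := by
  induction j with
  | zero =>
    intro U hU
    have hU' : Sup 0 U := hU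
    funext T
    change ∑ k ∈ Tᶜ, sg k T • (v k • U (insert k T)) = 0
    refine Finset.sum_eq_zero fun k _ => ?_
    rw [hU' (insert k T) (by simp), smul_zero, smul_zero]
  | succ j ih =>
    have h : WL M G (j + 1) ≤ LinearMap.ker (cG (M := M) v) := by
      change (⨆ k, (WL M G j).map (wG (G k))) ≤ _
      refine iSup_le fun t => Submodule.map_le_iff_le_comap.2 fun U hU => ?_
      change cG v (wG (G t) U) = 0
      have h1 := (hC N (Sx N) M v v (G t) (G t) U).1
      rw [ih U hU, map_zero, add_zero, hv t, zero_smul] at h1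
      exact h1
    exact fun U hU => h hU

theorem mono {M : Type} [AddCommGroup M] [Module (Sx N) M] {s : ℕ}
    (G : Fin s → Fin (N + 1) → Sx N) (g : Fin (N + 1) → Sx N) (j : ℕ) :
    WL M G j ≤ WL M (Fin.snoc (α := fun _ => Fin (N + 1) → Sx N) G g) j := by
  induction j with
  | zero => exact le_refl _
  | succ j ih =>
    change (⨆ k, (WL M G j).map (wG (G k))) ≤ ⨆ k, (WL M (Fin.snoc (α := fun _ =>
      Fin (N + 1) → Sx N) G g) j).map (wG (Fin.snoc (α := fun _ => Fin (N + 1) → Sx N) G g k))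
    refine iSup_le fun t => le_trans ?_ (le_iSup _ (Fin.castSucc t))
    rw [Fin.snoc_castSucc]
    exact Submodule.map_mono ih

theorem last {M : Type} [AddCommGroup M] [Module (Sx N) M] {s : ℕ}
    (G : Fin s → Fin (N + 1) → Sx N) (g : Fin (N + 1) → Sx N) (j : ℕ) (U : Cn N M)
    (hU : U ∈ WL M G j) :
    wG g U ∈ WL M (Fin.snoc (α := fun _ => Fin (N + 1) → Sx N) G g) (j + 1) := by
  change _ ∈ ⨆ k, (WL M (Fin.snoc (α := fun _ =>
      Fin (N + 1) → Sx N) G g) j).map (wG (Fin.snoc (α := fun _ => Fin (N + 1) → Sx N) G g k))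
  refine (le_iSup (fun k => (WL M (Fin.snoc (α := fun _ =>
      Fin (N + 1) → Sx N) G g) j).map (wG (Fin.snoc (α := fun _ => Fin (N + 1) → Sx N) G g k)))
      (Fin.last s)) ?_
  refine ⟨U, mono G g j hU, ?_⟩
  rw [Fin.snoc_last]

section

variable {A : Type} [AddCommGroup A] [Module (Rx N) A]

theorem dK_sup {i : ℕ} {w : Cn N A} (hw : Sup i w) (T : Finset (Fin (N + 1)))
    (hT : T.card + 1 ≠ i) : dK w T = 0 := by
  change ∑ k ∈ Tᶜ, sg k T • ((zz k : Rx N) • w (insert k T)) = 0
  refine Finset.sum_eq_zero fun k hk => ?_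
  rw [hw (insert k T) (by rw [Finset.card_insert_of_notMem (Finset.mem_compl.1 hk)]; exact hT),
    smul_zero, smul_zero]

theorem wG_sup (q : Fin (N + 1) → Rx N) {i : ℕ} {u : Cn N A}
    (hu : ∀ T : Finset (Fin (N + 1)), T.card + 1 ≠ i → u T = 0) : Sup i (wG q u) := by
  intro T hT
  change ∑ k ∈ T, sg k (T.erase k) • (q k • u (T.erase k)) = 0
  refine Finset.sum_eq_zero fun k hk => ?_
  rw [hu (T.erase k) (by rw [Finset.card_erase_add_one hk]; exact hT), smul_zero, smul_zero]

theorem smul_sup {i : ℕ} {u : Cn N A} (hu : Sup i u) (r : Rx N) : Sup i (r • u) := by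
  intro T hT
  rw [Pi.smul_apply, hu T hT, smul_zero]

theorem wG_dK (hC : S_RCar) {F : Sx N} {q : Fin (N + 1) → Rx N} (hq : IsDq F q)
    (hy : ∀ t : A, (iy F : Rx N) • t = 0) (u : Cn N A) :
    dK (wG q u) + wG q (dK u) = (ix F : Rx N) • u := by
  have h1 := (hC N (Rx N) A zz zz q q u).1
  rw [← hq.1, sub_smul] at h1
  have h2 : (iy F : Rx N) • u = 0 := by
    funext T
    exact hy (u T)
  rw [h2, sub_zero] at h1
  exact h1

theorem tors {F : Sx N} {p : Vx N}
    (ht : ∀ t : A, (ix F : Rx N) • t = 0 → ∃ g, eval p g ≠ 0 ∧ (ix g : Rx N) • t = 0)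
    (u : Cn N A) (hu : (ix F : Rx N) • u = 0) :
    ∃ g : Sx N, eval p g ≠ 0 ∧ (ix g : Rx N) • u = 0 := by
  have h1 : ∀ T, ∃ g, eval p g ≠ 0 ∧ (ix g : Rx N) • u T = 0 := fun T => ht (u T) (congrFun hu T)
  choose g hg hg' using h1
  refine ⟨∏ T, g T, ?_, ?_⟩
  · rw [map_prod]
    exact Finset.prod_ne_zero_iff.2 fun T _ => hg T
  · funext T
    rw [Pi.smul_apply, Pi.zero_apply, ← Finset.prod_erase_mul _ _ (Finset.mem_univ T), map_mul,
      mul_smul, hg' T, smul_zero]

end

theorem rho_wG {A' M : Type} [AddCommGroup A'] [Module ℂ A'] [Module (Rx N) A']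
    [AddCommGroup M] [Module ℂ M] [Module (Sx N) M] {ρ' : A' →ₗ[ℂ] M} (hd : DgL N ρ')
    {F : Sx N} {q : Fin (N + 1) → Rx N} (hq : IsDq F q) (u : Cn N A') :
    (fun T => ρ' (wG q u T)) = wG (dF F) (fun T => ρ' (u T)) := by
  funext T
  change ρ' (∑ k ∈ T, sg k (T.erase k) • (q k • u (T.erase k))) =
    ∑ k ∈ T, sg k (T.erase k) • (dF F k • ρ' (u (T.erase k)))
  rw [map_sum]
  refine Finset.sum_congr rfl fun k _ => ?_
  rw [map_zsmul, hd, hq.2 k]
  rfl

/-- The lift of a cycle. -/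
theorem lift (hC : S_RCar) {p : Vx N} {A' A : Type} [AddCommGroup A'] [Module (Rx N) A']
    [AddCommGroup A] [Module (Rx N) A] (π : A' →ₗ[Rx N] A) {F : Sx N}
    (hs : Function.Surjective π) (hk : ∀ t, π t = 0 → ∃ t', t = (ix F : Rx N) • t')
    (ht : ∀ t : A', (ix F : Rx N) • t = 0 → ∃ g, eval p g ≠ 0 ∧ (ix g : Rx N) • t = 0)
    {i : ℕ} {w : Cn N A} (hw : Sup i w) (hc : dK w = 0) :
    ∃ (g : Sx N) (w' u : Cn N A'), eval p g ≠ 0 ∧ mapC π w' = (ix g : Rx N) • w ∧ Sup i w' ∧
      dK w' = (ix F : Rx N) • u ∧ dK u = 0 ∧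
      ∀ T : Finset (Fin (N + 1)), T.card + 1 ≠ i → u T = 0 := by
  classical
  have h1 : ∀ T, ∃ t, π t = w T ∧ (w T = 0 → t = 0) := by
    intro T
    by_cases h : w T = 0
    · exact ⟨0, by rw [map_zero, h], fun _ => rfl⟩
    · obtain ⟨t, ht⟩ := hs (w T)
      exact ⟨t, ht, fun h' => absurd h' h⟩
  choose w0 hw0 hw0' using h1
  have hm : mapC π w0 = w := by
    funext T
    exact hw0 T
  have hS : Sup i w0 := fun T hT => hw0' T (hw T hT)
  have h2 : ∀ T, ∃ t, dK w0 T = (ix F : Rx N) • t ∧ (dK w0 T = 0 → t = 0) := by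
    intro T
    by_cases h : dK w0 T = 0
    · exact ⟨0, by rw [smul_zero, h], fun _ => rfl⟩
    · have h3 : π (dK w0 T) = 0 := by
        have h4 := congrFun (mapC_dK π w0) T
        rw [hm, hc] at h4
        exact h4.symm
      obtain ⟨t, ht⟩ := hk _ h3
      exact ⟨t, ht, fun h' => absurd h' h⟩
  choose u0 hu0 hu0' using h2
  have hu1 : dK w0 = (ix F : Rx N) • u0 := by
    funext T
    exact hu0 T
  have hu2 : (ix F : Rx N) • dK u0 = 0 := by
    rw [← map_smul, ← hu1, dK_eq_cG]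
    exact (hC N (Rx N) A' zz zz zz zz w0).2.2.1
  obtain ⟨g, hg, hg'⟩ := tors ht _ hu2
  refine ⟨g, (ix g : Rx N) • w0, (ix g : Rx N) • u0, hg, ?_, smul_sup hS _, ?_, ?_, ?_⟩
  · rw [map_smul, hm]
  · rw [map_smul, hu1, smul_comm]
  · rw [map_smul, hg']
  · intro T hT
    rw [Pi.smul_apply, hu0' T (dK_sup hS T hT), smul_zero]

end RStepAux

open RStepAux

theorem kRStep : S_RCar → S_RStep := by
  intro hC N p A' A M _ _ _ _ _ _ _ _ _ ρ' ρ π F q s G v hq hs hk h0 ht hy hρ hd hv hδ hI hG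
  have hρs : ∀ (g : Sx N) (a : A), ρ ((ix g : Rx N) • a) = g • ρ a := by
    intro g a
    obtain ⟨a', rfl⟩ := hs a
    rw [← map_smul, hρ, hd, dgS_ix, hρ]
  constructor
  · intro i w hw hc hz
    obtain ⟨g, w', u, hg, hm, hS, hwu, hu, hu0⟩ := lift hC π hs hk ht hw hc
    have hm' : ∀ T, π (w' T) = (ix g : Rx N) • w T := fun T => congrFun hm T
    have hz' : ∀ T, ρ' (w' T) = 0 := by
      intro T
      rw [← hρ, hm', hρs, hz, smul_zero]
    cases i with
    | zero =>
      have hu1 : u = 0 := by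
        funext T
        exact hu0 T (Nat.succ_ne_zero _)
      obtain ⟨g4, v2, hg4, hv2, hv2'⟩ := hI 0 w' hS (by rw [hwu, hu1, smul_zero]) hz'
      refine ⟨g4 * g, mapC π v2, ?_, ?_, ?_⟩
      · rw [map_mul]
        exact mul_ne_zero hg4 hg
      · intro T hT
        change π (v2 T) = 0
        rw [hv2 T hT, map_zero]
      · rw [mapC_dK, hv2', map_smul, hm, map_mul, mul_smul]
    | succ j =>
      have hSu : Sup j u := fun T hT => hu0 T fun h => hT (by omega)
      have hw1 : Sup (j + 1) (w' - wG q u) := by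
        intro T hT
        rw [Pi.sub_apply, hS T hT, wG_sup q hu0 T hT, sub_zero]
      have hk1 : dK (w' - wG q u) = 0 := by
        have h1 := wG_dK hC hq hy u
        rw [hu, map_zero, add_zero] at h1
        rw [map_sub, hwu, h1, sub_self]
      obtain ⟨g1, hg1, hW⟩ := hG (j + 1) _ hw1 hk1
      obtain ⟨g2, hg2, hU⟩ := hG j _ hSu hu
      have hb := rho_wG hd hq u
      have hW' : (fun T => (g1 * g2) • ρ' ((w' - wG q u) T)) ∈ WL M G (j + 1) := by
        have h1 := Submodule.smul_mem _ g2 hW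
        refine (congrArg (· ∈ WL M G (j + 1)) ?_).mp h1
        funext T
        change g2 • g1 • ρ' ((w' - wG q u) T) = (g1 * g2) • ρ' ((w' - wG q u) T)
        rw [← mul_smul, mul_comm g2]
      have hU' : (fun T => (g1 * g2) • ρ' (u T)) ∈ WL M G j := by
        have h1 := Submodule.smul_mem _ g1 hU
        refine (congrArg (· ∈ WL M G j) ?_).mp h1
        funext T
        change g1 • g2 • ρ' (u T) = (g1 * g2) • ρ' (u T)
        rw [← mul_smul]
      have hsum : (fun T => (g1 * g2) • ρ' ((w' - wG q u) T)) =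
          - wG (dF F) (fun T => (g1 * g2) • ρ' (u T)) := by
        have h2 : (fun T => (g1 * g2) • ρ' (u T)) = (g1 * g2) • fun T => ρ' (u T) := rfl
        rw [h2, map_smul, ← hb]
        funext T
        change (g1 * g2) • ρ' (w' T - wG q u T) = - ((g1 * g2) • ρ' (wG q u T))
        rw [map_sub, hz', zero_sub, smul_neg]
      have hδU : (∑ k, v k * pderiv k F) • (fun T => (g1 * g2) • ρ' (u T)) = 0 := by
        have h1 := (hC N (Sx N) M v v (dF F) (dF F) (fun T => (g1 * g2) • ρ' (u T))).1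
        have h2 := ann hC G v hv _ _ hW'
        rw [hsum, map_neg, neg_eq_zero] at h2
        rw [ann hC G v hv _ _ hU', map_zero, add_zero, h2] at h1
        exact h1.symm
      set δ : Sx N := ∑ k, v k * pderiv k F with hδd
      have hu3 : ∀ T, ρ' (((ix (δ * (g1 * g2)) : Rx N) • u) T) = 0 := by
        intro T
        rw [Pi.smul_apply, hd, dgS_ix, mul_smul]
        exact congrFun hδU T
      have hw3 : ∀ T, ρ' (((ix (δ * (g1 * g2)) : Rx N) • (w' - wG q u)) T) = 0 := by
        have h1 : δ • (fun T => (g1 * g2) • ρ' ((w' - wG q u) T)) = 0 := by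
          rw [hsum, smul_neg, ← map_smul, hδU, map_zero, neg_zero]
        intro T
        rw [Pi.smul_apply, hd, dgS_ix, mul_smul]
        exact congrFun h1 T
      obtain ⟨g3, v1, hg3, hv1, hv1'⟩ := hI j _ (smul_sup hSu _)
        (by rw [map_smul, hu, smul_zero]) hu3
      obtain ⟨g4, v2, hg4, hv2, hv2'⟩ := hI (j + 1) _ (smul_sup hw1 _)
        (by rw [map_smul, hk1, smul_zero]) hw3
      refine ⟨g3 * g4 * (δ * (g1 * g2)) * g,
        mapC π ((ix g3 : Rx N) • v2 - (ix g4 : Rx N) • wG q v1), ?_, ?_, ?_⟩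
      · simp only [map_mul]
        exact mul_ne_zero (mul_ne_zero (mul_ne_zero hg3 hg4)
          (mul_ne_zero hδ (mul_ne_zero hg1 hg2))) hg
      · intro T hT
        change π (((ix g3 : Rx N) • v2 - (ix g4 : Rx N) • wG q v1) T) = 0
        rw [Pi.sub_apply, Pi.smul_apply, Pi.smul_apply, hv2 T hT,
          wG_sup q (i := j + 1 + 1) (fun T' hT' => hv1 T' (by omega)) T hT, smul_zero, smul_zero,
          sub_zero, map_zero]
      · have h1 := wG_dK hC hq hy v1
        rw [hv1', map_smul, map_smul] at h1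
        have h2 : dK (wG q v1) = (ix F : Rx N) • v1 -
            (ix g3 : Rx N) • (ix (δ * (g1 * g2)) : Rx N) • wG q u := by
          rw [← h1, add_sub_cancel_right]
        rw [mapC_dK, map_sub, map_smul, map_smul, hv2', h2]
        have h3 : mapC π ((ix F : Rx N) • v1) = 0 := by
          funext T
          exact h0 (v1 T)
        have h4 : (ix g3 : Rx N) • (ix g4 : Rx N) • (ix (δ * (g1 * g2)) : Rx N) • (w' - wG q u) -
            (ix g4 : Rx N) • ((ix F : Rx N) • v1 -
              (ix g3 : Rx N) • (ix (δ * (g1 * g2)) : Rx N) • wG q u) =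
            (ix (g3 * g4 * (δ * (g1 * g2))) : Rx N) • w' - (ix g4 : Rx N) • (ix F : Rx N) • v1 := by
          simp only [map_mul, mul_smul, smul_sub]
          rw [smul_comm (ix g4 : Rx N) (ix g3 : Rx N) ((ix δ : Rx N) • (ix g1 : Rx N) •
            (ix g2 : Rx N) • wG q u)]
          abel
        rw [h4, map_sub, map_smul, map_smul, h3, smul_zero, sub_zero, hm, map_mul (ix) (_) g,
          mul_smul]
  · intro i w hw hc
    obtain ⟨g, w', u, hg, hm, hS, hwu, hu, hu0⟩ := lift hC π hs hk ht hw hc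
    have hm' : ∀ T, π (w' T) = (ix g : Rx N) • w T := fun T => congrFun hm T
    cases i with
    | zero =>
      have hu1 : u = 0 := by
        funext T
        exact hu0 T (Nat.succ_ne_zero _)
      obtain ⟨g1, hg1, hW⟩ := hG 0 w' hS (by rw [hwu, hu1, smul_zero])
      refine ⟨g1 * g, by rw [map_mul]; exact mul_ne_zero hg1 hg, mono G (dF F) 0 ?_⟩
      refine (congrArg (· ∈ WL M G 0) ?_).mp hW
      funext T
      rw [← hρ, hm', hρs, mul_smul]
    | succ j =>
      have hSu : Sup j u := fun T hT => hu0 T fun h => hT (by omega)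
      have hw1 : Sup (j + 1) (w' - wG q u) := by
        intro T hT
        rw [Pi.sub_apply, hS T hT, wG_sup q hu0 T hT, sub_zero]
      have hk1 : dK (w' - wG q u) = 0 := by
        have h1 := wG_dK hC hq hy u
        rw [hu, map_zero, add_zero] at h1
        rw [map_sub, hwu, h1, sub_self]
      obtain ⟨g1, hg1, hW⟩ := hG (j + 1) _ hw1 hk1
      obtain ⟨g2, hg2, hU⟩ := hG j _ hSu hu
      have hb := rho_wG hd hq u
      refine ⟨g1 * g2 * g, ?_, ?_⟩
      · simp only [map_mul]
        exact mul_ne_zero (mul_ne_zero hg1 hg2) hg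
      · have h1 := Submodule.smul_mem _ g2 (mono G (dF F) _ hW)
        have h2 := Submodule.smul_mem _ g1 (last G (dF F) j _ hU)
        have h3 := Submodule.add_mem _ h1 h2
        refine (congrArg (· ∈ WL M (Fin.snoc (α := fun _ => Fin (N + 1) → Sx N) G (dF F))
          (j + 1)) ?_).mp h3
        have h4 : (fun T => g2 • ρ' (u T)) = g2 • fun T => ρ' (u T) := rfl
        rw [h4, map_smul, ← hb]
        funext T
        change g2 • g1 • ρ' (w' T - wG q u T) + g1 • g2 • ρ' (wG q u T) = (g1 * g2 * g) • ρ (w T)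
        rw [mul_smul (g1 * g2) g, ← hρs, ← hm', hρ, map_sub, smul_sub, smul_sub,
          smul_comm g2 g1 (ρ' (w' T)), smul_comm g2 g1 (ρ' (wG q u T)), mul_smul]
        abel

end Pool.Agent.Lib.MP_776403_ag.SD
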