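import Pool.Agent.Lib.MP_776403_ag.SD.K.SpecR

/-!
# THEOREM SD, part K: (RSur)
-/

set_option autoImplicit false

open MvPolynomial TensorProduct

noncomputable section

namespace Pool.Agent.Lib.MP_776403_ag.SD

namespace RSurAux

variable {N : ℕ}

section Hom

variable {σ W : Type} [AddCommGroup W] [Module (MvPolynomial σ ℂ) W] [Module ℂ W]
  [IsScalarTower ℂ (MvPolynomial σ ℂ) W]

omit [IsScalarTower ℂ (MvPolynomial σ ℂ) W] in
theorem mon_smul (A : ℕ → Submodule ℂ W)
    (hA : ∀ m i, ∀ w ∈ A m, (X i : MvPolynomial σ ℂ) • w ∈ A (m + 1)) (s : σ →₀ ℕ) :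
    ∀ k, ∀ w ∈ A k, (monomial s (1 : ℂ)) • w ∈ A (k + s.degree) := by
  induction s using Finsupp.induction_linear with
  | zero =>
    intro k w hw
    have h1 : (monomial (0 : σ →₀ ℕ) (1 : ℂ)) = 1 := rfl
    rw [h1, one_smul, map_zero, add_zero]
    exact hw
  | add s t hs ht =>
    intro k w hw
    have h1 : (monomial (s + t) (1 : ℂ)) = monomial s 1 * monomial t 1 := by
      rw [monomial_mul, one_mul]
    rw [h1, mul_smul, map_add, add_comm s.degree, ← add_assoc]
    exact hs _ _ (ht _ _ hw)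
  | single i n =>
    intro k w hw
    have h1 : (monomial (Finsupp.single i n) (1 : ℂ)) = (X i : MvPolynomial σ ℂ) ^ n := by
      rw [X_pow_eq_monomial]
    rw [h1, Finsupp.degree_single]
    induction n with
    | zero => rw [pow_zero, one_smul]; exact hw
    | succ n ih =>
      rw [pow_succ', mul_smul, ← add_assoc]
      refine hA _ _ _ (ih ?_)
      rw [X_pow_eq_monomial]

theorem hom_smul (A : ℕ → Submodule ℂ W)
    (hA : ∀ m i, ∀ w ∈ A m, (X i : MvPolynomial σ ℂ) • w ∈ A (m + 1)) {r : MvPolynomial σ ℂ}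
    {d : ℕ} (hr : r.IsHomogeneous d) (k : ℕ) (w : W) (hw : w ∈ A k) : r • w ∈ A (k + d) := by
  have h1 : r • w = ∑ s ∈ r.support, (coeff s r) • ((monomial s (1 : ℂ)) • w) := by
    conv_lhs => rw [r.as_sum]
    rw [Finset.sum_smul]
    refine Finset.sum_congr rfl fun s _ => ?_
    rw [← smul_assoc, smul_monomial, smul_eq_mul, mul_one]
  rw [h1]
  refine Submodule.sum_mem _ fun s hs => Submodule.smul_mem _ _ ?_
  have h2 : s.degree = d := by
    have := hr (mem_support_iff.1 hs)
    rw [← this, Finsupp.degree_eq_weight_one]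
    rfl
  rw [← h2]
  exact mon_smul A hA s k w hw

end Hom

theorem TPf_X {α β : Type} {I J : Ideal (Sx N)} {V : ℕ → Submodule ℂ (α → Sx N)}
    {W : ℕ → Submodule ℂ (β → Sx N)} (hV : GV V) (hW : GV W) (m : ℕ)
    (j : Fin (N + 1) ⊕ Fin (N + 1)) (z : α × β → CR I J) (hz : z ∈ TPf I J V W m) :
    (X j : Rx N) • z ∈ TPf I J V W (m + 1) := by
  induction hz using Submodule.span_induction with
  | zero => rw [smul_zero]; exact Submodule.zero_mem _
  | add x y _ _ hx hy => rw [smul_add]; exact Submodule.add_mem _ hx hy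
  | smul a x _ hx => rw [smul_comm]; exact Submodule.smul_mem _ _ hx
  | mem z hz =>
    obtain ⟨k1, k2, v, w, hk, hv, hw, rfl⟩ := hz
    refine Submodule.subset_span ?_
    cases j with
    | inl j =>
      refine ⟨k1 + 1, k2, fun a => (X j : Sx N) * v a, w, by omega, hV.mul _ _ hv j, hw, ?_⟩
      funext p
      have h1 : (ix (X j : Sx N) : Rx N) = X (Sum.inl j) := by simp [ix]
      change Ideal.Quotient.mk (cc I J) (X (Sum.inl j) * (ix (v p.1) * iy (w p.2))) = _
      rw [map_mul ix, h1, mul_assoc]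
    | inr j =>
      refine ⟨k1, k2 + 1, v, fun a => (X j : Sx N) * w a, by omega, hv, hW.mul _ _ hw j, ?_⟩
      funext p
      have h1 : (iy (X j : Sx N) : Rx N) = X (Sum.inr j) := by simp [iy]
      change Ideal.Quotient.mk (cc I J) (X (Sum.inr j) * (ix (v p.1) * iy (w p.2))) = _
      rw [map_mul iy, h1]
      congr 1
      ring

theorem fold_cyc (hCar : S_RCar) {α β : Type} {I J : Ideal (Sx N)} (h : I ≤ J)
    (u : Cn N (α × β → CR I J)) (hu : dK u = 0) :
    ∀ L : List (Fin (N + 1) → Rx N), (∀ g ∈ L, ∃ F ∈ I, IsDq F g) →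
      dK (L.foldr (fun g u => wG g u) u) = 0 := by
  intro L
  induction L with
  | nil => intro _; exact hu
  | cons g L ih =>
    intro hL
    have h1 := ih fun g' hg' => hL g' (List.mem_cons_of_mem _ hg')
    obtain ⟨F, hF, hq, -⟩ := hL g List.mem_cons_self
    rw [List.foldr_cons]
    set u' : Cn N (α × β → CR I J) := L.foldr (fun g u => wG g u) u with hu'
    have h2 := (hCar N (Rx N) (α × β → CR I J) zz zz g g u').1
    rw [dK_eq_cG] at h1 ⊢
    rw [h1, map_zero, add_zero, ← hq] at h2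
    rw [h2]
    funext T p
    change Ideal.Quotient.mk (cc I J) (ix F - iy F) * u' T p = 0
    have h3 : Ideal.Quotient.mk (cc I J) (ix F - iy F) = 0 := by
      rw [Ideal.Quotient.eq_zero_iff_mem]
      refine Ideal.sub_mem _ ?_ ?_
      · exact Ideal.mem_sup_left (Ideal.mem_map_of_mem (ix : Sx N →ₐ[ℂ] Rx N).toRingHom hF)
      · exact Ideal.mem_sup_right (Ideal.mem_map_of_mem (iy : Sx N →ₐ[ℂ] Rx N).toRingHom (h hF))
    rw [h3, zero_mul]

theorem core (hCar : S_RCar) (hLap : S_RLap) (hDq : S_RDq) {α β : Type}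
    {I J : Ideal (Sx N)} (h : I ≤ J) {V : ℕ → Submodule ℂ (α → Sx N)}
    {W : ℕ → Submodule ℂ (β → Sx N)} (hV : GV V) (hW : GV W) (i m : ℕ) (him : i ≤ m)
    (a1 a2 k2 e : ℕ) (v : α → Sx N) (w : β → Sx N) (a : Sx N) (F : Fin i → Sx N) (f : Fin i → ℕ)
    (hv : v ∈ V a1) (hw : w ∈ W a2) (ha : a.IsHomogeneous e)
    (hF : ∀ l, F l ∈ I ∧ (F l).IsHomogeneous (f l)) (he : e + ∑ l, f l = k2 + i)
    (hk : a1 + a2 + k2 = m - i) :
    redL ((α × β) × Finset (Fin (N + 1))) J (fun p => (v p.1.1 * w p.1.2) *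
      (if h : p.2.card = i then
        a * Matrix.det (Matrix.of fun l k => pderiv (p.2.orderEmbOfFin h k) (F l)) else 0)) ∈
      (Zc N (TPf I J V W) i m).map (rho h (α × β)) := by
  classical
  by_cases h0 : ∃ l, f l = 0
  · obtain ⟨l, hl⟩ := h0
    have h1 : ∀ k, pderiv k (F l) = 0 := by
      intro k
      have h2 := (hF l).2
      rw [hl] at h2
      have h4 : (F l).totalDegree = 0 := Nat.le_zero.1 h2.totalDegree_le
      rw [totalDegree_eq_zero_iff_eq_C.1 h4, pderiv_C]
    have h3 : (fun p : (α × β) × Finset (Fin (N + 1)) => (v p.1.1 * w p.1.2) *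
      (if h : p.2.card = i then
        a * Matrix.det (Matrix.of fun l k => pderiv (p.2.orderEmbOfFin h k) (F l)) else 0)) = 0 := by
      funext p
      by_cases hp : p.2.card = i
      · rw [dif_pos hp, Matrix.det_eq_zero_of_row_eq_zero l (fun k => by
          rw [Matrix.of_apply, h1]), mul_zero, mul_zero]
        rfl
      · rw [dif_neg hp, mul_zero]
        rfl
    rw [h3, map_zero]
    exact Submodule.zero_mem _
  push Not at h0
  have h1 : ∀ l, ∃ q : Fin (N + 1) → Rx N, IsDq (F l) q ∧ ∀ k, (q k).IsHomogeneous (f l - 1) :=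
    fun l => (hDq N (F l)).2 (f l) (hF l).2
  choose q hq hqh using h1
  set m0 : α × β → CR I J := fun p => Ideal.Quotient.mk (cc I J) (ix (a * v p.1) * iy (w p.2))
    with hm0
  set ω0 : Cn N (α × β → CR I J) := fun T => if T = ∅ then m0 else 0 with hω0
  set ω : Cn N (α × β → CR I J) := (List.ofFn q).foldr (fun g u => wG g u) ω0 with hω
  have hval : ω = fun T : Finset (Fin (N + 1)) => if h : T.card = i then
      (Matrix.det (Matrix.of fun l k => q l (T.orderEmbOfFin h k))) • m0 else 0 :=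
    hLap N (Rx N) (α × β → CR I J) i q m0
  have hsum : (∑ l, (f l - 1)) + i = ∑ l, f l := by
    have h2 : ∑ l, f l = ∑ l : Fin i, ((f l - 1) + 1) :=
      Finset.sum_congr rfl fun l _ => by have := h0 l; omega
    rw [h2, Finset.sum_add_distrib]
    simp
  have hm0m : m0 ∈ TPf I J V W (a1 + a2 + e) := by
    refine Submodule.subset_span ⟨a1 + e, a2, fun x => a * v x, w, by omega, ?_, hw, rfl⟩
    have h2 := hom_smul (σ := Fin (N + 1)) V (fun m i w hw => hV.mul m w hw i) ha a1 v hv
    exact h2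
  have hmem : ω ∈ Kc N (TPf I J V W) i m := by
    intro T
    refine ⟨fun hT _ => ?_, fun hT => ?_⟩
    · rw [hval]
      simp only [dif_pos hT]
      have h2 : (Matrix.det (Matrix.of fun l k => q l (T.orderEmbOfFin hT k))).IsHomogeneous
          (∑ l, (f l - 1)) := by
        rw [Matrix.det_apply]
        refine IsHomogeneous.sum _ _ _ fun s _ => ?_
        have h3 : (∏ k, (Matrix.of fun l k => q l (T.orderEmbOfFin hT k)) (s k) k).IsHomogeneous
            (∑ k, (f (s k) - 1)) := by
          refine IsHomogeneous.prod _ _ _ fun k _ => ?_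
          rw [Matrix.of_apply]
          exact hqh _ _
        rw [Equiv.sum_comp s (fun l => f l - 1)] at h3
        rcases Int.units_eq_one_or (Equiv.Perm.sign s) with h4 | h4
        · rw [h4, one_smul]; exact h3
        · rw [h4, Units.neg_smul, one_smul]; exact h3.neg
      have h4 := hom_smul (σ := Fin (N + 1) ⊕ Fin (N + 1)) (TPf I J V W)
        (fun m i w hw => TPf_X hV hW m i w hw) h2 (a1 + a2 + e) m0 hm0m
      have h5 : a1 + a2 + e + ∑ l, (f l - 1) = m - i := by omega
      rw [h5] at h4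
      exact h4
    · have h2 : T.card ≠ i := by
        rcases hT with hT | hT
        · exact hT
        · omega
      rw [hval]
      simp only [dif_neg h2]
  have hcyc : dK ω = 0 := by
    rw [hω]
    refine fold_cyc hCar h ω0 ?_ _ fun g hg => ?_
    · funext T
      change ∑ k ∈ Tᶜ, sg k T • ((zz k : Rx N) • ω0 (insert k T)) = 0
      refine Finset.sum_eq_zero fun k _ => ?_
      have h2 : ω0 (insert k T) = 0 := by
        rw [hω0]
        simp only [if_neg (Finset.insert_ne_empty k T)]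
      rw [h2, smul_zero, smul_zero]
    · rw [List.mem_ofFn] at hg
      obtain ⟨l, rfl⟩ := hg
      exact ⟨F l, (hF l).1, hq l⟩
  refine ⟨ω, ⟨hmem, hcyc⟩, ?_⟩
  funext p
  change dg h (ω p.2 p.1) = Ideal.Quotient.mk J _
  by_cases hp : p.2.card = i
  · rw [hval]
    simp only [dif_pos hp]
    change dg h (Ideal.Quotient.mk (cc I J)
      (Matrix.det (Matrix.of fun l k => q l (p.2.orderEmbOfFin hp k)) *
        (ix (a * v p.1.1) * iy (w p.1.2)))) = _
    have h2 : ∀ r : Rx N, dg h (Ideal.Quotient.mk (cc I J) r) = Ideal.Quotient.mk J (dgS r) :=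
      fun r => rfl
    rw [h2, map_mul dgS, map_mul dgS, dgS_ix, dgS_iy, AlgHom.map_det]
    congr 1
    have h3 : (dgS.mapMatrix (Matrix.of fun l k => q l (p.2.orderEmbOfFin hp k))) =
        (Matrix.of fun l k => pderiv (p.2.orderEmbOfFin hp k) (F l)) := by
      ext1 l k
      exact (hq l).2 _
    rw [h3]
    ring
  · rw [hval]
    simp only [dif_neg hp]
    simp

/-- `v ↦ v_a w_b`. -/
def mL {A B : Type} (w : B → Sx N) : (A → Sx N) →ₗ[ℂ] (A × B → Sx N) where
  toFun v := fun p => v p.1 * w p.2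
  map_add' x y := by
    funext p
    exact add_mul (x p.1) (y p.1) (w p.2)
  map_smul' r x := by
    funext p
    change (r • x p.1) * w p.2 = r • (x p.1 * w p.2)
    rw [smul_eq_C_mul, smul_eq_C_mul, mul_assoc]

/-- `w ↦ v_a w_b`. -/
def mR {A B : Type} (v : A → Sx N) : (B → Sx N) →ₗ[ℂ] (A × B → Sx N) where
  toFun w := fun p => v p.1 * w p.2
  map_add' x y := by
    funext p
    exact mul_add (v p.1) (x p.2) (y p.2)
  map_smul' r x := by
    funext p
    change v p.1 * (r • x p.2) = r • (v p.1 * x p.2)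
    rw [smul_eq_C_mul, smul_eq_C_mul]
    ring

end RSurAux

open RSurAux

theorem kRSur : S_RCar → S_RLap → S_RDq → S_RSur := by
  intro hCar hLap hDq N α β _ _ I J h V W hV hW i m him
  rw [Submodule.map_le_iff_le_comap]
  generalize hQ : ((Zc N (TPf I J V W) i m).map (rho h (α × β))).comap
    (redL ((α × β) × Finset (Fin (N + 1))) J) = Q
  refine Submodule.span_le.2 ?_
  rintro z ⟨k1, k2, v, w, hk, hv, hw, rfl⟩
  have h1 : PV V W k1 ≤ Q.comap (mL w) := by
    refine Submodule.span_le.2 ?_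
    rintro z ⟨a1, a2, v', w', hk', hv', hw', rfl⟩
    have h2 : VT I i k2 ≤ Q.comap (mR fun p : α × β => v' p.1 * w' p.2) := by
      refine Submodule.span_le.2 ?_
      rintro z ⟨a, e, F, f, ha, hF, he, rfl⟩
      rw [← hQ]
      exact core hCar hLap hDq h hV hW i m him a1 a2 k2 e v' w' a F f hv' hw' ha hF he (by omega)
    exact h2 hw
  exact h1 hv

end Pool.Agent.Lib.MP_776403_ag.SD
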