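import Pool.Agent.Lib.MP_776403_ag.SD.K.SpecR
import Pool.Agent.Lib.MP_776403_ag.SD.SpecB

/-!
# (RSyz) Syzygies of independent linear forms
-/

set_option autoImplicit false

open MvPolynomial TensorProduct

noncomputable section

namespace Pool.Agent.Lib.MP_776403_ag.SD

namespace RSyzAux

variable {N : ℕ}

/-- The linear form with coefficient vector `a`. -/
private def lf : (Fin (N + 1) → ℂ) →ₗ[ℂ] Sx N where
  toFun a := ∑ k, a k • (X k : Sx N)
  map_add' a b := by simp only [Pi.add_apply, add_smul, Finset.sum_add_distrib]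
  map_smul' r a := by
    simp only [Pi.smul_apply, smul_eq_mul, mul_smul, Finset.smul_sum, RingHom.id_apply]

private theorem lf_single (k : Fin (N + 1)) : lf (Pi.single k (1 : ℂ)) = (X k : Sx N) := by
  change ∑ j, (Pi.single k (1 : ℂ) : Fin (N + 1) → ℂ) j • (X j : Sx N) = X k
  rw [Finset.sum_eq_single k]
  · rw [Pi.single_eq_same, one_smul]
  · intro j _ hj
    rw [Pi.single_eq_of_ne hj, zero_smul]
  · intro h
    exact absurd (Finset.mem_univ k) h

private theorem lf_hom (a : Fin (N + 1) → ℂ) : (lf a : Sx N).IsHomogeneous 1 := by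
  change (∑ j, a j • (X j : Sx N)).IsHomogeneous 1
  refine IsHomogeneous.sum _ _ _ fun j _ => ?_
  rw [MvPolynomial.smul_eq_C_mul]
  simpa using (isHomogeneous_C _ (a j)).mul (isHomogeneous_X ℂ j)

private theorem exists_lf (F : Sx N) (hF : F.IsHomogeneous 1) : ∃ a, lf a = F := by
  refine ⟨fun k => coeff (Finsupp.single k 1) F, ?_⟩
  change ∑ j, coeff (Finsupp.single j 1) F • (X j : Sx N) = F
  ext m
  rw [MvPolynomial.coeff_sum]
  by_cases hm : ∃ k, m = Finsupp.single k 1
  · obtain ⟨k, rfl⟩ := hm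
    rw [Finset.sum_eq_single k]
    · rw [coeff_smul, coeff_X, if_pos rfl, smul_eq_mul, mul_one]
    · intro j _ hj
      rw [coeff_smul, coeff_X, if_neg, smul_zero]
      intro h
      exact hj (Finsupp.single_left_injective one_ne_zero h)
    · intro h
      exact absurd (Finset.mem_univ k) h
  · have h0 : coeff m F = 0 := by
      by_contra h
      have h1 : Finsupp.degree m = 1 := by
        by_contra h2
        exact h (hF.coeff_eq_zero h2)
      have h3 : m ∈ Set.range fun a : Fin (N + 1) => Finsupp.single a 1 := by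
        rw [Finsupp.range_single_one]
        exact h1
      obtain ⟨k, hk⟩ := h3
      exact hm ⟨k, hk.symm⟩
    rw [h0]
    refine Finset.sum_eq_zero fun j _ => ?_
    rw [coeff_smul, coeff_X, if_neg, smul_zero]
    intro h
    exact hm ⟨j, h.symm⟩

/-- The substitution given by a linear map. -/
private def ph (A : (Fin (N + 1) → ℂ) →ₗ[ℂ] (Fin (N + 1) → ℂ)) : Sx N →ₐ[ℂ] Sx N :=
  aeval fun k => lf (A (Pi.single k 1))

private theorem ph_lf (A : (Fin (N + 1) → ℂ) →ₗ[ℂ] (Fin (N + 1) → ℂ)) (a : Fin (N + 1) → ℂ) :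
    ph A (lf a) = lf (A a) := by
  have h : (ph A).toLinearMap.comp lf = (lf (N := N)).comp A := by
    refine (Pi.basisFun ℂ (Fin (N + 1))).ext fun k => ?_
    rw [LinearMap.comp_apply, LinearMap.comp_apply, Pi.basisFun_apply, lf_single]
    change ph A (X k) = _
    rw [ph, aeval_X]
  exact LinearMap.congr_fun h a

private theorem ph_hom (A : (Fin (N + 1) → ℂ) →ₗ[ℂ] (Fin (N + 1) → ℂ)) {F : Sx N} {k : ℕ}
    (hF : F.IsHomogeneous k) : (ph A F).IsHomogeneous k := by
  have h := hF.aeval (fun k => (lf (A (Pi.single k 1)) : Sx N)) (n := 1)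
    fun k => lf_hom _
  rw [one_mul] at h
  exact h

private theorem ph_inv (A B : (Fin (N + 1) → ℂ) →ₗ[ℂ] (Fin (N + 1) → ℂ)) (h : ∀ a, A (B a) = a)
    (F : Sx N) : ph A (ph B F) = F := by
  have h1 : (ph A).comp (ph B) = AlgHom.id ℂ (Sx N) := by
    refine MvPolynomial.algHom_ext fun k => ?_
    rw [AlgHom.comp_apply, AlgHom.id_apply]
    have h2 : ph B (X k : Sx N) = lf (B (Pi.single k 1)) := by rw [ph, aeval_X]
    rw [h2, ph_lf, h, lf_single]
  exact DFunLike.congr_fun h1 F

private theorem exists_coord {n : ℕ} (c : Fin n → Fin (N + 1) → ℂ) (hc : LinearIndependent ℂ c) :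
    ∃ (e : Fin n → Fin (N + 1)) (L : (Fin (N + 1) → ℂ) ≃ₗ[ℂ] (Fin (N + 1) → ℂ)),
      Function.Injective e ∧ ∀ t, L (c t) = Pi.single (e t) 1 := by
  classical
  let b := Module.Basis.extend hc.linearIndepOn_id
  let q := b.indexEquiv (Pi.basisFun ℂ (Fin (N + 1)))
  have hm : ∀ t, c t ∈ hc.linearIndepOn_id.extend (Set.subset_univ (Set.range c)) := fun t =>
    hc.linearIndepOn_id.subset_extend _ (Set.mem_range_self t)
  refine ⟨fun t => q ⟨c t, hm t⟩, b.equiv (Pi.basisFun ℂ (Fin (N + 1))) q, fun s t h => ?_,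
    fun t => ?_⟩
  · exact hc.injective (congrArg Subtype.val (q.injective h))
  · have h : b ⟨c t, hm t⟩ = c t := Module.Basis.extend_apply_self _ _
    rw [← h, Module.Basis.equiv_apply, Pi.basisFun_apply]

end RSyzAux

open RSyzAux

theorem kRSyz : S_Kos2 → S_RSyz := by
  intro hK N n ℓ hℓ hli k γ hγ hsum
  choose c hc using fun t => exists_lf (ℓ t) (hℓ t)
  have hcl : LinearIndependent ℂ c := by
    refine LinearIndependent.of_comp (lf (N := N)) ?_
    have : (lf ∘ c) = ℓ := funext hc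
    rw [this]
    exact hli
  obtain ⟨e, L, he, hL⟩ := exists_coord c hcl
  have hphl : ∀ t, ph L.toLinearMap (ℓ t) = X (e t) := fun t => by
    rw [← hc t, ph_lf]
    change lf (L (c t)) = _
    rw [hL, lf_single]
  have hinv : ∀ F, ph L.symm.toLinearMap (ph L.toLinearMap F) = F :=
    ph_inv _ _ fun a => L.symm_apply_apply a
  have hsymm : ∀ t, ph L.symm.toLinearMap (X (e t) : Sx N) = ℓ t := fun t => by
    rw [← hphl t, hinv]
  have h1 : (fun t => ph L.toLinearMap (γ t)) ∈ K1 N (fun _ : Fin n => 1) (k + 1) ⊓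
      LinearMap.ker (Phi1 fun i => (X (e i) ^ 1 : Sx N)) := by
    refine ⟨?_, ?_⟩
    · refine (Submodule.mem_pi).2 fun i _ => ?_
      rw [Fd, if_pos (Nat.le_add_left 1 k), Nat.add_sub_cancel]
      exact ph_hom _ (hγ i)
    · refine LinearMap.mem_ker.2 ?_
      change ∑ i, ph L.toLinearMap (γ i) * (X (e i) : Sx N) ^ 1 = 0
      have h2 := congrArg (ph L.toLinearMap) hsum
      rw [map_sum, map_zero] at h2
      rw [← h2]
      refine Finset.sum_congr rfl fun i _ => ?_
      rw [map_mul, hphl, pow_one]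
  obtain ⟨b, hb, hb2⟩ := hK N (Fin n) e he (fun _ => 1) (k + 1) h1
  have hb3 : ∀ t, ph L.toLinearMap (γ t) = ∑ t', (b t t' - b t' t) * X (e t') := fun t => by
    have := congrFun hb2 t
    rw [← this]
    change ∑ j, (b t j - b j t) * (X (e j) : Sx N) ^ 1 = _
    simp only [pow_one]
  have hb4 : ∀ i j, b i j ∈ Fd N (k + 1) (1 + 1) := fun i j =>
    (Submodule.mem_pi).1 ((Submodule.mem_pi).1 hb i (Set.mem_univ _)) j (Set.mem_univ _)
  have hb0 : k = 0 → ∀ i j, b i j = 0 := fun hk i j => by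
    have := hb4 i j
    rw [Fd, if_neg (by omega)] at this
    exact this
  have hb5 : ∀ i j, (b i j).IsHomogeneous (k - 1) := fun i j => by
    rcases Nat.eq_zero_or_pos k with hk | hk
    · rw [hb0 hk]
      exact isHomogeneous_zero _ _ _
    · have := hb4 i j
      rw [Fd, if_pos (by omega)] at this
      have h3 : k + 1 - (1 + 1) = k - 1 := by omega
      rw [h3] at this
      exact this
  refine ⟨fun hk t => ?_, fun t t' => ph L.symm.toLinearMap (b t t' - b t' t), fun t t' => ?_,
    fun t t' => ?_, fun t => ?_⟩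
  · rw [← hinv (γ t), hb3]
    simp only [hb0 hk, sub_zero, zero_mul, Finset.sum_const_zero, map_zero]
  · rw [← map_neg, neg_sub]
  · exact ph_hom _ ((hb5 t t').sub (hb5 t' t))
  · conv_lhs => rw [← hinv (γ t), hb3, map_sum]
    refine Finset.sum_congr rfl fun t' _ => ?_
    rw [map_mul, hsymm]

end Pool.Agent.Lib.MP_776403_ag.SD
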