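import Pool.Agent.Lib.MP_776403_ag.SD.K.SpecR

/-!
# THEOREM SD, part K: (RTen), exactness of tensor products over `ℂ`
-/

set_option autoImplicit false

open MvPolynomial TensorProduct

noncomputable section

namespace Pool.Agent.Lib.MP_776403_ag.SD

namespace RTenAux

variable {N : ℕ}

section Gen

variable {L M : Type} [AddCommGroup L] [Module ℂ L] [AddCommGroup M] [Module ℂ M]

theorem tm_ind {P : TM N L M → Prop} (t : TM N L M) (h0 : P 0) (h1 : ∀ l m, P (tm N l m))
    (h2 : ∀ x y, P x → P y → P (x + y)) : P t :=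
  TensorProduct.induction_on t h0 h1 h2

theorem tm_zero_left (m : M) : tm N (0 : L) m = 0 := TensorProduct.zero_tmul L m

end Gen

section Lin

variable {L L' M : Type} [AddCommGroup L] [Module ℂ L] [AddCommGroup M] [Module ℂ M]
  [AddCommGroup L'] [Module ℂ L'] [Module (Sx N) L] [IsScalarTower ℂ (Sx N) L]
  [Module (Sx N) L'] [IsScalarTower ℂ (Sx N) L'] [Module (Sx N) M] [IsScalarTower ℂ (Sx N) M]

/-- `f ⊗ M` as a `ℂ`-linear map. -/
def rT (N : ℕ) (M : Type) [AddCommGroup M] [Module ℂ M] (f : L →ₗ[ℂ] L') :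
    TM N L M →ₗ[ℂ] TM N L' M :=
  (LinearMap.rTensor M f : L ⊗[ℂ] M →ₗ[ℂ] L' ⊗[ℂ] M)

omit [Module (Sx N) L] [IsScalarTower ℂ (Sx N) L] [Module (Sx N) L'] [IsScalarTower ℂ (Sx N) L']
  [Module (Sx N) M] [IsScalarTower ℂ (Sx N) M] in
theorem rT_tm (f : L →ₗ[ℂ] L') (l : L) (m : M) : rT N M f (tm N l m) = tm N (f l) m :=
  LinearMap.rTensor_tmul M f m l

theorem rT_ix (f : L →ₗ[ℂ] L') (hf : ∀ (F : Sx N) (l : L), f (F • l) = F • f l) (F : Sx N)
    (t : TM N L M) : rT N M f ((ix F : Rx N) • t) = (ix F : Rx N) • rT N M f t := by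
  refine tm_ind (P := fun t => rT N M f ((ix F : Rx N) • t) = (ix F : Rx N) • rT N M f t) t
    ?_ ?_ ?_
  · rw [smul_zero, map_zero, smul_zero]
  · intro l m
    rw [ix_smul_tm, rT_tm, rT_tm, ix_smul_tm, hf]
  · intro x y hx hy
    rw [smul_add, map_add, map_add, smul_add, hx, hy]

theorem rT_iy (f : L →ₗ[ℂ] L') (F : Sx N)
    (t : TM N L M) : rT N M f ((iy F : Rx N) • t) = (iy F : Rx N) • rT N M f t := by
  refine tm_ind (P := fun t => rT N M f ((iy F : Rx N) • t) = (iy F : Rx N) • rT N M f t) t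
    ?_ ?_ ?_
  · rw [smul_zero, map_zero, smul_zero]
  · intro l m
    rw [iy_smul_tm, rT_tm, rT_tm, iy_smul_tm]
  · intro x y hx hy
    rw [smul_add, map_add, map_add, smul_add, hx, hy]

theorem rT_smul (f : L →ₗ[ℂ] L') (hf : ∀ (F : Sx N) (l : L), f (F • l) = F • f l) (r : Rx N)
    (t : TM N L M) : rT N M f (r • t) = r • rT N M f t := by
  induction r using MvPolynomial.induction_on generalizing t with
  | C a =>
    have h1 : (C a : Rx N) = algebraMap ℂ (Rx N) a := rfl
    rw [h1, algebraMap_smul, algebraMap_smul, map_smul]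
  | add p q hp hq => rw [add_smul, add_smul, map_add, hp, hq]
  | mul_X p k hp =>
    rw [mul_smul, mul_smul, hp]
    congr 1
    rcases k with k | k
    · have h1 : (X (Sum.inl k) : Rx N) = ix (X k) := by
        rw [ix, rename_X]
      rw [h1, rT_ix f hf]
    · have h1 : (X (Sum.inr k) : Rx N) = iy (X k) := by
        rw [iy, rename_X]
      rw [h1, rT_iy f]

end Lin

section Quot

variable {M : Type} [AddCommGroup M] [Module ℂ M] [Module (Sx N) M] [IsScalarTower ℂ (Sx N) M]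
  {I' I'' : Ideal (Sx N)}

/-- The projection `S / I' → S / I''`. -/
def fac (h : I' ≤ I'') : (Sx N ⧸ I') →ₗ[ℂ] (Sx N ⧸ I'') :=
  (Ideal.Quotient.factorₐ ℂ h).toLinearMap

theorem fac_mk (h : I' ≤ I'') (f : Sx N) :
    fac h (Ideal.Quotient.mk I' f) = Ideal.Quotient.mk I'' f := rfl

theorem smul_mk (I : Ideal (Sx N)) (F f : Sx N) :
    F • Ideal.Quotient.mk I f = Ideal.Quotient.mk I (F * f) := rfl

theorem fac_smul (h : I' ≤ I'') (F : Sx N) (l : Sx N ⧸ I') : fac h (F • l) = F • fac h l := by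
  obtain ⟨f, rfl⟩ := Ideal.Quotient.mk_surjective l
  rw [smul_mk, fac_mk, fac_mk, smul_mk]

theorem fac_surj (h : I' ≤ I'') : Function.Surjective (fac h) := by
  intro l
  obtain ⟨f, rfl⟩ := Ideal.Quotient.mk_surjective l
  exact ⟨Ideal.Quotient.mk I' f, fac_mk h f⟩

/-- The projection `(S / I') ⊗ M → (S / I'') ⊗ M`. -/
def pr (M : Type) [AddCommGroup M] [Module ℂ M] [Module (Sx N) M] [IsScalarTower ℂ (Sx N) M]
    (h : I' ≤ I'') : TM N (Sx N ⧸ I') M →ₗ[Rx N] TM N (Sx N ⧸ I'') M where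
  toFun := rT N M (fac h)
  map_add' x y := map_add _ x y
  map_smul' r t := rT_smul (fac h) (fac_smul h) r t

theorem pr_tm (h : I' ≤ I'') (f : Sx N) (m : M) : pr M h (tm N (Ideal.Quotient.mk I' f) m) =
    tm N (Ideal.Quotient.mk I'' f) m := rT_tm (fac h) _ m

theorem pr_surj (h : I' ≤ I'') : Function.Surjective (pr (N := N) M h) :=
  LinearMap.rTensor_surjective M (fac_surj h)

theorem pr_ker (h : I' ≤ I'') (t : TM N (Sx N ⧸ I') M) (ht : pr M h t = 0) :
    ∃ s : (LinearMap.ker (fac h)) ⊗[ℂ] M,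
      (LinearMap.rTensor M (LinearMap.ker (fac h)).subtype s : (Sx N ⧸ I') ⊗[ℂ] M) = t := by
  have h1 : Function.Exact (LinearMap.ker (fac h)).subtype (fac h) :=
    LinearMap.exact_subtype_ker_map (fac h)
  have h2 := rTensor_exact M h1 (fac_surj h)
  exact (h2 t).1 ht

theorem ker_ind (h : I' ≤ I'') {P : TM N (Sx N ⧸ I') M → Prop} (h0 : P 0)
    (h1 : ∀ g ∈ I'', ∀ m, P (tm N (Ideal.Quotient.mk I' g) m))
    (h2 : ∀ x y, P x → P y → P (x + y)) (t : TM N (Sx N ⧸ I') M) (ht : pr M h t = 0) : P t := by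
  obtain ⟨s, rfl⟩ := pr_ker h t ht
  clear ht
  induction s using TensorProduct.induction_on with
  | zero =>
    rw [map_zero]
    exact h0
  | tmul k m =>
    obtain ⟨k, hk⟩ := k
    obtain ⟨g, rfl⟩ := Ideal.Quotient.mk_surjective k
    rw [LinearMap.mem_ker, fac_mk, Ideal.Quotient.eq_zero_iff_mem] at hk
    exact h1 g hk m
  | add x y hx hy =>
    rw [map_add]
    exact h2 _ _ hx hy

open Classical in
/-- The coordinates with respect to a basis of `M`. -/
def co (I : Ideal (Sx N)) (M : Type) [AddCommGroup M] [Module ℂ M] :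
    TM N (Sx N ⧸ I) M ≃ₗ[ℂ] (Module.Basis.ofVectorSpaceIndex ℂ M →₀ (Sx N ⧸ I)) :=
  TensorProduct.equivFinsuppOfBasisRight (Module.Basis.ofVectorSpace ℂ M)

omit [Module (Sx N) M] [IsScalarTower ℂ (Sx N) M] in
theorem co_tm (I : Ideal (Sx N)) (l : Sx N ⧸ I) (m : M) (k : Module.Basis.ofVectorSpaceIndex ℂ M) :
    co I M (tm N l m) k = (Module.Basis.ofVectorSpace ℂ M).repr m k • l := by
  classical
  exact TensorProduct.equivFinsuppOfBasisRight_apply_tmul_apply _ _ _ _

theorem co_ix (I : Ideal (Sx N)) (F : Sx N) (t : TM N (Sx N ⧸ I) M)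
    (k : Module.Basis.ofVectorSpaceIndex ℂ M) :
    co I M ((ix F : Rx N) • t) k = F • co I M t k := by
  refine tm_ind (P := fun t => co I M ((ix F : Rx N) • t) k = F • co I M t k) t ?_ ?_ ?_
  · rw [smul_zero, map_zero, Finsupp.zero_apply, smul_zero]
  · intro l m
    rw [ix_smul_tm, co_tm, co_tm, smul_comm]
  · intro x y hx hy
    rw [smul_add, map_add, map_add, Finsupp.add_apply, Finsupp.add_apply, smul_add, hx, hy]

end Quot

end RTenAux

open RTenAux

theorem kRTen : S_RTen := by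
  classical
  intro N I' I'' hI M _ _ _ _
  refine ⟨⟨pr M hI, pr_surj hI, fun f m => pr_tm hI f m, ?_, ?_⟩, ?_⟩
  · intro F hF
    constructor
    · intro t ht
      refine ker_ind hI (P := fun t => ∃ t', t = (ix F : Rx N) • t') ⟨0, by rw [smul_zero]⟩ ?_ ?_
        t ht
      · intro g hg m
        rw [hF] at hg
        obtain ⟨i, hi, j, hj, rfl⟩ := Submodule.mem_sup.1 hg
        obtain ⟨f, rfl⟩ := Ideal.mem_span_singleton'.1 hj
        refine ⟨tm N (Ideal.Quotient.mk I' f) m, ?_⟩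
        rw [ix_smul_tm, smul_mk, mul_comm f F, map_add, Ideal.Quotient.eq_zero_iff_mem.2 hi,
          zero_add]
      · rintro x y ⟨x', rfl⟩ ⟨y', rfl⟩
        exact ⟨x' + y', by rw [smul_add]⟩
    · intro t
      rw [map_smul]
      obtain ⟨u, hu⟩ : ∃ u, u = pr M hI t := ⟨_, rfl⟩
      rw [← hu]
      have hF' : F ∈ I'' := by
        rw [hF]
        exact Ideal.mem_sup_right (Ideal.mem_span_singleton_self F)
      refine tm_ind (P := fun u => (ix F : Rx N) • u = 0) u (smul_zero _) ?_ ?_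
      · intro l m
        obtain ⟨f, rfl⟩ := Ideal.Quotient.mk_surjective l
        rw [ix_smul_tm, smul_mk, Ideal.Quotient.eq_zero_iff_mem.2 (I''.mul_mem_right f hF'),
          tm_zero_left]
      · intro x y hx hy
        rw [smul_add, hx, hy, add_zero]
  · intro h hh t ht
    refine ker_ind hI (P := fun t => (ix h : Rx N) • t = 0) (smul_zero _) ?_ ?_ t ht
    · intro g hg m
      rw [ix_smul_tm, smul_mk, Ideal.Quotient.eq_zero_iff_mem.2 (hh g hg), tm_zero_left]
    · intro x y hx hy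
      rw [smul_add, hx, hy, add_zero]
  · intro F p hF t ht
    have h1 : ∀ k, F • co I' M t k = 0 := by
      intro k
      rw [← co_ix, ht, map_zero, Finsupp.zero_apply]
    have h2 : ∀ k, ∃ g : Sx N, eval p g ≠ 0 ∧ g • co I' M t k = 0 := by
      intro k
      obtain ⟨f, hf⟩ := Ideal.Quotient.mk_surjective (co I' M t k)
      have h3 := h1 k
      rw [← hf, smul_mk, Ideal.Quotient.eq_zero_iff_mem] at h3
      obtain ⟨g, hg, hg'⟩ := hF f h3
      refine ⟨g, hg, ?_⟩
      rw [← hf, smul_mk, Ideal.Quotient.eq_zero_iff_mem]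
      exact hg'
    choose g hg hg' using h2
    refine ⟨∏ k ∈ (co I' M t).support, g k, ?_, ?_⟩
    · rw [map_prod]
      exact Finset.prod_ne_zero_iff.2 fun k _ => hg k
    · apply (co I' M).injective
      rw [map_zero]
      refine Finsupp.ext fun k => ?_
      rw [co_ix, Finsupp.zero_apply]
      by_cases hk : k ∈ (co I' M t).support
      · rw [← Finset.mul_prod_erase _ _ hk, mul_comm, mul_smul, hg', smul_zero]
      · rw [Finsupp.notMem_support_iff.1 hk, smul_zero]

end Pool.Agent.Lib.MP_776403_ag.SD
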