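import Pool.Agent.Lib.MP_776403_ag.SD.K.SpecS

/-!
# THEOREM SD, part K: the action of the `2 × 2` matrices
-/

set_option autoImplicit false

open MvPolynomial TensorProduct

noncomputable section

namespace Pool.Agent.Lib.MP_776403_ag.SD

namespace SActAux

variable {N : ℕ}

theorem aH_apply (I : Ideal (Sx N)) (n : ℕ) (h : Matrix (Fin 2) (Fin 2) ℂ)
    (u : (Fin n → Fin (N + 1) × Fin 2) → Sx N ⧸ I) (α : Fin n → Fin (N + 1) × Fin 2) :
    aH I n h u α = ∑ η : Fin n → Fin 2, (∏ m, h (α m).2 (η m)) • u (fun m => ((α m).1, η m)) :=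
  rfl

theorem mul_act (I : Ideal (Sx N)) (n : ℕ) (h h' : Matrix (Fin 2) (Fin 2) ℂ)
    (u : (Fin n → Fin (N + 1) × Fin 2) → Sx N ⧸ I) :
    aH I n (h * h') u = aH I n h (aH I n h' u) := by
  funext α
  rw [aH_apply, aH_apply]
  have e1 : ∀ η : Fin n → Fin 2, (∏ m, h (α m).2 (η m)) • aH I n h' u (fun m => ((α m).1, η m)) =
      ∑ ζ : Fin n → Fin 2, ((∏ m, h (α m).2 (η m)) * ∏ m, h' (η m) (ζ m)) •
        u (fun m => ((α m).1, ζ m)) := by
    intro η
    rw [aH_apply, Finset.smul_sum]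
    refine Finset.sum_congr rfl fun ζ _ => ?_
    rw [smul_smul]
  rw [Finset.sum_congr rfl fun η _ => e1 η, Finset.sum_comm]
  refine Finset.sum_congr rfl fun ζ _ => ?_
  rw [← Finset.sum_smul]
  refine congrArg (fun x : ℂ => x • u (fun m => ((α m).1, ζ m))) ?_
  have e2 : ∏ m, (h * h') (α m).2 (ζ m) = ∏ m, ∑ j, h (α m).2 j * h' j (ζ m) :=
    Finset.prod_congr rfl fun m _ => Matrix.mul_apply
  rw [e2, Finset.prod_univ_sum, Fintype.piFinset_univ]
  exact Finset.sum_congr rfl fun η _ => Finset.prod_mul_distrib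

theorem one_act (I : Ideal (Sx N)) (n : ℕ)
    (u : (Fin n → Fin (N + 1) × Fin 2) → Sx N ⧸ I) : aH I n 1 u = u := by
  funext α
  rw [aH_apply, Finset.sum_eq_single (fun m => (α m).2)]
  · simp
  · intro η _ hη
    obtain ⟨m, hm⟩ := Function.ne_iff.1 hη
    have h3 : (1 : Matrix (Fin 2) (Fin 2) ℂ) (α m).2 (η m) = 0 := Matrix.one_apply_ne (Ne.symm hm)
    rw [Finset.prod_eq_zero (Finset.mem_univ m) h3, zero_smul]
  · intro h0
    exact absurd (Finset.mem_univ _) h0

theorem det_act (n : ℕ) (h : Matrix (Fin 2) (Fin 2) ℂ) (F : Fin n → Sx N) (v : Fin n → Fin 2 → ℂ)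
    (α : Fin n → Fin (N + 1) × Fin 2) :
    Matrix.det (Matrix.of fun i m => C (h.mulVec (v i) (α m).2) * pderiv (α m).1 (F i)) =
      ∑ η : Fin n → Fin 2, C (∏ m, h (α m).2 (η m)) *
        Matrix.det (Matrix.of fun i m => C (v i (η m)) * pderiv (α m).1 (F i)) := by
  rw [Matrix.det_apply]
  have e1 : ∀ η : Fin n → Fin 2, C (∏ m, h (α m).2 (η m)) *
        Matrix.det (Matrix.of fun i m => C (v i (η m)) * pderiv (α m).1 (F i)) =
      ∑ σ : Equiv.Perm (Fin n), Equiv.Perm.sign σ • (C (∏ m, h (α m).2 (η m)) *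
        ∏ m, (C (v (σ m) (η m)) * pderiv (α m).1 (F (σ m)) : Sx N)) := by
    intro η
    rw [Matrix.det_apply, Finset.mul_sum]
    refine Finset.sum_congr rfl fun σ _ => ?_
    rw [mul_smul_comm]
    rfl
  rw [Finset.sum_congr rfl fun η _ => e1 η, Finset.sum_comm]
  refine Finset.sum_congr rfl fun σ _ => ?_
  rw [← Finset.smul_sum]
  refine congrArg (fun x : Sx N => Equiv.Perm.sign σ • x) ?_
  have e2 : ∀ m : Fin n, (Matrix.of fun i m => C (h.mulVec (v i) (α m).2) * pderiv (α m).1 (F i)) (σ m) m =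
      ∑ j : Fin 2, (C (h (α m).2 j) * (C (v (σ m) j) * pderiv (α m).1 (F (σ m))) : Sx N) := by
    intro m
    rw [Matrix.of_apply, Matrix.mulVec, dotProduct, map_sum, Finset.sum_mul]
    refine Finset.sum_congr rfl fun j _ => ?_
    rw [map_mul, mul_assoc]
  rw [Finset.prod_congr rfl fun m _ => e2 m, Finset.prod_univ_sum, Fintype.piFinset_univ]
  refine Finset.sum_congr rfl fun η _ => ?_
  rw [Finset.prod_mul_distrib, map_prod]

theorem smul_mk (I : Ideal (Sx N)) (r : ℂ) (a : Sx N) :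
    r • Ideal.Quotient.mk I a = Ideal.Quotient.mk I (C r * a) := by
  rw [← MvPolynomial.smul_eq_C_mul]
  exact (map_smul (Ideal.Quotient.mkₐ ℂ I) r a).symm

theorem mem_act (I : Ideal (Sx N)) (n : ℕ) (h : Matrix (Fin 2) (Fin 2) ℂ) (k : ℕ)
    (u : (Fin n → Fin (N + 1) × Fin 2) → Sx N ⧸ I) (hu : u ∈ LN I n k) :
    aH I n h u ∈ LN I n k := by
  have h1 : LN I n k ≤ (LN I n k).comap (aH I n h) := by
    refine Submodule.span_le.2 ?_
    rintro z ⟨a, e, F, f, v, ha, hF, he, rfl⟩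
    refine Submodule.subset_span ⟨a, e, F, f, fun i => h.mulVec (v i), ha, hF, he, ?_⟩
    funext α
    rw [aH_apply, det_act, Finset.mul_sum, map_sum]
    refine Finset.sum_congr rfl fun η _ => ?_
    rw [smul_mk]
    refine congrArg _ ?_
    rw [← mul_assoc, ← mul_assoc, mul_comm a]
  exact h1 hu

theorem det_hom {n : ℕ} (F : Fin n → Sx N) (f : Fin n → ℕ) (h : ∀ i, (F i).IsHomogeneous (f i))
    (v : Fin n → Fin 2 → ℂ) (α : Fin n → Fin (N + 1) × Fin 2) :
    (Matrix.det (Matrix.of fun i m =>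
      (C (v i (α m).2) * pderiv (α m).1 (F i) : Sx N))).IsHomogeneous (∑ i, (f i - 1)) := by
  rw [Matrix.det_apply]
  refine IsHomogeneous.sum _ _ _ fun σ _ => ?_
  rw [Units.smul_def]
  have h1 : (∏ i, (Matrix.of fun i m =>
      (C (v i (α m).2) * pderiv (α m).1 (F i) : Sx N)) (σ i) i).IsHomogeneous
      (∑ i, (f i - 1)) := by
    rw [← Equiv.sum_comp σ]
    refine IsHomogeneous.prod _ _ _ fun i _ => ?_
    rw [Matrix.of_apply]
    have h2 := (isHomogeneous_C (Fin (N + 1)) (v (σ i) (α i).2)).mul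
      ((h (σ i)).pderiv (i := (α i).1))
    rw [zero_add] at h2
    exact h2
  exact (homogeneousSubmodule (Fin (N + 1)) ℂ (∑ i, (f i - 1))).toAddSubgroup.zsmul_mem h1 _

theorem pd_zero {F : Sx N} (h : F.IsHomogeneous 0) (k : Fin (N + 1)) : pderiv k F = 0 := by
  rw [totalDegree_eq_zero_iff_eq_C.1 ((totalDegree_zero_iff_isHomogeneous (Fin (N + 1))).2 h),
    pderiv_C]

theorem entry_hom {n k e : ℕ} {a : Sx N} (ha : a.IsHomogeneous e) (F : Fin n → Sx N) (f : Fin n → ℕ)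
    (h : ∀ i, (F i).IsHomogeneous (f i)) (he : e + ∑ i, f i = k + n) (v : Fin n → Fin 2 → ℂ)
    (α : Fin n → Fin (N + 1) × Fin 2) :
    (a * Matrix.det (Matrix.of fun i m =>
      (C (v i (α m).2) * pderiv (α m).1 (F i) : Sx N))).IsHomogeneous k := by
  by_cases hf : ∀ i, 1 ≤ f i
  · have h1 := ha.mul (det_hom F f h v α)
    have h2 : ∑ i, f i = ∑ i, (f i - 1) + n := by
      have h3 : ∑ i, f i = ∑ i, ((f i - 1) + 1) :=
        Finset.sum_congr rfl fun i _ => (Nat.sub_add_cancel (hf i)).symm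
      rw [h3, Finset.sum_add_distrib]
      simp
    have h4 : e + ∑ i, (f i - 1) = k := by omega
    rw [h4] at h1
    exact h1
  · push Not at hf
    obtain ⟨i, hi⟩ := hf
    have h0 : f i = 0 := by omega
    have h1 : Matrix.det (Matrix.of fun i m =>
        (C (v i (α m).2) * pderiv (α m).1 (F i) : Sx N)) = 0 := by
      refine Matrix.det_eq_zero_of_row_eq_zero i fun k => ?_
      rw [Matrix.of_apply, pd_zero (h0 ▸ h i), mul_zero]
    rw [h1, mul_zero]
    exact isHomogeneous_zero _ _ _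

theorem fin_LN (I : Ideal (Sx N)) (n k : ℕ) : FiniteDimensional ℂ (LN I n k) := by
  have h0 : FiniteDimensional ℂ (homogeneousSubmodule (Fin (N + 1)) ℂ k) :=
    Module.Finite.iff_fg.2 (homogeneousSubmodule_fg (Fin (N + 1)) ℂ k)
  let ψ : ((Fin n → Fin (N + 1) × Fin 2) → homogeneousSubmodule (Fin (N + 1)) ℂ k) →ₗ[ℂ]
      ((Fin n → Fin (N + 1) × Fin 2) → Sx N ⧸ I) :=
    redL (Fin n → Fin (N + 1) × Fin 2) I ∘ₗ
      (homogeneousSubmodule (Fin (N + 1)) ℂ k).subtype.compLeft (Fin n → Fin (N + 1) × Fin 2)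
  have h1 : LN I n k ≤ LinearMap.range ψ := by
    refine Submodule.span_le.2 ?_
    rintro z ⟨a, e, F, f, v, ha, hF, he, rfl⟩
    exact ⟨fun α => ⟨_, entry_hom ha F f (fun i => (hF i).2) he v α⟩, rfl⟩
  exact Submodule.finiteDimensional_of_le h1

end SActAux

open SActAux in
theorem kSAct : S_SAct := fun _ I n =>
  ⟨mul_act I n, one_act I n, fun h k u hu => mem_act I n h k u hu, fin_LN I n⟩

end Pool.Agent.Lib.MP_776403_ag.SD
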