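import Pool.Agent.Lib.MP_776403_ag.SD.K.SpecS

/-!
# THEOREM SD, part K: the swap and the diagonal matrix are conjugate
-/

set_option autoImplicit false

open MvPolynomial TensorProduct

noncomputable section

namespace Pool.Agent.Lib.MP_776403_ag.SD

namespace SCnjAux

variable {N : ℕ}

/-- The conjugating matrix. -/
def mH : Matrix (Fin 2) (Fin 2) ℂ := !![1, -1/2; 1, 1/2]

/-- Its inverse. -/
def mHi : Matrix (Fin 2) (Fin 2) ℂ := !![1/2, 1/2; -1, 1]

theorem mH_mul : mH * mHi = 1 := by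
  ext i j
  fin_cases i <;> fin_cases j <;> simp [mH, mHi, Matrix.mul_apply, Fin.sum_univ_two] <;> norm_num

theorem mHi_mul : mHi * mH = 1 := by
  ext i j
  fin_cases i <;> fin_cases j <;> simp [mH, mHi, Matrix.mul_apply, Fin.sum_univ_two] <;> norm_num

theorem mPH : mP * mH = mH * mQ := by
  ext i j
  fin_cases i <;> fin_cases j <;> simp [mH, mP, mQ, Matrix.mul_apply, Fin.sum_univ_two] <;> norm_num

theorem mQHi : mQ * mHi = mHi * mP := by
  ext i j
  fin_cases i <;> fin_cases j <;> simp [mHi, mP, mQ, Matrix.mul_apply, Fin.sum_univ_two]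

/-- The action of the conjugating matrix as an equivalence. -/
def eqv (hA : S_SAct) (I : Ideal (Sx N)) (n : ℕ) :
    ((Fin n → Fin (N + 1) × Fin 2) → Sx N ⧸ I) ≃ₗ[ℂ] ((Fin n → Fin (N + 1) × Fin 2) → Sx N ⧸ I) :=
  LinearEquiv.ofLinearMap (aH I n mH) (aH I n mHi)
    (LinearMap.ext fun u => by
      rw [LinearMap.comp_apply, ← (hA N I n).1, mH_mul, (hA N I n).2.1, LinearMap.id_apply])
    (LinearMap.ext fun u => by
      rw [LinearMap.comp_apply, ← (hA N I n).1, mHi_mul, (hA N I n).2.1, LinearMap.id_apply])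

theorem map_eq (hA : S_SAct) (I : Ideal (Sx N)) (n k : ℕ) (ε : ℂ) :
    (LN I n k ⊓ LinearMap.ker (aH I n mQ - ε • LinearMap.id)).map (eqv hA I n : _ →ₗ[ℂ] _) =
      LN I n k ⊓ LinearMap.ker (aH I n mP - ε • LinearMap.id) := by
  ext u
  constructor
  · rintro ⟨w, ⟨hw1, hw2⟩, rfl⟩
    have hw2' : aH I n mQ w = ε • w := sub_eq_zero.1 (LinearMap.mem_ker.1 hw2)
    refine ⟨(hA N I n).2.2.1 mH k w hw1, LinearMap.mem_ker.2 (sub_eq_zero.2 ?_)⟩
    change aH I n mP (aH I n mH w) = ε • aH I n mH w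
    rw [← (hA N I n).1, mPH, (hA N I n).1, hw2', map_smul]
  · rintro ⟨hu1, hu2⟩
    have hu2' : aH I n mP u = ε • u := sub_eq_zero.1 (LinearMap.mem_ker.1 hu2)
    refine ⟨aH I n mHi u, ⟨(hA N I n).2.2.1 mHi k u hu1, LinearMap.mem_ker.2 (sub_eq_zero.2 ?_)⟩, ?_⟩
    · change aH I n mQ (aH I n mHi u) = ε • aH I n mHi u
      rw [← (hA N I n).1, mQHi, (hA N I n).1, hu2', map_smul]
    · change aH I n mH (aH I n mHi u) = u
      rw [← (hA N I n).1, mH_mul, (hA N I n).2.1]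

theorem fin_eq (hA : S_SAct) (I : Ideal (Sx N)) (n k : ℕ) (ε : ℂ) :
    Module.finrank ℂ ↥(LN I n k ⊓ LinearMap.ker (aH I n mP - ε • LinearMap.id)) =
      Module.finrank ℂ ↥(LN I n k ⊓ LinearMap.ker (aH I n mQ - ε • LinearMap.id)) := by
  rw [← map_eq hA I n k ε]
  exact LinearEquiv.finrank_map_eq (eqv hA I n) _

end SCnjAux

open SCnjAux in
theorem kSCnj : S_SAct → S_SCnj := by
  intro hA N I n k
  have h1 := fin_eq hA I n k 1
  have h2 := fin_eq hA I n k (-1)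
  rw [one_smul] at h1
  have e : (-1 : ℂ) • (LinearMap.id : ((Fin n → Fin (N + 1) × Fin 2) → Sx N ⧸ I) →ₗ[ℂ] _) =
      -LinearMap.id := by
    refine LinearMap.ext fun u => ?_
    rw [LinearMap.smul_apply, LinearMap.neg_apply]
    exact neg_one_smul ℂ u
  rw [e, sub_neg_eq_add, sub_neg_eq_add] at h2
  unfold tri
  rw [h1, h2]

end Pool.Agent.Lib.MP_776403_ag.SD
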