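import Pool.Agent.Lib.MP_776403_ag.SD.K.SpecS

/-!
# THEOREM SD, part K: `S_SDat`, the data for parts (v)-(vii)
-/

set_option autoImplicit false

open MvPolynomial TensorProduct

noncomputable section

namespace Pool.Agent.Lib.MP_776403_ag.SD

namespace SDatAux

variable {N : ℕ}

/-- The coercion to power series as a ring homomorphism. -/
abbrev co : Polynomial ℤ →+* PowerSeries ℤ := Polynomial.coeToPowerSeries.ringHom

theorem co_apply (p : Polynomial ℤ) : co p = (p : PowerSeries ℤ) := rfl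

theorem co_inj {p q : Polynomial ℤ} (h : co p = co q) : p = q := by
  exact Polynomial.coe_injective ℤ h

theorem co_X : co (Polynomial.X : Polynomial ℤ) = PowerSeries.X := Polynomial.coe_X

theorem one_sub_ne : (1 - Polynomial.X : Polynomial ℤ) ≠ 0 := by
  intro h
  have h1 := congrArg (Polynomial.eval 0) h
  simp at h1

/-- `QP` determines the polynomial. -/
theorem QP_unique {N c : ℕ} {f : ℕ → ℕ} {p q : Polynomial ℤ} (hp : QP N c f p)
    (hq : QP N c f q) : p = q := by
  have h1 : (1 - Polynomial.X : Polynomial ℤ) ^ c * p = (1 - Polynomial.X) ^ c * q := by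
    refine co_inj ?_
    rw [co_apply, co_apply]
    exact hp.symm.trans hq
  exact mul_left_cancel₀ (pow_ne_zero c one_sub_ne) h1

/-- The Hilbert function of `VL I 0` is that of `S / I`. -/
theorem hV_VL_zero (I : Ideal (Sx N)) (k : ℕ) :
    hV I (VL I 0) k = Module.finrank ℂ (gr I k) := by
  have h1 : ((VL I 0 k).map (redL (Fin 0 → Fin (N + 1)) I)).map
      (LinearEquiv.funUnique (Fin 0 → Fin (N + 1)) ℂ (Sx N ⧸ I)).toLinearMap = gr I k := by
    unfold VL
    rw [Submodule.map_span, Submodule.map_span]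
    refine le_antisymm (Submodule.span_le.2 ?_) ?_
    · rintro _ ⟨_, ⟨_, ⟨a, e, F, f, ha, -, he, rfl⟩, rfl⟩, rfl⟩
      refine ⟨a, ?_, ?_⟩
      · have : e = k := by simpa using he
        subst this
        exact ha
      · simp [redL]
    · rintro _ ⟨a, ha, rfl⟩
      refine Submodule.subset_span ⟨_, ⟨_, ⟨a, k, fun _ => 0, fun _ => 0, ha, fun i => i.elim0,
        by simp, rfl⟩, rfl⟩, ?_⟩
      simp [redL]
  unfold hV
  rw [← h1]
  exact (LinearEquiv.finrank_map_eq
    (LinearEquiv.funUnique (Fin 0 → Fin (N + 1)) ℂ (Sx N ⧸ I)) _).symm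

/-- A series with finitely many nonzero coefficients is a polynomial. -/
theorem ps_fin {f : ℕ → ℕ} {k0 : ℕ} (h : ∀ k, k0 ≤ k → f k = 0) :
    ∃ R : Polynomial ℤ, ps f = co R := by
  refine ⟨PowerSeries.trunc k0 (ps f), ?_⟩
  rw [co_apply]
  ext k
  rw [Polynomial.coeff_coe, PowerSeries.coeff_trunc]
  split_ifs with hk
  · rfl
  · unfold ps
    rw [PowerSeries.coeff_mk, h k (not_lt.mp hk), Nat.cast_zero]

end SDatAux

open SDatAux in
theorem kSDat : S_SFE → S_KII → S_SDv → S_SGr → S_SRk → S_KTop → S_KPV → S_KGV → S_KHV →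
    S_SDat := by
  intro hSFE hKII hSDv hSGr hSRk hKTop _ hKGV _ N c hc I h hI hIh hS hz hQ hh
  have hex : ∀ j : ℕ, ∃ p : Polynomial ℤ, QP N c (hV I (VL I j)) p := fun j =>
    hSDv N c hc I h hQ (Fin j → Fin (N + 1)) (VL I j) (hKGV.2.2.1 N I j).1
  choose p hp using hex
  set q : ℕ → Polynomial ℤ := fun j => if j ≤ c then Polynomial.X ^ j * p j else 0 with hq
  have hqj : ∀ j, j ≤ c → q j = Polynomial.X ^ j * p j := fun j hj => by
    simp only [hq, if_pos hj]
  have hqz : ∀ j, c < j → q j = 0 := fun j hj => by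
    simp only [hq, if_neg (not_le.mpr hj)]
  have hp0 : p 0 = h := by
    refine QP_unique (hp 0) ?_
    have : hV I (VL I 0) = fun k => Module.finrank ℂ (gr I k) :=
      funext fun k => hV_VL_zero I k
    rw [this]
    exact hQ
  have hq0 : q 0 = h := by rw [hqj 0 (Nat.zero_le c), pow_zero, one_mul, hp0]
  have h1 : ∀ j, (q j).eval 1 = (c.choose j : ℤ) * (q 0).eval 1 := by
    intro j
    rcases le_or_gt j c with hj | hj
    · obtain ⟨κ, δ, hκ, hb⟩ := hSRk N c I hI hIh hS hz j
      have hP : QP N 0 (hV I (VL I j)) ((1 - Polynomial.X) ^ c * p j) := by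
        unfold QP
        rw [pow_zero, one_mul]
        exact hp j
      have h2 := (hSGr N c hc h _ _ _ hQ hP).2 (Nat.choose c j) κ δ hκ hb (p j) rfl
      rw [hqj j hj, Polynomial.eval_mul, Polynomial.eval_pow, Polynomial.eval_X, one_pow, one_mul,
        h2, hq0]
    · rw [hqz j hj, Polynomial.eval_zero, Nat.choose_eq_zero_of_lt hj, Nat.cast_zero, zero_mul]
  have hfe := hSFE N c hc I h hI hIh hS hQ hh q p hp (fun j => rfl)
  have hii : (1 - Polynomial.X : Polynomial ℤ) ^ (N + 1 - 2 * c) ∣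
      (∑ j ∈ Finset.range (c + 1), (-1) ^ j * q j) - (1 - Polynomial.X) ^ c * (q 0) ^ 2 := by
    obtain ⟨P, hP⟩ := hKII N c I hI hIh hS
    have hR : ∀ i : ℕ, ∃ R : Polynomial ℤ, c < i →
        (1 - Polynomial.X : Polynomial ℤ) ^ c * p i = (1 - Polynomial.X) ^ (N + 1) * R := by
      intro i
      by_cases hi : c < i
      · obtain ⟨k0, hk0⟩ := hKTop N c I hI hIh hS i hi
        obtain ⟨R, hR⟩ := ps_fin (f := hV I (VL I i)) (k0 := k0) fun k hk => (hk0 k hk).1
        refine ⟨R, fun _ => co_inj ?_⟩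
        have h3 := hp i
        unfold QP at h3
        rw [co_apply, ← h3, map_mul, map_pow, map_sub, map_one, co_X, hR]
      · exact ⟨0, fun h4 => absurd h4 hi⟩
    choose R hR using hR
    -- the identity in `ℤ[X]`
    have e1 : ((1 - Polynomial.X : Polynomial ℤ) ^ c * h) ^ 2 -
        ∑ i ∈ Finset.range (N + 2), (-1) ^ i * (Polynomial.X ^ i * ((1 - Polynomial.X) ^ c * p i)) =
        (1 - Polynomial.X) ^ (N + 1) * P := by
      refine co_inj ?_
      have h5 : co ((1 - Polynomial.X : Polynomial ℤ) ^ c * h) = (1 - PowerSeries.X) ^ (N + 1) *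
          ps (fun k => Module.finrank ℂ (gr I k)) := hQ.symm
      have h6 : ∀ i, co ((1 - Polynomial.X : Polynomial ℤ) ^ c * p i) =
          (1 - PowerSeries.X) ^ (N + 1) * ps (hV I (VL I i)) := fun i => (hp i).symm
      rw [map_sub, map_pow, h5, map_sum, map_mul, map_pow, map_sub, map_one, co_X,
        co_apply, ← hP]
      have h7 : ∀ i ∈ Finset.range (N + 2), co ((-1) ^ i * (Polynomial.X ^ i *
          ((1 - Polynomial.X) ^ c * p i))) = (1 - PowerSeries.X) ^ (N + 1) *
          ((-1) ^ i * (PowerSeries.X ^ i * ps (hV I (VL I i)))) := by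
        intro i _
        rw [map_mul, map_mul, h6, map_pow, map_pow, map_neg, map_one, co_X]
        ring
      rw [Finset.sum_congr rfl h7, ← Finset.mul_sum]
      ring
    have e2 : ∑ i ∈ Finset.range (N + 2), (-1) ^ i * (Polynomial.X ^ i *
        ((1 - Polynomial.X : Polynomial ℤ) ^ c * p i)) =
        (1 - Polynomial.X) ^ c * (∑ j ∈ Finset.range (c + 1), (-1) ^ j * q j) +
        (1 - Polynomial.X) ^ (N + 1) * ∑ i ∈ Finset.Ico (c + 1) (N + 2),
          (-1) ^ i * (Polynomial.X ^ i * R i) := by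
      rw [← Finset.sum_range_add_sum_Ico _ (show c + 1 ≤ N + 2 by lia), Finset.mul_sum,
        Finset.mul_sum]
      congr 1
      · refine Finset.sum_congr rfl fun i hi => ?_
        rw [hqj i (Nat.lt_succ_iff.mp (Finset.mem_range.mp hi))]
        ring
      · refine Finset.sum_congr rfl fun i hi => ?_
        rw [hR i (Finset.mem_Ico.mp hi).1]
        ring
    set Q := ∑ i ∈ Finset.Ico (c + 1) (N + 2), (-1) ^ i * (Polynomial.X ^ i * R i) with hQd
    have e3 : (1 - Polynomial.X : Polynomial ℤ) ^ (N + 1) =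
        (1 - Polynomial.X) ^ c * ((1 - Polynomial.X) ^ (N + 1 - 2 * c) *
          (1 - Polynomial.X) ^ (N + 1 - c - (N + 1 - 2 * c))) := by
      rw [← pow_add, ← pow_add]
      congr 1
      lia
    rw [e2] at e1
    refine ⟨-((1 - Polynomial.X) ^ (N + 1 - c - (N + 1 - 2 * c)) * (P + Q)), ?_⟩
    refine mul_left_cancel₀ (pow_ne_zero c one_sub_ne) ?_
    rw [hq0]
    rw [e3] at e1
    linear_combination -e1
  exact ⟨q, hq0, ⟨hqz, h1, by rw [hq0]; exact hh, hfe, hii⟩,
    fun j hj => ⟨p j, hp j, hqj j hj⟩⟩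

end Pool.Agent.Lib.MP_776403_ag.SD
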