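import Pool.Agent.Lib.MP_776403_ag.SD.K.SpecS

set_option autoImplicit false

open MvPolynomial TensorProduct

noncomputable section

namespace Pool.Agent.Lib.MP_776403_ag.SD

namespace SDecAux

variable {N : ℕ}

/-- The weight. -/
def wt {n : ℕ} (α : Fin n → Fin (N + 1) × Fin 2) : ℕ :=
  (Finset.univ.filter fun m => (α m).2 = 1).card

theorem wt_le {n : ℕ} (α : Fin n → Fin (N + 1) × Fin 2) : wt α ≤ n := by
  unfold wt
  calc _ ≤ (Finset.univ : Finset (Fin n)).card := Finset.card_filter_le _ _
    _ = n := by simp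

/-- Flip of the second components. -/
def fl {n : ℕ} (α : Fin n → Fin (N + 1) × Fin 2) : Fin n → Fin (N + 1) × Fin 2 :=
  fun m => ((α m).1, 1 - (α m).2)

theorem wt_fl {n : ℕ} (α : Fin n → Fin (N + 1) × Fin 2) : wt (fl α) + wt α = n := by
  unfold wt
  have h1 : (Finset.univ.filter fun m => (fl α m).2 = 1) =
      Finset.univ.filter fun m => ¬ ((α m).2 = 1) := by
    refine Finset.filter_congr fun m _ => ?_
    change 1 - (α m).2 = 1 ↔ _
    generalize (α m).2 = x
    fin_cases x <;> simp
  rw [h1, add_comm, Finset.card_filter_add_card_filter_not]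
  simp

/-- Multiplication by a function of the weight. -/
def mu (I : Ideal (Sx N)) (n : ℕ) (g : ℕ → ℂ) :
    ((Fin n → Fin (N + 1) × Fin 2) → Sx N ⧸ I) →ₗ[ℂ]
      ((Fin n → Fin (N + 1) × Fin 2) → Sx N ⧸ I) where
  toFun u := fun α => g (wt α) • u α
  map_add' u v := by funext α; simp
  map_smul' r u := by
    funext α
    simp only [Pi.smul_apply, RingHom.id_apply]
    rw [smul_comm]

theorem mu_apply (I : Ideal (Sx N)) (n : ℕ) (g : ℕ → ℂ)
    (u : (Fin n → Fin (N + 1) × Fin 2) → Sx N ⧸ I) (α : Fin n → Fin (N + 1) × Fin 2) :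
    mu I n g u α = g (wt α) • u α := rfl

theorem aH_apply (I : Ideal (Sx N)) (n : ℕ) (h : Matrix (Fin 2) (Fin 2) ℂ)
    (u : (Fin n → Fin (N + 1) × Fin 2) → Sx N ⧸ I) (α : Fin n → Fin (N + 1) × Fin 2) :
    aH I n h u α = ∑ η : Fin n → Fin 2, (∏ m, h (α m).2 (η m)) • u (fun m => ((α m).1, η m)) := rfl

theorem aH_diag (I : Ideal (Sx N)) (n : ℕ) (t : ℂ)
    (u : (Fin n → Fin (N + 1) × Fin 2) → Sx N ⧸ I) (α : Fin n → Fin (N + 1) × Fin 2) :
    aH I n !![1, 0; 0, t] u α = t ^ wt α • u α := by
  rw [aH_apply, Finset.sum_eq_single (fun m => (α m).2)]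
  · congr 1
    have h1 : ∀ m, (!![1, 0; 0, t] : Matrix (Fin 2) (Fin 2) ℂ) (α m).2 (α m).2 =
        if (α m).2 = 1 then t else 1 := by
      intro m
      generalize (α m).2 = x
      fin_cases x <;> simp
    rw [Finset.prod_congr rfl fun m _ => h1 m, Finset.prod_ite, Finset.prod_const_one, mul_one,
      Finset.prod_const]
    rfl
  · intro η _ hη
    obtain ⟨m, hm⟩ := Function.ne_iff.1 hη
    have h0 : (!![1, 0; 0, t] : Matrix (Fin 2) (Fin 2) ℂ) (α m).2 (η m) = 0 := by
      revert hm
      generalize (α m).2 = x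
      generalize η m = y
      fin_cases x <;> fin_cases y <;> simp
    rw [Finset.prod_eq_zero (Finset.mem_univ m) h0, zero_smul]
  · intro h
    exact absurd (Finset.mem_univ _) h

theorem aH_mP (I : Ideal (Sx N)) (n : ℕ)
    (u : (Fin n → Fin (N + 1) × Fin 2) → Sx N ⧸ I) (α : Fin n → Fin (N + 1) × Fin 2) :
    aH I n mP u α = u (fl α) := by
  rw [aH_apply, Finset.sum_eq_single (fun m => 1 - (α m).2)]
  · have h1 : ∏ m, mP (α m).2 (1 - (α m).2) = 1 := by
      refine Finset.prod_eq_one fun m _ => ?_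
      generalize (α m).2 = x
      fin_cases x <;> simp [mP]
    rw [h1, one_smul]
    rfl
  · intro η _ hη
    obtain ⟨m, hm⟩ := Function.ne_iff.1 hη
    have h0 : mP (α m).2 (η m) = 0 := by
      revert hm
      generalize (α m).2 = x
      generalize η m = y
      fin_cases x <;> fin_cases y <;> simp [mP]
    rw [Finset.prod_eq_zero (Finset.mem_univ m) h0, zero_smul]
  · intro h
    exact absurd (Finset.mem_univ _) h

theorem interp (n : ℕ) (g : ℕ → ℂ) : ∃ c : Fin (n + 1) → ℂ, ∀ b : ℕ, b ≤ n →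
    ∑ j, c j * ((j : ℕ) : ℂ) ^ b = g b := by
  let t : Fin (n + 1) → ℂ := fun j => ((j : ℕ) : ℂ)
  have ht : Function.Injective t := by
    intro i j hij
    exact Fin.ext (Nat.cast_injective hij)
  have hu : IsUnit (Matrix.vandermonde t).det :=
    isUnit_iff_ne_zero.2 (Matrix.det_vandermonde_ne_zero_iff.2 ht)
  refine ⟨Matrix.vecMul (fun b : Fin (n + 1) => g b) (Matrix.vandermonde t)⁻¹, fun b hb => ?_⟩
  have h1 : Matrix.vecMul (Matrix.vecMul (fun b : Fin (n + 1) => g b) (Matrix.vandermonde t)⁻¹)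
      (Matrix.vandermonde t) = fun b : Fin (n + 1) => g b := by
    rw [Matrix.vecMul_vecMul, Matrix.nonsing_inv_mul _ hu, Matrix.vecMul_one]
  have h2 := congrFun h1 ⟨b, by omega⟩
  simpa [Matrix.vecMul, dotProduct, Matrix.vandermonde_apply, t] using h2

theorem mu_mem (hA : S_SAct) (I : Ideal (Sx N)) (n k : ℕ) (g : ℕ → ℂ)
    (u : (Fin n → Fin (N + 1) × Fin 2) → Sx N ⧸ I) (hu : u ∈ LN I n k) :
    mu I n g u ∈ LN I n k := by
  obtain ⟨c, hc⟩ := interp n g
  have h1 : mu I n g u = ∑ j : Fin (n + 1), c j • aH I n !![1, 0; 0, ((j : ℕ) : ℂ)] u := by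
    funext α
    rw [mu_apply, ← hc (wt α) (wt_le α), Finset.sum_smul]
    rw [Finset.sum_apply]
    refine Finset.sum_congr rfl fun j _ => ?_
    rw [Pi.smul_apply, aH_diag, smul_smul]
  rw [h1]
  exact Submodule.sum_mem _ fun j _ => Submodule.smul_mem _ _ ((hA N I n).2.2.1 _ k u hu)

/-- Elements of `LN` supported at weights in `A`. -/
def SU (I : Ideal (Sx N)) (n k : ℕ) (A : Finset ℕ) :
    Submodule ℂ ((Fin n → Fin (N + 1) × Fin 2) → Sx N ⧸ I) :=
  LN I n k ⊓
  { carrier := {u | ∀ α : Fin n → Fin (N + 1) × Fin 2, wt α ∉ A → u α = 0}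
    zero_mem' := fun _ _ => rfl
    add_mem' := fun {u w} h1 h2 α hα => by rw [Pi.add_apply, h1 α hα, h2 α hα, add_zero]
    smul_mem' := fun r u h α hα => by rw [Pi.smul_apply, h α hα, smul_zero] }

theorem mem_SU {I : Ideal (Sx N)} {n k : ℕ} {A : Finset ℕ}
    {u : (Fin n → Fin (N + 1) × Fin 2) → Sx N ⧸ I} :
    u ∈ SU I n k A ↔ u ∈ LN I n k ∧ ∀ α, wt α ∉ A → u α = 0 := Iff.rfl

theorem mem_LB {I : Ideal (Sx N)} {n b k : ℕ}
    {u : (Fin n → Fin (N + 1) × Fin 2) → Sx N ⧸ I} :
    u ∈ LB I n b k ↔ u ∈ LN I n k ∧ ∀ α, wt α ≠ b → u α = 0 := Iff.rfl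

theorem finrank_SU (hA : S_SAct) (I : Ideal (Sx N)) (n k : ℕ) (A : Finset ℕ) :
    Module.finrank ℂ (SU I n k A) = ∑ b ∈ A, Module.finrank ℂ (LB I n b k) := by
  haveI : FiniteDimensional ℂ (LN I n k) := (hA N I n).2.2.2 k
  induction A using Finset.induction_on with
  | empty =>
    have h1 : SU I n k ∅ = ⊥ := by
      rw [Submodule.eq_bot_iff]
      intro u hu
      funext α
      exact (mem_SU.1 hu).2 α (Finset.notMem_empty _)
    rw [h1, Finset.sum_empty, finrank_bot]
  | insert b A hb ih =>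
    haveI h2 : FiniteDimensional ℂ (SU I n k A) :=
      Submodule.finiteDimensional_of_le (S₂ := LN I n k) inf_le_left
    haveI h3 : FiniteDimensional ℂ (LB I n b k) :=
      Submodule.finiteDimensional_of_le (S₂ := LN I n k) inf_le_left
    have h4 := Submodule.finrank_sup_add_finrank_inf_eq (LB I n b k) (SU I n k A)
    have h5 : LB I n b k ⊓ SU I n k A = ⊥ := by
      rw [Submodule.eq_bot_iff]
      intro u hu
      have hu1 := (mem_LB.1 hu.1).2
      have hu2 := (mem_SU.1 hu.2).2
      funext α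
      by_cases h : wt α = b
      · exact hu2 α (by rw [h]; exact hb)
      · exact hu1 α h
    have h6 : LB I n b k ⊔ SU I n k A = SU I n k (insert b A) := by
      apply le_antisymm
      · refine sup_le (fun u hu => ?_) (fun u hu => ?_)
        · refine mem_SU.2 ⟨(mem_LB.1 hu).1, fun α hα => (mem_LB.1 hu).2 α fun h => hα ?_⟩
          rw [h]
          exact Finset.mem_insert_self _ _
        · exact mem_SU.2 ⟨(mem_SU.1 hu).1, fun α hα => (mem_SU.1 hu).2 α fun h => hα
            (Finset.mem_insert_of_mem h)⟩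
      · intro u hu
        have hu1 := (mem_SU.1 hu).1
        have hu2 := (mem_SU.1 hu).2
        have e1 : u = mu I n (fun m => if m = b then 1 else 0) u +
            mu I n (fun m => if m = b then 0 else 1) u := by
          funext α
          rw [Pi.add_apply, mu_apply, mu_apply]
          by_cases h : wt α = b <;> simp [h]
        rw [e1]
        refine Submodule.add_mem_sup (mem_LB.2 ⟨mu_mem hA I n k _ u hu1, fun α hα => ?_⟩)
          (mem_SU.2 ⟨mu_mem hA I n k _ u hu1, fun α hα => ?_⟩)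
        · rw [mu_apply, if_neg hα, zero_smul]
        · rw [mu_apply]
          by_cases h : wt α = b
          · rw [if_pos h, zero_smul]
          · rw [if_neg h, one_smul]
            exact hu2 α fun h' => (Finset.mem_insert.1 h').elim h hα
    rw [h5, h6, finrank_bot, add_zero, ih] at h4
    rw [h4, Finset.sum_insert hb]

theorem part1 (hA : S_SAct) (I : Ideal (Sx N)) (n k : ℕ) :
    tri (aH I n mQ) (LN I n k) =
      ∑ b ∈ Finset.range (n + 1), (-1 : ℤ) ^ b * Module.finrank ℂ (LB I n b k) := by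
  have hQ : ∀ u α, aH I n mQ u α = (-1 : ℂ) ^ wt α • u α := fun u α => aH_diag I n (-1) u α
  have two : ∀ x : Sx N ⧸ I, x + x = 0 → x = 0 := by
    intro x hx
    have h1 : (2 : ℂ) • x = 0 := by rw [two_smul]; exact hx
    rcases smul_eq_zero.1 h1 with h | h
    · norm_num at h
    · exact h
  have e1 : LN I n k ⊓ LinearMap.ker (aH I n mQ - LinearMap.id) =
      SU I n k ((Finset.range (n + 1)).filter Even) := by
    ext u
    rw [Submodule.mem_inf, LinearMap.mem_ker, mem_SU, LinearMap.sub_apply, LinearMap.id_apply,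
      sub_eq_zero]
    refine and_congr_right fun hu => ⟨fun h α hα => ?_, fun h => ?_⟩
    · have h1 : ¬ Even (wt α) := fun he => hα (by
        rw [Finset.mem_filter, Finset.mem_range]
        exact ⟨Nat.lt_succ_of_le (wt_le α), he⟩)
      have h2 := congrFun h α
      rw [hQ, (Nat.not_even_iff_odd.1 h1).neg_one_pow, neg_smul, one_smul] at h2
      apply two
      nth_rewrite 1 [← h2]
      exact neg_add_cancel _
    · funext α
      rw [hQ]
      by_cases h1 : Even (wt α)
      · rw [h1.neg_one_pow, one_smul]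
      · rw [h α fun h2 => h1 (Finset.mem_filter.1 h2).2, smul_zero]
  have e2 : LN I n k ⊓ LinearMap.ker (aH I n mQ + LinearMap.id) =
      SU I n k ((Finset.range (n + 1)).filter fun b => ¬ Even b) := by
    ext u
    rw [Submodule.mem_inf, LinearMap.mem_ker, mem_SU, LinearMap.add_apply, LinearMap.id_apply]
    refine and_congr_right fun hu => ⟨fun h α hα => ?_, fun h => ?_⟩
    · have h1 : Even (wt α) := by
        by_contra he
        exact hα (by
          rw [Finset.mem_filter, Finset.mem_range]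
          exact ⟨Nat.lt_succ_of_le (wt_le α), he⟩)
      have h2 := congrFun h α
      rw [Pi.add_apply, hQ, h1.neg_one_pow, one_smul] at h2
      exact two _ h2
    · funext α
      rw [Pi.add_apply, hQ]
      by_cases h1 : Even (wt α)
      · rw [h α fun h2 => (Finset.mem_filter.1 h2).2 h1, smul_zero, add_zero]
        rfl
      · rw [(Nat.not_even_iff_odd.1 h1).neg_one_pow, neg_smul, one_smul]
        exact neg_add_cancel _
  unfold tri
  rw [e1, e2, finrank_SU hA, finrank_SU hA, ← Finset.sum_filter_add_sum_filter_not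
    (Finset.range (n + 1)) Even (fun b => (-1 : ℤ) ^ b * Module.finrank ℂ (LB I n b k))]
  push_cast
  rw [sub_eq_add_neg, ← Finset.sum_neg_distrib]
  congr 1
  · refine Finset.sum_congr rfl fun b hb => ?_
    rw [(Finset.mem_filter.1 hb).2.neg_one_pow, one_mul]
  · refine Finset.sum_congr rfl fun b hb => ?_
    rw [(Nat.not_even_iff_odd.1 (Finset.mem_filter.1 hb).2).neg_one_pow, neg_one_mul]

theorem dimE (hA : S_SAct) (I : Ideal (Sx N)) (j k : ℕ) (ε : ℂ) (hε : ε * ε = 1) :
    Module.finrank ℂ ↥(LN I (j + j) k ⊓ LinearMap.ker (aH I (j + j) mP - ε • LinearMap.id)) =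
      Module.finrank ℂ (SU I (j + j) k (Finset.range j)) +
      Module.finrank ℂ ↥(LB I (j + j) j k ⊓
        LinearMap.ker (aH I (j + j) mP - ε • LinearMap.id)) := by
  haveI : FiniteDimensional ℂ (LN I (j + j) k) := (hA N I (j + j)).2.2.2 k
  haveI h2 : FiniteDimensional ℂ (SU I (j + j) k (Finset.range j)) :=
    Submodule.finiteDimensional_of_le (S₂ := LN I (j + j) k) inf_le_left
  haveI h3 : FiniteDimensional ℂ ↥(LB I (j + j) j k ⊓
        LinearMap.ker (aH I (j + j) mP - ε • LinearMap.id)) :=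
    Submodule.finiteDimensional_of_le (S₂ := LN I (j + j) k)
      (le_trans inf_le_left inf_le_left)
  have hs : ∀ u α, aH I (j + j) mP u α = u (fl α) := aH_mP I (j + j)
  have hfl : ∀ α : Fin (j + j) → Fin (N + 1) × Fin 2, fl (fl α) = α := by
    intro α
    funext m
    refine Prod.ext rfl ?_
    change 1 - (1 - (α m).2) = (α m).2
    generalize (α m).2 = x
    fin_cases x <;> rfl
  have hmem : ∀ u : (Fin (j + j) → Fin (N + 1) × Fin 2) → Sx N ⧸ I,
      u ∈ LinearMap.ker (aH I (j + j) mP - ε • LinearMap.id) ↔ ∀ α, u (fl α) = ε • u α := by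
    intro u
    rw [LinearMap.mem_ker, LinearMap.sub_apply, LinearMap.smul_apply, LinearMap.id_apply,
      sub_eq_zero]
    constructor
    · intro h α
      rw [← hs u α, h]
      rfl
    · intro h
      funext α
      rw [hs, h α]
      rfl
  have hsLN : ∀ u ∈ LN I (j + j) k, aH I (j + j) mP u ∈ LN I (j + j) k :=
    fun u hu => (hA N I (j + j)).2.2.1 mP k u hu
  let S1 := SU I (j + j) k (Finset.range j)
  let S2 := LB I (j + j) j k ⊓ LinearMap.ker (aH I (j + j) mP - ε • LinearMap.id)
  let Φ : (S1 × S2) →ₗ[ℂ] ((Fin (j + j) → Fin (N + 1) × Fin 2) → Sx N ⧸ I) :=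
    ((LinearMap.id + ε • aH I (j + j) mP) ∘ₗ S1.subtype).coprod S2.subtype
  have hΦ : ∀ (x : S1) (y : S2) α, Φ (x, y) α = x.1 α + ε • x.1 (fl α) + y.1 α := by
    intro x y α
    change (x.1 + ε • aH I (j + j) mP x.1 + y.1) α = _
    rw [Pi.add_apply, Pi.add_apply, Pi.smul_apply, hs]
  have hinj : Function.Injective Φ := by
    rw [← LinearMap.ker_eq_bot, Submodule.eq_bot_iff]
    rintro ⟨x, y⟩ hxy
    rw [LinearMap.mem_ker] at hxy
    have hx : x.1 = 0 := by
      funext α
      by_cases h : wt α < j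
      · have h4 := congrFun hxy α
        rw [hΦ] at h4
        have h5 : x.1 (fl α) = 0 := by
          refine (mem_SU.1 x.2).2 _ fun h6 => ?_
          have h7 := wt_fl α
          rw [Finset.mem_range] at h6
          omega
        have h6 : y.1 α = 0 := (mem_LB.1 y.2.1).2 α (by omega)
        rw [h5, h6, smul_zero, add_zero, add_zero] at h4
        exact h4
      · exact (mem_SU.1 x.2).2 α fun h6 => h (Finset.mem_range.1 h6)
    have hy : y.1 = 0 := by
      funext α
      have h4 := congrFun hxy α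
      rw [hΦ, hx] at h4
      simpa using h4
    exact Prod.ext (Subtype.ext hx) (Subtype.ext hy)
  have hrange : LinearMap.range Φ =
      LN I (j + j) k ⊓ LinearMap.ker (aH I (j + j) mP - ε • LinearMap.id) := by
    apply le_antisymm
    · rintro u ⟨⟨x, y⟩, rfl⟩
      refine ⟨?_, ?_⟩
      · change x.1 + ε • aH I (j + j) mP x.1 + y.1 ∈ _
        exact Submodule.add_mem _ (Submodule.add_mem _ (mem_SU.1 x.2).1
          (Submodule.smul_mem _ _ (hsLN _ (mem_SU.1 x.2).1))) (mem_LB.1 y.2.1).1
      · refine (hmem _).2 fun α => ?_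
        rw [hΦ, hΦ, hfl, (hmem y.1).1 y.2.2 α, smul_add, smul_add, smul_smul, hε, one_smul]
        abel
    · intro u hu
      have hu1 : u ∈ LN I (j + j) k := hu.1
      have hu2 := (hmem u).1 hu.2
      have hx : mu I (j + j) (fun m => if m < j then 1 else 0) u ∈ S1 := by
        refine mem_SU.2 ⟨mu_mem hA I (j + j) k _ u hu1, fun α hα => ?_⟩
        rw [mu_apply, if_neg (fun h => hα (Finset.mem_range.2 h)), zero_smul]
      have hy : mu I (j + j) (fun m => if m = j then 1 else 0) u ∈ S2 := by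
        refine ⟨mem_LB.2 ⟨mu_mem hA I (j + j) k _ u hu1, fun α hα => ?_⟩, (hmem _).2 fun α => ?_⟩
        · rw [mu_apply, if_neg hα, zero_smul]
        · rw [mu_apply, mu_apply, hu2 α]
          have h7 := wt_fl α
          by_cases h : wt α = j
          · rw [if_pos h, if_pos (by omega), one_smul, one_smul]
          · rw [if_neg h, if_neg (by omega), zero_smul, zero_smul, smul_zero]
      refine ⟨(⟨_, hx⟩, ⟨_, hy⟩), ?_⟩
      funext α
      rw [hΦ]
      simp only [mu_apply]
      have h7 := wt_fl α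
      rcases lt_trichotomy (wt α) j with h | h | h
      · rw [if_pos h, if_neg (by omega), if_neg (by omega), one_smul, zero_smul, zero_smul,
          smul_zero, add_zero, add_zero]
      · rw [if_neg (by omega), if_neg (by omega), if_pos h, one_smul, zero_smul, zero_smul,
          smul_zero, add_zero, zero_add]
      · rw [if_neg (by omega), if_pos (by omega), if_neg (by omega), one_smul, zero_smul,
          add_zero, zero_add, hu2 α, smul_smul, hε, one_smul]
  rw [← hrange, LinearMap.finrank_range_of_inj hinj, Module.finrank_prod]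

theorem part2 (hA : S_SAct) (I : Ideal (Sx N)) (k j : ℕ) :
    tri (aH I (j + j) mP) (LN I (j + j) k) = tri (aH I (j + j) mP) (LB I (j + j) j k) := by
  have h1 := dimE hA I j k 1 (by norm_num)
  have h2 := dimE hA I j k (-1) (by norm_num)
  have hneg : aH I (j + j) mP - (-1 : ℂ) • LinearMap.id = aH I (j + j) mP + LinearMap.id := by
    refine LinearMap.ext fun u => ?_
    funext α
    rw [LinearMap.sub_apply, LinearMap.smul_apply, LinearMap.add_apply, LinearMap.id_apply,
      Pi.sub_apply, Pi.add_apply, Pi.smul_apply, neg_smul, one_smul, sub_neg_eq_add]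
  rw [one_smul] at h1
  rw [hneg] at h2
  unfold tri
  rw [h1, h2]
  push_cast
  ring

end SDecAux

theorem kSDec : S_SAct → S_SDec := fun hA _ I k =>
  ⟨fun n => SDecAux.part1 hA I n k, fun j => SDecAux.part2 hA I k j⟩

end Pool.Agent.Lib.MP_776403_ag.SD
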