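import Pool.Agent.Lib.MP_776403_ag.SD.K.SpecS

set_option autoImplicit false

open MvPolynomial TensorProduct

noncomputable section

namespace Pool.Agent.Lib.MP_776403_ag.SD

private theorem sdvFin (hG : S_KGV) {N : ℕ} (I : Ideal (Sx N)) (k : ℕ) :
    FiniteDimensional ℂ (gr I k) := by
  have h1 : FiniteDimensional ℂ (AF N k) :=
    (hG.2.2.2 N Unit (AF N) (hG.1 N)).2 inferInstance k
  have h2 : gr I k = (AF N k).map ((Ideal.Quotient.mkₐ ℂ I).toLinearMap.comp
      (LinearMap.proj () : (Unit → Sx N) →ₗ[ℂ] Sx N)) := by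
    apply le_antisymm
    · rintro z ⟨F, hF, rfl⟩
      exact ⟨fun _ => F, fun _ => hF, rfl⟩
    · rintro z ⟨v, hv, rfl⟩
      exact ⟨v (), hv (), rfl⟩
  rw [h2]
  infer_instance

private theorem sdvLe (hG : S_KGV) {N : ℕ} (I : Ideal (Sx N)) {α : Type} [Finite α]
    (V : ℕ → Submodule ℂ (α → Sx N)) (hV' : GV V) (k : ℕ) :
    hV I V k ≤ Nat.card α * Module.finrank ℂ (gr I k) := by
  have := Fintype.ofFinite α
  have := sdvFin hG I k
  have hm : ∀ u ∈ (V k).map (redL α I), ∀ a, u a ∈ gr I k := by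
    rintro u ⟨v, hv, rfl⟩ a
    exact ⟨v a, hV'.hom k v hv a, rfl⟩
  let φ : ((V k).map (redL α I)) →ₗ[ℂ] (α → gr I k) :=
    { toFun := fun u => fun a => ⟨u.1 a, hm u.1 u.2 a⟩
      map_add' := fun u v => rfl
      map_smul' := fun r u => rfl }
  have hi : Function.Injective φ := by
    intro u v h
    apply Subtype.ext
    funext a
    exact congrArg Subtype.val (congrFun h a)
  have h1 := LinearMap.finrank_le_finrank_of_injective hi
  have h2 : Module.finrank ℂ (α → gr I k) = Nat.card α * Module.finrank ℂ (gr I k) := by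
    rw [Module.finrank_pi_fintype, Finset.sum_const, Finset.card_univ, smul_eq_mul,
      Nat.card_eq_fintype_card]
  rw [h2] at h1
  exact h1

theorem kSDv : S_KHV → S_SGr → S_KGV → S_SDv := by
  intro hH hS hG N c hc I h hQ α _ V hV'
  obtain ⟨p, hp⟩ := hH N α I V hV'
  have h0 : QP N 0 (hV I V) p := by
    unfold QP
    rw [pow_zero, one_mul]
    exact hp
  obtain ⟨q, hq⟩ := (hS N c hc h p (hV I V) (fun k => Module.finrank ℂ (gr I k)) hQ h0).1
    ⟨Nat.card α, 0, fun k => by
      rw [Finset.sum_range_one, add_zero]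
      exact sdvLe hG I V hV' k⟩
  refine ⟨q, ?_⟩
  unfold QP
  rw [← hq]
  exact hp

end Pool.Agent.Lib.MP_776403_ag.SD
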