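import Pool.Agent.Lib.MP_776403_ag.SD.K.SpecS

/-!
# THEOREM SD, part K: the trace formula (iii)
-/

set_option autoImplicit false

open MvPolynomial TensorProduct

noncomputable section

namespace Pool.Agent.Lib.MP_776403_ag.SD

theorem kSEul : S_SRi → S_SSg → S_KEuT → S_STr → S_SwT → S_KGF → S_SEul := by
  intro hRi hSg hEuT hTr hSw hGF N c α _ I hI hS V hG hL
  choose m1 hm1 using hRi N c α I hI hS V hG hL
  refine ⟨(Finset.range (N + 2)).sup m1, fun m hm => ?_⟩
  have hg := hGF N α α I I V V hG hG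
  have hs := hSw N α I
  have E := hEuT N (α × α → CR I I) (TPf I I V V) (swT α I) hg.1 hg.2.1 hs.1
    (fun m c hc => hs.2.2.1 V m c hc) hs.2.1 m
  have e1 : ∑ i ∈ Finset.range (N + 2), ((hV I (PV (SV 1 V) (VT I i)) (m - i) : ℤ) -
          hV I (PV (SV (-1) V) (VT I i)) (m - i)) =
      ∑ i ∈ Finset.range (N + 2), (-1 : ℤ) ^ i * (tri (tw (swT α I)) (Zc N (TPf I I V V) i m) -
        tri (tw (swT α I)) (Bc N (TPf I I V V) i m)) := by
    refine Finset.sum_congr rfl fun i hi => ?_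
    rw [hm1 i m ((Finset.le_sup (f := m1) hi).trans hm), hSg.2.2 N α I V i (m - i), ← mul_assoc,
      ← mul_pow]
    norm_num
  rw [e1, E]
  refine Finset.sum_congr rfl fun i _ => ?_
  rw [hTr N α I hI V hG (m - i)]

end Pool.Agent.Lib.MP_776403_ag.SD
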