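import Pool.Agent.Lib.MP_776403_ag.SD.K.SpecS

/-!
# THEOREM SD, part K: the functional equation
-/

set_option autoImplicit false

open MvPolynomial TensorProduct

noncomputable section

namespace Pool.Agent.Lib.MP_776403_ag.SD

namespace SFEAux

/-! ## Power series -/

theorem poly_of_ev (f : PowerSeries ℤ) (m0 : ℕ)
    (h : ∀ m, m0 ≤ m → PowerSeries.coeff m f = 0) : ∃ p : Polynomial ℤ, f = (p : PowerSeries ℤ) := by
  refine ⟨PowerSeries.trunc m0 f, ?_⟩
  ext m
  rw [Polynomial.coeff_coe, PowerSeries.coeff_trunc]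
  split_ifs with h1
  · rfl
  · exact h m (not_lt.1 h1)

theorem om_ne (n : ℕ) : ((1 - Polynomial.X : Polynomial ℤ) ^ n) ≠ 0 := by
  refine pow_ne_zero n fun h => ?_
  have := congrArg (Polynomial.eval 0) h
  simp at this

theorem om_coe (n : ℕ) : (((1 - Polynomial.X : Polynomial ℤ) ^ n : Polynomial ℤ) : PowerSeries ℤ) =
    (1 - PowerSeries.X) ^ n := by
  rw [Polynomial.coe_pow, Polynomial.coe_sub, Polynomial.coe_one, Polynomial.coe_X]

/-- the series `F` has the polynomial `q` -/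
def QZ (N c : ℕ) (F : PowerSeries ℤ) (q : Polynomial ℤ) : Prop :=
  (1 - PowerSeries.X) ^ (N + 1) * F = (((1 - Polynomial.X) ^ c * q : Polynomial ℤ) : PowerSeries ℤ)

theorem qz_uniq {N c : ℕ} {F : PowerSeries ℤ} {q q' : Polynomial ℤ} (h : QZ N c F q)
    (h' : QZ N c F q') : q = q' := by
  unfold QZ at h h'
  rw [h] at h'
  have h1 := Polynomial.coe_injective ℤ h'
  exact mul_left_cancel₀ (om_ne c) h1

theorem qz_sub {N c : ℕ} {F G : PowerSeries ℤ} {q r : Polynomial ℤ} (h : QZ N c F q)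
    (h' : QZ N c G r) : QZ N c (F - G) (q - r) := by
  unfold QZ at *
  rw [mul_sub, h, h', ← Polynomial.coe_sub, mul_sub]

theorem qz_mul {N c : ℕ} {F : PowerSeries ℤ} {q : Polynomial ℤ} (h : QZ N c F q)
    (a : Polynomial ℤ) : QZ N c ((a : PowerSeries ℤ) * F) (a * q) := by
  unfold QZ at *
  rw [mul_left_comm, h, ← Polynomial.coe_mul, mul_left_comm]

theorem qz_sum {N c : ℕ} {ι : Type} (s : Finset ι) (F : ι → PowerSeries ℤ)
    (q : ι → Polynomial ℤ) (h : ∀ i, QZ N c (F i) (q i)) :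
    QZ N c (∑ i ∈ s, F i) (∑ i ∈ s, q i) := by
  classical
  unfold QZ at *
  rw [Finset.mul_sum, Finset.mul_sum, Finset.sum_congr rfl fun i _ => h i]
  induction s using Finset.induction_on with
  | empty => simp
  | insert a s ha ih => rw [Finset.sum_insert ha, Finset.sum_insert ha, ih, Polynomial.coe_add]

theorem exp_coe (p : Polynomial ℤ) : PowerSeries.expand 2 two_ne_zero (p : PowerSeries ℤ) =
    ((p.comp (Polynomial.X ^ 2) : Polynomial ℤ) : PowerSeries ℤ) := by
  ext n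
  rw [← Polynomial.expand_eq_comp_X_pow, PowerSeries.coeff_expand, Polynomial.coeff_coe,
    Polynomial.coeff_coe, Polynomial.coeff_expand (by norm_num)]

theorem coeff_one_add (n i : ℕ) :
    PowerSeries.coeff i ((1 + PowerSeries.X : PowerSeries ℤ) ^ n) = (Nat.choose n i : ℤ) := by
  have h2 : ((1 + PowerSeries.X : PowerSeries ℤ) ^ n) =
      (((1 + Polynomial.X : Polynomial ℤ) ^ n : Polynomial ℤ) : PowerSeries ℤ) := by
    rw [Polynomial.coe_pow, Polynomial.coe_add, Polynomial.coe_one, Polynomial.coe_X]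
  rw [h2, Polynomial.coeff_coe, Polynomial.coeff_one_add_X_pow]

/-- the coefficients of `(1 + T)^(N + 1) g(T²)` -/
theorem coeff_F (N : ℕ) (g : ℕ → ℕ) (m : ℕ) :
    PowerSeries.coeff m ((1 + PowerSeries.X : PowerSeries ℤ) ^ (N + 1) *
      PowerSeries.expand 2 two_ne_zero (ps g)) =
      ∑ i ∈ Finset.range (N + 2), (Nat.choose (N + 1) i : ℤ) *
        (if i ≤ m then (if Even (m - i) then (g ((m - i) / 2) : ℤ) else 0) else 0) := by
  rw [PowerSeries.coeff_mul, Finset.Nat.sum_antidiagonal_eq_sum_range_succ_mk]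
  have h0 : ∀ k : ℕ, PowerSeries.coeff k (PowerSeries.expand 2 two_ne_zero (ps g)) =
      if Even k then (g (k / 2) : ℤ) else 0 := by
    intro k
    rw [PowerSeries.coeff_expand]
    unfold ps
    rw [PowerSeries.coeff_mk]
    by_cases hk : Even k
    · rw [if_pos (even_iff_two_dvd.1 hk), if_pos hk]
    · rw [if_neg (fun h => hk (even_iff_two_dvd.2 h)), if_neg hk]
  simp only [coeff_one_add, h0]
  have h1 : ∑ i ∈ Finset.range (m + 1), (Nat.choose (N + 1) i : ℤ) *
        (if Even (m - i) then (g ((m - i) / 2) : ℤ) else 0) =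
      ∑ i ∈ Finset.range (m + 1 + (N + 2)), (Nat.choose (N + 1) i : ℤ) *
        (if i ≤ m then (if Even (m - i) then (g ((m - i) / 2) : ℤ) else 0) else 0) := by
    rw [Finset.sum_range_add _ (m + 1) (N + 2)]
    have h2 : ∑ x ∈ Finset.range (N + 2), (Nat.choose (N + 1) (m + 1 + x) : ℤ) *
        (if m + 1 + x ≤ m then (if Even (m - (m + 1 + x)) then
          (g ((m - (m + 1 + x)) / 2) : ℤ) else 0) else 0) = 0 := by
      refine Finset.sum_eq_zero fun x _ => ?_
      rw [if_neg (by omega), mul_zero]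
    rw [h2, add_zero]
    refine Finset.sum_congr rfl fun i hi => ?_
    rw [if_pos (c := i ≤ m) (by rw [Finset.mem_range] at hi; omega)]
  have h3 : ∑ i ∈ Finset.range (N + 2), (Nat.choose (N + 1) i : ℤ) *
        (if i ≤ m then (if Even (m - i) then (g ((m - i) / 2) : ℤ) else 0) else 0) =
      ∑ i ∈ Finset.range (N + 2 + (m + 1)), (Nat.choose (N + 1) i : ℤ) *
        (if i ≤ m then (if Even (m - i) then (g ((m - i) / 2) : ℤ) else 0) else 0) := by
    rw [Finset.sum_range_add _ (N + 2) (m + 1)]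
    have h2 : ∑ x ∈ Finset.range (m + 1), (Nat.choose (N + 1) (N + 2 + x) : ℤ) *
        (if N + 2 + x ≤ m then (if Even (m - (N + 2 + x)) then
          (g ((m - (N + 2 + x)) / 2) : ℤ) else 0) else 0) = 0 := by
      refine Finset.sum_eq_zero fun x _ => ?_
      rw [Nat.choose_eq_zero_of_lt (by omega)]
      simp
    rw [h2, add_zero]
  rw [h1, h3, add_comm (m + 1) (N + 2)]

/-- the trace formula as a congruence -/
theorem cong1 {N c : ℕ} (hc : c ≤ N) (fp fm : ℕ → ℕ → ℕ) (g : ℕ → ℕ)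
    (ap am : ℕ → Polynomial ℤ) (p : Polynomial ℤ) (hap : ∀ i, QP N c (fp i) (ap i))
    (ham : ∀ i, QP N c (fm i) (am i)) (hg : QP N c g p) (m0 : ℕ)
    (H : ∀ m, m0 ≤ m → ∑ i ∈ Finset.range (N + 2), ((fp i (m - i) : ℤ) - fm i (m - i)) =
      ∑ i ∈ Finset.range (N + 2), (Nat.choose (N + 1) i : ℤ) *
        (if i ≤ m then (if Even (m - i) then (g ((m - i) / 2) : ℤ) else 0) else 0)) :
    (1 - Polynomial.X : Polynomial ℤ) ^ (N + 1 - 2 * c) ∣
      (∑ i ∈ Finset.range (N + 2), Polynomial.X ^ i * (ap i - am i)) -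
        (1 + Polynomial.X) ^ c * p.comp (Polynomial.X ^ 2) := by
  obtain ⟨p0, hp0⟩ := poly_of_ev ((∑ i ∈ Finset.range (N + 2),
    ((Polynomial.X ^ i : Polynomial ℤ) : PowerSeries ℤ) * (ps (fp i) - ps (fm i))) -
    (1 + PowerSeries.X : PowerSeries ℤ) ^ (N + 1) * PowerSeries.expand 2 two_ne_zero (ps g))
    (m0 + N + 1) (by
      intro m hm
      rw [map_sub, coeff_F, ← H m (by omega), map_sum, sub_eq_zero]
      refine Finset.sum_congr rfl fun i hi => ?_
      rw [Polynomial.coe_pow, Polynomial.coe_X, PowerSeries.coeff_X_pow_mul',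
        if_pos (by rw [Finset.mem_range] at hi; omega), map_sub]
      unfold ps
      rw [PowerSeries.coeff_mk, PowerSeries.coeff_mk])
  have h1 : QZ N c (∑ i ∈ Finset.range (N + 2),
      ((Polynomial.X ^ i : Polynomial ℤ) : PowerSeries ℤ) * (ps (fp i) - ps (fm i)))
      (∑ i ∈ Finset.range (N + 2), Polynomial.X ^ i * (ap i - am i)) :=
    qz_sum _ _ _ fun i => qz_mul (qz_sub (hap i) (ham i)) _
  have h2 : QZ N c ((1 + PowerSeries.X : PowerSeries ℤ) ^ (N + 1) *
      PowerSeries.expand 2 two_ne_zero (ps g)) ((1 + Polynomial.X) ^ c * p.comp (Polynomial.X ^ 2)) := by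
    unfold QZ
    have e1 : (1 - PowerSeries.X : PowerSeries ℤ) ^ (N + 1) * (1 + PowerSeries.X) ^ (N + 1) =
        PowerSeries.expand 2 two_ne_zero ((1 - PowerSeries.X : PowerSeries ℤ) ^ (N + 1)) := by
      rw [map_pow, map_sub, map_one, PowerSeries.expand_X, ← mul_pow]
      congr 1
      ring
    unfold QP at hg
    rw [← mul_assoc, e1, ← map_mul, hg, exp_coe]
    congr 1
    rw [Polynomial.mul_comp, Polynomial.pow_comp, Polynomial.sub_comp, Polynomial.one_comp,
      Polynomial.X_comp]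
    have e2 : (1 - Polynomial.X ^ 2 : Polynomial ℤ) = (1 - Polynomial.X) * (1 + Polynomial.X) := by
      ring
    rw [e2, mul_pow, mul_assoc]
  have h3 := qz_sub h1 h2
  rw [hp0] at h3
  unfold QZ at h3
  rw [← om_coe, ← Polynomial.coe_mul] at h3
  have h4 := Polynomial.coe_injective ℤ h3
  have h5 : (1 - Polynomial.X : Polynomial ℤ) ^ (N + 1) = (1 - Polynomial.X) ^ c *
      ((1 - Polynomial.X) ^ (N + 1 - 2 * c) * (1 - Polynomial.X) ^ (N + 1 - c - (N + 1 - 2 * c))) := by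
    rw [← pow_add, ← pow_add]
    congr 1
    omega
  rw [h5, mul_assoc] at h4
  have h6 := mul_left_cancel₀ (om_ne c) h4
  rw [← h6, mul_assoc]
  exact Dvd.intro _ rfl

/-- large minors -/
theorem cong2 {N c : ℕ} (hc : c ≤ N) (g : ℕ → ℕ) (p : Polynomial ℤ) (hg : QP N c g p) (k0 : ℕ)
    (H : ∀ k, k0 ≤ k → g k = 0) :
    (1 - Polynomial.X : Polynomial ℤ) ^ (N + 1 - 2 * c) ∣ p := by
  obtain ⟨p0, hp0⟩ := poly_of_ev (ps g) k0 (by
    intro m hm
    unfold ps
    rw [PowerSeries.coeff_mk, H m hm, Nat.cast_zero])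
  unfold QP at hg
  rw [hp0, ← om_coe, ← Polynomial.coe_mul] at hg
  have h4 := Polynomial.coe_injective ℤ hg
  have h5 : (1 - Polynomial.X : Polynomial ℤ) ^ (N + 1) = (1 - Polynomial.X) ^ c *
      ((1 - Polynomial.X) ^ (N + 1 - 2 * c) * (1 - Polynomial.X) ^ (N + 1 - c - (N + 1 - 2 * c))) := by
    rw [← pow_add, ← pow_add]
    congr 1
    omega
  rw [h5, mul_assoc] at h4
  have h6 := mul_left_cancel₀ (om_ne c) h4
  rw [← h6, mul_assoc]
  exact Dvd.intro _ rfl

theorem om_prime : Prime (1 - Polynomial.X : Polynomial ℤ) := by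
  have h := Polynomial.prime_X_sub_C (1 : ℤ)
  have h1 : (1 - Polynomial.X : Polynomial ℤ) = -(Polynomial.X - Polynomial.C 1) := by
    rw [map_one]
    ring
  rw [h1]
  exact h.neg

theorem cancel {u v : Polynomial ℤ} (hu : u.eval 1 ≠ 0) (n : ℕ)
    (h : (1 - Polynomial.X : Polynomial ℤ) ^ n ∣ u * v) : (1 - Polynomial.X : Polynomial ℤ) ^ n ∣ v := by
  refine om_prime.pow_dvd_of_dvd_mul_left n (fun hd => hu ?_) h
  obtain ⟨w, hw⟩ := hd
  rw [hw, Polynomial.eval_mul]
  simp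

theorem dvd_comp {n : ℕ} {u : Polynomial ℤ} (h : (1 - Polynomial.X : Polynomial ℤ) ^ n ∣ u) :
    (1 - Polynomial.X : Polynomial ℤ) ^ n ∣ u.comp (Polynomial.X ^ 2) := by
  obtain ⟨w, hw⟩ := h
  have e2 : (1 - Polynomial.X ^ 2 : Polynomial ℤ) = (1 - Polynomial.X) * (1 + Polynomial.X) := by
    ring
  rw [hw, Polynomial.mul_comp, Polynomial.pow_comp, Polynomial.sub_comp, Polynomial.one_comp,
    Polynomial.X_comp, e2, mul_pow, mul_assoc]
  exact Dvd.intro _ rfl

/-! ## Reindexing -/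

theorem hV_re {N : ℕ} {α β : Type} (J : Ideal (Sx N)) (e : β ≃ α)
    (V : ℕ → Submodule ℂ (α → Sx N)) (W : ℕ → Submodule ℂ (β → Sx N)) (k : ℕ)
    (h1 : ∀ v ∈ V k, (fun b => v (e b)) ∈ W k) (h2 : ∀ w ∈ W k, (fun a => w (e.symm a)) ∈ V k) :
    hV J V k = hV J W k := by
  suffices hm : ((V k).map (redL α J)).map
      (LinearEquiv.funCongrLeft ℂ (Sx N ⧸ J) e : (α → Sx N ⧸ J) →ₗ[ℂ] (β → Sx N ⧸ J)) =
      (W k).map (redL β J) by
    unfold hV
    rw [← hm]
    exact (LinearEquiv.finrank_map_eq (LinearEquiv.funCongrLeft ℂ (Sx N ⧸ J) e)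
      ((V k).map (redL α J))).symm
  ext x
  constructor
  · rintro ⟨y, ⟨v, hv, rfl⟩, rfl⟩
    exact ⟨_, h1 v hv, rfl⟩
  · rintro ⟨w, hw, rfl⟩
    refine ⟨_, ⟨_, h2 w hw, rfl⟩, ?_⟩
    funext b
    change Ideal.Quotient.mk J (w (e.symm (e b))) = Ideal.Quotient.mk J (w b)
    rw [Equiv.symm_apply_apply]

theorem PV_sw {N : ℕ} {α β : Type} (V : ℕ → Submodule ℂ (α → Sx N))
    (W : ℕ → Submodule ℂ (β → Sx N)) (k : ℕ) (z : α × β → Sx N) (hz : z ∈ PV V W k) :
    (fun p : β × α => z (p.2, p.1)) ∈ PV W V k := by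
  unfold PV at hz
  induction hz using Submodule.span_induction with
  | mem x hx =>
    obtain ⟨k1, k2, v, w, hk, hv, hw, rfl⟩ := hx
    refine Submodule.subset_span ⟨k2, k1, w, v, by omega, hw, hv, ?_⟩
    funext p
    exact mul_comm _ _
  | zero => exact Submodule.zero_mem _
  | add x y _ _ hx hy => exact Submodule.add_mem _ hx hy
  | smul a x _ hx => exact Submodule.smul_mem _ a hx

theorem hV_sw {N : ℕ} {α β : Type} (J : Ideal (Sx N)) (V : ℕ → Submodule ℂ (α → Sx N))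
    (W : ℕ → Submodule ℂ (β → Sx N)) (k : ℕ) : hV J (PV V W) k = hV J (PV W V) k :=
  hV_re J (Equiv.prodComm β α) _ _ k (fun v hv => PV_sw V W k v hv)
    (fun w hw => PV_sw W V k w hw)

theorem lfr_AF {N : ℕ} (I J : Ideal (Sx N)) : LFr I J (AF N) := by
  intro p _ _
  refine ⟨1, fun _ _ => 1, fun _ _ => 1, fun _ => 0, 1, 0, isHomogeneous_one _ _, ?_, ?_, ?_⟩
  · rw [map_one]
    exact one_ne_zero
  · intro l
    exact ⟨fun a => isHomogeneous_one _ _, le_refl _, fun a => isHomogeneous_one _ _⟩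
  · intro m v _ a
    have : (1 : Sx N) * v a - ∑ l : Fin 1, (∑ a' : Unit, (1 : Sx N) * v a') * 1 = 0 := by
      simp
    rw [this]
    exact I.zero_mem

theorem SVm_AF {N : ℕ} : SV (-1) (AF N) = fun _ => ⊥ := by
  funext k
  rw [eq_bot_iff]
  unfold SV
  refine Submodule.span_le.2 ?_
  rintro z ⟨k1, k2, v, w, _, _, _, rfl⟩
  refine (Submodule.mem_bot ℂ).2 ?_
  funext p
  change v p.1 * w p.2 + (-1 : ℤ) • (w p.1 * v p.2) = 0
  rw [show p.1 = () from rfl, show p.2 = () from rfl]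
  rw [neg_smul, one_smul]
  ring

theorem SVp_AF {N : ℕ} : SV 1 (AF N) = PV (AF N) (AF N) := by
  funext k
  unfold SV PV
  refine le_antisymm (Submodule.span_le.2 ?_) (Submodule.span_le.2 ?_)
  · rintro z ⟨k1, k2, v, w, hk, hv, hw, rfl⟩
    have : (fun p : Unit × Unit => v p.1 * w p.2 + (1 : ℤ) • (w p.1 * v p.2)) =
        (2 : ℂ) • fun p : Unit × Unit => v p.1 * w p.2 := by
      funext p
      change v () * w () + (1 : ℤ) • (w () * v ()) = (2 : ℂ) • (v () * w ())
      rw [one_smul, two_smul]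
      ring
    rw [this]
    exact Submodule.smul_mem _ _ (Submodule.subset_span ⟨k1, k2, v, w, hk, hv, hw, rfl⟩)
  · rintro z ⟨k1, k2, v, w, hk, hv, hw, rfl⟩
    have : (fun p : Unit × Unit => v p.1 * w p.2) =
        (1 / 2 : ℂ) • fun p : Unit × Unit => v p.1 * w p.2 + (1 : ℤ) • (w p.1 * v p.2) := by
      funext p
      change v () * w () = (1 / 2 : ℂ) • (v () * w () + (1 : ℤ) • (w () * v ()))
      rw [one_smul, mul_comm (w ()) (v ()), ← two_smul ℂ (v () * w ()), smul_smul]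
      norm_num
    rw [this]
    exact Submodule.smul_mem _ _ (Submodule.subset_span ⟨k1, k2, v, w, hk, hv, hw, rfl⟩)

theorem PV_bot {N : ℕ} {α β : Type} (Y : ℕ → Submodule ℂ (β → Sx N)) (k : ℕ) :
    PV (fun _ => (⊥ : Submodule ℂ (α → Sx N))) Y k = ⊥ := by
  rw [eq_bot_iff]
  unfold PV
  refine Submodule.span_le.2 ?_
  rintro z ⟨k1, k2, v, w, _, hv, _, rfl⟩
  refine (Submodule.mem_bot ℂ).2 ?_
  rw [(Submodule.mem_bot ℂ).1 hv]
  funext p
  exact zero_mul _

theorem hV_VL0 {N : ℕ} (I : Ideal (Sx N)) (k : ℕ) : hV I (VL I 0) k = hV I (AF N) k := by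
  have hmem : ∀ v : (Fin 0 → Fin (N + 1)) → Sx N, (v ∈ VL I 0 k ↔ ∀ a, (v a).IsHomogeneous k) := by
    intro v
    constructor
    · intro hv
      unfold VL at hv
      induction hv using Submodule.span_induction with
      | mem x hx =>
        obtain ⟨a, e, F, f, ha, _, he, rfl⟩ := hx
        intro b
        have : e = k := by simpa using he
        subst this
        simpa using ha
      | zero => intro a; exact isHomogeneous_zero _ _ _
      | add x y _ _ hx hy => intro a; exact (hx a).add (hy a)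
      | smul r x _ hx =>
        intro a
        rw [Pi.smul_apply, MvPolynomial.smul_eq_C_mul]
        simpa using (isHomogeneous_C _ r).mul (hx a)
    · intro hv
      refine Submodule.subset_span ⟨v default, k, fun i => i.elim0, fun i => i.elim0,
        hv _, fun i => i.elim0, by simp, ?_⟩
      funext b
      rw [Matrix.det_fin_zero, mul_one, Subsingleton.elim b default]
  refine hV_re I (Equiv.ofUnique Unit (Fin 0 → Fin (N + 1))) _ _ k ?_ ?_
  · intro v hv a
    exact (hmem v).1 hv _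
  · intro w hw
    refine (hmem _).2 fun a => hw _

end SFEAux

/-! ## The functional equation -/

open SFEAux in
theorem kSFE : S_SKI → S_SEul → S_SIV → S_KPV → S_SDv → S_SGV → S_KGV → S_KTop → S_KLF →
    S_SFE := by
  intro hSKI hSEul hSIV hKPV hSDv hSGV hKGV hKTop hKLF N c hc I h hI hIh hS hQ _ q p hp hq j
  obtain ⟨gAF, gPV, gVL, _⟩ := hKGV
  obtain ⟨kp1, kp2⟩ := hKPV
  -- the data
  have gS : ∀ ε : ℤ, GV (SV ε (VL I j)) := fun ε => hSGV N _ ε _ (gVL N I j).1
  obtain ⟨sp, hsp⟩ := hSDv N c hc I h hQ _ (SV 1 (VL I j)) (gS 1)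
  obtain ⟨sm, hsm⟩ := hSDv N c hc I h hQ _ (SV (-1) (VL I j)) (gS (-1))
  have ea : ∀ (ε : ℤ) (i : ℕ), ∃ a, QP N c (hV I (PV (SV ε (VL I j)) (VT I i))) a := fun ε i =>
    hSDv N c hc I h hQ _ _ (gPV N _ _ _ _ (gS ε) (gVL N I i).2)
  choose a ha using ea
  have ep : ∀ b : ℕ, ∃ r, QP N c (hV I (PV (VL I (j + j - b)) (VL I b))) r := fun b =>
    hSDv N c hc I h hQ _ _ (gPV N _ _ _ _ (gVL N I _).1 (gVL N I b).1)
  choose r hr using ep
  -- SKI
  have sw : ∀ (ε : ℤ) (i : ℕ), hV I (PV (VL I i) (SV ε (VL I j))) =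
      hV I (PV (SV ε (VL I j)) (VT I i)) := by
    intro ε i
    funext k
    rw [(kp2 N _ I I (SV ε (VL I j)) i k).1]
    exact hV_sw I _ _ k
  have k1 : ∀ i, (1 - Polynomial.X : Polynomial ℤ) ^ (N + 1 - 2 * c) ∣ p i * sp - h * a 1 i := by
    intro i
    refine hSKI N c hc I h hI hIh hS hQ i _ (SV 1 (VL I j)) (gS 1) (p i) sp (a 1 i) (hp i) hsp ?_
    rw [sw]
    exact ha 1 i
  have k2 : ∀ i, (1 - Polynomial.X : Polynomial ℤ) ^ (N + 1 - 2 * c) ∣
      p i * sm - h * a (-1) i := by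
    intro i
    refine hSKI N c hc I h hI hIh hS hQ i _ (SV (-1) (VL I j)) (gS (-1)) (p i) sm (a (-1) i)
      (hp i) hsm ?_
    rw [sw]
    exact ha (-1) i
  have k3 : ∀ b, (1 - Polynomial.X : Polynomial ℤ) ^ (N + 1 - 2 * c) ∣
      p (j + j - b) * p b - h * r b := fun b =>
    hSKI N c hc I h hI hIh hS hQ (j + j - b) _ (VL I b) (gVL N I b).1 _ _ _ (hp _) (hp b) (hr b)
  -- SEul
  have k4 : (1 - Polynomial.X : Polynomial ℤ) ^ (N + 1 - 2 * c) ∣
      (∑ i ∈ Finset.range (N + 2), Polynomial.X ^ i * (a 1 i - a (-1) i)) -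
        (1 + Polynomial.X) ^ c * (p j).comp (Polynomial.X ^ 2) := by
    obtain ⟨m0, H⟩ := hSEul N c _ I hIh hS (VL I j) (gVL N I j).1 (hKLF N c I I hI hIh hS le_rfl j)
    exact cong1 hc (fun i => hV I (PV (SV 1 (VL I j)) (VT I i)))
      (fun i => hV I (PV (SV (-1) (VL I j)) (VT I i))) (hV I (VL I j)) _ _ _ (ha 1) (ha (-1))
      (hp j) m0 H
  have hAF : hV I (AF N) = fun k => Module.finrank ℂ (gr I k) := by
    funext k
    exact (kp1 N Unit Unit I (AF N) (AF N) (gAF N) k).2.2.2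
  have k5 : (1 - Polynomial.X : Polynomial ℤ) ^ (N + 1 - 2 * c) ∣
      (∑ i ∈ Finset.range (N + 2), Polynomial.X ^ i * (p i - 0)) -
        (1 + Polynomial.X) ^ c * h.comp (Polynomial.X ^ 2) := by
    obtain ⟨m0, H⟩ := hSEul N c Unit I hIh hS (AF N) (gAF N) (lfr_AF I I)
    refine cong1 hc (fun i => hV I (PV (SV 1 (AF N)) (VT I i)))
      (fun i => hV I (PV (SV (-1) (AF N)) (VT I i))) (hV I (AF N)) p (fun _ => 0) h
      (fun i => ?_) (fun i => ?_) ?_ m0 H
    · have e1 : hV I (PV (SV 1 (AF N)) (VT I i)) = hV I (VL I i) := by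
        funext k
        rw [SVp_AF, (kp1 N Unit _ I (AF N) (VT I i) (gAF N) k).1,
          (kp1 N _ Unit I (VT I i) (AF N) (gVL N I i).2 k).2.1, (kp2 N Unit I I (AF N) i k).2]
      change QP N c (hV I (PV (SV 1 (AF N)) (VT I i))) (p i)
      rw [e1]
      exact hp i
    · have e1 : hV I (PV (SV (-1) (AF N)) (VT I i)) = fun _ => 0 := by
        funext k
        unfold hV
        rw [SVm_AF, PV_bot, Submodule.map_bot]
        exact finrank_bot ℂ _
      change QP N c (hV I (PV (SV (-1) (AF N)) (VT I i))) 0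
      rw [e1]
      unfold QP ps
      rw [mul_zero, Polynomial.coe_zero]
      have : (PowerSeries.mk fun _ => ((0 : ℕ) : ℤ)) = 0 := by
        ext n
        simp
      rw [this, mul_zero]
    · rw [hAF]
      exact hQ
  -- p 0 = h
  have hp0 : p 0 = h := by
    refine qz_uniq (N := N) (c := c) (F := ps (hV I (VL I 0))) (hp 0) ?_
    have e1 : hV I (VL I 0) = fun k => Module.finrank ℂ (gr I k) := by
      rw [← hAF]
      funext k
      exact hV_VL0 I k
    rw [e1]
    exact hQ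
  -- SIV
  have k6 : (-1) ^ j * (sp - sm) = ∑ b ∈ Finset.range (j + j + 1), (-1) ^ b * r b := by
    refine qz_uniq (N := N) (c := c) (F := (((-1) ^ j : Polynomial ℤ) : PowerSeries ℤ) *
      (ps (hV I (SV 1 (VL I j))) - ps (hV I (SV (-1) (VL I j))))) (qz_mul (qz_sub hsp hsm) _) ?_
    have e1 : (((-1) ^ j : Polynomial ℤ) : PowerSeries ℤ) *
      (ps (hV I (SV 1 (VL I j))) - ps (hV I (SV (-1) (VL I j)))) =
      ∑ b ∈ Finset.range (j + j + 1), (((-1) ^ b : Polynomial ℤ) : PowerSeries ℤ) *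
        ps (hV I (PV (VL I (j + j - b)) (VL I b))) := by
      have e2 : ∀ n : ℕ, (((-1) ^ n : Polynomial ℤ) : PowerSeries ℤ) =
          PowerSeries.C ((-1 : ℤ) ^ n) := by
        intro n
        rw [Polynomial.coe_pow, map_pow, map_neg, map_one, Polynomial.coe_neg, Polynomial.coe_one]
      ext k
      rw [e2, PowerSeries.coeff_C_mul, map_sub, map_sum]
      unfold ps
      rw [PowerSeries.coeff_mk, PowerSeries.coeff_mk, hSIV N I j k]
      refine Finset.sum_congr rfl fun b _ => ?_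
      rw [e2, PowerSeries.coeff_C_mul, PowerSeries.coeff_mk]
    rw [e1]
    exact qz_sum _ _ _ fun b => qz_mul (hr b) _
  -- KTop
  have k7 : ∀ i, (1 - Polynomial.X : Polynomial ℤ) ^ (N + 1 - 2 * c) ∣
      q i - Polynomial.X ^ i * p i := by
    intro i
    rw [hq i]
    by_cases hi : i ≤ c
    · rw [if_pos hi, sub_self]
      exact dvd_zero _
    · rw [if_neg hi, zero_sub, dvd_neg]
      obtain ⟨k0, hk0⟩ := hKTop N c I hI hIh hS i (not_le.1 hi)
      exact Dvd.dvd.mul_left (cong2 hc _ _ (hp i) k0 fun k hk => (hk0 k hk).1) _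
  -- the quotient
  let π := Ideal.Quotient.mk (Ideal.span {(1 - Polynomial.X : Polynomial ℤ) ^ (N + 1 - 2 * c)})
  have hπ : ∀ u v : Polynomial ℤ, (1 - Polynomial.X : Polynomial ℤ) ^ (N + 1 - 2 * c) ∣ u - v ↔
      π u = π v := by
    intro u v
    rw [Ideal.Quotient.eq, Ideal.mem_span_singleton]
  have c1 := fun i => (hπ _ _).1 (k1 i)
  have c2 := fun i => (hπ _ _).1 (k2 i)
  have c3 := fun i => (hπ _ _).1 (k3 i)
  have c4 := (hπ _ _).1 k4
  have c5 := (hπ _ _).1 k5
  have c7 := fun i => (hπ _ _).1 (k7 i)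
  simp only [map_mul, map_sum, map_sub, sub_zero] at c1 c2 c3 c4 c5 c7
  -- (3)
  have d3 : π (h.comp (Polynomial.X ^ 2)) * (π sp - π sm) = π h * π ((p j).comp (Polynomial.X ^ 2)) := by
    rw [← map_sub, ← map_mul, ← map_mul, ← hπ]
    refine cancel (u := (1 + Polynomial.X) ^ c) ?_ _ ?_
    · rw [Polynomial.eval_pow]
      simp
    · have e0 : (1 + Polynomial.X) ^ c * (h.comp (Polynomial.X ^ 2) * (sp - sm) -
          h * (p j).comp (Polynomial.X ^ 2)) = (1 + Polynomial.X) ^ c * h.comp (Polynomial.X ^ 2) *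
          (sp - sm) - h * ((1 + Polynomial.X) ^ c * (p j).comp (Polynomial.X ^ 2)) := by
        ring
      rw [e0, hπ, map_mul, map_mul, map_mul, map_mul, ← c5, ← c4, Finset.sum_mul, Finset.mul_sum,
        map_sub]
      refine Finset.sum_congr rfl fun i _ => ?_
      linear_combination π (Polynomial.X ^ i) * (c1 i - c2 i)
  -- (4)
  have d4 : π h * ((-1) ^ j * (π sp - π sm)) = ∑ b ∈ Finset.range (j + j + 1),
      (-1) ^ b * (π (p (j + j - b)) * π (p b)) := by
    have e0 := congrArg π k6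
    simp only [map_mul, map_sum, map_sub, map_pow, map_neg, map_one] at e0
    rw [e0, Finset.mul_sum]
    refine Finset.sum_congr rfl fun b _ => ?_
    linear_combination -(-1) ^ b * c3 b
  -- the end
  have hcomp : π ((q j).comp (Polynomial.X ^ 2)) =
      π (Polynomial.X) ^ (2 * j) * π ((p j).comp (Polynomial.X ^ 2)) := by
    have e0 := (hπ _ _).1 (show (1 - Polynomial.X : Polynomial ℤ) ^ (N + 1 - 2 * c) ∣
      (q j).comp (Polynomial.X ^ 2) - (Polynomial.X ^ j * p j).comp (Polynomial.X ^ 2) by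
        rw [← Polynomial.sub_comp]
        exact dvd_comp (k7 j))
    rw [e0, Polynomial.mul_comp, Polynomial.pow_comp, Polynomial.X_comp, ← pow_mul, map_mul, map_pow]
  have hq0 : q 0 = h := by
    rw [hq 0, if_pos (Nat.zero_le _), pow_zero, one_mul, hp0]
  have hsum : (∑ x ∈ Finset.HasAntidiagonal.antidiagonal (2 * j), (-1) ^ x.2 * q x.1 * q x.2) =
      ∑ b ∈ Finset.range (j + j + 1), (-1) ^ b * q (j + j - b) * q b := by
    rw [← Finset.Nat.sum_antidiagonal_swap, Finset.Nat.sum_antidiagonal_eq_sum_range_succ_mk,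
      two_mul]
    rfl
  rw [hπ, hsum, hq0]
  simp only [map_mul, map_sum, map_pow, map_neg, map_one]
  rw [hcomp, Finset.mul_sum]
  have e9 : ∀ b ∈ Finset.range (j + j + 1), π (h.comp (Polynomial.X ^ 2)) *
      ((-1) ^ b * π (q (j + j - b)) * π (q b)) = π Polynomial.X ^ (2 * j) *
      (π (h.comp (Polynomial.X ^ 2)) * ((-1) ^ b * (π (p (j + j - b)) * π (p b)))) := by
    intro b hb
    rw [c7, c7, map_pow, map_pow]
    have e10 : π Polynomial.X ^ (2 * j) = π Polynomial.X ^ (j + j - b) * π Polynomial.X ^ b := by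
      rw [← pow_add]
      congr 1
      rw [Finset.mem_range] at hb
      omega
    rw [e10]
    ring
  rw [Finset.sum_congr rfl e9, ← Finset.mul_sum, ← Finset.mul_sum, ← d4]
  linear_combination -(-1) ^ j * π Polynomial.X ^ (2 * j) * π h * d3

end Pool.Agent.Lib.MP_776403_ag.SD
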