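import Pool.Agent.Lib.MP_776403_ag.SD.K.SpecS
import Pool.Agent.Lib.MP_776403_ag.SD.DetHom

/-!
# THEOREM SD, part K, module SFr: local frames for exterior powers with dual functionals
-/

set_option autoImplicit false

open MvPolynomial TensorProduct

noncomputable section

namespace Pool.Agent.Lib.MP_776403_ag.SD

namespace SFrAux

section Det

variable {R : Type} [CommRing R] {j c : ℕ}

/-- Expansion of the rows of a product. -/
private theorem sfr_L1 (T : Matrix (Fin j) (Fin c) R) (Φ : Matrix (Fin c) (Fin j) R) :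
    (T * Φ).det = ∑ A : Fin j → Fin c, (∏ l, T l (A l)) *
      Matrix.det (Matrix.of fun l k => Φ (A l) k) := by
  have h1 : (T * Φ).det = Matrix.detRowAlternating (fun l => ∑ i, T l i • Φ i) := by
    rw [Matrix.det]
    congr 1
    funext l k
    rw [Matrix.mul_apply, Finset.sum_apply]
    rfl
  rw [h1]
  change (Matrix.detRowAlternating (R := R) (n := Fin j)).toMultilinearMap
    (fun l => ∑ i, T l i • Φ i) = _
  rw [MultilinearMap.map_sum]
  refine Finset.sum_congr rfl fun A _ => ?_
  rw [MultilinearMap.map_smul_univ]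
  rfl

/-- Expansion of the columns of a product. -/
private theorem sfr_L2 (G : Matrix (Fin j) (Fin c) R) (P : Matrix (Fin c) (Fin c) R)
    (A : Fin j → Fin c) :
    Matrix.det (Matrix.of fun l k => (G * P) l (A k)) = ∑ β : Fin j → Fin c,
      (∏ k, P (β k) (A k)) * Matrix.det (Matrix.of fun l k => G l (β k)) := by
  have h1 := sfr_L1 (Matrix.of fun k b => P b (A k)) G.transpose
  have h2 : (Matrix.of fun l k => (G * P) l (A k)).transpose =
      (Matrix.of fun k b => P b (A k)) * G.transpose := by
    funext k l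
    rw [Matrix.transpose_apply, Matrix.of_apply, Matrix.mul_apply, Matrix.mul_apply]
    refine Finset.sum_congr rfl fun b _ => ?_
    rw [Matrix.of_apply, Matrix.transpose_apply, mul_comm]
  rw [← Matrix.det_transpose, h2, h1]
  refine Finset.sum_congr rfl fun β _ => ?_
  rw [← Matrix.det_transpose (Matrix.of fun l k => G l (β k))]
  rfl

/-- Antisymmetrization. -/
private theorem sfr_L3 (T : Matrix (Fin j) (Fin c) R) (Φ : Matrix (Fin c) (Fin j) R) :
    (j.factorial : R) * (T * Φ).det = ∑ A : Fin j → Fin c,
      Matrix.det (Matrix.of fun l k => T l (A k)) *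
      Matrix.det (Matrix.of fun l k => Φ (A l) k) := by
  have h1 : ∀ A : Fin j → Fin c, Matrix.det (Matrix.of fun l k => T l (A k)) =
      ∑ σ : Equiv.Perm (Fin j), (Equiv.Perm.sign σ : ℤ) • ∏ l, T l (A (σ l)) := by
    intro A
    rw [← Matrix.det_transpose, Matrix.det_apply]
    rfl
  simp_rw [h1, Finset.sum_mul]
  rw [Finset.sum_comm]
  have h2 : ∀ σ : Equiv.Perm (Fin j), ∑ A : Fin j → Fin c,
      ((Equiv.Perm.sign σ : ℤ) • ∏ l, T l (A (σ l))) *
        Matrix.det (Matrix.of fun l k => Φ (A l) k) = (T * Φ).det := by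
    intro σ
    rw [sfr_L1, ← Equiv.sum_comp (Equiv.arrowCongr σ (Equiv.refl (Fin c)))]
    refine Finset.sum_congr rfl fun A _ => ?_
    have h3 : Matrix.det (Matrix.of fun l k => Φ ((Equiv.arrowCongr σ (Equiv.refl (Fin c))) A l) k) =
        (Equiv.Perm.sign σ.symm : ℤ) • Matrix.det (Matrix.of fun l k => Φ (A l) k) := by
      have h4 := Matrix.det_permute σ.symm (Matrix.of fun l k => Φ (A l) k)
      rw [zsmul_eq_mul]
      rw [← h4]
      rfl
    rw [h3]
    have h5 : ∀ l, (Equiv.arrowCongr σ (Equiv.refl (Fin c))) A (σ l) = A l := by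
      intro l
      simp [Equiv.arrowCongr]
    simp_rw [h5]
    rw [smul_mul_smul_comm]
    have h6 : ((Equiv.Perm.sign σ : ℤ) * (Equiv.Perm.sign σ.symm : ℤ)) = 1 := by
      rw [Equiv.Perm.sign_symm, ← Units.val_mul, Int.units_mul_self, Units.val_one]
    rw [h6, one_smul]
  rw [Finset.sum_congr rfl fun σ _ => h2 σ, Finset.sum_const, Finset.card_univ,
    Fintype.card_perm, Fintype.card_fin, nsmul_eq_mul]

end Det

private theorem sfr_alg {R : Type} [CommRing R] {c : ℕ} (h d x : R) (τ a y : Fin c → R) :
    h * (d * x - ∑ i, τ i * y i) = d * (h * x - ∑ i, a i * y i) -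
      ∑ i, (h * τ i - a i * d) * y i := by
  have e : ∑ i, (h * τ i - a i * d) * y i = h * ∑ i, τ i * y i - d * ∑ i, a i * y i := by
    rw [Finset.mul_sum, Finset.mul_sum, ← Finset.sum_sub_distrib]
    exact Finset.sum_congr rfl fun i _ => by ring
  rw [e]
  ring

variable {N : ℕ}

/-- Cramer's rule modulo `I`. -/
private theorem sfr_cramer {c : ℕ} (I : Ideal (Sx N)) (hI : I.IsPrime) (F : Fin c → Sx N)
    (hF : ∀ i, F i ∈ I) (B : Fin c → Fin (N + 1)) (h : Sx N) (hh : h ∉ I) (G : Sx N) (hG : G ∈ I)
    (hs : h * G ∈ Ideal.span (Set.range F)) (k : Fin (N + 1)) :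
    (Matrix.of fun i b => pderiv (B b) (F i)).det * pderiv k G -
      ∑ i, (∑ b, pderiv (B b) G * (Matrix.of fun i b => pderiv (B b) (F i)).adjugate b i) *
        pderiv k (F i) ∈ I := by
  set M : Matrix (Fin c) (Fin c) (Sx N) := Matrix.of fun i b => pderiv (B b) (F i) with hM
  obtain ⟨a, ha⟩ := (Ideal.mem_span_range_iff_exists_fun).1 hs
  have h1 : ∀ l : Fin (N + 1), h * pderiv l G - ∑ i, a i * pderiv l (F i) ∈ I := by
    intro l
    have h2 := congrArg (pderiv l) ha
    rw [map_sum, Derivation.leibniz, smul_eq_mul, smul_eq_mul] at h2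
    have h3 : h * pderiv l G - ∑ i, a i * pderiv l (F i) =
        (∑ i, F i * pderiv l (a i)) - G * pderiv l h := by
      rw [eq_sub_iff_add_eq, sub_add_eq_add_sub, ← h2, ← Finset.sum_sub_distrib]
      refine Finset.sum_congr rfl fun i _ => ?_
      rw [Derivation.leibniz, smul_eq_mul, smul_eq_mul]
      ring
    rw [h3]
    exact I.sub_mem (I.sum_mem fun i _ => I.mul_mem_right _ (hF i)) (I.mul_mem_right _ hG)
  have h4 : ∀ i, h * (∑ b, pderiv (B b) G * M.adjugate b i) - a i * M.det ∈ I := by
    intro i
    have h5 : a i * M.det = ∑ b, (∑ i', a i' * M i' b) * M.adjugate b i := by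
      simp_rw [Finset.sum_mul]
      rw [Finset.sum_comm]
      have h6 : ∀ i', ∑ b, a i' * M i' b * M.adjugate b i = a i' * (M * M.adjugate) i' i := by
        intro i'
        rw [Matrix.mul_apply, Finset.mul_sum]
        exact Finset.sum_congr rfl fun b _ => by ring
      simp_rw [h6, Matrix.mul_adjugate, Matrix.smul_apply, Matrix.one_apply, smul_eq_mul]
      rw [Finset.sum_eq_single i]
      · rw [if_pos rfl, mul_one]
      · intro i' _ hne
        rw [if_neg hne, mul_zero, mul_zero]
      · intro hi
        exact absurd (Finset.mem_univ i) hi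
    rw [h5, Finset.mul_sum, ← Finset.sum_sub_distrib]
    refine I.sum_mem fun b _ => ?_
    have h7 : h * (pderiv (B b) G * M.adjugate b i) - (∑ i', a i' * M i' b) * M.adjugate b i =
        (h * pderiv (B b) G - ∑ i', a i' * pderiv (B b) (F i')) * M.adjugate b i := by
      rw [hM]
      simp only [Matrix.of_apply]
      ring
    rw [h7]
    exact I.mul_mem_right _ (h1 (B b))
  have h8 : h * (M.det * pderiv k G - ∑ i, (∑ b, pderiv (B b) G * M.adjugate b i) *
      pderiv k (F i)) ∈ I := by
    have h9 := sfr_alg h M.det (pderiv k G) (fun i => ∑ b, pderiv (B b) G * M.adjugate b i) a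
      (fun i => pderiv k (F i))
    rw [h9]
    exact I.sub_mem (I.mul_mem_left _ (h1 k)) (I.sum_mem fun i _ => I.mul_mem_right _ (h4 i))
  exact (hI.mem_or_mem h8).resolve_left hh

/-- Forms of degree `0` have no derivatives. -/
private theorem sfr_zero {F : Sx N} (h : F.IsHomogeneous 0) (l : Fin (N + 1)) :
    pderiv l F = 0 := by
  have h1 : F = C (coeff 0 F) := totalDegree_eq_zero_iff_eq_C.1 (Nat.le_zero.1 h.totalDegree_le)
  rw [h1, pderiv_C]

/-- The increasing enumeration of a `j`-subset. -/
private def enu {c j : ℕ} (s : {s : Finset (Fin c) // s.card = j}) : Fin j → Fin c :=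
  fun k => s.1.orderEmbOfFin s.2 k

private theorem enu_inj {c j : ℕ} (s : {s : Finset (Fin c) // s.card = j}) :
    Function.Injective (enu s) := (s.1.orderEmbOfFin s.2).injective

private theorem enu_mem {c j : ℕ} (s : {s : Finset (Fin c) // s.card = j}) (k : Fin j) :
    enu s k ∈ s.1 := s.1.orderEmbOfFin_mem s.2 k

private theorem enu_image {c j : ℕ} (s : {s : Finset (Fin c) // s.card = j}) :
    Finset.univ.image (enu s) = s.1 := by
  refine Finset.eq_of_subset_of_card_le (fun x hx => ?_) ?_
  · obtain ⟨k, _, rfl⟩ := Finset.mem_image.1 hx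
    exact enu_mem s k
  · rw [Finset.card_image_of_injective _ (enu_inj s), Finset.card_univ, Fintype.card_fin, s.2]

/-- Sums of symmetric functions on maps which vanish on the maps which are not injective. -/
private theorem sum_enu {R : Type} [CommRing R] {c j : ℕ} (f : (Fin j → Fin c) → R)
    (h1 : ∀ (A : Fin j → Fin c) (σ : Equiv.Perm (Fin j)), f (fun k => A (σ k)) = f A)
    (h2 : ∀ A : Fin j → Fin c, ¬ Function.Injective A → f A = 0) :
    ∑ A, f A = (j.factorial : R) * ∑ s, f (enu s) := by
  classical
  have h3 : ∑ A, f A = ∑ A : {A : Fin j → Fin c // Function.Injective A}, f A.1 := by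
    rw [← Finset.sum_filter_of_ne (p := fun A => Function.Injective A) (s := Finset.univ)
      (fun A _ hA => by
        by_contra h4
        exact hA (h2 A h4))]
    exact Finset.sum_subtype _ (fun A => by simp) _
  let Ψ : {s : Finset (Fin c) // s.card = j} × Equiv.Perm (Fin j) →
      {A : Fin j → Fin c // Function.Injective A} := fun q =>
    ⟨fun k => enu q.1 (q.2 k), (enu_inj q.1).comp q.2.injective⟩
  have h4 : Function.Bijective Ψ := by
    constructor
    · rintro ⟨s, σ⟩ ⟨s', σ'⟩ h
      have h5 : ∀ k, enu s (σ k) = enu s' (σ' k) := fun k => congrFun (congrArg Subtype.val h) k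
      have h6 : ∀ (s : {s : Finset (Fin c) // s.card = j}) (σ : Equiv.Perm (Fin j)),
          Finset.univ.image (fun k => enu s (σ k)) = s.1 := by
        intro s σ
        rw [← enu_image s]
        ext x
        simp only [Finset.mem_image, Finset.mem_univ, true_and]
        constructor
        · rintro ⟨k, hk⟩
          exact ⟨σ k, hk⟩
        · rintro ⟨k, hk⟩
          exact ⟨σ.symm k, by rw [Equiv.apply_symm_apply]; exact hk⟩
      have h7 : s = s' := by
        refine Subtype.ext ?_
        rw [← h6 s σ, ← h6 s' σ']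
        refine Finset.image_congr fun k _ => h5 k
      subst h7
      have h8 : σ = σ' := Equiv.ext fun k => enu_inj s (h5 k)
      rw [h8]
    · rintro ⟨A, hA⟩
      have h5 : (Finset.univ.image A).card = j := by
        rw [Finset.card_image_of_injective _ hA, Finset.card_univ, Fintype.card_fin]
      let s : {s : Finset (Fin c) // s.card = j} := ⟨Finset.univ.image A, h5⟩
      have h6 : ∀ k, ∃ l, enu s l = A k := by
        intro k
        have h7 : A k ∈ Finset.univ.image (enu s) := by
          rw [enu_image s]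
          exact Finset.mem_image_of_mem A (Finset.mem_univ k)
        obtain ⟨l, _, hl⟩ := Finset.mem_image.1 h7
        exact ⟨l, hl⟩
      choose τ hτ using h6
      have h8 : Function.Injective τ := fun k k' hk => hA (by rw [← hτ k, ← hτ k', hk])
      refine ⟨(s, Equiv.ofBijective τ (Finite.injective_iff_bijective.1 h8)), Subtype.ext ?_⟩
      funext k
      exact hτ k
  rw [h3, ← (Equiv.ofBijective Ψ h4).sum_comp, Fintype.sum_prod_type]
  have h5 : ∀ s : {s : Finset (Fin c) // s.card = j}, ∑ σ : Equiv.Perm (Fin j),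
      f ((Equiv.ofBijective Ψ h4) (s, σ)).1 = (j.factorial : R) * f (enu s) := by
    intro s
    have h6 : ∀ σ : Equiv.Perm (Fin j), f ((Equiv.ofBijective Ψ h4) (s, σ)).1 = f (enu s) :=
      fun σ => h1 (enu s) σ
    rw [Finset.sum_congr rfl fun σ _ => h6 σ, Finset.sum_const, Finset.card_univ,
      Fintype.card_perm, Fintype.card_fin, nsmul_eq_mul]
  rw [Finset.sum_congr rfl fun s _ => h5 s, Finset.mul_sum]

/-- The Cauchy-Binet formula. -/
private theorem cbin {c j : ℕ} (T : Matrix (Fin j) (Fin c) (Sx N))
    (Φ : Matrix (Fin c) (Fin j) (Sx N)) :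
    (T * Φ).det = ∑ s : {s : Finset (Fin c) // s.card = j},
      Matrix.det (Matrix.of fun l k => T l (enu s k)) *
      Matrix.det (Matrix.of fun l k => Φ (enu s l) k) := by
  have h0 : (j.factorial : Sx N) ≠ 0 := by exact_mod_cast Nat.factorial_ne_zero j
  refine mul_left_cancel₀ h0 ?_
  rw [sfr_L3]
  refine sum_enu (fun A => Matrix.det (Matrix.of fun l k => T l (A k)) *
      Matrix.det (Matrix.of fun l k => Φ (A l) k)) (fun A σ => ?_) (fun A hA => ?_)
  · have h1 : Matrix.det (Matrix.of fun l k => T l (A (σ k))) =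
        (Equiv.Perm.sign σ : ℤ) * Matrix.det (Matrix.of fun l k => T l (A k)) :=
      Matrix.det_permute' σ (Matrix.of fun l k => T l (A k))
    have h2 : Matrix.det (Matrix.of fun l k => Φ (A (σ l)) k) =
        (Equiv.Perm.sign σ : ℤ) * Matrix.det (Matrix.of fun l k => Φ (A l) k) :=
      Matrix.det_permute σ (Matrix.of fun l k => Φ (A l) k)
    have h3 : ((Equiv.Perm.sign σ : ℤ) : Sx N) * ((Equiv.Perm.sign σ : ℤ) : Sx N) = 1 := by
      rw [← Int.cast_mul, ← Units.val_mul, Int.units_mul_self, Units.val_one, Int.cast_one]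
    change Matrix.det (Matrix.of fun l k => T l (A (σ k))) *
      Matrix.det (Matrix.of fun l k => Φ (A (σ l)) k) = _
    rw [h1, h2]
    linear_combination (Matrix.det (Matrix.of fun l k => T l (A k)) *
      Matrix.det (Matrix.of fun l k => Φ (A l) k)) * h3
  · have h1 : ∃ i i', A i = A i' ∧ i ≠ i' := by
      by_contra h2
      push Not at h2
      exact hA fun i i' h3 => h2 i i' h3
    obtain ⟨i, i', hi, hne⟩ := h1
    change Matrix.det (Matrix.of fun l k => T l (A k)) *
      Matrix.det (Matrix.of fun l k => Φ (A l) k) = 0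
    rw [Matrix.det_zero_of_row_eq (M := Matrix.of fun l k => Φ (A l) k) hne (by
      funext k
      simp only [Matrix.of_apply]
      rw [hi]), mul_zero]

/-- The functional `ρ_A` on a vector of minors. -/
private theorem rho_minors {c j : ℕ} (P : Matrix (Fin c) (Fin c) (Sx N)) (B : Fin c → Fin (N + 1))
    (G : Fin j → Sx N) (a : Sx N) (A : Fin j → Fin c) :
    ∑ α' : Fin j → Fin (N + 1), (∑ β : Fin j → Fin c,
      if (fun k => B (β k)) = α' then ∏ k, P (β k) (A k) else 0) *
      (a * Matrix.det (Matrix.of fun i k => pderiv (α' k) (G i))) =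
    a * Matrix.det (Matrix.of fun l k =>
      ((Matrix.of fun l b => pderiv (B b) (G l)) * P : Matrix (Fin j) (Fin c) (Sx N)) l (A k)) := by
  rw [sfr_L2]
  have h2 : ∀ α' : Fin j → Fin (N + 1), (∑ β : Fin j → Fin c,
      if (fun k => B (β k)) = α' then ∏ k, P (β k) (A k) else 0) *
      (a * Matrix.det (Matrix.of fun i k => pderiv (α' k) (G i))) =
      ∑ β : Fin j → Fin c, if (fun k => B (β k)) = α' then a *
        ((∏ k, P (β k) (A k)) * Matrix.det (Matrix.of fun i k => pderiv (α' k) (G i))) else 0 := by
    intro α'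
    rw [Finset.sum_mul]
    refine Finset.sum_congr rfl fun β _ => ?_
    by_cases h3 : (fun k => B (β k)) = α'
    · rw [if_pos h3, if_pos h3]
      ring
    · rw [if_neg h3, if_neg h3, zero_mul]
  rw [Finset.sum_congr rfl fun α' _ => h2 α', Finset.sum_comm, Finset.mul_sum]
  refine Finset.sum_congr rfl fun β _ => ?_
  rw [Finset.sum_ite_eq, if_pos (Finset.mem_univ _)]
  rfl

private theorem sfr_lin {R ι κ : Type} [CommRing R] [Fintype ι] [Fintype κ] (ρ : ι → κ → R)
    (w : κ → R) (e : ι → R) (x r : R) :
    r * x - ∑ A, (∑ α', ρ A α' * (r * w α')) * e A = r * (x - ∑ A, (∑ α', ρ A α' * w α') * e A) := by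
  rw [mul_sub, Finset.mul_sum]
  congr 1
  refine Finset.sum_congr rfl fun A _ => ?_
  rw [← mul_assoc r, Finset.mul_sum]
  congr 1
  exact Finset.sum_congr rfl fun α' _ => by ring

/-- The minors of the identity matrix. -/
private theorem det_delta {c j : ℕ} (s s' : {s : Finset (Fin c) // s.card = j}) (d : Sx N) :
    Matrix.det (Matrix.of fun (l k : Fin j) => if enu s' l = enu s k then d else 0) =
      if s = s' then d ^ j else 0 := by
  by_cases h : s = s'
  · subst h
    rw [if_pos rfl]
    have h1 : (Matrix.of fun (l k : Fin j) => if enu s l = enu s k then d else 0) =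
        d • (1 : Matrix (Fin j) (Fin j) (Sx N)) := by
      ext1 l k
      rw [Matrix.of_apply, Matrix.smul_apply, Matrix.one_apply, smul_eq_mul]
      by_cases h2 : l = k
      · rw [if_pos h2, if_pos (by rw [h2]), mul_one]
      · rw [if_neg h2, if_neg (fun h3 => h2 (enu_inj s h3)), mul_zero]
    rw [h1, Matrix.det_smul, Fintype.card_fin, Matrix.det_one, mul_one]
  · rw [if_neg h]
    have h1 : ∃ l, enu s' l ∉ s.1 := by
      by_contra h2
      push Not at h2
      refine h (Subtype.ext (Finset.eq_of_subset_of_card_le (fun x hx => ?_) ?_).symm)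
      · rw [← enu_image s'] at hx
        obtain ⟨k, _, rfl⟩ := Finset.mem_image.1 hx
        exact h2 k
      · rw [s.2, s'.2]
    obtain ⟨l, hl⟩ := h1
    refine Matrix.det_eq_zero_of_row_eq_zero l fun k => ?_
    rw [Matrix.of_apply, if_neg]
    intro h2
    exact hl (h2 ▸ enu_mem s k)

end SFrAux

open SFrAux

/-- SFr. -/
theorem kSFr : S_Minor → S_SFr := by
  intro hMin N c I J hI hIh hS hIJ j p hp hp0
  classical
  have hpI : p ∈ zer I := fun F hF => hp F (hIJ hF)
  obtain ⟨F, f, h, e, hF, hh, hph, hlin, hspan⟩ := hS p hpI hp0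
  obtain ⟨B, hB⟩ := hMin (Fin c) (N + 1) (fun i => grad (F i) p) hlin
  have hf : ∀ i, 1 ≤ f i := by
    intro i
    by_contra h0
    have h1 : f i = 0 := by lia
    refine hlin.ne_zero i ?_
    funext l
    have h3 : (F i).IsHomogeneous 0 := h1 ▸ (hF i).2
    simp [grad, sfr_zero h3]
  have hhI : h ∉ I := fun hm => hph (hpI h hm)
  set M : Matrix (Fin c) (Fin c) (Sx N) := Matrix.of fun i b => pderiv (B b) (F i) with hM
  let a : Fin c → ℕ := fun i => f i - 1
  let g : ℕ := ∑ i, a i
  have hMh : ∀ i b, (M i b).IsHomogeneous (a i) := fun i b => (hF i).2.pderiv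
  have hDet : M.det.IsHomogeneous g := tDetHom N (Fin c) M a hMh
  have hag : ∀ i, a i ≤ g := fun i =>
    Finset.single_le_sum (fun _ _ => Nat.zero_le _) (Finset.mem_univ i)
  have hP : ∀ b i, (M.adjugate b i).IsHomogeneous (g - a i) := by
    intro b i
    rw [Matrix.adjugate_apply]
    have h1 := tDetHom N (Fin c) (M.updateRow i (Pi.single b 1)) (Function.update a i 0) (by
      intro i' b'
      by_cases h2 : i' = i
      · subst h2
        rw [Matrix.updateRow_self, Function.update_self]
        by_cases h3 : b' = b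
        · subst h3
          rw [Pi.single_eq_same]
          exact isHomogeneous_one _ _
        · rw [Pi.single_eq_of_ne h3]
          exact isHomogeneous_zero _ _ _
      · rw [Matrix.updateRow_ne h2, Function.update_of_ne h2]
        exact hMh i' b')
    have h4 : ∑ l, Function.update a i 0 l = g - a i := by
      rw [Finset.sum_update_of_mem (Finset.mem_univ i), zero_add]
      have h5 := Finset.sum_sdiff (f := a) (Finset.subset_univ {i})
      rw [Finset.sum_singleton] at h5
      change _ = (∑ l, a l) - a i
      lia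
    rwa [h4] at h1
  let ε : Fin (Nat.choose c j) ≃ {s : Finset (Fin c) // s.card = j} :=
    (Fintype.equivFinOfCardEq (by rw [Fintype.card_finset_len, Fintype.card_fin])).symm
  refine ⟨fun s α => Matrix.det (Matrix.of fun i k => pderiv (α k) (F (enu (ε s) i))),
    fun s α => ∑ β : Fin j → Fin c,
      if (fun k => B (β k)) = α then ∏ k, M.adjugate (β k) (enu (ε s) k) else 0,
    fun s => ∑ l, a (enu (ε s) l), M.det ^ j, g * j, hDet.pow j, ?_, ?_, ?_, ?_⟩
  · rw [map_pow]
    refine pow_ne_zero _ ?_
    rw [RingHom.map_det]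
    exact hB
  · intro s
    have hκ : ∑ l, a (enu (ε s) l) ≤ g * j := by
      calc ∑ l, a (enu (ε s) l) ≤ ∑ _l : Fin j, g := Finset.sum_le_sum fun l _ => hag _
        _ = g * j := by rw [Finset.sum_const, Finset.card_univ, Fintype.card_fin, smul_eq_mul, mul_comm]
    refine ⟨Submodule.subset_span ⟨1, 0, fun i => F (enu (ε s) i), fun i => f (enu (ε s) i),
      isHomogeneous_one _ _, fun i => hF _, ?_, ?_⟩, hκ, fun α => ?_⟩
    · have h1 : ∀ i, f (enu (ε s) i) = a (enu (ε s) i) + 1 := fun i => by
        have := hf (enu (ε s) i)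
        change _ = f (enu (ε s) i) - 1 + 1
        lia
      simp_rw [h1, Finset.sum_add_distrib]
      simp
    · funext α
      rw [one_mul]
    · refine IsHomogeneous.sum _ _ _ fun β _ => ?_
      split_ifs
      · have h2 := IsHomogeneous.prod Finset.univ (fun k => M.adjugate (β k) (enu (ε s) k))
          (fun k => g - a (enu (ε s) k)) (fun k _ => hP _ _)
        have h3 : ∑ k, (g - a (enu (ε s) k)) = g * j - ∑ l, a (enu (ε s) l) := by
          have h4 : ∑ k, (g - a (enu (ε s) k)) + ∑ l, a (enu (ε s) l) = g * j := by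
            rw [← Finset.sum_add_distrib, Finset.sum_congr rfl fun k _ =>
              Nat.sub_add_cancel (hag (enu (ε s) k)), Finset.sum_const, Finset.card_univ,
              Fintype.card_fin, smul_eq_mul, mul_comm]
          lia
        rwa [h3] at h2
      · exact isHomogeneous_zero _ _ _
  · intro m v hv α
    have key : ∀ v : (Fin j → Fin (N + 1)) → Sx N, (∑ s, (∑ α', (
        ∑ β : Fin j → Fin c, if (fun k => B (β k)) = α' then
          ∏ k, M.adjugate (β k) (enu (ε s) k) else 0) * v α') *
          Matrix.det (Matrix.of fun i k => pderiv (α k) (F (enu (ε s) i)))) =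
        ∑ t : {s : Finset (Fin c) // s.card = j}, (∑ α', (
        ∑ β : Fin j → Fin c, if (fun k => B (β k)) = α' then
          ∏ k, M.adjugate (β k) (enu t k) else 0) *
        v α') * Matrix.det (Matrix.of fun i k => pderiv (α k) (F (enu t i))) := fun v =>
      Equiv.sum_comp ε (fun t => (∑ α', (
        ∑ β : Fin j → Fin c, if (fun k => B (β k)) = α' then
          ∏ k, M.adjugate (β k) (enu t k) else 0) *
        v α') * Matrix.det (Matrix.of fun i k => pderiv (α k) (F (enu t i))))
    rw [key]
    induction hv using Submodule.span_induction with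
    | mem v hv =>
      obtain ⟨x, e', G, γ, _, hG, _, rfl⟩ := hv
      have h0 : (∑ t : {s : Finset (Fin c) // s.card = j}, (∑ α', (
          ∑ β : Fin j → Fin c, if (fun k => B (β k)) = α' then
            ∏ k, M.adjugate (β k) (enu t k) else 0) *
          (x * Matrix.det (Matrix.of fun i k => pderiv (α' k) (G i)))) *
          Matrix.det (Matrix.of fun i k => pderiv (α k) (F (enu t i)))) =
          x * ((Matrix.of fun l b => pderiv (B b) (G l)) * M.adjugate *
            (Matrix.of fun i k => pderiv (α k) (F i))).det := by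
        rw [cbin, Finset.mul_sum]
        refine Finset.sum_congr rfl fun t _ => ?_
        rw [rho_minors, mul_assoc]
        rfl
      rw [h0]
      have h1 : M.det ^ j * Matrix.det (Matrix.of fun i k => pderiv (α k) (G i)) -
          ((Matrix.of fun l b => pderiv (B b) (G l)) * M.adjugate *
            (Matrix.of fun i k => pderiv (α k) (F i))).det ∈ I := by
        have h2 : M.det ^ j * Matrix.det (Matrix.of fun i k => pderiv (α k) (G i)) =
            Matrix.det (M.det • (Matrix.of fun (i : Fin j) k => pderiv (α k) (G i))) := by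
          rw [Matrix.det_smul, Fintype.card_fin]
        rw [h2, ← Ideal.Quotient.mk_eq_mk_iff_sub_mem, RingHom.map_det, RingHom.map_det]
        congr 1
        funext l k
        rw [RingHom.mapMatrix_apply, RingHom.mapMatrix_apply, Matrix.map_apply, Matrix.map_apply,
          Ideal.Quotient.mk_eq_mk_iff_sub_mem]
        have h3 := sfr_cramer I hI F (fun i => (hF i).1) B h hhI (G l) (hG l).1
          (hspan _ (hG l).1) (α k)
        rw [Matrix.mul_apply]
        exact h3
      have h4 : M.det ^ j * (x * Matrix.det (Matrix.of fun i k => pderiv (α k) (G i))) -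
          x * ((Matrix.of fun l b => pderiv (B b) (G l)) * M.adjugate *
            (Matrix.of fun i k => pderiv (α k) (F i))).det =
          x * (M.det ^ j * Matrix.det (Matrix.of fun i k => pderiv (α k) (G i)) -
          ((Matrix.of fun l b => pderiv (B b) (G l)) * M.adjugate *
            (Matrix.of fun i k => pderiv (α k) (F i))).det) := by ring
      rw [h4]
      exact I.mul_mem_left _ h1
    | zero => simp
    | add v w _ _ hv hw =>
      have h1 := I.add_mem hv hw
      refine (congrArg (· ∈ I) ?_).mp h1
      simp_rw [Pi.add_apply, mul_add, Finset.sum_add_distrib, add_mul, Finset.sum_add_distrib]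
      ring
    | smul r v _ hv =>
      have h1 := I.mul_mem_left (C r) hv
      have h2 := sfr_lin (fun (t : {s : Finset (Fin c) // s.card = j})
        (α' : Fin j → Fin (N + 1)) => ∑ β : Fin j → Fin c, if (fun k => B (β k)) = α' then
          ∏ k, M.adjugate (β k) (enu t k) else 0) v
        (fun t => Matrix.det (Matrix.of fun i k => pderiv (α k) (F (enu t i))))
        (M.det ^ j * v α) (C r)
      simp_rw [Pi.smul_apply, MvPolynomial.smul_eq_C_mul]
      rw [mul_left_comm, h2]
      exact h1
  · intro l l'
    have h1 := rho_minors M.adjugate B (fun i => F (enu (ε l') i)) 1 (enu (ε l))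
    simp_rw [one_mul] at h1
    have h2 : (Matrix.of fun (i k : Fin j) =>
        ((Matrix.of fun (i : Fin j) b => pderiv (B b) (F (enu (ε l') i))) * M.adjugate :
          Matrix (Fin j) (Fin c) (Sx N)) i (enu (ε l) k)) =
        Matrix.of fun (i k : Fin j) => if enu (ε l') i = enu (ε l) k then M.det else 0 := by
      ext1 i k
      rw [Matrix.of_apply, Matrix.of_apply]
      have h3 : ((Matrix.of fun (i : Fin j) b => pderiv (B b) (F (enu (ε l') i))) * M.adjugate :
          Matrix (Fin j) (Fin c) (Sx N)) i (enu (ε l) k) =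
          (M * M.adjugate) (enu (ε l') i) (enu (ε l) k) := by
        rw [Matrix.mul_apply, Matrix.mul_apply]
        rfl
      rw [h3, Matrix.mul_adjugate, Matrix.smul_apply, Matrix.one_apply, smul_eq_mul]
      by_cases h4 : enu (ε l') i = enu (ε l) k
      · rw [if_pos h4, if_pos h4, mul_one]
      · rw [if_neg h4, if_neg h4, mul_zero]
    rw [h2, det_delta] at h1
    rw [h1]
    have h5 : (if ε l = ε l' then M.det ^ j else 0) = if l = l' then M.det ^ j else 0 := by
      by_cases h6 : l = l'
      · rw [if_pos h6, if_pos (by rw [h6])]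
      · rw [if_neg h6, if_neg fun h7 => h6 (ε.injective h7)]
    rw [h5, sub_self]
    exact I.zero_mem

end Pool.Agent.Lib.MP_776403_ag.SD
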