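import Pool.Agent.Lib.MP_776403_ag.SD.K.SpecS

/-!
# Part S: the symmetric and the alternating square are graded submodules
-/

set_option autoImplicit false

open MvPolynomial TensorProduct

noncomputable section

namespace Pool.Agent.Lib.MP_776403_ag.SD

namespace SGVAux

/-- Vectors of forms of degree `k`. -/
def HH (N : ℕ) (α : Type) (k : ℕ) : Submodule ℂ (α → Sx N) where
  carrier := {v | ∀ a, (v a).IsHomogeneous k}
  zero_mem' := fun _ => isHomogeneous_zero _ _ _
  add_mem' := fun h h' a => (h a).add (h' a)
  smul_mem' := fun r _ h a => (homogeneousSubmodule (Fin (N + 1)) ℂ k).smul_mem r (h a)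

/-- Multiplication by `g`. -/
def mu {N : ℕ} (α : Type) (g : Sx N) : (α → Sx N) →ₗ[ℂ] (α → Sx N) where
  toFun v := fun a => g * v a
  map_add' v w := by
    funext a
    change g * (v a + w a) = g * v a + g * w a
    rw [mul_add]
  map_smul' r v := by
    funext a
    change g * (r • v a) = r • (g * v a)
    rw [mul_smul_comm]

end SGVAux

open SGVAux in
/-- `SV` is a graded submodule. -/
theorem kSGV : S_SGV := by
  intro N α ε V hV
  constructor
  · intro k v hv
    have h : SV ε V k ≤ HH N (α × α) k := by
      refine Submodule.span_le.2 ?_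
      rintro z ⟨k1, k2, v, w, hk, hv, hw, rfl⟩ p
      have h1 : (v p.1 * w p.2).IsHomogeneous k := by
        rw [← hk]
        exact (hV.hom k1 v hv p.1).mul (hV.hom k2 w hw p.2)
      have h2 : (w p.1 * v p.2).IsHomogeneous k := by
        rw [← hk, Nat.add_comm k1 k2]
        exact (hV.hom k2 w hw p.1).mul (hV.hom k1 v hv p.2)
      exact h1.add ((homogeneousSubmodule (Fin (N + 1)) ℂ k).toAddSubgroup.zsmul_mem h2 ε)
    exact h hv
  · intro k v hv i
    have h : SV ε V k ≤ (SV ε V (k + 1)).comap (mu (α × α) (X i)) := by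
      refine Submodule.span_le.2 ?_
      rintro z ⟨k1, k2, v, w, hk, hv, hw, rfl⟩
      refine Submodule.subset_span
        ⟨k1 + 1, k2, fun a => X i * v a, w, by omega, hV.mul k1 v hv i, hw, ?_⟩
      funext p
      change X i * (v p.1 * w p.2 + ε • (w p.1 * v p.2)) =
        X i * v p.1 * w p.2 + ε • (w p.1 * (X i * v p.2))
      rw [mul_add, mul_smul_comm, mul_assoc, mul_left_comm (X i) (w p.1) (v p.2)]
    exact h hv

end Pool.Agent.Lib.MP_776403_ag.SD
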