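import Pool.Agent.Lib.MP_776403_ag.SD.K.SpecS

/-!
# THEOREM SD, part S: the Adams operation identity (iv)

Assembly of `S_SCnj`, `S_SDec`, `S_SDim`, `S_STau` to `S_SIV`.
-/

set_option autoImplicit false

open MvPolynomial TensorProduct

noncomputable section

namespace Pool.Agent.Lib.MP_776403_ag.SD

namespace SIVAux

variable {N : ℕ}

/-- The dimension of the weight part, with `n = a + b` as a hypothesis. -/
theorem dimLB (hDim : S_SDim) (I : Ideal (Sx N)) (n a b k : ℕ) (h : n = a + b) :
    Module.finrank ℂ (LB I n b k) = hV I (PV (VL I a) (VL I b)) k := by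
  subst h
  exact (hDim N I a b k).2.2

end SIVAux

theorem kSIV : S_SCnj → S_SDec → S_SDim → S_STau → S_SIV := by
  intro hCnj hDec hDim hTau N I j k
  rw [← hTau N I j k, ← (hDec N I k).2 j, hCnj N I (j + j) k, (hDec N I k).1 (j + j)]
  refine Finset.sum_congr rfl fun b hb => ?_
  have hb' : b ≤ j + j := Nat.lt_succ_iff.mp (Finset.mem_range.mp hb)
  rw [SIVAux.dimLB hDim I (j + j) (j + j - b) b k (Nat.sub_add_cancel hb').symm]

end Pool.Agent.Lib.MP_776403_ag.SD
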