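import Pool.Agent.Lib.MP_776403_ag.SD.K.SpecS

/-!
# THEOREM SD, part K: (KI) in terms of the `q`
-/

set_option autoImplicit false

open MvPolynomial TensorProduct

noncomputable section

namespace Pool.Agent.Lib.MP_776403_ag.SD

namespace SKIAux

theorem ou : (((1 - Polynomial.X : Polynomial ℤ)) : PowerSeries ℤ) = 1 - PowerSeries.X := by
  rw [Polynomial.coe_sub, Polynomial.coe_one, Polynomial.coe_X]

theorem ou_pow (n : ℕ) : (((1 - Polynomial.X : Polynomial ℤ) ^ n : Polynomial ℤ) : PowerSeries ℤ) =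
    (1 - PowerSeries.X) ^ n := by
  rw [Polynomial.coe_pow, ou]

theorem ou_ne (n : ℕ) : (1 - Polynomial.X : Polynomial ℤ) ^ n ≠ 0 := by
  refine pow_ne_zero _ fun h => ?_
  have h1 := congrArg (Polynomial.eval 0) h
  simp at h1

theorem key (N c : ℕ) (f g k l : ℕ → ℕ) (qf qg qk ql p : Polynomial ℤ) (hf : QP N c f qf)
    (hg : QP N c g qg) (hk : QP N c k qk) (hl : QP N c l ql)
    (hp : (1 - PowerSeries.X) ^ (N + 1) * (ps f * ps g - ps k * ps l) = (p : PowerSeries ℤ)) :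
    (1 - Polynomial.X) ^ (N + 1 - 2 * c) ∣ qf * qg - qk * ql := by
  rcases le_or_gt (2 * c) (N + 1) with h2 | h2
  swap
  · rw [Nat.sub_eq_zero_of_le h2.le, pow_zero]
    exact one_dvd _
  have h3 : (((1 - Polynomial.X) ^ (N + 1) * p : Polynomial ℤ) : PowerSeries ℤ) =
      (((1 - Polynomial.X) ^ (2 * c) * (qf * qg - qk * ql) : Polynomial ℤ) : PowerSeries ℤ) := by
    unfold QP at hf hg hk hl
    have h4 : (((1 - Polynomial.X) ^ (2 * c) * (qf * qg - qk * ql) : Polynomial ℤ) :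
        PowerSeries ℤ) =
        (((1 - Polynomial.X) ^ c * qf : Polynomial ℤ) : PowerSeries ℤ) *
          (((1 - Polynomial.X) ^ c * qg : Polynomial ℤ) : PowerSeries ℤ) -
        (((1 - Polynomial.X) ^ c * qk : Polynomial ℤ) : PowerSeries ℤ) *
          (((1 - Polynomial.X) ^ c * ql : Polynomial ℤ) : PowerSeries ℤ) := by
      rw [← Polynomial.coe_mul, ← Polynomial.coe_mul, ← Polynomial.coe_sub]
      congr 1
      ring
    rw [h4, ← hf, ← hg, ← hk, ← hl, Polynomial.coe_mul, ou_pow, ← hp]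
    ring
  have h5 := Polynomial.coe_injective ℤ h3
  have h6 : (1 - Polynomial.X : Polynomial ℤ) ^ (2 * c) *
      ((1 - Polynomial.X) ^ (N + 1 - 2 * c) * p) =
      (1 - Polynomial.X : Polynomial ℤ) ^ (2 * c) * (qf * qg - qk * ql) := by
    rw [← h5, ← mul_assoc, ← pow_add, Nat.add_sub_cancel' h2]
  exact ⟨p, (mul_left_cancel₀ (ou_ne _) h6).symm⟩

end SKIAux

/-- (SKI). -/
theorem kSKI : S_KI → S_KLF → S_KGV → S_SKI := by
  intro hKI hKLF hKGV N c _ I h hp hI hS hh i β _ W hW qi qW qP hqi hqW hqP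
  obtain ⟨p, hpp⟩ := hKI N c (Fin i → Fin (N + 1)) β I I hp hI hS hp hI (le_refl I) (VL I i) W
    (hKGV.2.2.1 N I i).1 hW (hKLF N c I I hp hI hS (le_refl I) i)
  exact SKIAux.key N c _ _ _ _ qi qW h qP p hqi hqW hh hqP hpp

end Pool.Agent.Lib.MP_776403_ag.SD
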