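import Pool.Agent.Lib.MP_776403_ag.SD.K.SpecS

/-!
# THEOREM SD, part S: trace of an involution which permutes a basis
-/

set_option autoImplicit false

open MvPolynomial TensorProduct

noncomputable section

namespace Pool.Agent.Lib.MP_776403_ag.SD

namespace SPermAux

variable {W : Type} [AddCommGroup W] [Module ℂ W]

theorem finrank_comap (U K : Submodule ℂ W) :
    Module.finrank ℂ ↥(U ⊓ K) = Module.finrank ℂ ↥(Submodule.comap U.subtype K) := by
  rw [← Submodule.finrank_map_subtype_eq U (Submodule.comap U.subtype K),
    Submodule.map_comap_subtype]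

theorem trace_inv (U : Submodule ℂ W) [FiniteDimensional ℂ U] (s : W →ₗ[ℂ] W)
    (hs : ∀ w ∈ U, s w ∈ U) (h2 : ∀ w ∈ U, s (s w) = w) :
    LinearMap.trace ℂ U (s.restrict hs) =
      (Module.finrank ℂ ↥(U ⊓ LinearMap.ker (s - LinearMap.id)) : ℂ) -
        Module.finrank ℂ ↥(U ⊓ LinearMap.ker (s + LinearMap.id)) := by
  have hP : LinearMap.IsProj (Submodule.comap U.subtype (LinearMap.ker (s - LinearMap.id)))
      ((1 / 2 : ℂ) • (LinearMap.id + s.restrict hs)) := by
    constructor
    · intro x
      rw [Submodule.mem_comap, LinearMap.mem_ker]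
      have hx := h2 x x.2
      simp only [LinearMap.sub_apply, LinearMap.id_apply, Submodule.subtype_apply,
        LinearMap.smul_apply, LinearMap.add_apply,
        LinearMap.coe_restrict_apply, map_smul, map_add, hx]
      have h0 : s ↑x - ↑x + (↑x - s ↑x) = (0 : W) := by abel
      rw [h0, smul_zero]
    · intro x hx
      rw [Submodule.mem_comap, LinearMap.mem_ker, LinearMap.sub_apply, LinearMap.id_apply,
        Submodule.subtype_apply, sub_eq_zero] at hx
      apply Subtype.ext
      simp only [LinearMap.smul_apply, LinearMap.add_apply, LinearMap.id_apply,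
        Submodule.coe_smul, Submodule.coe_add, LinearMap.coe_restrict_apply, hx]
      rw [← two_smul ℂ (x : W), smul_smul]
      norm_num
  have hQ : LinearMap.IsProj (Submodule.comap U.subtype (LinearMap.ker (s + LinearMap.id)))
      ((1 / 2 : ℂ) • (LinearMap.id - s.restrict hs)) := by
    constructor
    · intro x
      rw [Submodule.mem_comap, LinearMap.mem_ker]
      have hx := h2 x x.2
      simp only [LinearMap.sub_apply, LinearMap.id_apply, Submodule.subtype_apply,
        LinearMap.smul_apply, LinearMap.add_apply,
        LinearMap.coe_restrict_apply, map_smul, map_sub, hx]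
      have h0 : s ↑x + ↑x - (↑x + s ↑x) = (0 : W) := by abel
      rw [h0, smul_zero]
    · intro x hx
      rw [Submodule.mem_comap, LinearMap.mem_ker, LinearMap.add_apply, LinearMap.id_apply,
        Submodule.subtype_apply] at hx
      have hx' : s (x : W) = - (x : W) := eq_neg_of_add_eq_zero_left hx
      apply Subtype.ext
      simp only [LinearMap.smul_apply, LinearMap.sub_apply, LinearMap.id_apply,
        Submodule.coe_smul, Submodule.coe_sub, LinearMap.coe_restrict_apply, hx']
      rw [sub_neg_eq_add, ← two_smul ℂ (x : W), smul_smul]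
      norm_num
  have e1 := hP.trace
  have e2 := hQ.trace
  rw [finrank_comap, finrank_comap, ← e1, ← e2, map_smul, map_smul, map_add, map_sub]
  simp only [smul_eq_mul]
  ring

end SPermAux

theorem kSPerm : S_SPerm := by
  intro W _ _ ι _ _ b π s hb hπ hsb
  have hs : ∀ w ∈ Submodule.span ℂ (Set.range b), s w ∈ Submodule.span ℂ (Set.range b) := by
    intro w hw
    induction hw using Submodule.span_induction with
    | mem x hx =>
      obtain ⟨i, rfl⟩ := hx
      rw [hsb i]
      exact Submodule.subset_span ⟨π i, rfl⟩
    | zero => rw [map_zero]; exact Submodule.zero_mem _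
    | add x y _ _ hx hy => rw [map_add]; exact Submodule.add_mem _ hx hy
    | smul a x _ hx => rw [map_smul]; exact Submodule.smul_mem _ _ hx
  have h2 : ∀ w ∈ Submodule.span ℂ (Set.range b), s (s w) = w := by
    intro w hw
    induction hw using Submodule.span_induction with
    | mem x hx =>
      obtain ⟨i, rfl⟩ := hx
      rw [hsb i, hsb (π i), hπ i]
    | zero => rw [map_zero, map_zero]
    | add x y _ _ hx hy => rw [map_add, map_add, hx, hy]
    | smul a x _ hx => rw [map_smul, map_smul, hx]
  have : FiniteDimensional ℂ (Submodule.span ℂ (Set.range b)) :=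
    FiniteDimensional.span_of_finite ℂ (Set.finite_range b)
  have ht := SPermAux.trace_inv (Submodule.span ℂ (Set.range b)) s hs h2
  let B : Module.Basis ι ℂ (Submodule.span ℂ (Set.range b)) := Module.Basis.span hb
  have hB : ∀ i, ((B i : Submodule.span ℂ (Set.range b)) : W) = b i := fun i =>
    congrArg Subtype.val (Module.Basis.span_apply hb i)
  have hsB : ∀ i, s.restrict hs (B i) = B (π i) := by
    intro i
    apply Subtype.ext
    rw [LinearMap.coe_restrict_apply, hB, hB, hsb]
  have ht2 : LinearMap.trace ℂ (Submodule.span ℂ (Set.range b)) (s.restrict hs) =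
      ((Finset.univ.filter fun i => π i = i).card : ℂ) := by
    rw [LinearMap.trace_eq_matrix_trace ℂ B, Matrix.trace]
    have : ∀ i, Matrix.diag (LinearMap.toMatrix B B (s.restrict hs)) i =
        if π i = i then (1 : ℂ) else 0 := by
      intro i
      rw [Matrix.diag_apply, LinearMap.toMatrix_apply, hsB, Module.Basis.repr_self,
        Finsupp.single_apply]
    rw [Finset.sum_congr rfl fun i _ => this i, Finset.sum_boole]
  rw [ht2] at ht
  unfold tri
  have : (((Finset.univ.filter fun i => π i = i).card : ℤ) : ℂ) =
      ((((Module.finrank ℂ ↥(Submodule.span ℂ (Set.range b) ⊓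
          LinearMap.ker (s - LinearMap.id)) : ℤ) -
        Module.finrank ℂ ↥(Submodule.span ℂ (Set.range b) ⊓
          LinearMap.ker (s + LinearMap.id)) : ℤ)) : ℂ) := by
    push_cast
    exact ht
  exact (Int.cast_injective this).symm

end Pool.Agent.Lib.MP_776403_ag.SD
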