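import Pool.Agent.Lib.MP_776403_ag.SD.K.SpecS

/-!
# THEOREM SD, part K: the trace of the swap on the Koszul homology in large degrees
-/

set_option autoImplicit false

open MvPolynomial TensorProduct

noncomputable section

namespace Pool.Agent.Lib.MP_776403_ag.SD

namespace SRiAux

variable {N : ℕ} {W : Type} [AddCommGroup W] [Module ℂ W]

theorem tw_apply (s : W →ₗ[ℂ] W) (w : Cn N W) (T : Finset (Fin (N + 1))) :
    tw s w T = (-1 : ℂ) ^ T.card • s (w T) := rfl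

theorem tw_tw (s : W →ₗ[ℂ] W) (hs : ∀ w, s (s w) = w) (w : Cn N W) : tw s (tw s w) = w := by
  funext T
  rw [tw_apply, tw_apply, map_smul, hs, smul_smul, ← mul_pow, neg_one_mul, neg_neg, one_pow,
    one_smul]

theorem tw_dK [Module (Rx N) W] [IsScalarTower ℂ (Rx N) W] (s : W →ₗ[ℂ] W)
    (hz : ∀ (k : Fin (N + 1)) (w : W), s ((zz k : Rx N) • w) = -((zz k : Rx N) • s w))
    (w : Cn N W) : dK (tw s w) = tw s (dK w) := by
  funext T
  change ∑ k ∈ Tᶜ, sg k T • ((zz k : Rx N) • tw s w (insert k T)) =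
    (-1 : ℂ) ^ T.card • s (∑ k ∈ Tᶜ, sg k T • ((zz k : Rx N) • w (insert k T)))
  rw [map_sum, Finset.smul_sum]
  refine Finset.sum_congr rfl fun k hk => ?_
  have hk' : k ∉ T := Finset.mem_compl.1 hk
  rw [tw_apply, Finset.card_insert_of_notMem hk', map_zsmul, hz, smul_comm ((-1 : ℂ) ^ T.card)
    (sg k T)]
  congr 1
  rw [smul_algebra_smul_comm, pow_succ, mul_neg_one, neg_smul, smul_neg]

end SRiAux

theorem kSRi : S_RIa → S_KTri → S_KFam → S_KGF → S_SwT → S_SRi := by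
  intro hR hT hF hG hS N c α _ I hI hSm V hV hL i
  obtain ⟨m0, h0⟩ := hR N c α α I I le_rfl V V hI hI hSm hV hV hL i
  refine ⟨m0, fun m hm => ?_⟩
  obtain ⟨ha, hb, hc⟩ := h0 m hm
  obtain ⟨g1, g2, g3⟩ := hG N α α I I V V hV hV
  obtain ⟨f1, f2, f3, f4⟩ := hF N (α × α → CR I I) (TPf I I V V) g1 g2 g3 i
  obtain ⟨s1, s2, s3, s4, s5, s6, s7⟩ := hS N α I
  obtain ⟨f21, f22, f23⟩ := f2 m
  have hfd : FiniteDimensional ℂ (Zc N (TPf I I V V) i m) := Submodule.finiteDimensional_of_le f22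
  have htw : ∀ w : Cn N (α × α → CR I I), tw (swT α I) (tw (swT α I) w) = w :=
    SRiAux.tw_tw _ s1
  have hd : ∀ w : Cn N (α × α → CR I I), dK (tw (swT α I) w) = tw (swT α I) (dK w) :=
    SRiAux.tw_dK _ s2
  have hK : ∀ w ∈ Kc N (TPf I I V V) i m, tw (swT α I) w ∈ Kc N (TPf I I V V) i m := by
    intro w hw T
    obtain ⟨h1, h2⟩ := hw T
    refine ⟨fun h3 h4 => ?_, fun h3 => ?_⟩
    · rw [SRiAux.tw_apply]
      exact Submodule.smul_mem _ _ (s3 V _ _ (h1 h3 h4))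
    · rw [SRiAux.tw_apply, h2 h3, map_zero, smul_zero]
  have hZ : ∀ w ∈ Zc N (TPf I I V V) i m, tw (swT α I) w ∈ Zc N (TPf I I V V) i m := by
    intro w hw
    obtain ⟨h1, h2⟩ := Submodule.mem_inf.1 hw
    refine Submodule.mem_inf.2 ⟨hK w h1, ?_⟩
    rw [LinearMap.mem_ker, LinearMap.restrictScalars_apply] at h2 ⊢
    rw [hd, h2, map_zero]
  have key := hT _ _ (tw (swT α I)) (tauK α I) (rho (le_refl I) (α × α))
    (Zc N (TPf I I V V) i m) hfd htw s5 s4 hZ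
  have hker : Zc N (TPf I I V V) i m ⊓ LinearMap.ker (rho (le_refl I) (α × α)) =
      Bc N (TPf I I V V) i m := by
    refine le_antisymm ?_ ?_
    · intro w hw
      obtain ⟨h1, h2⟩ := Submodule.mem_inf.1 hw
      exact ha w h1 (LinearMap.mem_ker.1 h2)
    · intro w hw
      exact Submodule.mem_inf.2 ⟨f21 hw, LinearMap.mem_ker.2 (hc w hw)⟩
  rw [hker, hb] at key
  rw [key]
  ring

end Pool.Agent.Lib.MP_776403_ag.SD
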