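import Pool.Agent.Lib.MP_776403_ag.SD.K.SpecS

/-!
# THEOREM SD, part K, module SRk: the Hilbert function of `Λ^j N^*` up to shifts
-/

set_option autoImplicit false

open MvPolynomial TensorProduct

noncomputable section

namespace Pool.Agent.Lib.MP_776403_ag.SD

namespace SRkAux

variable {N : ℕ}

theorem gr_fd (hK : S_KGV) (I : Ideal (Sx N)) (m : ℕ) : FiniteDimensional ℂ (gr I m) := by
  have h1 : FiniteDimensional ℂ (AF N m) :=
    (hK.2.2.2 N Unit (AF N) (hK.1 N)).2 inferInstance m
  let φ : (Unit → Sx N) →ₗ[ℂ] (Sx N ⧸ I) :=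
    (Ideal.Quotient.mkₐ ℂ I).toLinearMap ∘ₗ LinearMap.proj ()
  have h2 : gr I m = (AF N m).map φ := by
    ext z
    constructor
    · rintro ⟨f, hf, rfl⟩
      exact ⟨fun _ => f, fun _ => (mem_homogeneousSubmodule _ _).1 hf, rfl⟩
    · rintro ⟨v, hv, rfl⟩
      exact ⟨v (), (mem_homogeneousSubmodule _ _).2 (hv ()), rfl⟩
  rw [h2]
  infer_instance

/-- `b ↦ ∑ b_l e_l`. -/
def mA (I : Ideal (Sx N)) {j r : ℕ} (e : Fin r → ((Fin j → Fin (N + 1)) → Sx N))
    (G : Fin r → Submodule ℂ (Sx N ⧸ I)) :
    ((l : Fin r) → G l) →ₗ[ℂ] ((Fin j → Fin (N + 1)) → Sx N ⧸ I) where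
  toFun b := fun a => ∑ l, (b l).1 * Ideal.Quotient.mk I (e l a)
  map_add' b b' := by
    funext a
    simp only [Pi.add_apply, Submodule.coe_add, add_mul, Finset.sum_add_distrib]
  map_smul' c b := by
    funext a
    simp only [Pi.smul_apply, Submodule.coe_smul, smul_mul_assoc, Finset.smul_sum,
      RingHom.id_apply]

/-- `u ↦ ρ · u`. -/
def mB (I : Ideal (Sx N)) {j : ℕ} (ρ : (Fin j → Fin (N + 1)) → Sx N) :
    ((Fin j → Fin (N + 1)) → Sx N ⧸ I) →ₗ[ℂ] (Sx N ⧸ I) where
  toFun u := ∑ a, Ideal.Quotient.mk I (ρ a) * u a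
  map_add' u u' := by
    simp only [Pi.add_apply, mul_add, Finset.sum_add_distrib]
  map_smul' c u := by
    simp only [Pi.smul_apply, mul_smul_comm, Finset.smul_sum, RingHom.id_apply]

end SRkAux

open SRkAux

theorem kSRk : S_SFr → S_KGV → S_SRk := by
  intro hF hK N c I hI hhom hs hy j
  obtain ⟨y, hy0, hy1⟩ := hy
  obtain ⟨e, ρ, κ, D, δ, hD, hDy, heρ, hfr, hdual⟩ :=
    hF N c I I hI hhom hs (le_refl I) j y hy0 hy1
  have hDI : D ∉ I := fun h => hDy (hy0 D h)
  have hgv : GV (VL I j) := (hK.2.2.1 N I j).1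
  have hfdV : ∀ k, FiniteDimensional ℂ (VL I j k) :=
    (hK.2.2.2 N _ (VL I j) hgv).2 inferInstance
  have hmul := (hK.2.2.2 N _ (VL I j) hgv).1
  have hgr := gr_fd hK I
  refine ⟨κ, δ, fun l => (heρ l).2.1, fun k => ⟨?_, ?_⟩⟩
  · -- lower bound
    have hG : ∀ l, ∃ G : Submodule ℂ (Sx N ⧸ I), (FiniteDimensional ℂ G ∧
        Module.finrank ℂ G = (if κ l ≤ k then Module.finrank ℂ (gr I (k - κ l)) else 0)) ∧
        ∀ b ∈ G, (fun a => b * Ideal.Quotient.mk I (e l a)) ∈ (VL I j k).map (redL _ I) := by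
      intro l
      by_cases hk : κ l ≤ k
      · refine ⟨gr I (k - κ l), ⟨hgr _, by rw [if_pos hk]⟩, ?_⟩
        rintro b ⟨f, hf, rfl⟩
        have h1 := hmul (κ l) (k - κ l) f (e l) ((mem_homogeneousSubmodule _ _).1 hf) (heρ l).1
        have h2 : κ l + (k - κ l) = k := by omega
        rw [h2] at h1
        refine ⟨_, h1, ?_⟩
        funext a
        change Ideal.Quotient.mk I (f * e l a) = Ideal.Quotient.mk I f * Ideal.Quotient.mk I (e l a)
        rw [map_mul]
      · refine ⟨⊥, ⟨inferInstance, by rw [if_neg hk, finrank_bot]⟩, ?_⟩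
        intro b hb
        rw [Submodule.mem_bot] at hb
        rw [hb]
        have h1 : (fun a => (0 : Sx N ⧸ I) * Ideal.Quotient.mk I (e l a)) = 0 := by
          funext a
          rw [zero_mul]
          rfl
        rw [h1]
        exact Submodule.zero_mem _
    choose G hG1 hG2 using hG
    have : ∀ l, FiniteDimensional ℂ (G l) := fun l => (hG1 l).1
    have hinj : Function.Injective (mA I e G) := by
      rw [injective_iff_map_eq_zero]
      intro b hb
      funext l'
      have h1 : ∀ a, ∑ l, (b l).1 * Ideal.Quotient.mk I (e l a) = 0 := fun a => congrFun hb a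
      have h2 : (b l').1 * Ideal.Quotient.mk I D = 0 := by
        have h3 : ∑ a, Ideal.Quotient.mk I (ρ l' a) *
            ∑ l, (b l).1 * Ideal.Quotient.mk I (e l a) = 0 :=
          Finset.sum_eq_zero fun a _ => by rw [h1 a, mul_zero]
        rw [← h3]
        have h4 : ∑ a, Ideal.Quotient.mk I (ρ l' a) *
            ∑ l, (b l).1 * Ideal.Quotient.mk I (e l a) =
            ∑ l, (b l).1 * Ideal.Quotient.mk I (∑ a, ρ l' a * e l a) := by
          simp only [map_sum, map_mul, Finset.mul_sum]
          rw [Finset.sum_comm]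
          refine Finset.sum_congr rfl fun l _ => Finset.sum_congr rfl fun a _ => ?_
          ring
        rw [h4]
        have h5 : ∀ l, Ideal.Quotient.mk I (∑ a, ρ l' a * e l a) =
            Ideal.Quotient.mk I (if l' = l then D else 0) := by
          intro l
          rw [Ideal.Quotient.eq]
          exact hdual l' l
        rw [Finset.sum_eq_single l']
        · rw [h5, if_pos rfl]
        · intro l _ hl
          rw [h5, if_neg (Ne.symm hl), map_zero, mul_zero]
        · intro h
          exact absurd (Finset.mem_univ _) h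
      have : IsDomain (Sx N ⧸ I) := Ideal.Quotient.isDomain I
      rcases mul_eq_zero.1 h2 with h3 | h3
      · exact Subtype.ext h3
      · exact absurd (Ideal.Quotient.eq_zero_iff_mem.1 h3) hDI
    have hle : LinearMap.range (mA I e G) ≤ (VL I j k).map (redL _ I) := by
      rintro _ ⟨b, rfl⟩
      have h1 : mA I e G b = ∑ l, fun a => (b l).1 * Ideal.Quotient.mk I (e l a) := by
        funext a
        rw [Finset.sum_apply]
        rfl
      rw [h1]
      exact Submodule.sum_mem _ fun l _ => hG2 l _ (b l).2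
    have h1 : Module.finrank ℂ (LinearMap.range (mA I e G)) ≤ hV I (VL I j) k := by
      unfold hV
      exact Submodule.finrank_mono hle
    rw [LinearMap.finrank_range_of_inj hinj, Module.finrank_pi_fintype] at h1
    refine le_trans (le_of_eq ?_) h1
    exact Finset.sum_congr rfl fun l _ => (hG1 l).2.symm
  · -- upper bound
    have hB : ∀ l, ∀ u ∈ (VL I j k).map (redL _ I), mB I (ρ l) u ∈ gr I (k + δ - κ l) := by
      rintro l _ ⟨v, hv, rfl⟩
      refine ⟨∑ a, ρ l a * v a, ?_, ?_⟩
      · refine (mem_homogeneousSubmodule _ _).2 ?_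
        refine IsHomogeneous.sum _ _ _ fun a _ => ?_
        have h1 := ((heρ l).2.2 a).mul (hgv.hom k v hv a)
        have h2 : δ - κ l + k = k + δ - κ l := by
          have := (heρ l).2.1
          omega
        rw [h2] at h1
        exact h1
      · change Ideal.Quotient.mk I (∑ a, ρ l a * v a) =
          ∑ a, Ideal.Quotient.mk I (ρ l a) * Ideal.Quotient.mk I (v a)
        rw [map_sum]
        exact Finset.sum_congr rfl fun a _ => map_mul _ _ _
    let W : Submodule ℂ ((Fin j → Fin (N + 1)) → Sx N ⧸ I) := (VL I j k).map (redL _ I)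
    let Bl : (l : Fin (Nat.choose c j)) → (W →ₗ[ℂ] gr I (k + δ - κ l)) := fun l =>
      LinearMap.codRestrict (gr I (k + δ - κ l)) (mB I (ρ l) ∘ₗ W.subtype)
        (fun u => hB l u.1 u.2)
    have hinj : Function.Injective (LinearMap.pi Bl) := by
      rw [injective_iff_map_eq_zero]
      rintro ⟨u, hu⟩ h
      obtain ⟨v, hv, rfl⟩ := hu
      have h1 : ∀ l, Ideal.Quotient.mk I (∑ a, ρ l a * v a) = 0 := by
        intro l
        have h2 : mB I (ρ l) (redL _ I v) = 0 := congrArg Subtype.val (congrFun h l)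
        rw [← h2]
        change Ideal.Quotient.mk I (∑ a, ρ l a * v a) =
          ∑ a, Ideal.Quotient.mk I (ρ l a) * Ideal.Quotient.mk I (v a)
        rw [map_sum]
        exact Finset.sum_congr rfl fun a _ => map_mul _ _ _
      have h3 : redL _ I v = 0 := by
        funext a
        change Ideal.Quotient.mk I (v a) = 0
        rw [Ideal.Quotient.eq_zero_iff_mem]
        have h4 := hfr k v hv a
        have h5 : ∑ l, (∑ a', ρ l a' * v a') * e l a ∈ I :=
          Ideal.sum_mem _ fun l _ =>
            Ideal.mul_mem_right _ _ (Ideal.Quotient.eq_zero_iff_mem.1 (h1 l))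
        have h6 : D * v a ∈ I := by
          have h7 := Ideal.add_mem _ h4 h5
          rwa [sub_add_cancel] at h7
        exact (hI.mem_or_mem h6).resolve_left hDI
      exact Subtype.ext h3
    have : ∀ l, FiniteDimensional ℂ (gr I (k + δ - κ l)) := fun l => hgr _
    have h1 := LinearMap.finrank_le_finrank_of_injective hinj
    rw [Module.finrank_pi_fintype] at h1
    exact h1

end Pool.Agent.Lib.MP_776403_ag.SD
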