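import Pool.Agent.Lib.MP_776403_ag.SD.K.SpecS

/-!
# THEOREM SD, part K, module SSg: the eigenspaces of the swap on `V . V . Y` (helper16)
-/

set_option autoImplicit false

open MvPolynomial TensorProduct

noncomputable section

namespace Pool.Agent.Lib.MP_776403_ag.SD

namespace SSgAux

section Gen

variable {W : Type} [AddCommGroup W] [Module ℂ W]

/-- The eigenspace of an involution is the image of `1 + ε s`. -/
theorem eig (s : W →ₗ[ℂ] W) (ε : ℤ) (hε : ε * ε = 1) (Q Q' : Submodule ℂ W) (h1 : Q' ≤ Q)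
    (h2 : ∀ u ∈ Q', s u = ε • u) (h3 : ∀ u ∈ Q, u + ε • s u ∈ Q') (u : W) :
    (u ∈ Q ∧ s u = ε • u) ↔ u ∈ Q' := by
  constructor
  · rintro ⟨hu, hs⟩
    have h4 := h3 u hu
    rw [hs, smul_smul, hε, one_smul] at h4
    have h5 : u = (2⁻¹ : ℂ) • (u + u) := by
      rw [← two_smul ℂ u, smul_smul, inv_mul_cancel₀ two_ne_zero, one_smul]
    rw [h5]
    exact Q'.smul_mem _ h4
  · intro hu
    exact ⟨h1 hu, h2 u hu⟩

theorem tri_eig (s : W →ₗ[ℂ] W) (Q : Submodule ℂ W) (Q' : ℤ → Submodule ℂ W)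
    (h1 : ∀ ε : ℤ, ε * ε = 1 → Q' ε ≤ Q)
    (h2 : ∀ ε : ℤ, ε * ε = 1 → ∀ u ∈ Q' ε, s u = ε • u)
    (h3 : ∀ ε : ℤ, ε * ε = 1 → ∀ u ∈ Q, u + ε • s u ∈ Q' ε) :
    tri s Q = (Module.finrank ℂ (Q' 1) : ℤ) - Module.finrank ℂ (Q' (-1)) := by
  have h4 : Q ⊓ LinearMap.ker (s - LinearMap.id) = Q' 1 := by
    ext u
    rw [Submodule.mem_inf, LinearMap.mem_ker,
      ← eig s 1 (by norm_num) Q (Q' 1) (h1 1 (by norm_num)) (h2 1 (by norm_num))
        (h3 1 (by norm_num)) u]
    refine and_congr_right fun _ => ?_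
    change s u - u = 0 ↔ _
    rw [sub_eq_zero, one_smul]
  have h5 : Q ⊓ LinearMap.ker (s + LinearMap.id) = Q' (-1) := by
    ext u
    rw [Submodule.mem_inf, LinearMap.mem_ker,
      ← eig s (-1) (by norm_num) Q (Q' (-1)) (h1 (-1) (by norm_num)) (h2 (-1) (by norm_num))
        (h3 (-1) (by norm_num)) u]
    refine and_congr_right fun _ => ?_
    change s u + u = 0 ↔ _
    rw [neg_smul, one_smul, add_eq_zero_iff_eq_neg]
  unfold tri
  rw [h4, h5]

theorem tri_neg (s : W →ₗ[ℂ] W) (U : Submodule ℂ W) : tri (-s) U = - tri s U := by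
  have h1 : LinearMap.ker (-s - LinearMap.id) = LinearMap.ker (s + LinearMap.id) := by
    ext x
    rw [LinearMap.mem_ker, LinearMap.mem_ker]
    change -(s x) - x = 0 ↔ s x + x = 0
    rw [← neg_eq_zero (a := s x + x), neg_add, sub_eq_add_neg]
  have h2 : LinearMap.ker (-s + LinearMap.id) = LinearMap.ker (s - LinearMap.id) := by
    ext x
    rw [LinearMap.mem_ker, LinearMap.mem_ker]
    change -(s x) + x = 0 ↔ s x - x = 0
    rw [← neg_eq_zero (a := s x - x), neg_sub, sub_eq_add_neg, add_comm]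
  unfold tri
  rw [h1, h2]
  ring

theorem tri_sign (s : W →ₗ[ℂ] W) (U : Submodule ℂ W) (j : ℕ) :
    tri ((-1 : ℂ) ^ j • s) U = (-1) ^ j * tri s U := by
  rcases Nat.even_or_odd j with h | h
  · rw [h.neg_one_pow, h.neg_one_pow, one_smul, one_mul]
  · rw [h.neg_one_pow, h.neg_one_pow, neg_smul, one_smul, tri_neg]
    ring

theorem tri_congr (s s' : W →ₗ[ℂ] W) (U : Submodule ℂ W) (h : ∀ u ∈ U, s u = s' u) :
    tri s U = tri s' U := by
  have h1 : U ⊓ LinearMap.ker (s - LinearMap.id) = U ⊓ LinearMap.ker (s' - LinearMap.id) := by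
    ext u
    rw [Submodule.mem_inf, Submodule.mem_inf, LinearMap.mem_ker, LinearMap.mem_ker]
    refine and_congr_right fun hu => ?_
    rw [LinearMap.sub_apply, LinearMap.sub_apply, h u hu]
  have h2 : U ⊓ LinearMap.ker (s + LinearMap.id) = U ⊓ LinearMap.ker (s' + LinearMap.id) := by
    ext u
    rw [Submodule.mem_inf, Submodule.mem_inf, LinearMap.mem_ker, LinearMap.mem_ker]
    refine and_congr_right fun hu => ?_
    rw [LinearMap.add_apply, LinearMap.add_apply, h u hu]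
  unfold tri
  rw [h1, h2]

end Gen

section Vec

variable {N : ℕ} {α γ : Type} {I : Ideal (Sx N)} {V : ℕ → Submodule ℂ (α → Sx N)}
  {Y : ℕ → Submodule ℂ (γ → Sx N)}

theorem SV_le (ε : ℤ) (k : ℕ) : SV ε V k ≤ PV V V k := by
  refine Submodule.span_le.2 ?_
  rintro z ⟨k1, k2, v, w, hk, hv, hw, rfl⟩
  have h1 : (fun p : α × α => v p.1 * w p.2) ∈ PV V V k :=
    Submodule.subset_span ⟨k1, k2, v, w, hk, hv, hw, rfl⟩
  have h2 : (fun p : α × α => w p.1 * v p.2) ∈ PV V V k :=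
    Submodule.subset_span ⟨k2, k1, w, v, by omega, hw, hv, rfl⟩
  exact Submodule.add_mem _ h1 (zsmul_mem h2 ε)

theorem PV_mono {α' : Type} {V1 V2 : ℕ → Submodule ℂ (α' → Sx N)} (h : ∀ k, V1 k ≤ V2 k) (k : ℕ) :
    PV V1 Y k ≤ PV V2 Y k := by
  refine Submodule.span_le.2 ?_
  rintro z ⟨k1, k2, v, w, hk, hv, hw, rfl⟩
  exact Submodule.subset_span ⟨k1, k2, v, w, hk, h k1 hv, hw, rfl⟩

theorem SV_sym {ε : ℤ} (hε : ε * ε = 1) {k : ℕ} {x : α × α → Sx N} (hx : x ∈ SV ε V k)
    (a b : α) : x (b, a) = ε • x (a, b) := by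
  unfold SV at hx
  induction hx using Submodule.span_induction with
  | mem x hx =>
    obtain ⟨k1, k2, v, w, hk, hv, hw, rfl⟩ := hx
    change v b * w a + ε • (w b * v a) = ε • (v a * w b + ε • (w a * v b))
    rw [smul_add, smul_smul, hε, one_smul, add_comm, mul_comm (w b), mul_comm (w a)]
  | zero => simp
  | add x y _ _ hx hy => rw [Pi.add_apply, Pi.add_apply, hx, hy, smul_add]
  | smul r x _ hx => rw [Pi.smul_apply, Pi.smul_apply, hx, smul_comm]

theorem sym_mem (ε : ℤ) {k : ℕ} {x : α × α → Sx N} (hx : x ∈ PV V V k) :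
    (fun p => x p + ε • x (p.2, p.1)) ∈ SV ε V k := by
  unfold PV at hx
  induction hx using Submodule.span_induction with
  | mem x hx =>
    obtain ⟨k1, k2, v, w, hk, hv, hw, rfl⟩ := hx
    refine Submodule.subset_span ⟨k1, k2, v, w, hk, hv, hw, ?_⟩
    funext p
    change v p.1 * w p.2 + ε • (v p.2 * w p.1) = v p.1 * w p.2 + ε • (w p.1 * v p.2)
    rw [mul_comm (v p.2) (w p.1)]
  | zero =>
    have h1 : (fun p : α × α => (0 : α × α → Sx N) p + ε • (0 : α × α → Sx N) (p.2, p.1)) = 0 := by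
      funext p
      simp
    rw [h1]
    exact Submodule.zero_mem _
  | add x y _ _ hx hy =>
    have h1 : (fun p : α × α => (x + y) p + ε • (x + y) (p.2, p.1)) =
        (fun p => x p + ε • x (p.2, p.1)) + fun p => y p + ε • y (p.2, p.1) := by
      funext p
      simp only [Pi.add_apply, smul_add]
      abel
    rw [h1]
    exact Submodule.add_mem _ hx hy
  | smul r x _ hx =>
    have h1 : (fun p : α × α => (r • x) p + ε • (r • x) (p.2, p.1)) =
        r • fun p => x p + ε • x (p.2, p.1) := by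
      funext p
      simp only [Pi.smul_apply, smul_add]
      rw [smul_comm ε r]
    rw [h1]
    exact Submodule.smul_mem _ _ hx

theorem mk_zsmul (ε : ℤ) (F : Sx N) :
    Ideal.Quotient.mk I (ε • F) = ε • Ideal.Quotient.mk I F := map_zsmul _ _ _

theorem tau2_sym {ε : ℤ} (hε : ε * ε = 1) {k : ℕ} {z : (α × α) × γ → Sx N}
    (hz : z ∈ PV (SV ε V) Y k) :
    tau2 α γ I (redL ((α × α) × γ) I z) = ε • redL ((α × α) × γ) I z := by
  unfold PV at hz
  induction hz using Submodule.span_induction with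
  | mem z hz =>
    obtain ⟨k1, k2, x, y, hk, hx, hy, rfl⟩ := hz
    funext p
    change Ideal.Quotient.mk I (x (p.1.2, p.1.1) * y p.2) =
      ε • Ideal.Quotient.mk I (x p.1 * y p.2)
    have h1 : x (p.1.2, p.1.1) = ε • x p.1 := SV_sym hε hx p.1.1 p.1.2
    rw [h1, smul_mul_assoc, mk_zsmul]
  | zero => simp
  | add x y _ _ hx hy => rw [map_add, map_add, hx, hy, smul_add]
  | smul r x _ hx => rw [map_smul, map_smul, hx, smul_comm]

theorem tau2_mem {ε : ℤ} {k : ℕ} {z : (α × α) × γ → Sx N} (hz : z ∈ PV (PV V V) Y k) :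
    redL ((α × α) × γ) I z + ε • tau2 α γ I (redL ((α × α) × γ) I z) ∈
      (PV (SV ε V) Y k).map (redL ((α × α) × γ) I) := by
  unfold PV at hz
  induction hz using Submodule.span_induction with
  | mem z hz =>
    obtain ⟨k1, k2, x, y, hk, hx, hy, rfl⟩ := hz
    refine ⟨fun p => (x p.1 + ε • x (p.1.2, p.1.1)) * y p.2,
      Submodule.subset_span ⟨k1, k2, fun q => x q + ε • x (q.2, q.1), y, hk, sym_mem ε hx, hy,
        rfl⟩, ?_⟩
    funext p
    change Ideal.Quotient.mk I ((x p.1 + ε • x (p.1.2, p.1.1)) * y p.2) =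
      Ideal.Quotient.mk I (x p.1 * y p.2) +
        ε • Ideal.Quotient.mk I (x (p.1.2, p.1.1) * y p.2)
    rw [add_mul, map_add, smul_mul_assoc, mk_zsmul]
  | zero =>
    rw [map_zero, map_zero, smul_zero, add_zero]
    exact Submodule.zero_mem _
  | add x y _ _ hx hy =>
    have h1 := Submodule.add_mem _ hx hy
    rw [map_add, map_add, smul_add, add_add_add_comm]
    exact h1
  | smul r x _ hx =>
    have h1 := Submodule.smul_mem _ r hx
    rw [map_smul, map_smul, smul_comm, ← smul_add]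
    exact h1

theorem tau1_sym {ε : ℤ} (hε : ε * ε = 1) {k : ℕ} {z : α × α → Sx N} (hz : z ∈ SV ε V k) :
    tau1 α I (redL (α × α) I z) = ε • redL (α × α) I z := by
  funext p
  change Ideal.Quotient.mk I (z (p.2, p.1)) = ε • Ideal.Quotient.mk I (z p)
  have h1 : z (p.2, p.1) = ε • z p := SV_sym hε hz p.1 p.2
  rw [h1, mk_zsmul]

theorem tau1_mem {ε : ℤ} {k : ℕ} {z : α × α → Sx N} (hz : z ∈ PV V V k) :
    redL (α × α) I z + ε • tau1 α I (redL (α × α) I z) ∈
      (SV ε V k).map (redL (α × α) I) := by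
  refine ⟨fun p => z p + ε • z (p.2, p.1), sym_mem ε hz, ?_⟩
  funext p
  change Ideal.Quotient.mk I (z p + ε • z (p.2, p.1)) =
    Ideal.Quotient.mk I (z p) + ε • Ideal.Quotient.mk I (z (p.2, p.1))
  rw [map_add, mk_zsmul]

theorem tauK_eq {i k : ℕ} {V' : ℕ → Submodule ℂ (α × α → Sx N)}
    {z : (α × α) × Finset (Fin (N + 1)) → Sx N} (hz : z ∈ PV V' (VT I i) k) :
    tauK α I (redL _ I z) = ((-1 : ℂ) ^ i • tau2 α (Finset (Fin (N + 1))) I) (redL _ I z) := by
  have h0 : ∀ k2 (y : Finset (Fin (N + 1)) → Sx N), y ∈ VT I i k2 → ∀ T, T.card ≠ i → y T = 0 := by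
    intro k2 y hy T hT
    unfold VT at hy
    induction hy using Submodule.span_induction with
    | mem y hy =>
      obtain ⟨a, e, F, f, ha, hF, hf, rfl⟩ := hy
      simp only [hT, dite_false]
    | zero => rfl
    | add x y _ _ hx hy => rw [Pi.add_apply, hx, hy, add_zero]
    | smul r x _ hx => rw [Pi.smul_apply, hx, smul_zero]
  have h1 : ∀ T : Finset (Fin (N + 1)), T.card ≠ i → ∀ q : α × α, z (q, T) = 0 := by
    intro T hT q
    unfold PV at hz
    induction hz using Submodule.span_induction with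
    | mem z hz =>
      obtain ⟨k1, k2, x, y, hk, hx, hy, rfl⟩ := hz
      change x q * y T = 0
      rw [h0 k2 y hy T hT, mul_zero]
    | zero => rfl
    | add x y _ _ hx hy => rw [Pi.add_apply, hx, hy, add_zero]
    | smul r x _ hx => rw [Pi.smul_apply, hx, smul_zero]
  funext p
  change (-1 : ℂ) ^ p.2.card • Ideal.Quotient.mk I (z ((p.1.2, p.1.1), p.2)) =
    (-1 : ℂ) ^ i • Ideal.Quotient.mk I (z ((p.1.2, p.1.1), p.2))
  by_cases h : p.2.card = i
  · rw [h]
  · rw [h1 p.2 h, map_zero, smul_zero, smul_zero]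

theorem tri_tau2 (k : ℕ) :
    tri (tau2 α γ I) ((PV (PV V V) Y k).map (redL ((α × α) × γ) I)) =
      (hV I (PV (SV 1 V) Y) k : ℤ) - hV I (PV (SV (-1) V) Y) k := by
  refine tri_eig (tau2 α γ I) ((PV (PV V V) Y k).map (redL ((α × α) × γ) I))
    (fun ε => (PV (SV ε V) Y k).map (redL ((α × α) × γ) I))
    (fun ε _ => Submodule.map_mono (PV_mono (SV_le ε) k)) ?_ ?_
  · rintro ε hε _ ⟨z, hz, rfl⟩
    exact tau2_sym hε hz
  · rintro ε hε _ ⟨z, hz, rfl⟩
    exact tau2_mem hz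

end Vec

end SSgAux

open SSgAux in
/-- (SSg) The eigenspaces of the swap on `V . V . Y`. -/
theorem kSSg : S_SwT → S_SSg := by
  intro _
  refine ⟨fun N α γ I V Y k => tri_tau2 k, fun N α I V k => ?_, fun N α I V i k => ?_⟩
  · refine tri_eig (tau1 α I) ((PV V V k).map (redL (α × α) I))
      (fun ε => (SV ε V k).map (redL (α × α) I)) (fun ε _ => Submodule.map_mono (SV_le ε k)) ?_ ?_
    · rintro ε hε _ ⟨z, hz, rfl⟩
      exact tau1_sym hε hz
    · rintro ε hε _ ⟨z, hz, rfl⟩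
      exact tau1_mem hz
  · rw [tri_congr (tauK α I) ((-1 : ℂ) ^ i • tau2 α (Finset (Fin (N + 1))) I), tri_sign, tri_tau2]
    rintro _ ⟨z, hz, rfl⟩
    exact tauK_eq hz

end Pool.Agent.Lib.MP_776403_ag.SD
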