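import Pool.Agent.Lib.MP_776403_ag.SD.K.SpecS

/-!
# THEOREM SD, part K, module STB: basis of the degree m part of a tensor product
-/

set_option autoImplicit false

open MvPolynomial
open scoped TensorProduct

noncomputable section

namespace Pool.Agent.Lib.MP_776403_ag.SD

variable {N : ℕ}

/-- Dual functionals of an independent family. -/
private theorem stb_dual {ι M : Type} [DecidableEq ι] [AddCommGroup M] [Module ℂ M] {b : ι → M}
    (hb : LinearIndependent ℂ b) : ∃ F : ι → (M →ₗ[ℂ] ℂ), ∀ i j, F i (b j) = if j = i then 1 else 0 := by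
  obtain ⟨g, hg⟩ := LinearMap.exists_leftInverse_of_injective
    (Finsupp.linearCombination ℂ b) (LinearMap.ker_eq_bot.2 hb)
  refine ⟨fun i => (Finsupp.lapply i).comp g, fun i j => ?_⟩
  have h1 : g (b j) = Finsupp.single j 1 := by
    have h2 := LinearMap.congr_fun hg (Finsupp.single j 1)
    rw [LinearMap.comp_apply, Finsupp.linearCombination_single, one_smul] at h2
    exact h2
  rw [LinearMap.comp_apply, h1, Finsupp.lapply_apply, Finsupp.single_apply]

/-- A functional on vectors is the sum of its coordinates. -/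
private theorem stb_coord {α M : Type} [Fintype α] [DecidableEq α] [AddCommGroup M] [Module ℂ M]
    (F : (α → M) →ₗ[ℂ] ℂ) (v : α → M) :
    F v = ∑ a, F (Pi.single a (v a)) := by
  rw [← map_sum, Finset.univ_sum_single]

/-- `ℂ[x, y] → S / I ⊗ S / J`. -/
private def stbA (I J : Ideal (Sx N)) : Rx N →ₐ[ℂ] (Sx N ⧸ I) ⊗[ℂ] (Sx N ⧸ J) :=
  aeval (Sum.elim
    (fun i => (Ideal.Quotient.mk I (X i) : Sx N ⧸ I) ⊗ₜ[ℂ] (1 : Sx N ⧸ J))
    (fun i => (1 : Sx N ⧸ I) ⊗ₜ[ℂ] (Ideal.Quotient.mk J (X i) : Sx N ⧸ J)))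

private theorem stbA_ix (I J : Ideal (Sx N)) (f : Sx N) :
    stbA I J (ix f) = (Ideal.Quotient.mk I f : Sx N ⧸ I) ⊗ₜ[ℂ] (1 : Sx N ⧸ J) := by
  have h : (stbA I J).comp ix = (Algebra.TensorProduct.includeLeft (R := ℂ) (S := ℂ)
      (A := Sx N ⧸ I) (B := Sx N ⧸ J)).comp (Ideal.Quotient.mkₐ ℂ I) := by
    refine MvPolynomial.algHom_ext fun i => ?_
    rw [AlgHom.comp_apply, AlgHom.comp_apply]
    unfold stbA ix
    rw [rename_X, aeval_X]
    rfl
  exact AlgHom.congr_fun h f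

private theorem stbA_iy (I J : Ideal (Sx N)) (f : Sx N) :
    stbA I J (iy f) = (1 : Sx N ⧸ I) ⊗ₜ[ℂ] (Ideal.Quotient.mk J f : Sx N ⧸ J) := by
  have h : (stbA I J).comp iy = (Algebra.TensorProduct.includeRight (R := ℂ)
      (A := Sx N ⧸ I) (B := Sx N ⧸ J)).comp (Ideal.Quotient.mkₐ ℂ J) := by
    refine MvPolynomial.algHom_ext fun i => ?_
    rw [AlgHom.comp_apply, AlgHom.comp_apply]
    unfold stbA iy
    rw [rename_X, aeval_X]
    rfl
  exact AlgHom.congr_fun h f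

private theorem stbA_cc (I J : Ideal (Sx N)) (a : Rx N) (ha : a ∈ cc I J) : stbA I J a = 0 := by
  have h1 : cc I J ≤ RingHom.ker (stbA I J) := by
    refine sup_le (Ideal.map_le_iff_le_comap.2 fun F hF => ?_)
      (Ideal.map_le_iff_le_comap.2 fun F hF => ?_)
    · change stbA I J (ix F) = 0
      rw [stbA_ix, Ideal.Quotient.eq_zero_iff_mem.2 hF, TensorProduct.zero_tmul]
    · change stbA I J (iy F) = 0
      rw [stbA_iy, Ideal.Quotient.eq_zero_iff_mem.2 hF, TensorProduct.tmul_zero]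
  exact h1 ha

/-- `ℂ[x, y] / (I(x) + J(y)) → S / I ⊗ S / J`. -/
private def stbT (I J : Ideal (Sx N)) : CR I J →ₐ[ℂ] (Sx N ⧸ I) ⊗[ℂ] (Sx N ⧸ J) :=
  Ideal.Quotient.liftₐ (cc I J) (stbA I J) (stbA_cc I J)

/-- The functional `φ ⊗ ψ`. -/
private def stbE (I J : Ideal (Sx N)) (φ : (Sx N ⧸ I) →ₗ[ℂ] ℂ) (ψ : (Sx N ⧸ J) →ₗ[ℂ] ℂ) :
    CR I J →ₗ[ℂ] ℂ :=
  ((LinearMap.mul' ℂ ℂ).comp (TensorProduct.map φ ψ)).comp (stbT I J).toLinearMap

private theorem stbE_mk (I J : Ideal (Sx N)) (φ : (Sx N ⧸ I) →ₗ[ℂ] ℂ) (ψ : (Sx N ⧸ J) →ₗ[ℂ] ℂ)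
    (f g : Sx N) : stbE I J φ ψ (Ideal.Quotient.mk (cc I J) (ix f * iy g)) =
      φ (Ideal.Quotient.mk I f) * ψ (Ideal.Quotient.mk J g) := by
  have h : stbT I J (Ideal.Quotient.mk (cc I J) (ix f * iy g)) =
      (Ideal.Quotient.mk I f : Sx N ⧸ I) ⊗ₜ[ℂ] (Ideal.Quotient.mk J g : Sx N ⧸ J) := by
    change stbA I J (ix f * iy g) = _
    rw [map_mul, stbA_ix, stbA_iy, Algebra.TensorProduct.tmul_mul_tmul, mul_one, one_mul]
  unfold stbE
  rw [LinearMap.comp_apply, LinearMap.comp_apply]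
  rw [show (stbT I J).toLinearMap (Ideal.Quotient.mk (cc I J) (ix f * iy g)) =
    (Ideal.Quotient.mk I f : Sx N ⧸ I) ⊗ₜ[ℂ] (Ideal.Quotient.mk J g : Sx N ⧸ J) from h]
  rw [TensorProduct.map_tmul, LinearMap.mul'_apply]

/-- The pairing of functionals on vectors. -/
private theorem stb_pair {α β : Type} [Fintype α] [Fintype β] [DecidableEq α] [DecidableEq β]
    (I J : Ideal (Sx N)) (F : (α → Sx N ⧸ I) →ₗ[ℂ] ℂ) (G : (β → Sx N ⧸ J) →ₗ[ℂ] ℂ) :
    ∃ E : (α × β → CR I J) →ₗ[ℂ] ℂ, ∀ (v : α → Sx N) (w : β → Sx N),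
      E (fun p => Ideal.Quotient.mk (cc I J) (ix (v p.1) * iy (w p.2))) =
        F (redL α I v) * G (redL β J w) := by
  refine ⟨∑ p : α × β, (stbE I J (F.comp (LinearMap.single ℂ (fun _ : α => Sx N ⧸ I) p.1))
    (G.comp (LinearMap.single ℂ (fun _ : β => Sx N ⧸ J) p.2))).comp (LinearMap.proj p),
    fun v w => ?_⟩
  rw [stb_coord F, stb_coord G, Finset.sum_mul_sum, ← Finset.sum_product', LinearMap.sum_apply]
  refine Finset.sum_congr rfl fun p _ => ?_
  rw [LinearMap.comp_apply, LinearMap.proj_apply, stbE_mk]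
  rfl

/-- Homogeneous relations modulo `I` split. -/
private theorem stb_split {α : Type} (I : Ideal (Sx N)) (hI : IsHom I) {m : ℕ}
    (v : Fin m → (α → Sx N)) (hv : ∀ k a, (v k a).IsHomogeneous (k : ℕ))
    (h : ∑ k, redL α I (v k) = 0) (k : Fin m) : redL α I (v k) = 0 := by
  funext a
  have h1 : ∑ k, v k a ∈ I := by
    have h2 := congrFun h a
    rw [Finset.sum_apply] at h2
    rw [← Ideal.Quotient.eq_zero_iff_mem, map_sum]
    exact h2
  have h3 : homogeneousComponent (k : ℕ) (∑ k, v k a) = v k a := by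
    rw [map_sum, Finset.sum_eq_single k]
    · exact homogeneousComponent_of_mem (hv k a) |>.trans (if_pos rfl)
    · intro l _ hl
      rw [homogeneousComponent_of_mem (hv l a), if_neg]
      intro h
      exact hl (Fin.ext h.symm)
    · intro hk
      exact absurd (Finset.mem_univ k) hk
  have h4 := hI _ h1 (k : ℕ)
  rw [h3] at h4
  exact Ideal.Quotient.eq_zero_iff_mem.2 h4

/-- Independent families in every degree form an independent family. -/
private theorem stb_all {α : Type} (I : Ideal (Sx N)) (hI : IsHom I)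
    (V : ℕ → Submodule ℂ (α → Sx N)) (hG : GV V) (n : ℕ → ℕ)
    (v : ∀ k, Fin (n k) → (α → Sx N)) (hv1 : ∀ k i, v k i ∈ V k)
    (hv3 : ∀ k, LinearIndependent ℂ fun i => redL α I (v k i)) (m : ℕ) :
    LinearIndependent ℂ (fun s : (Σ k : Fin m, Fin (n k)) => redL α I (v s.1 s.2)) := by
  rw [Fintype.linearIndependent_iff]
  intro c hc
  have h1 : ∑ k : Fin m, redL α I (∑ i, c ⟨k, i⟩ • v k i) = 0 := by
    rw [← hc, Fintype.sum_sigma]
    refine Finset.sum_congr rfl fun k _ => ?_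
    rw [map_sum]
    exact Finset.sum_congr rfl fun i _ => map_smul _ _ _
  have h2 := stb_split I hI (fun k : Fin m => ∑ i, c ⟨k, i⟩ • v k i) (fun k a =>
    hG.hom k _ (Submodule.sum_mem _ fun i _ => Submodule.smul_mem _ _ (hv1 k i)) a) h1
  rintro ⟨k, i⟩
  have h3 := h2 k
  rw [map_sum] at h3
  have h4 : ∑ i, c ⟨k, i⟩ • redL α I (v k i) = 0 := by
    rw [← h3]
    exact Finset.sum_congr rfl fun i _ => (map_smul _ _ _).symm
  exact Fintype.linearIndependent_iff.1 (hv3 k) (fun i => c ⟨k, i⟩) h4 i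

/-- `S / I → ℂ[x, y] / (I(x) + J(y))`. -/
private def stbX (I J : Ideal (Sx N)) : Sx N ⧸ I →ₐ[ℂ] CR I J :=
  Ideal.Quotient.liftₐ I ((Ideal.Quotient.mkₐ ℂ (cc I J)).comp ix) (fun _ ha =>
    Ideal.Quotient.eq_zero_iff_mem.2 (Ideal.mem_sup_left (Ideal.mem_map_of_mem _ ha)))

private def stbY (I J : Ideal (Sx N)) : Sx N ⧸ J →ₐ[ℂ] CR I J :=
  Ideal.Quotient.liftₐ J ((Ideal.Quotient.mkₐ ℂ (cc I J)).comp iy) (fun _ ha =>
    Ideal.Quotient.eq_zero_iff_mem.2 (Ideal.mem_sup_right (Ideal.mem_map_of_mem _ ha)))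

/-- The tensor product of two vectors. -/
private def stbB (α β : Type) (I J : Ideal (Sx N)) :
    (α → Sx N ⧸ I) →ₗ[ℂ] (β → Sx N ⧸ J) →ₗ[ℂ] (α × β → CR I J) :=
  LinearMap.mk₂ ℂ (fun x y p => stbX I J (x p.1) * stbY I J (y p.2))
    (fun x x' y => by funext p; simp only [Pi.add_apply, map_add, add_mul])
    (fun c x y => by funext p; simp only [Pi.smul_apply, map_smul, smul_mul_assoc])
    (fun x y y' => by funext p; simp only [Pi.add_apply, map_add, mul_add])
    (fun c x y => by funext p; simp only [Pi.smul_apply, map_smul, mul_smul_comm])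

private theorem stbB_red {α β : Type} (I J : Ideal (Sx N)) (v : α → Sx N) (w : β → Sx N) :
    stbB α β I J (redL α I v) (redL β J w) =
      fun p => Ideal.Quotient.mk (cc I J) (ix (v p.1) * iy (w p.2)) := by
  funext p
  rw [map_mul]
  rfl

/-- STB. -/
theorem kSTB : S_STB := by
  classical
  intro N α β _ _ I J hI hJ V W hV1 hW1 n n' v w hv1 hv4 hv2 hw1 hw4 hw2 m
  have := Fintype.ofFinite α
  have := Fintype.ofFinite β
  have hv3 := stb_all I hI V hV1 n v hv1 hv4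
  have hw3 := stb_all J hJ W hW1 n' w hw1 hw4
  refine ⟨?_, ?_⟩
  · rw [Fintype.linearIndependent_iff]
    intro c hc s0
    obtain ⟨F, hF⟩ := stb_dual (hv3 (m + 1))
    obtain ⟨G, hG⟩ := stb_dual (hw3 (m + 1))
    obtain ⟨E, hE⟩ := stb_pair I J (F s0.1.1) (G s0.1.2)
    have h1 := congrArg E hc
    rw [map_sum, map_zero, Finset.sum_eq_single s0] at h1
    · rw [map_smul, hE] at h1
      have h2 := hF s0.1.1 s0.1.1
      have h3 := hG s0.1.2 s0.1.2
      rw [if_pos rfl] at h2 h3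
      rw [h2, h3, mul_one, smul_eq_mul, mul_one] at h1
      exact h1
    · intro s _ hs
      rw [map_smul, hE]
      have h2 := hF s0.1.1 s.1.1
      have h3 := hG s0.1.2 s.1.2
      rw [h2, h3]
      by_cases h6 : s.1.1 = s0.1.1
      · by_cases h7 : s.1.2 = s0.1.2
        · exact absurd (Subtype.ext (Prod.ext h6 h7)) hs
        · rw [if_neg h7, mul_zero, smul_zero]
      · rw [if_neg h6, zero_mul, smul_zero]
    · intro h
      exact absurd (Finset.mem_univ s0) h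
  · refine le_antisymm (Submodule.span_le.2 ?_) (Submodule.span_le.2 ?_)
    · rintro _ ⟨⟨⟨⟨k, i⟩, ⟨l, j⟩⟩, hq⟩, rfl⟩
      exact Submodule.subset_span ⟨k, l, v k i, w l j, hq, hv1 _ _, hw1 _ _, rfl⟩
    · rintro z ⟨k1, k2, v', w', hk, hv', hw', rfl⟩
      have h1 : (redL α I v') ∈ Submodule.span ℂ (Set.range fun i => redL α I (v k1 i)) := by
        rw [hv2]
        exact Submodule.mem_map_of_mem hv'
      have h2 : (redL β J w') ∈ Submodule.span ℂ (Set.range fun i => redL β J (w k2 i)) := by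
        rw [hw2]
        exact Submodule.mem_map_of_mem hw'
      have h3 := Submodule.apply_mem_map₂ (stbB α β I J) h1 h2
      rw [Submodule.map₂_span_span, stbB_red] at h3
      refine Submodule.span_mono ?_ h3
      rintro _ ⟨_, ⟨i, rfl⟩, _, ⟨j, rfl⟩, rfl⟩
      have hk1 : k1 < m + 1 := by lia
      have hk2 : k2 < m + 1 := by lia
      exact ⟨⟨(⟨⟨k1, hk1⟩, i⟩, ⟨⟨k2, hk2⟩, j⟩), hk⟩, (stbB_red I J _ _).symm⟩

end Pool.Agent.Lib.MP_776403_ag.SD
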