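import Pool.Agent.Lib.MP_776403_ag.SD.K.SpecS

/-!
# THEOREM SD, part K, module STau: the swap on `Λ^j N^* . Λ^j N^*` (helper24)
-/

set_option autoImplicit false

open MvPolynomial TensorProduct

noncomputable section

namespace Pool.Agent.Lib.MP_776403_ag.SD

namespace STauAux

section Gen

variable {W W' : Type} [AddCommGroup W] [Module ℂ W] [AddCommGroup W'] [Module ℂ W']

theorem finrank_map_inj (ψ : W →ₗ[ℂ] W') (P : Submodule ℂ W) (hinj : ∀ u ∈ P, ψ u = 0 → u = 0) :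
    Module.finrank ℂ (P.map ψ) = Module.finrank ℂ P := by
  have h1 : Function.Injective (ψ.domRestrict P) := by
    rw [← LinearMap.ker_eq_bot, LinearMap.ker_eq_bot']
    intro x hx
    exact Subtype.ext (hinj x.1 x.2 hx)
  have h2 := LinearMap.finrank_range_of_inj h1
  rw [← h2, LinearMap.range_domRestrict]

theorem tri_conj (ψ : W →ₗ[ℂ] W') (s : W →ₗ[ℂ] W) (s' : W' →ₗ[ℂ] W') (U : Submodule ℂ W)
    (hinj : ∀ u ∈ U, ψ u = 0 → u = 0) (hs : ∀ u ∈ U, s u ∈ U)
    (hψ : ∀ u ∈ U, ψ (s u) = s' (ψ u)) : tri s U = tri s' (U.map ψ) := by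
  have h1 : (U ⊓ LinearMap.ker (s - LinearMap.id)).map ψ =
      U.map ψ ⊓ LinearMap.ker (s' - LinearMap.id) := by
    apply le_antisymm
    · rintro _ ⟨u, ⟨hu, hu2⟩, rfl⟩
      refine ⟨⟨u, hu, rfl⟩, ?_⟩
      have h3 : s u - u = 0 := hu2
      change s' (ψ u) - ψ u = 0
      rw [← hψ u hu, ← map_sub, h3, map_zero]
    · rintro _ ⟨⟨u, hu, rfl⟩, hu2⟩
      have h3 : s' (ψ u) - ψ u = 0 := hu2
      rw [← hψ u hu, ← map_sub] at h3
      exact ⟨u, ⟨hu, hinj _ (U.sub_mem (hs u hu) hu) h3⟩, rfl⟩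
  have h2 : (U ⊓ LinearMap.ker (s + LinearMap.id)).map ψ =
      U.map ψ ⊓ LinearMap.ker (s' + LinearMap.id) := by
    apply le_antisymm
    · rintro _ ⟨u, ⟨hu, hu2⟩, rfl⟩
      refine ⟨⟨u, hu, rfl⟩, ?_⟩
      have h3 : s u + u = 0 := hu2
      change s' (ψ u) + ψ u = 0
      rw [← hψ u hu, ← map_add, h3, map_zero]
    · rintro _ ⟨⟨u, hu, rfl⟩, hu2⟩
      have h3 : s' (ψ u) + ψ u = 0 := hu2
      rw [← hψ u hu, ← map_add] at h3
      exact ⟨u, ⟨hu, hinj _ (U.add_mem (hs u hu) hu) h3⟩, rfl⟩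
  have h3 := finrank_map_inj ψ (U ⊓ LinearMap.ker (s - LinearMap.id))
    fun u hu => hinj u (Submodule.mem_inf.1 hu).1
  have h4 := finrank_map_inj ψ (U ⊓ LinearMap.ker (s + LinearMap.id))
    fun u hu => hinj u (Submodule.mem_inf.1 hu).1
  unfold tri
  rw [← h1, ← h2, h3, h4]

theorem tri_neg (s : W →ₗ[ℂ] W) (U : Submodule ℂ W) : tri (-s) U = - tri s U := by
  have h1 : LinearMap.ker (-s - LinearMap.id) = LinearMap.ker (s + LinearMap.id) := by
    ext x
    rw [LinearMap.mem_ker, LinearMap.mem_ker]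
    change -(s x) - x = 0 ↔ s x + x = 0
    rw [← neg_eq_zero (a := s x + x), neg_add, sub_eq_add_neg]
  have h2 : LinearMap.ker (-s + LinearMap.id) = LinearMap.ker (s - LinearMap.id) := by
    ext x
    rw [LinearMap.mem_ker, LinearMap.mem_ker]
    change -(s x) + x = 0 ↔ s x - x = 0
    rw [← neg_eq_zero (a := s x - x), neg_sub, sub_eq_add_neg, add_comm]
  unfold tri
  rw [h1, h2]
  ring

theorem tri_sign (s : W →ₗ[ℂ] W) (U : Submodule ℂ W) (j : ℕ) :
    tri ((-1 : ℂ) ^ j • s) U = (-1) ^ j * tri s U := by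
  rcases Nat.even_or_odd j with h | h
  · rw [h.neg_one_pow, h.neg_one_pow, one_smul, one_mul]
  · rw [h.neg_one_pow, h.neg_one_pow, neg_smul, one_smul, tri_neg]
    ring

end Gen

theorem sign_sumComm (j : ℕ) :
    Equiv.Perm.sign (Equiv.sumComm (Fin j) (Fin j)) = (-1) ^ j := by
  have h1 : Equiv.sumComm (Fin j) (Fin j) =
      ((Equiv.boolProdEquivSum (Fin j)).symm.trans
        (Equiv.prodCongrLeft (fun _ : Fin j => Equiv.boolNot))).trans
          (Equiv.boolProdEquivSum (Fin j)) := by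
    refine Equiv.ext fun x => ?_
    rcases x with x | x <;> rfl
  have h2 : Equiv.Perm.sign Equiv.boolNot = -1 := by decide
  rw [h1, Equiv.Perm.sign_symm_trans_trans, Equiv.Perm.sign_prodCongrLeft, Finset.prod_congr rfl
    fun _ _ => h2, Finset.prod_const, Finset.card_univ, Fintype.card_fin]

/-- The exchange of the two blocks. -/
def bsw (j : ℕ) : Equiv.Perm (Fin (j + j)) :=
  (finSumFinEquiv.symm.trans (Equiv.sumComm (Fin j) (Fin j))).trans finSumFinEquiv

theorem sign_bsw (j : ℕ) : Equiv.Perm.sign (bsw j) = (-1) ^ j := by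
  unfold bsw
  rw [Equiv.Perm.sign_symm_trans_trans, sign_sumComm]

theorem bsw_left (j : ℕ) (i : Fin j) : bsw j (Fin.castAdd j i) = Fin.natAdd j i := by
  change finSumFinEquiv (Sum.swap (finSumFinEquiv.symm (Fin.castAdd j i))) = _
  rw [finSumFinEquiv_symm_apply_castAdd]
  rfl

theorem bsw_right (j : ℕ) (i : Fin j) : bsw j (Fin.natAdd j i) = Fin.castAdd j i := by
  change finSumFinEquiv (Sum.swap (finSumFinEquiv.symm (Fin.natAdd j i))) = _
  rw [finSumFinEquiv_symm_apply_natAdd]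
  rfl

variable {N : ℕ} {I : Ideal (Sx N)}

/-- The elements of `LN` are alternating. -/
theorem LN_alt {n k : ℕ} {u : (Fin n → Fin (N + 1) × Fin 2) → Sx N ⧸ I} (hu : u ∈ LN I n k)
    (σ : Equiv.Perm (Fin n)) (α : Fin n → Fin (N + 1) × Fin 2) :
    u (α ∘ σ) = ((Equiv.Perm.sign σ : ℤ) : ℂ) • u α := by
  unfold LN at hu
  induction hu using Submodule.span_induction with
  | mem x hx =>
    obtain ⟨a, e, F, f, v, ha, hF, hf, rfl⟩ := hx
    change Ideal.Quotient.mk I (a * Matrix.det (Matrix.of fun i m =>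
      C (v i (α (σ m)).2) * pderiv (α (σ m)).1 (F i))) = ((Equiv.Perm.sign σ : ℤ) : ℂ) •
      Ideal.Quotient.mk I (a * Matrix.det (Matrix.of fun i m =>
        C (v i (α m).2) * pderiv (α m).1 (F i)))
    have h1 := Matrix.det_permute' σ (Matrix.of fun i m =>
      C (v i (α m).2) * pderiv (α m).1 (F i))
    have h2 : (Matrix.of fun i m => C (v i (α (σ m)).2) * pderiv (α (σ m)).1 (F i)) =
        (Matrix.of fun i m => C (v i (α m).2) * pderiv (α m).1 (F i)).submatrix id σ := rfl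
    rw [h2, h1]
    rcases Int.units_eq_one_or (Equiv.Perm.sign σ) with h | h
    · rw [h]
      simp
    · rw [h]
      simp
  | zero => simp
  | add x y _ _ hx hy => rw [Pi.add_apply, Pi.add_apply, hx, hy, smul_add]
  | smul r x _ hx => rw [Pi.smul_apply, Pi.smul_apply, hx, smul_comm]

theorem mP_flip : ∀ x : Fin 2, mP x (1 - x) = 1 := by
  intro x
  fin_cases x <;> simp [mP]

theorem mP_ne : ∀ x y : Fin 2, y ≠ 1 - x → mP x y = 0 := by
  intro x y h
  fin_cases x <;> fin_cases y <;> simp_all [mP]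

theorem aH_mP (n : ℕ) (u : (Fin n → Fin (N + 1) × Fin 2) → Sx N ⧸ I)
    (α : Fin n → Fin (N + 1) × Fin 2) :
    aH I n mP u α = u (fun m => ((α m).1, 1 - (α m).2)) := by
  change ∑ η : Fin n → Fin 2, (∏ m, mP (α m).2 (η m)) • u (fun m => ((α m).1, η m)) = _
  rw [Finset.sum_eq_single (fun m => 1 - (α m).2)]
  · rw [Finset.prod_eq_one fun m _ => mP_flip _, one_smul]
  · intro η _ hη
    obtain ⟨m, hm⟩ := Function.ne_iff.1 hη
    rw [Finset.prod_eq_zero (Finset.mem_univ m) (mP_ne _ _ hm), zero_smul]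
  · intro h
    exact absurd (Finset.mem_univ _) h

theorem card_flip {n : ℕ} (α : Fin n → Fin (N + 1) × Fin 2) :
    (Finset.univ.filter fun m => (1 - (α m).2 : Fin 2) = 1).card +
      (Finset.univ.filter fun m => (α m).2 = 1).card = n := by
  have h1 : (Finset.univ.filter fun m => (1 - (α m).2 : Fin 2) = 1) =
      Finset.univ.filter fun m => ¬ (α m).2 = 1 := by
    refine Finset.filter_congr fun m _ => ?_
    have h2 : ∀ x : Fin 2, (1 - x = 1 ↔ ¬ x = 1) := by decide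
    exact h2 _
  rw [h1, add_comm, Finset.card_filter_add_card_filter_not, Finset.card_univ, Fintype.card_fin]

theorem psi_s {j k : ℕ} {u : (Fin (j + j) → Fin (N + 1) × Fin 2) → Sx N ⧸ I}
    (hu : u ∈ LN I (j + j) k) :
    psiB I j j (aH I (j + j) mP u) =
      ((-1 : ℂ) ^ j • tau1 (Fin j → Fin (N + 1)) I) (psiB I j j u) := by
  funext p
  change aH I (j + j) mP u (Fin.append (fun m => (p.1 m, 0)) (fun m => (p.2 m, 1))) =
    (-1 : ℂ) ^ j • u (Fin.append (fun m => (p.2 m, 0)) (fun m => (p.1 m, 1)))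
  rw [aH_mP]
  have h1 : (fun m => (((Fin.append (fun m => (p.1 m, (0 : Fin 2)))
      (fun m => (p.2 m, (1 : Fin 2))) : Fin (j + j) → Fin (N + 1) × Fin 2) m).1,
      1 - ((Fin.append (fun m => (p.1 m, (0 : Fin 2)))
      (fun m => (p.2 m, (1 : Fin 2))) : Fin (j + j) → Fin (N + 1) × Fin 2) m).2)) =
      (Fin.append (fun m => (p.2 m, (0 : Fin 2))) (fun m => (p.1 m, (1 : Fin 2))) :
        Fin (j + j) → Fin (N + 1) × Fin 2) ∘ bsw j := by
    funext m
    refine Fin.addCases (fun i => ?_) (fun i => ?_) m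
    · rw [Function.comp_apply, bsw_left, Fin.append_left, Fin.append_right]
      rfl
    · rw [Function.comp_apply, bsw_right, Fin.append_left, Fin.append_right]
      rfl
  rw [h1, LN_alt hu, sign_bsw]
  congr 1
  push_cast
  rfl

end STauAux

open STauAux in
/-- (STau) The swap on `Λ^j N^* . Λ^j N^*`. -/
theorem kSTau : S_SDim → S_SSg → S_SAct → S_STau := by
  intro hDim hSg hAct N I j k
  obtain ⟨hinj, hmap, -⟩ := hDim N I j j k
  have hs : ∀ u ∈ LB I (j + j) j k, aH I (j + j) mP u ∈ LB I (j + j) j k := by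
    intro u hu
    refine ⟨(hAct N I (j + j)).2.2.1 mP k u hu.1, fun α hα => ?_⟩
    rw [aH_mP]
    refine hu.2 _ fun h => hα ?_
    have h1 := card_flip α
    change (Finset.univ.filter fun m => (1 - (α m).2 : Fin 2) = 1).card = j at h
    omega
  rw [tri_conj (psiB I j j) (aH I (j + j) mP) ((-1 : ℂ) ^ j • tau1 (Fin j → Fin (N + 1)) I)
    (LB I (j + j) j k) hinj hs fun u hu => psi_s hu.1, hmap, tri_sign, hSg.2.1 N _ I (VL I j) k]

end Pool.Agent.Lib.MP_776403_ag.SD
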