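import Pool.Agent.Lib.MP_776403_ag.SD.K.SpecS

/-!
# THEOREM SD, part K, statement (SwT): the swap of `x` and `y`
-/

set_option autoImplicit false

open MvPolynomial TensorProduct

noncomputable section

namespace Pool.Agent.Lib.MP_776403_ag.SD

namespace SwTAux

variable {N : ℕ}

theorem sw0_sw0 (F : Rx N) : sw0 (sw0 F) = F := by
  unfold sw0
  rw [rename_rename]
  have h : (Sum.swap ∘ Sum.swap : Fin (N + 1) ⊕ Fin (N + 1) → Fin (N + 1) ⊕ Fin (N + 1)) = id := by
    funext a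
    simp
  rw [h, rename_id_apply]

theorem swC_swC (I : Ideal (Sx N)) (c : CR I I) : swC I (swC I c) = c := by
  obtain ⟨F, rfl⟩ := Ideal.Quotient.mk_surjective c
  rw [swC_mk, swC_mk, sw0_sw0]

theorem sw0_zz (k : Fin (N + 1)) : sw0 (zz k : Rx N) = -zz k := by
  unfold sw0 zz
  rw [map_sub, rename_X, rename_X]
  simp

theorem dgS_sw0 (F : Rx N) : dgS (sw0 F) = dgS F := by
  have h : (dgS (N := N)).comp sw0 = dgS := by
    refine MvPolynomial.algHom_ext fun k => ?_
    rcases k with k | k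
    · simp [dgS, sw0]
    · simp [dgS, sw0]
  exact DFunLike.congr_fun h F

theorem dg_mk {I J : Ideal (Sx N)} (h : I ≤ J) (F : Rx N) :
    dg h (Ideal.Quotient.mk (cc I J) F) = Ideal.Quotient.mk J (dgS F) := rfl

theorem dg_swC (I : Ideal (Sx N)) (c : CR I I) : dg (le_refl I) (swC I c) = dg (le_refl I) c := by
  obtain ⟨F, rfl⟩ := Ideal.Quotient.mk_surjective c
  rw [swC_mk, dg_mk, dg_mk, dgS_sw0]

theorem smul_CR {I J : Ideal (Sx N)} (r : Rx N) (c : CR I J) :
    r • c = Ideal.Quotient.mk (cc I J) r * c := by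
  obtain ⟨F, rfl⟩ := Ideal.Quotient.mk_surjective c
  rfl

end SwTAux

open SwTAux in
theorem kSwT : S_SwT := by
  intro N α I
  refine ⟨?_, ?_, ?_, ?_, ?_, ?_, ?_⟩
  · intro c
    funext p
    change swC I (swC I (c (p.1, p.2))) = c p
    rw [swC_swC]
  · intro k c
    funext p
    change swC I ((zz k : Rx N) • c (p.2, p.1)) = -((zz k : Rx N) • swC I (c (p.2, p.1)))
    have h1 : swC I ((zz k : Rx N) • c (p.2, p.1)) =
        (sw0 (zz k) : Rx N) • swC I (c (p.2, p.1)) := by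
      rw [smul_CR, smul_CR, map_mul, swC_mk]
    rw [h1, sw0_zz, neg_smul]
  · intro V m c hc
    have h : (TPf I I V V m).map (swT α I) ≤ TPf I I V V m := by
      unfold TPf
      rw [Submodule.map_span_le]
      rintro z ⟨k1, k2, v, w, hk, hv, hw, rfl⟩
      refine Submodule.subset_span ⟨k2, k1, w, v, by omega, hw, hv, ?_⟩
      funext p
      change swC I (Ideal.Quotient.mk (cc I I) (ix (v p.2) * iy (w p.1))) = _
      rw [swC_mk, map_mul, sw0_ix, sw0_iy, mul_comm]
    exact h ⟨c, hc, rfl⟩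
  · intro ω
    funext p
    change dg (le_refl I) ((tw (swT α I) ω) p.2 p.1) =
      (-1 : ℂ) ^ p.2.card • dg (le_refl I) (ω p.2 (p.1.2, p.1.1))
    have h : (tw (swT α I) ω) p.2 p.1 = (-1 : ℂ) ^ p.2.card • swC I (ω p.2 (p.1.2, p.1.1)) := by
      rfl
    rw [h, map_smul, dg_swC]
  · intro u
    funext p
    change (-1 : ℂ) ^ p.2.card • ((-1 : ℂ) ^ p.2.card • u ((p.1.1, p.1.2), p.2)) = u p
    rw [smul_smul, ← mul_pow]
    simp
  · intro γ u
    rfl
  · intro u
    rfl

end Pool.Agent.Lib.MP_776403_ag.SD
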