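import Pool.Agent.Lib.MP_776403_ag.SD.K.SpecS

/-!
# THEOREM SD, part K: SDim, the weight spaces are products of exterior powers
-/

set_option autoImplicit false

open MvPolynomial TensorProduct

noncomputable section

namespace Pool.Agent.Lib.MP_776403_ag.SD

namespace SDimAux

variable {N : ℕ}

/-! ### Determinants -/

/-- Block diagonal matrices. -/
theorem detBlk {R : Type} [CommRing R] {a b : ℕ} (M : Matrix (Fin (a + b)) (Fin (a + b)) R)
    (h1 : ∀ i j, M (Fin.castAdd b i) (Fin.natAdd a j) = 0)
    (h2 : ∀ i j, M (Fin.natAdd a i) (Fin.castAdd b j) = 0) :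
    M.det = (Matrix.of fun i j : Fin a => M (Fin.castAdd b i) (Fin.castAdd b j)).det *
      (Matrix.of fun i j : Fin b => M (Fin.natAdd a i) (Fin.natAdd a j)).det := by
  rw [← Matrix.det_submatrix_equiv_self (finSumFinEquiv : Fin a ⊕ Fin b ≃ Fin (a + b)) M]
  have h3 : M.submatrix (finSumFinEquiv : Fin a ⊕ Fin b ≃ Fin (a + b)) finSumFinEquiv =
      Matrix.fromBlocks (Matrix.of fun i j : Fin a => M (Fin.castAdd b i) (Fin.castAdd b j)) 0 0
        (Matrix.of fun i j : Fin b => M (Fin.natAdd a i) (Fin.natAdd a j)) := by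
    ext i j
    rcases i with i | i <;> rcases j with j | j
    · simp
    · simp [h1]
    · simp [h2]
    · simp
  rw [h3, Matrix.det_fromBlocks_zero₂₁]

/-- Labels of rows and columns. -/
theorem detZ {R : Type} [CommRing R] {n : ℕ} (M : Matrix (Fin n) (Fin n) R) (s c : Fin n → Fin 2)
    (h : ∀ i m, s i ≠ c m → M i m = 0)
    (hc : (Finset.univ.filter fun m => c m = 1).card ≠
      (Finset.univ.filter fun m => s m = 1).card) : M.det = 0 := by
  rw [Matrix.det_apply]
  refine Finset.sum_eq_zero fun σ _ => ?_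
  by_cases h1 : ∀ m, s (σ m) = c m
  · exfalso
    apply hc
    refine Finset.card_bij (fun m _ => σ m) ?_ (fun _ _ _ _ h => σ.injective h) ?_
    · intro m hm
      rw [Finset.mem_filter] at hm ⊢
      exact ⟨Finset.mem_univ _, by rw [h1]; exact hm.2⟩
    · intro m hm
      rw [Finset.mem_filter] at hm
      refine ⟨σ.symm m, ?_, σ.apply_symm_apply m⟩
      rw [Finset.mem_filter]
      refine ⟨Finset.mem_univ _, ?_⟩
      rw [← h1, σ.apply_symm_apply]
      exact hm.2
  · push Not at h1
    obtain ⟨m, hm⟩ := h1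
    have h2 : ∏ i, M (σ i) i = 0 := Finset.prod_eq_zero (Finset.mem_univ m) (h _ _ hm)
    rw [h2, smul_zero]

/-- Sorting the labels. -/
theorem sortP (a b : ℕ) (s : Fin (a + b) → Fin 2)
    (h : (Finset.univ.filter fun m => s m = 1).card = b) :
    ∃ τ : Equiv.Perm (Fin (a + b)), (∀ i : Fin a, s (τ (Fin.castAdd b i)) = 0) ∧
      ∀ j : Fin b, s (τ (Fin.natAdd a j)) = 1 := by
  classical
  have c1 : Fintype.card {m // s m = 1} = b := by rw [Fintype.card_subtype]; exact h
  have c0 : Fintype.card {m // ¬ s m = 1} = a := by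
    rw [Fintype.card_subtype_compl, c1, Fintype.card_fin]
    omega
  let e1 : Fin b ≃ {m // s m = 1} := (Fintype.equivFinOfCardEq c1).symm
  let e0 : Fin a ≃ {m // ¬ s m = 1} := (Fintype.equivFinOfCardEq c0).symm
  refine ⟨finSumFinEquiv.symm.trans ((Equiv.sumCongr e0 e1).trans ((Equiv.sumComm _ _).trans
    (Equiv.sumCompl fun m => s m = 1))), ?_, ?_⟩
  · intro i
    have h1 := (e0 i).2
    have h2 : ∀ t : Fin 2, ¬ t = 1 → t = 0 := by decide
    apply h2
    simpa using h1
  · intro j
    have h1 := (e1 j).2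
    simpa using h1

/-! ### Generators -/

/-- The matrix. -/
def gM {n : ℕ} (F : Fin n → Sx N) (v : Fin n → Fin 2 → ℂ) (α : Fin n → Fin (N + 1) × Fin 2) :
    Matrix (Fin n) (Fin n) (Sx N) :=
  Matrix.of fun i m => C (v i (α m).2) * pderiv (α m).1 (F i)

theorem alt {I : Ideal (Sx N)} {n k : ℕ} {u : (Fin n → Fin (N + 1) × Fin 2) → Sx N ⧸ I}
    (hu : u ∈ LN I n k) (σ : Equiv.Perm (Fin n)) (α : Fin n → Fin (N + 1) × Fin 2) :
    u (fun m => α (σ m)) = ((Equiv.Perm.sign σ : ℤˣ) : ℤ) • u α := by
  unfold LN at hu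
  induction hu using Submodule.span_induction with
  | mem z hz =>
    obtain ⟨a, e, F, f, v, -, -, -, rfl⟩ := hz
    have h1 : Matrix.det (Matrix.of fun i m => C (v i (α (σ m)).2) * pderiv (α (σ m)).1 (F i)) =
        ((Equiv.Perm.sign σ : ℤˣ) : ℤ) • Matrix.det (Matrix.of fun i m =>
          C (v i (α m).2) * pderiv (α m).1 (F i)) := by
      have h2 := Matrix.det_permute' σ (Matrix.of fun i m =>
          C (v i (α m).2) * pderiv (α m).1 (F i))
      rw [zsmul_eq_mul]
      exact h2
    change Ideal.Quotient.mk I (a * Matrix.det (Matrix.of fun i m =>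
      C (v i (α (σ m)).2) * pderiv (α (σ m)).1 (F i))) = _ • Ideal.Quotient.mk I (a * _)
    rw [h1, mul_smul_comm, map_zsmul]
  | zero => simp
  | add x y _ _ hx hy => rw [Pi.add_apply, Pi.add_apply, hx, hy, smul_add]
  | smul r x _ hx => rw [Pi.smul_apply, Pi.smul_apply, hx, smul_comm]

theorem psi_inj {I : Ideal (Sx N)} {a b k : ℕ}
    {u : (Fin (a + b) → Fin (N + 1) × Fin 2) → Sx N ⧸ I}
    (hu : u ∈ LB I (a + b) b k) (h0 : psiB I a b u = 0) : u = 0 := by
  funext α
  by_cases h1 : (Finset.univ.filter fun m => (α m).2 = 1).card = b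
  · obtain ⟨τ, t0, t1⟩ := sortP a b (fun m => (α m).2) h1
    have h2 := alt hu.1 τ α
    have h3 : (fun m => α (τ m)) =
        Fin.append (fun m : Fin a => ((α (τ (Fin.castAdd b m))).1, (0 : Fin 2)))
        (fun m : Fin b => ((α (τ (Fin.natAdd a m))).1, (1 : Fin 2))) := by
      funext m
      refine Fin.addCases (fun i => ?_) (fun j => ?_) m
      · rw [Fin.append_left]
        exact Prod.ext rfl (t0 i)
      · rw [Fin.append_right]
        exact Prod.ext rfl (t1 j)
    have h4 := congrFun h0 (fun m => (α (τ (Fin.castAdd b m))).1,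
      fun m => (α (τ (Fin.natAdd a m))).1)
    change u (Fin.append (fun m : Fin a => ((α (τ (Fin.castAdd b m))).1, (0 : Fin 2)))
        (fun m : Fin b => ((α (τ (Fin.natAdd a m))).1, (1 : Fin 2)))) = 0 at h4
    rw [h3, h4] at h2
    rcases Int.units_eq_one_or (Equiv.Perm.sign τ) with h5 | h5
    · rw [h5] at h2
      simpa using h2.symm
    · rw [h5] at h2
      simpa using h2.symm
  · exact hu.2 α h1

/-- The target. -/
abbrev RHS (I : Ideal (Sx N)) (a b k : ℕ) :
    Submodule ℂ ((Fin a → Fin (N + 1)) × (Fin b → Fin (N + 1)) → Sx N ⧸ I) :=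
  (PV (VL I a) (VL I b) k).map (redL ((Fin a → Fin (N + 1)) × (Fin b → Fin (N + 1))) I)

/-- Products of minors. -/
theorem prod_mem {I : Ideal (Sx N)} {a b k e : ℕ} {a0 : Sx N} (h0 : a0.IsHomogeneous e)
    {F : Fin a → Sx N} {f : Fin a → ℕ} (hF : ∀ i, F i ∈ I ∧ (F i).IsHomogeneous (f i))
    {G : Fin b → Sx N} {g : Fin b → ℕ} (hG : ∀ i, G i ∈ I ∧ (G i).IsHomogeneous (g i))
    (hk : e + (∑ i, f i + ∑ i, g i) = k + (a + b)) :
    (fun p : (Fin a → Fin (N + 1)) × (Fin b → Fin (N + 1)) => Ideal.Quotient.mk I
      (a0 * (Matrix.det (Matrix.of fun i m => pderiv (p.1 m) (F i)) *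
        Matrix.det (Matrix.of fun i m => pderiv (p.2 m) (G i))))) ∈ RHS I a b k := by
  have hz : ∀ (H : Sx N), H.IsHomogeneous 0 → ∀ i, pderiv i H = 0 := by
    intro H hH i
    obtain ⟨c, hc⟩ : ∃ c, H = C c := ⟨_, (totalDegree_eq_zero_iff_eq_C.1
      (Nat.le_zero.1 hH.totalDegree_le))⟩
    rw [hc, pderiv_C]
  by_cases h1 : ∃ i, f i = 0
  · obtain ⟨i, hi⟩ := h1
    have h2 : (fun p : (Fin a → Fin (N + 1)) × (Fin b → Fin (N + 1)) => Ideal.Quotient.mk I
      (a0 * (Matrix.det (Matrix.of fun i m => pderiv (p.1 m) (F i)) *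
        Matrix.det (Matrix.of fun i m => pderiv (p.2 m) (G i))))) = 0 := by
      funext p
      have h3 : Matrix.det (Matrix.of fun i m => pderiv (p.1 m) (F i)) = 0 :=
        Matrix.det_eq_zero_of_row_eq_zero i fun m => hz _ (hi ▸ (hF i).2) _
      rw [h3, zero_mul, mul_zero, map_zero]
      rfl
    rw [h2]
    exact Submodule.zero_mem _
  by_cases h1' : ∃ i, g i = 0
  · obtain ⟨i, hi⟩ := h1'
    have h2 : (fun p : (Fin a → Fin (N + 1)) × (Fin b → Fin (N + 1)) => Ideal.Quotient.mk I
      (a0 * (Matrix.det (Matrix.of fun i m => pderiv (p.1 m) (F i)) *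
        Matrix.det (Matrix.of fun i m => pderiv (p.2 m) (G i))))) = 0 := by
      funext p
      have h3 : Matrix.det (Matrix.of fun i m => pderiv (p.2 m) (G i)) = 0 :=
        Matrix.det_eq_zero_of_row_eq_zero i fun m => hz _ (hi ▸ (hG i).2) _
      rw [h3, mul_zero, mul_zero, map_zero]
      rfl
    rw [h2]
    exact Submodule.zero_mem _
  push Not at h1 h1'
  have ha : a ≤ ∑ i, f i := by
    have := Finset.sum_le_sum (s := Finset.univ) (f := fun _ : Fin a => 1) (g := f)
      fun i _ => Nat.one_le_iff_ne_zero.2 (h1 i)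
    simpa using this
  have hb : b ≤ ∑ i, g i := by
    have := Finset.sum_le_sum (s := Finset.univ) (f := fun _ : Fin b => 1) (g := g)
      fun i _ => Nat.one_le_iff_ne_zero.2 (h1' i)
    simpa using this
  refine ⟨fun p => (a0 * Matrix.det (Matrix.of fun i m => pderiv (p.1 m) (F i))) *
    (1 * Matrix.det (Matrix.of fun i m => pderiv (p.2 m) (G i))), ?_, ?_⟩
  · refine Submodule.subset_span ⟨e + ∑ i, f i - a, ∑ i, g i - b,
      fun α => a0 * Matrix.det (Matrix.of fun i m => pderiv (α m) (F i)),
      fun α => 1 * Matrix.det (Matrix.of fun i m => pderiv (α m) (G i)), by omega, ?_, ?_, rfl⟩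
    · exact Submodule.subset_span ⟨a0, e, F, f, h0, hF, by omega, rfl⟩
    · exact Submodule.subset_span ⟨1, 0, G, g, isHomogeneous_one _ _, hG, by omega, rfl⟩
  · funext p
    change Ideal.Quotient.mk I _ = Ideal.Quotient.mk I _
    congr 1
    ring

/-- Sorted indices. -/
abbrev srt {a b : ℕ} (p : (Fin a → Fin (N + 1)) × (Fin b → Fin (N + 1))) :
    Fin (a + b) → Fin (N + 1) × Fin 2 :=
  Fin.append (fun m => (p.1 m, 0)) (fun m => (p.2 m, 1))

theorem srt_l {a b : ℕ} (p : (Fin a → Fin (N + 1)) × (Fin b → Fin (N + 1))) (i : Fin a) :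
    srt p (Fin.castAdd b i) = (p.1 i, 0) := Fin.append_left _ _ _

theorem srt_r {a b : ℕ} (p : (Fin a → Fin (N + 1)) × (Fin b → Fin (N + 1))) (i : Fin b) :
    srt p (Fin.natAdd a i) = (p.2 i, 1) := Fin.append_right _ _ _

theorem card_srt {a b : ℕ} (p : (Fin a → Fin (N + 1)) × (Fin b → Fin (N + 1))) :
    (Finset.univ.filter fun m => (srt p m).2 = 1).card = b := by
  have h1 : (Finset.univ.filter fun m => (srt p m).2 = 1) =
      Finset.univ.map ⟨Fin.natAdd a, Fin.natAdd_injective b a⟩ := by
    ext m
    rw [Finset.mem_filter, Finset.mem_map]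
    refine Fin.addCases (fun i => ?_) (fun j => ?_) m
    · constructor
      · rintro ⟨-, h⟩
        rw [srt_l] at h
        exact absurd (show (0 : Fin 2) = 1 from h) (by decide)
      · rintro ⟨j, -, h⟩
        exfalso
        have h2 := congrArg Fin.val h
        simp only [Function.Embedding.coeFn_mk, Fin.val_natAdd, Fin.val_castAdd] at h2
        have := i.2
        omega
    · refine ⟨fun _ => ⟨j, Finset.mem_univ _, rfl⟩, fun _ => ⟨Finset.mem_univ _, ?_⟩⟩
      rw [srt_r]
  rw [h1, Finset.card_map, Finset.card_univ, Fintype.card_fin]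

/-- The determinant with labelled rows. -/
theorem lab {I : Ideal (Sx N)} {a b k e : ℕ} {a0 : Sx N} (h0 : a0.IsHomogeneous e)
    {F : Fin (a + b) → Sx N} {f : Fin (a + b) → ℕ} (hF : ∀ i, F i ∈ I ∧ (F i).IsHomogeneous (f i))
    (hk : e + ∑ i, f i = k + (a + b)) (s : Fin (a + b) → Fin 2) :
    (fun p : (Fin a → Fin (N + 1)) × (Fin b → Fin (N + 1)) => Ideal.Quotient.mk I
      (a0 * Matrix.det (Matrix.of fun i m => if s i = (srt p m).2 then
        pderiv (srt p m).1 (F i) else 0))) ∈ RHS I a b k := by
  by_cases hs : (Finset.univ.filter fun m => s m = 1).card = b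
  · obtain ⟨τ, t0, t1⟩ := sortP a b s hs
    have h1 := prod_mem (I := I) (a := a) (b := b) (k := k) h0
      (F := fun i => F (τ (Fin.castAdd b i))) (f := fun i => f (τ (Fin.castAdd b i)))
      (fun i => hF _) (G := fun i => F (τ (Fin.natAdd a i))) (g := fun i => f (τ (Fin.natAdd a i)))
      (fun i => hF _) (by
        rw [← Fin.sum_univ_add (fun i => f (τ i)), Equiv.sum_comp τ f]
        exact hk)
    have h2 := Submodule.smul_mem (RHS I a b k) (((Equiv.Perm.sign τ : ℤˣ) : ℤ) : ℂ) h1
    refine (congrArg (· ∈ RHS I a b k) ?_).mpr h2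
    funext p
    rw [Pi.smul_apply]
    have h3 := Matrix.det_permute τ (Matrix.of fun i m => if s i = (srt p m).2 then
        pderiv (srt p m).1 (F i) else 0)
    have h4 := detBlk ((Matrix.of fun i m => if s i = (srt p m).2 then
        pderiv (srt p m).1 (F i) else 0 : Matrix (Fin (a + b)) (Fin (a + b)) (Sx N)).submatrix τ id)
      (fun i j => by
        simp only [Matrix.submatrix_apply, Matrix.of_apply, id]
        rw [t0, srt_r]
        simp)
      (fun i j => by
        simp only [Matrix.submatrix_apply, Matrix.of_apply, id]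
        rw [t1, srt_l]
        simp)
    have h5 : (Matrix.of fun i j : Fin a => ((Matrix.of fun i m => if s i = (srt p m).2 then
        pderiv (srt p m).1 (F i) else 0 : Matrix (Fin (a + b)) (Fin (a + b)) (Sx N)).submatrix τ id)
          (Fin.castAdd b i) (Fin.castAdd b j)) =
        Matrix.of fun i m => pderiv (p.1 m) (F (τ (Fin.castAdd b i))) := by
      ext1 i j
      simp only [Matrix.submatrix_apply, Matrix.of_apply, id]
      rw [t0, srt_l]
      simp
    have h6 : (Matrix.of fun i j : Fin b => ((Matrix.of fun i m => if s i = (srt p m).2 then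
        pderiv (srt p m).1 (F i) else 0 : Matrix (Fin (a + b)) (Fin (a + b)) (Sx N)).submatrix τ id)
          (Fin.natAdd a i) (Fin.natAdd a j)) =
        Matrix.of fun i m => pderiv (p.2 m) (F (τ (Fin.natAdd a i))) := by
      ext1 i j
      simp only [Matrix.submatrix_apply, Matrix.of_apply, id]
      rw [t1, srt_r]
      simp
    rw [h5, h6, h3] at h4
    rw [← h4]
    rcases Int.units_eq_one_or (Equiv.Perm.sign τ) with h7 | h7
    · rw [h7]
      simp
    · rw [h7]
      simp
  · have h1 : (fun p : (Fin a → Fin (N + 1)) × (Fin b → Fin (N + 1)) => Ideal.Quotient.mk I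
      (a0 * Matrix.det (Matrix.of fun i m => if s i = (srt p m).2 then
        pderiv (srt p m).1 (F i) else 0))) = 0 := by
      funext p
      rw [detZ _ s (fun m => (srt p m).2) (fun i m h => by
        rw [Matrix.of_apply, if_neg h]) (by rw [card_srt]; exact fun h => hs h.symm), mul_zero,
        map_zero]
      rfl
    rw [h1]
    exact Submodule.zero_mem _

/-- `psiB` maps `LN` into the target. -/
theorem psi_mem {I : Ideal (Sx N)} {a b k : ℕ}
    {u : (Fin (a + b) → Fin (N + 1) × Fin 2) → Sx N ⧸ I} (hu : u ∈ LN I (a + b) k) :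
    psiB I a b u ∈ RHS I a b k := by
  have h0 : LN I (a + b) k ≤ (RHS I a b k).comap (psiB I a b) := by
    unfold LN
    rw [Submodule.span_le]
    rintro z ⟨a0, e, F, f, v, h0, hF, hk, rfl⟩
    rw [SetLike.mem_coe, Submodule.mem_comap]
    have h1 : ∀ p : (Fin a → Fin (N + 1)) × (Fin b → Fin (N + 1)),
        Matrix.det (Matrix.of fun i m => C (v i (srt p m).2) * pderiv (srt p m).1 (F i)) =
        ∑ s : Fin (a + b) → Fin 2, (∏ i, v i (s i)) • Matrix.det (Matrix.of fun i m =>
          if s i = (srt p m).2 then pderiv (srt p m).1 (F i) else 0) := by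
      intro p
      have h2 : (Matrix.of fun i m => C (v i (srt p m).2) * pderiv (srt p m).1 (F i) :
          Matrix (Fin (a + b)) (Fin (a + b)) (Sx N)) = fun i => ∑ t : Fin 2, (fun m =>
            C (v i t) * if t = (srt p m).2 then pderiv (srt p m).1 (F i) else 0) := by
        funext i m
        rw [Finset.sum_apply, Matrix.of_apply]
        simp
      rw [h2]
      have h3 := MultilinearMap.map_sum (Matrix.detRowAlternating (n := Fin (a + b))
        (R := Sx N)).toMultilinearMap (fun i (t : Fin 2) => (fun m =>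
            C (v i t) * if t = (srt p m).2 then pderiv (srt p m).1 (F i) else 0))
      refine h3.trans (Finset.sum_congr rfl fun s _ => ?_)
      have h4 := MultilinearMap.map_smul_univ (Matrix.detRowAlternating (n := Fin (a + b))
        (R := Sx N)).toMultilinearMap (fun i => (C (v i (s i)) : Sx N)) (fun i => (fun m =>
            if s i = (srt p m).2 then pderiv (srt p m).1 (F i) else 0))
      refine h4.trans ?_
      rw [← map_prod, smul_eq_mul, MvPolynomial.smul_eq_C_mul]
      rfl
    have h5 : (psiB I a b fun α => Ideal.Quotient.mk I (a0 * Matrix.det (Matrix.of fun i m =>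
        C (v i (α m).2) * pderiv (α m).1 (F i)))) = ∑ s : Fin (a + b) → Fin 2,
        (∏ i, v i (s i)) • (fun p : (Fin a → Fin (N + 1)) × (Fin b → Fin (N + 1)) =>
          Ideal.Quotient.mk I (a0 * Matrix.det (Matrix.of fun i m => if s i = (srt p m).2 then
            pderiv (srt p m).1 (F i) else 0))) := by
      funext p
      rw [Finset.sum_apply]
      change Ideal.Quotient.mk I (a0 * Matrix.det (Matrix.of fun i m =>
        C (v i (srt p m).2) * pderiv (srt p m).1 (F i))) = _
      rw [h1, Finset.mul_sum, map_sum]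
      refine Finset.sum_congr rfl fun s _ => ?_
      rw [Pi.smul_apply, mul_smul_comm]
      exact map_smul (Ideal.Quotient.mkₐ ℂ I) _ _
    rw [h5]
    exact Submodule.sum_mem _ fun s _ => Submodule.smul_mem _ _ (lab h0 hF hk s)
  exact h0 hu

/-- Every product is obtained. -/
theorem psi_surj {I : Ideal (Sx N)} {a b k k1 k2 : ℕ} (hk : k1 + k2 = k)
    {v : (Fin a → Fin (N + 1)) → Sx N} {w : (Fin b → Fin (N + 1)) → Sx N}
    (hv : v ∈ VL I a k1) (hw : w ∈ VL I b k2) :
    (redL ((Fin a → Fin (N + 1)) × (Fin b → Fin (N + 1))) I fun p => v p.1 * w p.2) ∈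
      (LB I (a + b) b k).map (psiB I a b) := by
  unfold VL at hv hw
  induction hv using Submodule.span_induction with
  | zero =>
    have : (fun p : (Fin a → Fin (N + 1)) × (Fin b → Fin (N + 1)) =>
      (0 : (Fin a → Fin (N + 1)) → Sx N) p.1 * w p.2) = 0 := by
      funext p; simp
    rw [this, map_zero]
    exact Submodule.zero_mem _
  | add x y _ _ hx hy =>
    have : (fun p : (Fin a → Fin (N + 1)) × (Fin b → Fin (N + 1)) => (x + y) p.1 * w p.2) =
        (fun p => x p.1 * w p.2) + fun p => y p.1 * w p.2 := by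
      funext p; simp [add_mul]
    rw [this, map_add]
    exact Submodule.add_mem _ hx hy
  | smul r x _ hx =>
    have : (fun p : (Fin a → Fin (N + 1)) × (Fin b → Fin (N + 1)) => (r • x) p.1 * w p.2) =
        r • fun p => x p.1 * w p.2 := by
      funext p; simp
    rw [this, map_smul]
    exact Submodule.smul_mem _ _ hx
  | mem v hv =>
    obtain ⟨a1, e1, F, f, h1, hF, hk1, rfl⟩ := hv
    induction hw using Submodule.span_induction with
    | zero =>
      have : (fun p : (Fin a → Fin (N + 1)) × (Fin b → Fin (N + 1)) =>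
        (fun α => a1 * Matrix.det (Matrix.of fun i m => pderiv (α m) (F i))) p.1 *
          (0 : (Fin b → Fin (N + 1)) → Sx N) p.2) = 0 := by
        funext p; simp
      rw [this, map_zero]
      exact Submodule.zero_mem _
    | add x y _ _ hx hy =>
      have : (fun p : (Fin a → Fin (N + 1)) × (Fin b → Fin (N + 1)) =>
        (fun α => a1 * Matrix.det (Matrix.of fun i m => pderiv (α m) (F i))) p.1 *
          (x + y) p.2) = (fun p => (fun α => a1 * Matrix.det (Matrix.of fun i m =>
            pderiv (α m) (F i))) p.1 * x p.2) + fun p => (fun α => a1 * Matrix.det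
              (Matrix.of fun i m => pderiv (α m) (F i))) p.1 * y p.2 := by
        funext p; simp [mul_add]
      rw [this, map_add]
      exact Submodule.add_mem _ hx hy
    | smul r x _ hx =>
      have : (fun p : (Fin a → Fin (N + 1)) × (Fin b → Fin (N + 1)) =>
        (fun α => a1 * Matrix.det (Matrix.of fun i m => pderiv (α m) (F i))) p.1 *
          (r • x) p.2) = r • fun p => (fun α => a1 * Matrix.det (Matrix.of fun i m =>
            pderiv (α m) (F i))) p.1 * x p.2 := by
        funext p; simp
      rw [this, map_smul]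
      exact Submodule.smul_mem _ _ hx
    | mem w hw =>
      obtain ⟨a2, e2, G, g, h2, hG, hk2, rfl⟩ := hw
      let v0 : Fin (a + b) → Fin 2 → ℂ := Fin.append (fun _ t => if t = 0 then 1 else 0)
        (fun _ t => if t = 1 then 1 else 0)
      let s0 : Fin (a + b) → Fin 2 := Fin.append (fun _ => 0) (fun _ => 1)
      have hs0 : ∀ i t, s0 i ≠ t → v0 i t = 0 := by
        intro i t
        refine Fin.addCases (fun i => ?_) (fun j => ?_) i
        · intro h
          simp only [s0, v0, Fin.append_left] at h ⊢
          rw [if_neg (Ne.symm h)]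
        · intro h
          simp only [s0, v0, Fin.append_right] at h ⊢
          rw [if_neg (Ne.symm h)]
      have hc0 : (Finset.univ.filter fun m => s0 m = 1).card = b := by
        have h3 := card_srt (N := N) (a := a) (b := b) (fun _ => 0, fun _ => 0)
        have h4 : (fun m : Fin (a + b) => (srt (N := N) (a := a) (b := b)
            (fun _ => 0, fun _ => 0) m).2) = s0 := by
          funext m
          refine Fin.addCases (fun i => ?_) (fun j => ?_) m
          · simp only [s0, Fin.append_left]
          · simp only [s0, Fin.append_right]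
        have h5 : ∀ m, (srt (N := N) (a := a) (b := b) (fun _ => 0, fun _ => 0) m).2 = s0 m :=
          fun m => congrFun h4 m
        simp only [h5] at h3
        exact h3
      refine ⟨fun α => Ideal.Quotient.mk I ((a1 * a2) * Matrix.det (Matrix.of fun i m =>
        C (v0 i (α m).2) * pderiv (α m).1 (Fin.append F G i))), ⟨?_, ?_⟩, ?_⟩
      · refine Submodule.subset_span ⟨a1 * a2, e1 + e2, Fin.append F G, Fin.append f g, v0,
          h1.mul h2, ?_, ?_, rfl⟩
        · intro i
          refine Fin.addCases (fun i => ?_) (fun j => ?_) i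
          · rw [Fin.append_left, Fin.append_left]; exact hF i
          · rw [Fin.append_right, Fin.append_right]; exact hG j
        · rw [Fin.sum_univ_add]
          simp only [Fin.append_left, Fin.append_right]
          omega
      · intro α hα
        change Ideal.Quotient.mk I _ = 0
        rw [detZ _ s0 (fun m => (α m).2) (fun i m h => by
          rw [Matrix.of_apply, hs0 i _ h, map_zero, zero_mul]) (by rw [hc0]; exact hα), mul_zero,
          map_zero]
      · funext p
        change Ideal.Quotient.mk I ((a1 * a2) * Matrix.det (Matrix.of fun i m =>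
          C (v0 i (srt p m).2) * pderiv (srt p m).1 (Fin.append F G i))) = Ideal.Quotient.mk I _
        congr 1
        rw [detBlk]
        · have h5 : (Matrix.of fun i j : Fin a => (Matrix.of fun i m =>
            C (v0 i (srt p m).2) * pderiv (srt p m).1 (Fin.append F G i) :
              Matrix (Fin (a + b)) (Fin (a + b)) (Sx N)) (Fin.castAdd b i) (Fin.castAdd b j)) =
              Matrix.of fun i m => pderiv (p.1 m) (F i) := by
            ext1 i j
            simp only [Matrix.of_apply, srt_l, Fin.append_left, v0]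
            simp
          have h6 : (Matrix.of fun i j : Fin b => (Matrix.of fun i m =>
            C (v0 i (srt p m).2) * pderiv (srt p m).1 (Fin.append F G i) :
              Matrix (Fin (a + b)) (Fin (a + b)) (Sx N)) (Fin.natAdd a i) (Fin.natAdd a j)) =
              Matrix.of fun i m => pderiv (p.2 m) (G i) := by
            ext1 i j
            simp only [Matrix.of_apply, srt_r, Fin.append_right, v0]
            simp
          rw [h5, h6]
          ring
        · intro i j
          simp only [Matrix.of_apply, srt_l, srt_r, Fin.append_left, Fin.append_right, v0]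
          simp
        · intro i j
          simp only [Matrix.of_apply, srt_l, srt_r, Fin.append_left, Fin.append_right, v0]
          simp

end SDimAux

open SDimAux

theorem kSDim : S_SDim := by
  intro N I a b k
  have hinj : ∀ u ∈ LB I (a + b) b k, psiB I a b u = 0 → u = 0 := fun u hu h => psi_inj hu h
  have heq : (LB I (a + b) b k).map (psiB I a b) =
      (PV (VL I a) (VL I b) k).map (redL ((Fin a → Fin (N + 1)) × (Fin b → Fin (N + 1))) I) := by
    refine le_antisymm ?_ ?_
    · rintro _ ⟨u, hu, rfl⟩
      exact psi_mem hu.1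
    · rw [Submodule.map_le_iff_le_comap]
      unfold PV
      rw [Submodule.span_le]
      rintro z ⟨k1, k2, v, w, hk, hv, hw, rfl⟩
      exact psi_surj hk hv hw
  refine ⟨hinj, heq, ?_⟩
  unfold hV
  rw [← heq]
  have h1 : Function.Injective ((psiB I a b).domRestrict (LB I (a + b) b k)) := by
    rw [← LinearMap.ker_eq_bot, LinearMap.ker_eq_bot']
    rintro ⟨u, hu⟩ h
    exact Subtype.ext (hinj u hu h)
  have h2 := LinearMap.finrank_range_of_inj h1
  rw [LinearMap.range_domRestrict] at h2
  exact h2.symm

end Pool.Agent.Lib.MP_776403_ag.SD
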