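import Pool.Agent.Lib.MP_776403_ag.SD.K.SpecS

/-!
# THEOREM SD, part S: the trace of the swap
-/

set_option autoImplicit false

open MvPolynomial TensorProduct

noncomputable section

namespace Pool.Agent.Lib.MP_776403_ag.SD

namespace STrAux

variable {N : ℕ}

/-- Lifts of bases of the graded pieces. -/
theorem lifts {α : Type} [Finite α] (hKGV : S_KGV) (I : Ideal (Sx N))
    (V : ℕ → Submodule ℂ (α → Sx N)) (hG : GV V) :
    ∃ v : (k : ℕ) → Fin (hV I V k) → (α → Sx N), (∀ k i, v k i ∈ V k) ∧
      (∀ k, LinearIndependent ℂ fun i => redL α I (v k i)) ∧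
      ∀ k, Submodule.span ℂ (Set.range fun i => redL α I (v k i)) = (V k).map (redL α I) := by
  have hfin : ∀ k, Module.Finite ℂ ((V k).map (redL α I)) := by
    intro k
    have := (hKGV.2.2.2 N α V hG).2 inferInstance k
    infer_instance
  have h1 : ∀ k, ∃ v : Fin (hV I V k) → (α → Sx N), (∀ i, v i ∈ V k) ∧
      (LinearIndependent ℂ fun i => redL α I (v i)) ∧
      Submodule.span ℂ (Set.range fun i => redL α I (v i)) = (V k).map (redL α I) := by
    intro k
    have := hfin k
    let b : Module.Basis (Fin (hV I V k)) ℂ ((V k).map (redL α I)) :=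
      Module.finBasis ℂ ((V k).map (redL α I))
    have h2 : ∀ i, ∃ v ∈ V k, redL α I v = (b i : α → Sx N ⧸ I) := fun i => (b i).2
    choose v hv1 hv2 using h2
    refine ⟨v, hv1, ?_, ?_⟩
    · have h3 : (fun i => redL α I (v i)) = fun i => ((b i : (V k).map (redL α I)) : α → Sx N ⧸ I) :=
        funext hv2
      rw [h3]
      exact b.linearIndependent.map' (Submodule.subtype _) (Submodule.ker_subtype _)
    · have h3 : (Set.range fun i => redL α I (v i)) =
          (Submodule.subtype ((V k).map (redL α I))) '' Set.range b := by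
        rw [← Set.range_comp]
        congr 1
        funext i
        exact hv2 i
      rw [h3, ← Submodule.map_span, b.span_eq, Submodule.map_top, Submodule.range_subtype]
  choose v hv1 hv2 hv3 using h1
  exact ⟨v, hv1, hv2, hv3⟩

/-- The transposition of the two indices. -/
def tr (n : ℕ → ℕ) (m : ℕ) (q : PIx n n m) : PIx n n m :=
  ⟨(q.1.2, q.1.1), (Nat.add_comm _ _).trans q.2⟩

/-- The number of fixed points. -/
theorem card_fix (n : ℕ → ℕ) (m : ℕ) [Fintype (PIx n n m)] [DecidableEq (PIx n n m)] :
    ((Finset.univ.filter fun i : PIx n n m => tr n m i = i).card : ℤ) =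
      if Even m then (n (m / 2) : ℤ) else 0 := by
  split_ifs with hm
  · have h2 : m / 2 + m / 2 = m := by
      obtain ⟨r, hr⟩ := hm
      omega
    let g : Fin (n (m / 2)) → PIx n n m := fun i =>
      ⟨(⟨⟨m / 2, by omega⟩, i⟩, ⟨⟨m / 2, by omega⟩, i⟩), h2⟩
    have hg : Function.Injective g := by
      intro i j h
      have h3 := congrArg (fun q : PIx n n m => q.1.1) h
      simpa [g] using h3
    have h3 : (Finset.univ.filter fun i : PIx n n m => tr n m i = i) = Finset.univ.image g := by
      ext q
      simp only [Finset.mem_filter, Finset.mem_univ, true_and, Finset.mem_image]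
      constructor
      · intro h
        obtain ⟨⟨⟨⟨k, hk⟩, a⟩, ⟨⟨l, hl⟩, b⟩⟩, hq⟩ := q
        have h4 := congrArg (fun q : PIx n n m => q.1.1) h
        simp only [tr] at h4
        have hkl : l = k := by
          have := congrArg (fun s : (Σ k : Fin (m + 1), Fin (n k)) => (s.1 : ℕ)) h4
          exact this
        subst hkl
        simp only at hq
        have hk2 : l = m / 2 := by omega
        subst hk2
        have hba : b = a := by simpa using h4
        subst hba
        exact ⟨b, rfl⟩
      · rintro ⟨i, rfl⟩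
        rfl
    rw [h3, Finset.card_image_of_injective _ hg, Finset.card_univ, Fintype.card_fin]
  · rw [Finset.filter_eq_empty_iff.2, Finset.card_empty, Nat.cast_zero]
    intro q _ h
    apply hm
    have h4 := congrArg (fun q : PIx n n m => (q.1.1.1 : ℕ)) h
    simp only [tr] at h4
    have h5 := q.2
    exact ⟨q.1.1.1, by omega⟩

end STrAux

open STrAux

theorem kSTr : S_STB → S_SPerm → S_KGV → S_STr := by
  classical
  intro hSTB hSPerm hKGV N α _ I hI V hG m
  obtain ⟨v, hv1, hv2, hv3⟩ := lifts hKGV I V hG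
  obtain ⟨h1, h2⟩ := hSTB N α α I I hI hI V V hG hG (hV I V) (hV I V) v v hv1 hv2 hv3 hv1 hv2 hv3 m
  have : Fintype (PIx (hV I V) (hV I V) m) := Fintype.ofFinite _
  have h3 := hSPerm (α × α → CR I I) (PIx (hV I V) (hV I V) m)
    (fun q => (fun p : α × α => Ideal.Quotient.mk (cc I I)
      (ix (v q.1.1.1 q.1.1.2 p.1) * iy (v q.1.2.1 q.1.2.2 p.2))))
    (tr (hV I V) m) (swT α I) h1 (fun i => rfl) (fun q => by
      funext p
      change swC I (Ideal.Quotient.mk (cc I I)
        (ix (v q.1.1.1 q.1.1.2 p.2) * iy (v q.1.2.1 q.1.2.2 p.1))) = _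
      rw [swC_mk, map_mul, sw0_ix, sw0_iy, mul_comm]
      rfl)
  rw [h2, card_fix] at h3
  exact h3

end Pool.Agent.Lib.MP_776403_ag.SD
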