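import Pool.Agent.Lib.MP_776403_ag.SD.Bas

/-!
# THEOREM SD, part K: definitions (note 4445)

Graded families in modules over polynomial rings; the Koszul complex of the diagonal
`z_k = x_k - y_k` over `ℂ[x, y]`; the modules `(V / I) ⊗ (W / J)`.
-/

set_option autoImplicit false

open MvPolynomial

noncomputable section

namespace Pool.Agent.Lib.MP_776403_ag.SD

/-! ## Part 1: graded families -/

section Families

variable {σ : Type} {W : Type} [AddCommGroup W] [Module (MvPolynomial σ ℂ) W] [Module ℂ W]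

/-- The family `U` is stable under the multiplications by the variables in `s`. -/
def GFm (s : Finset σ) (U : ℕ → Submodule ℂ W) : Prop :=
  ∀ m : ℕ, ∀ i ∈ s, ∀ w ∈ U m, (X i : MvPolynomial σ ℂ) • w ∈ U (m + 1)

/-- `∑_(i ∈ s) x_i U m`. -/
def XU (s : Finset σ) (U : ℕ → Submodule ℂ W) (m : ℕ) : Submodule ℂ W :=
  Submodule.span ℂ {z | ∃ i ∈ s, ∃ w ∈ U m, z = (X i : MvPolynomial σ ℂ) • w}

/-- `U` is generated in bounded degree modulo `V`, by the variables in `s`. -/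
def FGP (s : Finset σ) (V U : ℕ → Submodule ℂ W) : Prop :=
  ∃ m0 : ℕ, ∀ m, m0 ≤ m → U (m + 1) ≤ V (m + 1) ⊔ XU s U m

end Families

/-! ## Part 2: the Koszul complex of the diagonal -/

/-- `ℂ[x, y]`. -/
abbrev Rx (N : ℕ) : Type := MvPolynomial (Fin (N + 1) ⊕ Fin (N + 1)) ℂ

variable {N : ℕ}

/-- `F(x)`. -/
def ix : Sx N →ₐ[ℂ] Rx N := rename Sum.inl

/-- `F(y)`. -/
def iy : Sx N →ₐ[ℂ] Rx N := rename Sum.inr

/-- `z_k = x_k - y_k`. -/
def zz (k : Fin (N + 1)) : Rx N := X (Sum.inl k) - X (Sum.inr k)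

/-- Chains with values in `M`. -/
abbrev Cn (N : ℕ) (M : Type) : Type := Finset (Fin (N + 1)) → M

/-- The sign `(-1)^#{l ∈ T : l < k}`. -/
def sg (k : Fin (N + 1)) (T : Finset (Fin (N + 1))) : ℤ := (-1) ^ (T.filter (· < k)).card

/-- Graded families over `ℂ[x, y]`. -/
abbrev GF (N : ℕ) {M : Type} [AddCommGroup M] [Module (Rx N) M] [Module ℂ M]
    (A : ℕ → Submodule ℂ M) : Prop :=
  GFm (Finset.univ : Finset (Fin (N + 1) ⊕ Fin (N + 1))) A

/-- Finitely generated families over `ℂ[x, y]`. -/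
abbrev FG (N : ℕ) {M : Type} [AddCommGroup M] [Module (Rx N) M] [Module ℂ M]
    (V U : ℕ → Submodule ℂ M) : Prop :=
  FGP (Finset.univ : Finset (Fin (N + 1) ⊕ Fin (N + 1))) V U

section Koszul

variable {M : Type} [AddCommGroup M] [Module (Rx N) M] [Module ℂ M]

/-- The differential: `(d ω)(T) = ∑_(k ∉ T) sg k T z_k ω(T ∪ {k})`. -/
def dK : Cn N M →ₗ[Rx N] Cn N M where
  toFun ω := fun T => ∑ k ∈ Tᶜ, sg k T • ((zz k : Rx N) • ω (insert k T))
  map_add' ω η := by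
    funext T
    simp only [Pi.add_apply, smul_add, Finset.sum_add_distrib]
  map_smul' f ω := by
    funext T
    simp only [Pi.smul_apply, RingHom.id_apply, Finset.smul_sum]
    refine Finset.sum_congr rfl fun k _ => ?_
    rw [smul_comm (zz k) f, smul_comm (sg k T) f]

/-- Exterior multiplication by `e_k`. -/
def eK (k : Fin (N + 1)) : Cn N M →ₗ[Rx N] Cn N M where
  toFun ω := fun T => if k ∈ T then sg k (T.erase k) • ω (T.erase k) else 0
  map_add' ω η := by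
    funext T
    by_cases h : k ∈ T <;> simp [h]
  map_smul' f ω := by
    funext T
    by_cases h : k ∈ T
    · simp only [h, if_true, Pi.smul_apply, RingHom.id_apply]
      rw [smul_comm]
    · simp [h]

variable (N) in
/-- Chains of homological degree `i` and internal degree `m` with values in the family `A`
(`e_k` has degree `1`). -/
def Kc (A : ℕ → Submodule ℂ M) (i m : ℕ) : Submodule ℂ (Cn N M) where
  carrier := {ω | ∀ T : Finset (Fin (N + 1)), (T.card = i → i ≤ m → ω T ∈ A (m - i)) ∧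
    (T.card ≠ i ∨ m < i → ω T = 0)}
  zero_mem' := fun T => ⟨fun _ _ => Submodule.zero_mem _, fun _ => rfl⟩
  add_mem' := fun {ω η} h h' T => ⟨fun h1 h2 => Submodule.add_mem _ ((h T).1 h1 h2) ((h' T).1 h1 h2),
    fun h1 => by rw [Pi.add_apply, (h T).2 h1, (h' T).2 h1, add_zero]⟩
  smul_mem' := fun a {ω} h T => ⟨fun h1 h2 => Submodule.smul_mem _ a ((h T).1 h1 h2),
    fun h1 => by rw [Pi.smul_apply, (h T).2 h1, smul_zero]⟩

variable (N) in
/-- Cycles. -/
def Zc [IsScalarTower ℂ (Rx N) M] (A : ℕ → Submodule ℂ M) (i m : ℕ) : Submodule ℂ (Cn N M) :=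
  Kc N A i m ⊓ LinearMap.ker ((dK (N := N) (M := M)).restrictScalars ℂ)

variable (N) in
/-- Boundaries. -/
def Bc [IsScalarTower ℂ (Rx N) M] (A : ℕ → Submodule ℂ M) (i m : ℕ) : Submodule ℂ (Cn N M) :=
  (Kc N A (i + 1) m).map ((dK (N := N) (M := M)).restrictScalars ℂ)

end Koszul

/-- The map on chains induced by a linear map. -/
def mapC {M M' : Type} [AddCommGroup M] [Module (Rx N) M] [AddCommGroup M'] [Module (Rx N) M']
    (f : M →ₗ[Rx N] M') : Cn N M →ₗ[Rx N] Cn N M' where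
  toFun ω := fun T => f (ω T)
  map_add' ω η := by funext T; simp
  map_smul' a ω := by funext T; simp

theorem mapC_dK {M M' : Type} [AddCommGroup M] [Module (Rx N) M] [AddCommGroup M']
    [Module (Rx N) M'] (f : M →ₗ[Rx N] M') (ω : Cn N M) : dK (mapC f ω) = mapC f (dK ω) := by
  funext T
  simp only [dK, mapC, LinearMap.coe_mk, AddHom.coe_mk, map_sum, map_zsmul, map_smul]

/-! ## Part 3: tensor products of graded modules -/

/-- `I(x) + J(y)`. -/
def cc (I J : Ideal (Sx N)) : Ideal (Rx N) :=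
  I.map (ix : Sx N →ₐ[ℂ] Rx N).toRingHom ⊔ J.map (iy : Sx N →ₐ[ℂ] Rx N).toRingHom

/-- `ℂ[x, y] / (I(x) + J(y))`. -/
abbrev CR (I J : Ideal (Sx N)) : Type := Rx N ⧸ cc I J

section Vectors

variable {α β γ : Type}

/-- `V` is a graded `S`-submodule of `S^α`: `V k` consists of vectors of forms of degree `k`. -/
structure GV (V : ℕ → Submodule ℂ (α → Sx N)) : Prop where
  hom : ∀ k, ∀ v ∈ V k, ∀ a, (v a).IsHomogeneous k
  mul : ∀ k, ∀ v ∈ V k, ∀ i : Fin (N + 1), (fun a => (X i : Sx N) * v a) ∈ V (k + 1)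

/-- Reduction modulo `J`. -/
def redL (α : Type) (J : Ideal (Sx N)) : (α → Sx N) →ₗ[ℂ] (α → Sx N ⧸ J) where
  toFun v := fun a => Ideal.Quotient.mk J (v a)
  map_add' v w := by funext a; simp
  map_smul' r v := by
    funext a
    change Ideal.Quotient.mk J (r • v a) = r • Ideal.Quotient.mk J (v a)
    exact map_smul (Ideal.Quotient.mkₐ ℂ J) r (v a)

/-- The Hilbert function of the image of `V` in `(S / J)^α`. -/
def hV (J : Ideal (Sx N)) (V : ℕ → Submodule ℂ (α → Sx N)) (k : ℕ) : ℕ :=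
  Module.finrank ℂ ((V k).map (redL α J))

/-- The products `v_a w_b`, `v ∈ V`, `w ∈ W`, of total degree `k`. -/
def PV (V : ℕ → Submodule ℂ (α → Sx N)) (W : ℕ → Submodule ℂ (β → Sx N)) (k : ℕ) :
    Submodule ℂ (α × β → Sx N) :=
  Submodule.span ℂ {z | ∃ (k1 k2 : ℕ) (v : α → Sx N) (w : β → Sx N), k1 + k2 = k ∧ v ∈ V k1 ∧
    w ∈ W k2 ∧ z = fun p => v p.1 * w p.2}

/-- The vectors `v(x)_a w(y)_b` of total degree `m` over `ℂ[x, y] / (I(x) + J(y))`: the degree `m` part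
of `(V / I) ⊗ (W / J)`. -/
def TPf (I J : Ideal (Sx N)) (V : ℕ → Submodule ℂ (α → Sx N)) (W : ℕ → Submodule ℂ (β → Sx N))
    (m : ℕ) : Submodule ℂ (α × β → CR I J) :=
  Submodule.span ℂ {z | ∃ (k1 k2 : ℕ) (v : α → Sx N) (w : β → Sx N), k1 + k2 = m ∧ v ∈ V k1 ∧
    w ∈ W k2 ∧ z = fun p => Ideal.Quotient.mk (cc I J) (ix (v p.1) * iy (w p.2))}

/-- All forms, as a graded submodule of `S^1`. -/
def AF (N : ℕ) (k : ℕ) : Submodule ℂ (Unit → Sx N) where
  carrier := {v | ∀ a, (v a).IsHomogeneous k}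
  zero_mem' := fun _ => isHomogeneous_zero _ _ _
  add_mem' := fun h h' a => (h a).add (h' a)
  smul_mem' := fun r v h a => by
    rw [Pi.smul_apply, MvPolynomial.smul_eq_C_mul]
    simpa using (isHomogeneous_C _ r).mul (h a)

/-- `c ↦ (v(x)_a c_b)`. -/
def phiE (I J : Ideal (Sx N)) (v : α → Sx N) : (Unit × β → CR I J) →ₗ[Rx N] (α × β → CR I J) where
  toFun c := fun p => (ix (v p.1) : Rx N) • c ((), p.2)
  map_add' c d := by funext p; simp
  map_smul' r c := by funext p; simp only [Pi.smul_apply, RingHom.id_apply]; rw [smul_comm]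

/-- `c ↦ (∑_a ρ(x)_a c_(a,b))_b`. -/
def rX [Fintype α] (I J : Ideal (Sx N)) (ρ : α → Sx N) :
    (α × β → CR I J) →ₗ[Rx N] (Unit × β → CR I J) where
  toFun c := fun p => ∑ a, (ix (ρ a) : Rx N) • c (a, p.2)
  map_add' c d := by funext p; simp [Finset.sum_add_distrib]
  map_smul' r c := by
    funext p
    simp only [Pi.smul_apply, RingHom.id_apply, Finset.smul_sum]
    exact Finset.sum_congr rfl fun a _ => smul_comm _ _ _

/-- Local frames at the points of `V(J)`: `D v = ∑_l (ρ_l · v) e_l` modulo `I` for all `v ∈ V`. -/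
def LFr [Fintype α] (I J : Ideal (Sx N)) (V : ℕ → Submodule ℂ (α → Sx N)) : Prop :=
  ∀ p ∈ zer J, p ≠ 0 → ∃ (r : ℕ) (e ρ : Fin r → (α → Sx N)) (κ : Fin r → ℕ) (D : Sx N) (δ : ℕ),
    D.IsHomogeneous δ ∧ eval p D ≠ 0 ∧ (∀ l, e l ∈ V (κ l) ∧ κ l ≤ δ ∧
      ∀ a, (ρ l a).IsHomogeneous (δ - κ l)) ∧
    ∀ m, ∀ v ∈ V m, ∀ a, D * v a - ∑ l, (∑ a', ρ l a' * v a') * e l a ∈ I

/-- Restriction to the diagonal `x = y`. -/
def dgS : Rx N →ₐ[ℂ] Sx N := aeval (Sum.elim X X)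

theorem dgS_ix (F : Sx N) : dgS (ix F) = F := by
  unfold dgS ix
  rw [aeval_rename]
  exact aeval_X_left_apply F

theorem dgS_iy (F : Sx N) : dgS (iy F) = F := by
  unfold dgS iy
  rw [aeval_rename]
  exact aeval_X_left_apply F

theorem dgS_cc {I J : Ideal (Sx N)} (h : I ≤ J) (a : Rx N) (ha : a ∈ cc I J) :
    ((Ideal.Quotient.mkₐ ℂ J).comp dgS) a = 0 := by
  have h1 : cc I J ≤ RingHom.ker ((Ideal.Quotient.mkₐ ℂ J).comp dgS : Rx N →ₐ[ℂ] Sx N ⧸ J) := by
    refine sup_le (Ideal.map_le_iff_le_comap.2 fun F hF => ?_)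
      (Ideal.map_le_iff_le_comap.2 fun F hF => ?_)
    · change ((Ideal.Quotient.mkₐ ℂ J).comp dgS) (ix F) = 0
      rw [AlgHom.comp_apply, dgS_ix]
      exact Ideal.Quotient.eq_zero_iff_mem.2 (h hF)
    · change ((Ideal.Quotient.mkₐ ℂ J).comp dgS) (iy F) = 0
      rw [AlgHom.comp_apply, dgS_iy]
      exact Ideal.Quotient.eq_zero_iff_mem.2 hF
  exact h1 ha

/-- Restriction to the diagonal, `ℂ[x, y] / (I(x) + J(y)) → S / J`, `I ≤ J`. -/
def dg {I J : Ideal (Sx N)} (h : I ≤ J) : CR I J →ₐ[ℂ] Sx N ⧸ J :=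
  Ideal.Quotient.liftₐ (cc I J) ((Ideal.Quotient.mkₐ ℂ J).comp dgS) (dgS_cc h)

/-- Restriction of chains to the diagonal. -/
def rho {I J : Ideal (Sx N)} (h : I ≤ J) (γ : Type) :
    Cn N (γ → CR I J) →ₗ[ℂ] (γ × Finset (Fin (N + 1)) → Sx N ⧸ J) where
  toFun ω := fun p => dg h (ω p.2 p.1)
  map_add' ω η := by funext p; simp
  map_smul' r ω := by funext p; simp

end Vectors

/-- The Hilbert series. -/
def ps (h : ℕ → ℕ) : PowerSeries ℤ := PowerSeries.mk fun k => (h k : ℤ)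

/-- Vectors of `j × j` minors of Jacobian matrices, entries forms of degree `k`. -/
def VL (I : Ideal (Sx N)) (j k : ℕ) : Submodule ℂ ((Fin j → Fin (N + 1)) → Sx N) :=
  Submodule.span ℂ {z | ∃ (a : Sx N) (e : ℕ) (F : Fin j → Sx N) (f : Fin j → ℕ),
    a.IsHomogeneous e ∧ (∀ i, F i ∈ I ∧ (F i).IsHomogeneous (f i)) ∧ e + ∑ i, f i = k + j ∧
    z = fun α => a * Matrix.det (Matrix.of fun i k => pderiv (α k) (F i))}

/-- The same minors, with the columns indexed by the sets `T` of cardinality `j`. -/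
def VT (I : Ideal (Sx N)) (j k : ℕ) : Submodule ℂ (Finset (Fin (N + 1)) → Sx N) :=
  Submodule.span ℂ {z | ∃ (a : Sx N) (e : ℕ) (F : Fin j → Sx N) (f : Fin j → ℕ),
    a.IsHomogeneous e ∧ (∀ i, F i ∈ I ∧ (F i).IsHomogeneous (f i)) ∧ e + ∑ i, f i = k + j ∧
    z = fun T => if h : T.card = j then
      a * Matrix.det (Matrix.of fun i k => pderiv (T.orderEmbOfFin h k) (F i)) else 0}

end Pool.Agent.Lib.MP_776403_ag.SD
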