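import Pool.Agent.Lib.MP_776403_ag.SD.K.Defs

/-!
# THEOREM SD, part K: definitions for (RI), the homology of the Koszul complex of the diagonal

Exterior multiplication and contraction over a commutative ring; the `ℂ[x, y]`-module
`L ⊗_ℂ M` for `S`-modules `L` (acted upon by the `x`) and `M` (acted upon by the `y`); the local
statements `INJ` and `IMG`.
-/

set_option autoImplicit false

open MvPolynomial TensorProduct

noncomputable section

namespace Pool.Agent.Lib.MP_776403_ag.SD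

variable {N : ℕ}

section Fock

variable {R : Type} [CommRing R] {M : Type} [AddCommGroup M] [Module R M]

/-- Exterior multiplication by `∑ G_k e_k`. -/
def wG (G : Fin (N + 1) → R) : Cn N M →ₗ[R] Cn N M where
  toFun u := fun T => ∑ k ∈ T, sg k (T.erase k) • (G k • u (T.erase k))
  map_add' u v := by
    funext T
    simp only [Pi.add_apply, smul_add, Finset.sum_add_distrib]
  map_smul' f u := by
    funext T
    simp only [Pi.smul_apply, RingHom.id_apply, Finset.smul_sum]
    refine Finset.sum_congr rfl fun k _ => ?_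
    rw [smul_comm (G k) f, smul_comm (sg k (T.erase k)) f]

/-- Contraction with the vector `v`. -/
def cG (v : Fin (N + 1) → R) : Cn N M →ₗ[R] Cn N M where
  toFun u := fun T => ∑ k ∈ Tᶜ, sg k T • (v k • u (insert k T))
  map_add' u w := by
    funext T
    simp only [Pi.add_apply, smul_add, Finset.sum_add_distrib]
  map_smul' f u := by
    funext T
    simp only [Pi.smul_apply, RingHom.id_apply, Finset.smul_sum]
    refine Finset.sum_congr rfl fun k _ => ?_
    rw [smul_comm (v k) f, smul_comm (sg k T) f]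

/-- The chain `u` has homological degree `i`. -/
def Sup (i : ℕ) (u : Cn N M) : Prop := ∀ T : Finset (Fin (N + 1)), T.card ≠ i → u T = 0

/-- The module generated by the products `G_(k_1) ∧ … ∧ G_(k_i) ⊗ m`. -/
def WL (M : Type) [AddCommGroup M] [Module R M] {κ : Type} (G : κ → Fin (N + 1) → R) :
    ℕ → Submodule R (Cn N M)
  | 0 => { carrier := {u | Sup 0 u}
           zero_mem' := fun _ _ => rfl
           add_mem' := fun {a b} ha hb T hT => by rw [Pi.add_apply, ha T hT, hb T hT, add_zero]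
           smul_mem' := fun c a ha T hT => by rw [Pi.smul_apply, ha T hT, smul_zero] }
  | i + 1 => ⨆ k, (WL M G i).map (wG (G k))

end Fock

theorem dK_eq_cG {M : Type} [AddCommGroup M] [Module (Rx N) M] :
    (dK : Cn N M →ₗ[Rx N] Cn N M) = cG zz := rfl

/-- The differential of `F`. -/
def dF (F : Sx N) : Fin (N + 1) → Sx N := fun k => pderiv k F

/-- `ω = ∑ q_k e_k` is a lift of the differential of `F`: `F(x) - F(y) = ∑ z_k q_k`, and `q_k` is
`∂_k F` on the diagonal. -/
def IsDq (F : Sx N) (q : Fin (N + 1) → Rx N) : Prop :=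
  ix F - iy F = ∑ k, zz k * q k ∧ ∀ k, dgS (q k) = pderiv k F

/-! ## The module `L ⊗ M` over `ℂ[x, y]` -/

section TP

/-- `ℂ[x, y] → S ⊗ S`. -/
def xyT (N : ℕ) : Rx N →ₐ[ℂ] Sx N ⊗[ℂ] Sx N :=
  aeval (Sum.elim (fun k => (X k : Sx N) ⊗ₜ[ℂ] (1 : Sx N)) (fun k => (1 : Sx N) ⊗ₜ[ℂ] (X k : Sx N)))

/-- `L ⊗_ℂ M` as a module over `ℂ[x, y]`: the `x` act on `L`, the `y` on `M`. -/
def TM (_N : ℕ) (L M : Type) [AddCommGroup L] [Module ℂ L] [AddCommGroup M] [Module ℂ M] : Type :=
  L ⊗[ℂ] M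

variable (N) (L M : Type) [AddCommGroup L] [Module ℂ L] [AddCommGroup M] [Module ℂ M]

instance : AddCommGroup (TM N L M) := inferInstanceAs (AddCommGroup (L ⊗[ℂ] M))

instance : Module ℂ (TM N L M) := inferInstanceAs (Module ℂ (L ⊗[ℂ] M))

variable {L M} in
/-- The pure tensor. -/
def tm (l : L) (m : M) : TM N L M := l ⊗ₜ[ℂ] m

variable [Module (Sx N) L] [IsScalarTower ℂ (Sx N) L] [Module (Sx N) M]
  [IsScalarTower ℂ (Sx N) M]

/-- The action of `S ⊗ S` on `L ⊗ M`. -/
def actT : Sx N ⊗[ℂ] Sx N →ₐ[ℂ] Module.End ℂ (L ⊗[ℂ] M) :=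
  Algebra.TensorProduct.lift
    ((Module.End.rTensorAlgHom ℂ L M).comp (Algebra.lsmul ℂ ℂ L))
    ((Module.End.lTensorAlgHom ℂ M L).comp (Algebra.lsmul ℂ ℂ M))
    (fun a b => by
      refine LinearMap.ext fun t => ?_
      induction t using TensorProduct.induction_on with
      | zero => simp
      | tmul l m => rfl
      | add u v hu hv => rw [map_add, map_add, hu, hv])

instance : Module (Rx N) (TM N L M) :=
  Module.compHom (L ⊗[ℂ] M) ((actT N L M).comp (xyT N) : Rx N →ₐ[ℂ] _).toRingHom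

theorem TM_smul (r : Rx N) (a : TM N L M) : r • a = (actT N L M) (xyT N r) a := rfl

theorem ix_smul_tm (F : Sx N) (l : L) (m : M) : (ix F : Rx N) • tm N l m = tm N (F • l) m := by
  have h : xyT N (ix F) = F ⊗ₜ[ℂ] 1 := by
    have h1 : (xyT N).comp ix = Algebra.TensorProduct.includeLeft := by
      refine MvPolynomial.algHom_ext fun k => ?_
      simp [xyT, ix]
    exact DFunLike.congr_fun h1 F
  rw [TM_smul, h]
  have h2 : (actT N L M) (F ⊗ₜ[ℂ] 1) =
      ((Module.End.rTensorAlgHom ℂ L M).comp (Algebra.lsmul ℂ ℂ L)) F *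
      ((Module.End.lTensorAlgHom ℂ M L).comp (Algebra.lsmul ℂ ℂ M)) (1 : Sx N) :=
    Algebra.TensorProduct.lift_tmul _ _ _ _ _
  rw [h2, map_one, mul_one]
  rfl

theorem iy_smul_tm (F : Sx N) (l : L) (m : M) : (iy F : Rx N) • tm N l m = tm N l (F • m) := by
  have h : xyT N (iy F) = 1 ⊗ₜ[ℂ] F := by
    have h1 : (xyT N).comp iy = Algebra.TensorProduct.includeRight := by
      refine MvPolynomial.algHom_ext fun k => ?_
      simp [xyT, iy]
    exact DFunLike.congr_fun h1 F
  rw [TM_smul, h]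
  have h2 : (actT N L M) (1 ⊗ₜ[ℂ] F) =
      ((Module.End.rTensorAlgHom ℂ L M).comp (Algebra.lsmul ℂ ℂ L)) (1 : Sx N) *
      ((Module.End.lTensorAlgHom ℂ M L).comp (Algebra.lsmul ℂ ℂ M)) F :=
    Algebra.TensorProduct.lift_tmul _ _ _ _ _
  rw [h2, map_one, one_mul]
  rfl

instance : IsScalarTower ℂ (Rx N) (TM N L M) where
  smul_assoc a r t := by
    rw [TM_smul, TM_smul, map_smul, map_smul]
    rfl

end TP

/-! ## Local statements -/

section Loc

variable {A M : Type} [AddCommGroup A] [Module ℂ A] [Module (Rx N) A] [AddCommGroup M] [Module ℂ M]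
  [Module (Sx N) M]

variable (N) in
/-- `ρ` is semilinear along the diagonal. -/
def DgL (ρ : A →ₗ[ℂ] M) : Prop := ∀ (r : Rx N) (a : A), ρ (r • a) = (dgS r : Sx N) • ρ a

/-- Near `p` a cycle with restriction `0` to the diagonal is a boundary. -/
def INJ (p : Vx N) (ρ : A →ₗ[ℂ] M) : Prop :=
  ∀ (i : ℕ) (w : Cn N A), Sup i w → dK w = 0 → (∀ T, ρ (w T) = 0) →
    ∃ (g : Sx N) (v : Cn N A), eval p g ≠ 0 ∧ Sup (i + 1) v ∧ dK v = (ix g : Rx N) • w

/-- Near `p` the restriction of a cycle to the diagonal is a combination of products of the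
`G k`. -/
def IMG (p : Vx N) (ρ : A →ₗ[ℂ] M) {κ : Type} (G : κ → Fin (N + 1) → Sx N) : Prop :=
  ∀ (i : ℕ) (w : Cn N A), Sup i w → dK w = 0 →
    ∃ g : Sx N, eval p g ≠ 0 ∧ (fun T => g • ρ (w T)) ∈ WL M G i

end Loc

end Pool.Agent.Lib.MP_776403_ag.SD
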