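import Pool.Agent.Lib.MP_776403_ag.SD.K.SpecK

/-!
# THEOREM SD, part K: the self-intersection formula from its parts
-/

set_option autoImplicit false

open MvPolynomial

noncomputable section

namespace Pool.Agent.Lib.MP_776403_ag.SD

/-- a power series with vanishing large coefficients is a polynomial -/
private theorem poly_of_ev (f : PowerSeries ℤ) (m0 : ℕ)
    (h : ∀ m, m0 ≤ m → PowerSeries.coeff m f = 0) : ∃ p : Polynomial ℤ, f = (p : PowerSeries ℤ) := by
  refine ⟨PowerSeries.trunc m0 f, ?_⟩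
  ext m
  rw [Polynomial.coeff_coe, PowerSeries.coeff_trunc]
  split_ifs with h1
  · rfl
  · exact h m (not_lt.1 h1)

/-- the coefficients of `(1 - T)^n` -/
private theorem coeff_one_sub (n i : ℕ) :
    PowerSeries.coeff i ((1 - PowerSeries.X : PowerSeries ℤ) ^ n) =
      (-1 : ℤ) ^ i * (Nat.choose n i : ℤ) := by
  have h1 : ((1 - Polynomial.X : Polynomial ℤ) ^ n : Polynomial ℤ) =
      ∑ k ∈ Finset.range (n + 1), Polynomial.C ((-1 : ℤ) ^ k * (Nat.choose n k : ℤ)) *
        Polynomial.X ^ k := by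
    rw [sub_eq_neg_add, add_pow]
    refine Finset.sum_congr rfl fun k _ => ?_
    rw [one_pow, mul_one, neg_pow, map_mul, map_pow, map_neg, map_one, map_natCast]
    ring
  have h2 : ((1 - PowerSeries.X : PowerSeries ℤ) ^ n) =
      (((1 - Polynomial.X : Polynomial ℤ) ^ n : Polynomial ℤ) : PowerSeries ℤ) := by
    rw [Polynomial.coe_pow, Polynomial.coe_sub, Polynomial.coe_one, Polynomial.coe_X]
  rw [h2, Polynomial.coeff_coe, h1, Polynomial.finsetSum_coeff]
  simp only [Polynomial.coeff_C_mul_X_pow]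
  rw [Finset.sum_ite_eq]
  split_ifs with h3
  · rfl
  · have h4 : n < i := by
      rw [Finset.mem_range, not_lt] at h3
      omega
    rw [Nat.choose_eq_zero_of_lt h4]
    simp

/-- the coefficients of `(1 - T)^(N + 1) ∑ a_m T^m` -/
private theorem coeff_mul_mk (N : ℕ) (a : ℕ → ℤ) (m : ℕ) :
    PowerSeries.coeff m ((1 - PowerSeries.X : PowerSeries ℤ) ^ (N + 1) * PowerSeries.mk a) =
      ∑ i ∈ Finset.range (N + 2), (-1 : ℤ) ^ i * (Nat.choose (N + 1) i : ℤ) *
        (if i ≤ m then a (m - i) else 0) := by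
  rw [PowerSeries.coeff_mul, Finset.Nat.sum_antidiagonal_eq_sum_range_succ_mk]
  simp only [PowerSeries.coeff_mk, coeff_one_sub]
  have h1 : ∑ i ∈ Finset.range (m + 1), (-1 : ℤ) ^ i * (Nat.choose (N + 1) i : ℤ) * a (m - i) =
      ∑ i ∈ Finset.range (m + 1 + (N + 2)), (-1 : ℤ) ^ i * (Nat.choose (N + 1) i : ℤ) *
        (if i ≤ m then a (m - i) else 0) := by
    rw [Finset.sum_range_add _ (m + 1) (N + 2)]
    have h2 : ∑ x ∈ Finset.range (N + 2), (-1 : ℤ) ^ (m + 1 + x) *
        (Nat.choose (N + 1) (m + 1 + x) : ℤ) *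
        (if m + 1 + x ≤ m then a (m - (m + 1 + x)) else 0) = 0 := by
      refine Finset.sum_eq_zero fun x _ => ?_
      rw [if_neg (by omega), mul_zero]
    rw [h2, add_zero]
    refine Finset.sum_congr rfl fun i hi => ?_
    rw [if_pos (by rw [Finset.mem_range] at hi; omega)]
  have h3 : ∑ i ∈ Finset.range (N + 2), (-1 : ℤ) ^ i * (Nat.choose (N + 1) i : ℤ) *
        (if i ≤ m then a (m - i) else 0) =
      ∑ i ∈ Finset.range (N + 2 + (m + 1)), (-1 : ℤ) ^ i * (Nat.choose (N + 1) i : ℤ) *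
        (if i ≤ m then a (m - i) else 0) := by
    rw [Finset.sum_range_add _ (N + 2) (m + 1)]
    have h2 : ∑ x ∈ Finset.range (m + 1), (-1 : ℤ) ^ (N + 2 + x) *
        (Nat.choose (N + 1) (N + 2 + x) : ℤ) *
        (if N + 2 + x ≤ m then a (m - (N + 2 + x)) else 0) = 0 := by
      refine Finset.sum_eq_zero fun x _ => ?_
      rw [Nat.choose_eq_zero_of_lt (by omega)]
      simp
    rw [h2, add_zero]
  rw [h1, h3, add_comm (m + 1) (N + 2)]

/-- the product of Hilbert series -/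
private theorem ps_mul (f g : ℕ → ℕ) : ps f * ps g =
    PowerSeries.mk fun m => ((∑ k ∈ Finset.range (m + 1), f k * g (m - k) : ℕ) : ℤ) := by
  ext m
  rw [PowerSeries.coeff_mul, Finset.Nat.sum_antidiagonal_eq_sum_range_succ_mk, PowerSeries.coeff_mk]
  unfold ps
  simp only [PowerSeries.coeff_mk]
  push_cast
  rfl

private theorem lfr_AF {N : ℕ} (I J : Ideal (Sx N)) : LFr I J (AF N) := by
  intro p _ _
  refine ⟨1, fun _ _ => 1, fun _ _ => 1, fun _ => 0, 1, 0, isHomogeneous_one _ _, ?_, ?_, ?_⟩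
  · rw [map_one]
    exact one_ne_zero
  · intro l
    exact ⟨fun a => isHomogeneous_one _ _, le_refl _, fun a => isHomogeneous_one _ _⟩
  · intro m v _ a
    have : (1 : Sx N) * v a - ∑ l : Fin 1, (∑ a' : Unit, (1 : Sx N) * v a') * 1 = 0 := by
      simp
    rw [this]
    exact I.zero_mem

theorem tKI : S_KRI → S_KEul → S_KTP → S_KGF → S_KGV → S_KPV → S_KI := by
  intro hRI hEul hTP hGF hGV hPV N c α β _ _ I J hI hIh hS hJ hJh hIJ V W gvV gvW hL
  obtain ⟨gAF, gPV, _, _⟩ := hGV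
  obtain ⟨hP1, _⟩ := hPV
  have hVW : GV (PV V W) := gPV N α β V W gvV gvW
  obtain ⟨a1, a2, _⟩ := hGF N α β I J V W gvV gvW
  obtain ⟨b1, b2, _⟩ := hGF N Unit (α × β) I J (AF N) (PV V W) (gAF N) hVW
  have e1 := hEul N (α × β → CR I J) (TPf I J V W) a1 a2
  have e2 := hEul N (Unit × (α × β) → CR I J) (TPf I J (AF N) (PV V W)) b1 b2
  have r1 := hRI N c α β I J hI hIh hS hJ hJh hIJ V W gvV gvW hL
  have r2 := hRI N c Unit (α × β) I J hI hIh hS hJ hJh hIJ (AF N) (PV V W) (gAF N) hVW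
    (lfr_AF I J)
  choose m1 h1 using r1
  choose m2 h2 using r2
  have key : ∀ m, (∑ i ∈ Finset.range (N + 2), (m1 i + m2 i)) ≤ m →
      ∑ i ∈ Finset.range (N + 2), (-1 : ℤ) ^ i * (Nat.choose (N + 1) i : ℤ) *
        (if i ≤ m then ((Module.finrank ℂ (TPf I J V W (m - i)) : ℤ) -
          Module.finrank ℂ (TPf I J (AF N) (PV V W) (m - i))) else 0) = 0 := by
    intro m hm
    have h3 : ∑ i ∈ Finset.range (N + 2), (-1 : ℤ) ^ i * (Nat.choose (N + 1) i : ℤ) *
        (if i ≤ m then ((Module.finrank ℂ (TPf I J V W (m - i)) : ℤ) -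
          Module.finrank ℂ (TPf I J (AF N) (PV V W) (m - i))) else 0) =
        ∑ i ∈ Finset.range (N + 2), (-1 : ℤ) ^ i * (Nat.choose (N + 1) i : ℤ) *
          (if i ≤ m then (Module.finrank ℂ (TPf I J V W (m - i)) : ℤ) else 0) -
        ∑ i ∈ Finset.range (N + 2), (-1 : ℤ) ^ i * (Nat.choose (N + 1) i : ℤ) *
          (if i ≤ m then (Module.finrank ℂ (TPf I J (AF N) (PV V W) (m - i)) : ℤ) else 0) := by
      rw [← Finset.sum_sub_distrib]
      refine Finset.sum_congr rfl fun i _ => ?_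
      split_ifs <;> ring
    rw [h3, ← e1 m, ← e2 m, ← Finset.sum_sub_distrib]
    refine Finset.sum_eq_zero fun i hi => ?_
    have h4 : m1 i + m2 i ≤ m :=
      (Finset.single_le_sum (f := fun i => m1 i + m2 i) (fun _ _ => Nat.zero_le _) hi).trans hm
    rw [h1 i m (by omega), h2 i m (by omega),
      (hP1 N (α × β) (Finset (Fin (N + 1))) J (PV V W) (VT I i) hVW (m - i)).1, sub_self]
  have hgr : hV I (AF N) = fun k => Module.finrank ℂ (gr I k) := by
    funext k
    exact (hP1 N Unit Unit I (AF N) (AF N) (gAF N) k).2.2.2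
  have t1 : ps (hV I V) * ps (hV J W) =
      PowerSeries.mk fun m => (Module.finrank ℂ (TPf I J V W m) : ℤ) := by
    rw [ps_mul]
    congr 1
    funext m
    rw [hTP N α β I J hIh hJh V W gvV gvW m]
  have t2 : ps (fun k => Module.finrank ℂ (gr I k)) * ps (hV J (PV V W)) =
      PowerSeries.mk fun m => (Module.finrank ℂ (TPf I J (AF N) (PV V W) m) : ℤ) := by
    rw [← hgr, ps_mul]
    congr 1
    funext m
    rw [hTP N Unit (α × β) I J hIh hJh (AF N) (PV V W) (gAF N) hVW m]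
  have t3 : ps (hV I V) * ps (hV J W) -
      ps (fun k => Module.finrank ℂ (gr I k)) * ps (hV J (PV V W)) =
      PowerSeries.mk fun m => ((Module.finrank ℂ (TPf I J V W m) : ℤ) -
        Module.finrank ℂ (TPf I J (AF N) (PV V W) m)) := by
    rw [t1, t2]
    ext m
    rw [map_sub, PowerSeries.coeff_mk, PowerSeries.coeff_mk, PowerSeries.coeff_mk]
  rw [t3]
  refine poly_of_ev _ (∑ i ∈ Finset.range (N + 2), (m1 i + m2 i)) fun m hm => ?_
  rw [coeff_mul_mk]
  exact key m hm

end Pool.Agent.Lib.MP_776403_ag.SD
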