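import Pool.Agent.Lib.MP_776403_ag.SD.K.SpecK

/-!
# THEOREM SD, part K, KMap: degrees of the maps
-/

set_option autoImplicit false

open MvPolynomial

noncomputable section

namespace Pool.Agent.Lib.MP_776403_ag.SD

private theorem kmap_K {N : ℕ} {M M' : Type} [AddCommGroup M] [Module (Rx N) M] [Module ℂ M]
    [IsScalarTower ℂ (Rx N) M] [AddCommGroup M'] [Module (Rx N) M'] [Module ℂ M']
    [IsScalarTower ℂ (Rx N) M'] (A : ℕ → Submodule ℂ M) (A' : ℕ → Submodule ℂ M')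
    (f : M →ₗ[Rx N] M') (s : ℕ) (hf : ∀ k, ∀ w ∈ A k, f w ∈ A' (k + s)) (i m : ℕ)
    (ω : Cn N M) (hω : ω ∈ Kc N A i m) : mapC f ω ∈ Kc N A' i (m + s) := by
  intro T
  refine ⟨fun h1 h2 => ?_, fun h1 => ?_⟩
  · change f (ω T) ∈ A' (m + s - i)
    by_cases h3 : i ≤ m
    · have h4 := hf _ _ ((hω T).1 h1 h3)
      have h5 : m + s - i = m - i + s := by omega
      rw [h5]
      exact h4
    · have h4 : ω T = 0 := (hω T).2 (Or.inr (by omega))
      rw [h4, map_zero]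
      exact Submodule.zero_mem _
  · change f (ω T) = 0
    have h4 : ω T = 0 := (hω T).2 (by
      rcases h1 with h1 | h1
      · exact Or.inl h1
      · exact Or.inr (by omega))
    rw [h4, map_zero]

private theorem kmap_one {N : ℕ} {M M' : Type} [AddCommGroup M] [Module (Rx N) M] [Module ℂ M]
    [IsScalarTower ℂ (Rx N) M] [AddCommGroup M'] [Module (Rx N) M'] [Module ℂ M']
    [IsScalarTower ℂ (Rx N) M'] (A : ℕ → Submodule ℂ M) (A' : ℕ → Submodule ℂ M')
    (f : M →ₗ[Rx N] M') (s : ℕ) (hf : ∀ k, ∀ w ∈ A k, f w ∈ A' (k + s)) (i m : ℕ) :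
    (∀ ω ∈ Kc N A i m, mapC f ω ∈ Kc N A' i (m + s)) ∧
    (∀ ω ∈ Zc N A i m, mapC f ω ∈ Zc N A' i (m + s)) ∧
    ∀ ω ∈ Bc N A i m, mapC f ω ∈ Bc N A' i (m + s) := by
  refine ⟨fun ω hω => kmap_K A A' f s hf i m ω hω, fun ω hω => ⟨?_, ?_⟩, fun ω hω => ?_⟩
  · exact kmap_K A A' f s hf i m ω hω.1
  · have h1 : dK (N := N) (M := M) ω = 0 := hω.2
    change dK (N := N) (M := M') (mapC f ω) = 0
    rw [mapC_dK, h1, map_zero]
  · obtain ⟨η, hη, rfl⟩ := hω
    refine ⟨mapC f η, kmap_K A A' f s hf (i + 1) m η hη, ?_⟩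
    change dK (N := N) (M := M') (mapC f η) = mapC f (dK (N := N) (M := M) η)
    exact mapC_dK f η

private theorem kmap_smul {N : ℕ} (I J : Ideal (Sx N)) (a b : Rx N) :
    a • (Ideal.Quotient.mk (cc I J) b : CR I J) = Ideal.Quotient.mk (cc I J) (a * b) := rfl

private theorem kmap_phi {N : ℕ} {α β : Type} (I J : Ideal (Sx N))
    (V : ℕ → Submodule ℂ (α → Sx N)) (W : ℕ → Submodule ℂ (β → Sx N))
    (hV : ∀ (k e : ℕ) (g : Sx N) (v : α → Sx N), g.IsHomogeneous e → v ∈ V k →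
      (fun a => g * v a) ∈ V (k + e))
    (κ : ℕ) (v : α → Sx N) (hv : v ∈ V κ) (k : ℕ) (c : Unit × β → CR I J)
    (hc : c ∈ TPf I J (AF N) W k) : phiE I J v c ∈ TPf I J V W (k + κ) := by
  have key : TPf I J (AF N) W k ≤
      (TPf I J V W (k + κ)).comap ((phiE I J v (β := β)).restrictScalars ℂ) := by
    refine Submodule.span_le.2 ?_
    rintro z ⟨k1, k2, g, w, hk, hg, hw, rfl⟩
    have hg' : (g ()).IsHomogeneous k1 := hg ()
    refine Submodule.subset_span ⟨κ + k1, k2, fun a => g () * v a, w, by omega,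
      hV κ k1 (g ()) v hg' hv, hw, ?_⟩
    funext p
    change (ix (v p.1) : Rx N) • (Ideal.Quotient.mk (cc I J) (ix (g ()) * iy (w p.2)) : CR I J) = _
    rw [kmap_smul, map_mul (ix (N := N))]
    congr 1
    ring
  exact key hc

private theorem kmap_rX {N : ℕ} {α β : Type} [Fintype α] (I J : Ideal (Sx N))
    (V : ℕ → Submodule ℂ (α → Sx N)) (W : ℕ → Submodule ℂ (β → Sx N)) (hV : GV V)
    (ρ : α → Sx N) (s : ℕ) (hρ : ∀ a, (ρ a).IsHomogeneous s) (k : ℕ) (c : α × β → CR I J)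
    (hc : c ∈ TPf I J V W k) : rX I J ρ c ∈ TPf I J (AF N) W (k + s) := by
  have key : TPf I J V W k ≤
      (TPf I J (AF N) W (k + s)).comap ((rX I J ρ (β := β)).restrictScalars ℂ) := by
    refine Submodule.span_le.2 ?_
    rintro z ⟨k1, k2, v, w, hk, hv, hw, rfl⟩
    have hh : (∑ a, ρ a * v a).IsHomogeneous (s + k1) :=
      IsHomogeneous.sum _ _ _ fun a _ => (hρ a).mul (hV.hom k1 v hv a)
    refine Submodule.subset_span ⟨s + k1, k2, fun _ => ∑ a, ρ a * v a, w, by omega,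
      fun _ => hh, hw, ?_⟩
    funext p
    change ∑ a, (ix (ρ a) : Rx N) •
      (Ideal.Quotient.mk (cc I J) (ix (v a) * iy (w p.2)) : CR I J) = _
    rw [map_sum (ix (N := N)), Finset.sum_mul, map_sum]
    refine Finset.sum_congr rfl fun a _ => ?_
    rw [kmap_smul, map_mul (ix (N := N))]
    congr 1
    ring
  exact key hc

theorem tKMap : S_KGV → S_KMap := by
  intro hG
  refine ⟨?_, ?_⟩
  · intro N M M' _ _ _ _ _ _ _ _ A A' f s hf i m
    exact kmap_one A A' f s hf i m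
  · intro N α β _ _ I J V W hV hW
    refine ⟨fun κ v hv k c hc => kmap_phi I J V W ((hG.2.2.2 N α V hV).1) κ v hv k c hc,
      fun ρ s hρ k c hc => kmap_rX I J V W hV ρ s hρ k c hc⟩

end Pool.Agent.Lib.MP_776403_ag.SD
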