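import Pool.Agent.Lib.MP_776403_ag.SD.K.SpecR

/-!
# THEOREM SD, part K: (RBas1), the Koszul complex of the `x_k - y_k` on `S ⊗ M`
-/

set_option autoImplicit false

open MvPolynomial TensorProduct

noncomputable section

namespace Pool.Agent.Lib.MP_776403_ag.SD

namespace RBas1Aux

variable {N : ℕ}

/-! ## 1. Signs -/

theorem sg_sq (k : Fin (N + 1)) (T : Finset (Fin (N + 1))) : sg k T * sg k T = 1 := by
  unfold sg
  rw [← mul_pow]
  norm_num

/-- The sign of an inversion. -/
def sn (a b : Fin (N + 1)) : ℤ := if a < b then -1 else 1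

theorem sn_add {a b : Fin (N + 1)} (h : a ≠ b) : sn a b + sn b a = 0 := by
  unfold sn
  rcases lt_or_gt_of_ne h with h1 | h1
  · rw [if_pos h1, if_neg (not_lt.2 h1.le)]
    norm_num
  · rw [if_pos h1, if_neg (not_lt.2 h1.le)]
    norm_num

theorem sg_insert (k l : Fin (N + 1)) (T : Finset (Fin (N + 1))) (h : l ∉ T) :
    sg k (insert l T) = sn l k * sg k T := by
  unfold sg sn
  rw [Finset.filter_insert]
  by_cases h1 : l < k
  · rw [if_pos h1, if_pos h1, Finset.card_insert_of_notMem (by simp [h]), pow_succ]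
    ring
  · rw [if_neg h1, if_neg h1, one_mul]

theorem sn_sq (a b : Fin (N + 1)) : sn a b * sn a b = 1 := by
  unfold sn
  by_cases h : a < b <;> simp [h]

theorem sg_erase (k l : Fin (N + 1)) (T : Finset (Fin (N + 1))) (h : l ∈ T) :
    sg k (T.erase l) = sn l k * sg k T := by
  have h1 := sg_insert k l (T.erase l) (Finset.notMem_erase l T)
  rw [Finset.insert_erase h] at h1
  rw [h1, ← mul_assoc, sn_sq, one_mul]

/-! ## 2. The operators -/

section Ext

variable {A : Type} [AddCommGroup A]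

/-- Contraction with `e_k`. -/
def iZ (k : Fin (N + 1)) : Cn N A →+ Cn N A where
  toFun u := fun T => if k ∈ T then 0 else sg k T • u (insert k T)
  map_zero' := by
    funext T
    by_cases h : k ∈ T <;> simp [h]
  map_add' u w := by
    funext T
    by_cases h : k ∈ T <;> simp [h]

/-- Exterior multiplication by `e_k`. -/
def eZ (k : Fin (N + 1)) : Cn N A →+ Cn N A where
  toFun u := fun T => if k ∈ T then sg k (T.erase k) • u (T.erase k) else 0
  map_zero' := by
    funext T
    by_cases h : k ∈ T <;> simp [h]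
  map_add' u w := by
    funext T
    by_cases h : k ∈ T <;> simp [h]

theorem iZ_mem {k : Fin (N + 1)} {T : Finset (Fin (N + 1))} (u : Cn N A) (h : k ∈ T) :
    iZ k u T = 0 := if_pos h

theorem iZ_not {k : Fin (N + 1)} {T : Finset (Fin (N + 1))} (u : Cn N A) (h : k ∉ T) :
    iZ k u T = sg k T • u (insert k T) := if_neg h

theorem eZ_mem {k : Fin (N + 1)} {T : Finset (Fin (N + 1))} (u : Cn N A) (h : k ∈ T) :
    eZ k u T = sg k (T.erase k) • u (T.erase k) := if_pos h

theorem eZ_not {k : Fin (N + 1)} {T : Finset (Fin (N + 1))} (u : Cn N A) (h : k ∉ T) :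
    eZ k u T = 0 := if_neg h

theorem ie_same (k : Fin (N + 1)) (u : Cn N A) : iZ k (eZ k u) + eZ k (iZ k u) = u := by
  funext T
  rw [Pi.add_apply]
  by_cases h : k ∈ T
  · rw [iZ_mem _ h, eZ_mem _ h, iZ_not _ (Finset.notMem_erase k T), Finset.insert_erase h,
      smul_smul, sg_sq, one_smul, zero_add]
  · rw [iZ_not _ h, eZ_not _ h, eZ_mem _ (Finset.mem_insert_self k T), Finset.erase_insert h,
      smul_smul, sg_sq, one_smul, add_zero]

theorem ie_ne {k l : Fin (N + 1)} (hkl : k ≠ l) (u : Cn N A) :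
    iZ k (eZ l u) + eZ l (iZ k u) = 0 := by
  funext T
  rw [Pi.add_apply, Pi.zero_apply]
  by_cases h : k ∈ T
  · rw [iZ_mem _ h, zero_add]
    by_cases h2 : l ∈ T
    · rw [eZ_mem _ h2, iZ_mem _ (Finset.mem_erase.2 ⟨hkl, h⟩), smul_zero]
    · rw [eZ_not _ h2]
  · rw [iZ_not _ h]
    by_cases h2 : l ∈ T
    · have h3 : k ∉ T.erase l := fun h4 => h (Finset.mem_of_mem_erase h4)
      rw [eZ_mem _ (Finset.mem_insert_of_mem h2), eZ_mem _ h2, iZ_not _ h3,
        Finset.erase_insert_of_ne hkl, smul_smul, smul_smul, ← add_smul,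
        sg_insert l k _ h3, sg_erase k l T h2]
      have h5 := sn_add hkl
      have h6 : sg k T * (sn k l * sg l (T.erase l)) + sg l (T.erase l) * (sn l k * sg k T) = 0 := by
        linear_combination (sg k T * sg l (T.erase l)) * h5
      rw [h6, zero_smul]
    · rw [eZ_not _ h2, eZ_not _ (fun h3 => h2 ((Finset.mem_insert.1 h3).resolve_left (Ne.symm hkl))),
        smul_zero, add_zero]

theorem ei_self (k : Fin (N + 1)) (u : Cn N A) (T : Finset (Fin (N + 1))) :
    eZ k (iZ k u) T = if k ∈ T then u T else 0 := by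
  by_cases h : k ∈ T
  · rw [if_pos h, eZ_mem _ h, iZ_not _ (Finset.notMem_erase k T), Finset.insert_erase h,
      smul_smul, sg_sq, one_smul]
  · rw [if_neg h, eZ_not _ h]

theorem ei_sum (u : Cn N A) (T : Finset (Fin (N + 1))) :
    (∑ k, eZ k (iZ k u)) T = T.card • u T := by
  rw [Finset.sum_apply]
  simp only [ei_self]
  rw [Finset.sum_ite_mem, Finset.univ_inter, Finset.sum_const]

/-- A map on chains, entry by entry. -/
def mD (D : A →+ A) : Cn N A →+ Cn N A where
  toFun u := fun T => D (u T)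
  map_zero' := by
    funext T
    exact map_zero D
  map_add' u w := by
    funext T
    exact map_add D (u T) (w T)

theorem mD_iZ (D : A →+ A) (k : Fin (N + 1)) (u : Cn N A) : mD D (iZ k u) = iZ k (mD D u) := by
  funext T
  change D (iZ k u T) = iZ k (mD D u) T
  by_cases h : k ∈ T
  · rw [iZ_mem _ h, iZ_mem _ h, map_zero]
  · rw [iZ_not _ h, iZ_not _ h, map_zsmul]
    rfl

theorem mD_eZ (D : A →+ A) (k : Fin (N + 1)) (u : Cn N A) : mD D (eZ k u) = eZ k (mD D u) := by
  funext T
  change D (eZ k u T) = eZ k (mD D u) T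
  by_cases h : k ∈ T
  · rw [eZ_mem _ h, eZ_mem _ h, map_zsmul]
    rfl
  · rw [eZ_not _ h, eZ_not _ h, map_zero]

variable [Module (Rx N) A]

theorem dK_eq (u : Cn N A) : dK u = ∑ k, (zz k : Rx N) • iZ k u := by
  funext T
  rw [Finset.sum_apply]
  have h1 : ∀ k, ((zz k : Rx N) • iZ k u) T =
      if k ∈ T then 0 else sg k T • ((zz k : Rx N) • u (insert k T)) := by
    intro k
    rw [Pi.smul_apply]
    by_cases h : k ∈ T
    · rw [if_pos h, iZ_mem u h, smul_zero]
    · rw [if_neg h, iZ_not u h, smul_comm]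
  simp only [h1]
  rw [Finset.sum_ite, Finset.sum_const_zero, zero_add]
  exact Finset.sum_congr (by ext; simp) fun _ _ => rfl

theorem iZ_smul (r : Rx N) (k : Fin (N + 1)) (u : Cn N A) : iZ k (r • u) = r • iZ k u := by
  funext T
  rw [Pi.smul_apply]
  by_cases h : k ∈ T
  · rw [iZ_mem _ h, iZ_mem _ h, smul_zero]
  · rw [iZ_not _ h, iZ_not _ h, Pi.smul_apply, smul_comm]

theorem eZ_smul (r : Rx N) (k : Fin (N + 1)) (u : Cn N A) : eZ k (r • u) = r • eZ k u := by
  funext T
  rw [Pi.smul_apply]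
  by_cases h : k ∈ T
  · rw [eZ_mem _ h, eZ_mem _ h, Pi.smul_apply, smul_comm]
  · rw [eZ_not _ h, eZ_not _ h, smul_zero]

/-- `δ`. -/
def dl (D : Fin (N + 1) → A →+ A) : Cn N A →+ Cn N A := ∑ l, (mD (D l)).comp (eZ l)

theorem dl_apply (D : Fin (N + 1) → A →+ A) (u : Cn N A) :
    dl D u = ∑ l, mD (D l) (eZ l u) := by
  unfold dl
  rw [AddMonoidHom.finsetSum_apply]
  rfl

theorem mD_smul (D : Fin (N + 1) → A →+ A)
    (hD : ∀ (l k : Fin (N + 1)) (t : A), D l ((zz k : Rx N) • t) =
      (zz k : Rx N) • D l t + if k = l then t else 0) (l k : Fin (N + 1)) (u : Cn N A) :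
    mD (D l) ((zz k : Rx N) • u) = (zz k : Rx N) • mD (D l) u + if k = l then u else 0 := by
  funext T
  rw [Pi.add_apply, Pi.smul_apply]
  change D l ((zz k : Rx N) • u T) = _
  rw [hD]
  by_cases h : k = l
  · rw [if_pos h, if_pos h]
    rfl
  · rw [if_neg h, if_neg h]
    rfl

theorem htpy (D : Fin (N + 1) → A →+ A)
    (hD : ∀ (l k : Fin (N + 1)) (t : A), D l ((zz k : Rx N) • t) =
      (zz k : Rx N) • D l t + if k = l then t else 0) (u : Cn N A) :
    dK (dl D u) + dl D (dK u) = ∑ k, (zz k : Rx N) • mD (D k) u + ∑ k, eZ k (iZ k u) := by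
  have h1 : dK (dl D u) = ∑ k, ∑ l, (zz k : Rx N) • mD (D l) (iZ k (eZ l u)) := by
    rw [dK_eq, dl_apply]
    refine Finset.sum_congr rfl fun k _ => ?_
    rw [map_sum, Finset.smul_sum]
    refine Finset.sum_congr rfl fun l _ => ?_
    rw [mD_iZ]
  have h2 : dl D (dK u) = ∑ k, ∑ l, ((zz k : Rx N) • mD (D l) (eZ l (iZ k u)) +
      if k = l then eZ l (iZ k u) else 0) := by
    rw [dl_apply, dK_eq, Finset.sum_comm]
    refine Finset.sum_congr rfl fun l _ => ?_
    rw [map_sum, map_sum]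
    refine Finset.sum_congr rfl fun k _ => ?_
    rw [eZ_smul, mD_smul D hD]
  rw [h1, h2, ← Finset.sum_add_distrib, ← Finset.sum_add_distrib]
  refine Finset.sum_congr rfl fun k _ => ?_
  rw [← Finset.sum_add_distrib]
  have h3 : ∀ l, (zz k : Rx N) • mD (D l) (iZ k (eZ l u)) +
      ((zz k : Rx N) • mD (D l) (eZ l (iZ k u)) + if k = l then eZ l (iZ k u) else 0) =
      if k = l then (zz k : Rx N) • mD (D k) u + eZ k (iZ k u) else 0 := by
    intro l
    rw [← add_assoc, ← smul_add, ← map_add]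
    by_cases h : k = l
    · subst h
      rw [ie_same, if_pos rfl, if_pos rfl]
    · rw [ie_ne h, if_neg h, if_neg h, map_zero, smul_zero, zero_add]
  simp only [h3]
  rw [Finset.sum_ite_eq, if_pos (Finset.mem_univ k)]

/-! ## 3. The induction -/

theorem claim [Module ℂ A] [IsScalarTower ℂ (Rx N) A] (D : Fin (N + 1) → A →+ A)
    (hD : ∀ (l k : Fin (N + 1)) (t : A), D l ((zz k : Rx N) • t) =
      (zz k : Rx N) • D l t + if k = l then t else 0)
    (Fil : ℕ → Submodule ℂ A) (h0 : Fil 0 = ⊥)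
    (hF : ∀ n, ∀ t ∈ Fil (n + 1), ∑ k, (zz k : Rx N) • D k t - (n : ℂ) • t ∈ Fil n)
    (hdd : ∀ u : Cn N A, dK (dK u) = 0) (i n : ℕ) :
    ∀ w : Cn N A, (∀ T, w T ∈ Fil n) → Sup (i + 1) w → dK w = 0 →
      ∃ v : Cn N A, Sup (i + 2) v ∧ dK v = w := by
  induction n with
  | zero =>
    intro w hw _ _
    refine ⟨0, fun _ _ => rfl, ?_⟩
    rw [map_zero]
    funext T
    have h1 := hw T
    rw [h0, Submodule.mem_bot] at h1
    rw [h1]
    rfl
  | succ n ih =>
    intro w hw hs hd
    have hc : ((n : ℂ) + i + 1) ≠ 0 := by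
      have h1 : ((n : ℂ) + i + 1) = ((n + i + 1 : ℕ) : ℂ) := by push_cast; ring
      rw [h1]
      exact Nat.cast_ne_zero.2 (by omega)
    have hth : ∀ T, dK (dl D w) T = ∑ k, (zz k : Rx N) • D k (w T) + T.card • w T := by
      intro T
      have h1 := congrFun (htpy D hD w) T
      rw [hd, map_zero, add_zero, Pi.add_apply, ei_sum, Finset.sum_apply] at h1
      rw [h1]
      rfl
    have hz : ∀ T : Finset (Fin (N + 1)), T.card ≠ i + 1 → dK (dl D w) T = 0 := by
      intro T hT
      rw [hth, hs T hT, smul_zero, add_zero]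
      refine Finset.sum_eq_zero fun k _ => ?_
      rw [map_zero, smul_zero]
    have hlin : ∀ u : Cn N A, dK (((n : ℂ) + i + 1)⁻¹ • u) = ((n : ℂ) + i + 1)⁻¹ • dK u :=
      fun u => map_smul ((dK (N := N) (M := A)).restrictScalars ℂ) _ u
    obtain ⟨v', hv1, hv2⟩ := ih (w - ((n : ℂ) + i + 1)⁻¹ • dK (dl D w)) (by
      intro T
      rw [Pi.sub_apply, Pi.smul_apply]
      by_cases hT : T.card = i + 1
      · have h1 := hF n (w T) (hw T)
        have h2 : w T - ((n : ℂ) + i + 1)⁻¹ • dK (dl D w) T =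
            (-((n : ℂ) + i + 1)⁻¹) • (∑ k, (zz k : Rx N) • D k (w T) - (n : ℂ) • w T) := by
          have h3 : T.card • w T = ((i : ℂ) + 1) • w T := by
            rw [hT, ← Nat.cast_smul_eq_nsmul ℂ]
            push_cast
            rfl
          have h4 : w T = (((n : ℂ) + i + 1)⁻¹ * ((n : ℂ) + i + 1)) • w T := by
            rw [inv_mul_cancel₀ hc, one_smul]
          rw [hth, h3]
          nth_rewrite 1 [h4]
          module
        rw [h2]
        exact Submodule.smul_mem _ _ h1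
      · rw [hs T hT, hz T hT, smul_zero, sub_zero]
        exact Submodule.zero_mem _) (by
      intro T hT
      rw [Pi.sub_apply, Pi.smul_apply, hs T hT, hz T hT, smul_zero, sub_zero]) (by
      rw [map_sub, hlin, hdd, hd, smul_zero, sub_zero])
    refine ⟨v' + ((n : ℂ) + i + 1)⁻¹ • dl D w, ?_, ?_⟩
    · intro T hT
      rw [Pi.add_apply, Pi.smul_apply, hv1 T hT, dl_apply, Finset.sum_apply, zero_add]
      have h1 : ∑ l, mD (D l) (eZ l w) T = 0 := by
        refine Finset.sum_eq_zero fun l _ => ?_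
        change D l (eZ l w T) = 0
        by_cases h : l ∈ T
        · rw [eZ_mem _ h, hs (T.erase l) (by
            rw [Finset.card_erase_of_mem h]
            have h2 := Finset.card_pos.2 ⟨l, h⟩
            omega), smul_zero, map_zero]
        · rw [eZ_not _ h, map_zero]
      rw [h1, smul_zero]
    · rw [map_add, hlin, hv2, sub_add_cancel]

end Ext

/-! ## 4. The module `S ⊗ M` -/

section Con

variable {M : Type} [AddCommGroup M] [Module ℂ M] [Module (Sx N) M] [IsScalarTower ℂ (Sx N) M]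

variable (N M) in
/-- The derivative with respect to `x_l`. -/
def Dx (l : Fin (N + 1)) : TM N (Sx N) M →ₗ[ℂ] TM N (Sx N) M :=
  LinearMap.rTensor M ((pderiv l : Derivation ℂ (Sx N) (Sx N)) : Sx N →ₗ[ℂ] Sx N)

theorem Dx_tm (l : Fin (N + 1)) (f : Sx N) (m : M) :
    Dx N M l (tm N f m) = tm N (pderiv l f) m := rfl

theorem tm_ind {p : TM N (Sx N) M → Prop} (h0 : p 0) (h1 : ∀ f m, p (tm N f m))
    (h2 : ∀ a b, p a → p b → p (a + b)) (t : TM N (Sx N) M) : p t :=
  TensorProduct.induction_on (motive := p) t h0 h1 h2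

theorem tm_add (f g : Sx N) (m : M) : tm N (f + g) m = tm N f m + tm N g m :=
  TensorProduct.add_tmul f g m

theorem tm_zero (m : M) : tm N (0 : Sx N) m = 0 := TensorProduct.zero_tmul _ m

theorem tm_sum {ι : Type} (s : Finset ι) (f : ι → Sx N) (m : M) :
    tm N (∑ j ∈ s, f j) m = ∑ j ∈ s, tm N (f j) m := TensorProduct.sum_tmul s f m

theorem tm_smul (c : ℂ) (f : Sx N) (m : M) : tm N (c • f) m = c • tm N f m :=
  (TensorProduct.smul_tmul' c f m).symm

theorem zz_smul_tm (k : Fin (N + 1)) (f : Sx N) (m : M) :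
    (zz k : Rx N) • tm N f m = tm N (X k * f) m - tm N f ((X k : Sx N) • m) := by
  have h : (zz k : Rx N) = ix (X k) - iy (X k) := by
    unfold zz ix iy
    rw [rename_X, rename_X]
  rw [h, sub_smul, ix_smul_tm, iy_smul_tm]
  rfl

theorem Dx_zz (l k : Fin (N + 1)) (t : TM N (Sx N) M) :
    Dx N M l ((zz k : Rx N) • t) = (zz k : Rx N) • Dx N M l t + if k = l then t else 0 := by
  induction t using tm_ind with
  | h0 => simp
  | h1 f m =>
    rw [zz_smul_tm, map_sub, Dx_tm, Dx_tm, Dx_tm, zz_smul_tm, Derivation.leibniz, pderiv_X,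
      smul_eq_mul, smul_eq_mul, tm_add]
    by_cases h : k = l
    · subst h
      rw [if_pos rfl, Pi.single_eq_same, mul_one]
      abel
    · rw [if_neg h, Pi.single_eq_of_ne h, mul_zero, tm_zero]
      abel
  | h2 a b ha hb =>
    rw [smul_add, map_add, ha, hb, map_add, smul_add]
    by_cases h : k = l
    · rw [if_pos h, if_pos h, if_pos h]
      abel
    · rw [if_neg h, if_neg h, if_neg h]
      abel

variable (N M) in
/-- The filtration by the degree in `x`. -/
def Fil (n : ℕ) : Submodule ℂ (TM N (Sx N) M) :=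
  Submodule.span ℂ {t | ∃ (f : Sx N) (m : M) (e : ℕ), f.IsHomogeneous e ∧ e < n ∧ t = tm N f m}

theorem Fil_zero : Fil N M 0 = ⊥ := by
  unfold Fil
  rw [Submodule.span_eq_bot]
  rintro t ⟨f, m, e, _, he, _⟩
  exact absurd he (Nat.not_lt_zero e)

theorem Fil_mono {a b : ℕ} (h : a ≤ b) : Fil N M a ≤ Fil N M b := by
  refine Submodule.span_mono ?_
  rintro t ⟨f, m, e, h1, h2, h3⟩
  exact ⟨f, m, e, h1, lt_of_lt_of_le h2 h, h3⟩

theorem Fil_exists (t : TM N (Sx N) M) : ∃ n, t ∈ Fil N M n := by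
  induction t using tm_ind with
  | h0 => exact ⟨0, Submodule.zero_mem _⟩
  | h1 f m =>
    refine ⟨f.totalDegree + 1, ?_⟩
    have h1 : tm N f m = ∑ j ∈ Finset.range (f.totalDegree + 1),
        tm N (homogeneousComponent j f) m := by
      rw [← tm_sum, sum_homogeneousComponent]
    rw [h1]
    refine Submodule.sum_mem _ fun j hj => Submodule.subset_span ?_
    exact ⟨_, m, j, homogeneousComponent_isHomogeneous j f, Finset.mem_range.1 hj, rfl⟩
  | h2 a b ha hb =>
    obtain ⟨n, hn⟩ := ha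
    obtain ⟨k, hk⟩ := hb
    exact ⟨max n k, Submodule.add_mem _ (Fil_mono (le_max_left n k) hn)
      (Fil_mono (le_max_right n k) hk)⟩

theorem pderiv_mem (n e : ℕ) (he : e < n + 1) (f : Sx N) (hf : f.IsHomogeneous e)
    (k : Fin (N + 1)) (m : M) : tm N (pderiv k f) m ∈ Fil N M n := by
  rcases Nat.eq_zero_or_pos e with h | h
  · subst h
    have h1 : pderiv k f = 0 := by
      have h2 : f = C (coeff 0 f) := by
        rw [← totalDegree_eq_zero_iff_eq_C]
        by_cases h3 : f = 0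
        · rw [h3, totalDegree_zero]
        · exact hf.totalDegree h3
      rw [h2, pderiv_C]
    rw [h1, tm_zero]
    exact Submodule.zero_mem _
  · exact Submodule.subset_span ⟨_, m, e - 1, hf.pderiv, by omega, rfl⟩

theorem Fil_step (n : ℕ) (t : TM N (Sx N) M) (ht : t ∈ Fil N M (n + 1)) :
    ∑ k, (zz k : Rx N) • Dx N M k t - (n : ℂ) • t ∈ Fil N M n := by
  unfold Fil at ht
  induction ht using Submodule.span_induction with
  | mem t ht =>
    obtain ⟨f, m, e, hf, he, rfl⟩ := ht
    have h1 : ∑ k, (zz k : Rx N) • Dx N M k (tm N f m) - (n : ℂ) • tm N f m =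
        (((e : ℂ) - n) • tm N f m) - ∑ k, tm N (pderiv k f) ((X k : Sx N) • m) := by
      have h2 : ∀ k, (zz k : Rx N) • Dx N M k (tm N f m) =
          tm N (X k * pderiv k f) m - tm N (pderiv k f) ((X k : Sx N) • m) := by
        intro k
        rw [Dx_tm, zz_smul_tm]
      simp only [h2]
      rw [Finset.sum_sub_distrib, ← tm_sum, hf.sum_X_mul_pderiv, ← Nat.cast_smul_eq_nsmul ℂ,
        tm_smul, sub_smul]
      abel
    rw [h1]
    refine Submodule.sub_mem _ ?_ (Submodule.sum_mem _ fun k _ => pderiv_mem n e he f hf k _)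
    rcases Nat.lt_or_ge e n with h | h
    · exact Submodule.smul_mem _ _ (Submodule.subset_span ⟨f, m, e, hf, h, rfl⟩)
    · have h3 : e = n := by omega
      subst h3
      rw [sub_self, zero_smul]
      exact Submodule.zero_mem _
  | zero =>
    simp
  | add a b _ _ ha hb =>
    have h1 : ∑ k, (zz k : Rx N) • Dx N M k (a + b) - (n : ℂ) • (a + b) =
        (∑ k, (zz k : Rx N) • Dx N M k a - (n : ℂ) • a) +
          (∑ k, (zz k : Rx N) • Dx N M k b - (n : ℂ) • b) := by
      simp only [map_add, smul_add, Finset.sum_add_distrib]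
      abel
    rw [h1]
    exact Submodule.add_mem _ ha hb
  | smul c a _ ha =>
    have h1 : ∑ k, (zz k : Rx N) • Dx N M k (c • a) - (n : ℂ) • (c • a) =
        c • (∑ k, (zz k : Rx N) • Dx N M k a - (n : ℂ) • a) := by
      rw [smul_sub, Finset.smul_sum, smul_comm (n : ℂ) c a]
      refine congrArg (· - c • (n : ℂ) • a) (Finset.sum_congr rfl fun k _ => ?_)
      rw [map_smul, smul_comm]
    rw [h1]
    exact Submodule.smul_mem _ _ ha

end Con

end RBas1Aux

open RBas1Aux in
theorem kRBas1 : S_RCar → S_RBas1 := by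
  intro hR N M _ _ _ _ i w hs hd
  have h1 : ∃ n, ∀ T, w T ∈ Fil N M n := by
    choose g hg using fun T => Fil_exists (w T)
    exact ⟨Finset.univ.sup g, fun T => Fil_mono (Finset.le_sup (Finset.mem_univ T)) (hg T)⟩
  obtain ⟨n, hn⟩ := h1
  refine claim (fun l => (Dx N M l).toAddMonoidHom) (fun l k t => Dx_zz l k t) (Fil N M) Fil_zero
    (fun n t ht => Fil_step n t ht) (fun u => ?_) i n w hn hs hd
  rw [dK_eq_cG]
  exact (hR N (Rx N) (TM N (Sx N) M) zz zz zz zz u).2.2.1

end Pool.Agent.Lib.MP_776403_ag.SD
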