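import Pool.Agent.Lib.MP_776403_ag.SD.K.SpecR

/-!
# THEOREM SD, part K: (RLocB), the local statements for `(S / I) ⊗ M`
-/

set_option autoImplicit false

open MvPolynomial TensorProduct

noncomputable section

namespace Pool.Agent.Lib.MP_776403_ag.SD

namespace RLocBAux

variable {N : ℕ}

/-- Induction over the elements of `(S / I') ⊗ M`. -/
theorem tm_induction {I' : Ideal (Sx N)} {M : Type} [AddCommGroup M] [Module ℂ M]
    (P : TM N (Sx N ⧸ I') M → Prop) (h0 : P 0)
    (h1 : ∀ (f : Sx N) (m : M), P (tm N (Ideal.Quotient.mk I' f) m))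
    (h2 : ∀ a b, P a → P b → P (a + b)) (t : TM N (Sx N ⧸ I') M) : P t := by
  refine TensorProduct.induction_on (motive := P) t h0 (fun l m => ?_) h2
  obtain ⟨f, rfl⟩ := Ideal.Quotient.mk_surjective l
  exact h1 f m

theorem span_succ {c : ℕ} (F : Fin c → Sx N) (s : ℕ) (hs : s < c) :
    Ideal.span (F '' {t | (t : ℕ) < s + 1}) =
      Ideal.span (F '' {t | (t : ℕ) < s}) ⊔ Ideal.span {F ⟨s, hs⟩} := by
  rw [← Ideal.span_union]
  refine congrArg Ideal.span (Set.ext fun x => ?_)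
  constructor
  · rintro ⟨t, ht, rfl⟩
    rcases Nat.lt_succ_iff_lt_or_eq.1 ht with h | h
    · exact Or.inl ⟨t, h, rfl⟩
    · refine Or.inr ?_
      have : t = ⟨s, hs⟩ := Fin.ext h
      rw [this]
      exact Set.mem_singleton _
  · rintro (⟨t, ht, rfl⟩ | hx)
    · exact ⟨t, Nat.lt_succ_of_lt ht, rfl⟩
    · rw [Set.mem_singleton_iff] at hx
      exact ⟨⟨s, hs⟩, Nat.lt_succ_self s, hx.symm⟩

end RLocBAux

open RLocBAux

theorem kRLocB : S_RBase → S_RStep → S_RFin → S_RTen → S_RMu → S_RReg → S_RDual → S_RDq →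
    S_RLocB := by
  intro hBase hStep hFin hTen hMu hReg hDual hDq N c I p F h hp hFI hlin hh hG M _ _ _ _ hkill μ
    hμ hμD
  have hFp : ∀ i, eval p (F i) = 0 := fun i => hp (F i) (hFI i)
  obtain ⟨v, δ, hδ, hv⟩ := hDual N c F p hlin
  have hle : ∀ s : ℕ, Ideal.span (F '' {t | (t : ℕ) < s}) ≤ I := by
    intro s
    refine Ideal.span_le.2 ?_
    rintro x ⟨t, -, rfl⟩
    exact hFI t
  have claim : ∀ (s : ℕ) (hs : s ≤ c) (I' : Ideal (Sx N)),
      I' = Ideal.span (F '' {t | (t : ℕ) < s}) →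
      ∀ ρ : TM N (Sx N ⧸ I') M →ₗ[ℂ] M,
      (∀ (f : Sx N) (m : M), ρ (tm N (Ideal.Quotient.mk I' f) m) = f • m) → DgL N ρ →
      INJ p ρ ∧ IMG p ρ (fun t : Fin s => dF (F (Fin.castLE hs t))) := by
    intro s
    induction s with
    | zero =>
      intro hs I' hI' ρ hρ hρD
      have h0 : I' = ⊥ := by
        rw [hI']
        have : ({t | (t : ℕ) < 0} : Set (Fin c)) = ∅ := by
          ext t
          simp
        rw [this, Set.image_empty, Ideal.span_empty]
      clear hI'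
      subst h0
      exact hBase N M ρ hρ hρD p _
    | succ s ih =>
      intro hs I' hI' ρ hρ hρD
      have hsc : s < c := hs
      have hkill' : ∀ f ∈ Ideal.span (F '' {t | (t : ℕ) < s}), ∀ m : M, f • m = 0 :=
        fun f hf m => hkill f (hle s hf) m
      obtain ⟨ρ', hρ', hρ'D⟩ := hMu N (Ideal.span (F '' {t | (t : ℕ) < s})) M hkill'
      obtain ⟨h1, h2⟩ := ih (Nat.le_of_succ_le hs) _ rfl ρ' hρ' hρ'D
      have hI'2 : I' = Ideal.span (F '' {t | (t : ℕ) < s}) ⊔ Ideal.span {F ⟨s, hsc⟩} := by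
        rw [hI', span_succ F s hsc]
      have hle' : Ideal.span (F '' {t | (t : ℕ) < s}) ≤ I' := by
        rw [hI'2]
        exact le_sup_left
      obtain ⟨⟨π, hπs, hπ, hπF, -⟩, htor⟩ := hTen N (Ideal.span (F '' {t | (t : ℕ) < s})) I' hle' M
      obtain ⟨hker, hF0⟩ := hπF (F ⟨s, hsc⟩) hI'2
      obtain ⟨⟨q, hq⟩, -⟩ := hDq N (F ⟨s, hsc⟩)
      have hreg : ∀ f, F ⟨s, hsc⟩ * f ∈ Ideal.span (F '' {t | (t : ℕ) < s}) →
          ∃ g, eval p g ≠ 0 ∧ g * f ∈ Ideal.span (F '' {t | (t : ℕ) < s}) :=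
        fun f hf => hReg N c F p hFp hlin ⟨s, hsc⟩ f hf
      have hρπ : ∀ t, ρ (π t) = ρ' t := by
        intro t
        refine tm_induction (fun t => ρ (π t) = ρ' t) ?_ ?_ ?_ t
        · rw [map_zero, map_zero, map_zero]
        · intro f m
          rw [hπ, hρ, hρ']
        · intro a b ha hb
          rw [map_add, map_add, map_add, ha, hb]
      have hiy : ∀ t : TM N (Sx N ⧸ Ideal.span (F '' {t | (t : ℕ) < s})) M,
          (iy (F ⟨s, hsc⟩) : Rx N) • t = 0 := by
        intro t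
        refine tm_induction (fun t => (iy (F ⟨s, hsc⟩) : Rx N) • t = 0) ?_ ?_ ?_ t
        · exact smul_zero _
        · intro f m
          rw [iy_smul_tm, hkill _ (hFI _) m]
          exact TensorProduct.tmul_zero _ _
        · intro a b ha hb
          rw [smul_add, ha, hb, add_zero]
      have hvG : ∀ t : Fin s, ∑ k, v ⟨s, hsc⟩ k *
          dF (F (Fin.castLE (Nat.le_of_succ_le hs) t)) k = 0 := by
        intro t
        have h3 := hv ⟨s, hsc⟩ (Fin.castLE (Nat.le_of_succ_le hs) t)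
        rw [if_neg] at h3
        · exact h3
        · intro h4
          have h5 : s = (t : ℕ) := congrArg Fin.val h4
          exact absurd t.2 (by omega)
      have hvF : eval p (∑ k, v ⟨s, hsc⟩ k * pderiv k (F ⟨s, hsc⟩)) ≠ 0 := by
        rw [hv, if_pos rfl]
        exact hδ
      have key := hStep N p _ _ M ρ' ρ π (F ⟨s, hsc⟩) q s
        (fun t : Fin s => dF (F (Fin.castLE (Nat.le_of_succ_le hs) t))) (v ⟨s, hsc⟩) hq hπs hker hF0
        (htor (F ⟨s, hsc⟩) p hreg) hiy hρπ hρ'D hvG hvF h1 h2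
      refine ⟨key.1, ?_⟩
      have hfam : (fun t : Fin (s + 1) => dF (F (Fin.castLE hs t))) =
          Fin.snoc (α := fun _ => Fin (N + 1) → Sx N)
            (fun t : Fin s => dF (F (Fin.castLE (Nat.le_of_succ_le hs) t)))
            (dF (F ⟨s, hsc⟩)) := by
        funext t
        refine Fin.lastCases ?_ (fun t => ?_) t
        · rw [Fin.snoc_last]
          rfl
        · rw [Fin.snoc_castSucc]
          rfl
      rw [hfam]
      exact key.2
  have hIc : Ideal.span (Set.range F) = Ideal.span (F '' {t | (t : ℕ) < c}) := by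
    refine congrArg Ideal.span ?_
    ext x
    constructor
    · rintro ⟨t, rfl⟩
      exact ⟨t, t.2, rfl⟩
    · rintro ⟨t, -, rfl⟩
      exact ⟨t, rfl⟩
  have hleR : Ideal.span (Set.range F) ≤ I := by
    rw [hIc]
    exact hle c
  obtain ⟨ρ', hρ', hρ'D⟩ := hMu N (Ideal.span (Set.range F)) M
    (fun f hf m => hkill f (hleR hf) m)
  obtain ⟨h1, h2⟩ := claim c le_rfl _ hIc ρ' hρ' hρ'D
  obtain ⟨⟨π, hπs, hπ, -, hπh⟩, -⟩ := hTen N (Ideal.span (Set.range F)) I hleR M
  have hρπ : ∀ t, μ (π t) = ρ' t := by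
    intro t
    refine tm_induction (fun t => μ (π t) = ρ' t) ?_ ?_ ?_ t
    · rw [map_zero, map_zero, map_zero]
    · intro f m
      rw [hπ, hμ, hρ']
    · intro a b ha hb
      rw [map_add, map_add, map_add, ha, hb]
  have key := hFin N p _ _ M ρ' μ π hπs (fun t ht => ⟨h, hh, hπh h hG t ht⟩) hρπ hρ'D
  exact ⟨key.1 h1, key.2 _ _ h2⟩

end Pool.Agent.Lib.MP_776403_ag.SD
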