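import Pool.Agent.Lib.MP_776403_ag.SD.K.SpecR

/-!
# THEOREM SD, part K, module RTheta

`(S / I) ⊗ (W / J)` inside `(ℂ[x, y] / (I(x) + J(y)))^β`.
-/

set_option autoImplicit false

open MvPolynomial TensorProduct

noncomputable section

namespace Pool.Agent.Lib.MP_776403_ag.SD

namespace RThetaAux

variable {N : ℕ}

/-- `f ↦ f(x)`. -/
def fX (I J : Ideal (Sx N)) : (Sx N ⧸ I) →ₐ[ℂ] CR I J :=
  Ideal.Quotient.liftₐ I ((Ideal.Quotient.mkₐ ℂ (cc I J)).comp ix) (fun a ha => by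
    change Ideal.Quotient.mk (cc I J) (ix a) = 0
    exact Ideal.Quotient.eq_zero_iff_mem.2 (Ideal.mem_sup_left (Ideal.mem_map_of_mem _ ha)))

/-- `g ↦ g(y)`. -/
def fY (I J : Ideal (Sx N)) : (Sx N ⧸ J) →ₐ[ℂ] CR I J :=
  Ideal.Quotient.liftₐ J ((Ideal.Quotient.mkₐ ℂ (cc I J)).comp iy) (fun a ha => by
    change Ideal.Quotient.mk (cc I J) (iy a) = 0
    exact Ideal.Quotient.eq_zero_iff_mem.2 (Ideal.mem_sup_right (Ideal.mem_map_of_mem _ ha)))

/-- `f ⊗ g ↦ f(x) g(y)`. -/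
def th0 (I J : Ideal (Sx N)) : (Sx N ⧸ I) ⊗[ℂ] (Sx N ⧸ J) →ₐ[ℂ] CR I J :=
  Algebra.TensorProduct.productMap (fX I J) (fY I J)

theorem th0_tmul (I J : Ideal (Sx N)) (f g : Sx N) :
    th0 I J (Ideal.Quotient.mk I f ⊗ₜ[ℂ] Ideal.Quotient.mk J g) =
      Ideal.Quotient.mk (cc I J) (ix f * iy g) := by
  unfold th0
  rw [Algebra.TensorProduct.productMap_apply_tmul, map_mul]
  rfl

/-- The substitution `x ↦ X ⊗ 1`, `y ↦ 1 ⊗ X`. -/
def sub0 (I J : Ideal (Sx N)) : Rx N →ₐ[ℂ] (Sx N ⧸ I) ⊗[ℂ] (Sx N ⧸ J) :=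
  aeval (Sum.elim (fun k => Ideal.Quotient.mk I (X k) ⊗ₜ[ℂ] (1 : Sx N ⧸ J))
    (fun k => (1 : Sx N ⧸ I) ⊗ₜ[ℂ] Ideal.Quotient.mk J (X k)))

theorem sub0_ix (I J : Ideal (Sx N)) (F : Sx N) :
    sub0 I J (ix F) = Ideal.Quotient.mk I F ⊗ₜ[ℂ] (1 : Sx N ⧸ J) := by
  have h1 : (sub0 I J).comp ix =
      (Algebra.TensorProduct.includeLeft : (Sx N ⧸ I) →ₐ[ℂ] (Sx N ⧸ I) ⊗[ℂ] (Sx N ⧸ J)).comp
        (Ideal.Quotient.mkₐ ℂ I) := by
    refine MvPolynomial.algHom_ext fun k => ?_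
    simp [sub0, ix]
  exact DFunLike.congr_fun h1 F

theorem sub0_iy (I J : Ideal (Sx N)) (F : Sx N) :
    sub0 I J (iy F) = (1 : Sx N ⧸ I) ⊗ₜ[ℂ] Ideal.Quotient.mk J F := by
  have h1 : (sub0 I J).comp iy =
      (Algebra.TensorProduct.includeRight : (Sx N ⧸ J) →ₐ[ℂ] (Sx N ⧸ I) ⊗[ℂ] (Sx N ⧸ J)).comp
        (Ideal.Quotient.mkₐ ℂ J) := by
    refine MvPolynomial.algHom_ext fun k => ?_
    simp [sub0, iy]
  exact DFunLike.congr_fun h1 F

theorem sub0_cc (I J : Ideal (Sx N)) (a : Rx N) (ha : a ∈ cc I J) : sub0 I J a = 0 := by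
  have h1 : cc I J ≤ RingHom.ker (sub0 I J) := by
    refine sup_le (Ideal.map_le_iff_le_comap.2 fun F hF => ?_)
      (Ideal.map_le_iff_le_comap.2 fun F hF => ?_)
    · change sub0 I J (ix F) = 0
      rw [sub0_ix, Ideal.Quotient.eq_zero_iff_mem.2 hF, TensorProduct.zero_tmul]
    · change sub0 I J (iy F) = 0
      rw [sub0_iy, Ideal.Quotient.eq_zero_iff_mem.2 hF, TensorProduct.tmul_zero]
  exact h1 ha

/-- The left inverse. -/
def inv0 (I J : Ideal (Sx N)) : CR I J →ₐ[ℂ] (Sx N ⧸ I) ⊗[ℂ] (Sx N ⧸ J) :=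
  Ideal.Quotient.liftₐ (cc I J) (sub0 I J) (sub0_cc I J)

theorem inv0_th0 (I J : Ideal (Sx N)) (t : (Sx N ⧸ I) ⊗[ℂ] (Sx N ⧸ J)) :
    inv0 I J (th0 I J t) = t := by
  induction t using TensorProduct.induction_on with
  | zero => rw [map_zero, map_zero]
  | add u v hu hv => rw [map_add, map_add, hu, hv]
  | tmul a b =>
    obtain ⟨f, rfl⟩ := Ideal.Quotient.mk_surjective a
    obtain ⟨g, rfl⟩ := Ideal.Quotient.mk_surjective b
    rw [th0_tmul]
    change sub0 I J (ix f * iy g) = _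
    rw [map_mul, sub0_ix, sub0_iy, Algebra.TensorProduct.tmul_mul_tmul, one_mul, mul_one]

theorem th0_inj (I J : Ideal (Sx N)) : Function.Injective (th0 I J) :=
  Function.LeftInverse.injective (inv0_th0 I J)

variable {β : Type} [Fintype β]

/-- The inclusion. -/
def j1 (J : Ideal (Sx N)) (W : ℕ → Submodule ℂ (β → Sx N)) : MW J W →ₗ[ℂ] (β → Sx N ⧸ J) :=
  (MW J W).subtype.restrictScalars ℂ

open Classical in
/-- `l ⊗ m ↦ (l ⊗ m_b)_b`. -/
def j2 (I J : Ideal (Sx N)) (W : ℕ → Submodule ℂ (β → Sx N)) :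
    (Sx N ⧸ I) ⊗[ℂ] (MW J W) →ₗ[ℂ] (β → (Sx N ⧸ I) ⊗[ℂ] (Sx N ⧸ J)) :=
  (TensorProduct.piRight ℂ ℂ (Sx N ⧸ I) (fun _ : β => Sx N ⧸ J)).toLinearMap ∘ₗ
    (j1 J W).lTensor (Sx N ⧸ I)

theorem j2_tmul (I J : Ideal (Sx N)) (W : ℕ → Submodule ℂ (β → Sx N)) (l : Sx N ⧸ I)
    (m : MW J W) (b : β) : j2 I J W (l ⊗ₜ[ℂ] m) b = l ⊗ₜ[ℂ] (m.1 b) := by
  classical
  unfold j2
  rw [LinearMap.comp_apply, LinearMap.lTensor_tmul]
  change (TensorProduct.piRight ℂ ℂ (Sx N ⧸ I) (fun _ : β => Sx N ⧸ J))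
    (l ⊗ₜ[ℂ] (j1 J W m)) b = _
  rw [TensorProduct.piRight_apply, TensorProduct.piRightHom_tmul]
  rfl

theorem j2_inj (I J : Ideal (Sx N)) (W : ℕ → Submodule ℂ (β → Sx N)) :
    Function.Injective (j2 I J W) := by
  classical
  unfold j2
  rw [LinearMap.coe_comp]
  refine (TensorProduct.piRight ℂ ℂ (Sx N ⧸ I) (fun _ : β => Sx N ⧸ J)).injective.comp ?_
  refine Module.Flat.lTensor_preserves_injective_linearMap (j1 J W) ?_
  intro a b hab
  exact Subtype.ext hab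

/-- The map, over `ℂ`. -/
def thC (I J : Ideal (Sx N)) (W : ℕ → Submodule ℂ (β → Sx N)) :
    TM N (Sx N ⧸ I) (MW J W) →ₗ[ℂ] (Unit × β → CR I J) :=
  { toFun := fun t p => th0 I J (j2 I J W t p.2)
    map_add' := fun s t => by
      funext p
      have h : j2 I J W (s + t) = j2 I J W s + j2 I J W t := map_add (j2 I J W) s t
      change th0 I J (j2 I J W (s + t) p.2) = _
      rw [h, Pi.add_apply, map_add]
      rfl
    map_smul' := fun c t => by
      funext p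
      have h : j2 I J W (c • t) = c • j2 I J W t := map_smul (j2 I J W) c t
      change th0 I J (j2 I J W (c • t) p.2) = _
      rw [h, Pi.smul_apply, map_smul]
      rfl }

theorem thC_apply (I J : Ideal (Sx N)) (W : ℕ → Submodule ℂ (β → Sx N))
    (t : TM N (Sx N ⧸ I) (MW J W)) (p : Unit × β) :
    thC I J W t p = th0 I J (j2 I J W t p.2) := rfl

theorem thC_tm (I J : Ideal (Sx N)) (W : ℕ → Submodule ℂ (β → Sx N)) (f : Sx N) (m : MW J W)
    (m' : β → Sx N) (hm : ∀ b, Ideal.Quotient.mk J (m' b) = m.1 b) :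
    thC I J W (tm N (Ideal.Quotient.mk I f) m) =
      fun p => Ideal.Quotient.mk (cc I J) (ix f * iy (m' p.2)) := by
  funext p
  rw [thC_apply]
  change th0 I J (j2 I J W (Ideal.Quotient.mk I f ⊗ₜ[ℂ] m) p.2) = _
  rw [j2_tmul, ← hm, th0_tmul]

/-- Induction on pure tensors. -/
theorem tm_ind {L M : Type} [AddCommGroup L] [Module ℂ L] [AddCommGroup M] [Module ℂ M]
    (P : TM N L M → Prop) (h0 : P 0) (ht : ∀ l m, P (tm N l m))
    (ha : ∀ s t, P s → P t → P (s + t)) (t : TM N L M) : P t :=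
  TensorProduct.induction_on (motive := P) t h0 ht ha

theorem thC_ix (I J : Ideal (Sx N)) (W : ℕ → Submodule ℂ (β → Sx N)) (F : Sx N)
    (t : TM N (Sx N ⧸ I) (MW J W)) : thC I J W ((ix F : Rx N) • t) = (ix F : Rx N) • thC I J W t := by
  refine tm_ind (fun t => thC I J W ((ix F : Rx N) • t) = (ix F : Rx N) • thC I J W t) ?_ ?_ ?_ t
  · rw [smul_zero, map_zero, smul_zero]
  · intro l m
    obtain ⟨f, rfl⟩ := Ideal.Quotient.mk_surjective l
    choose m' hm' using fun b => Ideal.Quotient.mk_surjective (m.1 b)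
    rw [ix_smul_tm]
    have h1 : F • (Ideal.Quotient.mk I f) = Ideal.Quotient.mk I (F * f) := rfl
    rw [h1, thC_tm I J W _ m m' hm', thC_tm I J W _ m m' hm']
    funext p
    rw [Pi.smul_apply]
    change Ideal.Quotient.mk (cc I J) (ix (F * f) * iy (m' p.2)) =
      Ideal.Quotient.mk (cc I J) (ix F * (ix f * iy (m' p.2)))
    rw [map_mul ix, mul_assoc]
  · intro s t hs ht
    rw [smul_add, map_add, map_add, smul_add, hs, ht]

theorem thC_iy (I J : Ideal (Sx N)) (W : ℕ → Submodule ℂ (β → Sx N)) (F : Sx N)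
    (t : TM N (Sx N ⧸ I) (MW J W)) : thC I J W ((iy F : Rx N) • t) = (iy F : Rx N) • thC I J W t := by
  refine tm_ind (fun t => thC I J W ((iy F : Rx N) • t) = (iy F : Rx N) • thC I J W t) ?_ ?_ ?_ t
  · rw [smul_zero, map_zero, smul_zero]
  · intro l m
    obtain ⟨f, rfl⟩ := Ideal.Quotient.mk_surjective l
    choose m' hm' using fun b => Ideal.Quotient.mk_surjective (m.1 b)
    rw [iy_smul_tm]
    have h1 : ∀ b, Ideal.Quotient.mk J (F * m' b) = (F • m).1 b := by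
      intro b
      rw [map_mul, hm']
      rfl
    rw [thC_tm I J W _ (F • m) (fun b => F * m' b) h1, thC_tm I J W _ m m' hm']
    funext p
    rw [Pi.smul_apply]
    change Ideal.Quotient.mk (cc I J) (ix f * iy (F * m' p.2)) =
      Ideal.Quotient.mk (cc I J) (iy F * (ix f * iy (m' p.2)))
    rw [map_mul iy, mul_left_comm]
  · intro s t hs ht
    rw [smul_add, map_add, map_add, smul_add, hs, ht]

theorem thC_smul (I J : Ideal (Sx N)) (W : ℕ → Submodule ℂ (β → Sx N)) (r : Rx N) :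
    ∀ t : TM N (Sx N ⧸ I) (MW J W), thC I J W (r • t) = r • thC I J W t := by
  induction r using MvPolynomial.induction_on with
  | C a =>
    intro t
    have h : (C a : Rx N) = ix (C a) := by
      unfold ix
      rw [rename_C]
    rw [h]
    exact thC_ix I J W _ t
  | add p q hp hq =>
    intro t
    rw [add_smul, map_add, hp, hq, add_smul]
  | mul_X p k hp =>
    intro t
    rw [mul_smul, mul_smul, hp]
    rcases k with k | k
    · have h : (X (Sum.inl k) : Rx N) = ix (X k) := by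
        unfold ix
        rw [rename_X]
      rw [h, thC_ix]
    · have h : (X (Sum.inr k) : Rx N) = iy (X k) := by
        unfold iy
        rw [rename_X]
      rw [h, thC_iy]

/-- The map. -/
def th (I J : Ideal (Sx N)) (W : ℕ → Submodule ℂ (β → Sx N)) :
    TM N (Sx N ⧸ I) (MW J W) →ₗ[Rx N] (Unit × β → CR I J) :=
  { toFun := thC I J W
    map_add' := fun s t => map_add (thC I J W) s t
    map_smul' := fun r t => thC_smul I J W r t }

theorem th_inj (I J : Ideal (Sx N)) (W : ℕ → Submodule ℂ (β → Sx N)) :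
    Function.Injective (th I J W) := by
  intro s t hst
  refine j2_inj I J W ?_
  funext b
  refine th0_inj I J ?_
  exact congrFun hst ((), b)

end RThetaAux

open RThetaAux

theorem kRTheta : S_RTheta := by
  intro N β _ I J h W
  refine ⟨th I J W, th_inj I J W, fun f m m' hm => thC_tm I J W f m m' hm, ?_⟩
  intro μ hμ t p
  refine tm_ind (fun t => dg h (th I J W t p) = (μ t).1 p.2) ?_ ?_ ?_ t
  · rw [map_zero, map_zero, Pi.zero_apply, map_zero]
    rfl
  · intro l m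
    obtain ⟨f, rfl⟩ := Ideal.Quotient.mk_surjective l
    choose m' hm' using fun b => Ideal.Quotient.mk_surjective (m.1 b)
    rw [hμ]
    have h1 : th I J W (tm N (Ideal.Quotient.mk I f) m) =
      fun p => Ideal.Quotient.mk (cc I J) (ix f * iy (m' p.2)) := thC_tm I J W f m m' hm'
    rw [h1]
    change Ideal.Quotient.mk J (dgS (ix f * iy (m' p.2))) = _
    rw [map_mul dgS, dgS_ix, dgS_iy, map_mul, hm']
    rfl
  · intro s t hs ht
    rw [map_add, Pi.add_apply, map_add, map_add, hs, ht]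
    rfl

end Pool.Agent.Lib.MP_776403_ag.SD
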