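import Pool.Agent.Lib.MP_776403_ag.SD.K.SpecS

/-!
# THEOREM SD, part K, module SGr: growth and divisibility of Hilbert series
-/

set_option autoImplicit false

open MvPolynomial TensorProduct

noncomputable section

namespace Pool.Agent.Lib.MP_776403_ag.SD

namespace SGrAux

/-- Absolute convergence at `x` with the sum `s`. -/
def Ab (x : ℝ) (F : PowerSeries ℤ) (s : ℝ) : Prop :=
  (Summable fun k => ‖((PowerSeries.coeff k F : ℤ) : ℝ) * x ^ k‖) ∧
    ∑' k, ((PowerSeries.coeff k F : ℤ) : ℝ) * x ^ k = s

theorem Ab_mul {x : ℝ} {F G : PowerSeries ℤ} {s t : ℝ} (hF : Ab x F s) (hG : Ab x G t) :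
    Ab x (F * G) (s * t) := by
  have e : (fun k => ((PowerSeries.coeff k (F * G) : ℤ) : ℝ) * x ^ k) = fun k =>
      ∑ p ∈ Finset.HasAntidiagonal.antidiagonal k,
        (((PowerSeries.coeff p.1 F : ℤ) : ℝ) * x ^ p.1) *
          (((PowerSeries.coeff p.2 G : ℤ) : ℝ) * x ^ p.2) := by
    funext k
    rw [PowerSeries.coeff_mul, Int.cast_sum, Finset.sum_mul]
    refine Finset.sum_congr rfl fun p hp => ?_
    rw [Finset.HasAntidiagonal.mem_antidiagonal] at hp
    rw [← hp, pow_add]
    push_cast
    ring
  have h1 := summable_norm_sum_mul_antidiagonal_of_summable_norm hF.1 hG.1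
  have h2 := tsum_mul_tsum_eq_tsum_sum_antidiagonal_of_summable_norm hF.1 hG.1
  refine ⟨?_, ?_⟩
  · have h3 : (fun k => ‖((PowerSeries.coeff k (F * G) : ℤ) : ℝ) * x ^ k‖) = fun k =>
      ‖∑ p ∈ Finset.HasAntidiagonal.antidiagonal k,
        (((PowerSeries.coeff p.1 F : ℤ) : ℝ) * x ^ p.1) *
          (((PowerSeries.coeff p.2 G : ℤ) : ℝ) * x ^ p.2)‖ := by
      funext k
      rw [congrFun e k]
    rw [h3]
    exact h1
  · rw [e, ← hF.2, ← hG.2]
    exact h2.symm

theorem Ab_poly (x : ℝ) (P : Polynomial ℤ) : Ab x (P : PowerSeries ℤ) (Polynomial.aeval x P) := by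
  have h0 : ∀ k, k ∉ Finset.range (P.natDegree + 1) →
      ((PowerSeries.coeff k (P : PowerSeries ℤ) : ℤ) : ℝ) * x ^ k = 0 := by
    intro k hk
    rw [Finset.mem_range, not_lt] at hk
    rw [Polynomial.coeff_coe, Polynomial.coeff_eq_zero_of_natDegree_lt (by omega), Int.cast_zero,
      zero_mul]
  refine ⟨?_, ?_⟩
  · refine summable_of_ne_finset_zero (s := Finset.range (P.natDegree + 1)) fun k hk => ?_
    rw [h0 k hk, norm_zero]
  · rw [tsum_eq_sum h0, Polynomial.aeval_eq_sum_range]
    refine Finset.sum_congr rfl fun k _ => ?_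
    rw [Polynomial.coeff_coe, zsmul_eq_mul]

theorem Ab_geom {x : ℝ} (h0 : 0 < x) (h1 : x < 1) :
    Ab x (PowerSeries.mk 1 : PowerSeries ℤ) (1 - x)⁻¹ := by
  have e : (fun k => ((PowerSeries.coeff k (PowerSeries.mk 1 : PowerSeries ℤ) : ℤ) : ℝ) * x ^ k) =
      fun k => x ^ k := by
    funext k
    rw [PowerSeries.coeff_mk, Pi.one_apply, Int.cast_one, one_mul]
  refine ⟨?_, ?_⟩
  · have h3 : (fun k => ‖((PowerSeries.coeff k (PowerSeries.mk 1 : PowerSeries ℤ) : ℤ) : ℝ) *
        x ^ k‖) = fun k => x ^ k := by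
      funext k
      rw [congrFun e k, Real.norm_of_nonneg (pow_nonneg h0.le k)]
    rw [h3]
    exact summable_geometric_of_lt_one h0.le h1
  · rw [e]
    exact tsum_geometric_of_lt_one h0.le h1

theorem Ab_geom_pow {x : ℝ} (h0 : 0 < x) (h1 : x < 1) (M : ℕ) :
    Ab x ((PowerSeries.mk 1 : PowerSeries ℤ) ^ M) ((1 - x)⁻¹ ^ M) := by
  induction M with
  | zero =>
    rw [pow_zero, pow_zero]
    have h := Ab_poly x 1
    rw [Polynomial.coe_one, map_one] at h
    exact h
  | succ M ih =>
    rw [pow_succ, pow_succ]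
    exact Ab_mul ih (Ab_geom h0 h1)

/-- LEMMA B. -/
theorem pos_of {M c : ℕ} {H : PowerSeries ℤ} {R : Polynomial ℤ}
    (hH : ∀ k, 0 ≤ PowerSeries.coeff k H)
    (hR : (1 - PowerSeries.X) ^ M * H = (((1 - Polynomial.X) ^ c * R : Polynomial ℤ) : PowerSeries ℤ)) :
    0 ≤ R.eval 1 := by
  have h1 : H = (PowerSeries.mk 1 : PowerSeries ℤ) ^ M *
      (((1 - Polynomial.X) ^ c * R : Polynomial ℤ) : PowerSeries ℤ) := by
    rw [← hR, ← mul_assoc, ← mul_pow, PowerSeries.mk_one_mul_one_sub_eq_one, one_pow, one_mul]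
  have h2 : ∀ x : ℝ, 0 < x → x < 1 → 0 ≤ Polynomial.aeval x R := by
    intro x hx0 hx1
    have h3 := Ab_mul (Ab_geom_pow hx0 hx1 M) (Ab_poly x ((1 - Polynomial.X) ^ c * R))
    rw [← h1] at h3
    have h4 : 0 ≤ (1 - x)⁻¹ ^ M * Polynomial.aeval x ((1 - Polynomial.X) ^ c * R) := by
      rw [← h3.2]
      refine tsum_nonneg fun k => mul_nonneg ?_ (pow_nonneg hx0.le k)
      exact_mod_cast hH k
    rw [map_mul, map_pow, map_sub, map_one, Polynomial.aeval_X, ← mul_assoc] at h4
    have h5 : 0 < (1 - x)⁻¹ ^ M * (1 - x) ^ c := by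
      have : 0 < 1 - x := by linarith
      positivity
    exact nonneg_of_mul_nonneg_right h4 h5
  have h3 : Filter.Tendsto (fun x : ℝ => Polynomial.aeval x R) (nhdsWithin 1 (Set.Iio 1))
      (nhds (Polynomial.aeval (1 : ℝ) R)) :=
    (Polynomial.continuous_aeval R).continuousAt.tendsto.mono_left nhdsWithin_le_nhds
  have h4 : 0 ≤ Polynomial.aeval (1 : ℝ) R := by
    refine ge_of_tendsto h3 ?_
    have h5 : Set.Ioo (0 : ℝ) 1 ∈ nhdsWithin (1 : ℝ) (Set.Iio 1) :=
      Ioo_mem_nhdsLT zero_lt_one
    filter_upwards [h5] with x hx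
    exact h2 x hx.1 hx.2
  have h5 : Polynomial.aeval (1 : ℝ) R = ((R.eval 1 : ℤ) : ℝ) := by
    have h6 : (1 : ℝ) = algebraMap ℤ ℝ 1 := by simp
    rw [h6, Polynomial.aeval_algebraMap_apply]
    simp [Polynomial.aeval_def, Polynomial.eval₂_eq_eval_map]
  rw [h5] at h4
  exact_mod_cast h4

theorem coe_sum {ι : Type} (s : Finset ι) (F : ι → Polynomial ℤ) :
    ((∑ i ∈ s, F i : Polynomial ℤ) : PowerSeries ℤ) = ∑ i ∈ s, (F i : PowerSeries ℤ) :=
  map_sum (Polynomial.coeToPowerSeries.ringHom (R := ℤ)) F s

theorem coe_nat (C : ℕ) : ((C : Polynomial ℤ) : PowerSeries ℤ) = (C : PowerSeries ℤ) :=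
  map_natCast (Polynomial.coeToPowerSeries.ringHom (R := ℤ)) C

theorem coeff_shift (F : PowerSeries ℤ) (n k : ℕ) :
    PowerSeries.coeff k (PowerSeries.X ^ n * F) = if n ≤ k then PowerSeries.coeff (k - n) F else 0 := by
  exact PowerSeries.coeff_X_pow_mul' F n k

end SGrAux

open SGrAux

theorem kSGr : S_SGr := by
  intro N c _ h P f g hg hf
  have hf' : (1 - PowerSeries.X) ^ (N + 1) * ps f = (P : PowerSeries ℤ) := by
    have h1 := hf
    unfold QP at h1
    rw [pow_zero, one_mul] at h1
    exact h1
  have hg' : (1 - PowerSeries.X) ^ (N + 1) * ps g =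
      (1 - PowerSeries.X) ^ c * (h : PowerSeries ℤ) := by
    have h1 := hg
    unfold QP at h1
    rw [h1]
    push_cast
    rfl
  have hcf : ∀ k, PowerSeries.coeff k (ps f) = (f k : ℤ) := fun k => PowerSeries.coeff_mk _ _
  have hcg : ∀ k, PowerSeries.coeff k (ps g) = (g k : ℤ) := fun k => PowerSeries.coeff_mk _ _
  refine ⟨?_, ?_⟩
  · rintro ⟨C, δ, hC⟩
    by_cases hP : P = 0
    · exact ⟨0, by rw [hP, mul_zero]⟩
    obtain ⟨P₁, hP₁, hnd⟩ := Polynomial.exists_eq_pow_rootMultiplicity_mul_and_not_dvd P hP 1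
    set e := P.rootMultiplicity 1 with he
    have hsgn : (Polynomial.X - Polynomial.C (1 : ℤ)) = -(1 - Polynomial.X) := by
      rw [map_one]
      ring
    have hP₂ : P = (1 - Polynomial.X) ^ e * ((-1) ^ e * P₁) := by
      rw [hP₁, hsgn, neg_pow]
      ring
    rcases Nat.lt_or_ge e c with hec | hec
    · exfalso
      set Q : Polynomial ℤ := (-1) ^ e * P₁ with hQ
      have hQ1 : 0 ≤ Q.eval 1 := by
        refine pos_of (M := N + 1) (c := e) (H := ps f) (fun k => ?_) ?_
        · rw [hcf]
          exact Nat.cast_nonneg _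
        · rw [hf', ← hP₂]
      have hQ2 : 0 ≤ ((1 - Polynomial.X) ^ (c - e) * ((C : Polynomial ℤ) *
          ∑ i ∈ Finset.range (δ + 1), Polynomial.X ^ (δ - i) * h) - Polynomial.X ^ δ * Q).eval 1 := by
        refine pos_of (M := N + 1) (c := e) (H := (C : PowerSeries ℤ) *
          ∑ i ∈ Finset.range (δ + 1), PowerSeries.X ^ (δ - i) * ps g -
            PowerSeries.X ^ δ * ps f) (fun k => ?_) ?_
        · rw [map_sub, coeff_shift]
          have h1 : PowerSeries.coeff k ((C : PowerSeries ℤ) *
              ∑ i ∈ Finset.range (δ + 1), PowerSeries.X ^ (δ - i) * ps g) =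
              (C : ℤ) * ∑ i ∈ Finset.range (δ + 1),
                if δ - i ≤ k then ((g (k - (δ - i)) : ℕ) : ℤ) else 0 := by
            have h2 : (C : PowerSeries ℤ) = PowerSeries.C (C : ℤ) := by simp
            rw [h2, PowerSeries.coeff_C_mul, map_sum]
            refine congrArg _ (Finset.sum_congr rfl fun i _ => ?_)
            rw [coeff_shift, hcg]
          rw [h1, sub_nonneg]
          by_cases hk : δ ≤ k
          · rw [if_pos hk, hcf]
            have h2 := hC (k - δ)
            have h3 : ((f (k - δ) : ℕ) : ℤ) ≤ (C : ℤ) * ∑ i ∈ Finset.range (δ + 1),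
                ((g (k - δ + i) : ℕ) : ℤ) := by
              exact_mod_cast h2
            refine h3.trans (le_of_eq ?_)
            refine congrArg _ (Finset.sum_congr rfl fun i hi => ?_)
            rw [Finset.mem_range] at hi
            rw [if_pos (by omega)]
            have h4 : k - δ + i = k - (δ - i) := by omega
            rw [h4]
          · rw [if_neg hk]
            refine mul_nonneg (Nat.cast_nonneg _) (Finset.sum_nonneg fun i _ => ?_)
            split_ifs
            · exact Nat.cast_nonneg _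
            · exact le_refl _
        · have h1 : (1 - PowerSeries.X) ^ (N + 1) * ((C : PowerSeries ℤ) *
              ∑ i ∈ Finset.range (δ + 1), PowerSeries.X ^ (δ - i) * ps g -
              PowerSeries.X ^ δ * ps f) =
              (C : PowerSeries ℤ) * ∑ i ∈ Finset.range (δ + 1), PowerSeries.X ^ (δ - i) *
                ((1 - PowerSeries.X) ^ (N + 1) * ps g) -
                PowerSeries.X ^ δ * ((1 - PowerSeries.X) ^ (N + 1) * ps f) := by
            rw [mul_sub, mul_left_comm, Finset.mul_sum]
            congr 1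
            · refine congrArg _ (Finset.sum_congr rfl fun i _ => ?_)
              ring
            · ring
          rw [h1, hf', hg', hP₂]
          push_cast
          rw [coe_sum, coe_nat]
          push_cast
          have h2 : (1 - PowerSeries.X : PowerSeries ℤ) ^ c =
              (1 - PowerSeries.X) ^ e * (1 - PowerSeries.X) ^ (c - e) := by
            rw [← pow_add]
            congr 1
            omega
          rw [h2]
          simp only [Finset.mul_sum, mul_sub]
          congr 1
          · refine Finset.sum_congr rfl fun i _ => ?_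
            ring
          · ring
      have hQ3 : Q.eval 1 ≤ 0 := by
        rw [Polynomial.eval_sub, Polynomial.eval_mul, Polynomial.eval_pow, Polynomial.eval_sub,
          Polynomial.eval_one, Polynomial.eval_X, sub_self, zero_pow (by omega), zero_mul,
          Polynomial.eval_mul, Polynomial.eval_pow, Polynomial.eval_X, one_pow, one_mul] at hQ2
        linarith
      have hQ4 : Q.eval 1 = 0 := le_antisymm hQ3 hQ1
      have hQ5 : P₁.eval 1 = 0 := by
        rw [hQ, Polynomial.eval_mul, Polynomial.eval_pow, Polynomial.eval_neg,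
          Polynomial.eval_one] at hQ4
        rcases mul_eq_zero.1 hQ4 with h1 | h1
        · exact absurd h1 (pow_ne_zero _ (by norm_num))
        · exact h1
      exact hnd (Polynomial.dvd_iff_isRoot.2 hQ5)
    · refine ⟨(1 - Polynomial.X) ^ (e - c) * ((-1) ^ e * P₁), ?_⟩
      rw [← mul_assoc, ← pow_add]
      have h1 : c + (e - c) = e := by omega
      rw [h1, ← hP₂]
  · intro r κ δ hκ hb q hq
    have hs : ∀ k, PowerSeries.coeff k (∑ l : Fin r, PowerSeries.X ^ (κ l) * ps g) =
        ((∑ l : Fin r, if κ l ≤ k then g (k - κ l) else 0 : ℕ) : ℤ) := by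
      intro k
      rw [map_sum]
      push_cast
      refine Finset.sum_congr rfl fun l _ => ?_
      rw [coeff_shift, hcg]
    have hse : (∑ l : Fin r, (Polynomial.X : Polynomial ℤ) ^ (κ l) * h).eval 1 =
        (r : ℤ) * h.eval 1 := by
      rw [Polynomial.eval_finsetSum]
      have h1 : ∀ l : Fin r, ((Polynomial.X : Polynomial ℤ) ^ (κ l) * h).eval 1 = h.eval 1 := by
        intro l
        rw [Polynomial.eval_mul, Polynomial.eval_pow, Polynomial.eval_X, one_pow, one_mul]
      rw [Finset.sum_congr rfl fun l _ => h1 l, Finset.sum_const, Finset.card_univ,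
        Fintype.card_fin, nsmul_eq_mul]
    have hm : (1 - PowerSeries.X) ^ (N + 1) * (∑ l : Fin r, PowerSeries.X ^ (κ l) * ps g) =
        (1 - PowerSeries.X) ^ c * ∑ l : Fin r, PowerSeries.X ^ (κ l) * (h : PowerSeries ℤ) := by
      rw [Finset.mul_sum, Finset.mul_sum]
      refine Finset.sum_congr rfl fun l _ => ?_
      rw [mul_left_comm, hg']
      ring
    refine le_antisymm ?_ ?_
    · have h1 : 0 ≤ ((∑ l : Fin r, (Polynomial.X : Polynomial ℤ) ^ (κ l) * h) -
          Polynomial.X ^ δ * q).eval 1 := by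
        refine pos_of (M := N + 1) (c := c) (H := (∑ l : Fin r, PowerSeries.X ^ (κ l) * ps g) -
          PowerSeries.X ^ δ * ps f) (fun k => ?_) ?_
        · rw [map_sub, hs, coeff_shift, sub_nonneg]
          by_cases hk : δ ≤ k
          · rw [if_pos hk, hcf]
            have h2 := (hb (k - δ)).2
            have h3 : (∑ l : Fin r, if κ l ≤ k then g (k - κ l) else 0) =
                ∑ l : Fin r, g (k - δ + δ - κ l) := by
              refine Finset.sum_congr rfl fun l _ => ?_
              have h4 := hκ l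
              rw [if_pos (by omega)]
              congr 1
              omega
            rw [h3]
            exact_mod_cast h2
          · rw [if_neg hk]
            exact Nat.cast_nonneg _
        · rw [mul_sub, hm, mul_left_comm, hf', hq]
          push_cast
          rw [coe_sum]
          push_cast
          ring
      rw [Polynomial.eval_sub, hse, Polynomial.eval_mul, Polynomial.eval_pow, Polynomial.eval_X,
        one_pow, one_mul] at h1
      linarith
    · have h1 : 0 ≤ (q - ∑ l : Fin r, (Polynomial.X : Polynomial ℤ) ^ (κ l) * h).eval 1 := by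
        refine pos_of (M := N + 1) (c := c) (H := ps f -
          ∑ l : Fin r, PowerSeries.X ^ (κ l) * ps g) (fun k => ?_) ?_
        · rw [map_sub, hs, hcf, sub_nonneg]
          exact_mod_cast (hb k).1
        · rw [mul_sub, hm, hf', hq]
          push_cast
          rw [coe_sum]
          push_cast
          ring
      rw [Polynomial.eval_sub, hse] at h1
      linarith

end Pool.Agent.Lib.MP_776403_ag.SD
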