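import Pool.Agent.Lib.MP_776403_ag.SD.K.DefsR
import Pool.Agent.Lib.MP_776403_ag.SD.SpecD

/-!
# THEOREM SD, part K: (RI), restriction of Koszul cycles to the diagonal (note 4445)

Statements with complete proofs in the docstrings.  Each `S_R…` is proved in its own module
`SD/K/R….lean` (theorem `kR…`).

Plan.  `p` a point at which `X = V(I)` is smooth of codimension `c`, `F_1, …, F_c ∈ I` local
equations, `I_s = (F_1, …, F_s)`.  For an `S`-module `M` killed by `I` the Koszul complex of the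
`z_k = x_k - y_k` on `(S / I_s) ⊗ M` is compared with the one for `I_(s-1)`:
`RBase` (`I_0 = 0`), `RStep`, `RFin` (from `I_c` to `I`).
-/

set_option autoImplicit false

open MvPolynomial TensorProduct

noncomputable section

namespace Pool.Agent.Lib.MP_776403_ag.SD

/-! ## 1. Exterior algebra -/

/-- (RCar) The anticommutation relations.

PROOF.  Expand.  `cG v (wG G u) T = ∑_(k ∉ T) ∑_(l ∈ T ∪ {k}) sg k T sg l ((T ∪ {k}) ∖ {l}) v_k G_l
u ((T ∪ {k}) ∖ {l})`: the terms `l = k` give `∑_(k ∉ T) v_k G_k u T` (`sg k T ^ 2 = 1`).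
`wG G (cG v u) T = ∑_(l ∈ T) ∑_(k ∉ T ∖ {l}) sg l (T ∖ {l}) sg k (T ∖ {l}) v_k G_l u ((T ∖ {l}) ∪ {k})`:
the terms `k = l` give `∑_(k ∈ T) v_k G_k u T`.  The other terms (`k ∉ T`, `l ∈ T`) cancel:
`sg k T sg l ((T ∪ {k}) ∖ {l}) = - sg l (T ∖ {l}) sg k (T ∖ {l})`: if `l < k` then
`sg k T = - sg k (T ∖ {l})` and `sg l ((T ∪ {k}) ∖ {l}) = sg l (T ∖ {l})`; if `k < l` then
`sg k T = sg k (T ∖ {l})` and `sg l ((T ∪ {k}) ∖ {l}) = - sg l (T ∖ {l})`.  In the same way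
`cG v (cG v' u) T = ∑_(k ≠ l, k, l ∉ T) sg k T sg l (T ∪ {k}) v_k v'_l u (T ∪ {k, l})` and
`sg k T sg l (T ∪ {k}) = - sg l T sg k (T ∪ {l})`.  For `v' = v` the terms `(k, l)`, `(l, k)` cancel
(`Finset.sum_involution`; no division by `2`).  The same for `wG`. -/
def S_RCar : Prop :=
  ∀ (N : ℕ) (R : Type) [CommRing R] (M : Type) [AddCommGroup M] [Module R M]
    (v v' G G' : Fin (N + 1) → R) (u : Cn N M),
    cG v (wG G u) + wG G (cG v u) = (∑ k, v k * G k) • u ∧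
    cG v (cG v' u) + cG v' (cG v u) = 0 ∧ cG v (cG v u) = 0 ∧
    wG G (wG G' u) + wG G' (wG G u) = 0 ∧ wG G (wG G u) = 0

/-- (RLap) Iterated exterior products are minors.

PROOF.  `wG (G_1) (… wG (G_i) (u) …)`, `u` supported at `∅`, is `T ↦ det (G_l at the l-th row, columns
T sorted) u ∅` for `T` of cardinality `i`.  Induction on `i`, expansion of the determinant along the
first row (`Matrix.det_succ_row_zero`): `wG G_1 u' T = ∑_(k ∈ T) sg k (T ∖ {k}) G_(1,k) u' (T ∖ {k})`, and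
for `k = T.orderEmbOfFin h j` the sign `sg k (T ∖ {k})` is `(-1)^j` and
`(T ∖ {k}).orderEmbOfFin = T.orderEmbOfFin ∘ j.succAbove`. -/
def S_RLap : Prop :=
  ∀ (N : ℕ) (R : Type) [CommRing R] (M : Type) [AddCommGroup M] [Module R M] (i : ℕ)
    (G : Fin i → Fin (N + 1) → R) (m : M),
    (List.ofFn G).foldr (fun g u => wG g u)
        (fun T : Finset (Fin (N + 1)) => if T = ∅ then m else 0) =
      fun T : Finset (Fin (N + 1)) => if h : T.card = i then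
        (Matrix.det (Matrix.of fun l k => G l (T.orderEmbOfFin h k))) • m else 0

/-- (RDq) Difference quotients.

PROOF.  Induction on `F` (`MvPolynomial.induction_on`): constants `q = 0`; sums; `F X_j`:
`ix (F X_j) - iy (F X_j) = x_j (F(x) - F(y)) + (x_j - y_j) F(y)`, so
`q'_k = x_j q_k + δ_(jk) F(y)`, and on the diagonal `X_j ∂_k F + δ_(jk) F = ∂_k (F X_j)`.  If `F` is
homogeneous of degree `f ≥ 1` replace `q_k` by its homogeneous component of degree `f - 1`: `z_k` is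
homogeneous of degree `1` and `ix F - iy F` of degree `f` (`rename` preserves degrees), `dgS`
preserves the homogeneous components, `∂_k F` has degree `f - 1`; if `f = 0` then `F` is a constant
and `q = 0` will do. -/
def S_RDq : Prop :=
  ∀ (N : ℕ) (F : Sx N), (∃ q : Fin (N + 1) → Rx N, IsDq F q) ∧
    ∀ f : ℕ, F.IsHomogeneous f → ∃ q : Fin (N + 1) → Rx N, IsDq F q ∧
      ∀ k, (q k).IsHomogeneous (f - 1)

/-! ## 2. Regularity -/

/-- (RSyz) Syzygies of independent linear forms.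

PROOF.  Extend the `ℓ t` to a basis of the linear forms: there is a `ℂ`-algebra automorphism `φ` of
`S` preserving the degrees and an injection `e : Fin n → Fin (N + 1)` with `φ (ℓ t) = X (e t)`
(`φ` given by an invertible matrix).  `∑ φ(γ t) X (e t) = 0`; apply `tKos2` (`SD/Kos2.lean`,
statement `S_Kos2` in `SpecB.lean`) with `d = 1`, degree `k + 1`: `φ (γ t) = ∑_t' (b t t' - b t' t) X (e t')`
with `b t t'` homogeneous of degree `k - 1` (`0` if `k = 0`).  Put `a t t' = φ⁻¹ (b t t' - b t' t)`. -/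
def S_RSyz : Prop :=
  ∀ (N n : ℕ) (ℓ : Fin n → Sx N), (∀ t, (ℓ t).IsHomogeneous 1) → LinearIndependent ℂ ℓ →
    ∀ (k : ℕ) (γ : Fin n → Sx N), (∀ t, (γ t).IsHomogeneous k) → ∑ t, γ t * ℓ t = 0 →
    (k = 0 → ∀ t, γ t = 0) ∧
    ∃ a : Fin n → Fin n → Sx N, (∀ t t', a t t' = - a t' t) ∧
      (∀ t t', (a t t').IsHomogeneous (k - 1)) ∧ ∀ t, γ t = ∑ t', a t t' * ℓ t'

/-- (RLead) Syzygies of functions with independent differentials, up to high order.

PROOF (uses RSyz).  Translate: `τ : X_k ↦ X_k + p_k` is an automorphism of `S`; `ord G ≥ k` means that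
the homogeneous components of `τ G` of degree `< k` vanish; then `G ∈ (ker (eval p))^k` (`τ G` is a sum
of monomials of degree `≥ k`, and `τ⁻¹ X_j = X_j - p_j ∈ ker (eval p)`).  `τ (F i)` has constant term
`F i (p) = 0` and linear part `ℓ i = ∑_k (∂_k F i)(p) X_k`; the `ℓ i` are linearly independent.
Induction on `k`: there are antisymmetric `e` with `ord (a i - ∑_j e i j F j) ≥ k`.  Given this for `k`,
put `a'_i = a i - ∑_j e i j F j`; `∑ a'_i F i = 0` (`e` antisymmetric: `∑_(i,j) e i j F i F j = 0`).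
Let `γ_i` be the component of degree `k` of `τ a'_i`.  The component of degree `k + 1` of
`∑ τ(a'_i) τ(F i) = 0` is `∑ γ_i ℓ i`.  (RSyz): `γ_i = ∑_j b i j ℓ j`, `b` antisymmetric of degree
`k - 1` (`γ = 0` if `k = 0`); put `e' = e + τ⁻¹ b` (`e' = e` if `k = 0`): the component of degree `k` of
`τ (a'_i - ∑_j τ⁻¹(b i j) F j)` is `γ_i - ∑_j b i j ℓ j = 0`, the lower ones vanish. -/
def S_RLead : Prop :=
  ∀ (N n : ℕ) (F : Fin n → Sx N) (p : Vx N), (∀ i, eval p (F i) = 0) →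
    LinearIndependent ℂ (fun i => grad (F i) p) →
    ∀ a : Fin n → Sx N, ∑ i, a i * F i = 0 → ∀ k : ℕ,
    ∃ e : Fin n → Fin n → Sx N, (∀ i j, e i j = - e j i) ∧
      ∀ i, a i - ∑ j, e i j * F j ∈ (RingHom.ker (eval p : Sx N →+* ℂ)) ^ k

/-- (RReg) Functions with independent differentials at `p` form a regular sequence at `p`.

PROOF (uses RLead).  `F s a = ∑_(t < s) b_t F_t`; `(RLead)` for the family `F_t`, `t ≤ s` (compose with
`Fin.castLE`, `n = s + 1`), coefficients `a` at `s` and `- b_t` at `t < s`: for all `k`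
`a - ∑_j e_(s j) F_j ∈ 𝔪^k`, and `e_(s s) = 0` (antisymmetric, characteristic `0`), so
`a ∈ 𝔟 ⊔ 𝔪^k`, `𝔟 = span (F_t : t < s)`.  Krull's intersection theorem for the module `S / 𝔟`
(`Ideal.mem_iInf_smul_pow_eq_bot_iff`): there is `r ∈ 𝔪` with `r a ≡ a` modulo `𝔟`;
`g = 1 - r`, `g (p) = 1`, `g a ∈ 𝔟`. -/
def S_RReg : Prop :=
  ∀ (N n : ℕ) (F : Fin n → Sx N) (p : Vx N), (∀ i, eval p (F i) = 0) →
    LinearIndependent ℂ (fun i => grad (F i) p) →
    ∀ (s : Fin n) (a : Sx N), F s * a ∈ Ideal.span (F '' {t | t < s}) →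
    ∃ g : Sx N, eval p g ≠ 0 ∧ g * a ∈ Ideal.span (F '' {t | t < s})

/-- (RDual) Dual vector fields.

PROOF.  The `c × (N + 1)` matrix `(∂_k F_i (p))` has rank `c`: there are `c` columns `k_1, …, k_c` with
nonzero minor (`tMinor`, statement `S_Minor` in `SpecB.lean`).  `δ` = the determinant of the matrix
`A = (∂_(k_j) F_i)` over `S`, `B = adjugate A`, `A B = δ`; `v s` = the vector with entry `B j s` at `k_j`
(the `k_j` are different, or simply sum `∑_j` over the `j` with `k_j = k`) and `0` elsewhere. -/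
def S_RDual : Prop :=
  ∀ (N c : ℕ) (F : Fin c → Sx N) (p : Vx N), LinearIndependent ℂ (fun i => grad (F i) p) →
    ∃ (v : Fin c → Fin (N + 1) → Sx N) (δ : Sx N), eval p δ ≠ 0 ∧
      ∀ s t, ∑ k, v s k * pderiv k (F t) = if s = t then δ else 0

/-! ## 3. Tensor products -/

/-- (RTen) Exactness.  `π : (S / I') ⊗ M → (S / I'') ⊗ M`.

PROOF.  `π` is `LinearMap.rTensor M` of `Ideal.Quotient.factor` (as a `ℂ`-linear map); it is
`ℂ[x, y]`-linear: check `π (ix F • t) = ix F • π t`, `π (iy F • t) = iy F • π t` on pure tensors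
(`ix_smul_tm`, `iy_smul_tm`), and `ℂ[x, y]` is generated by the `x_k = ix X_k`, `y_k = iy X_k`
(`MvPolynomial.induction_on`).  Surjective: pure tensors.  The kernel of `π` is the range of
`rTensor M` of the inclusion of `K = ker (S / I' → S / I'')` (`rTensor_exact`): a sum of `k_j ⊗ m_j`,
`k_j = mk g_j`, `g_j ∈ I''`.
(a) `I'' = I' ⊔ (F)`: `g_j = F f_j` modulo `I'`: the element is `ix F • ∑ tm (mk f_j) m_j`; conversely
`π (ix F • t) = ix F • π t = 0` as `F = 0` in `S / I''`.  (b) `h k_j = 0`.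
(c) Write `t = ∑_j l_j ⊗ m_j` with `m_j` linearly independent over `ℂ` (basis of `M`:
`TensorProduct.equivFinsuppOfBasisRight`); `ix F • t = ∑ (F l_j) ⊗ m_j = 0` gives `F l_j = 0` in
`S / I'`, so there are `g_j` with `g_j (p) ≠ 0`, `g_j l_j = 0`; `g = ∏ g_j`. -/
def S_RTen : Prop :=
  ∀ (N : ℕ) (I' I'' : Ideal (Sx N)), I' ≤ I'' → ∀ (M : Type) [AddCommGroup M] [Module ℂ M]
    [Module (Sx N) M] [IsScalarTower ℂ (Sx N) M],
    (∃ π : TM N (Sx N ⧸ I') M →ₗ[Rx N] TM N (Sx N ⧸ I'') M, Function.Surjective π ∧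
      (∀ (f : Sx N) (m : M), π (tm N (Ideal.Quotient.mk I' f) m) =
        tm N (Ideal.Quotient.mk I'' f) m) ∧
      (∀ F : Sx N, I'' = I' ⊔ Ideal.span {F} →
        (∀ t, π t = 0 → ∃ t', t = (ix F : Rx N) • t') ∧ ∀ t, π ((ix F : Rx N) • t) = 0) ∧
      (∀ h : Sx N, (∀ G ∈ I'', h * G ∈ I') → ∀ t, π t = 0 → (ix h : Rx N) • t = 0)) ∧
    (∀ (F : Sx N) (p : Vx N), (∀ f, F * f ∈ I' → ∃ g, eval p g ≠ 0 ∧ g * f ∈ I') →
      ∀ t : TM N (Sx N ⧸ I') M, (ix F : Rx N) • t = 0 →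
        ∃ g, eval p g ≠ 0 ∧ (ix g : Rx N) • t = 0)

/-- (RMu) The multiplication `(S / I') ⊗ M → M` for an `S`-module `M` killed by `I'`.

PROOF.  `Submodule.liftQ I'` of `S →ₗ[S] (M →ₗ[S] M)`, `f ↦ f • id`; as a `ℂ`-bilinear map it gives
`TensorProduct.lift`.  `DgL`: for `r = ix F` and `r = iy F` on pure tensors, then
`MvPolynomial.induction_on` in `r` (the set of `r` for which it holds is a subalgebra), and linearity
in the tensor. -/
def S_RMu : Prop :=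
  ∀ (N : ℕ) (I' : Ideal (Sx N)) (M : Type) [AddCommGroup M] [Module ℂ M]
    [Module (Sx N) M] [IsScalarTower ℂ (Sx N) M], (∀ f ∈ I', ∀ m : M, f • m = 0) →
    ∃ μ : TM N (Sx N ⧸ I') M →ₗ[ℂ] M, (∀ (f : Sx N) (m : M),
      μ (tm N (Ideal.Quotient.mk I' f) m) = f • m) ∧ DgL N μ

/-! ## 4. The base: `S ⊗ M` -/

/-- (RBas1) `H_j (z; S ⊗ M) = 0` for `j ≥ 1`.

PROOF.  `∂_k : S ⊗ M → S ⊗ M` is `rTensor M (pderiv k)`, `ℂ`-linear;
`∂_k (ix F • t) = ix (∂_k F) • t + ix F • ∂_k t`, `∂_k (iy F • t) = iy F • ∂_k t` (pure tensors).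
`δ w T = ∑_(k ∈ T) sg k (T ∖ {k}) ∂_k (w (T ∖ {k}))`.  Then
`dK (δ w) + δ (dK w) = Θ w`, `(Θ w) T = ∑_k z_k ∂_k (w T) + |T| w T`: the terms of
`dK (δ w) T = ∑_(k ∉ T) ∑_(l ∈ T ∪ {k}) sg k T sg l ((T ∪ {k}) ∖ {l}) z_k ∂_l w ((T ∪ {k}) ∖ {l})` and
`δ (dK w) T = ∑_(l ∈ T) ∑_(k ∉ T ∖ {l}) sg l (T ∖ {l}) sg k (T ∖ {l}) ∂_l (z_k w ((T ∖ {l}) ∪ {k}))`,
`∂_l (z_k t) = z_k ∂_l t + δ_(kl) t`, cancel for `k ≠ l` (signs as in RCar); `k = l`: `∑_(k ∉ T) z_k ∂_k w T`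
and `∑_(k ∈ T) (z_k ∂_k w T + w T)`.
`Fil n` = the `ℂ`-span of the `tm f m`, `f` homogeneous of a degree `< n`.  Euler
(`∑_k X_k ∂_k f = e f`, `f` homogeneous of degree `e`) gives: for `t ∈ Fil (n + 1)` the elements
`∑_k x_k ∂_k t - n t` and `y_k ∂_k t` are in `Fil n`.
CLAIM (induction on `n`): if all `w T ∈ Fil n`, `Sup (i + 1) w`, `dK w = 0` then `w = dK v` with
`Sup (i + 2) v`.  `n = 0`: `w = 0`.  `n + 1`: `w' = w - (n + i + 1)⁻¹ Θ w`: `w' T ∈ Fil n` (as `w T = 0` for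
`|T| ≠ i + 1`), `dK w' = 0` (`dK (Θ w) = dK (dK (δ w)) = 0`: RCar), so `w' = dK v'` and
`w = dK (v' + (n + i + 1)⁻¹ δ w)`.  Every chain has values in some `Fil n` (a polynomial is the sum of its
homogeneous components; finitely many `T`). -/
def S_RBas1 : Prop :=
  ∀ (N : ℕ) (M : Type) [AddCommGroup M] [Module ℂ M] [Module (Sx N) M]
    [IsScalarTower ℂ (Sx N) M] (i : ℕ) (w : Cn N (TM N (Sx N) M)), Sup (i + 1) w → dK w = 0 →
    ∃ v : Cn N (TM N (Sx N) M), Sup (i + 2) v ∧ dK v = w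

/-- (RBase) The local statements for `(S / 0) ⊗ M`.

PROOF (uses RBas1, RDq).  `(S / ⊥) ⊗ M ≅ S ⊗ M` (`tm (mk f) m ↔ tm f m`, `ℂ[x, y]`-linear).  So let
`μ : S ⊗ M → M`, `f ⊗ m ↦ f m`.  INJ, `i = 0`: `w` supported at `∅`, `μ (w ∅) = 0`.  For all `f`, `m`:
`tm f m - tm 1 (f m) = (ix f - iy f) tm 1 m = ∑ z_k q_k tm 1 m`; so for `c = w ∅` there are `a_k` with
`c - tm 1 (μ c) = ∑ z_k a_k`, i.e. `c = ∑ z_k a_k`; `v {k} = a_k`, `v T = 0` for `|T| ≠ 1`:
`dK v ∅ = ∑_k sg k ∅ z_k a_k = c` and `dK v T = 0` for `T ≠ ∅`.  `g = 1`.  INJ, `i ≥ 1`: RBas1, `g = 1`.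
IMG, `i = 0`: `μ ∘ w` is supported at `∅`: in `WL … 0`.  `i ≥ 1`: `w = dK v`, and `μ (z_k t) = 0`, so
`μ ∘ w = 0`. -/
def S_RBase : Prop :=
  ∀ (N : ℕ) (M : Type) [AddCommGroup M] [Module ℂ M] [Module (Sx N) M]
    [IsScalarTower ℂ (Sx N) M] (μ : TM N (Sx N ⧸ (⊥ : Ideal (Sx N))) M →ₗ[ℂ] M),
    (∀ (f : Sx N) (m : M), μ (tm N (Ideal.Quotient.mk ⊥ f) m) = f • m) → DgL N μ →
    ∀ (p : Vx N) (G : Fin 0 → Fin (N + 1) → Sx N), INJ p μ ∧ IMG p μ G

/-! ## 5. The step -/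

/-- (RStep) From `A'` to `A = A' / F(x) A'`.

PROOF (uses RCar).  Let `q` be given by RDq for `F` (hypothesis `hq`).  For `u : Cn N A'`:
(1) `dK (wG q u) = (ix F - iy F) • u - wG q (dK u) = ix F • u - wG q (dK u)` (RCar with `v = zz`, and
`iy F • a = 0`); (2) `ρ' ∘ (wG q u) = wG (dF F) (ρ' ∘ u)` (DgL and `dgS q_k = ∂_k F`); (3) for `j` and
`U ∈ WL M G j` one has `cG v U = 0` (induction on `j`: `cG v (wG G_t U) = (∑ v_k G_(t,k)) U - wG G_t (cG v U)`;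
`Sup 0 U` gives `cG v U = 0` because `insert k T ≠ ∅`).
Let `w : Cn N A`, `Sup i w`, `dK w = 0`.  Choose `w̃ : Cn N A'` with `π (w̃ T) = w T`, `w̃ T = 0` where
`w T = 0`.  `π (dK w̃ T) = 0`, so `dK w̃ = ix F • u`, where `u T = 0` whenever `dK w̃ T = 0`; if `i = 0` then
`dK w̃ = 0` and `u = 0`; if `i = j + 1` then `Sup j u`.  `ix F • dK u = dK (dK w̃) = 0`, so (finitely many
`T`) there is `g`, `g (p) ≠ 0`, `ix g • dK u = 0`.  Replace `w̃`, `u` by `ix g • w̃`, `ix g • u` (now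
`π ∘ w̃ = ix g • w`).  `w₁ = w̃ - wG q u`: `Sup i w₁` and `dK w₁ = ix F • u - ix F • u + wG q (dK u) = 0`.
IMG: there are `g₁`, `g₂`, not zero at `p`, with `g₁ (ρ' ∘ w₁) ∈ WL G i`, `g₂ (ρ' ∘ u) ∈ WL G j`, and
`g (ρ ∘ w) = ρ' ∘ w̃ = ρ' ∘ w₁ + wG (dF F) (ρ' ∘ u)`; so `g g₁ g₂ (ρ ∘ w) ∈ WL (snoc G (dF F)) i`.
INJ: now `ρ ∘ w = 0`, so `ρ' ∘ w₁ + wG (dF F) (ρ' ∘ u) = 0`; multiply by `g₁ g₂` (again rename
`w̃, u, w₁`), so that `W = ρ' ∘ w₁ ∈ WL G i` and `U = ρ' ∘ u ∈ WL G j`.  Apply `cG v`: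
`0 = 0 + δ U - wG (dF F) (cG v U) = δ U`, `δ = ∑ v_k ∂_k F`.  So `ρ' ∘ (ix δ • u) = 0`, and then
`ρ' ∘ (ix δ • w₁) = - wG (dF F) (δ U) = 0`.  INJ for `A'`: `ix (g₃ δ) • u = dK v'`, `Sup (j + 1) v'`, and
`ix (g₄ δ) • w₁ = dK v''`, `Sup (i + 1) v''`.  Hence, with `g₅ = g₃ g₄ δ`,
`ix g₅ • w̃ = ix g₅ • w₁ + wG q (ix g₅ • u) = dK (g₃ v'') + wG q (dK (g₄ v')) =
dK (g₃ v'') + ix F • (g₄ v') - dK (wG q (g₄ v'))` by (1); apply `π`:
`ix (g₅ g g₁ g₂) • w = dK (π ∘ (g₃ v'' - wG q (g₄ v')))`.  (If `i = 0`: `u = 0`, the same with `v' = 0`.) -/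
def S_RStep : Prop :=
  ∀ (N : ℕ) (p : Vx N) (A' A M : Type) [AddCommGroup A'] [Module ℂ A'] [Module (Rx N) A']
    [AddCommGroup A] [Module ℂ A] [Module (Rx N) A] [AddCommGroup M] [Module ℂ M]
    [Module (Sx N) M] (ρ' : A' →ₗ[ℂ] M) (ρ : A →ₗ[ℂ] M) (π : A' →ₗ[Rx N] A) (F : Sx N)
    (q : Fin (N + 1) → Rx N) (s : ℕ) (G : Fin s → Fin (N + 1) → Sx N)
    (v : Fin (N + 1) → Sx N), IsDq F q → Function.Surjective π →
    (∀ t, π t = 0 → ∃ t', t = (ix F : Rx N) • t') → (∀ t, π ((ix F : Rx N) • t) = 0) →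
    (∀ t : A', (ix F : Rx N) • t = 0 → ∃ g, eval p g ≠ 0 ∧ (ix g : Rx N) • t = 0) →
    (∀ t : A', (iy F : Rx N) • t = 0) → (∀ t, ρ (π t) = ρ' t) → DgL N ρ' →
    (∀ t, ∑ k, v k * G t k = 0) → eval p (∑ k, v k * pderiv k F) ≠ 0 →
    INJ p ρ' → IMG p ρ' G →
    INJ p ρ ∧ IMG p ρ (Fin.snoc (α := fun _ => Fin (N + 1) → Sx N) G (dF F))

/-- (RFin) From `A'` to a quotient by torsion.

PROOF.  `w : Cn N A`, `Sup i w`, `dK w = 0`.  Choose `w̃` with `π (w̃ T) = w T`, `w̃ T = 0` where `w T = 0`.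
`π (dK w̃ T) = 0`, so there is `g`, `g (p) ≠ 0`, with `ix g • dK w̃ = 0` (finitely many `T`; product).
`ix g • w̃` is a cycle, `ρ' ∘ (ix g • w̃) = g (ρ ∘ w)`.  IMG, INJ for `A'` and `π`. -/
def S_RFin : Prop :=
  ∀ (N : ℕ) (p : Vx N) (A' A M : Type) [AddCommGroup A'] [Module ℂ A'] [Module (Rx N) A']
    [AddCommGroup A] [Module ℂ A] [Module (Rx N) A] [AddCommGroup M] [Module ℂ M]
    [Module (Sx N) M] (ρ' : A' →ₗ[ℂ] M) (ρ : A →ₗ[ℂ] M) (π : A' →ₗ[Rx N] A),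
    Function.Surjective π →
    (∀ t, π t = 0 → ∃ g, eval p g ≠ 0 ∧ (ix g : Rx N) • t = 0) → (∀ t, ρ (π t) = ρ' t) →
    DgL N ρ' → (INJ p ρ' → INJ p ρ) ∧
      ∀ (κ : Type) (G : κ → Fin (N + 1) → Sx N), IMG p ρ' G → IMG p ρ G

/-- (RLocB) The local statements for `(S / I) ⊗ M`.

PROOF (uses RBase, RStep, RFin, RTen, RMu, RReg, RDual, RDq).  `I_s = span (F '' {t | t < s})`
(`s ≤ c`; `I_0 = ⊥`, `I_(s+1) = I_s ⊔ (F s)`, `I_c = span (range F)`); all `F t ∈ I` kill `M`.  By induction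
on `s ≤ c`: for the `μ_s : (S / I_s) ⊗ M → M` of (RMu) `INJ p μ_s` and `IMG p μ_s (fun t : Fin s => dF (F t))`
hold (`μ_s` is determined by its values on pure tensors).  `s = 0`: RBase.  Step: RStep with `π` of
(RTen), `F = F s`, torsion by (RTen, second part) and (RReg), `iy (F s) • t = 0` as `F s` kills `M`
(`iy_smul_tm`), `v` = the vector `v s` of (RDual); `Fin.snoc` of the `dF (F t)`, `t < s`, and `dF (F s)` is
the family for `s + 1`.  Finally RFin with `π : (S / I_c) ⊗ M → (S / I) ⊗ M`, `g = h` (RTen (b)). -/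
def S_RLocB : Prop :=
  ∀ (N c : ℕ) (I : Ideal (Sx N)) (p : Vx N) (F : Fin c → Sx N) (h : Sx N), p ∈ zer I →
    (∀ i, F i ∈ I) → LinearIndependent ℂ (fun i => grad (F i) p) → eval p h ≠ 0 →
    (∀ G ∈ I, h * G ∈ Ideal.span (Set.range F)) →
    ∀ (M : Type) [AddCommGroup M] [Module ℂ M] [Module (Sx N) M] [IsScalarTower ℂ (Sx N) M],
    (∀ f ∈ I, ∀ m : M, f • m = 0) → ∀ μ : TM N (Sx N ⧸ I) M →ₗ[ℂ] M,
    (∀ (f : Sx N) (m : M), μ (tm N (Ideal.Quotient.mk I f) m) = f • m) → DgL N μ →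
    INJ p μ ∧ IMG p μ (fun t : Fin c => dF (F t))

/-! ## 6. Graded version -/

/-- (RCmp) Homogeneous components in `ℂ[x, y] / (I(x) + J(y))`.

PROOF.  `cc I J` is a homogeneous ideal: it is generated by the `ix F`, `F ∈ I`, and `iy F`, `F ∈ J`;
`I`, `J` are homogeneous, so it is generated by forms (`rename` commutes with
`homogeneousComponent`), and the components of `∑ a_j H_j`, `H_j` forms in `cc I J`, are in `cc I J`.  So
`homogeneousComponent e` (a `ℂ`-linear map) maps `cc I J` into itself: `Submodule.mapQ` (with the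
quotient by the `ℂ`-subspace; `Submodule.liftQ` …). -/
def S_RCmp : Prop :=
  ∀ (N : ℕ) (I J : Ideal (Sx N)), IsHom I → IsHom J →
    ∃ π : ℕ → (CR I J →ₗ[ℂ] CR I J), ∀ (e : ℕ) (F : Rx N),
      π e (Ideal.Quotient.mk (cc I J) F) = Ideal.Quotient.mk (cc I J) (homogeneousComponent e F)

/-- The `S`-module generated by the image of the family `W` in `(S / J)^β`. -/
def MW {N : ℕ} {β : Type} (J : Ideal (Sx N)) (W : ℕ → Submodule ℂ (β → Sx N)) :
    Submodule (Sx N) (β → Sx N ⧸ J) :=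
  Submodule.span (Sx N) {z | ∃ (k : ℕ), ∃ w ∈ W k, z = redL β J w}

/-- (RTheta) `(S / I) ⊗ (W / J)` in `(ℂ[x, y] / (I(x) + J(y)))^β`.

PROOF.  `θ₀ : (S / I) ⊗_ℂ (S / J) → CR I J`, `mk f ⊗ mk g ↦ mk (ix f * iy g)`: well defined
(`Ideal.Quotient.lift` in both variables, `TensorProduct.lift`), with the left inverse
`CR I J → (S / I) ⊗ (S / J)`, lift of `aeval (Sum.elim (mk X_k ⊗ 1) (1 ⊗ mk X_k))` (an algebra
homomorphism which kills `I(x)` and `J(y)`); so it is injective.  `θ (l ⊗ m) = fun p => θ₀ (l ⊗ m p.2)`: the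
composition of `(S / I) ⊗ M → (S / I) ⊗ (β → S / J)` (injective: `Module.Flat.lTensor_preserves_injective_linearMap`
over `ℂ`), `(S / I) ⊗ (β → S / J) ≅ β → (S / I) ⊗ (S / J)` (`TensorProduct.piRight`, `β` finite) and `θ₀`.
`θ` is `ℂ[x, y]`-linear: check `ix F`, `iy F` on pure tensors, then `MvPolynomial.induction_on`.
`dg h (θ (mk f ⊗ m) p) = f (m p.2) = (μ (mk f ⊗ m)) p.2`. -/
def S_RTheta : Prop :=
  ∀ (N : ℕ) (β : Type) [Fintype β] (I J : Ideal (Sx N)) (h : I ≤ J)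
    (W : ℕ → Submodule ℂ (β → Sx N)),
    ∃ θ : TM N (Sx N ⧸ I) (MW J W) →ₗ[Rx N] (Unit × β → CR I J), Function.Injective θ ∧
      (∀ (f : Sx N) (m : MW J W) (m' : β → Sx N), (∀ b, Ideal.Quotient.mk J (m' b) = m.1 b) →
        θ (tm N (Ideal.Quotient.mk I f) m) =
          fun p => Ideal.Quotient.mk (cc I J) (ix f * iy (m' p.2))) ∧
      ∀ μ : TM N (Sx N ⧸ I) (MW J W) →ₗ[ℂ] MW J W,
        (∀ (f : Sx N) (m : MW J W), μ (tm N (Ideal.Quotient.mk I f) m) = f • m) →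
        ∀ t p, dg h (θ t p) = (μ t).1 p.2

/-- (RLocI) Local exactness, graded version, for `V = S`.

PROOF (uses RLocB, RMu, RTheta, RCmp).  Local data `F`, `f`, `h` of `Smooth` at `p` (`p ∈ zer J ⊆ zer I`).
`M = MW J W`, killed by `I ≤ J`; `μ` of RMu (`I' = I`), `θ` of RTheta.  Every generator of `TPf I J (AF N) W k`
is `θ (tm (mk v) (redL w))`, so `w T = θ (w' T)` with `w' T = 0` where `w T = 0`: `Sup i w'`,
`θ ∘ dK w' = dK w = 0` (`mapC_dK`), `dK w' = 0` (injective), and `(μ (w' T)).1 b = dg h (w T ((), b)) = 0`.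
INJ: `dK v' = ix g • w'`, `g (p) ≠ 0`, `Sup (i + 1) v'`.  `v = θ ∘ v'`: `dK v = ix g • w`, and every `v T` is a
(finite) sum of elements of the `TPf I J (AF N) W k` (`θ` of a pure tensor is: decompose `f` and the
coefficients of `m` into homogeneous components).  Let `j` be such that the component `D` of `g` of
degree `j` does not vanish at `p` (`g` is the sum of its components).  With `π` of RCmp put
`(v_e) T = π (e - |T|) (v T)` (componentwise; `0` if `|T| > e`), `e = m + j`: `v_e ∈ Kc … (i + 1) e`, as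
`π k` maps `TPf … k` identically and `TPf … k'` to `0` for `k' ≠ k` (the entries are images of
homogeneous polynomials); `π (k + 1) (z_l • t) = z_l • π k t`, so `dK (v_e)` at `T` is `π (e - |T|)` of `dK v` at
`T`, that is `π (e - i) (ix g • w T) = ix D • w T` (`w T ∈ TPf … (m - i)`, `|T| = i`). -/
def S_RLocI : Prop :=
  ∀ (N c : ℕ) (β : Type) [Fintype β] (I J : Ideal (Sx N)) (h : I ≤ J)
    (W : ℕ → Submodule ℂ (β → Sx N)), IsHom I → IsHom J → Smooth I c → GV W →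
    ∀ p ∈ zer J, p ≠ 0 → ∀ (i m : ℕ), ∀ w ∈ Zc N (TPf I J (AF N) W) i m,
    rho h (Unit × β) w = 0 → ∃ (D : Sx N) (δ : ℕ), D.IsHomogeneous δ ∧ eval p D ≠ 0 ∧
      (ix D : Rx N) • w ∈ Bc N (TPf I J (AF N) W) i (m + δ)

/-- (RLocJ) Local description of the image, graded version, for `V = S`.

PROOF (uses RLocB, RMu, RTheta, RLap).  As in RLocI; IMG gives `g` with
`g (μ ∘ w') ∈ WL M (dF (F t))_t i`; by (RLap) (and induction on `i`) `WL M G i` is spanned over `S` by the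
`T ↦ minor_T (F_(t_1), …, F_(t_i)) m`, `m ∈ M` (`0` if `|T| ≠ i`), and `m` is a combination of images of
`w ∈ W k` with forms as coefficients.  So `g rho (w)` is a sum of images of elements of
`PV (PV (AF N) W) (VT I i) k`, for various `k` (entries `v w_b minor_T`; the minor is that of forms `F_t ∈ I`:
`VT I i k'` with `a` a form).  The entries of `rho w` are images of forms of degree `m - i`; take the
components of degree `m - i + δ`, `D` the component of `g` of degree `δ` with `D (p) ≠ 0`: as `J` is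
homogeneous, a relation `∑_k r_k ∈ J^…` between forms `r_k` of different degrees `k` gives `r_k ∈ J^…`
for every `k`. -/
def S_RLocJ : Prop :=
  ∀ (N c : ℕ) (β : Type) [Fintype β] (I J : Ideal (Sx N)) (h : I ≤ J)
    (W : ℕ → Submodule ℂ (β → Sx N)), IsHom I → IsHom J → Smooth I c → GV W →
    ∀ p ∈ zer J, p ≠ 0 → ∀ (i m : ℕ), i ≤ m → ∀ w ∈ Zc N (TPf I J (AF N) W) i m,
    ∃ (D : Sx N) (δ : ℕ), D.IsHomogeneous δ ∧ eval p D ≠ 0 ∧
      D • rho h (Unit × β) w ∈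
        (PV (PV (AF N) W) (VT I i) (m - i + δ)).map (redL ((Unit × β) × Finset (Fin (N + 1))) J)

/-- (RLocV) The same for a module `V` with local frames.

PROOF (uses RLocI, RLocJ).  At `p` let `r, e, ρ, κ, D₀, δ₀` be given by `LFr I J V`.
`w_l = mapC (rX I J (ρ l)) w ∈ Zc N (TPf I J (AF N) W) i (m + δ₀ - κ l)`: on generators
`rX (ρ l) (v(x)_a w(y)_b) = (∑_a ρ_(l,a) v_a)(x) w(y)_b`, a form of degree `k1 + δ₀ - κ l` times `w`;
`mapC_dK`.  `ix D₀ • w = ∑_l mapC (phiE I J (e l)) (w_l)`: on generators this is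
`D₀ v_a - ∑_l (ρ_l · v) e_(l,a) ∈ I`, applied at `x`.
INJ part: `rho w = 0` gives `rho (w_l) = 0` (`dg (ix ρ • c) = ρ dg c`); RLocI: `ix D_l • w_l ∈ Bc`; with
`D' = ∏ D_l` (forms, nonzero at `p`) all `ix D' • w_l ∈ Bc N (TPf I J (AF N) W) i (…)`, and
`mapC (phiE (e l))` maps `Bc N (TPf I J (AF N) W) i k` into `Bc N (TPf I J V W) i (k + κ l)` (`GV V`:
`f e_l ∈ V (k1 + κ l)` for a form `f` of degree `k1`).  So `ix (D' D₀) • w ∈ Bc N (TPf I J V W) i (m + δ)`.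
IMG part: `D' rho (w_l) ∈ PV (PV (AF N) W) (VT I i) …` modulo `J` and
`D₀ rho (w) = ∑_l e_l rho (w_l)` (reindex `Unit × β` to `α × β`: entry `(a, b), T` of the product is
`e_(l,a)` times the entry `((), b), T`). -/
def S_RLocV : Prop :=
  ∀ (N c : ℕ) (α β : Type) [Fintype α] [Fintype β] (I J : Ideal (Sx N)) (h : I ≤ J)
    (V : ℕ → Submodule ℂ (α → Sx N)) (W : ℕ → Submodule ℂ (β → Sx N)), IsHom I → IsHom J →
    Smooth I c → GV V → GV W → LFr I J V →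
    ∀ p ∈ zer J, p ≠ 0 → ∀ (i m : ℕ), i ≤ m → ∀ w ∈ Zc N (TPf I J V W) i m,
    ∃ (D : Sx N) (δ : ℕ), D.IsHomogeneous δ ∧ eval p D ≠ 0 ∧
      (rho h (α × β) w = 0 → (ix D : Rx N) • w ∈ Bc N (TPf I J V W) i (m + δ)) ∧
      D • rho h (α × β) w ∈
        (PV (PV V W) (VT I i) (m - i + δ)).map (redL ((α × β) × Finset (Fin (N + 1))) J)

/-- (RSur) Surjectivity.

PROOF (uses RCar, RLap, RDq).  `PV (PV V W) (VT I i) (m - i)` is spanned by the
`((a, b), T) ↦ v_a w_b (a₀ minor_T (F_1, …, F_i))`, `v ∈ V k1`, `w ∈ W k2`, `a₀` a form of degree `e`,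
`F_l ∈ I` a form of degree `f_l`, `k1 + k2 + k3 = m - i`, `e + ∑ f_l = k3 + i`.  If some `f_l = 0` then `F_l` is
a constant in `I`, its derivatives vanish and the generator is `0`.  Otherwise let `q_l` be the
difference quotients of RDq with entries homogeneous of degree `f_l - 1`, and
`ω = wG q_1 (… (wG q_i (ω_0)))`, `ω_0` supported at `∅` with value `((a, b)) ↦ mk (ix (a₀ v_a) iy (w_b))`.
Degrees: a polynomial of `ℂ[x, y]`, homogeneous of degree `e'`, maps `TPf I J V W k` to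
`TPf I J V W (k + e')` (`GV V`, `GV W`; monomials).  So `ω ∈ Kc N (TPf I J V W) i m`.  `dK ω = 0`:
`dK (wG q u) = (ix F - iy F) • u - wG q (dK u)` (RCar, IsDq), `ix F = 0`, `iy F = 0` on `CR I J` for
`F ∈ I ≤ J`, and `dK ω_0 = 0`.  `rho ω`: `dg` is an algebra homomorphism with `dg (mk q_k) = ∂_k F`, so
`rho (ω)` is obtained with `wG (dF F_l)` over `S`; RLap gives the minors. -/
def S_RSur : Prop :=
  ∀ (N : ℕ) (α β : Type) [Fintype α] [Fintype β] (I J : Ideal (Sx N)) (h : I ≤ J)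
    (V : ℕ → Submodule ℂ (α → Sx N)) (W : ℕ → Submodule ℂ (β → Sx N)), GV V → GV W →
    ∀ (i m : ℕ), i ≤ m →
    (PV (PV V W) (VT I i) (m - i)).map (redL ((α × β) × Finset (Fin (N + 1))) J) ≤
      (Zc N (TPf I J V W) i m).map (rho h (α × β))

/-- THEOREM (RI).  For large degrees restriction to the diagonal maps the homology
`H_i (z; (V / I) ⊗ (W / J))` isomorphically onto `V . W . Λ^i N^*` (in `(S / J)^…`).

PROOF (uses RLocV, RSur and of `SpecK`: KNoe, KFam, KGF, KLoc, KHot).  (c): `dg (z_k) = 0`.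
(a), (b): apply (KLoc) to the family `U m = Zc N (TPf I J V W) i m ⊓ ker rho`, `V m = Bc … i m`, and to
`U m = Zc … i m`, `V m = {w ∈ Zc … i m | rho w ∈ (PV (PV V W) (VT I i) (m - i)).map redL}`: all these
are graded families (`rho (ix X_k • w) = X_k rho w = rho (iy X_k • w)`), the `U` are finitely
generated (KNoe, subfamilies of the finitely generated family of chains: KGF, KFam); `z_k • w =
dK (e_k w)` for a cycle `w` (KHot), in `Bc` (and `rho` of it is `0`); `iy F • w = 0` for `F ∈ J`; locally: RLocV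
(and `(ix D - iy D) • w ∈ Bc` because `ix D - iy D = ∑ z_k q_k`, RDq).  (b) also uses RSur. -/
def S_RI : Prop :=
  ∀ (N c : ℕ) (α β : Type) [Fintype α] [Fintype β] (I J : Ideal (Sx N)) (h : I ≤ J)
    (V : ℕ → Submodule ℂ (α → Sx N)) (W : ℕ → Submodule ℂ (β → Sx N)), IsHom I → IsHom J →
    Smooth I c → GV V → GV W → LFr I J V →
    FGP (Finset.univ : Finset (Fin (N + 1))) (fun _ => ⊥) V →
    FGP (Finset.univ : Finset (Fin (N + 1))) (fun _ => ⊥) W →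
    ∀ i : ℕ, ∃ m0 : ℕ, ∀ m, m0 ≤ m →
      (∀ w ∈ Zc N (TPf I J V W) i m, rho h (α × β) w = 0 → w ∈ Bc N (TPf I J V W) i m) ∧
      (Zc N (TPf I J V W) i m).map (rho h (α × β)) =
        (PV (PV V W) (VT I i) (m - i)).map (redL ((α × β) × Finset (Fin (N + 1))) J) ∧
      (∀ w ∈ Bc N (TPf I J V W) i m, rho h (α × β) w = 0)

end Pool.Agent.Lib.MP_776403_ag.SD
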