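import Pool.Agent.Lib.MP_776403_ag.SD.K.DefsS

/-!
# THEOREM SD, part K: the theorem (RI), and (iii), (iv) of note 4445 (Adams operation)

Statements with complete proofs in the docstrings.  Each `S_S…` is proved in its own module
`SD/K/S….lean` (theorem `kS…`).
-/

set_option autoImplicit false

open MvPolynomial TensorProduct

noncomputable section

namespace Pool.Agent.Lib.MP_776403_ag.SD

/-! ## 1. (RI) -/

/-- THEOREM (RI) (final form; replaces `S_RI`).  For large degrees restriction to the diagonal maps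
the homology `H_i (z; (V / I) ⊗ (W / J))` isomorphically onto `V . W . Λ^i N^*`.

PROOF (uses RLocV, RSur, RDq, KFam, KGF, KLoc, KNoe).  (c): `dg (z_k) = 0`.
(a), (b): apply (KLoc) to the family `U m = Zc N (TPf I J V W) i m ⊓ ker rho`, `V m = Bc … i m`, and to
`U m = Zc … i m`, `V m = {w ∈ Zc … i m | rho w ∈ (PV (PV V W) (VT I i) (m - i)).map redL}` (for `i ≤ m`;
for `m < i` all chains are `0`): all these are graded families (`rho (ix X_k • w) = X_k rho w =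
rho (iy X_k • w)`; `PV`, `VT` are stable under the variables: KGV), the `U` are finitely generated (KNoe with `V = ⊥`,
subfamilies of the finitely generated family of chains: KGF, KFam); `z_k • w ∈ Bc` for a cycle `w`
(KFam), and `rho` of it is `0`; `iy F • w = 0` for `F ∈ J`; locally: RLocV (and
`(ix D - iy D) • w ∈ Bc` because `ix D - iy D = ∑ z_k q_k`, RDq with homogeneous `q_k`, `GF … Bc`).
(b) also uses RSur. -/
def S_RIa : Prop :=
  ∀ (N c : ℕ) (α β : Type) [Fintype α] [Fintype β] (I J : Ideal (Sx N)) (h : I ≤ J)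
    (V : ℕ → Submodule ℂ (α → Sx N)) (W : ℕ → Submodule ℂ (β → Sx N)), IsHom I → IsHom J →
    Smooth I c → GV V → GV W → LFr I J V →
    ∀ i : ℕ, ∃ m0 : ℕ, ∀ m, m0 ≤ m →
      (∀ w ∈ Zc N (TPf I J V W) i m, rho h (α × β) w = 0 → w ∈ Bc N (TPf I J V W) i m) ∧
      (Zc N (TPf I J V W) i m).map (rho h (α × β)) =
        (PV (PV V W) (VT I i) (m - i)).map (redL ((α × β) × Finset (Fin (N + 1))) J) ∧
      (∀ w ∈ Bc N (TPf I J V W) i m, rho h (α × β) w = 0)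

/-! ## 2. The trace of the swap: (iii) -/

/-- (SwT) The swap.

PROOF.  `swC` is an involution with `swC (mk (ix F)) = mk (iy F)`, `swC (mk (iy F)) = mk (ix F)`
(`sw0_ix`, `sw0_iy`, `rename_rename`), `swC (zz k) = - zz k`, `swC` is multiplicative, and
`dg le_rfl ∘ swC = dg le_rfl` (check on the variables: both `x_k` and `y_k` go to `X_k`).
`TPf`: the generator `v(x)_a w(y)_b` goes to `(a, b) ↦ swC (v(x)_b w(y)_a) = w(x)_a v(y)_b`.
`rho (tw s ω) (p, T) = (-1)^|T| dg (swC (ω T (p.2, p.1)))`. -/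
def S_SwT : Prop :=
  ∀ (N : ℕ) (α : Type) (I : Ideal (Sx N)),
    (∀ c, swT α I (swT α I c) = c) ∧
    (∀ (k : Fin (N + 1)) (c : α × α → CR I I),
      swT α I ((zz k : Rx N) • c) = -((zz k : Rx N) • swT α I c)) ∧
    (∀ (V : ℕ → Submodule ℂ (α → Sx N)) (m : ℕ), ∀ c ∈ TPf I I V V m,
      swT α I c ∈ TPf I I V V m) ∧
    (∀ ω : Cn N (α × α → CR I I), rho (le_refl I) (α × α) (tw (swT α I) ω) =
      tauK α I (rho (le_refl I) (α × α) ω)) ∧
    (∀ u, tauK α I (tauK α I u) = u) ∧ (∀ (γ : Type) u, tau2 α γ I (tau2 α γ I u) = u) ∧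
    (∀ u, tau1 α I (tau1 α I u) = u)

/-- (SRi) The trace on the homology in large degrees.

PROOF (S_RIa, S_KTri, S_KFam, S_KGF, S_SwT).  `J = I`, `W = V`.  KTri for `f = rho`, `s = tw (swT α I)`,
`s' = tauK α I`, `U = Zc`: `tw (swT α I)` is an involution, commutes with `dK` (as in `S_KEuT`:
`swT (z_k c) = - z_k swT c`), so it preserves `Zc` (and `Kc`: `TPf` is stable).
`U ⊓ ker rho = Bc` (S_RIa (a), (c) and `Bc ≤ Zc`), `U.map rho` is given by S_RIa (b). -/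
def S_SRi : Prop :=
  ∀ (N c : ℕ) (α : Type) [Fintype α] (I : Ideal (Sx N)), IsHom I → Smooth I c →
    ∀ V : ℕ → Submodule ℂ (α → Sx N), GV V → LFr I I V → ∀ i : ℕ, ∃ m0 : ℕ, ∀ m, m0 ≤ m →
      tri (tw (swT α I)) (Zc N (TPf I I V V) i m) - tri (tw (swT α I)) (Bc N (TPf I I V V) i m) =
        tri (tauK α I)
          ((PV (PV V V) (VT I i) (m - i)).map (redL ((α × α) × Finset (Fin (N + 1))) I))

/-- (SSg) The eigenspaces of the swap on `V . V . Y`.

PROOF.  `Q = (PV (PV V V) Y k).map redL` is spanned by the reductions of the `g = v_a w_b y_t`.  The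
eigenspace for `ε = ± 1` is the image of `Q` under `(1 + ε τ)/2` (`u = (u + ε τ u)/2` for `τ u = ε u`),
and `(g + ε τ g)` is the generator `(v_a w_b + ε w_a v_b) y_t` of `PV (SV ε V) Y k`
(`PV (SV ε V) Y k` is spanned by these: `Submodule.span_induction` in the first factor), which is in
`Q` and satisfies `τ = ε`.  So `Q ⊓ ker (τ - ε) = (PV (SV ε V) Y k).map redL`.  The last two
statements: the same without `Y`; and `tauK = (-1)^i tau2` on vectors supported at the `T` with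
`|T| = i` (`VT I i`), `tri (- s) = - tri s`. -/
def S_SSg : Prop :=
  (∀ (N : ℕ) (α γ : Type) (I : Ideal (Sx N)) (V : ℕ → Submodule ℂ (α → Sx N))
    (Y : ℕ → Submodule ℂ (γ → Sx N)) (k : ℕ),
    tri (tau2 α γ I) ((PV (PV V V) Y k).map (redL ((α × α) × γ) I)) =
      (hV I (PV (SV 1 V) Y) k : ℤ) - hV I (PV (SV (-1) V) Y) k) ∧
  (∀ (N : ℕ) (α : Type) (I : Ideal (Sx N)) (V : ℕ → Submodule ℂ (α → Sx N)) (k : ℕ),
    tri (tau1 α I) ((PV V V k).map (redL (α × α) I)) =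
      (hV I (SV 1 V) k : ℤ) - hV I (SV (-1) V) k) ∧
  (∀ (N : ℕ) (α : Type) (I : Ideal (Sx N)) (V : ℕ → Submodule ℂ (α → Sx N)) (i k : ℕ),
    tri (tauK α I) ((PV (PV V V) (VT I i) k).map (redL ((α × α) × Finset (Fin (N + 1))) I)) =
      (-1) ^ i * ((hV I (PV (SV 1 V) (VT I i)) k : ℤ) - hV I (PV (SV (-1) V) (VT I i)) k))

/-- (SPerm) The trace of an involution which permutes a basis.

PROOF.  `W' = span (range b)` with basis `b`.  If `w = ∑ x_i b_i` then `s w = ∑ x_i b_(π i)`, so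
`s w = w` iff `x_(π i) = x_i`, and `s w = - w` iff `x_(π i) = - x_i`.  With `f` = number of fixed points
and `p` = number of pairs `{i, π i}`, `i ≠ π i`, the dimensions are `f + p` and `p`.  (One way: induction
on the number of indices, removing a fixed point or a pair; or: functions on the orbits; or the trace:
`dim W'^+ - dim W'^- = trace (s)`, `LinearMap.trace` in the basis `b` is the number of fixed points.) -/
def S_SPerm : Prop :=
  ∀ (W : Type) [AddCommGroup W] [Module ℂ W] (ι : Type) [Fintype ι] [DecidableEq ι] (b : ι → W)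
    (π : ι → ι) (s : W →ₗ[ℂ] W), LinearIndependent ℂ b → (∀ i, π (π i) = i) →
    (∀ i, s (b i) = b (π i)) →
    tri s (Submodule.span ℂ (Set.range b)) = ((Finset.univ.filter fun i => π i = i).card : ℤ)

/-- The index set of a basis of the degree `m` part of a tensor product. -/
abbrev PIx (n n' : ℕ → ℕ) (m : ℕ) : Type :=
  {q : (Σ k : Fin (m + 1), Fin (n k)) × (Σ k : Fin (m + 1), Fin (n' k)) //
    (q.1.1 : ℕ) + (q.2.1 : ℕ) = m}

/-- (STB) Basis of the degree `m` part of `(V / I) ⊗ (W / J)`.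

PROOF.  As in `S_KTP` (`SpecK.lean`).  Spanning: bilinearity, `ix (I)`, `iy (J)` are in `cc I J`; a
generator `v(x) w(y)` of degree `m`, `v ∈ V k1`, `w ∈ W k2`: modulo `I` resp. `J` `v` is a combination of the
`v k1 i` and `w` of the `w k2 j`.  Independence: the algebra homomorphism
`CR I J → (S/I) ⊗ (S/J)`, `x_i ↦ x_i ⊗ 1`, `y_i ↦ 1 ⊗ x_i`, sends the vectors to
`(p ↦ v_x (p.1) ⊗ w_y (p.2))`.  The family of all `redL (v k i)`, `(k, i)` variable, is linearly independent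
in `α → S/I` (a relation splits into degrees because `I` is homogeneous), the same for `w`; tensor
products of independent families are independent in `(α → S/I) ⊗ (β → S/J)`
(`LinearIndependent.tmul…` / `Module.Basis.tensorProduct` after extension to bases), which embeds
into `α × β → (S/I) ⊗ (S/J)` for `α`, `β` finite. -/
def S_STB : Prop :=
  ∀ (N : ℕ) (α β : Type) [Finite α] [Finite β] (I J : Ideal (Sx N)), IsHom I → IsHom J →
    ∀ (V : ℕ → Submodule ℂ (α → Sx N)) (W : ℕ → Submodule ℂ (β → Sx N)), GV V → GV W →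
    ∀ (n n' : ℕ → ℕ) (v : ∀ k, Fin (n k) → (α → Sx N)) (w : ∀ k, Fin (n' k) → (β → Sx N)),
    (∀ k i, v k i ∈ V k) → (∀ k, LinearIndependent ℂ fun i => redL α I (v k i)) →
    (∀ k, Submodule.span ℂ (Set.range fun i => redL α I (v k i)) = (V k).map (redL α I)) →
    (∀ k i, w k i ∈ W k) → (∀ k, LinearIndependent ℂ fun i => redL β J (w k i)) →
    (∀ k, Submodule.span ℂ (Set.range fun i => redL β J (w k i)) = (W k).map (redL β J)) →
    ∀ m : ℕ,
    LinearIndependent ℂ (fun q : PIx n n' m => (fun p : α × β => Ideal.Quotient.mk (cc I J)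
      (ix (v q.1.1.1 q.1.1.2 p.1) * iy (w q.1.2.1 q.1.2.2 p.2)))) ∧
    Submodule.span ℂ (Set.range fun q : PIx n n' m => (fun p : α × β => Ideal.Quotient.mk (cc I J)
      (ix (v q.1.1.1 q.1.1.2 p.1) * iy (w q.1.2.1 q.1.2.2 p.2)))) = TPf I J V W m

/-- (STr) The trace of the swap on `(V / I) ⊗ (V / I)`.

PROOF (S_STB, S_SPerm).  Choose bases `v k i`, `i < n k = hV I V k` (elements of `V k` whose reductions
are a basis of `(V k).map (redL α I)`).  (S_STB) with `w = v`: basis `b_q` of `TPf I I V V m`, and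
`swT (b_q) = b_(π q)`, `π (x, y) = (y, x)`.  (S_SPerm): the fixed points are the `(x, x)` with
`2 x.1 = m`: `n (m / 2)` if `m` is even, none if `m` is odd. -/
def S_STr : Prop :=
  ∀ (N : ℕ) (α : Type) [Finite α] (I : Ideal (Sx N)), IsHom I →
    ∀ V : ℕ → Submodule ℂ (α → Sx N), GV V → ∀ m : ℕ,
    tri (swT α I) (TPf I I V V m) = if Even m then (hV I V (m / 2) : ℤ) else 0

/-- (SEul) THE TRACE FORMULA (iii).

PROOF (S_SRi, S_SSg, S_KEuT, S_STr, S_SwT, S_KGF).  KEuT for `A = TPf I I V V`, `s = swT α I`.  The left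
side is `∑ (-1)^i tri (tauK) (…) = ∑_i (-1)^i (-1)^i (…)` for large `m` (finitely many `i`) by SRi and
SSg (third part); the right side is computed by STr. -/
def S_SEul : Prop :=
  ∀ (N c : ℕ) (α : Type) [Fintype α] (I : Ideal (Sx N)), IsHom I → Smooth I c →
    ∀ V : ℕ → Submodule ℂ (α → Sx N), GV V → LFr I I V → ∃ m0 : ℕ, ∀ m, m0 ≤ m →
      ∑ i ∈ Finset.range (N + 2), ((hV I (PV (SV 1 V) (VT I i)) (m - i) : ℤ) -
          hV I (PV (SV (-1) V) (VT I i)) (m - i)) =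
        ∑ i ∈ Finset.range (N + 2), (Nat.choose (N + 1) i : ℤ) *
          (if i ≤ m then (if Even (m - i) then (hV I V ((m - i) / 2) : ℤ) else 0) else 0)

/-! ## 3. `Λ^n (N^* ⊗ ℂ^2)`: (iv) -/

/-- (SAct) The action of `2 × 2` matrices.

PROOF.  (1) `aH h (aH h' u) α = ∑_η ∏_m h (α_m, η_m) ∑_ζ ∏_m h' (η_m, ζ_m) u (ζ)`;
`∑_η ∏_m h (α_m, η_m) h' (η_m, ζ_m) = ∏_m ∑_η h (α_m, η) h' (η, ζ_m)` (`Finset.prod_univ_sum`,
`Fintype.piFinset_univ`).  (2) `h = 1`: only `η = (α m).2` contributes.  (3) For the generator with data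
`a, F, v` the image is the generator with data `a, F, h v_i` (`Matrix.mulVec`):
`∑_η ∏_m h (α_m, η_m) det (v_i (η_m) ∂_(k_m) F_i) = det (∑_η h (α_m, η) v_i (η) ∂_(k_m) F_i)`
(multilinearity of the determinant in the columns, or `Matrix.det_apply` and
`Finset.prod_univ_sum`).  (4) `LN I n k` is contained in the image under reduction of the vectors of
forms of degree `k` (if some `f i = 0` the determinant is `0`): finite-dimensional. -/
def S_SAct : Prop :=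
  ∀ (N : ℕ) (I : Ideal (Sx N)) (n : ℕ),
    (∀ h h' u, aH I n (h * h') u = aH I n h (aH I n h' u)) ∧ (∀ u, aH I n 1 u = u) ∧
    (∀ h k, ∀ u ∈ LN I n k, aH I n h u ∈ LN I n k) ∧ ∀ k, FiniteDimensional ℂ (LN I n k)

/-- (SCnj) The swap and `diag (1, -1)` are conjugate.

PROOF (S_SAct).  `H = !![1, -1/2; 1, 1/2]`, `H⁻¹ = !![1/2, 1/2; -1, 1]`, `mP * H = H * mQ`.  `aH H` maps
`LN I n k` bijectively onto itself (inverse `aH H⁻¹`) and `LN ⊓ ker (aH mQ ∓ 1)` onto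
`LN ⊓ ker (aH mP ∓ 1)`: `aH mP (aH H u) = aH H (aH mQ u)`. -/
def S_SCnj : Prop :=
  ∀ (N : ℕ) (I : Ideal (Sx N)) (n k : ℕ),
    tri (aH I n mP) (LN I n k) = tri (aH I n mQ) (LN I n k)

/-- (SDec) Decomposition by the weight.

PROOF (S_SAct).  Let `e_0, e_1` be the standard basis of `ℂ^2`.  Expanding the `v_i` (multilinearity of
the determinant in the rows) `LN I n k` is spanned by the generators with all `v_i ∈ {e_0, e_1}`; such a
generator with `b` of the `v_i` equal to `e_1` is in `LB I n b k`: if `det (v_i (ε_m) ∂_(k_m) F_i) ≠ 0` then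
some permutation `σ` has `v_(σ m) (ε_m) ≠ 0` for all `m`, so `#{m | ε_m = 1} = b`.  So
`LN I n k = ⨆_(b ≤ n) LB I n b k`, and the sum is direct (disjoint supports).
(1) `aH mQ` acts on `LB I n b k` by `(-1)^b` (`(aH mQ u) α = (∏_m (-1)^[ε_m = 1]) u α`), so
`tri = ∑_b (-1)^b dim LB` (`LN ⊓ ker (aH mQ - 1)` is the sum of the `LB` with `b` even).
(2) `(aH mP u)(k, ε) = u (k, 1 - ε)`: `aH mP` maps `LB I n b k` onto `LB I n (n - b) k`.  For `n = j + j` the
sum `U_b = LB b ⊕ LB (2j - b)`, `b < j`, is stable with `tri = 0` (`U_b ⊓ ker (aH mP ∓ 1)` is the set of the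
`u ± aH mP u`, `u ∈ LB b`, of dimension `dim LB b`), and `tri` is additive for direct sums of stable
subspaces. -/
def S_SDec : Prop :=
  ∀ (N : ℕ) (I : Ideal (Sx N)) (k : ℕ),
    (∀ n : ℕ, tri (aH I n mQ) (LN I n k) =
      ∑ b ∈ Finset.range (n + 1), (-1 : ℤ) ^ b * Module.finrank ℂ (LB I n b k)) ∧
    ∀ j : ℕ, tri (aH I (j + j) mP) (LN I (j + j) k) =
      tri (aH I (j + j) mP) (LB I (j + j) j k)

/-- The restriction of `u` to sorted second components. -/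
def psiB {N : ℕ} (I : Ideal (Sx N)) (a b : ℕ) :
    ((Fin (a + b) → Fin (N + 1) × Fin 2) → Sx N ⧸ I) →ₗ[ℂ]
      ((Fin a → Fin (N + 1)) × (Fin b → Fin (N + 1)) → Sx N ⧸ I) where
  toFun u := fun p => u (Fin.append (fun m => (p.1 m, 0)) (fun m => (p.2 m, 1)))
  map_add' u v := by funext p; rfl
  map_smul' r u := by funext p; rfl

/-- (SDim) `LB I (a + b) b k` is `Λ^a N^* . Λ^b N^*`.

PROOF.  All `u ∈ LN` are alternating: `u (α ∘ σ) = sign σ u (α)` (columns of the determinant).  If `α` has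
exactly `b` second components `1` then `α = α₀ ∘ σ` with `α₀` of the form
`Fin.append (·, 0) (·, 1)`; so `psiB` is injective on `LB I (a + b) b k`.  As in (SDec) `LB I (a + b) b k` is
spanned by the generators with `v_i ∈ {e_0, e_1}`, exactly `b` of them `e_1` (expand an element of `LN`;
the generators of other weights contribute to other supports); permuting the rows (and `F`) we may
take `v_i = e_0` for the first `a` and `e_1` for the last `b` indices.  `psiB` of such a generator is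
`a₀ det (block diagonal) = a₀ det (∂_(k'_m) F_i)_(i < a) det (∂_(k''_m) F_(a + i))_(i < b)`
(`Matrix.det_fromBlocks_zero₂₁` after reindexing by `finSumFinEquiv`), a generator of the reduction of
`PV (VL I a) (VL I b) k` (degrees: `e + ∑ f = k + a + b`; split `a₀ = a₀ · 1` with degree
`k1 = e + ∑_(i<a) f_i - a ≥ 0` and `k2 = ∑_(i ≥ a) f_i - b`: if some `f_i = 0` the determinant vanishes, so
we may assume `f_i ≥ 1`), and conversely. -/
def S_SDim : Prop :=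
  ∀ (N : ℕ) (I : Ideal (Sx N)) (a b k : ℕ),
    (∀ u ∈ LB I (a + b) b k, psiB I a b u = 0 → u = 0) ∧
    (LB I (a + b) b k).map (psiB I a b) =
      (PV (VL I a) (VL I b) k).map (redL ((Fin a → Fin (N + 1)) × (Fin b → Fin (N + 1))) I) ∧
    Module.finrank ℂ (LB I (a + b) b k) = hV I (PV (VL I a) (VL I b)) k

/-- (STau) The swap on `Λ^j N^* . Λ^j N^*`.

PROOF (S_SDim, S_SSg, S_SAct).  For `u ∈ LB I (j + j) j k`:
`psiB (aH mP u) (k', k'') = u ((k', 1), (k'', 0)) = (-1)^(j j) u ((k'', 0), (k', 1)) = (-1)^j psiB u (k'', k')`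
(the block permutation of `j + j` places has sign `(-1)^(j j)`; `u` alternating).  `psiB` is an isomorphism
of `LB` onto the reduction of `PV (VL I j) (VL I j) k`, so `tri (aH mP) (LB …) = tri ((-1)^j tau1) (…)`
`= (-1)^j tri tau1 (…)`; S_SSg (second part). -/
def S_STau : Prop :=
  ∀ (N : ℕ) (I : Ideal (Sx N)) (j k : ℕ),
    tri (aH I (j + j) mP) (LB I (j + j) j k) =
      (-1) ^ j * ((hV I (SV 1 (VL I j)) k : ℤ) - hV I (SV (-1) (VL I j)) k)

/-- (SIV) (iv): `(-1)^j ψ² (Λ^j N^*) = ∑_(a + b = 2 j) (-1)^b Λ^a N^* . Λ^b N^*`.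

PROOF (S_SCnj, S_SDec, S_SDim, S_STau).  `(-1)^j (…) = tri (aH mP) (LB j) = tri (aH mP) (LN) =
tri (aH mQ) (LN) = ∑_b (-1)^b dim LB b`, and `j + j = (j + j - b) + b`. -/
def S_SIV : Prop :=
  ∀ (N : ℕ) (I : Ideal (Sx N)) (j k : ℕ),
    (-1) ^ j * ((hV I (SV 1 (VL I j)) k : ℤ) - hV I (SV (-1) (VL I j)) k) =
      ∑ b ∈ Finset.range (j + j + 1),
        (-1 : ℤ) ^ b * (hV I (PV (VL I (j + j - b)) (VL I b)) k : ℤ)

/-! ## 4. Arithmetic -/

/-- (SGV) `SV` is a graded submodule.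

PROOF.  Homogeneity: products.  Stability: `X_i (v w + ε w v) = (X_i v) w + ε w (X_i v)`. -/
def S_SGV : Prop :=
  ∀ (N : ℕ) (α : Type) (ε : ℤ) (V : ℕ → Submodule ℂ (α → Sx N)), GV V → GV (SV ε V)

/-- (SFr) Local frames for `Λ^j N^*` with dual functionals.

PROOF.  As for `S_KLF` in `SpecK.lean` (same notation): `Δ = det M`, `P = adj M`,
`τ_(l, i) = ∑_b ∂_(B b) G_l P_(b i)`.  For `G_l = F_(A' l)` one has `τ_(l, i) = Δ δ_(A' l, i)`, so
`det (τ_(l, A l')) = Δ^j` for `A = A'` and `0` for `A ≠ A'` (strictly increasing maps):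
`ρ_A · e_(A') = Δ^j δ_(A A')` exactly. -/
def S_SFr : Prop :=
  ∀ (N c : ℕ) (I J : Ideal (Sx N)), I.IsPrime → IsHom I → Smooth I c → I ≤ J → ∀ j : ℕ,
    ∀ p ∈ zer J, p ≠ 0 → ∃ (e ρ : Fin (Nat.choose c j) → ((Fin j → Fin (N + 1)) → Sx N))
      (κ : Fin (Nat.choose c j) → ℕ) (D : Sx N) (δ : ℕ),
      D.IsHomogeneous δ ∧ eval p D ≠ 0 ∧ (∀ l, e l ∈ VL I j (κ l) ∧ κ l ≤ δ ∧
        ∀ a, (ρ l a).IsHomogeneous (δ - κ l)) ∧
      (∀ m, ∀ v ∈ VL I j m, ∀ a, D * v a - ∑ l, (∑ a', ρ l a' * v a') * e l a ∈ I) ∧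
      ∀ l l', ∑ a, ρ l a * e l' a - (if l = l' then D else 0) ∈ I

/-- (SRk) The Hilbert function of `Λ^j N^*` up to shifts.

PROOF (S_SFr with `J = I`).  `D ∉ I` as `D (p) ≠ 0`.  Lower bound: `(b_l)_l ↦ ∑ b_l e_l` maps
`⊕_(l, κ l ≤ k) gr I (k - κ l)` into `(VL I j k).map redL` (`b e_l ∈ VL I j k` for a form `b`: KGV), and it
is injective: `∑ b_l e_l = 0` gives `D b_l = ∑ ρ_l · (∑ b_l' e_l') = 0` modulo `I`, `b_l ∈ I`.  Upper
bound: `v ↦ (ρ_l · v)_l`, `(VL I j k).map redL → ⊕_l gr I (k + δ - κ l)` is injective: if all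
`ρ_l · v ∈ I` then `D v_a ∈ I`, `v_a ∈ I`. -/
def S_SRk : Prop :=
  ∀ (N c : ℕ) (I : Ideal (Sx N)), I.IsPrime → IsHom I → Smooth I c → (∃ y ∈ zer I, y ≠ 0) →
    ∀ j : ℕ, ∃ (κ : Fin (Nat.choose c j) → ℕ) (δ : ℕ), (∀ l, κ l ≤ δ) ∧ ∀ k : ℕ,
      (∑ l, if κ l ≤ k then Module.finrank ℂ (gr I (k - κ l)) else 0) ≤ hV I (VL I j) k ∧
      hV I (VL I j) k ≤ ∑ l, Module.finrank ℂ (gr I (k + δ - κ l))

/-- (SGr) Growth and divisibility.

PROOF.  For real `0 < x < 1` the series `f(x) = ∑ f(k) x^k`, `g(x) = ∑ g(k) x^k` converge and equal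
`P(x) / (1 - x)^(N+1)` and `h(x) / (1 - x)^(N+1-c)` (`(1-X)^(-M)` has the coefficients
`binom (k + M - 1) (M - 1)`; `hasSum_choose_mul_geometric_of_norm_lt_one`; finite sums of shifted
series).
(1) `0 ≤ f(x) ≤ C x^(-δ) g(x)`, so `0 ≤ P(x) ≤ C x^(-δ) h(x) (1 - x)^c` for `0 < x < 1`; if
`P = (1 - X)^e P₁` with `P₁(1) ≠ 0`, `e < c`, then `P₁(x) (1-x)^(e-c)` is bounded for `x → 1`, a
contradiction.  So `(1 - X)^c ∣ P` in `ℤ[X]` (`X - 1` is monic).
(2) With `P = (1 - X)^c q`: `∑_l x^(κ l) g(x) ≤ f(x) ≤ ∑_l x^(κ l - δ) g(x)`, multiply by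
`(1 - x)^(N+1-c)`: `∑_l x^(κ l) h(x) ≤ q(x) ≤ ∑_l x^(κ l - δ) h(x)`; `x → 1`: `q(1) = r h(1)`.
(Or: for large `k` all functions are polynomials in `k`, `Polynomial.hilbertPoly`.) -/
def S_SGr : Prop :=
  ∀ (N c : ℕ), c ≤ N → ∀ (h P : Polynomial ℤ) (f g : ℕ → ℕ), QP N c g h → QP N 0 f P →
    ((∃ C δ : ℕ, ∀ k, f k ≤ C * ∑ e ∈ Finset.range (δ + 1), g (k + e)) →
      ∃ q, P = (1 - Polynomial.X) ^ c * q) ∧
    ∀ (r : ℕ) (κ : Fin r → ℕ) (δ : ℕ), (∀ l, κ l ≤ δ) →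
      (∀ k, (∑ l, if κ l ≤ k then g (k - κ l) else 0) ≤ f k ∧ f k ≤ ∑ l, g (k + δ - κ l)) →
      ∀ q, P = (1 - Polynomial.X) ^ c * q → q.eval 1 = (r : ℤ) * h.eval 1

/-- (SDv) Every graded submodule of `S^α` has a Hilbert series `q / (1 - T)^(N+1-c)`.

PROOF (S_KHV, S_SGr (1)).  `(V k).map (redL α I) ⊆ (gr I k)^α` (GV: entries are forms of degree `k`), so
`hV I V k ≤ |α| finrank (gr I k)`. -/
def S_SDv : Prop :=
  ∀ (N c : ℕ), c ≤ N → ∀ (I : Ideal (Sx N)) (h : Polynomial ℤ),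
    QP N c (fun k => Module.finrank ℂ (gr I k)) h →
    ∀ (α : Type) [Finite α] (V : ℕ → Submodule ℂ (α → Sx N)), GV V → ∃ q, QP N c (hV I V) q

/-- (SKI) (KI) in terms of the `q`.

PROOF (S_KI, S_KLF, S_KGV).  (S_KI) for `V = VL I i`, `J = I`: multiply by `(1 - T)^(N+1)`:
`(1 - T)^(2c) (q_V q_W - h q_(V.W))` is divisible by `(1 - T)^(N+1)` as a power series, hence
(`ℤ[[T]]` is a domain, and a polynomial divisible by `(1 - T)^e` … NOTE: in `ℤ[[T]]` `1 - T` is a unit; the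
statement of `S_KI` is that the power series is a polynomial `p`, so `(1-T)^(2c) (…) = (1-T)^(N+1) p` in
`ℤ[T]`) `(1 - T)^(N+1-2c) ∣ q_V q_W - h q_(V.W)` (cancel `(1-T)^(2c)` if `2c ≤ N + 1`, otherwise the claim
is trivial). -/
def S_SKI : Prop :=
  ∀ (N c : ℕ), c ≤ N → ∀ (I : Ideal (Sx N)) (h : Polynomial ℤ), I.IsPrime → IsHom I →
    Smooth I c → QP N c (fun k => Module.finrank ℂ (gr I k)) h →
    ∀ (i : ℕ) (β : Type) [Fintype β] (W : ℕ → Submodule ℂ (β → Sx N)), GV W →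
    ∀ qi qW qP : Polynomial ℤ, QP N c (hV I (VL I i)) qi → QP N c (hV I W) qW →
    QP N c (hV I (PV (VL I i) W)) qP →
    (1 - Polynomial.X) ^ (N + 1 - 2 * c) ∣ qi * qW - h * qP

/-- (SFE) The functional equation.

PROOF (S_SKI, S_SEul, S_SIV, S_KPV, S_SDv, S_SGV, S_KGV, S_KTop, S_KLF).  All congruences are modulo
`(1 - T)^m`, `m = N + 1 - 2c`.  For `j ≤ c` let `p_j` be with `QP N c (hV I (VL I j)) p_j`; `q_j = T^j p_j`
(hypothesis; for `j > c` `q_j = 0` and, by KTop, `p_j ≡ 0`: `(1-T)^(N+1) ∣ (1-T)^c p_j`).  Fix `j`, `V = VL I j`,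
`s^ε` with `QP N c (hV I (SV ε V)) s^ε`, `a_i^ε` with `QP N c (hV I (PV (SV ε V) (VT I i))) a_i^ε`
(SDv).  `hV I (PV (SV ε V) (VT I i)) = hV I (PV (SV ε V) (VL I i)) = hV I (PV (VL I i) (SV ε V))` (KPV;
exchange of the factors), so SKI: `p_i s^ε ≡ h a_i^ε`.
SEul: `∑_i T^i (ps (a_i^+) - ps (a_i^-)) - (1 + T)^(N+1) (ps (hV I V))(T²)` is a polynomial, where
`(ps f)(T²) = ∑ f(k) T^(2k)`; times `(1 - T)^(N+1)`:
`∑_i T^i (1-T)^c (a_i^+ - a_i^-) - (1 - T²)^c p_j(T²) ∈ (1-T)^(N+1) ℤ[T]`, so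
`∑_i T^i (a_i^+ - a_i^-) ≡ (1 + T)^c p_j(T²)`; times `h`:
(1) `(∑_i T^i p_i) (s^+ - s^-) ≡ h (1+T)^c p_j(T²)`.
For `j = 0`: `hV I (VL I 0) = finrank (gr I)`, `SV (-1) (VL I 0) = 0`, `SV 1 (VL I 0)` = all products =
all forms: `s^+ = h`, `s^- = 0`: `(∑_i T^i p_i) h ≡ h (1+T)^c h(T²)`; `h (1) ≠ 0`, cancel (`1 - T` is prime
in `ℤ[T]`): (2) `∑_i T^i p_i ≡ (1+T)^c h(T²)`.  (1), (2), cancel `(1+T)^c`:
(3) `h(T²) (s^+ - s^-) ≡ h p_j(T²)`.  SIV: `(-1)^j (s^+ - s^-) = ∑_b (-1)^b π_b` exactly, where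
`QP N c (hV I (PV (VL I (2j-b)) (VL I b))) π_b` (`QP` determines the polynomial), and SKI:
`p_(2j-b) p_b ≡ h π_b`, so (4) `(-1)^j h (s^+ - s^-) ≡ ∑_b (-1)^b p_(2j-b) p_b`.  Multiply (3) by
`(-1)^j h` and insert (4): `h(T²) ∑_b (-1)^b p_(2j-b) p_b ≡ (-1)^j h² p_j(T²)`; multiply by `T^(2j)`
(`T^(2j) p_j(T²) = q_j(T²)`, `T^(2j) p_a p_b = q_a q_b`); `q 0 = h`.  For `j > c` use `q_j = 0` and that in
every term of the sum `a > c` or `b > c`. -/
def S_SFE : Prop :=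
  ∀ (N c : ℕ), c ≤ N → ∀ (I : Ideal (Sx N)) (h : Polynomial ℤ), I.IsPrime → IsHom I →
    Smooth I c → QP N c (fun k => Module.finrank ℂ (gr I k)) h → 0 < h.eval 1 →
    ∀ q p : ℕ → Polynomial ℤ, (∀ j, QP N c (hV I (VL I j)) (p j)) →
    (∀ j, q j = if j ≤ c then Polynomial.X ^ j * p j else 0) → ∀ j : ℕ,
    (1 - Polynomial.X) ^ (N + 1 - 2 * c) ∣
      (-1) ^ j * (q j).comp (Polynomial.X ^ 2) * (q 0) ^ 2 -
      (q 0).comp (Polynomial.X ^ 2) *
        ∑ p ∈ Finset.HasAntidiagonal.antidiagonal (2 * j), (-1) ^ p.2 * q p.1 * q p.2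

/-- (SDat) The data for the part (v)-(vii).

PROOF (S_SFE, S_KII, S_SDv, S_SGr, S_SRk, S_KTop, S_KPV, S_KGV, S_KHV).  `p j` by SDv for `VL I j`, `q` as
in SFE; `q 0 = h` since `hV I (VL I 0) = finrank (gr I)` (`VL I 0 k` = forms of degree `k`, on the one point
set `Fin 0 → _`).  `h1`: for `j ≤ c` SRk and SGr (2) with `g = finrank (gr I)`; for `j > c` both sides
are `0`.  `fe`: SFE.  `ii`: KII times `(1 - T)^(N+1)`:
`(1-T)^(2c) h² - ∑_i (-1)^i T^i (1-T)^c p_i ∈ (1-T)^(N+1) ℤ[T]`, with `(1-T)^(N+1) ∣ (1-T)^c p_i` for `i > c`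
(KTop: `hV I (VL I i) k = 0` for large `k`); divide by `(1-T)^c`: even modulo `(1-T)^(N+1-c)`. -/
def S_SDat : Prop :=
  ∀ (N c : ℕ), c ≤ N → ∀ (I : Ideal (Sx N)) (h : Polynomial ℤ), I.IsPrime → IsHom I →
    Smooth I c → (∃ y ∈ zer I, y ≠ 0) → QP N c (fun k => Module.finrank ℂ (gr I k)) h →
    0 < h.eval 1 → ∃ q : ℕ → Polynomial ℤ, q 0 = h ∧ SDV.Dat c (N + 1 - 2 * c) q ∧
      ∀ j, j ≤ c → ∃ p, QP N c (hV I (VL I j)) p ∧ q j = Polynomial.X ^ j * p

end Pool.Agent.Lib.MP_776403_ag.SD
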